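import Pool.Agent.Rein69.Seq

set_option autoImplicit false

namespace Rein83

open Complex Finset Rein69

/-- determinant of the hexagon at `φ` (in units of root three over two) -/
noncomputable def Dt (N : ℂ → ℝ) (φ : ℝ) : ℝ := normSq (hA N φ) - normSq (hB N φ)

/-- the inverse of `lin c d` -/
noncomputable def linv (c d z : ℂ) : ℂ :=
  ((1 / (normSq c - normSq d) : ℝ) : ℂ) * ((starRingEnd ℂ) c * z - d * (starRingEnd ℂ) z)

/-- first hexagon coordinate in the gauge `(c, d)`, not normalised -/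
noncomputable def gA (N : ℂ → ℝ) (c d : ℂ) (φ : ℝ) : ℂ :=
  (starRingEnd ℂ) c * hA N φ - d * (starRingEnd ℂ) (hB N φ)

/-- second hexagon coordinate in the gauge `(c, d)`, not normalised -/
noncomputable def gB (N : ℂ → ℝ) (c d : ℂ) (φ : ℝ) : ℂ :=
  (starRingEnd ℂ) c * hB N φ - d * (starRingEnd ℂ) (hA N φ)

section
variable {c d : ℂ}

lemma lin_linv (h : 0 < normSq c - normSq d) (z : ℂ) : lin c d (linv c d z) = z := by
  have h0 : ((normSq c - normSq d : ℝ) : ℂ) ≠ 0 := by exact_mod_cast h.ne'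
  have e : ((normSq c - normSq d : ℝ) : ℂ) = c * (starRingEnd ℂ) c - d * (starRingEnd ℂ) d := by
    push_cast
    rw [Complex.mul_conj, Complex.mul_conj]
  unfold lin linv
  simp only [map_mul, map_sub, Complex.conj_conj, Complex.conj_ofReal]
  rw [Complex.ofReal_div, Complex.ofReal_one]
  field_simp
  rw [e]; ring

lemma linv_eq (z : ℂ) : linv c d z = lin (((1 / (normSq c - normSq d) : ℝ) : ℂ) *
    (starRingEnd ℂ) c) (-(((1 / (normSq c - normSq d) : ℝ) : ℂ) * d)) z := by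
  unfold lin linv; ring

lemma linv_sub (u v : ℂ) : linv c d (u - v) = linv c d u - linv c d v := by
  rw [linv_eq, linv_eq, linv_eq, lin_sub]

lemma linv_neg (u : ℂ) : linv c d (-u) = - linv c d u := by
  rw [linv_eq, linv_eq, lin_neg]

lemma cr_linv (h : 0 < normSq c - normSq d) (u v : ℂ) :
    cr (linv c d u) (linv c d v) = 1 / (normSq c - normSq d) * cr u v := by
  have h1 := cr_lin c d (linv c d u) (linv c d v)
  rw [lin_linv h, lin_linv h] at h1
  rw [h1]; field_simp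

lemma linv_p (a b : ℂ) : linv c d (a + b) =
    ((1 / (normSq c - normSq d) : ℝ) : ℂ) * ((starRingEnd ℂ) c * a - d * (starRingEnd ℂ) b) +
    ((1 / (normSq c - normSq d) : ℝ) : ℂ) * ((starRingEnd ℂ) c * b - d * (starRingEnd ℂ) a) := by
  unfold linv; simp only [map_add]; ring

lemma linv_q (a b : ℂ) : linv c d (om * a + ob * b) =
    om * (((1 / (normSq c - normSq d) : ℝ) : ℂ) *
      ((starRingEnd ℂ) c * a - d * (starRingEnd ℂ) b)) +
    ob * (((1 / (normSq c - normSq d) : ℝ) : ℂ) *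
      ((starRingEnd ℂ) c * b - d * (starRingEnd ℂ) a)) := by
  unfold linv; simp only [map_add, map_mul, conj_om, conj_ob]; ring

variable {N : ℂ → ℝ}

variable (hN : IsSN N) (h : 0 < normSq c - normSq d)
include hN h

/-- hexagons are carried to hexagons -/
lemma tr_hex {φ φ2 : ℝ} (hp : P (fun z => N (lin c d z)) φ2 = linv c d (P N φ)) :
    P (fun z => N (lin c d z)) (tau (fun z => N (lin c d z)) φ2) = linv c d (P N (tau N φ)) ∧
    hA (fun z => N (lin c d z)) φ2 =
      ((1 / (normSq c - normSq d) : ℝ) : ℂ) * gA N c d φ ∧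
    hB (fun z => N (lin c d z)) φ2 =
      ((1 / (normSq c - normSq d) : ℝ) : ℂ) * gB N c d φ := by
  have hN2 := hN.comp_lin h
  have h1 : P (fun z => N (lin c d z)) (tau (fun z => N (lin c d z)) φ2) =
      linv c d (P N (tau N φ)) := by
    apply hN2.hex_at
    · rw [lin_linv h, hN.N_P]
    · rw [hp, ← linv_sub, lin_linv h]
      exact (hN.tau_spec φ).2.2
    · rw [hp, cr_linv h]
      exact mul_pos (by positivity) (hN.det_pos φ)
  refine ⟨h1, ?_, ?_⟩
  · show hexA (P _ φ2) (P _ (tau _ φ2)) = _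
    rw [h1, hp, hN.P_tau_eq, hN.P_eq, linv_q, linv_p, hexA_of]; rfl
  · show hexB (P _ φ2) (P _ (tau _ φ2)) = _
    rw [h1, hp, hN.P_tau_eq, hN.P_eq, linv_q, linv_p, hexB_of]; rfl

lemma tr_exists (φ : ℝ) : ∃ φ2, P (fun z => N (lin c d z)) φ2 = linv c d (P N φ) := by
  have hN2 := hN.comp_lin h
  obtain ⟨φ2, h2⟩ := hN2.exists_P (u := linv c d (P N φ)) (by rw [lin_linv h, hN.N_P])
  exact ⟨φ2, h2⟩

lemma tr_surj (φ2 : ℝ) : ∃ φ, P (fun z => N (lin c d z)) φ2 = linv c d (P N φ) := by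
  have hN2 := hN.comp_lin h
  obtain ⟨φ, h2⟩ := hN.exists_P (u := lin c d (P (fun z => N (lin c d z)) φ2)) (hN2.N_P φ2)
  refine ⟨φ, ?_⟩
  rw [h2]
  have hinj : ∀ u v : ℂ, lin c d u = lin c d v → u = v := by
    intro u v huv
    have h3 : lin c d (u - v) = 0 := by rw [lin_sub, huv, sub_self]
    by_contra hne
    have h4 := cr_lin c d (u - v) (I * (u - v))
    rw [h3, cr_zero_left] at h4
    have h5 : cr (u - v) (I * (u - v)) = normSq (u - v) := by
      simp [cr, normSq_apply]; ring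
    rw [h5] at h4
    have h6 : 0 < normSq (u - v) := normSq_pos.mpr (sub_ne_zero.mpr hne)
    have : 0 < (normSq c - normSq d) * normSq (u - v) := mul_pos h h6
    linarith
  apply hinj
  rw [lin_linv h]

/-- the next point -/
lemma tr_next {φ φ' φ2 : ℝ} (hp : P (fun z => N (lin c d z)) φ2 = linv c d (P N φ))
    (h1 : φ < φ') (h2 : φ' < φ + Real.pi) :
    ∃ φ2', φ2 < φ2' ∧ φ2' < φ2 + Real.pi ∧
      P (fun z => N (lin c d z)) φ2' = linv c d (P N φ') := by
  have hN2 := hN.comp_lin h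
  apply hN2.exists_angle
  · rw [lin_linv h, hN.N_P]
  · rw [hp, cr_linv h]
    exact mul_pos (by positivity) (hN.cr_P_pos h1 h2)

lemma tr_le {φ φ' φ2 φ2' : ℝ} (hp : P (fun z => N (lin c d z)) φ2 = linv c d (P N φ))
    (hp' : P (fun z => N (lin c d z)) φ2' = linv c d (P N φ'))
    (h1 : φ < φ') (h2 : φ' ≤ tau N φ) (h4 : φ2' < φ2 + Real.pi) :
    φ2' ≤ tau (fun z => N (lin c d z)) φ2 := by
  have hN2 := hN.comp_lin h
  have ht := (hN2.tau_spec φ2)
  by_contra hcon
  push Not at hcon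
  have e1 := hN2.cr_P_pos hcon (by linarith)
  rw [(tr_hex hN h hp).1, hp', cr_linv h] at e1
  have e2 := hN.cr_P_nonneg h2 (by linarith [(hN.tau_spec φ).2.1])
  have e3 := cr_swap (P N (tau N φ)) (P N φ')
  have hpos : 0 < 1 / (normSq c - normSq d) := by positivity
  have e4 : 0 < cr (P N (tau N φ)) (P N φ') := by
    by_contra hc2
    push Not at hc2
    have := mul_nonpos_of_nonneg_of_nonpos hpos.le hc2
    linarith
  linarith

lemma tr_lt {φ φ' φ2 φ2' : ℝ} (hp : P (fun z => N (lin c d z)) φ2 = linv c d (P N φ))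
    (hp' : P (fun z => N (lin c d z)) φ2' = linv c d (P N φ'))
    (h1 : φ < φ') (h2 : φ' < tau N φ) (h4 : φ2' < φ2 + Real.pi) :
    φ2' < tau (fun z => N (lin c d z)) φ2 := by
  have hN2 := hN.comp_lin h
  have ht := (hN2.tau_spec φ2)
  by_contra hcon
  push Not at hcon
  have e1 := hN2.cr_P_nonneg hcon (by linarith)
  rw [(tr_hex hN h hp).1, hp', cr_linv h] at e1
  have e2 := hN.cr_P_pos h2 (by linarith [(hN.tau_spec φ).2.1])
  have e3 := cr_swap (P N (tau N φ)) (P N φ')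
  have hpos : 0 < 1 / (normSq c - normSq d) := by positivity
  have e4 : cr (P N (tau N φ)) (P N φ') < 0 := by linarith
  have := mul_neg_of_pos_of_neg hpos e4
  linarith

/-- non strict rotation in every gauge -/
lemma rotG {φ φ' : ℝ} (h1 : φ ≤ φ') (h2 : φ' ≤ tau N φ) :
    0 ≤ ((starRingEnd ℂ) (gA N c d φ) * gA N c d φ').im := by
  rcases h1.eq_or_lt with h3 | h3
  · rw [h3, ← Complex.normSq_eq_conj_mul_self, Complex.ofReal_im]
  · have hN2 := hN.comp_lin h
    obtain ⟨φ2, hp⟩ := tr_exists hN h φ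
    obtain ⟨φ2', k1, k2, hp'⟩ := tr_next hN h hp h3 (by linarith [(hN.tau_spec φ).2.1])
    have k3 := tr_le hN h hp hp' h3 h2 k2
    have k4 := hN2.rot k1.le k3
    rw [(tr_hex hN h hp).2.1, (tr_hex hN h hp').2.1, map_mul, Complex.conj_ofReal] at k4
    have hpos : 0 < 1 / (normSq c - normSq d) := by positivity
    have e : (((1 / (normSq c - normSq d) : ℝ) : ℂ) * (starRingEnd ℂ) (gA N c d φ) *
        (((1 / (normSq c - normSq d) : ℝ) : ℂ) * gA N c d φ')).im =
        (1 / (normSq c - normSq d)) * ((1 / (normSq c - normSq d)) *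
          ((starRingEnd ℂ) (gA N c d φ) * gA N c d φ').im) := by
      rw [← Complex.im_ofReal_mul, ← Complex.im_ofReal_mul]
      congr 1; ring
    rw [e] at k4
    by_contra hcon
    push Not at hcon
    have := mul_neg_of_pos_of_neg hpos (mul_neg_of_pos_of_neg hpos hcon)
    linarith

end

/-- strict rotation -/
lemma rot_strict {N : ℂ → ℝ} (hN : IsSN N) {φ φ' : ℝ} (h1 : φ < φ') (h2 : φ' ≤ tau N φ) :
    0 < ((starRingEnd ℂ) (hA N φ) * hA N φ').im := by
  have hr := hN.rot h1.le h2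
  rcases hr.eq_or_lt with h0 | h0
  swap
  · exact h0
  exfalso
  set a1 := hA N φ with ha1
  set a2 := hA N φ' with ha2
  set b1 := hB N φ with hb1
  set b2 := hB N φ' with hb2
  set κ : ℂ := (starRingEnd ℂ) (b1 * a2) - (starRingEnd ℂ) (a1 * b2) with hκ
  have key : ∀ d : ℂ, normSq d < 1 →
      0 ≤ (d * κ).im + normSq d * (b1 * (starRingEnd ℂ) b2).im := by
    intro d hd
    have h3 := rotG (c := 1) (d := d) hN (by rw [normSq_one]; linarith) h1.le h2
    unfold gA at h3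
    rw [← ha1, ← ha2, ← hb1, ← hb2, map_one, one_mul, one_mul] at h3
    have e : ((starRingEnd ℂ) (a1 - d * (starRingEnd ℂ) b1) * (a2 - d * (starRingEnd ℂ) b2)).im =
        ((starRingEnd ℂ) a1 * a2).im + ((d * κ).im +
          normSq d * (b1 * (starRingEnd ℂ) b2).im) := by
      rw [hκ]
      simp [normSq_apply]
      ring
    rw [e, ← h0] at h3
    linarith
  have hκ0 : κ = 0 := by
    by_contra hne
    have hκn : 0 < ‖κ‖ := norm_pos_iff.mpr hne
    set s : ℝ := (b1 * (starRingEnd ℂ) b2).im with hs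
    set ε : ℝ := min (1 / 2) (‖κ‖ / (2 * (|s| + 1))) with hε
    have hε0 : 0 < ε := by
      apply lt_min (by norm_num)
      positivity
    have hε1 : ε ≤ 1 / 2 := min_le_left _ _
    have hε2 : ε * (2 * (|s| + 1)) ≤ ‖κ‖ := by
      have : ε ≤ ‖κ‖ / (2 * (|s| + 1)) := min_le_right _ _
      rwa [le_div_iff₀ (by positivity)] at this
    have h4 := key ((-(ε / ‖κ‖) : ℝ) * (I * (starRingEnd ℂ) κ)) (by
      rw [normSq_mul, normSq_ofReal, normSq_mul, normSq_I, normSq_conj, one_mul,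
        Complex.normSq_eq_norm_sq]
      have e : -(ε / ‖κ‖) * -(ε / ‖κ‖) * ‖κ‖ ^ 2 = ε ^ 2 := by
        field_simp
      rw [e]; nlinarith)
    have e1 : (((-(ε / ‖κ‖) : ℝ) : ℂ) * (I * (starRingEnd ℂ) κ) * κ).im = - ε * ‖κ‖ := by
      have : ((-(ε / ‖κ‖) : ℝ) : ℂ) * (I * (starRingEnd ℂ) κ) * κ =
          ((-(ε / ‖κ‖) : ℝ) : ℂ) * (((normSq κ : ℝ) : ℂ) * I) := by
        rw [Complex.normSq_eq_conj_mul_self]; ring
      rw [this, Complex.im_ofReal_mul, Complex.im_ofReal_mul, Complex.I_im,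
        Complex.normSq_eq_norm_sq]
      field_simp
    have e2 : normSq (((-(ε / ‖κ‖) : ℝ) : ℂ) * (I * (starRingEnd ℂ) κ)) = ε ^ 2 := by
      rw [normSq_mul, normSq_ofReal, normSq_mul, normSq_I, normSq_conj, one_mul,
        Complex.normSq_eq_norm_sq]
      field_simp
    rw [e1, e2] at h4
    have h5 : s ≤ |s| := le_abs_self s
    have h6 : ε * s ≤ ε * |s| := mul_le_mul_of_nonneg_left h5 hε0.le
    have h7 : ε * (ε * s) ≤ ε * (ε * |s|) := mul_le_mul_of_nonneg_left h6 hε0.le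
    have h8 : ε * (ε * (2 * (|s| + 1))) ≤ ε * ‖κ‖ := mul_le_mul_of_nonneg_left hε2 hε0.le
    have h9 : 0 ≤ ε * (ε * |s|) := by positivity
    nlinarith
  have hD := hN.hB_lt φ
  have ha10 : a1 ≠ 0 := hN.hA_ne φ
  have hn : 0 < normSq a1 := normSq_pos.mpr ha10
  have hab : b1 * a2 = a1 * b2 := by
    have : (starRingEnd ℂ) (b1 * a2) = (starRingEnd ℂ) (a1 * b2) := sub_eq_zero.mp hκ0
    exact (starRingEnd ℂ).injective this
  set z : ℂ := (starRingEnd ℂ) a1 * a2 with hz
  have hzr : z = (z.re : ℂ) := by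
    apply Complex.ext
    · simp
    · rw [Complex.ofReal_im]; exact h0.symm
  have hna : ((normSq a1 : ℝ) : ℂ) = (starRingEnd ℂ) a1 * a1 := Complex.normSq_eq_conj_mul_self
  have ha2' : ((normSq a1 : ℝ) : ℂ) * a2 = (z.re : ℂ) * a1 := by
    rw [← hzr, hz, hna]; ring
  have hb2' : ((normSq a1 : ℝ) : ℂ) * b2 = (z.re : ℂ) * b1 := by
    rw [← hzr, hz, hna]; linear_combination (-(starRingEnd ℂ) a1) * hab
  have hP : ((normSq a1 : ℝ) : ℂ) * P N φ' = (z.re : ℂ) * P N φ := by
    rw [hN.P_eq φ', hN.P_eq φ, ← ha1, ← ha2, ← hb1, ← hb2, mul_add, mul_add, ha2', hb2']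
  have hc := hN.cr_P_pos h1 (by linarith [(hN.tau_spec φ).2.1])
  have h5 : cr (P N φ) (((normSq a1 : ℝ) : ℂ) * P N φ') = 0 := by
    rw [hP, cr_smul_right, cr_self, mul_zero]
  rw [cr_smul_right] at h5
  have := mul_pos hn hc
  linarith

/-- strict rotation in every gauge -/
lemma rotG_strict {N : ℂ → ℝ} (hN : IsSN N) {c d : ℂ} (h : 0 < normSq c - normSq d)
    {φ φ' : ℝ} (h3 : φ < φ') (h2 : φ' ≤ tau N φ) :
    0 < ((starRingEnd ℂ) (gA N c d φ) * gA N c d φ').im := by
  have hN2 := hN.comp_lin h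
  obtain ⟨φ2, hp⟩ := tr_exists hN h φ
  obtain ⟨φ2', k1, k2, hp'⟩ := tr_next hN h hp h3 (by linarith [(hN.tau_spec φ).2.1])
  have k3 := tr_le hN h hp hp' h3 h2 k2
  have k4 := rot_strict hN2 k1 k3
  rw [(tr_hex hN h hp).2.1, (tr_hex hN h hp').2.1, map_mul, Complex.conj_ofReal] at k4
  have hpos : 0 < 1 / (normSq c - normSq d) := by positivity
  have e : (((1 / (normSq c - normSq d) : ℝ) : ℂ) * (starRingEnd ℂ) (gA N c d φ) *
      (((1 / (normSq c - normSq d) : ℝ) : ℂ) * gA N c d φ')).im =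
      (1 / (normSq c - normSq d)) * ((1 / (normSq c - normSq d)) *
        ((starRingEnd ℂ) (gA N c d φ) * gA N c d φ').im) := by
    rw [← Complex.im_ofReal_mul, ← Complex.im_ofReal_mul]
    congr 1; ring
  rw [e] at k4
  by_contra hcon
  push Not at hcon
  have := mul_nonpos_of_nonneg_of_nonpos hpos.le (mul_nonpos_of_nonneg_of_nonpos hpos.le hcon)
  linarith

end Rein83
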