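import Pool.Agent.Rein83.A1

set_option autoImplicit false

namespace Rein83

open Complex Finset Rein69

lemma ex_pi3 : ex (Real.pi / 3) = om := by rw [om_eq_exp]; rfl

lemma ex_neg_pi3 : ex (-(Real.pi / 3)) = ob := by
  rw [← conj_ex, ex_pi3, conj_om]

section
variable {N : ℂ → ℝ} (hN : IsSN N)
include hN

lemma gA_tau (c d : ℂ) (φ : ℝ) : gA N c d (tau N φ) = om * gA N c d φ := by
  unfold gA
  rw [hN.hA_tau, hN.hB_tau, map_mul, conj_ob]; ring

lemma gB_tau (c d : ℂ) (φ : ℝ) : gB N c d (tau N φ) = ob * gB N c d φ := by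
  unfold gB
  rw [hN.hA_tau, hN.hB_tau, map_mul, conj_om]; ring

lemma cont_hB : Continuous (hB N) := by
  unfold hB hexB
  have h1 := hN.cont_P
  have h2 : Continuous (fun φ => P N (tau N φ)) := h1.comp hN.tau_cont
  fun_prop

omit hN in
lemma polar_im_pos {r r' x y : ℝ} {z w : ℂ} (hz : z = r * ex x) (hw : w = r' * ex y) :
    ((starRingEnd ℂ) z * w).im = r * (r' * Real.sin (y - x)) := by
  have e : (starRingEnd ℂ) z * w = (r : ℂ) * ((r' : ℂ) * ex (y - x)) := by
    rw [hz, hw, map_mul, Complex.conj_ofReal, conj_ex, sub_eq_add_neg, ex_add]; ring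
  rw [e, Complex.im_ofReal_mul, Complex.im_ofReal_mul, ex_im]

omit hN in
lemma polar_left {r x : ℝ} {z w : ℂ} (hz : z = r * ex x) :
    ((starRingEnd ℂ) z * w).im = r * (ex (-x) * w).im := by
  rw [hz, map_mul, Complex.conj_ofReal, conj_ex, mul_assoc, Complex.im_ofReal_mul]

omit hN in
lemma polar_right {r x : ℝ} {z w : ℂ} (hw : w = r * ex x) :
    ((starRingEnd ℂ) z * w).im = - (r * (ex (-x) * z).im) := by
  have e : (starRingEnd ℂ) z * w = (r : ℂ) * (starRingEnd ℂ) (ex (-x) * z) := by
    rw [hw, map_mul, conj_ex, neg_neg]; ring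
  rw [e, Complex.im_ofReal_mul, Complex.conj_im]; ring

/-- existence of nodes in any gauge -/
lemma node_exists {c d : ℂ} (h : 0 < normSq c - normSq d) {φ0 r0 θ0 θ : ℝ} (hr0 : 0 < r0)
    (h0 : gA N c d φ0 = r0 * ex θ0) (h1 : θ0 < θ) (h2 : θ < θ0 + Real.pi / 3) :
    ∃ φ, φ0 < φ ∧ φ < tau N φ0 ∧ ∃ r : ℝ, 0 < r ∧ gA N c d φ = r * ex θ := by
  have hpi := Real.pi_pos
  set f : ℝ → ℝ := fun φ => (ex (-θ) * gA N c d φ).im with hf
  have hfc : Continuous f := by
    have hc1 := hN.cont_hA
    have hc2 := cont_hB hN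
    have hc3 : Continuous (fun φ => (starRingEnd ℂ) (hB N φ)) := Complex.continuous_conj.comp hc2
    unfold gA at hf
    rw [hf]
    exact Complex.continuous_im.comp (continuous_const.mul
      ((continuous_const.mul hc1).sub (continuous_const.mul hc3)))
  have f0 : f φ0 < 0 := by
    have e : f φ0 = r0 * Real.sin (θ0 - θ) := by
      simp only [hf]
      rw [h0]
      have : ex (-θ) * ((r0 : ℂ) * ex θ0) = (r0 : ℂ) * ex (θ0 - θ) := by
        rw [sub_eq_add_neg, ex_add]; ring
      rw [this, Complex.im_ofReal_mul, ex_im]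
    rw [e]
    exact mul_neg_of_pos_of_neg hr0 (Real.sin_neg_of_neg_of_neg_pi_lt (by linarith) (by linarith))
  have f1 : 0 < f (tau N φ0) := by
    have e : f (tau N φ0) = r0 * Real.sin (θ0 + Real.pi / 3 - θ) := by
      simp only [hf]
      rw [gA_tau hN, h0, ← ex_pi3]
      have : ex (-θ) * (ex (Real.pi / 3) * ((r0 : ℂ) * ex θ0)) =
          (r0 : ℂ) * ex (θ0 + Real.pi / 3 - θ) := by
        rw [sub_eq_add_neg, ex_add, ex_add]; ring
      rw [this, Complex.im_ofReal_mul, ex_im]
    rw [e]
    exact mul_pos hr0 (Real.sin_pos_of_pos_of_lt_pi (by linarith) (by linarith))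
  have hle : φ0 ≤ tau N φ0 := (hN.tau_spec φ0).1.le
  obtain ⟨φ, ⟨k1, k2⟩, k3⟩ := intermediate_value_Icc hle hfc.continuousOn
    (show (0 : ℝ) ∈ Set.Icc (f φ0) (f (tau N φ0)) from ⟨f0.le, f1.le⟩)
  refine ⟨φ, lt_of_le_of_ne k1 ?_, lt_of_le_of_ne k2 ?_, ?_⟩
  · rintro rfl; rw [k3] at f0; exact lt_irrefl _ f0
  · rintro rfl; rw [k3] at f1; exact lt_irrefl _ f1
  · have k1' : φ0 < φ := lt_of_le_of_ne k1 (by rintro rfl; rw [k3] at f0; exact lt_irrefl _ f0)
    set z := ex (-θ) * gA N c d φ with hz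
    have hzim : z.im = 0 := k3
    have hzre : z = (z.re : ℂ) := by
      apply Complex.ext
      · simp
      · simp [hzim]
    have hAz : gA N c d φ = (z.re : ℂ) * ex θ := by
      rw [← hzre, hz]
      linear_combination (-(gA N c d φ)) * ex_mul_ex_neg θ
    refine ⟨z.re, ?_, hAz⟩
    have hr := rotG_strict hN h k1' k2
    rw [polar_im_pos h0 hAz] at hr
    have hs := Real.sin_pos_of_pos_of_lt_pi (x := θ - θ0) (by linarith) (by linarith)
    by_contra hcon
    push Not at hcon
    have h5 : z.re * Real.sin (θ - θ0) ≤ 0 := mul_nonpos_of_nonpos_of_nonneg hcon hs.le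
    have h6 := mul_nonpos_of_nonneg_of_nonpos hr0.le h5
    linarith

/-- uniqueness of nodes -/
lemma node_unique {c d : ℂ} (h : 0 < normSq c - normSq d) {φ φ' r r' θ : ℝ}
    (h1 : φ' < tau N φ) (h2 : φ < tau N φ')
    (e1 : gA N c d φ = r * ex θ) (e2 : gA N c d φ' = r' * ex θ) : φ = φ' := by
  rcases lt_trichotomy φ φ' with h3 | h3 | h3
  · have := rotG_strict hN h h3 h1.le
    rw [polar_im_pos e1 e2, sub_self, Real.sin_zero, mul_zero, mul_zero] at this
    exact absurd this (lt_irrefl _)
  · exact h3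
  · have := rotG_strict hN h h3 h2.le
    rw [polar_im_pos e2 e1, sub_self, Real.sin_zero, mul_zero, mul_zero] at this
    exact absurd this (lt_irrefl _)

/-- continuity of a node function -/
lemma cont_node {C D : ℝ → ℂ} (hC : Continuous C) (hD : Continuous D)
    (hCD : ∀ x, 0 < normSq (C x) - normSq (D x)) {lo hi n r : ℝ → ℝ} {θ : ℝ}
    (hlo : Continuous lo) (hhi : Continuous hi) (h1 : ∀ x, lo x < n x) (h2 : ∀ x, n x < hi x)
    (h3 : ∀ x, hi x ≤ tau N (lo x)) (hr : ∀ x, 0 < r x)
    (hG : ∀ x, gA N (C x) (D x) (n x) = r x * ex θ) : Continuous n := by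
  have hlt : ∀ y z, lo y < z → z < n y → (ex (-θ) * gA N (C y) (D y) z).im < 0 := by
    intro y z k1 k2
    have k3 : n y ≤ tau N z := ((h2 y).trans_le (h3 y)).le.trans
      (hN.tau_strictMono.monotone k1.le)
    have := rotG_strict hN (hCD y) k2 k3
    rw [polar_right (hG y)] at this
    by_contra hcon
    push Not at hcon
    have := mul_nonneg (hr y).le hcon
    linarith
  have hgt : ∀ y z, n y < z → z < hi y → 0 < (ex (-θ) * gA N (C y) (D y) z).im := by
    intro y z k1 k2
    have k3 : z ≤ tau N (n y) := (k2.trans_le (h3 y)).le.trans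
      (hN.tau_strictMono.monotone (h1 y).le)
    have := rotG_strict hN (hCD y) k1 k3
    rw [polar_left (hG y)] at this
    by_contra hcon
    push Not at hcon
    have := mul_nonpos_of_nonneg_of_nonpos (hr y).le hcon
    linarith
  have hF : ∀ z, Continuous (fun y => (ex (-θ) * gA N (C y) (D y) z).im) := by
    intro z
    unfold gA
    have hC' : Continuous (fun y => (starRingEnd ℂ) (C y)) := Complex.continuous_conj.comp hC
    exact Complex.continuous_im.comp (continuous_const.mul
      ((hC'.mul continuous_const).sub (hD.mul continuous_const)))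
  rw [Metric.continuous_iff]
  intro x ε hε
  set δ : ℝ := min (ε / 2) (min ((n x - lo x) / 2) ((hi x - n x) / 2)) with hδ
  have hδ0 : 0 < δ := by
    apply lt_min (by linarith) (lt_min _ _)
    · linarith [h1 x]
    · linarith [h2 x]
  have hδ1 : δ ≤ ε / 2 := min_le_left _ _
  have hδ2 : δ ≤ (n x - lo x) / 2 := (min_le_right _ _).trans (min_le_left _ _)
  have hδ3 : δ ≤ (hi x - n x) / 2 := (min_le_right _ _).trans (min_le_right _ _)
  have n1 : n x - δ > lo x := by linarith [h1 x]
  have n2 : n x + δ < hi x := by linarith [h2 x]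
  have m1 := hlt x (n x - δ) n1 (by linarith)
  have m2 := hgt x (n x + δ) (by linarith) n2
  have ev1 := (hF (n x - δ)).continuousAt.eventually_lt continuousAt_const m1
  have ev2 := continuousAt_const.eventually_lt (hF (n x + δ)).continuousAt m2
  have ev3 := hlo.continuousAt.eventually_lt (continuousAt_const (x := x)) n1
  have ev4 := (continuousAt_const (x := x)).eventually_lt hhi.continuousAt n2
  have ev5 := hlo.continuousAt.eventually_lt (continuousAt_const (x := x)) (show lo x < n x + δ by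
    linarith)
  have ev6 := (continuousAt_const (x := x)).eventually_lt hhi.continuousAt (show n x - δ < hi x by
    linarith)
  have ev := ev1.and (ev2.and (ev3.and (ev4.and (ev5.and ev6))))
  obtain ⟨η, hη, hball⟩ := Metric.eventually_nhds_iff.mp ev
  refine ⟨η, hη, ?_⟩
  intro y hy
  obtain ⟨a1, a2, a3, a4, a5, a6⟩ := hball hy
  rw [Real.dist_eq, abs_lt]
  constructor
  · by_contra hcon
    push Not at hcon
    have h5 : n y < n x - δ := by linarith
    have := hgt y _ h5 a6
    linarith
  · by_contra hcon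
    push Not at hcon
    have h5 : n x + δ < n y := by linarith
    have := hlt y _ a5 h5
    linarith

end

end Rein83
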