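import Pool.Agent.Rein83.A2

set_option autoImplicit false

namespace Rein83

open Complex Finset Rein69

section
variable {N : ℂ → ℝ} (hN : IsSN N)
include hN

lemma Dt_pos (φ : ℝ) : 0 < Dt N φ := by
  unfold Dt; linarith [hN.hB_lt φ]

lemma gA_self (φ : ℝ) : gA N (hA N φ) (hB N φ) φ = (Dt N φ : ℝ) * ex 0 := by
  rw [ex_zero, mul_one]
  unfold gA Dt
  push_cast
  rw [← Complex.normSq_eq_conj_mul_self, Complex.mul_conj]

lemma sg_exists (φ : ℝ) : ∃ ψ, φ < ψ ∧ ψ < tau N φ ∧ ∃ r : ℝ, 0 < r ∧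
    gA N (hA N φ) (hB N φ) ψ = r * ex (Real.pi / 6) := by
  have hpi := Real.pi_pos
  exact node_exists hN (Dt_pos hN φ) (Dt_pos hN φ) (gA_self hN φ) (by positivity) (by linarith)

end

/-- the middle hexagon -/
noncomputable def sg (N : ℂ → ℝ) (φ : ℝ) : ℝ := by
  classical
  exact if h : ∃ ψ, φ < ψ ∧ ψ < tau N φ ∧ ∃ r : ℝ, 0 < r ∧
    gA N (hA N φ) (hB N φ) ψ = r * ex (Real.pi / 6) then h.choose else 0

/-- modulus of the form between `φ` and `sg φ` -/
noncomputable def sr (N : ℂ → ℝ) (φ : ℝ) : ℝ :=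
  (ex (-(Real.pi / 6)) * gA N (hA N φ) (hB N φ) (sg N φ)).re

/-- balanced gauge -/
noncomputable def cg (N : ℂ → ℝ) (φ : ℝ) : ℂ := hA N φ + ex (-(Real.pi / 6)) * hA N (sg N φ)
/-- balanced gauge -/
noncomputable def dg (N : ℂ → ℝ) (φ : ℝ) : ℂ := hB N φ + ex (Real.pi / 6) * hB N (sg N φ)

section
variable {N : ℂ → ℝ} (hN : IsSN N)
include hN

lemma sg_spec (φ : ℝ) : φ < sg N φ ∧ sg N φ < tau N φ ∧ 0 < sr N φ ∧
    gA N (hA N φ) (hB N φ) (sg N φ) = (sr N φ : ℝ) * ex (Real.pi / 6) := by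
  have h := sg_exists hN φ
  have h2 : φ < sg N φ ∧ sg N φ < tau N φ ∧ ∃ r : ℝ, 0 < r ∧
      gA N (hA N φ) (hB N φ) (sg N φ) = r * ex (Real.pi / 6) := by
    unfold sg
    rw [dif_pos h]
    exact h.choose_spec
  obtain ⟨k1, k2, r, hr, k3⟩ := h2
  have e : sr N φ = r := by
    unfold sr
    rw [k3]
    have : ex (-(Real.pi / 6)) * ((r : ℂ) * ex (Real.pi / 6)) = r := by
      linear_combination (r : ℂ) * ex_mul_ex_neg (Real.pi / 6)
    rw [this, Complex.ofReal_re]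
  rw [e]
  exact ⟨k1, k2, hr, k3⟩

lemma cont_sg : Continuous (sg N) := by
  apply cont_node hN hN.cont_hA (cont_hB hN) (fun x => Dt_pos hN x) (lo := id) (hi := tau N)
    (r := sr N) (θ := Real.pi / 6) continuous_id hN.tau_cont
  · exact fun x => (sg_spec hN x).1
  · exact fun x => (sg_spec hN x).2.1
  · exact fun x => le_refl _
  · exact fun x => (sg_spec hN x).2.2.1
  · exact fun x => (sg_spec hN x).2.2.2

/-- swapping the two arguments of the form -/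
lemma gA_swap (φ ψ : ℝ) : gA N (hA N φ) (hB N φ) ψ =
    (starRingEnd ℂ) (gA N (hA N ψ) (hB N ψ) φ) := by
  unfold gA
  simp only [map_sub, map_mul, Complex.conj_conj]; ring

lemma sg_sg (φ : ℝ) : sg N (sg N φ) = tau N φ := by
  obtain ⟨k1, k2, k3, k4⟩ := sg_spec hN φ
  obtain ⟨l1, l2, l3, l4⟩ := sg_spec hN (sg N φ)
  have hm := hN.tau_strictMono
  apply node_unique hN (Dt_pos hN (sg N φ)) (φ := sg N (sg N φ)) (φ' := tau N φ)
    (r := sr N (sg N φ)) (r' := sr N φ) (θ := Real.pi / 6) (hm (k1.trans l1))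
    (l2.trans (hm k2)) l4
  rw [gA_tau hN, gA_swap hN, k4, map_mul, Complex.conj_ofReal, conj_ex, ← ex_pi3]
  have : Real.pi / 6 = Real.pi / 3 + -(Real.pi / 6) := by ring
  conv_rhs => rw [this, ex_add]
  ring

omit hN in
lemma ex_six_conj : (starRingEnd ℂ) (ex (-(Real.pi / 6))) = ex (Real.pi / 6) := by
  rw [conj_ex, neg_neg]

lemma gA_cg (φ ψ : ℝ) : gA N (cg N φ) (dg N φ) ψ = gA N (hA N φ) (hB N φ) ψ +
    ex (Real.pi / 6) * gA N (hA N (sg N φ)) (hB N (sg N φ)) ψ := by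
  unfold gA cg dg
  simp only [map_add, map_mul, ex_six_conj]; ring

lemma gA_cg0 (φ : ℝ) : gA N (cg N φ) (dg N φ) φ = (Dt N φ + sr N φ : ℝ) * ex 0 := by
  rw [gA_cg hN, gA_self hN, gA_swap hN (sg N φ), (sg_spec hN φ).2.2.2, map_mul,
    Complex.conj_ofReal, conj_ex, ex_zero]
  push_cast
  linear_combination (sr N φ : ℂ) * ex_mul_ex_neg (Real.pi / 6)

lemma gA_cg2 (φ : ℝ) : gA N (cg N φ) (dg N φ) (sg N φ) =
    (sr N φ + Dt N (sg N φ) : ℝ) * ex (Real.pi / 6) := by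
  rw [gA_cg hN, gA_self hN, (sg_spec hN φ).2.2.2, ex_zero]
  push_cast; ring

lemma cg_det (φ : ℝ) : normSq (cg N φ) - normSq (dg N φ) =
    Dt N φ + 2 * sr N φ + Dt N (sg N φ) := by
  have h4 := (sg_spec hN φ).2.2.2
  have h5 : (ex (-(Real.pi / 6)) * gA N (hA N φ) (hB N φ) (sg N φ)).re = sr N φ := rfl
  have e : normSq (cg N φ) - normSq (dg N φ) = Dt N φ + Dt N (sg N φ) +
      2 * (ex (-(Real.pi / 6)) * gA N (hA N φ) (hB N φ) (sg N φ)).re := by
    unfold cg dg Dt gA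
    have n1 : normSq (ex (-(Real.pi / 6))) = 1 := by
      rw [Complex.normSq_eq_norm_sq, norm_ex]; norm_num
    have n2 : normSq (ex (Real.pi / 6)) = 1 := by
      rw [Complex.normSq_eq_norm_sq, norm_ex]; norm_num
    have c1 : (ex (-(Real.pi / 6))) = (starRingEnd ℂ) (ex (Real.pi / 6)) := by rw [conj_ex]
    rw [normSq_add, normSq_add, normSq_mul, normSq_mul, n1, n2, c1]
    simp
    ring
  rw [e, h5]; ring

lemma cg_pos (φ : ℝ) : 0 < normSq (cg N φ) - normSq (dg N φ) := by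
  rw [cg_det hN]
  have h1 := Dt_pos hN φ
  have h2 := Dt_pos hN (sg N φ)
  have h3 := (sg_spec hN φ).2.2.1
  linarith

lemma hA_tau_sg (φ : ℝ) : cg N (sg N φ) = ex (Real.pi / 6) * cg N φ := by
  unfold cg
  rw [sg_sg hN, hN.hA_tau, ← ex_pi3]
  have e : ex (-(Real.pi / 6)) * ex (Real.pi / 3) = ex (Real.pi / 6) := by
    rw [← ex_add]; congr 1; ring
  linear_combination (hA N φ) * e - (hA N (sg N φ)) * ex_mul_ex_neg (Real.pi / 6)

lemma hB_tau_sg (φ : ℝ) : dg N (sg N φ) = ex (-(Real.pi / 6)) * dg N φ := by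
  unfold dg
  rw [sg_sg hN, hN.hB_tau, ← ex_neg_pi3]
  have e : ex (Real.pi / 6) * ex (-(Real.pi / 3)) = ex (-(Real.pi / 6)) := by
    rw [← ex_add]; congr 1; ring
  linear_combination (hB N φ) * e - (hB N (sg N φ)) * ex_mul_ex_neg (Real.pi / 6)

lemma gA_sg (φ ψ : ℝ) : gA N (cg N (sg N φ)) (dg N (sg N φ)) ψ =
    ex (-(Real.pi / 6)) * gA N (cg N φ) (dg N φ) ψ := by
  unfold gA
  rw [hA_tau_sg hN, hB_tau_sg hN, map_mul, conj_ex]; ring

lemma gB_sg (φ ψ : ℝ) : gB N (cg N (sg N φ)) (dg N (sg N φ)) ψ =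
    ex (-(Real.pi / 6)) * gB N (cg N φ) (dg N φ) ψ := by
  unfold gB
  rw [hA_tau_sg hN, hB_tau_sg hN, map_mul, conj_ex]; ring

lemma n1_exists (φ : ℝ) : ∃ ψ, φ < ψ ∧ ψ < sg N φ ∧ ∃ r : ℝ, 0 < r ∧
    gA N (cg N φ) (dg N φ) ψ = r * ex (Real.pi / 12) := by
  have hpi := Real.pi_pos
  have hs := sg_spec hN φ
  have hpos : 0 < Dt N φ + sr N φ := by linarith [Dt_pos hN φ, hs.2.2.1]
  obtain ⟨ψ, h1, h2, r, hr, h3⟩ := node_exists hN (cg_pos hN φ) hpos (gA_cg0 hN φ)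
    (θ := Real.pi / 12) (by positivity) (by linarith)
  refine ⟨ψ, h1, ?_, r, hr, h3⟩
  by_contra hcon
  push Not at hcon
  have hpos2 : 0 < sr N φ + Dt N (sg N φ) := by linarith [Dt_pos hN (sg N φ), hs.2.2.1]
  have h4 : 0 ≤ ((starRingEnd ℂ) (gA N (cg N φ) (dg N φ) (sg N φ)) *
      gA N (cg N φ) (dg N φ) ψ).im := by
    apply rotG hN (cg_pos hN φ) hcon
    exact h2.le.trans (hN.tau_strictMono.monotone hs.1.le)
  rw [polar_im_pos (gA_cg2 hN φ) h3] at h4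
  have h5 : Real.sin (Real.pi / 12 - Real.pi / 6) < 0 :=
    Real.sin_neg_of_neg_of_neg_pi_lt (by linarith) (by linarith)
  have := mul_neg_of_pos_of_neg hpos2 (mul_neg_of_pos_of_neg hr h5)
  linarith

end

/-- the first quarter node -/
noncomputable def n1 (N : ℂ → ℝ) (φ : ℝ) : ℝ := by
  classical
  exact if h : ∃ ψ, φ < ψ ∧ ψ < sg N φ ∧ ∃ r : ℝ, 0 < r ∧
    gA N (cg N φ) (dg N φ) ψ = r * ex (Real.pi / 12) then h.choose else 0

/-- modulus at `n1` -/
noncomputable def r1 (N : ℂ → ℝ) (φ : ℝ) : ℝ :=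
  (ex (-(Real.pi / 12)) * gA N (cg N φ) (dg N φ) (n1 N φ)).re

/-- the aligned quantity, up to a positive factor -/
noncomputable def Qf (N : ℂ → ℝ) (φ : ℝ) : ℂ :=
  2 * gB N (cg N φ) (dg N φ) φ + I * (gB N (cg N φ) (dg N φ) (n1 N φ) * ex (Real.pi / 12) -
    gB N (cg N φ) (dg N φ) (n1 N (sg N φ)) * ex (Real.pi / 4))

section
variable {N : ℂ → ℝ} (hN : IsSN N)
include hN

lemma n1_spec (φ : ℝ) : φ < n1 N φ ∧ n1 N φ < sg N φ ∧ 0 < r1 N φ ∧
    gA N (cg N φ) (dg N φ) (n1 N φ) = (r1 N φ : ℝ) * ex (Real.pi / 12) := by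
  have h := n1_exists hN φ
  have h2 : φ < n1 N φ ∧ n1 N φ < sg N φ ∧ ∃ r : ℝ, 0 < r ∧
      gA N (cg N φ) (dg N φ) (n1 N φ) = r * ex (Real.pi / 12) := by
    unfold n1
    rw [dif_pos h]
    exact h.choose_spec
  obtain ⟨k1, k2, r, hr, k3⟩ := h2
  have e : r1 N φ = r := by
    unfold r1
    rw [k3]
    have : ex (-(Real.pi / 12)) * ((r : ℂ) * ex (Real.pi / 12)) = r := by
      linear_combination (r : ℂ) * ex_mul_ex_neg (Real.pi / 12)
    rw [this, Complex.ofReal_re]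
  rw [e]
  exact ⟨k1, k2, hr, k3⟩

lemma cont_cg : Continuous (cg N) :=
  hN.cont_hA.add (continuous_const.mul (hN.cont_hA.comp (cont_sg hN)))

lemma cont_dg : Continuous (dg N) :=
  (cont_hB hN).add (continuous_const.mul ((cont_hB hN).comp (cont_sg hN)))

lemma cont_n1 : Continuous (n1 N) := by
  apply cont_node hN (cont_cg hN) (cont_dg hN) (fun x => cg_pos hN x) (lo := id) (hi := sg N)
    (r := r1 N) (θ := Real.pi / 12) continuous_id (cont_sg hN)
  · exact fun x => (n1_spec hN x).1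
  · exact fun x => (n1_spec hN x).2.1
  · exact fun x => (sg_spec hN x).2.1.le
  · exact fun x => (n1_spec hN x).2.2.1
  · exact fun x => (n1_spec hN x).2.2.2

lemma gA_n3 (φ : ℝ) : gA N (cg N φ) (dg N φ) (n1 N (sg N φ)) =
    (r1 N (sg N φ) : ℝ) * ex (Real.pi / 4) := by
  have h := (n1_spec hN (sg N φ)).2.2.2
  rw [gA_sg hN] at h
  have e1 : ex (Real.pi / 6) * ex (-(Real.pi / 6)) = 1 := ex_mul_ex_neg _
  have e2 : ex (Real.pi / 4) = ex (Real.pi / 6) * ex (Real.pi / 12) := by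
    rw [← ex_add]; congr 1; ring
  rw [e2]
  linear_combination (ex (Real.pi / 6)) * h - (gA N (cg N φ) (dg N φ) (n1 N (sg N φ))) * e1

lemma gA_tau_gauge (φ ψ : ℝ) : gA N (cg N (tau N φ)) (dg N (tau N φ)) (tau N ψ) =
    gA N (cg N φ) (dg N φ) ψ := by
  rw [← sg_sg hN φ, gA_sg hN, gA_sg hN, gA_tau hN, ← ex_pi3]
  have e : ex (-(Real.pi / 6)) * (ex (-(Real.pi / 6)) * ex (Real.pi / 3)) = 1 := by
    rw [← ex_add, ← ex_add, ← ex_zero]; congr 1; ring
  linear_combination (gA N (cg N φ) (dg N φ) ψ) * e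

lemma sg_tau (φ : ℝ) : sg N (tau N φ) = tau N (sg N φ) := by
  rw [← sg_sg hN (sg N φ), ← sg_sg hN φ]

lemma n1_tau (φ : ℝ) : n1 N (tau N φ) = tau N (n1 N φ) := by
  have h1 := n1_spec hN φ
  have h2 := n1_spec hN (tau N φ)
  have hs := sg_spec hN φ
  have hm := hN.tau_strictMono
  apply node_unique hN (cg_pos hN (tau N φ)) (r := r1 N (tau N φ)) (r' := r1 N φ)
    (θ := Real.pi / 12)
  · apply hm
    exact (h1.2.1.trans hs.2.1).trans h2.1
  · have h3 := h2.2.1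
    rw [sg_tau hN] at h3
    refine h3.trans (hm ?_)
    exact hs.2.1.trans (hm h1.1)
  · exact h2.2.2.2
  · rw [gA_tau_gauge hN]; exact h1.2.2.2

/-- balance -/
lemma gB_balance (φ : ℝ) : gB N (cg N φ) (dg N φ) (sg N φ) * ex (Real.pi / 6) =
    - gB N (cg N φ) (dg N φ) φ := by
  unfold gB cg dg
  simp only [map_add, map_mul, ex_six_conj]
  have e := ex_mul_ex_neg (Real.pi / 6)
  ring

lemma Qf_sg (φ : ℝ) : Qf N (sg N φ) = ex (2 * Real.pi / 3) * Qf N φ := by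
  have hb := gB_balance hN φ
  unfold Qf
  rw [gB_sg hN, gB_sg hN, gB_sg hN, sg_sg hN, n1_tau hN, gB_tau hN, ← ex_neg_pi3]
  set x0 := gB N (cg N φ) (dg N φ) φ
  set x1 := gB N (cg N φ) (dg N φ) (n1 N φ)
  set x2 := gB N (cg N φ) (dg N φ) (sg N φ)
  set x3 := gB N (cg N φ) (dg N φ) (n1 N (sg N φ))
  have hI : I = ex (Real.pi / 2) := by
    unfold ex; push_cast; rw [Complex.exp_pi_div_two_mul_I]
  have a1 : ex (2 * Real.pi / 3) = - ex (-(Real.pi / 3)) := by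
    have : ex (2 * Real.pi / 3) = ex (-(Real.pi / 3)) * ex Real.pi := by
      rw [← ex_add]; congr 1; ring
    rw [this]
    have : ex Real.pi = -1 := by unfold ex; exact Complex.exp_pi_mul_I
    rw [this]; ring
  have a2 : ex (-(Real.pi / 6)) = ex (-(Real.pi / 3)) * ex (Real.pi / 6) := by
    rw [← ex_add]; congr 1; ring
  have a3 : ex (-(Real.pi / 6)) * ex (Real.pi / 12) = ex (-(Real.pi / 3)) * ex (Real.pi / 4) := by
    rw [← ex_add, ← ex_add]; congr 1; ring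
  have a4 : ex (-(Real.pi / 6)) * ex (Real.pi / 4) = ex (Real.pi / 12) := by
    rw [← ex_add]; congr 1; ring
  rw [a1]
  have hb' : ex (-(Real.pi / 6)) * x2 = - ex (-(Real.pi / 3)) * x0 := by
    rw [a2]; linear_combination (ex (-(Real.pi / 3))) * hb
  linear_combination 2 * hb' + I * x3 * a3 - I * ex (-(Real.pi / 3)) * x1 * a4

lemma cont_Qf : Continuous (Qf N) := by
  have c1 := cont_cg hN
  have c2 := cont_dg hN
  have c3 := cont_n1 hN
  have c4 := cont_sg hN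
  have c5 := hN.cont_hA
  have c6 := cont_hB hN
  have cc1 : Continuous (fun x => (starRingEnd ℂ) (cg N x)) := Complex.continuous_conj.comp c1
  have cA : Continuous (fun x => (starRingEnd ℂ) (hA N x)) := Complex.continuous_conj.comp c5
  have g0 : Continuous (fun x => gB N (cg N x) (dg N x) x) := by
    unfold gB
    exact (cc1.mul c6).sub (c2.mul cA)
  have g1 : Continuous (fun x => gB N (cg N x) (dg N x) (n1 N x)) := by
    unfold gB
    exact (cc1.mul (c6.comp c3)).sub (c2.mul (cA.comp c3))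
  have g3 : Continuous (fun x => gB N (cg N x) (dg N x) (n1 N (sg N x))) := by
    unfold gB
    exact (cc1.mul (c6.comp (c3.comp c4))).sub (c2.mul (cA.comp (c3.comp c4)))
  unfold Qf
  exact (continuous_const.mul g0).add (continuous_const.mul
    ((g1.mul continuous_const).sub (g3.mul continuous_const)))

end

end Rein83
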