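import Pool.Agent.Rein83.A3

set_option autoImplicit false

namespace Rein83

open Complex Finset Rein69

lemma ex_eq_one {x : ℝ} (h : ex x = 1) : ∃ k : ℤ, x = k * (2 * Real.pi) := by
  unfold ex at h
  obtain ⟨k, hk⟩ := Complex.exp_eq_one_iff.mp h
  refine ⟨k, ?_⟩
  have h2 : (x : ℂ) = ((k * (2 * Real.pi) : ℝ) : ℂ) := by
    have h3 : (x : ℂ) * I = (((k * (2 * Real.pi) : ℝ) : ℂ)) * I := by
      rw [hk]; push_cast; ring
    exact mul_right_cancel₀ Complex.I_ne_zero h3
  exact_mod_cast h2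

/-- the alignment principle -/
theorem align_ray {Q : ℝ → ℂ} {s : ℝ → ℝ} (hQ : Continuous Q) (hs : Continuous s)
    (h : ∀ x, Q (s x) = ex (2 * Real.pi / 3) * Q x) :
    ∃ x t : ℝ, 0 ≤ t ∧ Q x = t * ex (Real.pi / 3) := by
  have hpi := Real.pi_pos
  by_contra hcon
  push Not at hcon
  set z : ℝ → ℂ := fun x => -(Q x * ex (-(Real.pi / 3))) with hz
  have hzs : ∀ x, z x ∈ Complex.slitPlane := by
    intro x
    rw [Complex.mem_slitPlane_iff]
    by_contra h2
    push Not at h2
    obtain ⟨h3, h4⟩ := h2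
    apply hcon x (-(z x).re) (by linarith)
    have h5 : z x = ((z x).re : ℂ) := by
      apply Complex.ext
      · simp
      · simp [h4]
    have h6 : (((-(z x).re : ℝ)) : ℂ) = Q x * ex (-(Real.pi / 3)) := by
      push_cast
      rw [← h5, hz]; ring
    rw [h6]
    linear_combination (-(Q x)) * ex_mul_ex_neg (Real.pi / 3)
  have hzc : Continuous z := (hQ.mul continuous_const).neg
  set g : ℝ → ℝ := fun x => (z x).arg with hg
  have hgc : Continuous g := by
    rw [continuous_iff_continuousAt]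
    intro x
    exact (Complex.continuousAt_arg (hzs x)).comp hzc.continuousAt
  have hg1 : ∀ x, g x < Real.pi := by
    intro x
    apply lt_of_le_of_ne (Complex.arg_le_pi _)
    exact Complex.slitPlane_arg_ne_pi (hzs x)
  have hg2 : ∀ x, -Real.pi < g x := fun x => Complex.neg_pi_lt_arg _
  have hzz : ∀ x, z (s x) = ex (2 * Real.pi / 3) * z x := by
    intro x; simp only [hz]; rw [h]; ring
  have hz0 : ∀ x, z x ≠ 0 := fun x => Complex.slitPlane_ne_zero (hzs x)
  have hpol : ∀ x, z x = (‖z x‖ : ℂ) * ex (g x) := by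
    intro x
    exact (Complex.norm_mul_exp_arg_mul_I (z x)).symm
  have hstep : ∀ x, g (s x) - g x = 2 * Real.pi / 3 ∨ g (s x) - g x = -(4 * Real.pi / 3) := by
    intro x
    have e1 := hpol (s x)
    have e2 := hpol x
    have e3 : ‖z (s x)‖ = ‖z x‖ := by rw [hzz, norm_mul, norm_ex, one_mul]
    rw [e3, hzz] at e1
    have hn : (‖z x‖ : ℂ) ≠ 0 := by exact_mod_cast (norm_ne_zero_iff.mpr (hz0 x))
    have e4 : ex (g (s x)) = ex (2 * Real.pi / 3) * ex (g x) := by
      apply mul_left_cancel₀ hn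
      rw [← e1]
      conv_lhs => rw [e2]
      ring
    have e5 : ex (g (s x) - g x - 2 * Real.pi / 3) = 1 := by
      have : g (s x) - g x - 2 * Real.pi / 3 = g (s x) + -(2 * Real.pi / 3 + g x) := by ring
      rw [this, ex_add, e4, ← ex_add, ← ex_add, ← ex_zero]
      congr 1; ring
    obtain ⟨k, hk⟩ := ex_eq_one e5
    have b1 := hg1 x
    have b2 := hg2 x
    have b3 := hg1 (s x)
    have b4 := hg2 (s x)
    have hk1 : (k : ℝ) < 1 := by
      by_contra hc
      push Not at hc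
      nlinarith
    have hk2 : (-2 : ℝ) < k := by
      by_contra hc
      push Not at hc
      nlinarith
    have hk1' : k < 1 := by exact_mod_cast hk1
    have hk2' : -2 < k := by exact_mod_cast hk2
    have hk3 : k = 0 ∨ k = -1 := by omega
    rcases hk3 with h0 | h0
    · left
      rw [h0] at hk
      push_cast at hk
      linarith
    · right
      rw [h0] at hk
      push_cast at hk
      linarith
  have hcont : Continuous (fun x => g (s x) - g x) := (hgc.comp hs).sub hgc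
  have hne : ∀ x, g (s x) - g x ≠ 0 := by
    intro x h0
    rcases hstep x with h1 | h1
    · rw [h0] at h1; linarith
    · rw [h0] at h1; linarith
  by_cases hsg : 0 < g (s 0) - g 0
  · have hall : ∀ y, g (s y) - g y = 2 * Real.pi / 3 := by
      intro y
      rcases hstep y with h1 | h1
      · exact h1
      · exfalso
        obtain ⟨w, hw⟩ := mem_range_of_exists_le_of_exists_ge hcont
          ⟨y, (show g (s y) - g y ≤ 0 by rw [h1]; linarith)⟩ ⟨0, hsg.le⟩
        exact hne w hw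
    have h1 := hall 0
    have h2 := hall (s 0)
    have h3 := hall (s (s 0))
    have b1 := hg1 (s (s (s 0)))
    have b2 := hg2 0
    linarith
  · have hsg' : g (s 0) - g 0 ≤ 0 := not_lt.mp hsg
    have hall : ∀ y, g (s y) - g y = -(4 * Real.pi / 3) := by
      intro y
      rcases hstep y with h1 | h1
      · exfalso
        obtain ⟨w, hw⟩ := mem_range_of_exists_le_of_exists_ge hcont
          ⟨0, hsg'⟩ ⟨y, (show 0 ≤ g (s y) - g y by rw [h1]; linarith)⟩
        exact hne w hw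
      · exact h1
    have h1 := hall 0
    have h2 := hall (s 0)
    have b1 := hg2 (s (s 0))
    have b2 := hg1 0
    linarith

/-- a cyclic sequence from its first nodes -/
lemma seq_of_nodes {N : ℂ → ℝ} (hN : IsSN N) {n : ℕ} (hn0 : 0 < n) {g r : ℕ → ℝ}
    (hg1 : ∀ k, k < n → g 0 ≤ g k) (hg2 : ∀ k, k < n → g k < tau N (g 0))
    (hr : ∀ k, k < n → 0 < r k)
    (hgA : ∀ k, k < n → hA N (g k) = r k * ex (k * (Real.pi / (3 * n)))) :
    ∃ Φ ρ b, HSeq N n Φ ρ b ∧ ∀ k, k < n → Φ k = g k ∧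
      b k = hB N (g k) * ex (k * (Real.pi / (3 * n))) := by
  have hpi := Real.pi_pos
  have hn' : (0 : ℝ) < n := by exact_mod_cast hn0
  set θ : ℝ := Real.pi / (3 * n) with hθ
  have hnθ : n * θ = Real.pi / 3 := by rw [hθ]; field_simp
  have hθ0 : 0 < θ := by rw [hθ]; positivity
  have hgmono : ∀ i j, i < j → j < n → g i < g j := by
    intro i j hij hj
    have hi : i < n := hij.trans hj
    by_contra hcon
    push Not at hcon
    have h1 : g i ≤ tau N (g j) :=
      ((hg2 i hi).trans_le (hN.tau_strictMono.monotone (hg1 j hj))).le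
    have h2 := hN.rot hcon h1
    rw [polar_im_pos (hgA j hj) (hgA i hi)] at h2
    have hij' : (i : ℝ) < j := by exact_mod_cast hij
    have hjn : (j : ℝ) < n := by exact_mod_cast hj
    have hi0 : (0 : ℝ) ≤ i := by positivity
    have h3 : Real.sin (i * θ - j * θ) < 0 := by
      apply Real.sin_neg_of_neg_of_neg_pi_lt
      · nlinarith
      · have : j * θ < Real.pi / 3 := by rw [← hnθ]; nlinarith
        have : 0 ≤ i * θ := by positivity
        linarith
    have h4 : r i * Real.sin (i * θ - j * θ) < 0 := mul_neg_of_pos_of_neg (hr i hi) h3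
    have h5 := mul_neg_of_pos_of_neg (hr j hj) h4
    linarith
  set Φ : ℕ → ℝ := fun k => (tau N)^[k / n] (g (k % n)) with hΦ
  set ρ : ℕ → ℝ := fun k => r (k % n) with hρ
  set b : ℕ → ℂ := fun k => hB N (Φ k) * ex (k * θ) with hbdef
  have hnext : ∀ k, Φ (k + n) = tau N (Φ k) := by
    intro k
    simp only [hΦ]
    rw [Nat.add_div_right _ hn0, Nat.add_mod_right, Function.iterate_succ_apply']
  have hΦlt : ∀ k, k < n → Φ k = g k := by
    intro k hk
    simp only [hΦ]
    rw [Nat.div_eq_of_lt hk, Nat.mod_eq_of_lt hk]; rfl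
  have hmono : StrictMono Φ := by
    apply strictMono_nat_of_lt_succ
    intro k
    simp only [hΦ]
    have hkn : k % n < n := Nat.mod_lt _ hn0
    have hdm : n * (k / n) + k % n = k := Nat.div_add_mod k n
    by_cases hc : k % n + 1 < n
    · have hdm' : k / n * n + k % n = k := by rw [mul_comm]; exact hdm
      have e1 : (k + 1) / n = k / n := by
        apply Nat.div_eq_of_lt_le
        · linarith [Nat.zero_le (k % n)]
        · rw [add_mul]; linarith
      have e2 : (k + 1) % n = k % n + 1 := by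
        have := Nat.div_add_mod (k + 1) n
        rw [e1] at this
        omega
      rw [e1, e2]
      exact hN.tau_strictMono.iterate _ (hgmono _ _ (Nat.lt_succ_self _) hc)
    · have hc' : k % n + 1 = n := by omega
      have e0 : k + 1 = n * (k / n + 1) := by
        rw [mul_add]; omega
      have e1 : (k + 1) / n = k / n + 1 := by
        rw [e0]; exact Nat.mul_div_cancel_left _ hn0
      have e2 : (k + 1) % n = 0 := by
        rw [e0]; exact Nat.mul_mod_right _ _
      rw [e1, e2, Function.iterate_succ_apply]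
      apply hN.tau_strictMono.iterate
      exact hg2 _ hkn
  have hA' : ∀ k, hA N (Φ k) = ρ k * ex (k * θ) := by
    intro k
    induction k using Nat.strong_induction_on with
    | _ k ih =>
      by_cases hk : k < n
      · rw [hΦlt k hk, hgA k hk]
        simp only [hρ]
        rw [Nat.mod_eq_of_lt hk]
      · obtain ⟨k', rfl⟩ : ∃ k', k = k' + n := ⟨k - n, by omega⟩
        rw [hnext, hN.hA_tau, ih k' (by omega)]
        have e : ((k' + n : ℕ) : ℝ) * θ = k' * θ + Real.pi / 3 := by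
          push_cast; rw [add_mul, hnθ]
        rw [e, ex_add, ex_pi3]
        simp only [hρ]
        rw [Nat.add_mod_right]
        ring
  refine ⟨Φ, ρ, b, ⟨hmono, hnext, hA', ?_, ?_, ?_, ?_⟩, ?_⟩
  · intro k
    simp only [hbdef]
    rw [mul_assoc, ex_mul_ex_neg, mul_one]
  · intro k
    exact hr _ (Nat.mod_lt _ hn0)
  · intro k
    simp only [hρ]
    rw [Nat.add_mod_right]
  · intro k
    simp only [hbdef]
    rw [hnext, hN.hB_tau]
    have e : ((k + n : ℕ) : ℝ) * θ = k * θ + Real.pi / 3 := by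
      push_cast; rw [add_mul, hnθ]
    rw [e, ex_add, ex_pi3]
    linear_combination (hB N (Φ k) * ex (k * θ)) * om_mul_ob
  · intro k hk
    refine ⟨hΦlt k hk, ?_⟩
    simp only [hbdef]
    rw [hΦlt k hk]

section
variable {N : ℂ → ℝ} (hN : IsSN N)
include hN

lemma Dt_tau (φ : ℝ) : Dt N (tau N φ) = Dt N φ := by
  unfold Dt
  have n1 : normSq om = 1 := by rw [← ex_pi3, Complex.normSq_eq_norm_sq, norm_ex]; norm_num
  have n2 : normSq ob = 1 := by rw [← ex_neg_pi3, Complex.normSq_eq_norm_sq, norm_ex]; norm_num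
  rw [hN.hA_tau, hN.hB_tau, normSq_mul, normSq_mul, n1, n2, one_mul, one_mul]

lemma Dt_periodic : Function.Periodic (Dt N) Real.pi := by
  intro φ
  rw [← hN.tau_three, Dt_tau hN, Dt_tau hN, Dt_tau hN]

lemma cont_Dt : Continuous (Dt N) := by
  unfold Dt
  exact (Complex.continuous_normSq.comp hN.cont_hA).sub
    (Complex.continuous_normSq.comp (cont_hB hN))

lemma Dt_min : ∃ φm, ∀ φ, Dt N φm ≤ Dt N φ := by
  obtain ⟨φm, _, hm⟩ := isCompact_Icc.exists_isMinOn (Set.nonempty_Icc.mpr Real.pi_pos.le)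
    (cont_Dt hN).continuousOn
  refine ⟨φm, fun φ => ?_⟩
  obtain ⟨y, hy, hy2⟩ := (Dt_periodic hN).exists_mem_Ico₀ Real.pi_pos φ
  rw [hy2]
  exact hm ⟨hy.1, hy.2.le⟩

omit hN in
lemma gAB_det (c d : ℂ) (φ : ℝ) : normSq (gA N c d φ) - normSq (gB N c d φ) =
    (normSq c - normSq d) * Dt N φ := by
  unfold gA gB Dt
  simp [normSq_apply]
  ring

end

/-- **Reduction to an aligned configuration.** -/
theorem aligned_reduce {κ : ℝ} (hmain : ∀ (N : ℂ → ℝ) (V : ℝ), IsSN N → AreaBd N V →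
    (∀ φ, 1 ≤ normSq (hA N φ) - normSq (hB N φ)) → ∀ Φ ρ b, HSeq N 4 Φ ρ b → b 0 + b 2 = 0 →
    (∃ t : ℝ, 0 ≤ t ∧ (b 0 + I * b 1 - b 2 - I * b 3) / 4 = t * ex (Real.pi / 3)) →
    κ * (Real.sqrt 3 / 2) ≤ V) :
    ∀ (N : ℂ → ℝ) (V : ℝ), IsSN N → AreaBd N V → Good κ N V := by
  intro N V hN hV
  have hpi := Real.pi_pos
  obtain ⟨φm, hmin⟩ := Dt_min hN
  set δ := Dt N φm with hδ
  have hδ0 : 0 < δ := Dt_pos hN φm
  obtain ⟨x, t, ht, hQ⟩ := align_ray (cont_Qf hN) (cont_sg hN) (Qf_sg hN)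
  set c0 := cg N x with hc0
  set d0 := dg N x with hd0
  set Δ := normSq c0 - normSq d0 with hΔ
  have hΔ0 : 0 < Δ := cg_pos hN x
  set l : ℝ := Real.sqrt (δ / Δ) with hl
  have hl0 : 0 < l := Real.sqrt_pos.mpr (by positivity)
  have hl2 : l * l = δ / Δ := Real.mul_self_sqrt (by positivity)
  set c : ℂ := (l : ℂ) * c0 with hc
  set d : ℂ := (l : ℂ) * d0 with hd
  have hcd : normSq c - normSq d = δ := by
    rw [hc, hd, normSq_mul, normSq_mul, normSq_ofReal, ← mul_sub, ← hΔ, hl2]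
    field_simp
  have hcd0 : 0 < normSq c - normSq d := by rw [hcd]; exact hδ0
  have hgA : ∀ φ, gA N c d φ = (l : ℂ) * gA N c0 d0 φ := by
    intro φ; unfold gA; rw [hc, hd, map_mul, Complex.conj_ofReal]; ring
  have hgB : ∀ φ, gB N c d φ = (l : ℂ) * gB N c0 d0 φ := by
    intro φ; unfold gB; rw [hc, hd, map_mul, Complex.conj_ofReal]; ring
  have hN2 := hN.comp_lin hcd0
  have hV2 := hV.comp_lin hcd0
  set N2 : ℂ → ℝ := fun z => N (lin c d z) with hN2d
  -- nodes in N
  have s1 := sg_spec hN x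
  have s2 := n1_spec hN x
  have s3 := n1_spec hN (sg N x)
  rw [sg_sg hN] at s3
  -- nodes in N2
  obtain ⟨y0, hy0⟩ := tr_exists hN hcd0 x
  have hτπ := (hN.tau_spec x).2.1
  obtain ⟨y1, y1a, y1b, hy1⟩ := tr_next hN hcd0 hy0 (φ' := n1 N x) s2.1 (by linarith)
  obtain ⟨y2, y2a, y2b, hy2⟩ := tr_next hN hcd0 hy0 (φ' := sg N x) s1.1 (by linarith)
  obtain ⟨y3, y3a, y3b, hy3⟩ := tr_next hN hcd0 hy0 (φ' := n1 N (sg N x)) (s1.1.trans s3.1)
    (by linarith)
  have y1c := tr_lt hN hcd0 hy0 hy1 s2.1 (s2.2.1.trans s1.2.1) y1b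
  have y2c := tr_lt hN hcd0 hy0 hy2 s1.1 s1.2.1 y2b
  have y3c := tr_lt hN hcd0 hy0 hy3 (s1.1.trans s3.1) s3.2.1 y3b
  have k0 := tr_hex hN hcd0 hy0
  have k1 := tr_hex hN hcd0 hy1
  have k2 := tr_hex hN hcd0 hy2
  have k3 := tr_hex hN hcd0 hy3
  set m : ℝ := 1 / (normSq c - normSq d) * l with hm
  have hm0 : 0 < m := by rw [hm]; positivity
  set g : ℕ → ℝ := fun k => if k = 0 then y0 else if k = 1 then y1 else if k = 2 then y2 else y3
    with hg
  set r : ℕ → ℝ := fun k => if k = 0 then m * (Dt N x + sr N x) else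
    if k = 1 then m * r1 N x else if k = 2 then m * (sr N x + Dt N (sg N x)) else
    m * r1 N (sg N x) with hr
  have hseq := seq_of_nodes hN2 (n := 4) (by norm_num) (g := g) (r := r) ?_ ?_ ?_ ?_
  · obtain ⟨Φ, ρ, b, hs, hb⟩ := hseq
    have b0 := (hb 0 (by norm_num)).2
    have b1 := (hb 1 (by norm_num)).2
    have b2 := (hb 2 (by norm_num)).2
    have b3 := (hb 3 (by norm_num)).2
    have e12 : ((1 : ℕ) : ℝ) * (Real.pi / (3 * ((4 : ℕ) : ℝ))) = Real.pi / 12 := by
      push_cast; ring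
    have e6 : ((2 : ℕ) : ℝ) * (Real.pi / (3 * ((4 : ℕ) : ℝ))) = Real.pi / 6 := by
      push_cast; ring
    have e4 : ((3 : ℕ) : ℝ) * (Real.pi / (3 * ((4 : ℕ) : ℝ))) = Real.pi / 4 := by
      push_cast; ring
    have e0 : ((0 : ℕ) : ℝ) * (Real.pi / (3 * ((4 : ℕ) : ℝ))) = 0 := by
      push_cast; ring
    rw [e0, ex_zero, mul_one] at b0
    rw [e12] at b1
    rw [e6] at b2
    rw [e4] at b3
    have g0 : g 0 = y0 := rfl
    have g1 : g 1 = y1 := rfl
    have g2 : g 2 = y2 := rfl
    have g3 : g 3 = y3 := rfl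
    rw [g0, k0.2.2, hgB] at b0
    rw [g1, k1.2.2, hgB] at b1
    rw [g2, k2.2.2, hgB] at b2
    rw [g3, k3.2.2, hgB] at b3
    have hbal := gB_balance hN x
    have hfin := hmain N2 _ hN2 hV2 ?_ Φ ρ b hs ?_ ?_
    · rw [hcd, le_div_iff₀ hδ0] at hfin
      refine ⟨P N φm, P N (tau N φm), hN.N_P _, hN.N_P _, ?_, hN.det_pos _, ?_⟩
      · rw [hN.sub_comm]; exact (hN.tau_spec _).2.2
      · rw [hN.det_eq]
        have : normSq (hA N φm) - normSq (hB N φm) = δ := rfl
        rw [this]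
        linarith
    · intro φ2
      obtain ⟨φ, hφ⟩ := tr_surj hN hcd0 φ2
      have k := tr_hex hN hcd0 hφ
      have kA := k.2.1
      have kB := k.2.2
      rw [hcd] at kA kB
      rw [kA, kB, normSq_mul, normSq_mul, ← mul_sub, gAB_det, normSq_ofReal, hcd]
      have : 1 / δ * (1 / δ) * (δ * Dt N φ) = Dt N φ / δ := by field_simp
      rw [this, le_div_iff₀ hδ0, one_mul]
      exact hmin φ
    · rw [b0, b2]
      linear_combination (((1 / (normSq c - normSq d) : ℝ) : ℂ) * l) * hbal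
    · refine ⟨m * t / 4, by positivity, ?_⟩
      have hQ' := hQ
      unfold Qf at hQ'
      rw [← hc0, ← hd0] at hQ' hbal
      have e : ((1 / (normSq c - normSq d) * l * t / 4 : ℝ) : ℂ) =
          ((1 / (normSq c - normSq d) : ℝ) : ℂ) * l * t / 4 := by push_cast; ring
      rw [b0, b1, b2, b3, hm, e]
      linear_combination (((1 / (normSq c - normSq d) : ℝ) : ℂ) * l / 4) * hQ' -
        (((1 / (normSq c - normSq d) : ℝ) : ℂ) * l / 4) * hbal
  · intro k hk
    have hk' : k = 0 ∨ k = 1 ∨ k = 2 ∨ k = 3 := by omega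
    rcases hk' with h | h | h | h <;> subst h
    · exact le_refl _
    · exact y1a.le
    · exact y2a.le
    · exact y3a.le
  · intro k hk
    have hk' : k = 0 ∨ k = 1 ∨ k = 2 ∨ k = 3 := by omega
    rcases hk' with h | h | h | h <;> subst h
    · exact (hN2.tau_spec y0).1
    · exact y1c
    · exact y2c
    · exact y3c
  · intro k hk
    have hk' : k = 0 ∨ k = 1 ∨ k = 2 ∨ k = 3 := by omega
    have d0 := Dt_pos hN x
    have d2 := Dt_pos hN (sg N x)
    rcases hk' with h | h | h | h <;> subst h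
    · exact mul_pos hm0 (by linarith [s1.2.2.1])
    · exact mul_pos hm0 s2.2.2.1
    · exact mul_pos hm0 (by linarith [s1.2.2.1])
    · exact mul_pos hm0 s3.2.2.1
  · intro k hk
    have hk' : k = 0 ∨ k = 1 ∨ k = 2 ∨ k = 3 := by omega
    rcases hk' with h | h | h | h <;> subst h
    · show hA N2 y0 = ((m * (Dt N x + sr N x) : ℝ) : ℂ) * _
      rw [k0.2.1, hgA, gA_cg0 hN, hm]
      have e : ((0 : ℕ) : ℝ) * (Real.pi / (3 * ((4 : ℕ) : ℝ))) = 0 := by push_cast; ring
      rw [e]; push_cast; ring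
    · show hA N2 y1 = ((m * r1 N x : ℝ) : ℂ) * _
      rw [k1.2.1, hgA, s2.2.2.2, hm]
      have e : ((1 : ℕ) : ℝ) * (Real.pi / (3 * ((4 : ℕ) : ℝ))) = Real.pi / 12 := by
        push_cast; ring
      rw [e]; push_cast; ring
    · show hA N2 y2 = ((m * (sr N x + Dt N (sg N x)) : ℝ) : ℂ) * _
      rw [k2.2.1, hgA, gA_cg2 hN, hm]
      have e : ((2 : ℕ) : ℝ) * (Real.pi / (3 * ((4 : ℕ) : ℝ))) = Real.pi / 6 := by
        push_cast; ring
      rw [e]; push_cast; ring
    · show hA N2 y3 = ((m * r1 N (sg N x) : ℝ) : ℂ) * _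
      rw [k3.2.1, hgA, gA_n3 hN, hm]
      have e : ((3 : ℕ) : ℝ) * (Real.pi / (3 * ((4 : ℕ) : ℝ))) = Real.pi / 4 := by
        push_cast; ring
      rw [e]; push_cast; ring

end Rein83
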