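import Pool.Agent.Rein83.Ident

set_option autoImplicit false

/-! Section B (second part): chains of hexagons. -/

namespace Rein83

open Complex Finset Rein69

/-- a chain given by a sequence of angles -/
def SeqCh (N : ℂ → ℝ) (φ ψ S : ℝ) : Prop :=
  ∃ (n : ℕ) (th : ℕ → ℝ), 0 < n ∧ th 0 = φ ∧ th n = ψ ∧ (∀ i, i < n → th i < th (i + 1)) ∧
    S = ∑ i ∈ range n, TT N (th i) (th (i + 1))

lemma SeqCh.single {N : ℂ → ℝ} {φ ψ : ℝ} (h : φ < ψ) : SeqCh N φ ψ (TT N φ ψ) := by
  refine ⟨1, fun k => if k = 0 then φ else ψ, one_pos, by simp, by simp, ?_, ?_⟩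
  · intro i hi
    have : i = 0 := by omega
    subst this
    simpa using h
  · simp

lemma SeqCh.append {N : ℂ → ℝ} {φ μ ψ S S' : ℝ} (h : SeqCh N φ μ S) (h' : SeqCh N μ ψ S') :
    SeqCh N φ ψ (S + S') := by
  obtain ⟨n, th, hn, h0, h1, h2, h3⟩ := h
  obtain ⟨n', th', hn', h0', h1', h2', h3'⟩ := h'
  set g : ℕ → ℝ := fun k => if k < n then th k else th' (k - n) with hg
  have hg1 : ∀ k, k ≤ n → g k = th k := by
    intro k hk
    rcases hk.lt_or_eq with hk | hk
    · simp [hg, hk]
    · subst hk
      simp [hg, h0', h1]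
  have hg2 : ∀ k, g (n + k) = th' k := by
    intro k
    simp [hg]
  refine ⟨n + n', g, by omega, ?_, ?_, ?_, ?_⟩
  · rw [hg1 0 (by omega), h0]
  · rw [hg2, h1']
  · intro i hi
    by_cases hin : i < n
    · rw [hg1 i hin.le, hg1 (i + 1) hin]
      exact h2 i hin
    · obtain ⟨k, rfl⟩ : ∃ k, i = n + k := ⟨i - n, by omega⟩
      rw [add_assoc, hg2, hg2]
      exact h2' k (by omega)
  · rw [Finset.sum_range_add]
    congr 1
    · rw [h3]
      apply Finset.sum_congr rfl
      intro i hi
      have hi' : i < n := Finset.mem_range.mp hi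
      rw [hg1 i hi'.le, hg1 (i + 1) hi']
    · rw [h3']
      apply Finset.sum_congr rfl
      intro i _
      rw [add_assoc, hg2, hg2]

lemma seqCh_of_ch {N : ℂ → ℝ} {φ ψ S : ℝ} (h : Ch N φ ψ S) : SeqCh N φ ψ S := by
  induction h with
  | single h => exact SeqCh.single h
  | trans _ _ ih1 ih2 => exact ih1.append ih2

section
variable {N : ℂ → ℝ} (hN : IsSN N)
include hN

/-- (B6) chains from sequences -/
theorem Ch_of_seq (m : ℕ → ℝ) (M : ℕ) (hM : 0 < M) (hm : ∀ i, i < M → m i < m (i + 1)) :
    Ch N (m 0) (m M) (∑ i ∈ range M, TT N (m i) (m (i + 1))) := by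
  induction M with
  | zero => exact absurd hM (lt_irrefl 0)
  | succ k ih =>
    rcases Nat.eq_zero_or_pos k with hk | hk
    · subst hk
      simp only [zero_add, Finset.sum_range_one]
      exact Ch.single (hm 0 (by omega))
    · rw [Finset.sum_range_succ]
      exact (ih hk (fun i hi => hm i (by omega))).trans (Ch.single (hm k (by omega)))

/-- (B7) shift of a chain -/
theorem Ch_tau {φ ψ S : ℝ} (h : Ch N φ ψ S) : Ch N (tau N φ) (tau N ψ) S := by
  induction h with
  | @single φ ψ h =>
    have h1 : Ch N (tau N φ) (tau N ψ) (TT N (tau N φ) (tau N ψ)) :=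
      Ch.single (hN.tau_strictMono h)
    rwa [TT_tau hN] at h1
  | trans _ _ ih1 ih2 => exact ih1.trans ih2

lemma TT_add_pi (φ ψ : ℝ) : TT N (φ + Real.pi) (ψ + Real.pi) = TT N φ ψ := by
  rw [← hN.tau_three φ, ← hN.tau_three ψ, TT_tau hN, TT_tau hN, TT_tau hN]

lemma Ch_sub_pi {φ ψ S : ℝ} (h : Ch N φ ψ S) : Ch N (φ - Real.pi) (ψ - Real.pi) S := by
  induction h with
  | @single φ ψ h =>
    have h1 : Ch N (φ - Real.pi) (ψ - Real.pi) (TT N (φ - Real.pi) (ψ - Real.pi)) :=
      Ch.single (by linarith)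
    have h2 := TT_add_pi hN (φ - Real.pi) (ψ - Real.pi)
    rw [sub_add_cancel, sub_add_cancel] at h2
    rwa [← h2] at h1
  | trans _ _ ih1 ih2 => exact ih1.trans ih2

theorem Ch_tau_iff {φ ψ S : ℝ} : Ch N (tau N φ) (tau N ψ) S ↔ Ch N φ ψ S := by
  constructor
  · intro h
    have h1 := Ch_sub_pi hN (Ch_tau hN (Ch_tau hN h))
    rwa [hN.tau_three, hN.tau_three, add_sub_cancel_right, add_sub_cancel_right] at h1
  · exact Ch_tau hN

/-- (B8) area of the polygon of a chain from `φ` to `tau φ` -/
theorem Ch_area {V : ℝ} (hV : AreaBd N V) {φ S : ℝ} (h : Ch N φ (tau N φ) S) : 2 * S ≤ V := by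
  obtain ⟨n, th, hn, h0, h1, h2, h3⟩ := seqCh_of_ch h
  set f : ℕ → ℝ := fun k => (tau N)^[k / n] (th (k % n)) with hf
  have hf1 : ∀ q i, i ≤ n → f (n * q + i) = (tau N)^[q] (th i) := by
    intro q i hi
    rcases hi.lt_or_eq with hi | hi
    · have e1 : (n * q + i) / n = q := by
        rw [Nat.mul_add_div hn, Nat.div_eq_of_lt hi, add_zero]
      have e2 : (n * q + i) % n = i := by
        rw [Nat.mul_add_mod, Nat.mod_eq_of_lt hi]
      simp only [hf, e1, e2]
    · subst hi
      have e0 : i * q + i = i * (q + 1) := by ring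
      have e1 : (i * q + i) / i = q + 1 := by
        rw [e0, Nat.mul_div_cancel_left _ hn]
      have e2 : (i * q + i) % i = 0 := by
        rw [e0, Nat.mul_mod_right]
      simp only [hf, e1, e2]
      rw [Function.iterate_succ_apply, h0, h1]
  have hmono : StrictMono f := by
    apply strictMono_nat_of_lt_succ
    intro k
    have hk : k = n * (k / n) + k % n := (Nat.div_add_mod k n).symm
    have hlt : k % n < n := Nat.mod_lt _ hn
    have e1 : f k = (tau N)^[k / n] (th (k % n)) := rfl
    have e2 : f (k + 1) = (tau N)^[k / n] (th (k % n + 1)) := by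
      have : k + 1 = n * (k / n) + (k % n + 1) := by omega
      rw [this, hf1 _ _ (by omega)]
    rw [e1, e2]
    exact hN.tau_strictMono.iterate _ (h2 _ hlt)
  have hf0 : f 0 = φ := by
    have := hf1 0 0 (by omega)
    simpa [h0] using this
  have hf3 : f (3 * n) = φ + Real.pi := by
    have := hf1 3 0 (by omega)
    have e : n * 3 + 0 = 3 * n := by ring
    rw [e] at this
    rw [this, h0]
    exact hN.tau_three φ
  have hpos : ∀ i j, i < j → j ≤ 3 * n → (0 < i ∨ j < 3 * n) → 0 < cr (P N (f i)) (P N (f j)) := by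
    intro i j hij hj hor
    apply hN.cr_P_pos (hmono hij)
    have k1 : f j ≤ f (3 * n) := hmono.monotone hj
    have k2 : f 0 ≤ f i := hmono.monotone (Nat.zero_le i)
    rcases hor with hi | hj'
    · have k3 : f 0 < f i := hmono hi
      linarith
    · have k3 : f j < f (3 * n) := hmono hj'
      linarith
  have key := hV (3 * n) (fun k => P N (f k)) (by omega) (fun i => hN.N_P _)
    (by
      change P N (f (3 * n)) = - P N (f 0)
      rw [hf3, hf0, hN.P_add_pi]) hpos
  have hsum : ∑ i ∈ range (3 * n), cr (P N (f i)) (P N (f (i + 1))) = 2 * S := by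
    have e : 3 * n = n + (n + n) := by ring
    rw [e, Finset.sum_range_add, Finset.sum_range_add, h3, Finset.mul_sum,
      ← Finset.sum_add_distrib, ← Finset.sum_add_distrib]
    apply Finset.sum_congr rfl
    intro i hi
    have hi' : i < n := Finset.mem_range.mp hi
    have d1 : f i = th i := by
      have := hf1 0 i hi'.le
      simpa using this
    have d2 : f (i + 1) = th (i + 1) := by
      have := hf1 0 (i + 1) hi'
      simpa using this
    have b1 : f (n + i) = tau N (th i) := by
      have := hf1 1 i hi'.le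
      simpa using this
    have b2 : f (n + i + 1) = tau N (th (i + 1)) := by
      have := hf1 1 (i + 1) hi'
      rw [mul_one, ← add_assoc] at this
      simpa using this
    have c1 : f (n + (n + i)) = tau N (tau N (th i)) := by
      have := hf1 2 i hi'.le
      have e2 : n * 2 + i = n + (n + i) := by ring
      rw [e2] at this
      simpa using this
    have c2 : f (n + (n + i) + 1) = tau N (tau N (th (i + 1))) := by
      have := hf1 2 (i + 1) hi'
      have e2 : n * 2 + (i + 1) = n + (n + i) + 1 := by ring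
      rw [e2] at this
      simpa using this
    rw [← add_assoc n n i] at c1 c2
    simp only [← add_assoc] at *
    rw [d1, d2, b1, b2, c1, c2, ← v2_eq hN, ← v2_eq hN]
    unfold TT a0 a2 a4 v0 v4
    rw [cr_neg_left, cr_neg_right]
    ring
  rw [hsum] at key
  exact key

end

end Rein83
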