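import Pool.Agent.Rein83.Ident

set_option autoImplicit false

/-! (B1): the chord lemma. -/

namespace Rein83

open Complex Finset Rein69

section
variable {N : ℂ → ℝ} (hN : IsSN N)
include hN

/-- the strict three point inequality, in terms of consecutive chords -/
theorem chord_three {x y z : ℝ} (h1 : x < y) (h2 : y < z) (h3 : z ≤ x + Real.pi) :
    0 < cr (P N y - P N x) (P N z - P N y) := by
  have e : cr (P N y - P N x) (P N z - P N y) =
      cr (P N x) (P N y) + cr (P N y) (P N z) - cr (P N x) (P N z) := by
    simp only [cr, Complex.sub_re, Complex.sub_im]; ring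
  rcases h3.eq_or_lt with h3 | h3
  · have h4 : P N z = - P N x := by rw [h3, hN.P_add_pi]
    have h5 : 0 < cr (P N x) (P N y) := hN.cr_P_pos h1 (by linarith)
    rw [e, h4, cr_neg_right, cr_neg_right, cr_self, cr_swap (P N y) (P N x)]
    linarith
  · have k1 : 0 < cr (P N x) (P N y) := hN.cr_P_pos h1 (by linarith)
    have k2 : 0 < cr (P N y) (P N z) := hN.cr_P_pos h2 (by linarith)
    have k3 : 0 < cr (P N x) (P N z) := hN.cr_P_pos (by linarith) h3
    have h := congrArg N (cr_three (P N x) (P N y) (P N z))
    rw [hN.smul_nonneg k3.le, hN.N_P] at h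
    have h4 := hN.strict ((cr (P N y) (P N z) : ℂ) * P N x) ((cr (P N x) (P N y) : ℂ) * P N z)
      (by rw [cr_smul_left, cr_smul_right]; positivity)
    rw [hN.smul_nonneg k2.le, hN.smul_nonneg k1.le, hN.N_P, hN.N_P] at h4
    rw [e]
    linarith

/-- (B1) chord lemma: consecutive disjoint chords inside half a turn turn to the left -/
theorem chord {a b c d : ℝ} (hab : a < b) (hbc : b ≤ c) (hcd : c < d) (hda : d ≤ a + Real.pi) :
    0 < cr (P N b - P N a) (P N d - P N c) := by
  have hpa : P N (a + Real.pi) = - P N a := hN.P_add_pi a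
  have hpb : P N (b + Real.pi) = - P N b := hN.P_add_pi b
  -- the last chord ends at `a + π`
  have s6 : ∀ c, b ≤ c → c < a + Real.pi → 0 < cr (P N b - P N a) (P N (a + Real.pi) - P N c) := by
    intro c hbc hc
    have h := chord_three hN hc (show a + Real.pi < b + Real.pi by linarith)
      (show b + Real.pi ≤ c + Real.pi by linarith)
    rw [hpb] at h
    rw [hpa] at h ⊢
    have e : cr (P N b - P N a) (-P N a - P N c) = cr (-P N a - P N c) (-P N b - -P N a) := by
      simp only [cr, Complex.sub_re, Complex.sub_im, Complex.neg_re, Complex.neg_im]; ring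
    rw [e]
    exact h
  rcases hda.eq_or_lt with hda | hda
  · rw [hda]
    exact s6 c hbc (by linarith)
  rcases hbc.eq_or_lt with hbc | hbc
  · rw [← hbc] at hcd ⊢
    exact chord_three hN hab hcd hda.le
  have s1 := chord_three hN hab hbc (by linarith)
  have s2 := chord_three hN hbc hcd (by linarith)
  have s3 := chord_three hN hbc (show c < a + Real.pi by linarith) (by linarith)
  have s4 := chord_three hN (hbc.trans hcd) hda (by linarith)
  have s5 := chord_three hN hcd hda (by linarith)
  have s7 := chord_three hN hab (show b < a + Real.pi by linarith) le_rfl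
  have s6' := s6 c hbc.le (by linarith)
  set u := P N b - P N a with hu
  set m := P N c - P N b with hm
  set v := P N d - P N c with hv
  set n := P N (a + Real.pi) - P N b with hn
  have e3 : P N (a + Real.pi) - P N c = n - m := by rw [hn, hm]; ring
  have e4 : P N d - P N b = m + v := by rw [hv, hm]; ring
  have e5 : P N (a + Real.pi) - P N d = n - m - v := by rw [hn, hm, hv]; ring
  rw [e3] at s3 s6'
  rw [e4, e5] at s4
  rw [e5] at s5
  have t3 : 0 < cr m n := by
    rw [cr_sub_right, cr_self] at s3; linarith
  have t4 : 0 < cr (m + v) n := by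
    have e : cr (m + v) (n - m - v) = cr (m + v) n := by
      simp only [cr, Complex.sub_re, Complex.sub_im, Complex.add_re, Complex.add_im]; ring
    rwa [e] at s4
  have I1 : cr u n * cr m v = cr m n * cr u v - cr u m * cr v n := by
    simp only [cr]; ring
  have I2 : cr u n * cr v (n - m - v) = cr v n * cr u (n - m - v) + cr u v * cr (m + v) n := by
    simp only [cr, Complex.sub_re, Complex.sub_im, Complex.add_re, Complex.add_im]; ring
  have I3 : cr u (n - m - v) = cr u (n - m) - cr u v := by
    rw [cr_sub_right u (n - m) v]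
  by_contra hcon
  rw [not_lt] at hcon
  have j1 : 0 < cr u n * cr m v := mul_pos s7 s2
  have j2 : cr m n * cr u v ≤ 0 := mul_nonpos_of_nonneg_of_nonpos t3.le hcon
  have j3 : cr v n < 0 := by
    by_contra h
    rw [not_lt] at h
    have := mul_nonneg s1.le h
    linarith
  have j4 : 0 < cr u n * cr v (n - m - v) := mul_pos s7 s5
  have j5 : 0 < cr u (n - m - v) := by rw [I3]; linarith
  have j6 : cr v n * cr u (n - m - v) < 0 := mul_neg_of_neg_of_pos j3 j5
  have j7 : cr u v * cr (m + v) n ≤ 0 := mul_nonpos_of_nonpos_of_nonneg hcon t4.le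
  linarith

end

end Rein83
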