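import Pool.Agent.Rein69.Cfg

set_option autoImplicit false

/-! Basic definitions for the full proof of the Reinhardt conjecture (docs proof/MP_fcbba5_nt_*). -/

namespace Rein83

open Complex Finset Rein69

/-- the three alternate vertices (index 0, 2, 4) of the inscribed hexagon at the angle `φ`; they sum to zero -/
noncomputable def v0 (N : ℂ → ℝ) (φ : ℝ) : ℂ := P N φ
/-- vertex 2 -/
noncomputable def v2 (N : ℂ → ℝ) (φ : ℝ) : ℂ := P N (tau N φ) - P N φ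
/-- vertex 4 -/
noncomputable def v4 (N : ℂ → ℝ) (φ : ℝ) : ℂ := - P N (tau N φ)

/-- determinant of the hexagon -/
noncomputable def EE (N : ℂ → ℝ) (φ : ℝ) : ℝ := cr (P N φ) (P N (tau N φ))

/-- the three edge determinants of a pair of hexagons -/
noncomputable def a0 (N : ℂ → ℝ) (φ ψ : ℝ) : ℝ := cr (v0 N φ) (v0 N ψ)
/-- edge determinant of curve 2 -/
noncomputable def a2 (N : ℂ → ℝ) (φ ψ : ℝ) : ℝ := cr (v2 N φ) (v2 N ψ)
/-- edge determinant of curve 4 -/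
noncomputable def a4 (N : ℂ → ℝ) (φ ψ : ℝ) : ℝ := cr (v4 N φ) (v4 N ψ)

/-- half the sum of the edge determinants -/
noncomputable def TT (N : ℂ → ℝ) (φ ψ : ℝ) : ℝ := (a0 N φ ψ + a2 N φ ψ + a4 N φ ψ) / 2

/-- `G_j = 2 (T - a_j)` -/
noncomputable def G0 (N : ℂ → ℝ) (φ ψ : ℝ) : ℝ := a2 N φ ψ + a4 N φ ψ - a0 N φ ψ
/-- `G_2` -/
noncomputable def G2 (N : ℂ → ℝ) (φ ψ : ℝ) : ℝ := a0 N φ ψ + a4 N φ ψ - a2 N φ ψ
/-- `G_4` -/
noncomputable def G4 (N : ℂ → ℝ) (φ ψ : ℝ) : ℝ := a0 N φ ψ + a2 N φ ψ - a4 N φ ψ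

/-- determinant of the difference of two hexagons -/
noncomputable def C1 (N : ℂ → ℝ) (φ ψ : ℝ) : ℝ := cr (v0 N ψ - v0 N φ) (v2 N ψ - v2 N φ)

/-- polarised determinant of `h - g` and `m - g`, for `g = φ`, `h = ψ`, `m = μ` -/
noncomputable def B1 (N : ℂ → ℝ) (φ ψ μ : ℝ) : ℝ :=
  (cr (v0 N ψ - v0 N φ) (v2 N μ - v2 N φ) + cr (v0 N μ - v0 N φ) (v2 N ψ - v2 N φ)) / 2

/-- twice the area between the chord and the intermediate point, curves 0, 2, 4 -/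
noncomputable def H0 (N : ℂ → ℝ) (φ ψ μ : ℝ) : ℝ := cr (v0 N μ - v0 N φ) (v0 N ψ - v0 N φ)
/-- curve 2 -/
noncomputable def H2 (N : ℂ → ℝ) (φ ψ μ : ℝ) : ℝ := cr (v2 N μ - v2 N φ) (v2 N ψ - v2 N φ)
/-- curve 4 -/
noncomputable def H4 (N : ℂ → ℝ) (φ ψ μ : ℝ) : ℝ := cr (v4 N μ - v4 N φ) (v4 N ψ - v4 N φ)

/-- `Ch N φ ψ S`: there is a finite chain of angles from `φ` to `ψ` such that the sum of `TT` over the
consecutive pairs is `S` -/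
inductive Ch (N : ℂ → ℝ) : ℝ → ℝ → ℝ → Prop
  | single {φ ψ : ℝ} (h : φ < ψ) : Ch N φ ψ (TT N φ ψ)
  | trans {φ μ ψ S S' : ℝ} (h : Ch N φ μ S) (h' : Ch N μ ψ S') : Ch N φ ψ (S + S')

end Rein83
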