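import Pool.Agent.Rein83.FinDefs

set_option autoImplicit false

/-! Section F, module FI: interface between the hexagon sequence and the finite configuration. -/

namespace Rein83

open Complex Finset Rein69

/-- all the facts about the four nodes -/
structure FI (N : ℂ → ℝ) (Φ : ℕ → ℝ) (V t : ℝ) (ρ : ℕ → ℝ) (B : ℕ → ℂ) : Prop where
  cf : Cf t ρ B
  EE : ∀ k, EE N (Φ k) = Real.sqrt 3 / 2 * (ρ k ^ 2 - normSq (B k))
  TT : ∀ k, TT N (Φ k) (Φ (k + 1)) = pT (ρ k) (B k) (ρ (k + 1)) (B (k + 1))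
  C1 : ∀ k, C1 N (Φ k) (Φ (k + 1)) = pC (ρ k) (B k) (ρ (k + 1)) (B (k + 1))
  G0 : ∀ m, G0 N (Φ (3 * m)) (Φ (3 * m + 1)) = pG0 (ρ (3 * m)) (B (3 * m)) (ρ (3 * m + 1)) (B (3 * m + 1))
  G2 : ∀ m, G2 N (Φ (3 * m)) (Φ (3 * m + 1)) = pG2 (ρ (3 * m)) (B (3 * m)) (ρ (3 * m + 1)) (B (3 * m + 1))
  G4 : ∀ m, G4 N (Φ (3 * m)) (Φ (3 * m + 1)) = pG4 (ρ (3 * m)) (B (3 * m)) (ρ (3 * m + 1)) (B (3 * m + 1))
  tx : ∀ m, cr (v2 N (Φ (3 * m + 3)) - v2 N (Φ (3 * m + 2))) (v2 N (Φ (3 * m + 4)) - v2 N (Φ (3 * m + 3))) =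
    pturn (ρ (3 * m + 2)) (B (3 * m + 2)) (ρ (3 * m + 3)) (B (3 * m + 3)) (ρ (3 * m + 4)) (B (3 * m + 4))
  ty : ∀ m, cr (v4 N (Φ (3 * m + 4)) - v4 N (Φ (3 * m + 3))) (v4 N (Φ (3 * m + 5)) - v4 N (Φ (3 * m + 4))) =
    pturn (ρ (3 * m + 3)) (B (3 * m + 3)) (ρ (3 * m + 4)) (B (3 * m + 4)) (ρ (3 * m + 5)) (B (3 * m + 5))
  cx : ∀ m, cr (v0 N (Φ (3 * m + 4)) - v0 N (Φ (3 * m + 3)) - (v4 N (Φ (3 * m + 4)) - v4 N (Φ (3 * m + 3))))
      (v2 N (Φ (3 * m + 3)) - v2 N (Φ (3 * m + 2))) =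
    pcrx (ρ (3 * m + 2)) (B (3 * m + 2)) (ρ (3 * m + 3)) (B (3 * m + 3)) (ρ (3 * m + 4)) (B (3 * m + 4))
  cy : ∀ m, cr (v2 N (Φ (3 * m + 4)) - v2 N (Φ (3 * m + 3)) - (v0 N (Φ (3 * m + 4)) - v0 N (Φ (3 * m + 3))))
      (v4 N (Φ (3 * m + 5)) - v4 N (Φ (3 * m + 4))) =
    pcry (ρ (3 * m + 3)) (B (3 * m + 3)) (ρ (3 * m + 4)) (B (3 * m + 4)) (ρ (3 * m + 5)) (B (3 * m + 5))
  g02 : 3 * (ρ 0 * ρ 2 + normSq (B 0)) ≤ V
  g13 : 3 * (ρ 1 * ρ 3 + (B 1 * (starRingEnd ℂ) (B 3)).re) ≤ V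
  g01 : 3 * (cs * (ρ 0 * ρ 1) + ((starRingEnd ℂ) e1 * B 0 * (starRingEnd ℂ) (B 1)).im) ≤ V
  g30 : 3 * (cs * (ρ 3 * ρ 0) + ((starRingEnd ℂ) e1 * B 3 * (starRingEnd ℂ) (B 0)).im) ≤ V

/-! ### constants -/

lemma FI_s2 : Real.sqrt 2 * Real.sqrt 2 = 2 := Real.mul_self_sqrt (by norm_num)
lemma FI_s6 : Real.sqrt 6 = Real.sqrt 2 * Real.sqrt 3 := by
  rw [← Real.sqrt_mul (by norm_num)]; norm_num

lemma FI_ex_e1 : ex (Real.pi / 12) = e1 := by
  have h : Real.pi / 12 = Real.pi / 3 - Real.pi / 4 := by ring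
  apply Complex.ext
  · rw [ex_re, h, Real.cos_sub, Real.cos_pi_div_three, Real.cos_pi_div_four,
      Real.sin_pi_div_three, Real.sin_pi_div_four]
    simp only [e1, cs, FI_s6]
    ring
  · rw [ex_im, h, Real.sin_sub, Real.cos_pi_div_three, Real.cos_pi_div_four,
      Real.sin_pi_div_three, Real.sin_pi_div_four]
    simp only [e1, sn, FI_s6]
    ring

lemma FI_conj_e1 : e1 * (starRingEnd ℂ) e1 = 1 := by
  rw [← FI_ex_e1, conj_ex, ex_mul_ex_neg]

lemma FI_e2 : e1 ^ 2 = e2 := by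
  have h2 := FI_s2
  have h3 := sq3
  apply Complex.ext
  · simp only [e1, e2, cs, sn, FI_s6, pow_two, Complex.mul_re]
    linear_combination (Real.sqrt 3 / 4) * h2
  · simp only [e1, e2, cs, sn, FI_s6, pow_two, Complex.mul_im]
    linear_combination (Real.sqrt 2 ^ 2 / 8) * h3 + (1 / 4) * h2

lemma FI_e3 : e1 * e2 = e3 := by
  have h2 := FI_s2
  have h3 := sq3
  apply Complex.ext
  · simp only [e1, e2, e3, cs, sn, FI_s6, Complex.mul_re]
    linear_combination (Real.sqrt 2 / 8) * h3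
  · simp only [e1, e2, e3, cs, sn, FI_s6, Complex.mul_im]
    linear_combination (Real.sqrt 2 / 8) * h3

lemma FI_e22 : e2 * e2 = om := by
  have h3 := sq3
  apply Complex.ext
  · simp only [e2, om, Complex.mul_re]
    linear_combination (1 / 4) * h3
  · simp only [e2, om, Complex.mul_im]
    ring

lemma FI_z3 : om * om = z3 := by
  have h3 := sq3
  apply Complex.ext
  · simp only [z3, om, Complex.mul_re]
    linear_combination (-1 / 4) * h3
  · simp only [z3, om, Complex.mul_im]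
    ring

lemma FI_z3b : z3 * z3 = z3b := by
  have h3 := sq3
  apply Complex.ext
  · simp only [z3, z3b, Complex.mul_re]
    linear_combination (-1 / 4) * h3
  · simp only [z3, z3b, Complex.mul_im]
    ring

lemma FI_z3z3b : z3 * z3b = 1 := by
  have h3 := sq3
  apply Complex.ext
  · simp only [z3, z3b, Complex.mul_re, Complex.one_re]
    linear_combination (1 / 4) * h3
  · simp only [z3, z3b, Complex.mul_im, Complex.one_im]
    ring

lemma FI_omz3 : om * z3 = -1 := by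
  have h3 := sq3
  apply Complex.ext
  · simp only [z3, om, Complex.mul_re, Complex.neg_re, Complex.one_re]
    linear_combination (-1 / 4) * h3
  · simp only [z3, om, Complex.mul_im, Complex.neg_im, Complex.one_im]
    ring

lemma FI_omz3b : om * z3b = ob := by
  have h3 := sq3
  apply Complex.ext
  · simp only [z3b, om, ob, Complex.mul_re]
    linear_combination (1 / 4) * h3
  · simp only [z3b, om, ob, Complex.mul_im]
    ring

lemma FI_e3I : om * ((starRingEnd ℂ) (I * e1)) = -(e3 * I) := by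
  have h2 := FI_s2
  have h3 := sq3
  apply Complex.ext
  · simp only [om, e1, e3, cs, sn, FI_s6, map_mul, Complex.conj_I, Complex.mul_re, Complex.mul_im,
      Complex.conj_re, Complex.conj_im, Complex.I_re, Complex.I_im, Complex.neg_re, Complex.neg_im]
    linear_combination (Real.sqrt 2 / 8) * h3
  · simp only [om, e1, e3, cs, sn, FI_s6, map_mul, Complex.conj_I, Complex.mul_re, Complex.mul_im,
      Complex.conj_re, Complex.conj_im, Complex.I_re, Complex.I_im, Complex.neg_re, Complex.neg_im]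
    linear_combination (-Real.sqrt 2 / 8) * h3

lemma FI_ome1 : om * (starRingEnd ℂ) e1 = e3 := by
  rw [← FI_e22, ← FI_e2, ← FI_e3]
  have := FI_conj_e1
  rw [← FI_e2]
  linear_combination (e1 ^ 3) * this

lemma FI_sz : (starRingEnd ℂ) e1 * (starRingEnd ℂ) (I * e1) = z3b := by
  have h := FI_conj_e1
  have h1 : om * ((starRingEnd ℂ) e1 * (starRingEnd ℂ) (I * e1)) = ob := by
    rw [mul_comm ((starRingEnd ℂ) e1), ← mul_assoc, FI_e3I, ← FI_e3, ← FI_e2]
    have h6 : e1 ^ 2 * (starRingEnd ℂ) e1 = e1 := by linear_combination e1 * h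
    have h7 : e2 * I = -ob := by
      have h3 := sq3
      apply Complex.ext <;> simp [e2, ob]
    have h8 : ob = -(e1 ^ 2 * I) := by rw [FI_e2, h7]; ring
    linear_combination (-(e1 ^ 2 * I)) * h - h8
  have h2 : ob * (om * ((starRingEnd ℂ) e1 * (starRingEnd ℂ) (I * e1))) = ob * ob := by rw [h1]
  rw [← mul_assoc, mul_comm ob om, om_mul_ob, one_mul] at h2
  rw [h2, ← FI_omz3b]
  have h3 := FI_z3
  have h4 := FI_z3z3b
  linear_combination (z3b ^ 2) * h3 + z3b * h4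

/-! ### general identities -/

lemma FI_a0 (a b a' b' : ℂ) : cr (a + b) (a' + b') =
    ((starRingEnd ℂ) a * a').im + ((starRingEnd ℂ) b * b').im
      + ((starRingEnd ℂ) a * b' - b * (starRingEnd ℂ) a').im := by
  simp only [cr, Complex.add_re, Complex.add_im, Complex.mul_im, Complex.conj_re, Complex.conj_im,
    Complex.sub_im]
  ring

lemma FI_a2 (a b a' b' : ℂ) : cr (z3 * a + z3b * b) (z3 * a' + z3b * b') =
    ((starRingEnd ℂ) a * a').im + ((starRingEnd ℂ) b * b').im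
      + (z3 * ((starRingEnd ℂ) a * b' - b * (starRingEnd ℂ) a')).im := by
  have h3 := sq3
  simp only [cr, Complex.add_re, Complex.add_im, Complex.mul_im, Complex.mul_re, Complex.conj_re,
    Complex.conj_im, Complex.sub_im, Complex.sub_re, z3, z3b]
  linear_combination ((1 / 4) * ((a.re - b.re) * (a'.im - b'.im) - (a.im - b.im) * (a'.re - b'.re))) * h3

lemma FI_a4 (a b a' b' : ℂ) : cr (z3b * a + z3 * b) (z3b * a' + z3 * b') =
    ((starRingEnd ℂ) a * a').im + ((starRingEnd ℂ) b * b').im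
      + (z3b * ((starRingEnd ℂ) a * b' - b * (starRingEnd ℂ) a')).im := by
  have h3 := sq3
  simp only [cr, Complex.add_re, Complex.add_im, Complex.mul_im, Complex.mul_re, Complex.conj_re,
    Complex.conj_im, Complex.sub_im, Complex.sub_re, z3, z3b]
  linear_combination ((1 / 4) * ((a.re - b.re) * (a'.im - b'.im) - (a.im - b.im) * (a'.re - b'.re))) * h3

lemma FI_zsum (K : ℂ) : K.im + (z3 * K).im + (z3b * K).im = 0 := by
  simp only [z3, z3b, Complex.mul_im]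
  ring

lemma FI_c1 (a b a' b' : ℂ) :
    cr (a' + b' - (a + b)) (z3 * a' + z3b * b' - (z3 * a + z3b * b)) =
    Real.sqrt 3 / 2 * (normSq a + normSq a' - 2 * ((starRingEnd ℂ) a * a').re
      - (normSq b + normSq b' - 2 * ((starRingEnd ℂ) b * b').re)) := by
  simp only [cr, Complex.add_re, Complex.add_im, Complex.mul_im, Complex.mul_re, Complex.conj_re,
    Complex.conj_im, Complex.sub_im, Complex.sub_re, z3, z3b, normSq_apply]
  ring

lemma FI_crmul (w x y : ℂ) (hw : w * (starRingEnd ℂ) w = 1) : cr (w * x) (w * y) = cr x y := by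
  rw [cr_eq_im, cr_eq_im, map_mul]
  congr 1
  linear_combination ((starRingEnd ℂ) x * y) * hw

lemma FI_ao (a b a' b' : ℂ) : cr (om * a + ob * b) (om * a' + ob * b') =
    ((starRingEnd ℂ) a * a').im + ((starRingEnd ℂ) b * b').im
      + (z3b * ((starRingEnd ℂ) a * b' - b * (starRingEnd ℂ) a')).im := by
  have h3 := sq3
  simp only [cr, Complex.add_re, Complex.add_im, Complex.mul_im, Complex.mul_re, Complex.conj_re,
    Complex.conj_im, Complex.sub_im, Complex.sub_re, z3b, om, ob]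
  linear_combination ((1 / 4) * ((a.re - b.re) * (a'.im - b'.im) - (a.im - b.im) * (a'.re - b'.re))) * h3

lemma FI_obz3b : ob * z3b = -1 := by
  have h3 := sq3
  apply Complex.ext
  · simp only [z3b, ob, Complex.mul_re, Complex.neg_re, Complex.one_re]
    linear_combination (-1 / 4) * h3
  · simp only [z3b, ob, Complex.mul_im, Complex.neg_im, Complex.one_im]
    ring

lemma FI_om_z3b : om = -z3b := by
  apply Complex.ext
  · simp [om, z3b]; norm_num
  · simp [om, z3b]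

lemma FI_ob_z3 : ob = -z3 := by
  apply Complex.ext
  · simp [ob, z3]; norm_num
  · simp [ob, z3]

/-- the six determinants of a pair -/
lemma FI_six (a b a' b' : ℂ) :
    cr (a + b) (a' + b') + cr (a' + b') (om * a + ob * b) +
    cr (om * a + ob * b) (om * a' + ob * b') + cr (om * a' + ob * b') (z3 * a + z3b * b) +
    cr (z3 * a + z3b * b) (z3 * a' + z3b * b') + cr (z3 * a' + z3b * b') (-(a + b)) =
    3 * (((starRingEnd ℂ) a * a').im + ((starRingEnd ℂ) a' * (om * a)).im +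
      (((starRingEnd ℂ) b * b').im + ((starRingEnd ℂ) b' * (ob * b)).im)) := by
  have e1 : z3 * a + z3b * b = om * (om * a) + ob * (ob * b) := by
    rw [← FI_z3b, ← FI_z3, FI_ob_z3, ← FI_z3]
    ring
  have e2 : -(a + b) = z3 * (om * a) + z3b * (ob * b) := by
    linear_combination (-a) * FI_omz3 + (-b) * FI_obz3b
  have f1 := FI_a0 a b a' b'
  have f2 := FI_ao a b a' b'
  have f3 := FI_a2 a b a' b'
  have f4 := FI_a0 a' b' (om * a) (ob * b)
  have f5 := FI_ao a' b' (om * a) (ob * b)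
  have f6 := FI_a2 a' b' (om * a) (ob * b)
  rw [← e1] at f5
  rw [← e2] at f6
  have g1 := FI_zsum ((starRingEnd ℂ) a * b' - b * (starRingEnd ℂ) a')
  have g2 := FI_zsum ((starRingEnd ℂ) a' * (ob * b) - b' * (starRingEnd ℂ) (om * a))
  rw [f1, f2, f3, f4, f5, f6]
  linarith

/-- turn -/
lemma FI_turn (X Y Z : ℂ) : cr (e1 * Y - X) (e1 ^ 2 * Z - e1 * Y) =
    (e1 * ((starRingEnd ℂ) X * Y + (starRingEnd ℂ) Y * Z) - e2 * ((starRingEnd ℂ) X * Z)).im := by
  have h := FI_conj_e1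
  have h1 : (starRingEnd ℂ) (e1 * Y - X) * (e1 ^ 2 * Z - e1 * Y) =
      (e1 * ((starRingEnd ℂ) X * Y + (starRingEnd ℂ) Y * Z) - e2 * ((starRingEnd ℂ) X * Z))
        - (normSq Y : ℂ) := by
    rw [Complex.normSq_eq_conj_mul_self, map_sub, map_mul, ← FI_e2]
    linear_combination ((starRingEnd ℂ) Y * e1 * Z - (starRingEnd ℂ) Y * Y) * h
  rw [cr_eq_im, h1, Complex.sub_im, Complex.ofReal_im, sub_zero]

/-! ### the nodes -/

/-- the unit `conj (I * e1)` -/
noncomputable def FI_s : ℂ := (starRingEnd ℂ) (I * e1)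

lemma FI_s_conj : FI_s * (starRingEnd ℂ) FI_s = 1 := by
  unfold FI_s
  rw [Complex.conj_conj, map_mul, Complex.conj_I]
  have h := FI_conj_e1
  linear_combination h - (e1 * (starRingEnd ℂ) e1) * Complex.I_mul_I

lemma FI_e1_z3b : e1 * z3b = FI_s := by
  have h := FI_conj_e1
  rw [← FI_sz]
  unfold FI_s
  linear_combination ((starRingEnd ℂ) (I * e1)) * h

lemma FI_ex_nat (k : ℕ) : ex (k * (Real.pi / 12)) = e1 ^ k := by
  induction k with
  | zero => simp [ex_zero]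
  | succ k ih =>
    have e : ((k + 1 : ℕ) : ℝ) * (Real.pi / 12) = k * (Real.pi / 12) + Real.pi / 12 := by
      push_cast; ring
    rw [e, ex_add, ih, FI_ex_e1, pow_succ]

lemma FI_z3b_sq : z3b ^ 2 = z3 := by
  have h1 := FI_z3b
  have h2 := FI_z3z3b
  linear_combination z3 * h2 - z3b * h1

lemma FI_z3b_pow3 : z3b ^ 3 = 1 := by
  have h2 := FI_z3z3b
  have h3 := FI_z3b_sq
  linear_combination z3b * h3 + h2

section nodes
variable {N : ℂ → ℝ} (hN : IsSN N) {Φ ρ : ℕ → ℝ} {b : ℕ → ℂ} (h : HSeq N 4 Φ ρ b)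

/-- the normalised second coordinates -/
noncomputable def FI_B (b : ℕ → ℂ) (k : ℕ) : ℂ := I ^ k * ex (-(Real.pi / 3)) * b k

include h

lemma FI_hA (k : ℕ) : hA N (Φ k) = ρ k * e1 ^ k := by
  rw [h.a, ← FI_ex_nat]
  congr 2
  push_cast
  ring

lemma FI_hB (k : ℕ) : hB N (Φ k) = om * FI_s ^ k * FI_B b k := by
  have e2 : ex (Real.pi / 3) = om := by rw [om_eq_exp]; rfl
  have e3 : om * ex (-(Real.pi / 3)) = 1 := by rw [← e2, ex_mul_ex_neg]
  have e4 : ex (-(k * (Real.pi / (3 * (4 : ℕ))))) = (starRingEnd ℂ) e1 ^ k := by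
    rw [← map_pow, ← FI_ex_nat, conj_ex]
    congr 2
    push_cast
    ring
  have e5 : FI_s ^ k * I ^ k = (starRingEnd ℂ) e1 ^ k := by
    rw [← mul_pow]
    congr 1
    unfold FI_s
    rw [map_mul, Complex.conj_I]
    linear_combination (-(starRingEnd ℂ) e1) * Complex.I_mul_I
  rw [h.bb, e4, ← e5]
  unfold FI_B
  linear_combination (-(FI_s ^ k * I ^ k * b k)) * e3


lemma FI_Bper (k : ℕ) : FI_B b (k + 4) = FI_B b k := by
  unfold FI_B
  rw [h.bper, pow_add, Complex.I_pow_four, mul_one]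

lemma FI_nB (k : ℕ) : normSq (hB N (Φ k)) = normSq (FI_B b k) := by
  have e1 : normSq om = 1 := by
    have := om_mul_ob
    have h2 : (normSq om : ℂ) = 1 := by
      rw [Complex.normSq_eq_conj_mul_self, conj_om, mul_comm]; exact this
    exact_mod_cast h2
  have e2 : normSq FI_s = 1 := by
    have := FI_s_conj
    have h2 : (normSq FI_s : ℂ) = 1 := by
      rw [Complex.normSq_eq_conj_mul_self, mul_comm]; exact this
    exact_mod_cast h2
  rw [FI_hB h, normSq_mul, normSq_mul, map_pow, e1, e2]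
  simp

lemma FI_nA (k : ℕ) : normSq (hA N (Φ k)) = ρ k ^ 2 := by
  have e2 : normSq e1 = 1 := by
    have := FI_conj_e1
    have h2 : (normSq e1 : ℂ) = 1 := by
      rw [Complex.normSq_eq_conj_mul_self, mul_comm]; exact this
    exact_mod_cast h2
  rw [FI_hA h, normSq_mul, map_pow, e2, normSq_ofReal]
  ring

omit h in
lemma FI_v0g (φ : ℝ) (hN : IsSN N) : v0 N φ = hA N φ + hB N φ := hN.P_eq φ
omit h in
lemma FI_v2g (φ : ℝ) (hN : IsSN N) : v2 N φ = z3 * hA N φ + z3b * hB N φ := by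
  unfold v2
  rw [hN.P_eq φ, hN.P_tau_eq φ]
  have h1 := FI_z3
  have h2 := om_sq
  have h3 := FI_om_z3b
  have h4 := om_add_ob
  linear_combination (hA N φ) * (h1 - h2) + (hB N φ) * (h4 - h3)
omit h in
lemma FI_v4g (φ : ℝ) (hN : IsSN N) : v4 N φ = z3b * hA N φ + z3 * hB N φ := by
  unfold v4
  rw [hN.P_tau_eq φ]
  have h3 := FI_om_z3b
  have h4 := FI_ob_z3
  linear_combination (-(hA N φ)) * h3 - (hB N φ) * h4

lemma FI_AA (k : ℕ) : (starRingEnd ℂ) (hA N (Φ k)) * hA N (Φ (k + 1)) =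
    ((ρ k * ρ (k + 1) : ℝ) : ℂ) * e1 := by
  rw [FI_hA h, FI_hA h, map_mul, Complex.conj_ofReal, map_pow, pow_succ]
  have e : (starRingEnd ℂ) e1 ^ k * e1 ^ k = 1 := by
    rw [← mul_pow, mul_comm ((starRingEnd ℂ) e1), FI_conj_e1, one_pow]
  push_cast
  linear_combination ((ρ k : ℂ) * ρ (k + 1) * e1) * e

lemma FI_BB (k : ℕ) : (starRingEnd ℂ) (hB N (Φ k)) * hB N (Φ (k + 1)) =
    (starRingEnd ℂ) (FI_B b k) * FI_B b (k + 1) * FI_s := by
  rw [FI_hB h, FI_hB h, map_mul, map_mul, conj_om, map_pow, pow_succ]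
  have e : (starRingEnd ℂ) FI_s ^ k * FI_s ^ k = 1 := by
    rw [← mul_pow, mul_comm ((starRingEnd ℂ) FI_s), FI_s_conj, one_pow]
  have e2 := om_mul_ob
  linear_combination ((starRingEnd ℂ) (FI_B b k) * FI_B b (k + 1) * FI_s * om * ob) * e
    + ((starRingEnd ℂ) (FI_B b k) * FI_B b (k + 1) * FI_s) * e2

/-- the cross term -/
lemma FI_K (m : ℕ) : (starRingEnd ℂ) (hA N (Φ (3 * m))) * hB N (Φ (3 * m + 1)) -
    hB N (Φ (3 * m)) * (starRingEnd ℂ) (hA N (Φ (3 * m + 1))) =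
    pK (ρ (3 * m)) (FI_B b (3 * m)) (ρ (3 * m + 1)) (FI_B b (3 * m + 1)) := by
  rw [FI_hA h, FI_hA h, FI_hB h, FI_hB h, map_mul, map_mul, Complex.conj_ofReal,
    Complex.conj_ofReal, map_pow, map_pow, pow_succ, pow_succ]
  have e : (starRingEnd ℂ) e1 ^ (3 * m) * FI_s ^ (3 * m) = 1 := by
    rw [← mul_pow]
    have : (starRingEnd ℂ) e1 * FI_s = z3b := FI_sz
    rw [this, pow_mul, FI_z3b_pow3, one_pow]
  have e2 : om * FI_s = -(e3 * I) := FI_e3I
  have e3' := FI_ome1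
  unfold pK
  linear_combination (((ρ (3 * m) : ℂ) * FI_B b (3 * m + 1)) * om * FI_s
      - ((ρ (3 * m + 1) : ℂ) * FI_B b (3 * m)) * om * (starRingEnd ℂ) e1) * e
    + ((ρ (3 * m) : ℂ) * FI_B b (3 * m + 1)) * e2
    - ((ρ (3 * m + 1) : ℂ) * FI_B b (3 * m)) * e3'

lemma FI_SS (k : ℕ) : ((starRingEnd ℂ) (hA N (Φ k)) * hA N (Φ (k + 1))).im +
    ((starRingEnd ℂ) (hB N (Φ k)) * hB N (Φ (k + 1))).im =
    2 / 3 * pT (ρ k) (FI_B b k) (ρ (k + 1)) (FI_B b (k + 1)) := by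
  rw [FI_AA h, FI_BB h]
  unfold pT FI_s
  simp only [e1, map_mul, Complex.conj_I, Complex.mul_re, Complex.mul_im,
      Complex.conj_re, Complex.conj_im, Complex.I_re, Complex.I_im, Complex.neg_re, Complex.neg_im,
      Complex.ofReal_re, Complex.ofReal_im]
  ring


/-! vertices of the nodes -/

lemma FI_n0 (k : ℕ) (hN : IsSN N) : v0 N (Φ k) = e1 ^ k * (ρ k + om * z3b ^ k * FI_B b k) := by
  rw [FI_v0g _ hN, FI_hA h, FI_hB h]
  have e : e1 ^ k * z3b ^ k = FI_s ^ k := by rw [← mul_pow, FI_e1_z3b]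
  linear_combination (-(om * FI_B b k)) * e

lemma FI_n2 (k : ℕ) (hN : IsSN N) :
    v2 N (Φ k) = e1 ^ k * (z3 * (ρ k - z3b ^ k * FI_B b k)) := by
  rw [FI_v2g _ hN, FI_hA h, FI_hB h]
  have e : e1 ^ k * z3b ^ k = FI_s ^ k := by rw [← mul_pow, FI_e1_z3b]
  have e2 := FI_omz3b
  have e3 := FI_ob_z3
  linear_combination (z3 * FI_B b k) * e + (FI_s ^ k * FI_B b k) * (e2 + e3)

lemma FI_n4 (k : ℕ) (hN : IsSN N) :
    v4 N (Φ k) = e1 ^ k * (z3b * (ρ k + ob * z3b ^ k * FI_B b k)) := by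
  rw [FI_v4g _ hN, FI_hA h, FI_hB h]
  have e : e1 ^ k * z3b ^ k = FI_s ^ k := by rw [← mul_pow, FI_e1_z3b]
  have e2 := FI_obz3b
  have e3 := FI_omz3
  linear_combination (FI_B b k) * e + (FI_s ^ k * FI_B b k) * e3
    - (e1 ^ k * z3b ^ k * FI_B b k) * e2

omit h in
lemma FI_p0 (m : ℕ) : z3b ^ (3 * m) = 1 := by rw [pow_mul, FI_z3b_pow3, one_pow]
omit h in
lemma FI_p1 (m : ℕ) : z3b ^ (3 * m + 1) = z3b := by rw [pow_succ, FI_p0, one_mul]
omit h in
lemma FI_p2 (m : ℕ) : z3b ^ (3 * m + 2) = z3 := by rw [pow_add, FI_p0, one_mul, FI_z3b_sq]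
omit h in
lemma FI_p3 (m : ℕ) : z3b ^ (3 * m + 3) = 1 := by rw [pow_add, FI_p0, one_mul, FI_z3b_pow3]
omit h in
lemma FI_p4 (m : ℕ) : z3b ^ (3 * m + 4) = z3b := by
  rw [show 3 * m + 4 = 3 * (m + 1) + 1 by ring, FI_p1]
omit h in
lemma FI_p5 (m : ℕ) : z3b ^ (3 * m + 5) = z3 := by
  rw [show 3 * m + 5 = 3 * (m + 1) + 2 by ring, FI_p2]

omit h in
lemma FI_unit_pow (k : ℕ) : e1 ^ k * (starRingEnd ℂ) (e1 ^ k) = 1 := by
  rw [map_pow, ← mul_pow, FI_conj_e1, one_pow]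

omit h in
lemma FI_z3_unit : z3 * (starRingEnd ℂ) z3 = 1 := by
  have h3 := sq3
  have : (starRingEnd ℂ) z3 = z3b := by apply Complex.ext <;> simp [z3, z3b]
  rw [this, FI_z3z3b]
omit h in
lemma FI_z3b_unit : z3b * (starRingEnd ℂ) z3b = 1 := by
  have h3 := sq3
  have : (starRingEnd ℂ) z3b = z3 := by apply Complex.ext <;> simp [z3, z3b]
  rw [this, mul_comm, FI_z3z3b]

end nodes

/-- interface; take `B k = I ^ k * ex (-(π/3)) * b k` -/
theorem fin_interface {N : ℂ → ℝ} (hN : IsSN N) {V : ℝ} (hV : AreaBd N V)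
    (hD : ∀ φ, 1 ≤ normSq (hA N φ) - normSq (hB N φ)) {Φ ρ : ℕ → ℝ} {b : ℕ → ℂ} (h : HSeq N 4 Φ ρ b)
    (hb : b 0 + b 2 = 0) {t : ℝ} (ht : 0 ≤ t)
    (hal : (b 0 + I * b 1 - b 2 - I * b 3) / 4 = t * ex (Real.pi / 3)) :
    ∃ B : ℕ → ℂ, FI N Φ V t ρ B := by
  have he3 : ex (Real.pi / 3) * ex (-(Real.pi / 3)) = 1 := ex_mul_ex_neg _
  have hI2 : I * I = -1 := Complex.I_mul_I
  have hB02 : FI_B b 0 = FI_B b 2 := by
    unfold FI_B
    linear_combination (ex (-(Real.pi / 3))) * hb - (ex (-(Real.pi / 3)) * b 2) * hI2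
  have hsix : ∀ i j : ℕ, i < j → j < i + 4 →
      3 * (((starRingEnd ℂ) (hA N (Φ i)) * hA N (Φ j)).im +
        ((starRingEnd ℂ) (hA N (Φ j)) * (om * hA N (Φ i))).im +
      (((starRingEnd ℂ) (hB N (Φ i)) * hB N (Φ j)).im +
        ((starRingEnd ℂ) (hB N (Φ j)) * (ob * hB N (Φ i))).im)) ≤ V := by
    intro i j h1 h2
    have h3 := h.area_pair hN hV i j h1 h2
    have t1 : ∀ k, P N (Φ (k + 4)) = om * hA N (Φ k) + ob * hB N (Φ k) := by
      intro k; rw [h.next, hN.P_tau_eq]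
    have t2 : ∀ k, P N (Φ (k + 2 * 4)) = z3 * hA N (Φ k) + z3b * hB N (Φ k) := by
      intro k
      rw [show k + 2 * 4 = k + 4 + 4 by ring, h.next, h.next, ← v2_eq hN, FI_v2g _ hN]
    have t3 : ∀ k, P N (Φ (k + 3 * 4)) = -(hA N (Φ k) + hB N (Φ k)) := by
      intro k
      rw [h.P_half hN, hN.P_eq]
    rw [t1, t1, t2, t2, t3, hN.P_eq (Φ i), hN.P_eq (Φ j), FI_six] at h3
    exact h3
  -- consecutive pairs
  have hcons : ∀ k : ℕ, 3 * (cs * (ρ k * ρ (k + 1)) +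
      ((starRingEnd ℂ) e1 * FI_B b k * (starRingEnd ℂ) (FI_B b (k + 1))).im) ≤ V := by
    intro k
    refine le_trans (le_of_eq ?_) (hsix k (k + 1) (by omega) (by omega))
    have hA' : (starRingEnd ℂ) (hA N (Φ (k + 1))) * (om * hA N (Φ k)) =
        ((ρ k * ρ (k + 1) : ℝ) : ℂ) * e3 := by
      have := congrArg (starRingEnd ℂ) (FI_AA h k)
      simp only [map_mul, Complex.conj_conj, Complex.conj_ofReal] at this
      rw [← FI_ome1]
      linear_combination om * this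
    have hB' : (starRingEnd ℂ) (hB N (Φ (k + 1))) * (ob * hB N (Φ k)) =
        ob * (FI_B b k * (starRingEnd ℂ) (FI_B b (k + 1)) * (starRingEnd ℂ) FI_s) := by
      have := congrArg (starRingEnd ℂ) (FI_BB h k)
      simp only [map_mul, Complex.conj_conj] at this
      linear_combination ob * this
    rw [FI_AA h, FI_BB h, hA', hB']
    have h2 := FI_s2
    have h3 := sq3
    simp only [FI_s, e1, e3, cs, sn, ob, FI_s6, map_mul, Complex.conj_I, Complex.conj_conj,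
      Complex.mul_re, Complex.mul_im, Complex.conj_re, Complex.conj_im, Complex.I_re,
      Complex.I_im, Complex.neg_re, Complex.neg_im, Complex.ofReal_re, Complex.ofReal_im]
    linear_combination (Real.sqrt 2 * (3 / 8) * ((FI_B b k).re * (FI_B b (k + 1)).im
      - (FI_B b k).re * (FI_B b (k + 1)).re - (FI_B b k).im * (FI_B b (k + 1)).im
      - (FI_B b k).im * (FI_B b (k + 1)).re)) * h3
  -- second neighbours
  have hsec : ∀ k : ℕ, 3 * (ρ k * ρ (k + 2) +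
      (FI_B b k * (starRingEnd ℂ) (FI_B b (k + 2))).re) ≤ V := by
    intro k
    refine le_trans (le_of_eq ?_) (hsix k (k + 2) (by omega) (by omega))
    have hA2 : (starRingEnd ℂ) (hA N (Φ k)) * hA N (Φ (k + 2)) =
        ((ρ k * ρ (k + 2) : ℝ) : ℂ) * e2 := by
      rw [FI_hA h, FI_hA h, map_mul, Complex.conj_ofReal, pow_add, FI_e2]
      have e := FI_unit_pow k
      push_cast
      linear_combination ((ρ k : ℂ) * ρ (k + 2) * e2) * e
    have hs2 : FI_s ^ 2 = -(starRingEnd ℂ) e2 := by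
      unfold FI_s
      rw [← map_pow, mul_pow, Complex.I_sq, FI_e2, neg_one_mul, map_neg]
    have hB2 : (starRingEnd ℂ) (hB N (Φ k)) * hB N (Φ (k + 2)) =
        (starRingEnd ℂ) (FI_B b k) * FI_B b (k + 2) * (-(starRingEnd ℂ) e2) := by
      rw [← hs2, FI_hB h, FI_hB h, map_mul, map_mul, conj_om, map_pow, pow_add]
      have e : (starRingEnd ℂ) FI_s ^ k * FI_s ^ k = 1 := by
        rw [← mul_pow, mul_comm ((starRingEnd ℂ) FI_s), FI_s_conj, one_pow]
      have e2 := om_mul_ob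
      linear_combination ((starRingEnd ℂ) (FI_B b k) * FI_B b (k + 2) * FI_s ^ 2 * om * ob) * e
        + ((starRingEnd ℂ) (FI_B b k) * FI_B b (k + 2) * FI_s ^ 2) * e2
    have hA' : (starRingEnd ℂ) (hA N (Φ (k + 2))) * (om * hA N (Φ k)) =
        ((ρ k * ρ (k + 2) : ℝ) : ℂ) * e2 := by
      have := congrArg (starRingEnd ℂ) hA2
      simp only [map_mul, Complex.conj_conj, Complex.conj_ofReal] at this
      have e5 : om * (starRingEnd ℂ) e2 = e2 := by
        have h3 := sq3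
        apply Complex.ext
        · simp only [om, e2, Complex.mul_re, Complex.conj_re, Complex.conj_im]
          ring
        · simp only [om, e2, Complex.mul_im, Complex.conj_re, Complex.conj_im]
          linear_combination (1 / 4) * h3
      linear_combination om * this + ((ρ k * ρ (k + 2) : ℝ) : ℂ) * e5
    have hB' : (starRingEnd ℂ) (hB N (Φ (k + 2))) * (ob * hB N (Φ k)) =
        ob * (FI_B b k * (starRingEnd ℂ) (FI_B b (k + 2)) * (-e2)) := by
      have := congrArg (starRingEnd ℂ) hB2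
      simp only [map_mul, Complex.conj_conj, map_neg] at this
      linear_combination ob * this
    rw [hA2, hB2, hA', hB']
    have h2 := FI_s2
    have h3 := sq3
    simp only [e2, ob, Complex.mul_re, Complex.mul_im, Complex.conj_re, Complex.conj_im,
      Complex.neg_re, Complex.neg_im, Complex.ofReal_re, Complex.ofReal_im]
    linear_combination (-(3 / 4) * ((FI_B b k).re * (FI_B b (k + 2)).re
      + (FI_B b k).im * (FI_B b (k + 2)).im)) * h3
  have hρ4 : ρ 4 = ρ 0 := by simpa using h.ρper 0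
  have hB4 : FI_B b 4 = FI_B b 0 := by simpa using FI_Bper h 0
  have hu := FI_unit_pow
  refine ⟨FI_B b, ⟨⟨h.ρper, FI_Bper h, hB02, ?_, ht, h.ρpos, ?_⟩, ?_, ?_, ?_, ?_, ?_, ?_,
    ?_, ?_, ?_, ?_, ?_, ?_, ?_, ?_⟩⟩
  · unfold FI_B
    linear_combination (4 * ex (-(Real.pi / 3))) * hal + (4 * (t : ℂ)) * he3
      + (ex (-(Real.pi / 3)) * (b 2 + I * b 3)) * hI2
  · intro k
    have := hD (Φ k)
    rw [FI_nA h, FI_nB h] at this
    exact this
  · intro k
    unfold EE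
    rw [hN.P_eq, hN.P_tau_eq, cr_hex, FI_nA h, FI_nB h]
  · intro k
    have h1 := FI_SS h k
    have h2 := FI_zsum ((starRingEnd ℂ) (hA N (Φ k)) * hB N (Φ (k + 1)) -
      hB N (Φ k) * (starRingEnd ℂ) (hA N (Φ (k + 1))))
    unfold TT a0 a2 a4
    rw [FI_v0g _ hN, FI_v0g _ hN, FI_v2g _ hN, FI_v2g _ hN, FI_v4g _ hN, FI_v4g _ hN,
      FI_a0, FI_a2, FI_a4]
    linarith
  · intro k
    unfold C1
    rw [FI_v0g _ hN, FI_v0g _ hN, FI_v2g _ hN, FI_v2g _ hN, FI_c1, FI_AA h, FI_BB h,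
      FI_nA h, FI_nA h, FI_nB h, FI_nB h]
    unfold pC FI_s
    simp only [e1, map_mul, Complex.conj_I, Complex.mul_re, Complex.mul_im,
      Complex.conj_re, Complex.conj_im, Complex.I_re, Complex.I_im, Complex.neg_re,
      Complex.neg_im, Complex.ofReal_re, Complex.ofReal_im]
    ring
  · intro m
    have h1 := FI_SS h (3 * m)
    have h2 := FI_K h m
    have h3 := FI_zsum (pK (ρ (3 * m)) (FI_B b (3 * m)) (ρ (3 * m + 1)) (FI_B b (3 * m + 1)))
    unfold G0 a0 a2 a4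
    rw [FI_v0g _ hN, FI_v0g _ hN, FI_v2g _ hN, FI_v2g _ hN, FI_v4g _ hN, FI_v4g _ hN,
      FI_a2, FI_a4, FI_a0, h2]
    unfold pG0
    linarith
  · intro m
    have h1 := FI_SS h (3 * m)
    have h2 := FI_K h m
    have h3 := FI_zsum (pK (ρ (3 * m)) (FI_B b (3 * m)) (ρ (3 * m + 1)) (FI_B b (3 * m + 1)))
    unfold G2 a0 a2 a4
    rw [FI_v0g _ hN, FI_v0g _ hN, FI_v2g _ hN, FI_v2g _ hN, FI_v4g _ hN, FI_v4g _ hN,
      FI_a2, FI_a4, FI_a0, h2]
    unfold pG2
    linarith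
  · intro m
    have h1 := FI_SS h (3 * m)
    have h2 := FI_K h m
    have h3 := FI_zsum (pK (ρ (3 * m)) (FI_B b (3 * m)) (ρ (3 * m + 1)) (FI_B b (3 * m + 1)))
    unfold G4 a0 a2 a4
    rw [FI_v0g _ hN, FI_v0g _ hN, FI_v2g _ hN, FI_v2g _ hN, FI_v4g _ hN, FI_v4g _ hN,
      FI_a2, FI_a4, FI_a0, h2]
    unfold pG4
    linarith
  · intro m
    rw [FI_n2 h _ hN, FI_n2 h _ hN, FI_n2 h _ hN, FI_p2, FI_p3, FI_p4]
    have e1' : ∀ X Y Z : ℂ, cr (e1 ^ (3 * m + 3) * (z3 * Y) - e1 ^ (3 * m + 2) * (z3 * X))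
        (e1 ^ (3 * m + 4) * (z3 * Z) - e1 ^ (3 * m + 3) * (z3 * Y)) =
        cr (e1 * Y - X) (e1 ^ 2 * Z - e1 * Y) := by
      intro X Y Z
      calc _ = cr (e1 ^ (3 * m + 2) * (z3 * (e1 * Y - X)))
            (e1 ^ (3 * m + 2) * (z3 * (e1 ^ 2 * Z - e1 * Y))) := by congr 1 <;> ring
        _ = _ := by rw [FI_crmul _ _ _ (hu _), FI_crmul _ _ _ FI_z3_unit]
    rw [e1', FI_turn]
    unfold pturn
    rw [FI_ob_z3, FI_om_z3b]
    congr 1
    ring_nf
  · intro m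
    rw [FI_n4 h _ hN, FI_n4 h _ hN, FI_n4 h _ hN, FI_p3, FI_p4, FI_p5]
    have e1' : ∀ X Y Z : ℂ, cr (e1 ^ (3 * m + 4) * (z3b * Y) - e1 ^ (3 * m + 3) * (z3b * X))
        (e1 ^ (3 * m + 5) * (z3b * Z) - e1 ^ (3 * m + 4) * (z3b * Y)) =
        cr (e1 * Y - X) (e1 ^ 2 * Z - e1 * Y) := by
      intro X Y Z
      calc _ = cr (e1 ^ (3 * m + 3) * (z3b * (e1 * Y - X)))
            (e1 ^ (3 * m + 3) * (z3b * (e1 ^ 2 * Z - e1 * Y))) := by congr 1 <;> ring
        _ = _ := by rw [FI_crmul _ _ _ (hu _), FI_crmul _ _ _ FI_z3b_unit]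
    have f1 := FI_obz3b
    have f2 : ob * z3 = om := by
      rw [← FI_z3b_sq]
      linear_combination z3b * f1 - FI_om_z3b
    rw [e1', FI_turn, f1, f2]
    unfold pturn
    congr 1
    ring_nf
  · intro m
    rw [FI_n0 h _ hN, FI_n0 h _ hN, FI_n4 h _ hN, FI_n4 h _ hN, FI_n2 h _ hN, FI_n2 h _ hN,
      FI_p2, FI_p3, FI_p4]
    have f1 := FI_obz3b
    have f2 := FI_omz3b
    have g := FI_conj_e1
    unfold pcrx
    refine Eq.trans ?_ (FI_crmul (e1 ^ (3 * m + 3)) _ _ (hu _))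
    congr 1
    · linear_combination (e1 ^ (3 * m + 4) * FI_B b (3 * m + 4)) * f2
        - (e1 ^ (3 * m + 4) * z3b * FI_B b (3 * m + 4)) * f1
    · have f3 := FI_ob_z3
      linear_combination (e1 ^ (3 * m + 2) * z3 * FI_B b (3 * m + 2)) * f3
        + (e1 ^ (3 * m + 2) * z3 * (ρ (3 * m + 2) + ob * FI_B b (3 * m + 2))) * g
  · intro m
    rw [FI_n0 h _ hN, FI_n0 h _ hN, FI_n4 h _ hN, FI_n4 h _ hN, FI_n2 h _ hN, FI_n2 h _ hN,
      FI_p3, FI_p4, FI_p5]
    have f1 := FI_obz3b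
    have f2 := FI_omz3b
    have f3 := FI_om_z3b
    have f4 : ob * z3 = om := by
      rw [← FI_z3b_sq]
      linear_combination z3b * f1 - FI_om_z3b
    unfold pcry
    rw [← FI_e2]
    refine Eq.trans ?_ (FI_crmul (e1 ^ (3 * m + 3)) _ _ (hu _))
    congr 1
    · linear_combination (-(e1 ^ (3 * m + 4) * FI_B b (3 * m + 4))) * f2
        - (e1 ^ (3 * m + 4) * z3 * FI_B b (3 * m + 4)) * f3
    · linear_combination (e1 ^ (3 * m + 5) * z3b * FI_B b (3 * m + 5)) * f4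
        - (e1 ^ (3 * m + 4) * z3b * FI_B b (3 * m + 4)) * f1
  · have := hsec 0
    rw [show (0 : ℕ) + 2 = 2 by norm_num, ← hB02] at this
    have e : (FI_B b 0 * (starRingEnd ℂ) (FI_B b 0)).re = normSq (FI_B b 0) := by
      rw [Complex.mul_conj, Complex.ofReal_re]
    rw [e] at this
    exact this
  · exact hsec 1
  · exact hcons 0
  · have := hcons 3
    rw [show (3 : ℕ) + 1 = 4 by norm_num, hρ4, hB4] at this
    exact this

end Rein83
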