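import Pool.Agent.Rein83.Chord

set_option autoImplicit false

/-! Section B: geometry (B2)-(B5). -/

namespace Rein83

open Complex Finset Rein69

section
variable {N : ℂ → ℝ} (hN : IsSN N)
include hN

/-- (B2) -/
theorem C1_pos {φ ψ : ℝ} (h1 : φ < ψ) (h2 : ψ ≤ tau N φ) : 0 < C1 N φ ψ := by
  unfold C1
  rw [v2_eq hN, v2_eq hN]
  unfold v0
  have hm := hN.tau_strictMono
  have h3 := (hN.tau_spec (tau N φ)).1
  refine chord hN h1 (h2.trans h3.le) (hm (hm h1)) ?_
  rw [← hN.tau_three]
  exact hm.monotone (hm.monotone h2)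

/-- (B3) -/
theorem a_pos {φ ψ : ℝ} (h1 : φ < ψ) (h2 : ψ ≤ tau N φ) :
    0 < a0 N φ ψ ∧ 0 < a2 N φ ψ ∧ 0 < a4 N φ ψ := by
  have hm := hN.tau_strictMono
  obtain ⟨k1, k2, -⟩ := hN.tau_spec φ
  obtain ⟨l1, l2, -⟩ := hN.tau_spec (tau N φ)
  refine ⟨?_, ?_, ?_⟩
  · unfold a0 v0
    exact hN.cr_P_pos h1 (by linarith)
  · unfold a2
    rw [v2_eq hN, v2_eq hN]
    refine hN.cr_P_pos (hm (hm h1)) ?_
    have h3 : tau N (tau N ψ) ≤ φ + Real.pi := by
      rw [← hN.tau_three]
      exact hm.monotone (hm.monotone h2)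
    linarith
  · unfold a4 v4
    rw [cr_neg_left, cr_neg_right, neg_neg]
    refine hN.cr_P_pos (hm h1) ?_
    have h3 := hm.monotone h2
    linarith

/-- three points -/
theorem three_P {a b c : ℝ} (h1 : a ≤ b) (h2 : b ≤ c) (h3 : c ≤ a + Real.pi) :
    0 ≤ cr (P N b - P N a) (P N c - P N a) := by
  have h := hN.three (hN.N_P a) (hN.N_P b) (hN.N_P c) (hN.cr_P_nonneg h1 (by linarith))
    (hN.cr_P_nonneg h2 (by linarith)) (hN.cr_P_nonneg (by linarith) h3)
  have e : cr (P N b - P N a) (P N c - P N a) =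
      cr (P N a) (P N b) + cr (P N b) (P N c) - cr (P N a) (P N c) := by
    simp only [cr, Complex.sub_re, Complex.sub_im]; ring
  rw [e]; linarith

theorem H_nonneg {φ ψ μ : ℝ} (h1 : φ ≤ μ) (h2 : μ ≤ ψ) (h3 : ψ ≤ tau N φ) :
    0 ≤ H0 N φ ψ μ ∧ 0 ≤ H2 N φ ψ μ ∧ 0 ≤ H4 N φ ψ μ := by
  have hm := hN.tau_strictMono.monotone
  obtain ⟨k1, k2, -⟩ := hN.tau_spec φ
  obtain ⟨l1, l2, -⟩ := hN.tau_spec (tau N φ)
  refine ⟨?_, ?_, ?_⟩
  · unfold H0 v0
    exact three_P hN h1 h2 (by linarith)
  · unfold H2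
    rw [v2_eq hN, v2_eq hN, v2_eq hN]
    refine three_P hN (hm (hm h1)) (hm (hm h2)) ?_
    have h4 : tau N (tau N ψ) ≤ φ + Real.pi := by
      rw [← hN.tau_three]
      exact hm (hm h3)
    linarith
  · have e : H4 N φ ψ μ =
        cr (P N (tau N μ) - P N (tau N φ)) (P N (tau N ψ) - P N (tau N φ)) := by
      simp only [H4, v4, cr, Complex.sub_re, Complex.sub_im, Complex.neg_re, Complex.neg_im]; ring
    rw [e]
    refine three_P hN (hm h1) (hm h2) ?_
    have h4 := hm h3
    linarith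

omit hN in
lemma continuous_cr {f g : ℝ → ℂ} (hf : Continuous f) (hg : Continuous g) :
    Continuous (fun x => cr (f x) (g x)) := by
  unfold cr
  exact ((Complex.continuous_re.comp hf).mul (Complex.continuous_im.comp hg)).sub
    ((Complex.continuous_im.comp hf).mul (Complex.continuous_re.comp hg))

lemma continuous_v0 : Continuous (v0 N) := hN.cont_P

lemma continuous_v2 : Continuous (v2 N) := by
  unfold v2
  exact (hN.cont_P.comp hN.tau_cont).sub hN.cont_P

lemma continuous_B1 (φ ψ : ℝ) : Continuous (fun μ => B1 N φ ψ μ) := by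
  unfold B1
  exact ((continuous_cr continuous_const ((continuous_v2 hN).sub continuous_const)).add
    (continuous_cr ((continuous_v0 hN).sub continuous_const) continuous_const)).div_const 2

omit hN in
lemma B1_self (φ ψ : ℝ) : B1 N φ ψ φ = 0 := by
  unfold B1
  rw [sub_self, sub_self, cr_zero_right, cr_zero_left]; ring

omit hN in
lemma B1_end (φ ψ : ℝ) : B1 N φ ψ ψ = C1 N φ ψ := by
  unfold B1 C1; ring

/-- (B4) intermediate hexagons with prescribed `B1` -/
theorem exists_B1 {φ ψ : ℝ} (h1 : φ < ψ) (h2 : ψ ≤ tau N φ) {x : ℝ} (hx0 : 0 < x) (hx1 : x < C1 N φ ψ) :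
    ∃ μ, φ < μ ∧ μ < ψ ∧ B1 N φ ψ μ = x := by
  have h := intermediate_value_Icc h1.le (continuous_B1 hN φ ψ).continuousOn
  simp only [B1_self, B1_end] at h
  obtain ⟨μ, ⟨hμ1, hμ2⟩, hμ⟩ := h ⟨hx0.le, hx1.le⟩
  simp only at hμ
  refine ⟨μ, lt_of_le_of_ne hμ1 ?_, lt_of_le_of_ne hμ2 ?_, hμ⟩
  · rintro rfl
    rw [B1_self] at hμ
    exact hx0.ne hμ
  · rintro rfl
    rw [B1_end] at hμ
    exact hx1.ne hμ.symm

omit hN in
/-- equally spaced levels of a continuous function -/
lemma exists_levels {f : ℝ → ℝ} (hf : Continuous f) : ∀ M : ℕ, 0 < M → ∀ a b : ℝ, a < b →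
    f a < f b → ∃ m : ℕ → ℝ, m 0 = a ∧ m M = b ∧ (∀ i, i < M → m i < m (i + 1)) ∧
      (∀ i, i ≤ M → f (m i) = f a + (i / M : ℝ) * (f b - f a)) := by
  intro M
  induction M with
  | zero => intro h; exact absurd h (lt_irrefl _)
  | succ M ih =>
    intro _ a b hab hf1
    rcases Nat.eq_zero_or_pos M with hM | hM
    · subst hM
      refine ⟨fun i => if i = 0 then a else b, by simp, by simp, ?_, ?_⟩
      · intro i hi
        have : i = 0 := by omega
        subst this
        simpa using hab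
      · intro i hi
        have : i = 0 ∨ i = 1 := by omega
        rcases this with rfl | rfl <;> simp
    · have hM' : (0 : ℝ) < M := by exact_mod_cast hM
      set x : ℝ := f a + (f b - f a) / (M + 1) with hx
      have hx1 : f a < x := by
        have : 0 < (f b - f a) / (M + 1) := by
          apply div_pos <;> linarith
        linarith
      have hx2 : x < f b := by
        have : (f b - f a) / (M + 1) < f b - f a := by
          rw [div_lt_iff₀ (by linarith)]
          nlinarith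
        linarith
      obtain ⟨c, ⟨hc1, hc2⟩, hc⟩ := intermediate_value_Icc hab.le hf.continuousOn
        (⟨hx1.le, hx2.le⟩ : x ∈ Set.Icc (f a) (f b))
      have hca : a < c := by
        refine lt_of_le_of_ne hc1 ?_
        rintro rfl
        linarith
      have hcb : c < b := by
        refine lt_of_le_of_ne hc2 ?_
        rintro rfl
        linarith
      obtain ⟨m, m0, mM, mi, mf⟩ := ih hM c b hcb (by linarith)
      refine ⟨fun i => if i = 0 then a else m (i - 1), by simp, by simpa using mM, ?_, ?_⟩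
      · intro i hi
        rcases Nat.eq_zero_or_pos i with h0 | h0
        · subst h0
          simpa [m0] using hca
        · obtain ⟨j, rfl⟩ : ∃ j, i = j + 1 := ⟨i - 1, by omega⟩
          simpa using mi j (by omega)
      · intro i hi
        rcases Nat.eq_zero_or_pos i with h0 | h0
        · subst h0
          simp
        · obtain ⟨j, rfl⟩ : ∃ j, i = j + 1 := ⟨i - 1, by omega⟩
          have h3 := mf j (by omega)
          simp only [Nat.add_eq_zero_iff, one_ne_zero, and_false, if_false, Nat.add_sub_cancel]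
          rw [h3, hc, hx]
          push_cast
          field_simp
          ring

/-- (B5) a whole chain with equally spaced `B1` -/
theorem exists_chain {φ ψ : ℝ} (h1 : φ < ψ) (h2 : ψ ≤ tau N φ) (M : ℕ) (hM : 0 < M) :
    ∃ m : ℕ → ℝ, m 0 = φ ∧ m M = ψ ∧ (∀ i, i < M → m i < m (i + 1)) ∧
      (∀ i, i ≤ M → B1 N φ ψ (m i) = (i / M : ℝ) * C1 N φ ψ) := by
  have hC := C1_pos hN h1 h2
  obtain ⟨m, m0, mM, mi, mf⟩ := exists_levels (continuous_B1 hN φ ψ) M hM φ ψ h1
    (by rw [B1_self, B1_end]; exact hC)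
  refine ⟨m, m0, mM, mi, fun i hi => ?_⟩
  have := mf i hi
  rw [B1_self, B1_end] at this
  rw [this]; ring

end

end Rein83
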