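import Pool.Agent.Rein83.FarCore
import Pool.Agent.Rein83.Geo
import Pool.Agent.Rein83.Chain

set_option autoImplicit false

/-! Section D: far lemma. -/

namespace Rein83

open Complex Finset Rein69

/-- (D2) the three numerical instances of `hmain` -/
theorem far_num1 (r : ℝ) : 0 ≤ r ^ 2 / 4 - 0 * (89/2000) ^ 2 * r ^ 2 / 16 - 0 * (89/2000) * r / 8 - (4998/10000 - 0 / 4) * (r - 1 / 2)
      - 34 / 100 * (89/2000) ^ 2 * (4998/10000) ^ 2 * (r - 1 / 2) ^ 2 := by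
  nlinarith [sq_nonneg (r - 1)]

theorem far_num2 (r : ℝ) : 0 ≤ r ^ 2 / 4 - (4998/10000) * (89/1000) ^ 2 * r ^ 2 / 16 - (4998/10000) * (89/1000) * r / 8
      - (6125/10000 - (4998/10000) / 4) * (r - 1 / 2)
      - 34 / 100 * (89/1000) ^ 2 * (6125/10000) ^ 2 * (r - 1 / 2) ^ 2 := by
  nlinarith [sq_nonneg (r - 9892/10000)]

theorem far_num3 (r : ℝ) : 0 ≤ r ^ 2 / 4 - (6125/10000) * (89/500) ^ 2 * r ^ 2 / 16 - (6125/10000) * (89/500) * r / 8
      - (621/1000 - (6125/10000) / 4) * (r - 1 / 2)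
      - 34 / 100 * (89/500) ^ 2 * (621/1000) ^ 2 * (r - 1 / 2) ^ 2 := by
  nlinarith [sq_nonneg (r - 97564/100000)]

/-- the claim of level `(z, f, κ)` -/
def Claim (N : ℂ → ℝ) (z f κ : ℝ) : Prop :=
  ∀ φ ψ G : ℝ, φ < ψ → ψ ≤ tau N φ → 0 < G → G0 N φ ψ ≤ G → G2 N φ ψ ≤ G → G4 N φ ψ ≤ G →
    ∃ S, Ch N φ ψ S ∧ TT N φ ψ + f * z * (C1 N φ ψ - z * G / 2)
      - κ * (C1 N φ ψ / G) * ((EE N φ - Real.sqrt 3 / 2) + (EE N ψ - Real.sqrt 3 / 2)) ≤ S


/-- an edge determinant is at most `G` -/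
lemma far_G_le {x0 x2 x4 G : ℝ} (h2 : x0 + x4 - x2 ≤ G) (h4 : x0 + x2 - x4 ≤ G) : x0 ≤ G := by linarith

/-- bound for one of the `G_j` of a half: `g + g' = s`, `C (g - g') = d` -/
lemma far_half {C G W D Sig Gj Hj A x y : ℝ} (hC : 0 < C) (hSig : 0 ≤ Sig) (hG : Gj ≤ G) (hHj : 0 ≤ Hj)
    (hHS : Hj ≤ Sig) (hD0 : 0 ≤ D)
    (hadd : x + y = Gj + Sig - 2 * Hj)
    (hA : C * (x - y) = A) (hA1 : A ≤ (2 * G + D) * Sig) (hA2 : - A ≤ (2 * G + D) * Sig)
    (hW : C * W = C + (2 * G + D)) :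
    x ≤ (G + W * Sig) / 2 ∧ y ≤ (G + W * Sig) / 2 := by
  have e1 : C * (W * Sig) = C * Sig + (2 * G + D) * Sig := by
    calc C * (W * Sig) = (C * W) * Sig := by ring
      _ = _ := by rw [hW]; ring
  constructor
  · have : C * (2 * x) ≤ C * (G + W * Sig) := by
      have e2 : C * (2 * x) = C * (x + y) + C * (x - y) := by ring
      rw [e2, hadd, hA, mul_add C G, e1]
      have h3 : C * (Gj + Sig - 2 * Hj) ≤ C * (G + Sig) := by
        apply mul_le_mul_of_nonneg_left _ hC.le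
        linarith
      nlinarith
    have := le_of_mul_le_mul_left this hC
    linarith
  · have : C * (2 * y) ≤ C * (G + W * Sig) := by
      have e2 : C * (2 * y) = C * (x + y) - C * (x - y) := by ring
      rw [e2, hadd, hA, mul_add C G, e1]
      have h3 : C * (Gj + Sig - 2 * Hj) ≤ C * (G + Sig) := by
        apply mul_le_mul_of_nonneg_left _ hC.le
        linarith
      nlinarith
    have := le_of_mul_le_mul_left this hC
    linarith

/-- the cross term -/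
lemma far_cross {G D Sig h1 h2 hj al be dE : ℝ} (h10 : 0 ≤ h1) (h20 : 0 ≤ h2) (hj0 : 0 ≤ hj) (hS : h1 + h2 + hj = Sig)
    (hal0 : 0 ≤ al) (hbe0 : 0 ≤ be) (hal : al ≤ G) (hbe : be ≤ G) (hd1 : dE ≤ D) (hd2 : - dE ≤ D) :
    2 * (h1 * al - h2 * be) - (h1 + h2 - hj) * dE ≤ (2 * G + D) * Sig ∧
    - (2 * (h1 * al - h2 * be) - (h1 + h2 - hj) * dE) ≤ (2 * G + D) * Sig := by
  have hG0 : 0 ≤ G := hal0.trans hal
  have hD0 : 0 ≤ D := by linarith
  have a1 : h1 * al ≤ h1 * G := mul_le_mul_of_nonneg_left hal h10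
  have a2 : h2 * be ≤ h2 * G := mul_le_mul_of_nonneg_left hbe h20
  have a3 : 0 ≤ h1 * al := mul_nonneg h10 hal0
  have a4 : 0 ≤ h2 * be := mul_nonneg h20 hbe0
  have a5 : 0 ≤ h1 * G := mul_nonneg h10 hG0
  have a6 : 0 ≤ h2 * G := mul_nonneg h20 hG0
  have a7 : 0 ≤ hj * G := mul_nonneg hj0 hG0
  -- |(h1 + h2 - hj) dE| ≤ Sig * D
  have b1 : (h1 + h2) * dE ≤ (h1 + h2) * D := mul_le_mul_of_nonneg_left hd1 (by linarith)
  have b2 : (h1 + h2) * (-dE) ≤ (h1 + h2) * D := mul_le_mul_of_nonneg_left hd2 (by linarith)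
  have b3 : hj * dE ≤ hj * D := mul_le_mul_of_nonneg_left hd1 hj0
  have b4 : hj * (-dE) ≤ hj * D := mul_le_mul_of_nonneg_left hd2 hj0
  subst hS
  constructor
  · nlinarith
  · nlinarith

/-- the determinant condition -/
lemma far_con {C em ep eq e0 s Q GS : ℝ}
    (h : C * em + C * e0 = (C - C / 2) * (ep + e0) + C / 2 * (eq + e0) - (C - C / 2) * (C / 2) + s / 2 + Q / 2)
    (hs : s ≤ GS) : C ^ 2 / 2 + 2 * C * em - C * (ep + eq) ≤ GS + Q := by
  linarith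

lemma far_ratio {C G W D Sig Q : ℝ} (hC : 0 < C) (hG : 0 < G) (hD0 : 0 ≤ D) (hSig0 : 0 ≤ Sig) (hSigC : Sig ≤ C)
    (hQ1 : Q ≤ Sig ^ 2 / 6) (hCW : C * W = C + (2 * G + D)) (hG'0 : 0 < (G + W * Sig) / 2) :
    (C / 4 + Q / (2 * C)) / ((G + W * Sig) / 2) ≤ (1 / 2) * (C / G) := by
  rw [div_le_iff₀ hG'0]
  have hQC : Q / (2 * C) ≤ Sig / 2 := by
    rw [div_le_iff₀ (by positivity)]
    nlinarith [mul_le_mul_of_nonneg_left hSigC hSig0]
  have e5 : 1 / 2 * (C / G) * ((G + W * Sig) / 2) = C / 4 + (C * W) * Sig / (4 * G) := by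
    field_simp; ring
  rw [e5, hCW]
  have e6 : (C + (2 * G + D)) * Sig / (4 * G) = Sig / 2 + (C + D) * Sig / (4 * G) := by
    field_simp; ring
  rw [e6]
  have : 0 ≤ (C + D) * Sig / (4 * G) := by positivity
  linarith

/-- the normalised inequality -/
lemma far_norm {z f fp κ C G Sig Q ep eq em D : ℝ} (hC : 0 < C) (hG : 0 < G)
    (hz0 : 0 < z) (hz1 : z ≤ 89 / 500) (hf0 : 0 ≤ f) (hf1 : f ≤ 6125 / 10000)
    (hfp0 : 0 ≤ fp) (hfp1 : fp ≤ 1) (hκ0 : 0 ≤ κ) (hκ1 : κ ≤ 3 / 4)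
    (hmain : ∀ r : ℝ, 1 / 2 ≤ r → 0 ≤ r ^ 2 / 4 - f * z ^ 2 * r ^ 2 / 16 - f * z * r / 8 - (fp - f / 4) * (r - 1 / 2)
      - 34 / 100 * z ^ 2 * fp ^ 2 * (r - 1 / 2) ^ 2)
    (hep : 0 ≤ ep) (heq : 0 ≤ eq) (hem : 0 ≤ em) (hSig0 : 0 ≤ Sig) (hD0 : 0 ≤ D) (hDe : D ≤ ep + eq)
    (hr : z * G / 2 < C) (hSigb : Sig / 2 ≤ fp * z * (C - z * G / 2))
    (hQ0 : - (Sig ^ 2 / 2) ≤ Q) (hQ1 : Q ≤ Sig ^ 2 / 6)
    (hcon0 : C ^ 2 / 2 + 2 * C * em - C * (ep + eq) ≤ G * Sig + Q) :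
    fp * z * (C - z * G / 2) - (1 / 2 + κ / 2) * (C / G) * (ep + eq) ≤
      Sig / 2 + f * z * ((C / 4 + Q / (2 * C)) - z * ((G + (1 + (2 * G + D) / C) * Sig) / 2) / 4)
        - κ * ((1 / 2) * (C / G)) * (ep + eq + 2 * em) := by
  have hzG : 0 < z * G := by positivity
  have hz2G : 0 < z ^ 2 * G := by positivity
  have hr0 : 1 / 2 ≤ C / (z * G) := by
    rw [le_div_iff₀ hzG]; linarith
  have c1 : Sig / (z ^ 2 * G) ≤ 2 * fp * (C / (z * G) - 1 / 2) := by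
    rw [div_le_iff₀ hz2G]
    have : 2 * fp * (C / (z * G) - 1 / 2) * (z ^ 2 * G) = 2 * (fp * z * (C - z * G / 2)) := by
      field_simp
    rw [this]; linarith
  have c2 : -((Sig / (z ^ 2 * G)) ^ 2 / 2) ≤ Q / (z ^ 4 * G ^ 2) := by
    have : -((Sig / (z ^ 2 * G)) ^ 2 / 2) = (-(Sig ^ 2 / 2)) / (z ^ 4 * G ^ 2) := by
      field_simp
    rw [this]
    exact div_le_div_of_nonneg_right hQ0 (by positivity)
  have c3 : Q / (z ^ 4 * G ^ 2) ≤ (Sig / (z ^ 2 * G)) ^ 2 / 6 := by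
    have : (Sig / (z ^ 2 * G)) ^ 2 / 6 = (Sig ^ 2 / 6) / (z ^ 4 * G ^ 2) := by
      field_simp
    rw [this]
    exact div_le_div_of_nonneg_right hQ1 (by positivity)
  have c4 : (C / (z * G)) ^ 2 / 2 + 2 * (C / (z * G)) * (em / (z * G)) - C / (z * G) * ((ep + eq) / (z * G)) ≤
      Sig / (z ^ 2 * G) + z ^ 2 * (Q / (z ^ 4 * G ^ 2)) := by
    have t1 : (C / (z * G)) ^ 2 / 2 + 2 * (C / (z * G)) * (em / (z * G)) - C / (z * G) * ((ep + eq) / (z * G)) =
        (C ^ 2 / 2 + 2 * C * em - C * (ep + eq)) / (z * G) ^ 2 := by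
      field_simp
    have t2 : Sig / (z ^ 2 * G) + z ^ 2 * (Q / (z ^ 4 * G ^ 2)) = (G * Sig + Q) / (z * G) ^ 2 := by
      field_simp
    rw [t1, t2]
    exact div_le_div_of_nonneg_right hcon0 (by positivity)
  have key := far_core (z := z) (f := f) (fp := fp) (κ := κ) (r := C / (z * G)) (σ := Sig / (z ^ 2 * G))
    (q := Q / (z ^ 4 * G ^ 2)) (e := (ep + eq) / (z * G)) (em := em / (z * G)) (δ := D / (z * G))
    hz0 hz1 hf0 hf1 hfp0 hfp1 hκ0 hκ1 hr0 (by positivity) c1 c2 c3 (by positivity) (by positivity) (by positivity)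
    (div_le_div_of_nonneg_right hDe hzG.le) c4 (hmain _ hr0)
  have key2 := mul_le_mul_of_nonneg_right key hz2G.le
  have eA : (fp * (C / (z * G) - 1 / 2) - (1 / 2 + κ / 2) * (C / (z * G)) * ((ep + eq) / (z * G))) * (z ^ 2 * G) =
      fp * z * (C - z * G / 2) - (1 / 2 + κ / 2) * (C / G) * (ep + eq) := by
    field_simp
  have eB1 : f * (C / (z * G) / 4 + z ^ 2 * (Q / (z ^ 4 * G ^ 2)) / (2 * (C / (z * G))) - 1 / 8
      - z ^ 2 * (Sig / (z ^ 2 * G)) / 8 * (1 + 2 / (z * (C / (z * G))) + D / (z * G) / (C / (z * G)))) * (z ^ 2 * G) =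
      f * z * ((C / 4 + Q / (2 * C)) - z * ((G + (1 + (2 * G + D) / C) * Sig) / 2) / 4) := by
    field_simp
    ring
  have eB2 : Sig / (z ^ 2 * G) / 2 * (z ^ 2 * G) = Sig / 2 := by field_simp
  have eB3 : κ * (C / (z * G)) * ((ep + eq) / (z * G) + 2 * (em / (z * G))) / 2 * (z ^ 2 * G) =
      κ * ((1 / 2) * (C / G)) * (ep + eq + 2 * em) := by
    field_simp
  have eAll : ∀ a b c w : ℝ, (a + b - c) * w = a * w + b * w - c * w := fun a b c w => by ring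
  rw [eA, eAll, eB1, eB2, eB3] at key2
  exact key2

/-- (D3) one step -/
theorem Claim_step {N : ℂ → ℝ} (hN : IsSN N) (hE : ∀ φ, Real.sqrt 3 / 2 ≤ EE N φ) {z f fp κ : ℝ}
    (hz0 : 0 < z) (hz1 : z ≤ 89 / 500) (hf0 : 0 ≤ f) (hf1 : f ≤ 6125 / 10000)
    (hfp0 : 0 ≤ fp) (hfp1 : fp ≤ 1) (hκ0 : 0 ≤ κ) (hκ1 : κ ≤ 3 / 4)
    (hmain : ∀ r : ℝ, 1 / 2 ≤ r → 0 ≤ r ^ 2 / 4 - f * z ^ 2 * r ^ 2 / 16 - f * z * r / 8 - (fp - f / 4) * (r - 1 / 2)
      - 34 / 100 * z ^ 2 * fp ^ 2 * (r - 1 / 2) ^ 2)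
    (h : Claim N (z / 2) f κ) : Claim N z fp (1 / 2 + κ / 2) := by
  intro φ ψ G hφψ hψτ hG hG0 hG2 hG4
  have hC : 0 < C1 N φ ψ := C1_pos hN hφψ hψτ
  have hep : 0 ≤ EE N φ - Real.sqrt 3 / 2 := sub_nonneg.mpr (hE φ)
  have heq : 0 ≤ EE N ψ - Real.sqrt 3 / 2 := sub_nonneg.mpr (hE ψ)
  set C := C1 N φ ψ with hCdef
  set ep := EE N φ - Real.sqrt 3 / 2 with hepdef
  set eq := EE N ψ - Real.sqrt 3 / 2 with heqdef
  have hCG : 0 < C / G := div_pos hC hG
  have hlast : 0 ≤ (1 / 2 + κ / 2) * (C / G) * (ep + eq) := by positivity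
  by_cases hr : C ≤ z * G / 2
  · refine ⟨TT N φ ψ, Ch.single hφψ, ?_⟩
    have : fp * z * (C - z * G / 2) ≤ 0 := mul_nonpos_of_nonneg_of_nonpos (by positivity) (by linarith)
    linarith
  · rw [not_le] at hr
    obtain ⟨μ, h1, h2, hB⟩ := exists_B1 hN hφψ hψτ (x := C / 2) (by linarith) (by linarith)
    obtain ⟨hH0, hH2, hH4⟩ := H_nonneg hN h1.le h2.le hψτ
    obtain ⟨ha0, ha2, ha4⟩ := a_pos hN hφψ hψτ
    have hem : 0 ≤ EE N μ - Real.sqrt 3 / 2 := sub_nonneg.mpr (hE μ)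
    have eTT := TT_split N φ ψ μ
    have eEE := EE_mid N φ ψ μ
    have eCl := C1_left N φ ψ μ
    have eCr := C1_right N φ ψ μ
    have eG0a := G0_add N φ ψ μ
    have eG2a := G2_add N φ ψ μ
    have eG4a := G4_add N φ ψ μ
    have eG0d := G0_diff N φ ψ μ
    have eG2d := G2_diff N φ ψ μ
    have eG4d := G4_diff N φ ψ μ
    have hμτ : μ ≤ tau N φ := h2.le.trans hψτ
    have hψτ' : ψ ≤ tau N μ := hψτ.trans (hN.tau_strictMono h1).le
    have hCl0 : 0 < C1 N φ μ := C1_pos hN h1 hμτ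
    have hCr0 : 0 < C1 N μ ψ := C1_pos hN h2 hψτ'
    have hGa : a0 N φ ψ ≤ G ∧ a2 N φ ψ ≤ G ∧ a4 N φ ψ ≤ G := by
      unfold G0 at hG0; unfold G2 at hG2; unfold G4 at hG4
      exact ⟨by linarith, by linarith, by linarith⟩
    rw [hB] at eEE eCl eCr eG0d eG2d eG4d
    rw [← hCdef] at eEE eCl eCr eG0d eG2d eG4d
    set em := EE N μ - Real.sqrt 3 / 2 with hemdef
    set x0 := H0 N φ ψ μ with hx0
    set x2 := H2 N φ ψ μ with hx2
    set x4 := H4 N φ ψ μ with hx4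
    set Sig := x0 + x2 + x4 with hSig
    set Q := Sig ^ 2 / 2 - (x0 ^ 2 + x2 ^ 2 + x4 ^ 2) with hQ
    have hSig0 : 0 ≤ Sig := by positivity
    have hQ1 : Q ≤ Sig ^ 2 / 6 := by
      rw [hQ, hSig]
      linarith only [sq_nonneg (x0 - x2), sq_nonneg (x2 - x4), sq_nonneg (x0 - x4)]
    have hQ0 : - (Sig ^ 2 / 2) ≤ Q := by
      rw [hQ, hSig]
      linarith only [mul_nonneg hH0 hH2, mul_nonneg hH2 hH4, mul_nonneg hH0 hH4]
    -- case: the two-step chain already suffices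
    by_cases hcase : TT N φ ψ + fp * z * (C - z * G / 2) - (1 / 2 + κ / 2) * (C / G) * (ep + eq) ≤ TT N φ ψ + Sig / 2
    · refine ⟨TT N φ μ + TT N μ ψ, Ch.trans (Ch.single h1) (Ch.single h2), ?_⟩
      rw [eTT]; exact hcase
    · rw [not_le] at hcase
      have hSigb : Sig / 2 ≤ fp * z * (C - z * G / 2) := by linarith
      set D := |EE N ψ - EE N φ| with hD
      have hD0 : 0 ≤ D := abs_nonneg _
      have hDe : D ≤ ep + eq := by
        rw [hD, abs_le]; constructor <;> linarith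
      have hd1 : EE N ψ - EE N φ ≤ D := le_abs_self _
      have hd2 : - (EE N ψ - EE N φ) ≤ D := neg_le_abs _
      set W := 1 + (2 * G + D) / C with hW
      have hCW : C * W = C + (2 * G + D) := by rw [hW]; field_simp
      have hW1 : 1 ≤ W := by
        rw [hW]
        have : 0 ≤ (2 * G + D) / C := by positivity
        linarith
      set G' := (G + W * Sig) / 2 with hG'
      have hWS : 0 ≤ W * Sig := by positivity
      have hG'0 : 0 < G' := by rw [hG']; linarith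
      -- bounds for the halves
      have k0 := far_cross (G := G) (D := D) (Sig := Sig) (h1 := x2) (h2 := x4) (hj := x0) (al := a4 N φ ψ) (be := a2 N φ ψ)
        (dE := EE N ψ - EE N φ) hH2 hH4 hH0 (by rw [hSig]; ring) ha4.le ha2.le hGa.2.2 hGa.2.1 hd1 hd2
      have k2 := far_cross (G := G) (D := D) (Sig := Sig) (h1 := x4) (h2 := x0) (hj := x2) (al := a0 N φ ψ) (be := a4 N φ ψ)
        (dE := EE N ψ - EE N φ) hH4 hH0 hH2 (by rw [hSig]; ring) ha0.le ha4.le hGa.1 hGa.2.2 hd1 hd2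
      have k4 := far_cross (G := G) (D := D) (Sig := Sig) (h1 := x0) (h2 := x2) (hj := x4) (al := a2 N φ ψ) (be := a0 N φ ψ)
        (dE := EE N ψ - EE N φ) hH0 hH2 hH4 (by rw [hSig]) ha2.le ha0.le hGa.2.1 hGa.1 hd1 hd2
      have e0 : C * (G0 N φ μ - G0 N μ ψ) = 2 * (x2 * a4 N φ ψ - x4 * a2 N φ ψ) - (x2 + x4 - x0) * (EE N ψ - EE N φ) := by
        rw [eG0d]; ring
      have e2 : C * (G2 N φ μ - G2 N μ ψ) = 2 * (x4 * a0 N φ ψ - x0 * a4 N φ ψ) - (x4 + x0 - x2) * (EE N ψ - EE N φ) := by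
        rw [eG2d]; ring
      have e4 : C * (G4 N φ μ - G4 N μ ψ) = 2 * (x0 * a2 N φ ψ - x2 * a0 N φ ψ) - (x0 + x2 - x4) * (EE N ψ - EE N φ) := by
        rw [eG4d]; ring
      have f0 := far_half (W := W) hC hSig0 hG0 hH0 (by rw [hSig]; linarith) hD0 (by rw [eG0a, hSig]; ring) e0 k0.1 k0.2 hCW
      have f2 := far_half (W := W) hC hSig0 hG2 hH2 (by rw [hSig]; linarith) hD0 (by rw [eG2a, hSig]; ring) e2 k2.1 k2.2 hCW
      have f4 := far_half (W := W) hC hSig0 hG4 hH4 (by rw [hSig]; linarith) hD0 (by rw [eG4a, hSig]; ring) e4 k4.1 k4.2 hCW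
      rw [← hG'] at f0 f2 f4
      obtain ⟨S1, hS1, hb1⟩ := h φ μ G' h1 hμτ hG'0 f0.1 f2.1 f4.1
      obtain ⟨S2, hS2, hb2⟩ := h μ ψ G' h2 hψτ' hG'0 f0.2 f2.2 f4.2
      refine ⟨S1 + S2, Ch.trans hS1 hS2, ?_⟩
      -- the determinants of the halves
      set C' := C / 4 + Q / (2 * C) with hC'
      have eL : C1 N φ μ = C' := by
        apply mul_left_cancel₀ hC.ne'
        rw [eCl, hC']; field_simp; ring
      have eR : C1 N μ ψ = C' := by
        apply mul_left_cancel₀ hC.ne'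
        rw [eCr, hC']; field_simp; ring
      rw [eL] at hb1 hCl0
      rw [eR] at hb2
      rw [← hepdef, ← hemdef] at hb1
      rw [← hemdef, ← heqdef] at hb2
      have hSigC : Sig ≤ C := by
        have t1 : fp * z * (C - z * G / 2) ≤ 1 * (89 / 500) * C := by
          apply mul_le_mul (mul_le_mul hfp1 hz1 hz0.le (by norm_num)) _ (by linarith) (by norm_num)
          have : 0 ≤ z * G / 2 := by positivity
          linarith
        linarith
      have hratio : C' / G' ≤ (1 / 2) * (C / G) := far_ratio hC hG hD0 hSig0 hSigC hQ1 hCW hG'0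
      have hcost : κ * (C' / G') * (ep + em) + κ * (C' / G') * (em + eq) ≤ κ * ((1 / 2) * (C / G)) * (ep + eq + 2 * em) := by
        have : κ * (C' / G') * (ep + em) + κ * (C' / G') * (em + eq) = κ * (C' / G') * (ep + eq + 2 * em) := by ring
        rw [this]
        apply mul_le_mul_of_nonneg_right _ (by positivity)
        exact mul_le_mul_of_nonneg_left hratio hκ0
      -- main inequality in normalised variables
      have hcon0 : C ^ 2 / 2 + 2 * C * em - C * (ep + eq) ≤ G * Sig + Q := by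
        have e7 : C * EE N μ = C * em + C * (Real.sqrt 3 / 2) := by rw [hemdef]; ring
        have e8 : EE N φ = ep + Real.sqrt 3 / 2 := by rw [hepdef]; ring
        have e9 : EE N ψ = eq + Real.sqrt 3 / 2 := by rw [heqdef]; ring
        rw [e7, e8, e9] at eEE
        have g0 : G0 N φ ψ * x0 ≤ G * x0 := mul_le_mul_of_nonneg_right hG0 hH0
        have g2 : G2 N φ ψ * x2 ≤ G * x2 := mul_le_mul_of_nonneg_right hG2 hH2
        have g4 : G4 N φ ψ * x4 ≤ G * x4 := mul_le_mul_of_nonneg_right hG4 hH4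
        have e10 : G * Sig = G * x0 + G * x2 + G * x4 := by rw [hSig]; ring
        exact far_con eEE (by rw [e10]; linarith)
      have key := far_norm hC hG hz0 hz1 hf0 hf1 hfp0 hfp1 hκ0 hκ1 hmain hep heq hem hSig0 hD0 hDe hr hSigb hQ0 hQ1 hcon0
      rw [← hW, ← hG', ← hC'] at key
      have e11 : f * (z / 2) * (C' - z / 2 * G' / 2) + f * (z / 2) * (C' - z / 2 * G' / 2) = f * z * (C' - z * G' / 4) := by ring
      linarith only [key, hb1, hb2, hcost, e11, eTT]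

/-- (D4) far lemma -/
theorem far_lemma {N : ℂ → ℝ} (hN : IsSN N) (hE : ∀ φ, Real.sqrt 3 / 2 ≤ EE N φ) :
    Claim N (89 / 500) (621 / 1000) (7 / 8) := by
  have h0 : Claim N (89 / 4000) 0 0 := by
    intro φ ψ G h1 _ _ _ _ _
    exact ⟨TT N φ ψ, Ch.single h1, by simp⟩
  have h1 : Claim N (89 / 2000) (4998 / 10000) (1 / 2 + 0 / 2) :=
    Claim_step hN hE (f := 0) (κ := 0) (by norm_num) (by norm_num) le_rfl (by norm_num) (by norm_num) (by norm_num) le_rfl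
      (by norm_num) (fun r _ => far_num1 r) (by norm_num at h0 ⊢; exact h0)
  have h2 : Claim N (89 / 1000) (6125 / 10000) (1 / 2 + (1 / 2 + 0 / 2) / 2) :=
    Claim_step hN hE (f := 4998 / 10000) (κ := 1 / 2 + 0 / 2) (by norm_num) (by norm_num) (by norm_num) (by norm_num) (by norm_num)
      (by norm_num) (by norm_num) (by norm_num) (fun r _ => far_num2 r)
      (by have e : (89 / 1000 / 2 : ℝ) = 89 / 2000 := by norm_num
          rw [e]; exact h1)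
  have h3 : Claim N (89 / 500) (621 / 1000) (1 / 2 + (1 / 2 + (1 / 2 + 0 / 2) / 2) / 2) :=
    Claim_step hN hE (f := 6125 / 10000) (κ := 1 / 2 + (1 / 2 + 0 / 2) / 2) (by norm_num) (by norm_num) (by norm_num) (by norm_num)
      (by norm_num) (by norm_num) (by norm_num) (by norm_num) (fun r _ => far_num3 r)
      (by have e : (89 / 500 / 2 : ℝ) = 89 / 1000 := by norm_num
          rw [e]; exact h2)
  have e : (1 / 2 + (1 / 2 + (1 / 2 + 0 / 2) / 2) / 2 : ℝ) = 7 / 8 := by norm_num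
  rw [e] at h3
  exact h3

end Rein83
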