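import Mathlib

set_option autoImplicit false

/-! Section D1: the real inequality behind one step of the far lemma. -/

namespace Rein83

/-- (D1) the real inequality behind one step of the recursion; `w = f z^2/4 + f z/(2 r)` -/
theorem far_core {z f fp κ r σ q e em δ : ℝ} (hz0 : 0 < z) (hz1 : z ≤ 89 / 500) (hf0 : 0 ≤ f) (hf1 : f ≤ 6125 / 10000)
    (hfp0 : 0 ≤ fp) (hfp1 : fp ≤ 1) (hκ0 : 0 ≤ κ) (hκ1 : κ ≤ 3 / 4) (hr : 1 / 2 ≤ r) (hσ0 : 0 ≤ σ)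
    (hσ1 : σ ≤ 2 * fp * (r - 1 / 2)) (hq0 : - (σ ^ 2 / 2) ≤ q) (hq1 : q ≤ σ ^ 2 / 6) (he : 0 ≤ e) (hem : 0 ≤ em)
    (hδ0 : 0 ≤ δ) (hδ : δ ≤ e)
    (hcon : r ^ 2 / 2 + 2 * r * em - r * e ≤ σ + z ^ 2 * q)
    (hmain : 0 ≤ r ^ 2 / 4 - f * z ^ 2 * r ^ 2 / 16 - f * z * r / 8 - (fp - f / 4) * (r - 1 / 2)
      - 34 / 100 * z ^ 2 * fp ^ 2 * (r - 1 / 2) ^ 2) :
    fp * (r - 1 / 2) - (1 / 2 + κ / 2) * r * e ≤
      σ / 2 + f * (r / 4 + z ^ 2 * q / (2 * r) - 1 / 8 - z ^ 2 * σ / 8 * (1 + 2 / (z * r) + δ / r))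
        - κ * r * (e + 2 * em) / 2 := by
  have hr0 : 0 < r := by linarith
  obtain ⟨i, hi⟩ : ∃ i : ℝ, i = 1 / r := ⟨_, rfl⟩
  have hir : i * r = 1 := by rw [hi]; field_simp
  have hi0 : 0 < i := by rw [hi]; positivity
  have hi2 : i ≤ 2 := by
    rw [hi, div_le_iff₀ hr0]; linarith
  obtain ⟨w, hw⟩ : ∃ w : ℝ, w = f * z ^ 2 / 4 + f * z * i / 2 := ⟨_, rfl⟩
  have hfz : f * z ≤ 6125 / 10000 * (89 / 500) := by gcongr
  have hfz0 : 0 ≤ f * z := by positivity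
  have hw0 : 0 ≤ w := by rw [hw]; positivity
  have hw1 : w ≤ 114 / 1000 := by
    have h1 : f * z ^ 2 ≤ 6125 / 10000 * (89 / 500) * (89 / 500) := by
      calc f * z ^ 2 = (f * z) * z := by ring
        _ ≤ (6125 / 10000 * (89 / 500)) * (89 / 500) := by gcongr
    have h2 : f * z * i ≤ 6125 / 10000 * (89 / 500) * 2 := by gcongr
    rw [hw]; linarith
  have hs0 : 0 ≤ r - 1 / 2 := by linarith
  -- rewrite the right-hand side
  have hrhs : σ / 2 + f * (r / 4 + z ^ 2 * q / (2 * r) - 1 / 8 - z ^ 2 * σ / 8 * (1 + 2 / (z * r) + δ / r))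
        - κ * r * (e + 2 * em) / 2
      = (1 - w) / 2 * σ + f / 4 * (r - 1 / 2) + f * z ^ 2 * q * i / 2 - f * z ^ 2 * σ * δ * i / 8
        - κ * r * e / 2 - κ * r * em := by
    rw [hw, hi]
    field_simp
    ring
  rw [hrhs]
  -- the three coefficients
  have hA : (1 - w) / 2 * (r ^ 2 / 2 + 2 * r * em - r * e - z ^ 2 * q) ≤ (1 - w) / 2 * σ := by
    apply mul_le_mul_of_nonneg_left _ (by linarith)
    linarith
  have hB : 0 ≤ r * (1 - w - κ) * em := by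
    apply mul_nonneg (mul_nonneg hr0.le (by linarith)) hem
  have hC : f * z ^ 2 * σ * δ * i / 8 ≤ w * r / 2 * e := by
    have h1 : σ * i ≤ 2 := by
      calc σ * i ≤ (2 * fp * (r - 1 / 2)) * i := by gcongr
        _ ≤ (2 * 1 * (r - 0)) * i := by gcongr; norm_num
        _ = 2 * (i * r) := by ring
        _ = 2 := by rw [hir]; norm_num
    have h2 : f * z ^ 2 * σ * δ * i / 8 ≤ f * z / 4 * e := by
      calc f * z ^ 2 * σ * δ * i / 8 = (f * z) * z * (σ * i) * δ / 8 := by ring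
        _ ≤ (f * z) * 1 * 2 * e / 8 := by
            have hz1' : z ≤ 1 := by linarith
            have : 0 ≤ σ * i := by positivity
            gcongr
        _ = f * z / 4 * e := by ring
    have h3 : f * z / 4 ≤ w * r / 2 := by
      have : w * r = f * z ^ 2 / 4 * r + f * z / 2 := by
        rw [hw]
        calc (f * z ^ 2 / 4 + f * z * i / 2) * r = f * z ^ 2 / 4 * r + f * z / 2 * (i * r) := by ring
          _ = _ := by rw [hir]; ring
      have h4 : 0 ≤ f * z ^ 2 / 4 * r := by positivity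
      linarith
    calc f * z ^ 2 * σ * δ * i / 8 ≤ f * z / 4 * e := h2
      _ ≤ w * r / 2 * e := by gcongr
  have hσ2 : σ ^ 2 ≤ 4 * fp ^ 2 * (r - 1 / 2) ^ 2 := by
    calc σ ^ 2 ≤ (2 * fp * (r - 1 / 2)) ^ 2 := by gcongr
      _ = _ := by ring
  obtain ⟨k, hk⟩ : ∃ k : ℝ, k = (f * i - 1 + w) / 2 := ⟨_, rfl⟩
  have hfi : f * i ≤ 6125 / 10000 * 2 := by gcongr
  have hfi0 : 0 ≤ f * i := by positivity
  have hk1 : k ≤ 17 / 100 := by rw [hk]; linarith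
  have hk0 : - (1 / 2) ≤ k := by rw [hk]; linarith
  have hD : - (34 / 100 * fp ^ 2 * (r - 1 / 2) ^ 2) ≤ k * q := by
    have hσσ : 0 ≤ σ ^ 2 := sq_nonneg σ
    rcases le_total k 0 with hkn | hkp
    · have h1 : k * (σ ^ 2 / 6) ≤ k * q := mul_le_mul_of_nonpos_left hq1 hkn
      have h2 : - (1 / 2) * (σ ^ 2 / 6) ≤ k * (σ ^ 2 / 6) := by gcongr
      linarith [mul_nonneg (sq_nonneg fp) (sq_nonneg (r - 1 / 2))]
    · have h1 : k * (- (σ ^ 2 / 2)) ≤ k * q := mul_le_mul_of_nonneg_left hq0 hkp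
      have h2 : k * (σ ^ 2 / 2) ≤ 17 / 100 * (σ ^ 2 / 2) := by gcongr
      linarith [mul_nonneg (sq_nonneg fp) (sq_nonneg (r - 1 / 2))]
  have hD' : - (34 / 100 * z ^ 2 * fp ^ 2 * (r - 1 / 2) ^ 2) ≤ z ^ 2 * (k * q) := by
    have := mul_le_mul_of_nonneg_left hD (sq_nonneg z)
    linarith
  -- the term `w r^2 / 4`
  have hW : w * r ^ 2 / 4 = f * z ^ 2 * r ^ 2 / 16 + f * z * r / 8 := by
    rw [hw]
    calc (f * z ^ 2 / 4 + f * z * i / 2) * r ^ 2 / 4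
        = f * z ^ 2 * r ^ 2 / 16 + f * z * r / 8 * (i * r) := by ring
      _ = _ := by rw [hir]; ring
  have hkq : z ^ 2 * (k * q) = f * z ^ 2 * q * i / 2 - (1 - w) / 2 * (z ^ 2 * q) := by
    rw [hk]; ring
  linarith [hA, hB, hC, hD', hW, hkq, hmain]

end Rein83
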