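import Pool.Agent.Rein83.FinSDefs

set_option autoImplicit false

/-! Section F: crude a priori box. -/

namespace Rein83

open Complex Finset Rein69

namespace FinAAux

theorem coords {t : ℝ} {r : ℕ → ℝ} {B : ℕ → ℂ} (h : Cf t r B) : ∃ x1 x2 y1 y2 : ℝ,
    cx t B = ⟨x1, x2⟩ ∧ cy B = ⟨y1, y2⟩ ∧ B 0 = ⟨t - x1, -x2⟩ ∧
    B 1 = ⟨t + x1 - 2 * y2, x2 + 2 * y1⟩ ∧ B 2 = ⟨t - x1, -x2⟩ ∧
    B 3 = ⟨t + x1 + 2 * y2, x2 - 2 * y1⟩ := by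
  have h0 : B 0 = t - cx t B := by unfold cx; ring
  have h1 : B 1 - B 3 = 4 * I * cy B := by
    unfold cy
    have : (4 * I : ℂ) ≠ 0 := by simp
    field_simp
  have h2 : B 1 + B 3 = 2 * t + 2 * cx t B := by
    have e1 := h.sum
    have e2 := h.B02
    unfold cx
    linear_combination e1 + e2
  have h3 : B 1 = t + cx t B + 2 * I * cy B := by linear_combination (h1 + h2) / 2
  have h4 : B 3 = t + cx t B - 2 * I * cy B := by linear_combination (h2 - h1) / 2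
  have h5 : B 0 = ⟨t - (cx t B).re, -(cx t B).im⟩ := by
    rw [h0]
    apply Complex.ext <;> simp
  refine ⟨(cx t B).re, (cx t B).im, (cy B).re, (cy B).im, rfl, rfl, h5, ?_, h.B02 ▸ h5, ?_⟩
  · rw [h3]
    apply Complex.ext <;> simp
    ring
  · rw [h4]
    apply Complex.ext <;> simp

theorem cs_bounds : 9659 / 10000 ≤ cs ∧ cs ≤ 96593 / 100000 := by
  unfold cs
  have h6 : Real.sqrt 6 ≤ 24495 / 10000 := by
    rw [Real.sqrt_le_left (by norm_num)]; norm_num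
  have h2 : Real.sqrt 2 ≤ 1414214 / 1000000 := by
    rw [Real.sqrt_le_left (by norm_num)]; norm_num
  have h6' : 24494 / 10000 ≤ Real.sqrt 6 := by
    apply Real.le_sqrt_of_sq_le; norm_num
  have h2' : 14142 / 10000 ≤ Real.sqrt 2 := by
    apply Real.le_sqrt_of_sq_le; norm_num
  constructor <;> linarith

theorem sn_pos : 0 < sn := by
  unfold sn
  have := Real.sqrt_lt_sqrt (by norm_num : (0:ℝ) ≤ 2) (by norm_num : (2:ℝ) < 6)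
  linarith

theorem sn_sq : sn ^ 2 = (2 - Real.sqrt 3) / 4 := by
  unfold sn
  have h6 : Real.sqrt 6 = Real.sqrt 2 * Real.sqrt 3 := by
    rw [← Real.sqrt_mul (by norm_num)]; norm_num
  have h2 : Real.sqrt 2 ^ 2 = 2 := Real.sq_sqrt (by norm_num)
  have h3 : Real.sqrt 3 ^ 2 = 3 := Real.sq_sqrt (by norm_num)
  rw [h6]
  nlinarith

theorem cs_sq_add : cs ^ 2 + sn ^ 2 = 1 := by
  unfold cs sn
  have h6 : Real.sqrt 6 ^ 2 = 6 := Real.sq_sqrt (by norm_num)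
  have h2 : Real.sqrt 2 ^ 2 = 2 := Real.sq_sqrt (by norm_num)
  linarith

theorem le_of_sq {a b : ℝ} (h : a ^ 2 ≤ b ^ 2) (hb : 0 ≤ b) : a ≤ b :=
  (le_abs_self a).trans (abs_le_of_sq_le_sq h hb)

/-- the bound of the norm of a neighbour -/
theorem nb {a0 b0 a1 b1 r0 r1 : ℝ} (hr0 : 0 < r0) (hr1 : 0 < r1)
    (h0 : 1 ≤ r0 ^ 2 - (a0 ^ 2 + b0 ^ 2)) (h1 : 1 ≤ r1 ^ 2 - (a1 ^ 2 + b1 ^ 2))
    (hp : a0 ^ 2 + b0 ^ 2 ≤ 21025 / 1000000) {z : ℝ} (hz : z ^ 2 ≤ (a0 ^ 2 + b0 ^ 2) * (a1 ^ 2 + b1 ^ 2))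
    (h : cs * (r0 * r1) + z ≤ 10420182 / 10000000) :
    a1 ^ 2 + b1 ^ 2 ≤ 16129 / 10000 := by
  set n1 := a1 ^ 2 + b1 ^ 2 with hn1
  have hn10 : 0 ≤ n1 := by positivity
  set β := Real.sqrt n1 with hβ
  have hβ0 : 0 ≤ β := Real.sqrt_nonneg _
  have hβ2 : β ^ 2 = n1 := Real.sq_sqrt hn10
  have hz1 : -z ≤ 145 / 1000 * β := by
    apply le_of_sq _ (by positivity)
    rw [neg_sq, mul_pow, hβ2]
    refine hz.trans ?_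
    refine mul_le_mul_of_nonneg_right (hp.trans (by norm_num)) hn10
  have hr01 : 1 ≤ r0 := by nlinarith [sq_nonneg a0, sq_nonneg b0]
  have hr1β : β ≤ r1 := by
    apply le_of_sq _ hr1.le
    rw [hβ2]
    linarith
  have h2 : β ≤ r0 * r1 := by nlinarith
  have h3 : 9659 / 10000 * β ≤ cs * (r0 * r1) :=
    mul_le_mul cs_bounds.1 h2 hβ0 (by linarith [cs_bounds.1])
  have h4 : β ≤ 127 / 100 := by linarith
  nlinarith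


theorem L02 {r0 r2 d0 d2 p k : ℝ} (hr0 : 0 < r0) (hr2 : 0 < r2) (h0 : r0 ^ 2 = 1 + d0 + p)
    (h2 : r2 ^ 2 = 1 + d2 + p) (hd0 : 0 ≤ d0) (hd2 : 0 ≤ d2) (hp : 0 ≤ p)
    (h : r0 * r2 ≤ k - p) : d0 + d2 ≤ k ^ 2 - 1 - (2 + 2 * k) * p := by
  have e1 : (r0 * r2) ^ 2 ≤ (k - p) ^ 2 :=
    pow_le_pow_left₀ (by positivity) h 2
  rw [mul_pow, h0, h2] at e1
  have e3 : 0 ≤ d0 * d2 := mul_nonneg hd0 hd2
  have e4 : 0 ≤ (d0 + d2) * p := mul_nonneg (by linarith) hp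
  linarith

theorem L13 {r1 r3 d1 d3 n1 n3 q : ℝ} (h1 : r1 ^ 2 = 1 + d1 + n1)
    (h3 : r3 ^ 2 = 1 + d3 + n3) (hd1 : 0 ≤ d1) (hd3 : 0 ≤ d3) (hn1 : 0 ≤ n1) (hn3 : 0 ≤ n3)
    (hq : q ^ 2 ≤ n1 * n3) : 1 + (d1 + d3) + (n1 + n3) + q ^ 2 ≤ (r1 * r3) ^ 2 := by
  rw [mul_pow, h1, h3]
  have e3 : 0 ≤ d1 * d3 := mul_nonneg hd1 hd3
  have e4 : 0 ≤ d1 * n3 := mul_nonneg hd1 hn3
  have e5 : 0 ≤ d3 * n1 := mul_nonneg hd3 hn1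
  linarith

/-- The final computation. -/
theorem core {r0 r1 r2 r3 d0 d1 d2 d3 p U Y X n1 n3 t c s : ℝ} (hr0 : 0 < r0) (hr1 : 0 < r1)
    (hr2 : 0 < r2) (hr3 : 0 < r3) (h0 : r0 ^ 2 = 1 + d0 + p) (h1 : r1 ^ 2 = 1 + d1 + n1)
    (h2 : r2 ^ 2 = 1 + d2 + p) (h3 : r3 ^ 2 = 1 + d3 + n3) (hd0 : 0 ≤ d0) (hd1 : 0 ≤ d1)
    (hd2 : 0 ≤ d2) (hd3 : 0 ≤ d3) (hp : 0 ≤ p) (hU : 0 ≤ U) (hY : 0 ≤ Y) (hX : 0 ≤ X)
    (hn1 : 0 ≤ n1) (hn3 : 0 ≤ n3)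
    (hq : (4 * Y - U) ^ 2 ≤ n1 * n3) (hn13 : n1 + n3 = 2 * U + 8 * Y)
    (hN : n1 + n3 ≤ 2 * (16129 / 10000))
    (hmain : d0 + d1 + d2 + d3 + (4 + 4 * (10420182 / 10000000)) * (t ^ 2 + X) ≤
      2 * ((10420182 / 10000000) ^ 2 - 1) + 8 * (10420182 / 10000000 - 1) * Y)
    (hT : s * ((r0 + r2) * (r1 + r3)) ≤ 10420182 / 10000000 + 4 * c * (t ^ 2 - X))
    (hs : 0 < s) (hs2 : 2679491 / 10000000 ≤ 4 * s ^ 2) (hc0 : 0 ≤ c) (hc : c ≤ 96593 / 100000) :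
    Y ≤ 4855 / 100000 := by
  have hYb : Y ≤ 403225 / 1000000 := by linarith
  have hq2 : 4 + 16 * Y ≤ (r1 + r3) ^ 2 := by
    have e1 : 1 + (4 * Y - U) ≤ r1 * r3 := by
      apply le_of_sq _ (by positivity)
      refine le_trans ?_ (L13 h1 h3 hd1 hd3 hn1 hn3 hq)
      rw [hn13]
      linarith
    have e2 : (r1 + r3) ^ 2 = r1 ^ 2 + r3 ^ 2 + 2 * (r1 * r3) := by ring
    rw [e2, h1, h3]
    linarith
  have hT2 : 2 * s * (r1 + r3) ≤ 10420182 / 10000000 + 4 * (96593 / 100000) * t ^ 2 := by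
    have e0 : 1 ≤ r0 := le_of_sq (by rw [h0]; linarith) hr0.le
    have e2 : 1 ≤ r2 := le_of_sq (by rw [h2]; linarith) hr2.le
    have e3 : s * (2 * (r1 + r3)) ≤ s * ((r0 + r2) * (r1 + r3)) :=
      mul_le_mul_of_nonneg_left (mul_le_mul_of_nonneg_right (by linarith) (by linarith)) hs.le
    have e4 : 4 * c * (t ^ 2 - X) ≤ 4 * (96593 / 100000) * t ^ 2 := by
      have a1 := mul_nonneg hc0 hX
      have a2 := mul_nonneg (sub_nonneg.2 hc) (sq_nonneg t)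
      linarith
    linarith
  have ht2 : t ^ 2 ≤ 2101 / 100000 + 4116 / 100000 * Y := by
    linarith
  have e1 : (2 * s * (r1 + r3)) ^ 2 ≤ (10420182 / 10000000 + 4 * (96593 / 100000) * (2101 / 100000 + 4116 / 100000 * Y)) ^ 2 := by
    refine pow_le_pow_left₀ (by positivity) (hT2.trans ?_) 2
    linarith
  have e2 : 2679491 / 10000000 * (4 + 16 * Y) ≤ (2 * s * (r1 + r3)) ^ 2 := by
    have e4 : (2 * s * (r1 + r3)) ^ 2 = (4 * s ^ 2) * (r1 + r3) ^ 2 := by ring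
    rw [e4]
    exact mul_le_mul hs2 hq2 (by positivity) (by positivity)
  have e3 := e2.trans e1
  linarith [mul_nonneg hY (sub_nonneg.2 hYb)]

/-- the final bounds -/
theorem core2 {d0 d1 d2 d3 w v t g : ℝ} (hgd : g = d0 + d1 + d2 + d3)
    (hg : 0 ≤ g)
    (hmain : d0 + d1 + d2 + d3 + (4 + 4 * (10420182 / 10000000)) * (t ^ 2 + w ^ 2) ≤
      2 * ((10420182 / 10000000) ^ 2 - 1) + 8 * (10420182 / 10000000 - 1) * v ^ 2)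
    (hY : v ^ 2 ≤ 4855 / 100000) :
    t ≤ 152 / 1000 ∧ w ≤ 152 / 1000 ∧ v ≤ 2205 / 10000 ∧ g ≤ 188 / 1000 ∧
      g + 8168 / 1000 * (t ^ 2 + w ^ 2) ≤ 1717 / 10000 + 3362 / 10000 * v ^ 2 := by
  rw [← hgd] at hmain
  have h1 := sq_nonneg t
  have h2 := sq_nonneg w
  have h3 := sq_nonneg v
  refine ⟨?_, ?_, ?_, ?_, ?_⟩
  · exact le_of_sq (by linarith) (by norm_num)
  · exact le_of_sq (by linarith) (by norm_num)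
  · exact le_of_sq (by linarith) (by norm_num)
  · linarith
  · linarith

/-- The computation with coordinates. -/
theorem core3 {r0 r1 r2 r3 x1 x2 y1 y2 t w v g c s : ℝ}
    (hw2 : w ^ 2 = x1 ^ 2 + x2 ^ 2) (hv2 : v ^ 2 = y1 ^ 2 + y2 ^ 2)
    (hr0 : 0 < r0) (hr1 : 0 < r1) (hr2 : 0 < r2) (hr3 : 0 < r3)
    (hD0 : 0 ≤ r0 ^ 2 - ((t - x1) ^ 2 + x2 ^ 2) - 1)
    (hD1 : 0 ≤ r1 ^ 2 - ((t + x1 - 2 * y2) ^ 2 + (x2 + 2 * y1) ^ 2) - 1)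
    (hD2 : 0 ≤ r2 ^ 2 - ((t - x1) ^ 2 + x2 ^ 2) - 1)
    (hD3 : 0 ≤ r3 ^ 2 - ((t + x1 + 2 * y2) ^ 2 + (x2 - 2 * y1) ^ 2) - 1)
    (hg : g = (r0 ^ 2 - ((t - x1) ^ 2 + x2 ^ 2) - 1) + (r1 ^ 2 - ((t + x1 - 2 * y2) ^ 2 + (x2 + 2 * y1) ^ 2) - 1)
      + (r2 ^ 2 - ((t - x1) ^ 2 + x2 ^ 2) - 1) + (r3 ^ 2 - ((t + x1 + 2 * y2) ^ 2 + (x2 - 2 * y1) ^ 2) - 1))
    (k02 : r0 * r2 ≤ 10420182 / 10000000 - ((t - x1) ^ 2 + x2 ^ 2))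
    (k13 : r1 * r3 ≤ 10420182 / 10000000 + (4 * (y1 ^ 2 + y2 ^ 2) - ((t + x1) ^ 2 + x2 ^ 2)))
    (hN1 : (t - x1) ^ 2 + x2 ^ 2 ≤ 21025 / 1000000 → (t + x1 - 2 * y2) ^ 2 + (x2 + 2 * y1) ^ 2 ≤ 16129 / 10000)
    (hN3 : (t - x1) ^ 2 + x2 ^ 2 ≤ 21025 / 1000000 → (t + x1 + 2 * y2) ^ 2 + (x2 - 2 * y1) ^ 2 ≤ 16129 / 10000)
    (hT : s * ((r0 + r2) * (r1 + r3)) ≤ 10420182 / 10000000 + 4 * c * (t ^ 2 - (x1 ^ 2 + x2 ^ 2)))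
    (hs : 0 < s) (hs2 : 2679491 / 10000000 ≤ 4 * s ^ 2) (hc0 : 0 ≤ c) (hc : c ≤ 96593 / 100000) :
    t ≤ 152 / 1000 ∧ w ≤ 152 / 1000 ∧ v ≤ 2205 / 10000 ∧ g ≤ 188 / 1000 ∧
      g + 8168 / 1000 * (t ^ 2 + w ^ 2) ≤ 1717 / 10000 + 3362 / 10000 * v ^ 2 := by
  have hn13 : (t + x1 - 2 * y2) ^ 2 + (x2 + 2 * y1) ^ 2 + ((t + x1 + 2 * y2) ^ 2 + (x2 - 2 * y1) ^ 2)
    = 2 * ((t + x1) ^ 2 + x2 ^ 2) + 8 * (y1 ^ 2 + y2 ^ 2) := by ring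
  have hprod : (4 * (y1 ^ 2 + y2 ^ 2) - ((t + x1) ^ 2 + x2 ^ 2)) ^ 2 ≤
      ((t + x1 - 2 * y2) ^ 2 + (x2 + 2 * y1) ^ 2) * ((t + x1 + 2 * y2) ^ 2 + (x2 - 2 * y1) ^ 2) := by
    have : ((t + x1 - 2 * y2) ^ 2 + (x2 + 2 * y1) ^ 2) * ((t + x1 + 2 * y2) ^ 2 + (x2 - 2 * y1) ^ 2)
        = (4 * (y1 ^ 2 + y2 ^ 2) - ((t + x1) ^ 2 + x2 ^ 2)) ^ 2 + ((t + x1 - 2 * y2) * (x2 - 2 * y1)
        - (t + x1 + 2 * y2) * (x2 + 2 * y1)) ^ 2 := by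
      ring
    rw [this]
    exact le_add_of_nonneg_right (sq_nonneg _)
  have hpU : (t - x1) ^ 2 + x2 ^ 2 + ((t + x1) ^ 2 + x2 ^ 2) = 2 * t ^ 2 + 2 * (x1 ^ 2 + x2 ^ 2) := by
    ring
  have hp : 0 ≤ (t - x1) ^ 2 + x2 ^ 2 := by positivity
  have hU : 0 ≤ (t + x1) ^ 2 + x2 ^ 2 := by positivity
  have hY : 0 ≤ y1 ^ 2 + y2 ^ 2 := by positivity
  have hX : 0 ≤ x1 ^ 2 + x2 ^ 2 := by positivity
  have hn1 : 0 ≤ (t + x1 - 2 * y2) ^ 2 + (x2 + 2 * y1) ^ 2 := by positivity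
  have hn3 : 0 ≤ (t + x1 + 2 * y2) ^ 2 + (x2 - 2 * y1) ^ 2 := by positivity
  rw [← hw2] at hT hpU hX
  rw [← hv2] at k13 hn13 hprod hY
  generalize (t - x1) ^ 2 + x2 ^ 2 = p at *
  generalize (t + x1) ^ 2 + x2 ^ 2 = U at *
  generalize (t + x1 - 2 * y2) ^ 2 + (x2 + 2 * y1) ^ 2 = n1 at *
  generalize (t + x1 + 2 * y2) ^ 2 + (x2 - 2 * y1) ^ 2 = n3 at *
  clear hw2 hv2
  obtain ⟨d0, hd0⟩ : ∃ d0, d0 = r0 ^ 2 - p - 1 := ⟨_, rfl⟩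
  obtain ⟨d1, hd1⟩ : ∃ d1, d1 = r1 ^ 2 - n1 - 1 := ⟨_, rfl⟩
  obtain ⟨d2, hd2⟩ : ∃ d2, d2 = r2 ^ 2 - p - 1 := ⟨_, rfl⟩
  obtain ⟨d3, hd3⟩ : ∃ d3, d3 = r3 ^ 2 - n3 - 1 := ⟨_, rfl⟩
  rw [← hd0] at hD0 hg
  rw [← hd1] at hD1 hg
  rw [← hd2] at hD2 hg
  rw [← hd3] at hD3 hg
  have h0 : r0 ^ 2 = 1 + d0 + p := by rw [hd0]; ring
  have h1 : r1 ^ 2 = 1 + d1 + n1 := by rw [hd1]; ring
  have h2 : r2 ^ 2 = 1 + d2 + p := by rw [hd2]; ring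
  have h3 : r3 ^ 2 = 1 + d3 + n3 := by rw [hd3]; ring
  clear hd0 hd1 hd2 hd3
  have l02 := L02 hr0 hr2 h0 h2 hD0 hD2 hp k02
  have l13 : d1 + d3 ≤ (10420182 / 10000000) ^ 2 - 1 + 8 * (10420182 / 10000000 - 1) * v ^ 2
      - (2 + 2 * (10420182 / 10000000)) * U := by
    have e1 : (r1 * r3) ^ 2 ≤ (10420182 / 10000000 + (4 * v ^ 2 - U)) ^ 2 :=
      pow_le_pow_left₀ (by positivity) k13 2
    have e2 := (L13 h1 h3 hD1 hD3 hn1 hn3 hprod).trans e1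
    rw [hn13] at e2
    linarith
  have hmain : d0 + d1 + d2 + d3 + (4 + 4 * (10420182 / 10000000)) * (t ^ 2 + w ^ 2) ≤
      2 * ((10420182 / 10000000) ^ 2 - 1) + 8 * (10420182 / 10000000 - 1) * v ^ 2 := by
    linarith
  have hpb : p ≤ 21025 / 1000000 := by linarith
  have hYf := core hr0 hr1 hr2 hr3 h0 h1 h2 h3 hD0 hD1 hD2 hD3 hp hU hY hX hn1 hn3 hprod hn13
    (by linarith [hN1 hpb, hN3 hpb]) hmain hT hs hs2 hc0 hc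
  exact core2 hg (by rw [hg]; linarith) hmain hYf

theorem cross {c s a0 b0 a1 b1 : ℝ} (h : c ^ 2 + s ^ 2 = 1) :
    ((c * a0 - -s * b0) * -b1 + (c * b0 + -s * a0) * a1) ^ 2 ≤ (a0 ^ 2 + b0 ^ 2) * (a1 ^ 2 + b1 ^ 2) := by
  have e : (a0 ^ 2 + b0 ^ 2) * (a1 ^ 2 + b1 ^ 2) = (c ^ 2 + s ^ 2) * ((a0 ^ 2 + b0 ^ 2) * (a1 ^ 2 + b1 ^ 2)) := by
    rw [h, one_mul]
  have e2 : (c ^ 2 + s ^ 2) * ((a0 ^ 2 + b0 ^ 2) * (a1 ^ 2 + b1 ^ 2))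
      = ((c * a0 - -s * b0) * -b1 + (c * b0 + -s * a0) * a1) ^ 2
        + ((c * a0 - -s * b0) * a1 + (c * b0 + -s * a0) * b1) ^ 2 := by ring
  rw [e, e2]
  exact le_add_of_nonneg_right (sq_nonneg _)

end FinAAux

open FinAAux

/-- (F6) crude bounds from the twelve-gons -/
theorem fin_AP0 {t : ℝ} {r : ℕ → ℝ} {B : ℕ → ℂ} (h : Cf t r B) {w v g : ℝ} (hw : w = ‖cx t B‖)
    (hv : v = ‖cy B‖) (hg : g = sig r B)
    (h02 : 3 * (r 0 * r 2 + normSq (B 0)) ≤ 31260546 / 10000000)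
    (h13 : 3 * (r 1 * r 3 + (B 1 * (starRingEnd ℂ) (B 3)).re) ≤ 31260546 / 10000000)
    (h01 : 3 * (cs * (r 0 * r 1) + ((starRingEnd ℂ) e1 * B 0 * (starRingEnd ℂ) (B 1)).im) ≤ 31260546 / 10000000)
    (h30 : 3 * (cs * (r 3 * r 0) + ((starRingEnd ℂ) e1 * B 3 * (starRingEnd ℂ) (B 0)).im) ≤ 31260546 / 10000000)
    (hT : sT r B ≤ 15630273 / 10000000) :
    t ≤ 152 / 1000 ∧ w ≤ 152 / 1000 ∧ v ≤ 2205 / 10000 ∧ g ≤ 188 / 1000 ∧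
      g + 8168 / 1000 * (t ^ 2 + w ^ 2) ≤ 1717 / 10000 + 3362 / 10000 * v ^ 2 := by
  obtain ⟨x1, x2, y1, y2, hx, hy, hB0, hB1, hB2, hB3⟩ := coords h
  have hwsq : w ^ 2 = x1 ^ 2 + x2 ^ 2 := by
    rw [hw, hx, Complex.sq_norm, normSq_mk]; ring
  have hvsq : v ^ 2 = y1 ^ 2 + y2 ^ 2 := by
    rw [hv, hy, Complex.sq_norm, normSq_mk]; ring
  have hn0 : normSq (B 0) = (t - x1) ^ 2 + x2 ^ 2 := by rw [hB0, normSq_mk]; ring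
  have hn1 : normSq (B 1) = (t + x1 - 2 * y2) ^ 2 + (x2 + 2 * y1) ^ 2 := by rw [hB1, normSq_mk]; ring
  have hn2 : normSq (B 2) = (t - x1) ^ 2 + x2 ^ 2 := by rw [hB2, normSq_mk]; ring
  have hn3 : normSq (B 3) = (t + x1 + 2 * y2) ^ 2 + (x2 - 2 * y1) ^ 2 := by rw [hB3, normSq_mk]; ring
  have hD0 := h.D1 0
  have hD1 := h.D1 1
  have hD2 := h.D1 2
  have hD3 := h.D1 3
  rw [hn0] at hD0 h02
  rw [hn1] at hD1
  rw [hn2] at hD2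
  rw [hn3] at hD3
  have hg' : g = (r 0 ^ 2 - ((t - x1) ^ 2 + x2 ^ 2) - 1)
      + (r 1 ^ 2 - ((t + x1 - 2 * y2) ^ 2 + (x2 + 2 * y1) ^ 2) - 1)
      + (r 2 ^ 2 - ((t - x1) ^ 2 + x2 ^ 2) - 1)
      + (r 3 ^ 2 - ((t + x1 + 2 * y2) ^ 2 + (x2 - 2 * y1) ^ 2) - 1) := by
    rw [hg]
    unfold sig
    simp only [sum_range_succ, sum_range_zero, zero_add]
    rw [hn0, hn1, hn2, hn3]
  have hT' : sn * ((r 0 + r 2) * (r 1 + r 3)) ≤ 10420182 / 10000000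
      + 4 * cs * (t ^ 2 - (x1 ^ 2 + x2 ^ 2)) := by
    have e : sT r B = 3 / 2 * (sn * ((r 0 + r 2) * (r 1 + r 3))
        - 4 * cs * (t ^ 2 - (x1 ^ 2 + x2 ^ 2))) := by
      have e4 : B (3 + 1) = B 0 := h.Bper 0
      have r4 : r (3 + 1) = r 0 := h.rper 0
      unfold sT
      rw [sum_range_succ, sum_range_succ, sum_range_succ, sum_range_succ, sum_range_zero, e4, r4]
      simp only [zero_add, Nat.reduceAdd]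
      rw [hB0, hB1, hB2, hB3]
      simp only [pT, e1, mul_re, mul_im, conj_re, conj_im]
      ring
    rw [e] at hT
    linarith
  have k13 : r 1 * r 3 ≤ 10420182 / 10000000 + (4 * (y1 ^ 2 + y2 ^ 2) - ((t + x1) ^ 2 + x2 ^ 2)) := by
    have e : (B 1 * (starRingEnd ℂ) (B 3)).re = ((t + x1) ^ 2 + x2 ^ 2) - 4 * (y1 ^ 2 + y2 ^ 2) := by
      rw [hB1, hB3]
      simp only [mul_re, conj_re, conj_im]
      ring
    rw [e] at h13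
    linarith
  have hs2 : 2679491 / 10000000 ≤ 4 * sn ^ 2 := by
    rw [sn_sq]
    have e3 : Real.sqrt 3 ≤ 17320509 / 10000000 := by
      rw [Real.sqrt_le_left (by norm_num)]; norm_num
    linarith
  refine core3 hwsq hvsq (h.rpos 0) (h.rpos 1) (h.rpos 2) (h.rpos 3) (by linarith)
    (by linarith) (by linarith) (by linarith) hg' (by linarith) k13 ?_ ?_ hT' sn_pos hs2
    (by linarith [cs_bounds.1]) cs_bounds.2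
  · intro hpb
    rw [hB0, hB1] at h01
    simp only [e1, mul_re, mul_im, conj_re, conj_im] at h01
    exact nb (a0 := t - x1) (b0 := -x2) (h.rpos 0) (h.rpos 1) (by rw [neg_sq]; exact hD0) hD1
      (by rw [neg_sq]; exact hpb) (cross cs_sq_add) (by linarith)
  · intro hpb
    rw [hB0, hB3] at h30
    simp only [e1, mul_re, mul_im, conj_re, conj_im] at h30
    exact nb (a0 := t - x1) (b0 := -x2) (h.rpos 0) (h.rpos 3) (by rw [neg_sq]; exact hD0) hD3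
      (by rw [neg_sq]; exact hpb) (by rw [mul_comm]; exact (cross cs_sq_add)) (by linarith)

end Rein83
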