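import Pool.Agent.Rein83.FinSDefs

set_option autoImplicit false

/-! Section F: definitions for the canonical case. -/

namespace Rein83

open Complex Finset Rein69

/-- ratio `C1 / G0` -/
noncomputable def rc (r : ℕ → ℝ) (B : ℕ → ℂ) (k : ℕ) : ℝ :=
  pC (r k) (B k) (r (k + 1)) (B (k + 1)) / pG0 (r k) (B k) (r (k + 1)) (B (k + 1))

/-- the value given by the far lemma in the canonical case -/
noncomputable def farc (r : ℕ → ℝ) (B : ℕ → ℂ) (k : ℕ) : ℝ :=
  pT (r k) (B k) (r (k + 1)) (B (k + 1))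
    + 621 / 1000 * (89 / 500) * (pC (r k) (B k) (r (k + 1)) (B (k + 1))
        - 89 / 500 * pG0 (r k) (B k) (r (k + 1)) (B (k + 1)) / 2)
    - 7 / 8 * rc r B k * (Real.sqrt 3 / 2 * ((r k ^ 2 - normSq (B k) - 1)
        + (r (k + 1) ^ 2 - normSq (B (k + 1)) - 1)))

end Rein83
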