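import Pool.Agent.Rein83.FinDefs

set_option autoImplicit false

/-! Section F: definitions for the scalar inequalities. -/

namespace Rein83

open Complex Finset Rein69

/-- sum of the four `T` -/
noncomputable def sT (r : ℕ → ℝ) (B : ℕ → ℂ) : ℝ := ∑ k ∈ range 4, pT (r k) (B k) (r (k + 1)) (B (k + 1))

/-- the four turns -/
noncomputable def tn (r : ℕ → ℝ) (B : ℕ → ℂ) (k : ℕ) : ℝ :=
  pturn (r k) (B k) (r (k + 1)) (B (k + 1)) (r (k + 2)) (B (k + 2))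

/-- upper bound of `G_0, G_2, G_4` -/
noncomputable def Gh (r : ℕ → ℝ) (B : ℕ → ℂ) (k : ℕ) : ℝ :=
  2 / 3 * pT (r k) (B k) (r (k + 1)) (B (k + 1)) + 2 * ‖pK (r k) (B k) (r (k + 1)) (B (k + 1))‖

/-- ratio `C1 / Gh` -/
noncomputable def rt (r : ℕ → ℝ) (B : ℕ → ℂ) (k : ℕ) : ℝ :=
  pC (r k) (B k) (r (k + 1)) (B (k + 1)) / Gh r B k

/-- the value given by the far lemma -/
noncomputable def farval (r : ℕ → ℝ) (B : ℕ → ℂ) (k : ℕ) : ℝ :=
  pT (r k) (B k) (r (k + 1)) (B (k + 1))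
    + 621 / 1000 * (89 / 500) * (pC (r k) (B k) (r (k + 1)) (B (k + 1)) - 89 / 500 * Gh r B k / 2)
    - 7 / 8 * rt r B k * (Real.sqrt 3 / 2 * ((r k ^ 2 - normSq (B k) - 1)
        + (r (k + 1) ^ 2 - normSq (B (k + 1)) - 1)))

/-- third order terms of S3 -/
noncomputable def brS (t w v g : ℝ) : ℝ :=
  let ue := (t + w) ^ 2 / 2
  let uo := (t + w + 2 * v) ^ 2 / 2
  ue * (2 * w + 4 * v) + 2 * uo * (2 * w + 2 * v) + 2 * ue * uo + uo ^ 2
    + g / 2 * (2 * w + 4 * v + 4 * uo + ue) + g ^ 2 / 4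
    + (2 * uo * w + 2 * ue * (2 * w + 2 * v) + 2 * ue * uo + ue ^ 2
    + g / 2 * (2 * w + 2 * v + 3 * ue + uo) + g ^ 2 / 4)

end Rein83
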