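import Pool.Agent.Rein83.FIf
import Pool.Agent.Rein83.Far
import Pool.Agent.Rein83.Chain
import Pool.Agent.Rein83.FinSDefs
import Pool.Agent.Rein83.FinRDefs

set_option autoImplicit false

/-! Section F: from the facts about hexagons to the scalar hypotheses. -/

namespace Rein83

open Complex Finset Rein69

lemma Cf.rj {t : ℝ} {r : ℕ → ℝ} {B : ℕ → ℂ} (h : Cf t r B) (k j : ℕ) : r (k + 4 * j) = r k := by
  induction j with
  | zero => simp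
  | succ j ih => rw [mul_add, mul_one, ← add_assoc, h.rper, ih]

lemma Cf.Bj {t : ℝ} {r : ℕ → ℝ} {B : ℕ → ℂ} (h : Cf t r B) (k j : ℕ) : B (k + 4 * j) = B k := by
  induction j with
  | zero => simp
  | succ j ih => rw [mul_add, mul_one, ← add_assoc, h.Bper, ih]

section
variable {N : ℂ → ℝ} (hN : IsSN N) {Φ ρ : ℕ → ℝ} {b : ℕ → ℂ} (h : HSeq N 4 Φ ρ b)
include hN h

lemma Ch_shift (k j : ℕ) {S : ℝ} (hc : Ch N (Φ (k + 4 * j)) (Φ (k + 1 + 4 * j)) S) :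
    Ch N (Φ k) (Φ (k + 1)) S := by
  induction j with
  | zero => simpa using hc
  | succ j ih =>
    apply ih
    have e1 : k + 4 * (j + 1) = k + 4 * j + 4 := by ring
    have e2 : k + 1 + 4 * (j + 1) = k + 1 + 4 * j + 4 := by ring
    rw [e1, e2, h.next, h.next] at hc
    exact (Ch_tau_iff hN).1 hc

/-- area of the chain made of four pieces -/
theorem area4 {V : ℝ} (hV : AreaBd N V) {S : ℕ → ℝ}
    (hS : ∀ k, ∃ j, Ch N (Φ (k + 4 * j)) (Φ (k + 1 + 4 * j)) (S k)) : 2 * ∑ k ∈ range 4, S k ≤ V := by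
  have c : ∀ k, Ch N (Φ k) (Φ (k + 1)) (S k) := fun k => by
    obtain ⟨j, hj⟩ := hS k
    exact Ch_shift hN h k j hj
  have hc := (((c 0).trans (c 1)).trans (c 2)).trans (c 3)
  have e : Φ (3 + 1) = tau N (Φ 0) := by
    have := h.next 0
    simpa using this
  rw [e] at hc
  have := Ch_area hN hV hc
  simp only [Finset.sum_range_succ, Finset.sum_range_zero, zero_add]
  exact this

omit hN in
lemma hs_lt (k : ℕ) : Φ k < Φ (k + 1) := h.mono (Nat.lt_succ_self k)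

omit hN in
lemma hs_le (k i : ℕ) (hi : i ≤ 4) : Φ (k + i) ≤ tau N (Φ k) := by
  rw [← h.next]
  exact h.mono.monotone (by omega)

end

section
variable {N : ℂ → ℝ} (hN : IsSN N) {V : ℝ} (hV : AreaBd N V) (hE : ∀ φ, Real.sqrt 3 / 2 ≤ EE N φ)
  {Φ ρ : ℕ → ℝ} {b : ℕ → ℂ} (h : HSeq N 4 Φ ρ b) {t : ℝ} {B : ℕ → ℂ} (hF : FI N Φ V t ρ B)
include hN h hF

lemma sT_le (hV : AreaBd N V) : 2 * sT ρ B ≤ V := by
  unfold sT
  apply area4 hN h hV
  intro k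
  refine ⟨0, ?_⟩
  rw [← hF.TT]
  simp only [mul_zero, add_zero]
  exact Ch.single (hs_lt h k)

lemma tn_nonneg (k : ℕ) : 0 ≤ tn ρ B k := by
  have e := hF.tx (3 * k + 2)
  have i2 : 3 * (3 * k + 2) + 2 = k + 4 * (2 * k + 2) := by ring
  have i3 : 3 * (3 * k + 2) + 3 = k + 1 + 4 * (2 * k + 2) := by ring
  have i4 : 3 * (3 * k + 2) + 4 = k + 2 + 4 * (2 * k + 2) := by ring
  unfold tn
  rw [i2, i3, i4] at e
  simp only [hF.cf.rj, hF.cf.Bj] at e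
  rw [← e]
  set a := k + 4 * (2 * k + 2) with ha
  have j3 : k + 1 + 4 * (2 * k + 2) = a + 1 := by omega
  have j4 : k + 2 + 4 * (2 * k + 2) = a + 2 := by omega
  rw [j3, j4]
  have h1 : Φ a ≤ Φ (a + 1) := (hs_lt h a).le
  have h2 : Φ (a + 1) ≤ Φ (a + 2) := (hs_lt h (a + 1)).le
  have h3 : Φ (a + 2) ≤ tau N (Φ a) := hs_le h a 2 (by norm_num)
  have := (H_nonneg hN h1 h2 h3).2.1
  have e2 : cr (v2 N (Φ (a + 1)) - v2 N (Φ a)) (v2 N (Φ (a + 2)) - v2 N (Φ (a + 1))) =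
      H2 N (Φ a) (Φ (a + 2)) (Φ (a + 1)) := by
    unfold H2
    simp only [cr, Complex.sub_re, Complex.sub_im]; ring
  rw [e2]
  exact this

/-- far lemma on the interval `k` -/
lemma far_k (hE : ∀ φ, Real.sqrt 3 / 2 ≤ EE N φ) (k : ℕ) {G : ℝ} (hG : 0 < G)
    (h0 : pG0 (ρ k) (B k) (ρ (k + 1)) (B (k + 1)) ≤ G)
    (h2 : pG2 (ρ k) (B k) (ρ (k + 1)) (B (k + 1)) ≤ G)
    (h4 : pG4 (ρ k) (B k) (ρ (k + 1)) (B (k + 1)) ≤ G) :
    ∃ S, (∃ j, Ch N (Φ (k + 4 * j)) (Φ (k + 1 + 4 * j)) S) ∧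
      pT (ρ k) (B k) (ρ (k + 1)) (B (k + 1))
      + 621 / 1000 * (89 / 500) * (pC (ρ k) (B k) (ρ (k + 1)) (B (k + 1)) - 89 / 500 * G / 2)
      - 7 / 8 * (pC (ρ k) (B k) (ρ (k + 1)) (B (k + 1)) / G) * (Real.sqrt 3 / 2 *
        ((ρ k ^ 2 - normSq (B k) - 1) + (ρ (k + 1) ^ 2 - normSq (B (k + 1)) - 1))) ≤ S := by
  have i2 : 3 * (3 * k) = k + 4 * (2 * k) := by ring
  have i3 : 3 * (3 * k) + 1 = k + 1 + 4 * (2 * k) := by ring
  have e0 := hF.G0 (3 * k)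
  have e2 := hF.G2 (3 * k)
  have e4 := hF.G4 (3 * k)
  rw [i3, i2] at e0 e2 e4
  simp only [hF.cf.rj, hF.cf.Bj] at e0 e2 e4
  have hlt : Φ (k + 4 * (2 * k)) < Φ (k + 1 + 4 * (2 * k)) := h.mono (by omega)
  have hle : Φ (k + 1 + 4 * (2 * k)) ≤ tau N (Φ (k + 4 * (2 * k))) := by
    have := hs_le h (k + 4 * (2 * k)) 1 (by norm_num)
    have e : k + 1 + 4 * (2 * k) = k + 4 * (2 * k) + 1 := by ring
    rw [e]; exact this
  obtain ⟨S, hS, hS'⟩ := far_lemma hN hE (Φ (k + 4 * (2 * k))) (Φ (k + 1 + 4 * (2 * k))) G hlt hle hG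
    (by rw [e0]; exact h0) (by rw [e2]; exact h2) (by rw [e4]; exact h4)
  refine ⟨S, ⟨2 * k, hS⟩, le_trans (le_of_eq ?_) hS'⟩
  have ej : k + 1 + 4 * (2 * k) = (k + 4 * (2 * k)) + 1 := by ring
  have t1 := hF.TT (k + 4 * (2 * k))
  have t2 := hF.C1 (k + 4 * (2 * k))
  rw [← ej] at t1 t2
  simp only [hF.cf.rj, hF.cf.Bj] at t1 t2
  have t3 := hF.EE (k + 4 * (2 * k))
  have t4 := hF.EE (k + 1 + 4 * (2 * k))
  simp only [hF.cf.rj, hF.cf.Bj] at t3 t4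
  rw [t1, t2, t3, t4]
  ring

end

end Rein83
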