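import Pool.Agent.Rein83.FinS1
import Pool.Agent.Rein83.FinRDefs

set_option autoImplicit false

/-! Section F, modules F10 and F11: canonical orientation and the canonical ratio bound. -/

namespace Rein83

open Complex Finset Rein69

namespace FinCanonAux

/-- the three consecutive `B` in terms of `t`, `x` and `±y` -/
theorem types {t : ℝ} {r : ℕ → ℝ} {B : ℕ → ℂ} (h : Cf t r B) (k : ℕ) :
    ∃ Y : ℂ, ‖Y‖ = ‖cy B‖ ∧
      ((B k = t - cx t B ∧ B (k + 1) = t + cx t B + 2 * I * Y ∧ B (k + 2) = t - cx t B) ∨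
       (B k = t + cx t B + 2 * I * Y ∧ B (k + 1) = t - cx t B ∧
        B (k + 2) = t + cx t B - 2 * I * Y)) := by
  have hs := h.sum
  have h02 := h.B02
  have h4 : B 1 - B 3 = 4 * I * cy B := by
    unfold cy
    field_simp
  have h1 : B 1 = t + cx t B + 2 * I * cy B := by
    unfold cx
    rw [← h02] at hs
    linear_combination (1 / 2) * hs + (1 / 2) * h4
  have h3 : B 3 = t + cx t B - 2 * I * cy B := by
    linear_combination h1 - h4
  have h0 : B 0 = t - cx t B := by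
    unfold cx
    ring
  have h2 : B 2 = t - cx t B := by rw [← h02, h0]
  have hper : ∀ q j : ℕ, B (4 * q + j) = B j := by
    intro q j
    induction q with
    | zero => simp
    | succ q ih =>
      have e : 4 * (q + 1) + j = (4 * q + j) + 4 := by ring
      rw [e, h.Bper, ih]
  obtain ⟨q, j, hj, rfl⟩ : ∃ q j, j < 4 ∧ k = 4 * q + j :=
    ⟨k / 4, k % 4, Nat.mod_lt _ (by norm_num), (Nat.div_add_mod k 4).symm⟩
  have e0 : B (4 * q + j) = B j := hper q j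
  have e1 : B (4 * q + j + 1) = B (j + 1) := by
    have := hper q (j + 1)
    rwa [← add_assoc] at this
  have e2 : B (4 * q + j + 2) = B (j + 2) := by
    have := hper q (j + 2)
    rwa [← add_assoc] at this
  rw [e0, e1, e2]
  have h4' : B 4 = B 0 := h.Bper 0
  have h5' : B 5 = B 1 := h.Bper 1
  interval_cases j
  · exact ⟨cy B, rfl, Or.inl ⟨h0, h1, h2⟩⟩
  · exact ⟨cy B, rfl, Or.inr ⟨h1, h2, h3⟩⟩
  · refine ⟨-cy B, norm_neg _, Or.inl ⟨h2, ?_, ?_⟩⟩
    · rw [h3]; ring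
    · show B 4 = _
      rw [h4', h0]
  · refine ⟨-cy B, norm_neg _, Or.inr ⟨?_, ?_, ?_⟩⟩
    · rw [h3]; ring
    · show B 4 = _
      rw [h4', h0]
    · show B 5 = _
      rw [h5', h1]; ring

lemma norm_e3 : ‖e3‖ = 1 := by
  have h : ‖e3‖ ^ 2 = 1 := by
    rw [← normSq_eq_norm_sq, e3, normSq_mk]
    have h2 : Real.sqrt 2 * Real.sqrt 2 = 2 := Real.mul_self_sqrt (by norm_num)
    linear_combination (1 / 2) * h2
  have h0 : 0 ≤ ‖e3‖ := norm_nonneg _
  nlinarith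

lemma norm_e1 : ‖e1‖ = 1 := by
  have h : ‖e1‖ ^ 2 = 1 := by
    rw [← normSq_eq_norm_sq, e1, normSq_mk]
    have h2 := sn_sq_add_cs_sq
    linear_combination h2
  have h0 : 0 ≤ ‖e1‖ := norm_nonneg _
  nlinarith

lemma sq2 : ((Real.sqrt 2 : ℝ) : ℂ) * ((Real.sqrt 2 : ℝ) : ℂ) = 2 := by
  rw [← ofReal_mul, Real.mul_self_sqrt (by norm_num)]
  norm_num

lemma e3_eq : e3 = ((Real.sqrt 2 : ℝ) : ℂ) / 2 * (1 + I) := by
  apply Complex.ext <;> simp [e3]

/-- `K` splits into the linear part and a correction -/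
lemma pK_split (r r' : ℝ) (B B' : ℂ) :
    pK r B r' B' = -(e3 * (I * B' + B)) - e3 * (I * ((r - 1 : ℝ) : ℂ) * B' + ((r' - 1 : ℝ) : ℂ) * B) := by
  unfold pK
  push_cast
  ring

lemma corr_le (r r' : ℝ) (B B' : ℂ) (hr : 1 ≤ r) (hr' : 1 ≤ r') :
    ‖e3 * (I * ((r - 1 : ℝ) : ℂ) * B' + ((r' - 1 : ℝ) : ℂ) * B)‖ ≤
      (r - 1) * ‖B'‖ + (r' - 1) * ‖B‖ := by
  rw [norm_mul, norm_e3, one_mul]
  refine (norm_add_le _ _).trans ?_
  rw [norm_mul, norm_mul, norm_mul, norm_I, one_mul, norm_real, norm_real, Real.norm_eq_abs,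
    Real.norm_eq_abs, abs_of_nonneg (by linarith), abs_of_nonneg (by linarith)]

lemma lin_even (t : ℝ) (x Y : ℂ) :
    -(e3 * (I * (t + x + 2 * I * Y) + (t - x))) =
      -(I * Real.sqrt 2 * t) + (Real.sqrt 2 * x + 2 * e3 * Y) := by
  rw [e3_eq]
  linear_combination (-(((Real.sqrt 2 : ℝ) : ℂ) * t / 2) - ((Real.sqrt 2 : ℝ) : ℂ) * x / 2
    - ((Real.sqrt 2 : ℝ) : ℂ) * (1 + I) * Y) * I_sq

lemma lin_odd (t : ℝ) (x Y : ℂ) :
    -(e3 * (I * (t - x) + (t + x + 2 * I * Y))) =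
      -(I * Real.sqrt 2 * t) + (-(Real.sqrt 2 * x) - 2 * I * e3 * Y) := by
  rw [e3_eq]
  linear_combination (-(((Real.sqrt 2 : ℝ) : ℂ) * t / 2) + ((Real.sqrt 2 : ℝ) : ℂ) * x / 2) * I_sq

lemma norm_even (t w : ℝ) (x : ℂ) (ht : 0 ≤ t) (hw : w = ‖x‖) : ‖(t : ℂ) - x‖ ≤ t + w := by
  refine (norm_sub_le _ _).trans ?_
  rw [norm_real, Real.norm_eq_abs, abs_of_nonneg ht, hw]

lemma norm_odd (t w v : ℝ) (x Y : ℂ) (ht : 0 ≤ t) (hw : w = ‖x‖) (hv : v = ‖Y‖) :
    ‖(t : ℂ) + x + 2 * I * Y‖ ≤ t + w + 2 * v := by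
  refine (norm_add_le _ _).trans ?_
  have h1 : ‖(t : ℂ) + x‖ ≤ t + w := by
    refine (norm_add_le _ _).trans ?_
    rw [norm_real, Real.norm_eq_abs, abs_of_nonneg ht, hw]
  have h2 : ‖2 * I * Y‖ = 2 * v := by
    rw [norm_mul, norm_mul, norm_I, hv]
    simp
  rw [h2]
  linarith

/-- all the facts about a pair of consecutive nodes and the two `K` -/
structure Pr (t w v : ℝ) (r : ℕ → ℝ) (B : ℕ → ℂ) (k : ℕ) : Prop where
  prod : ‖B k‖ * ‖B (k + 1)‖ ≤ 285 / 100000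
  sq : normSq (B k) + normSq (B (k + 1)) ≤ 597 / 100000
  nb : normSq (B k) ≤ 389 / 100000
  nb' : normSq (B (k + 1)) ≤ 389 / 100000
  dsum : dd r B k + dd r B (k + 1) ≤ 357 / 10000
  kap : ‖pK (r k) (B k) (r (k + 1)) (B (k + 1)) + I * Real.sqrt 2 * t‖ ≤
    Real.sqrt 2 * w + 2 * v + 127 / 100000

lemma dd_pair {t : ℝ} {r : ℕ → ℝ} {B : ℕ → ℂ} (h : Cf t r B) (k : ℕ) :
    dd r B k + dd r B (k + 1) ≤ sig r B := by
  have hper : ∀ q j : ℕ, dd r B (4 * q + j) = dd r B j := by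
    intro q j
    induction q with
    | zero => simp
    | succ q ih =>
      have e : 4 * (q + 1) + j = (4 * q + j) + 4 := by ring
      rw [← ih, e]
      unfold dd
      rw [h.rper, h.Bper]
  obtain ⟨q, j, hj, rfl⟩ : ∃ q j, j < 4 ∧ k = 4 * q + j :=
    ⟨k / 4, k % 4, Nat.mod_lt _ (by norm_num), (Nat.div_add_mod k 4).symm⟩
  have e0 := hper q j
  have e1 : dd r B (4 * q + j + 1) = dd r B (j + 1) := by
    have := hper q (j + 1)
    rwa [← add_assoc] at this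
  rw [e0, e1, sig_eq]
  have h4' : dd r B 4 = dd r B 0 := by
    have := hper 1 0
    simpa using this
  have a0 := h.dd_nonneg 0
  have a1 := h.dd_nonneg 1
  have a2 := h.dd_nonneg 2
  have a3 := h.dd_nonneg 3
  interval_cases j
  · show dd r B 0 + dd r B 1 ≤ _
    linarith
  · show dd r B 1 + dd r B 2 ≤ _
    linarith
  · show dd r B 2 + dd r B 3 ≤ _
    linarith
  · show dd r B 3 + dd r B 4 ≤ _
    rw [h4']
    linarith

/-- numerical bounds for one pair, `a`, `b` the norms of the `B` -/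
lemma corr_num {u u' d d' a b p q : ℝ} (hu : u ≤ (d + a ^ 2) / 2) (hu' : u' ≤ (d' + b ^ 2) / 2)
    (hd : 0 ≤ d) (hd' : 0 ≤ d') (hdd : d + d' ≤ 357 / 10000) (ha0 : 0 ≤ a) (hb0 : 0 ≤ b)
    (ha : a ≤ p) (hb : b ≤ q) (hp : p ≤ 623 / 10000) (hq : q ≤ 623 / 10000)
    (hpq : p * q * (p + q) ≤ 3067 / 10000000) :
    u * b + u' * a ≤ 127 / 100000 := by
  have hp0 : 0 ≤ p := ha0.trans ha
  have hq0 : 0 ≤ q := hb0.trans hb
  have h1 : u * b ≤ (d + p ^ 2) / 2 * q := by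
    apply mul_le_mul _ hb hb0 (by positivity)
    have : a ^ 2 ≤ p ^ 2 := pow_le_pow_left₀ ha0 ha 2
    linarith
  have h2 : u' * a ≤ (d' + q ^ 2) / 2 * p := by
    apply mul_le_mul _ ha ha0 (by positivity)
    have : b ^ 2 ≤ q ^ 2 := pow_le_pow_left₀ hb0 hb 2
    linarith
  have h3 : d * q ≤ d * (623 / 10000) := mul_le_mul_of_nonneg_left hq hd
  have h4 : d' * p ≤ d' * (623 / 10000) := mul_le_mul_of_nonneg_left hp hd'
  have h5 : (d + p ^ 2) / 2 * q + (d' + q ^ 2) / 2 * p = (d * q + d' * p) / 2 + p * q * (p + q) / 2 := by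
    ring
  linarith

lemma pair {t : ℝ} {r : ℕ → ℝ} {B : ℕ → ℂ} (h : Cf t r B) {w v g : ℝ} (hw : w = ‖cx t B‖)
    (hv : v = ‖cy B‖) (hg : g = sig r B) (ht : t ≤ 289 / 10000)
    (hwb : w ≤ 167 / 10000) (hgb : g ≤ 357 / 10000)
    (hm : 141422 / 100000 * w + 2 * v + 2 / 1000 ≤ 12247 / 10000 * t) (k : ℕ) :
    Pr t w v r B k := by
  have ht0 := h.t0
  have hw0 : 0 ≤ w := by rw [hw]; exact norm_nonneg _
  have hv0 : 0 ≤ v := by rw [hv]; exact norm_nonneg _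
  have hdd : dd r B k + dd r B (k + 1) ≤ 357 / 10000 := by
    have := dd_pair h k
    rw [← hg] at this
    linarith
  have hd0 := h.dd_nonneg k
  have hd1 := h.dd_nonneg (k + 1)
  have hu0 := h.u_le k
  have hu1 := h.u_le (k + 1)
  have ho0 := h.one_le k
  have ho1 := h.one_le (k + 1)
  rw [normSq_eq_norm_sq] at hu0 hu1
  obtain ⟨Y, hY, hty⟩ := types h k
  have hY' : v = ‖Y‖ := by rw [hY, hv]
  have he : t + w ≤ 456 / 10000 := by linarith
  have ho : t + w + 2 * v ≤ 623 / 10000 := by linarith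
  have hs2 : (0 : ℝ) ≤ Real.sqrt 2 := Real.sqrt_nonneg _
  have hrt2 : ‖((Real.sqrt 2 : ℝ) : ℂ)‖ = Real.sqrt 2 := by
    rw [norm_real, Real.norm_eq_abs, abs_of_nonneg hs2]
  have n0 : 0 ≤ ‖B k‖ := norm_nonneg _
  have n1 : 0 ≤ ‖B (k + 1)‖ := norm_nonneg _
  rcases hty with ⟨e0, e1', e2⟩ | ⟨e0, e1', e2⟩
  · have b0 : ‖B k‖ ≤ 456 / 10000 := by
      rw [e0]; exact (norm_even t w _ ht0 hw).trans he
    have b1 : ‖B (k + 1)‖ ≤ 623 / 10000 := by
      rw [e1']; exact (norm_odd t w v _ Y ht0 hw hY').trans ho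
    refine ⟨?_, ?_, ?_, ?_, hdd, ?_⟩
    · nlinarith
    · rw [normSq_eq_norm_sq, normSq_eq_norm_sq]; nlinarith
    · rw [normSq_eq_norm_sq]; nlinarith
    · rw [normSq_eq_norm_sq]; nlinarith
    · have hc := corr_le (r k) (r (k + 1)) (B k) (B (k + 1)) ho0 ho1
      have hc2 := corr_num hu0 hu1 hd0 hd1 hdd n0 n1 b0 b1 (by norm_num) le_rfl (by norm_num)
      have hlin : ‖-(e3 * (I * B (k + 1) + B k)) + I * Real.sqrt 2 * t‖ ≤
          Real.sqrt 2 * w + 2 * v := by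
        rw [e0, e1', lin_even]
        have e : -(I * Real.sqrt 2 * t) + (Real.sqrt 2 * cx t B + 2 * e3 * Y) + I * Real.sqrt 2 * t =
          Real.sqrt 2 * cx t B + 2 * e3 * Y := by ring
        rw [e]
        refine (norm_add_le _ _).trans ?_
        rw [norm_mul, norm_mul, norm_mul, hrt2, norm_e3, ← hw, ← hY']
        simp
      rw [pK_split]
      have e : -(e3 * (I * B (k + 1) + B k)) -
            e3 * (I * ((r k - 1 : ℝ) : ℂ) * B (k + 1) + ((r (k + 1) - 1 : ℝ) : ℂ) * B k) +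
            I * Real.sqrt 2 * t = (-(e3 * (I * B (k + 1) + B k)) + I * Real.sqrt 2 * t) -
            e3 * (I * ((r k - 1 : ℝ) : ℂ) * B (k + 1) + ((r (k + 1) - 1 : ℝ) : ℂ) * B k) := by ring
      rw [e]
      refine (norm_sub_le _ _).trans ?_
      linarith
  · have b0 : ‖B k‖ ≤ 623 / 10000 := by
      rw [e0]; exact (norm_odd t w v _ Y ht0 hw hY').trans ho
    have b1 : ‖B (k + 1)‖ ≤ 456 / 10000 := by
      rw [e1']; exact (norm_even t w _ ht0 hw).trans he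
    refine ⟨?_, ?_, ?_, ?_, hdd, ?_⟩
    · nlinarith
    · rw [normSq_eq_norm_sq, normSq_eq_norm_sq]; nlinarith
    · rw [normSq_eq_norm_sq]; nlinarith
    · rw [normSq_eq_norm_sq]; nlinarith
    · have hc := corr_le (r k) (r (k + 1)) (B k) (B (k + 1)) ho0 ho1
      have hc2 := corr_num hu0 hu1 hd0 hd1 hdd n0 n1 b0 b1 le_rfl (by norm_num) (by norm_num)
      have hlin : ‖-(e3 * (I * B (k + 1) + B k)) + I * Real.sqrt 2 * t‖ ≤
          Real.sqrt 2 * w + 2 * v := by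
        rw [e0, e1', lin_odd]
        have e : -(I * Real.sqrt 2 * t) + (-(Real.sqrt 2 * cx t B) - 2 * I * e3 * Y) +
            I * Real.sqrt 2 * t = -(Real.sqrt 2 * cx t B) - 2 * I * e3 * Y := by ring
        rw [e]
        refine (norm_sub_le _ _).trans ?_
        rw [norm_neg, norm_mul, norm_mul, norm_mul, norm_mul, hrt2, norm_e3, norm_I, ← hw, ← hY']
        simp
      rw [pK_split]
      have e : -(e3 * (I * B (k + 1) + B k)) -
            e3 * (I * ((r k - 1 : ℝ) : ℂ) * B (k + 1) + ((r (k + 1) - 1 : ℝ) : ℂ) * B k) +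
            I * Real.sqrt 2 * t = (-(e3 * (I * B (k + 1) + B k)) + I * Real.sqrt 2 * t) -
            e3 * (I * ((r k - 1 : ℝ) : ℂ) * B (k + 1) + ((r (k + 1) - 1 : ℝ) : ℂ) * B k) := by ring
      rw [e]
      refine (norm_sub_le _ _).trans ?_
      linarith

/-- the two-consecutive sum of the `K` -/
lemma kap2 {t : ℝ} {r : ℕ → ℝ} {B : ℕ → ℂ} (h : Cf t r B) {w v g : ℝ} (hw : w = ‖cx t B‖)
    (hv : v = ‖cy B‖) (hg : g = sig r B) (ht : t ≤ 289 / 10000)
    (hwb : w ≤ 167 / 10000) (hgb : g ≤ 357 / 10000)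
    (hm : 141422 / 100000 * w + 2 * v + 2 / 1000 ≤ 12247 / 10000 * t) (k : ℕ) :
    ‖pK (r k) (B k) (r (k + 1)) (B (k + 1)) + pK (r (k + 1)) (B (k + 1)) (r (k + 2)) (B (k + 2)) +
      2 * I * Real.sqrt 2 * t‖ ≤ 2 * Real.sqrt 2 * v + 254 / 100000 := by
  have ht0 := h.t0
  have hw0 : 0 ≤ w := by rw [hw]; exact norm_nonneg _
  have hv0 : 0 ≤ v := by rw [hv]; exact norm_nonneg _
  have hdd : dd r B k + dd r B (k + 1) ≤ 357 / 10000 := by
    have := dd_pair h k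
    rw [← hg] at this
    linarith
  have hdd' : dd r B (k + 1) + dd r B (k + 2) ≤ 357 / 10000 := by
    have := dd_pair h (k + 1)
    rw [← hg] at this
    exact this.trans hgb
  have hd0 := h.dd_nonneg k
  have hd1 := h.dd_nonneg (k + 1)
  have hd2 := h.dd_nonneg (k + 2)
  have hu0 := h.u_le k
  have hu1 := h.u_le (k + 1)
  have hu2 := h.u_le (k + 2)
  have ho0 := h.one_le k
  have ho1 := h.one_le (k + 1)
  have ho2 := h.one_le (k + 2)
  rw [normSq_eq_norm_sq] at hu0 hu1 hu2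
  obtain ⟨Y, hY, hty⟩ := types h k
  have hY' : v = ‖Y‖ := by rw [hY, hv]
  have he : t + w ≤ 456 / 10000 := by linarith
  have ho : t + w + 2 * v ≤ 623 / 10000 := by linarith
  have hs2 : (0 : ℝ) ≤ Real.sqrt 2 := Real.sqrt_nonneg _
  have hrt2 : ‖((Real.sqrt 2 : ℝ) : ℂ)‖ = Real.sqrt 2 := by
    rw [norm_real, Real.norm_eq_abs, abs_of_nonneg hs2]
  have n0 : 0 ≤ ‖B k‖ := norm_nonneg _
  have n1 : 0 ≤ ‖B (k + 1)‖ := norm_nonneg _
  have n2 : 0 ≤ ‖B (k + 2)‖ := norm_nonneg _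
  have hc := corr_le (r k) (r (k + 1)) (B k) (B (k + 1)) ho0 ho1
  have hc' := corr_le (r (k + 1)) (r (k + 2)) (B (k + 1)) (B (k + 2)) ho1 ho2
  have hYm : ‖-Y‖ = v := by rw [norm_neg, ← hY']
  have key : ‖-(e3 * (I * B (k + 1) + B k)) + -(e3 * (I * B (k + 2) + B (k + 1))) +
      2 * I * Real.sqrt 2 * t‖ ≤ 2 * Real.sqrt 2 * v ∧
      (r k - 1) * ‖B (k + 1)‖ + (r (k + 1) - 1) * ‖B k‖ ≤ 127 / 100000 ∧
      (r (k + 1) - 1) * ‖B (k + 2)‖ + (r (k + 2) - 1) * ‖B (k + 1)‖ ≤ 127 / 100000 := by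
    rcases hty with ⟨e0, e1', e2'⟩ | ⟨e0, e1', e2'⟩
    · have b0 : ‖B k‖ ≤ 456 / 10000 := by
        rw [e0]; exact (norm_even t w _ ht0 hw).trans he
      have b1 : ‖B (k + 1)‖ ≤ 623 / 10000 := by
        rw [e1']; exact (norm_odd t w v _ Y ht0 hw hY').trans ho
      have b2 : ‖B (k + 2)‖ ≤ 456 / 10000 := by
        rw [e2']; exact (norm_even t w _ ht0 hw).trans he
      refine ⟨?_, corr_num hu0 hu1 hd0 hd1 hdd n0 n1 b0 b1 (by norm_num) le_rfl (by norm_num),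
        corr_num hu1 hu2 hd1 hd2 hdd' n1 n2 b1 b2 le_rfl (by norm_num) (by norm_num)⟩
      rw [e0, e1', e2', lin_even, lin_odd, e3_eq]
      have e : -(I * Real.sqrt 2 * t) + (Real.sqrt 2 * cx t B +
            2 * ((Real.sqrt 2 : ℝ) / 2 * (1 + I)) * Y) +
          (-(I * Real.sqrt 2 * t) + (-(Real.sqrt 2 * cx t B) -
            2 * I * ((Real.sqrt 2 : ℝ) / 2 * (1 + I)) * Y)) + 2 * I * Real.sqrt 2 * t =
          2 * Real.sqrt 2 * Y := by
        linear_combination (-(((Real.sqrt 2 : ℝ) : ℂ) * Y)) * I_sq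
      rw [e, norm_mul, norm_mul, hrt2, ← hY']
      simp
    · have b0 : ‖B k‖ ≤ 623 / 10000 := by
        rw [e0]; exact (norm_odd t w v _ Y ht0 hw hY').trans ho
      have b1 : ‖B (k + 1)‖ ≤ 456 / 10000 := by
        rw [e1']; exact (norm_even t w _ ht0 hw).trans he
      have b2 : ‖B (k + 2)‖ ≤ 623 / 10000 := by
        rw [e2']
        have := norm_odd t w v (cx t B) (-Y) ht0 hw hYm.symm
        have e : (t : ℂ) + cx t B + 2 * I * -Y = t + cx t B - 2 * I * Y := by ring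
        rw [e] at this
        exact this.trans ho
      refine ⟨?_, corr_num hu0 hu1 hd0 hd1 hdd n0 n1 b0 b1 le_rfl (by norm_num) (by norm_num),
        corr_num hu1 hu2 hd1 hd2 hdd' n1 n2 b1 b2 (by norm_num) le_rfl (by norm_num)⟩
      have e2'' : B (k + 2) = t + cx t B + 2 * I * (-Y) := by rw [e2']; ring
      rw [e0, e1', e2'', lin_even, lin_odd, e3_eq]
      have e : -(I * Real.sqrt 2 * t) + (-(Real.sqrt 2 * cx t B) -
            2 * I * ((Real.sqrt 2 : ℝ) / 2 * (1 + I)) * Y) +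
          (-(I * Real.sqrt 2 * t) + (Real.sqrt 2 * cx t B +
            2 * ((Real.sqrt 2 : ℝ) / 2 * (1 + I)) * -Y)) + 2 * I * Real.sqrt 2 * t =
          -(2 * Real.sqrt 2 * I * Y) := by
        linear_combination (-(((Real.sqrt 2 : ℝ) : ℂ) * Y)) * I_sq
      rw [e, norm_neg, norm_mul, norm_mul, norm_mul, hrt2, norm_I, ← hY']
      simp
  obtain ⟨k1, k2, k3⟩ := key
  rw [pK_split, pK_split]
  have e : -(e3 * (I * B (k + 1) + B k)) -
        e3 * (I * ((r k - 1 : ℝ) : ℂ) * B (k + 1) + ((r (k + 1) - 1 : ℝ) : ℂ) * B k) +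
        (-(e3 * (I * B (k + 2) + B (k + 1))) -
        e3 * (I * ((r (k + 1) - 1 : ℝ) : ℂ) * B (k + 2) + ((r (k + 2) - 1 : ℝ) : ℂ) * B (k + 1))) +
        2 * I * Real.sqrt 2 * t =
      (-(e3 * (I * B (k + 1) + B k)) + -(e3 * (I * B (k + 2) + B (k + 1))) +
        2 * I * Real.sqrt 2 * t) -
        e3 * (I * ((r k - 1 : ℝ) : ℂ) * B (k + 1) + ((r (k + 1) - 1 : ℝ) : ℂ) * B k) -
        e3 * (I * ((r (k + 1) - 1 : ℝ) : ℂ) * B (k + 2) + ((r (k + 2) - 1 : ℝ) : ℂ) * B (k + 1)) := by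
    ring
  rw [e]
  refine (norm_sub_le _ _).trans ?_
  have h9 := norm_sub_le (-(e3 * (I * B (k + 1) + B k)) + -(e3 * (I * B (k + 2) + B (k + 1))) +
        2 * I * Real.sqrt 2 * t)
        (e3 * (I * ((r k - 1 : ℝ) : ℂ) * B (k + 1) + ((r (k + 1) - 1 : ℝ) : ℂ) * B k))
  linarith

lemma sqrt3_ge : (17320508 : ℝ) / 10000000 ≤ Real.sqrt 3 :=
  Real.le_sqrt_of_sq_le (by norm_num)

lemma sqrt3_le : Real.sqrt 3 ≤ (17320509 : ℝ) / 10000000 :=
  Real.sqrt_le_iff.2 ⟨by norm_num, by norm_num⟩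

/-- `A = (2/3) T` -/
noncomputable def pA (r : ℝ) (B : ℂ) (r' : ℝ) (B' : ℂ) : ℝ := 2 / 3 * pT r B r' B'

lemma pA_eq (r : ℝ) (B : ℂ) (r' : ℝ) (B' : ℂ) :
    pA r B r' B' = sn * (r * r') - (e1 * B * (starRingEnd ℂ) B').re := by
  unfold pA pT
  ring

lemma abs_re_le (B B' : ℂ) : |(e1 * B * (starRingEnd ℂ) B').re| ≤ ‖B‖ * ‖B'‖ := by
  refine (abs_re_le_norm _).trans ?_
  rw [norm_mul, norm_mul, norm_e1, norm_conj, one_mul]

/-- real coordinates of `theta A - C` -/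
lemma real_core {s c h3 m r r' p q p' q' θ lam del : ℝ} (h3p : 0 < h3) (hr : 1 ≤ r) (hr' : 1 ≤ r')
    (hm : m = r * r') (hlam : lam = h3 * s - θ * c) (hdel : del = θ * s - h3 * (1 - c))
    (hdel0 : 458 / 1000000 ≤ del) (hlam2 : lam ^ 2 ≤ 5123 / 100000)
    (h3l : 17320508 / 10000000 ≤ h3) (h3u : h3 ≤ 17320509 / 10000000)
    (hb : p ^ 2 + q ^ 2 ≤ 389 / 100000) (hb' : p' ^ 2 + q' ^ 2 ≤ 389 / 100000)
    (hd : 0 ≤ r ^ 2 - (p ^ 2 + q ^ 2) - 1) (hd' : 0 ≤ r' ^ 2 - (p' ^ 2 + q' ^ 2) - 1)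
    (hdd : (r ^ 2 - (p ^ 2 + q ^ 2) - 1) + (r' ^ 2 - (p' ^ 2 + q' ^ 2) - 1) ≤ 357 / 10000) :
    h3 / 2 * ((r ^ 2 - (p ^ 2 + q ^ 2)) + (r' ^ 2 - (p' ^ 2 + q' ^ 2)) - 2 * c * m
      - 2 * (s * (p * p' + q * q') + c * (q * p' - p * q'))) ≤
      θ * (s * m - (c * (p * p' + q * q') - s * (q * p' - p * q'))) := by
  -- the difference of the r
  have h1 : (r - r') ^ 2 ≤ 3919 / 10000000 := by
    have e : (r - r') ^ 2 * (r + r') ^ 2 = (r ^ 2 - r' ^ 2) ^ 2 := by ring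
    have e2 : (r ^ 2 - r' ^ 2) ^ 2 ≤ (3959 / 100000) ^ 2 := by
      apply sq_le_sq'
      · linarith [sq_nonneg p, sq_nonneg q]
      · linarith [sq_nonneg p', sq_nonneg q']
    have e3 : 4 ≤ (r + r') ^ 2 := by nlinarith
    have e4 : (r - r') ^ 2 * 4 ≤ (r - r') ^ 2 * (r + r') ^ 2 :=
      mul_le_mul_of_nonneg_left e3 (sq_nonneg _)
    linarith
  -- completing the squares
  have h2 : -(lam ^ 2 / (2 * h3)) * (p' ^ 2 + q' ^ 2) ≤
      h3 / 2 * ((p - q') ^ 2 + (q + p') ^ 2) + lam * (p * p' + q * q') := by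
    have e1 : h3 / 2 * ((p - q') ^ 2 + (q + p') ^ 2) + lam * (p * p' + q * q') +
        lam ^ 2 / (2 * h3) * (p' ^ 2 + q' ^ 2) =
        h3 / 2 * ((p - q' + lam / h3 * p') ^ 2 + (q + p' + lam / h3 * q') ^ 2) := by
      field_simp
      ring
    have e2 : 0 ≤ h3 / 2 * ((p - q' + lam / h3 * p') ^ 2 + (q + p' + lam / h3 * q') ^ 2) := by
      positivity
    linarith
  have h4 : lam ^ 2 / (2 * h3) * (p' ^ 2 + q' ^ 2) ≤ 576 / 10000000 := by
    have e1 : lam ^ 2 / (2 * h3) ≤ 14790 / 1000000 := by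
      rw [div_le_iff₀ (by positivity)]
      linarith
    have e2 : 0 ≤ lam ^ 2 / (2 * h3) := by positivity
    have e3 : 0 ≤ p' ^ 2 + q' ^ 2 := by positivity
    have e4 : lam ^ 2 / (2 * h3) * (p' ^ 2 + q' ^ 2) ≤ 14790 / 1000000 * (389 / 100000) :=
      mul_le_mul e1 hb' e3 (by norm_num)
    linarith
  have h5 : 1 ≤ m := by
    rw [hm]
    have := mul_le_mul hr hr' (by norm_num) (by linarith)
    linarith
  have h6 : -(389 / 100000) ≤ q * p' - p * q' := by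
    have e1 := sq_nonneg (q + p')
    have e2 := sq_nonneg (p - q')
    have e3 : (q + p') ^ 2 + (p - q') ^ 2 =
        (p ^ 2 + q ^ 2) + (p' ^ 2 + q' ^ 2) + 2 * (q * p' - p * q') := by ring
    linarith
  have h7 : 456 / 1000000 ≤ del * (m + (q * p' - p * q')) := by
    have e1 : (99611 : ℝ) / 100000 ≤ m + (q * p' - p * q') := by linarith
    have e2 : 458 / 1000000 * ((99611 : ℝ) / 100000) ≤ del * (m + (q * p' - p * q')) :=
      mul_le_mul hdel0 e1 (by norm_num) (by linarith)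
    linarith
  have h8 : h3 / 2 * (r - r') ^ 2 ≤ 3395 / 10000000 := by
    have e1 : h3 / 2 ≤ 86602545 / 100000000 := by linarith
    have e2 : h3 / 2 * (r - r') ^ 2 ≤ 86602545 / 100000000 * (3919 / 10000000) :=
      mul_le_mul e1 h1 (sq_nonneg _) (by norm_num)
    linarith
  have key : θ * (s * m - (c * (p * p' + q * q') - s * (q * p' - p * q'))) -
      h3 / 2 * ((r ^ 2 - (p ^ 2 + q ^ 2)) + (r' ^ 2 - (p' ^ 2 + q' ^ 2)) - 2 * c * m
      - 2 * (s * (p * p' + q * q') + c * (q * p' - p * q'))) =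
      del * (m + (q * p' - p * q')) - h3 / 2 * (r - r') ^ 2 +
      (h3 / 2 * ((p - q') ^ 2 + (q + p') ^ 2) + lam * (p * p' + q * q')) := by
    rw [hdel, hlam, hm]
    ring
  linarith

/-- `C ≤ 0.2298 A` -/
lemma C_le {t : ℝ} {r : ℕ → ℝ} {B : ℕ → ℂ} (h : Cf t r B) {w v : ℝ} {k : ℕ}
    (hp : Pr t w v r B k) :
    pC (r k) (B k) (r (k + 1)) (B (k + 1)) ≤
      2298 / 10000 * pA (r k) (B k) (r (k + 1)) (B (k + 1)) := by
  have ho0 := h.one_le k
  have ho1 := h.one_le (k + 1)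
  have hd0 := h.dd_nonneg k
  have hd1 := h.dd_nonneg (k + 1)
  have hdd := hp.dsum
  have hb0 := hp.nb
  have hb1 := hp.nb'
  rw [pA_eq]
  unfold pC
  unfold dd at hd0 hd1 hdd
  have n0 : normSq (B k) = (B k).re ^ 2 + (B k).im ^ 2 := by rw [normSq_apply]; ring
  have n1 : normSq (B (k + 1)) = (B (k + 1)).re ^ 2 + (B (k + 1)).im ^ 2 := by
    rw [normSq_apply]; ring
  rw [n0] at hb0 hd0 hdd
  rw [n1] at hb1 hd1 hdd
  rw [n0, n1]
  have e1' : (e1 * B k * (starRingEnd ℂ) (B (k + 1))).im =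
      sn * ((B k).re * (B (k + 1)).re + (B k).im * (B (k + 1)).im) +
      cs * ((B k).im * (B (k + 1)).re - (B k).re * (B (k + 1)).im) := by
    simp only [e1, mul_re, mul_im, conj_re, conj_im]
    ring
  have e2' : (e1 * B k * (starRingEnd ℂ) (B (k + 1))).re =
      cs * ((B k).re * (B (k + 1)).re + (B k).im * (B (k + 1)).im) -
      sn * ((B k).im * (B (k + 1)).re - (B k).re * (B (k + 1)).im) := by
    simp only [e1, mul_re, mul_im, conj_re, conj_im]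
    ring
  rw [e1', e2']
  have hs1 := sn_ge
  have hs2 := sn_le
  have hc1 := cs_ge
  have hc2 := cs_le
  have h31 := sqrt3_ge
  have h32 := sqrt3_le
  have key := real_core (s := sn) (c := cs) (h3 := Real.sqrt 3) (m := r k * r (k + 1)) (r := r k)
    (r' := r (k + 1)) (p := (B k).re) (q := (B k).im) (p' := (B (k + 1)).re)
    (q' := (B (k + 1)).im) (θ := 2298 / 10000)
    (lam := Real.sqrt 3 * sn - 2298 / 10000 * cs)
    (del := 2298 / 10000 * sn - Real.sqrt 3 * (1 - cs)) (by linarith) ho0 ho1 rfl rfl rfl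
    (by
      have e : Real.sqrt 3 * (1 - cs) ≤ 17320509 / 10000000 * (340743 / 10000000) :=
        mul_le_mul h32 (by linarith) (by linarith) (by norm_num)
      linarith)
    (by
      have e1 : Real.sqrt 3 * sn ≤ 17320509 / 10000000 * (25882 / 100000) :=
        mul_le_mul h32 hs2 (by linarith) (by norm_num)
      have e2 : 0 ≤ Real.sqrt 3 * sn - 2298 / 10000 * cs := by
        have e3 : 17320508 / 10000000 * (258819 / 1000000) ≤ Real.sqrt 3 * sn :=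
          mul_le_mul h31 hs1 (by norm_num) (by linarith)
        linarith
      have e4 : Real.sqrt 3 * sn - 2298 / 10000 * cs ≤ 226325 / 1000000 := by linarith
      have e5 := pow_le_pow_left₀ e2 e4 2
      linarith)
    h31 h32 hb0 hb1 hd0 hd1 hdd
  exact key

lemma A_ge {t : ℝ} {r : ℕ → ℝ} {B : ℕ → ℂ} (h : Cf t r B) {w v : ℝ} {k : ℕ}
    (hp : Pr t w v r B k) : 1 / 4 ≤ pA (r k) (B k) (r (k + 1)) (B (k + 1)) := by
  rw [pA_eq]
  have h1 := abs_re_le (B k) (B (k + 1))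
  have h2 := (abs_le.1 h1).2
  have h3 := hp.prod
  have h4 : 1 ≤ r k * r (k + 1) := by
    have := mul_le_mul (h.one_le k) (h.one_le (k + 1)) (by norm_num) (by linarith [h.one_le k])
    linarith
  have h5 : sn * 1 ≤ sn * (r k * r (k + 1)) := mul_le_mul_of_nonneg_left h4 sn_pos.le
  have h6 := sn_ge
  linarith

lemma A_le {t : ℝ} {r : ℕ → ℝ} {B : ℕ → ℂ} (_h : Cf t r B) {w v : ℝ} {k : ℕ}
    (hp : Pr t w v r B k) : pA (r k) (B k) (r (k + 1)) (B (k + 1)) ≤ 2671 / 10000 := by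
  rw [pA_eq]
  have h1 := abs_re_le (B k) (B (k + 1))
  have h2 := (abs_le.1 h1).1
  have h3 := hp.prod
  have h4 : r k * r (k + 1) ≤ 1020835 / 1000000 := by
    have e0 := rsq_eq r B k
    have e1 := rsq_eq r B (k + 1)
    have e2 := hp.dsum
    have e3 := hp.sq
    have e4 := sq_nonneg (r k - r (k + 1))
    have e5 : (r k - r (k + 1)) ^ 2 = r k ^ 2 + r (k + 1) ^ 2 - 2 * (r k * r (k + 1)) := by ring
    linarith
  have h5 : sn * (r k * r (k + 1)) ≤ sn * (1020835 / 1000000) :=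
    mul_le_mul_of_nonneg_left h4 sn_pos.le
  have h6 := sn_le
  linarith

lemma K_im_le {t w v : ℝ} {r : ℕ → ℝ} {B : ℕ → ℂ} {k : ℕ} (hp : Pr t w v r B k)
    (hw0 : 0 ≤ w) (hm : 141422 / 100000 * w + 2 * v + 2 / 1000 ≤ 12247 / 10000 * t) :
    |(pK (r k) (B k) (r (k + 1)) (B (k + 1))).im + Real.sqrt 2 * t| ≤ 12247 / 10000 * t - 73 / 100000 ∧
    |(pK (r k) (B k) (r (k + 1)) (B (k + 1))).re| +
      Real.sqrt 3 * |(pK (r k) (B k) (r (k + 1)) (B (k + 1))).im + Real.sqrt 2 * t| ≤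
        2 * (12247 / 10000 * t) := by
  set z := pK (r k) (B k) (r (k + 1)) (B (k + 1)) + I * Real.sqrt 2 * t with hz
  have hs2 := sqrt2_le
  have hzn : ‖z‖ ≤ 12247 / 10000 * t - 73 / 100000 := by
    refine hp.kap.trans ?_
    have : Real.sqrt 2 * w ≤ 141422 / 100000 * w :=
      mul_le_mul_of_nonneg_right (by linarith) hw0
    linarith
  have him : z.im = (pK (r k) (B k) (r (k + 1)) (B (k + 1))).im + Real.sqrt 2 * t := by
    rw [hz]; simp
  have hre : z.re = (pK (r k) (B k) (r (k + 1)) (B (k + 1))).re := by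
    rw [hz]; simp
  rw [← him, ← hre]
  refine ⟨(abs_im_le_norm z).trans hzn, ?_⟩
  have h1 : ‖z‖ ^ 2 = z.re ^ 2 + z.im ^ 2 := by
    rw [← normSq_eq_norm_sq, normSq_apply]; ring
  have h2 : |z.re| + Real.sqrt 3 * |z.im| ≤ 2 * ‖z‖ := by
    apply abs_le_of_sq_le_sq' _ (by positivity) |>.2
    have h3 : Real.sqrt 3 ^ 2 = 3 := Real.sq_sqrt (by norm_num)
    have h4 := sq_abs z.re
    have h5 := sq_abs z.im
    have h6 := sq_nonneg (Real.sqrt 3 * |z.re| - |z.im|)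
    have h7 : (Real.sqrt 3 * |z.re| - |z.im|) ^ 2 = Real.sqrt 3 ^ 2 * |z.re| ^ 2 -
      2 * (Real.sqrt 3 * (|z.re| * |z.im|)) + |z.im| ^ 2 := by ring
    have h8 : (|z.re| + Real.sqrt 3 * |z.im|) ^ 2 = |z.re| ^ 2 +
      2 * (Real.sqrt 3 * (|z.re| * |z.im|)) + Real.sqrt 3 ^ 2 * |z.im| ^ 2 := by ring
    rw [h8, mul_pow, h1]
    rw [h7, h3, h4, h5] at h6
    rw [h3, h4, h5]
    linarith
  have h0 : 0 ≤ ‖z‖ := norm_nonneg z
  linarith

/-- the final real inequality -/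
lemma ratio_num {a b x y c d : ℝ} (ha : 1 / 4 ≤ a) (ha' : a ≤ 2671 / 10000) (hb : 1 / 4 ≤ b)
    (hb' : b ≤ 2671 / 10000) (hx : 104 / 10000 ≤ x) (hy : 104 / 10000 ≤ y)
    (hxy : 525 / 10000 ≤ x + y) (hc : c ≤ 2298 / 10000 * a) (hd : d ≤ 2298 / 10000 * b) :
    c / (a + x) + d / (b + y) ≤ 42 / 100 := by
  have h1 : c / (a + x) ≤ 2298 / 10000 * (2671 / 10000) / (2671 / 10000 + x) := by
    rw [div_le_div_iff₀ (by linarith) (by linarith)]
    have e1 : c * (2671 / 10000 + x) ≤ 2298 / 10000 * a * (2671 / 10000 + x) :=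
      mul_le_mul_of_nonneg_right hc (by linarith)
    have e2 : a * x ≤ 2671 / 10000 * x := mul_le_mul_of_nonneg_right ha' (by linarith)
    linarith
  have h2 : d / (b + y) ≤ 2298 / 10000 * (2671 / 10000) / (2671 / 10000 + y) := by
    rw [div_le_div_iff₀ (by linarith) (by linarith)]
    have e1 : d * (2671 / 10000 + y) ≤ 2298 / 10000 * b * (2671 / 10000 + y) :=
      mul_le_mul_of_nonneg_right hd (by linarith)
    have e2 : b * y ≤ 2671 / 10000 * y := mul_le_mul_of_nonneg_right hb' (by linarith)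
    linarith
  have h3 : 1 / (2671 / 10000 + x) + 1 / (2671 / 10000 + y) ≤ 1 / (2775 / 10000) + 1 / (3092 / 10000) := by
    have hp : 0 < 2671 / 10000 + x := by linarith
    have hq : 0 < 2671 / 10000 + y := by linarith
    have e1 : (2775 / 10000) * (x + y + (2671 / 10000 * 2 - 2775 / 10000)) ≤
        (2671 / 10000 + x) * (2671 / 10000 + y) := by
      have := mul_nonneg (sub_nonneg.2 hx) (sub_nonneg.2 hy)
      linarith
    have e2 : 1 / (2671 / 10000 + x) + 1 / (2671 / 10000 + y) =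
        (x + y + 2671 / 10000 * 2) / ((2671 / 10000 + x) * (2671 / 10000 + y)) := by
      field_simp
      ring
    rw [e2, div_le_iff₀ (by positivity)]
    set S := x + y with hS
    have e3 : 0 < S + (2671 / 10000 * 2 - 2775 / 10000) := by linarith
    have e4 : S + 2671 / 10000 * 2 ≤ (1 / (2775 / 10000) + 1 / (3092 / 10000)) *
        ((2775 / 10000) * (S + (2671 / 10000 * 2 - 2775 / 10000))) := by
      linarith
    refine e4.trans ?_
    exact mul_le_mul_of_nonneg_left e1 (by norm_num)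
  have h4 : 2298 / 10000 * (2671 / 10000) / (2671 / 10000 + x) +
      2298 / 10000 * (2671 / 10000) / (2671 / 10000 + y) =
      2298 / 10000 * (2671 / 10000) * (1 / (2671 / 10000 + x) + 1 / (2671 / 10000 + y)) := by
    ring
  have h5 : 2298 / 10000 * (2671 / 10000) * (1 / (2671 / 10000 + x) + 1 / (2671 / 10000 + y)) ≤
      2298 / 10000 * (2671 / 10000) * (1 / (2775 / 10000) + 1 / (3092 / 10000)) :=
    mul_le_mul_of_nonneg_left h3 (by norm_num)
  have h6 : (2298 : ℝ) / 10000 * (2671 / 10000) * (1 / (2775 / 10000) + 1 / (3092 / 10000)) ≤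
      42 / 100 := by norm_num
  linarith

end FinCanonAux

open FinCanonAux

/-- (F10) canonical orientation: `G_0` is the largest -/
theorem fin_canon {t : ℝ} {r : ℕ → ℝ} {B : ℕ → ℂ} (h : Cf t r B) {w v g : ℝ} (hw : w = ‖cx t B‖)
    (hv : v = ‖cy B‖) (hg : g = sig r B) (ht0 : 237 / 10000 ≤ t) (ht : t ≤ 289 / 10000)
    (hwb : w ≤ 167 / 10000) (hvb : v ≤ 152 / 10000) (hgb : g ≤ 357 / 10000)
    (hm : 141422 / 100000 * w + 2 * v + 2 / 1000 ≤ 12247 / 10000 * t) (k : ℕ) :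
    0 < pG0 (r k) (B k) (r (k + 1)) (B (k + 1)) ∧
    pG2 (r k) (B k) (r (k + 1)) (B (k + 1)) ≤ pG0 (r k) (B k) (r (k + 1)) (B (k + 1)) ∧
    pG4 (r k) (B k) (r (k + 1)) (B (k + 1)) ≤ pG0 (r k) (B k) (r (k + 1)) (B (k + 1)) := by
  have hp := pair h hw hv hg ht hwb hgb hm k
  have hw0 : 0 ≤ w := by rw [hw]; exact norm_nonneg _
  have hA := A_ge h hp
  obtain ⟨h1, h2⟩ := K_im_le hp hw0 hm
  have hs2 := sqrt2_ge
  have hs3 := sqrt3_ge
  have hs3' := sqrt3_le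
  set z := pK (r k) (B k) (r (k + 1)) (B (k + 1)) with hz
  have hlow : Real.sqrt 2 * t ≥ 14142135 / 10000000 * t :=
    mul_le_mul_of_nonneg_right hs2 (by linarith)
  have him := (abs_le.1 h1).2
  -- `sqrt 3 * Im K ≤ - |Re K|`
  have hkey : Real.sqrt 3 * z.im ≤ -|z.re| := by
    have e1 : z.im + Real.sqrt 2 * t ≤ |z.im + Real.sqrt 2 * t| := le_abs_self _
    have e2 : Real.sqrt 3 * (z.im + Real.sqrt 2 * t) ≤ Real.sqrt 3 * |z.im + Real.sqrt 2 * t| :=
      mul_le_mul_of_nonneg_left e1 (by linarith)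
    have e3 : 17320508 / 10000000 * (14142135 / 10000000 * t) ≤ Real.sqrt 3 * (Real.sqrt 2 * t) :=
      mul_le_mul hs3 hlow (by linarith) (by linarith)
    have e4 : Real.sqrt 3 * (z.im + Real.sqrt 2 * t) =
      Real.sqrt 3 * z.im + Real.sqrt 3 * (Real.sqrt 2 * t) := by ring
    linarith
  have h3 : Real.sqrt 3 * Real.sqrt 3 = 3 := Real.mul_self_sqrt (by norm_num)
  have hz2 : (z3 * z).im = -(1 / 2) * z.im + Real.sqrt 3 / 2 * z.re := by
    simp only [z3, mul_im]; ring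
  have hz4 : (z3b * z).im = -(1 / 2) * z.im - Real.sqrt 3 / 2 * z.re := by
    simp only [z3b, mul_im]; ring
  have hre1 := neg_abs_le z.re
  have hre2 := le_abs_self z.re
  have hmul : Real.sqrt 3 * (Real.sqrt 3 * z.im) = 3 * z.im := by rw [← mul_assoc, h3]
  refine ⟨?_, ?_, ?_⟩
  · unfold pG0
    rw [← hz]
    unfold pA at hA
    linarith
  · unfold pG2 pG0
    rw [← hz, hz2]
    have e1 : Real.sqrt 3 * (Real.sqrt 3 * z.im) ≤ Real.sqrt 3 * z.re :=
      mul_le_mul_of_nonneg_left (by linarith) (by linarith)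
    linarith
  · unfold pG4 pG0
    rw [← hz, hz4]
    have e1 : Real.sqrt 3 * (Real.sqrt 3 * z.im) ≤ Real.sqrt 3 * (-z.re) :=
      mul_le_mul_of_nonneg_left (by linarith) (by linarith)
    linarith

/-- (F11) canonical ratio bound (true maximum about 0.4082) -/
theorem fin_rc {t : ℝ} {r : ℕ → ℝ} {B : ℕ → ℂ} (h : Cf t r B) {w v g : ℝ} (hw : w = ‖cx t B‖)
    (hv : v = ‖cy B‖) (hg : g = sig r B) (ht0 : 237 / 10000 ≤ t) (ht : t ≤ 289 / 10000)
    (hwb : w ≤ 167 / 10000) (hvb : v ≤ 152 / 10000) (hgb : g ≤ 357 / 10000)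
    (hm : 141422 / 100000 * w + 2 * v + 2 / 1000 ≤ 12247 / 10000 * t) (k : ℕ) :
    rc r B k + rc r B (k + 1) ≤ 42 / 100 := by
  have hp := pair h hw hv hg ht hwb hgb hm k
  have hp' := pair h hw hv hg ht hwb hgb hm (k + 1)
  have hw0 : 0 ≤ w := by rw [hw]; exact norm_nonneg _
  have h1 := (abs_le.1 (K_im_le hp hw0 hm).1).2
  have h1' := (abs_le.1 (K_im_le hp' hw0 hm).1).2
  have h2 := kap2 h hw hv hg ht hwb hgb hm k
  have hs2 := sqrt2_ge
  have hlow : Real.sqrt 2 * t ≥ 14142135 / 10000000 * t :=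
    mul_le_mul_of_nonneg_right hs2 (by linarith)
  have hsum : (pK (r k) (B k) (r (k + 1)) (B (k + 1))).im +
      (pK (r (k + 1)) (B (k + 1)) (r (k + 2)) (B (k + 2))).im + 2 * Real.sqrt 2 * t ≤
      2 * Real.sqrt 2 * v + 254 / 100000 := by
    refine le_trans ?_ h2
    refine le_trans (le_of_eq ?_) (le_trans (le_abs_self _) (abs_im_le_norm _))
    simp
  have hvt : 14142135 / 10000000 * (t - v) ≤ Real.sqrt 2 * (t - v) :=
    mul_le_mul_of_nonneg_right hs2 (by linarith)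
  unfold rc pG0
  exact ratio_num (A_ge h hp) (A_le h hp) (A_ge h hp') (A_le h hp')
    (x := -(2 * (pK (r k) (B k) (r (k + 1)) (B (k + 1))).im))
    (y := -(2 * (pK (r (k + 1)) (B (k + 1)) (r (k + 2)) (B (k + 2))).im))
    (by linarith) (by linarith) (by linarith) (C_le h hp) (C_le h hp')

end Rein83
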