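import Pool.Agent.Rein83.FinSDefs

set_option autoImplicit false

/-! Section F, modules F1 and F2: coordinates, basic facts, inequality S1. -/

namespace Rein83

open Complex Finset Rein69

/-! ### Numerical facts about `sn`, `cs` -/

lemma sn_add_cs : sn + cs = Real.sqrt 6 / 2 := by
  unfold sn cs; ring

lemma cs_sub_sn : cs - sn = Real.sqrt 2 / 2 := by
  unfold sn cs; ring

lemma sqrt6_ge : (24494897 : ℝ) / 10000000 ≤ Real.sqrt 6 :=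
  Real.le_sqrt_of_sq_le (by norm_num)

lemma sqrt6_le : Real.sqrt 6 ≤ (24494898 : ℝ) / 10000000 :=
  Real.sqrt_le_iff.2 ⟨by norm_num, by norm_num⟩

lemma sqrt2_ge : (14142135 : ℝ) / 10000000 ≤ Real.sqrt 2 :=
  Real.le_sqrt_of_sq_le (by norm_num)

lemma sqrt2_le : Real.sqrt 2 ≤ (14142136 : ℝ) / 10000000 :=
  Real.sqrt_le_iff.2 ⟨by norm_num, by norm_num⟩

lemma sn_ge : (258819 : ℝ) / 1000000 ≤ sn := by
  unfold sn; linarith [sqrt6_ge, sqrt2_le]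

lemma sn_le : sn ≤ (25882 : ℝ) / 100000 := by
  unfold sn; linarith [sqrt6_le, sqrt2_ge]

lemma cs_ge : (9659258 : ℝ) / 10000000 - 1 / 10000000 ≤ cs := by
  unfold cs; linarith [sqrt6_ge, sqrt2_ge]

lemma cs_le : cs ≤ (9659259 : ℝ) / 10000000 := by
  unfold cs; linarith [sqrt6_le, sqrt2_le]

lemma sn_pos : 0 < sn := by linarith [sn_ge]

lemma cs_pos : 0 < cs := by linarith [cs_ge]

lemma sn_sq_add_cs_sq : sn ^ 2 + cs ^ 2 = 1 := by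
  have h6 : Real.sqrt 6 ^ 2 = 6 := Real.sq_sqrt (by norm_num)
  have h2 : Real.sqrt 2 ^ 2 = 2 := Real.sq_sqrt (by norm_num)
  unfold sn cs
  linear_combination (1 / 8) * h6 + (1 / 8) * h2

lemma sn_mul_cs : sn * cs = 1 / 4 := by
  have h6 : Real.sqrt 6 ^ 2 = 6 := Real.sq_sqrt (by norm_num)
  have h2 : Real.sqrt 2 ^ 2 = 2 := Real.sq_sqrt (by norm_num)
  unfold sn cs
  linear_combination (1 / 16) * h6 - (1 / 16) * h2

/-! ### Coordinates -/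

/-- (F1) real coordinates -/
theorem Cf.coords {t : ℝ} {r : ℕ → ℝ} {B : ℕ → ℂ} (h : Cf t r B) : ∃ x1 x2 y1 y2 : ℝ,
    cx t B = ⟨x1, x2⟩ ∧ cy B = ⟨y1, y2⟩ ∧ B 0 = ⟨t - x1, -x2⟩ ∧
    B 1 = ⟨t + x1 - 2 * y2, x2 + 2 * y1⟩ ∧ B 2 = ⟨t - x1, -x2⟩ ∧
    B 3 = ⟨t + x1 + 2 * y2, x2 - 2 * y1⟩ := by
  have hs := h.sum
  have h02 := h.B02
  have h4 : B 1 - B 3 = 4 * I * cy B := by
    unfold cy
    field_simp
  have h1 : B 1 = t + cx t B + 2 * I * cy B := by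
    unfold cx
    rw [← h02] at hs
    linear_combination (1 / 2) * hs + (1 / 2) * h4
  have h3 : B 3 = t + cx t B - 2 * I * cy B := by
    linear_combination h1 - h4
  have h0 : B 0 = t - cx t B := by
    unfold cx
    ring
  refine ⟨(cx t B).re, (cx t B).im, (cy B).re, (cy B).im, rfl, rfl, ?_, ?_, ?_, ?_⟩
  · conv_lhs => rw [h0]
    apply Complex.ext <;> simp
  · conv_lhs => rw [h1]
    apply Complex.ext
    · simp
      ring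
    · simp
  · rw [← h02]
    conv_lhs => rw [h0]
    apply Complex.ext <;> simp
  · conv_lhs => rw [h3]
    apply Complex.ext
    · simp
    · simp

/-! ### Basic facts -/

/-- sum of the squares of the differences of consecutive `r` -/
noncomputable def Sg (r : ℕ → ℝ) : ℝ := ∑ k ∈ range 4, (r k - r (k + 1)) ^ 2

/-- the excess of the `k`-th determinant -/
noncomputable def dd (r : ℕ → ℝ) (B : ℕ → ℂ) (k : ℕ) : ℝ := r k ^ 2 - normSq (B k) - 1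

theorem Cf.dd_nonneg {t : ℝ} {r : ℕ → ℝ} {B : ℕ → ℂ} (h : Cf t r B) (k : ℕ) : 0 ≤ dd r B k := by
  have := h.D1 k
  unfold dd
  linarith

theorem rsq_eq (r : ℕ → ℝ) (B : ℕ → ℂ) (k : ℕ) : r k ^ 2 = 1 + dd r B k + normSq (B k) := by
  unfold dd
  ring

theorem Cf.one_le {t : ℝ} {r : ℕ → ℝ} {B : ℕ → ℂ} (h : Cf t r B) (k : ℕ) : 1 ≤ r k := by
  have h1 := h.D1 k
  have h2 := h.rpos k
  have h3 := normSq_nonneg (B k)
  nlinarith

/-- bound of `u k = r k - 1` -/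
theorem Cf.u_le {t : ℝ} {r : ℕ → ℝ} {B : ℕ → ℂ} (h : Cf t r B) (k : ℕ) :
    r k - 1 ≤ (dd r B k + normSq (B k)) / 2 := by
  have h1 := h.one_le k
  have h2 := rsq_eq r B k
  nlinarith

theorem sig_eq (r : ℕ → ℝ) (B : ℕ → ℂ) : sig r B = dd r B 0 + dd r B 1 + dd r B 2 + dd r B 3 := by
  simp only [sig, dd, sum_range_succ, sum_range_zero, zero_add]

theorem Cf.sig_nonneg {t : ℝ} {r : ℕ → ℝ} {B : ℕ → ℂ} (h : Cf t r B) : 0 ≤ sig r B := by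
  rw [sig_eq]
  linarith [h.dd_nonneg 0, h.dd_nonneg 1, h.dd_nonneg 2, h.dd_nonneg 3]

theorem Cf.r4 {t : ℝ} {r : ℕ → ℝ} {B : ℕ → ℂ} (h : Cf t r B) : r 4 = r 0 := h.rper 0

theorem Cf.B4 {t : ℝ} {r : ℕ → ℝ} {B : ℕ → ℂ} (h : Cf t r B) : B 4 = B 0 := h.Bper 0

/-- the sum of the `|B k|²` -/
theorem Cf.sum_normSq {t : ℝ} {r : ℕ → ℝ} {B : ℕ → ℂ} (h : Cf t r B) :
    normSq (B 0) + normSq (B 1) + normSq (B 2) + normSq (B 3) =
      4 * (t ^ 2 + ‖cx t B‖ ^ 2 + 2 * ‖cy B‖ ^ 2) := by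
  obtain ⟨x1, x2, y1, y2, hx, hy, h0, h1, h2, h3⟩ := h.coords
  rw [← normSq_eq_norm_sq, ← normSq_eq_norm_sq, hx, hy, h0, h1, h2, h3]
  simp only [normSq_mk]
  ring

/-- the sum of the `r k ²` -/
theorem Cf.sum_rsq {t : ℝ} {r : ℕ → ℝ} {B : ℕ → ℂ} (h : Cf t r B) :
    r 0 ^ 2 + r 1 ^ 2 + r 2 ^ 2 + r 3 ^ 2 =
      4 + sig r B + 4 * (t ^ 2 + ‖cx t B‖ ^ 2 + 2 * ‖cy B‖ ^ 2) := by
  rw [← h.sum_normSq, sig_eq, rsq_eq r B 0, rsq_eq r B 1, rsq_eq r B 2, rsq_eq r B 3]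
  ring

theorem Cf.Sg_eq {t : ℝ} {r : ℕ → ℝ} {B : ℕ → ℂ} (h : Cf t r B) :
    Sg r = (r 0 - r 1) ^ 2 + (r 1 - r 2) ^ 2 + (r 2 - r 3) ^ 2 + (r 3 - r 0) ^ 2 := by
  simp only [Sg, sum_range_succ, sum_range_zero, zero_add]
  rw [h.r4]

/-- the sum of the products of consecutive `r` -/
theorem Cf.sum_rr {t : ℝ} {r : ℕ → ℝ} {B : ℕ → ℂ} (h : Cf t r B) :
    r 0 * r 1 + r 1 * r 2 + r 2 * r 3 + r 3 * r 0 =
      4 + sig r B + 4 * (t ^ 2 + ‖cx t B‖ ^ 2 + 2 * ‖cy B‖ ^ 2) - Sg r / 2 := by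
  rw [← h.sum_rsq, h.Sg_eq]
  ring

/-- the sum of the real parts -/
theorem Cf.sum_re {t : ℝ} {r : ℕ → ℝ} {B : ℕ → ℂ} (h : Cf t r B) :
    (e1 * B 0 * (starRingEnd ℂ) (B 1)).re + (e1 * B 1 * (starRingEnd ℂ) (B 2)).re
      + (e1 * B 2 * (starRingEnd ℂ) (B 3)).re + (e1 * B 3 * (starRingEnd ℂ) (B 0)).re =
      4 * cs * (t ^ 2 - ‖cx t B‖ ^ 2) := by
  obtain ⟨x1, x2, y1, y2, hx, hy, h0, h1, h2, h3⟩ := h.coords
  rw [← normSq_eq_norm_sq, hx, h0, h1, h2, h3]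
  simp only [normSq_mk, e1, mul_re, mul_im, conj_re, conj_im]
  ring

/-- the sum of the imaginary parts -/
theorem Cf.sum_im {t : ℝ} {r : ℕ → ℝ} {B : ℕ → ℂ} (h : Cf t r B) :
    (e1 * B 0 * (starRingEnd ℂ) (B 1)).im + (e1 * B 1 * (starRingEnd ℂ) (B 2)).im
      + (e1 * B 2 * (starRingEnd ℂ) (B 3)).im + (e1 * B 3 * (starRingEnd ℂ) (B 0)).im =
      4 * sn * (t ^ 2 - ‖cx t B‖ ^ 2) := by
  obtain ⟨x1, x2, y1, y2, hx, hy, h0, h1, h2, h3⟩ := h.coords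
  rw [← normSq_eq_norm_sq, hx, h0, h1, h2, h3]
  simp only [normSq_mk, e1, mul_re, mul_im, conj_re, conj_im]
  ring

/-- exact formula for the sum of the `T` -/
theorem Cf.sum_T {t : ℝ} {r : ℕ → ℝ} {B : ℕ → ℂ} (h : Cf t r B) :
    sT r B = 6 * sn + 3 / 2 * sn * sig r B + 6 * (sn + cs) * ‖cx t B‖ ^ 2
      + 12 * sn * ‖cy B‖ ^ 2 - 6 * (cs - sn) * t ^ 2 - 3 / 4 * sn * Sg r := by
  have h1 : sT r B = 3 / 2 * (sn * (r 0 * r 1 + r 1 * r 2 + r 2 * r 3 + r 3 * r 0)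
      - ((e1 * B 0 * (starRingEnd ℂ) (B 1)).re + (e1 * B 1 * (starRingEnd ℂ) (B 2)).re
      + (e1 * B 2 * (starRingEnd ℂ) (B 3)).re + (e1 * B 3 * (starRingEnd ℂ) (B 0)).re)) := by
    simp only [sT, pT, sum_range_succ, sum_range_zero, zero_add]
    rw [h.r4, h.B4]
    ring
  rw [h1, h.sum_rr, h.sum_re]
  ring

/-- bound of the sum of the squares of the differences -/
theorem Cf.Sg_le {t : ℝ} {r : ℕ → ℝ} {B : ℕ → ℂ} (h : Cf t r B) :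
    Sg r ≤ sig r B ^ 2 + 32 * (‖cy B‖ ^ 2 + t * ‖cx t B‖) ^ 2
      + 32 * ‖cy B‖ ^ 2 * (t + ‖cx t B‖) ^ 2 := by
  have hdiff : ∀ k l : ℕ, (r k - r l) ^ 2 ≤ (r k ^ 2 - r l ^ 2) ^ 2 / 4 := by
    intro k l
    have h1 := h.one_le k
    have h2 := h.one_le l
    have h3 : (r k ^ 2 - r l ^ 2) ^ 2 = (r k - r l) ^ 2 * (r k + r l) ^ 2 := by ring
    rw [h3]
    have h4 : 4 ≤ (r k + r l) ^ 2 := by nlinarith only [h1, h2]
    have h5 := mul_le_mul_of_nonneg_left h4 (sq_nonneg (r k - r l))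
    linarith only [h5]
  obtain ⟨x1, x2, y1, y2, hx, hy, h0, h1, h2, h3⟩ := h.coords
  set w := ‖cx t B‖ with hw
  set v := ‖cy B‖ with hv
  have hw0 : 0 ≤ w := norm_nonneg _
  have hv0 : 0 ≤ v := norm_nonneg _
  have ht0 := h.t0
  have hw2 : w ^ 2 = x1 ^ 2 + x2 ^ 2 := by
    rw [hw, ← normSq_eq_norm_sq, hx, normSq_mk]
    ring
  have hv2 : v ^ 2 = y1 ^ 2 + y2 ^ 2 := by
    rw [hv, ← normSq_eq_norm_sq, hy, normSq_mk]
    ring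
  have hx1 : |x1| ≤ w := abs_le_of_sq_le_sq (by nlinarith [sq_nonneg x2]) hw0
  have hy2 : |y2| ≤ v := abs_le_of_sq_le_sq (by nlinarith [sq_nonneg y1]) hv0
  -- the two combinations
  set a : ℝ := t * x1 + v ^ 2 with ha
  set b : ℝ := x2 * y1 - y2 * (t + x1) with hb
  have ha2 : a ^ 2 ≤ (v ^ 2 + t * w) ^ 2 := by
    have h5 : |a| ≤ v ^ 2 + t * w := by
      rw [ha]
      refine (abs_add_le _ _).trans ?_
      rw [abs_mul, abs_of_nonneg ht0, abs_of_nonneg (sq_nonneg v)]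
      have := mul_le_mul_of_nonneg_left hx1 ht0
      linarith
    exact sq_le_sq' (by linarith [neg_abs_le a]) (by linarith [le_abs_self a])
  have hb2 : b ^ 2 ≤ v ^ 2 * (t + w) ^ 2 := by
    have h5 : |x2 * y1 - y2 * x1| ≤ v * w := by
      apply abs_le_of_sq_le_sq _ (by positivity)
      rw [mul_pow, hv2, hw2]
      nlinarith [sq_nonneg (x1 * y1 + x2 * y2)]
    have h6 : |b| ≤ v * (t + w) := by
      have h7 : b = (x2 * y1 - y2 * x1) + -(t * y2) := by rw [hb]; ring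
      rw [h7]
      refine (abs_add_le _ _).trans ?_
      rw [abs_neg, abs_mul, abs_of_nonneg ht0]
      have := mul_le_mul_of_nonneg_left hy2 ht0
      linarith
    have h8 : b ^ 2 ≤ (v * (t + w)) ^ 2 :=
      sq_le_sq' (by linarith [neg_abs_le b]) (by linarith [le_abs_self b])
    rwa [mul_pow] at h8
  -- the squares
  have hN0 : normSq (B 0) = (t - x1) ^ 2 + x2 ^ 2 := by rw [h0, normSq_mk]; ring
  have hN1 : normSq (B 1) = normSq (B 0) + 4 * (a + b) := by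
    rw [hN0, h1, normSq_mk, ha, hb, hv2]; ring
  have hN2 : normSq (B 2) = normSq (B 0) := by rw [h.B02]
  have hN3 : normSq (B 3) = normSq (B 0) + 4 * (a - b) := by
    rw [hN0, h3, normSq_mk, ha, hb, hv2]; ring
  have hd0 := h.dd_nonneg 0
  have hd1 := h.dd_nonneg 1
  have hd2 := h.dd_nonneg 2
  have hd3 := h.dd_nonneg 3
  have e0 := rsq_eq r B 0
  have e1' := rsq_eq r B 1
  have e2' := rsq_eq r B 2
  have e3' := rsq_eq r B 3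
  rw [hN1] at e1'
  rw [hN2] at e2'
  rw [hN3] at e3'
  set d0 := dd r B 0
  set d1 := dd r B 1
  set d2 := dd r B 2
  set d3 := dd r B 3
  have g01 : (r 0 - r 1) ^ 2 ≤ (d0 ^ 2 + d1 ^ 2) / 2 + 8 * (a + b) ^ 2 := by
    refine (hdiff 0 1).trans ?_
    have e : r 0 ^ 2 - r 1 ^ 2 = (d0 - d1) - 4 * (a + b) := by rw [e0, e1']; ring
    rw [e]
    linarith only [sq_nonneg ((d0 - d1) + 4 * (a + b)), mul_nonneg hd0 hd1]
  have g12 : (r 1 - r 2) ^ 2 ≤ (d1 ^ 2 + d2 ^ 2) / 2 + 8 * (a + b) ^ 2 := by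
    refine (hdiff 1 2).trans ?_
    have e : r 1 ^ 2 - r 2 ^ 2 = (d1 - d2) + 4 * (a + b) := by rw [e1', e2']; ring
    rw [e]
    linarith only [sq_nonneg ((d1 - d2) - 4 * (a + b)), mul_nonneg hd1 hd2]
  have g23 : (r 2 - r 3) ^ 2 ≤ (d2 ^ 2 + d3 ^ 2) / 2 + 8 * (a - b) ^ 2 := by
    refine (hdiff 2 3).trans ?_
    have e : r 2 ^ 2 - r 3 ^ 2 = (d2 - d3) - 4 * (a - b) := by rw [e2', e3']; ring
    rw [e]
    linarith only [sq_nonneg ((d2 - d3) + 4 * (a - b)), mul_nonneg hd2 hd3]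
  have g30 : (r 3 - r 0) ^ 2 ≤ (d3 ^ 2 + d0 ^ 2) / 2 + 8 * (a - b) ^ 2 := by
    refine (hdiff 3 0).trans ?_
    have e : r 3 ^ 2 - r 0 ^ 2 = (d3 - d0) + 4 * (a - b) := by rw [e3', e0]; ring
    rw [e]
    linarith only [sq_nonneg ((d3 - d0) - 4 * (a - b)), mul_nonneg hd3 hd0]
  have hsq : d0 ^ 2 + d1 ^ 2 + d2 ^ 2 + d3 ^ 2 ≤ sig r B ^ 2 := by
    rw [sig_eq]
    linarith only [mul_nonneg hd0 hd1, mul_nonneg hd0 hd2, mul_nonneg hd0 hd3, mul_nonneg hd1 hd2,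
      mul_nonneg hd1 hd3, mul_nonneg hd2 hd3]
  have hab : 16 * (a + b) ^ 2 + 16 * (a - b) ^ 2 = 32 * a ^ 2 + 32 * b ^ 2 := by ring
  rw [h.Sg_eq]
  have hfin : 32 * v ^ 2 * (t + w) ^ 2 = 32 * (v ^ 2 * (t + w) ^ 2) := by ring
  rw [hfin]
  linarith

/-- (F2) inequality S1 -/
theorem fin_S1 {t : ℝ} {r : ℕ → ℝ} {B : ℕ → ℂ} (h : Cf t r B) {w v g : ℝ} (hw : w = ‖cx t B‖)
    (hv : v = ‖cy B‖) (hg : g = sig r B) (hT : sT r B ≤ 15630273 / 10000000) :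
    2588 / 10000 * g + 48989 / 10000 * w ^ 2 + 20705 / 10000 * v ^ 2 ≤
      6743 / 1000000 + 28285 / 10000 * t ^ 2 + 12942 / 100000 * (g ^ 2 + 32 * (v ^ 2 + t * w) ^ 2
        + 32 * v ^ 2 * (t + w) ^ 2) := by
  have h1 := h.sum_T
  have h2 := h.Sg_le
  have h3 := h.sig_nonneg
  rw [← hw, ← hv, ← hg] at h1 h2
  rw [← hg] at h3
  have hs1 := sn_ge
  have hs2 := sn_le
  have hsc : 6 * (sn + cs) = 3 * Real.sqrt 6 := by rw [sn_add_cs]; ring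
  have hcs : 6 * (cs - sn) = 3 * Real.sqrt 2 := by rw [cs_sub_sn]; ring
  rw [hsc, hcs] at h1
  have hG0 : 0 ≤ Sg r := sum_nonneg fun k _ => sq_nonneg _
  have a1 : sn * Sg r ≤ 25882 / 100000 * (g ^ 2 + 32 * (v ^ 2 + t * w) ^ 2
        + 32 * v ^ 2 * (t + w) ^ 2) := mul_le_mul hs2 h2 hG0 (by norm_num)
  have a2 : 258819 / 1000000 * g ≤ sn * g := mul_le_mul_of_nonneg_right hs1 h3
  have a3 : 24494897 / 10000000 * w ^ 2 ≤ Real.sqrt 6 * w ^ 2 :=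
    mul_le_mul_of_nonneg_right sqrt6_ge (sq_nonneg w)
  have a4 : 258819 / 1000000 * v ^ 2 ≤ sn * v ^ 2 := mul_le_mul_of_nonneg_right hs1 (sq_nonneg v)
  have a5 : Real.sqrt 2 * t ^ 2 ≤ 14142136 / 10000000 * t ^ 2 :=
    mul_le_mul_of_nonneg_right sqrt2_le (sq_nonneg t)
  have b1 : 0 ≤ w ^ 2 := sq_nonneg w
  have b2 : 0 ≤ v ^ 2 := sq_nonneg v
  have b3 : 0 ≤ t ^ 2 := sq_nonneg t
  rw [h1] at hT
  have b4 : 0 ≤ g ^ 2 + 32 * (v ^ 2 + t * w) ^ 2 + 32 * v ^ 2 * (t + w) ^ 2 := by positivity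
  linarith only [hT, a1, a2, a3, a4, a5, b1, b2, b3, b4, h3, hs1, hs2]

end Rein83
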