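import Pool.Agent.Rein83.FinRDefs
import Pool.Agent.Rein83.FinS1

set_option autoImplicit false

/-! Section F: the bound `Gh` and the first ratio bound (modules F7 and F8). -/

namespace Rein83

open Complex Finset Rein69

namespace FR0

lemma norm_one_of {z : ℂ} (h : normSq z = 1) : ‖z‖ = 1 := by
  have h1 : ‖z‖ ^ 2 = 1 := by rw [← normSq_eq_norm_sq, h]
  have h2 := norm_nonneg z
  nlinarith

lemma norm_e3 : ‖e3‖ = 1 := by
  apply norm_one_of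
  simp only [e3, normSq_mk]
  have := Real.sq_sqrt (show (0 : ℝ) ≤ 2 by norm_num)
  nlinarith

lemma norm_z3 : ‖z3‖ = 1 := by
  apply norm_one_of
  simp only [z3, normSq_mk]
  have := Real.sq_sqrt (show (0 : ℝ) ≤ 3 by norm_num)
  nlinarith

lemma norm_z3b : ‖z3b‖ = 1 := by
  apply norm_one_of
  simp only [z3b, normSq_mk]
  have := Real.sq_sqrt (show (0 : ℝ) ≤ 3 by norm_num)
  nlinarith

lemma neg_im_le (z K : ℂ) (hz : ‖z‖ = 1) : -(2 * (z * K).im) ≤ 2 * ‖K‖ := by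
  have h1 := abs_im_le_norm (z * K)
  rw [norm_mul, hz, one_mul] at h1
  have h2 := neg_abs_le (z * K).im
  linarith

/-- `K' = i B' + B` -/
lemma sq_K' (B B' : ℂ) : ‖I * B' + B‖ ^ 2 =
    ‖B‖ ^ 2 + ‖B'‖ ^ 2 + 2 * (B * (starRingEnd ℂ) B').im := by
  rw [← normSq_eq_norm_sq, ← normSq_eq_norm_sq, ← normSq_eq_norm_sq]
  simp only [normSq_apply, add_re, add_im, mul_re, mul_im, conj_re, conj_im, I_re, I_im]
  ring

lemma re_ge (B B' : ℂ) : -(‖I * B' + B‖ * ‖B'‖) ≤ (B * (starRingEnd ℂ) B').re := by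
  have h1 : (B * (starRingEnd ℂ) B').re = ((I * B' + B) * (starRingEnd ℂ) B').re := by
    simp only [add_re, add_im, mul_re, mul_im, conj_re, conj_im, I_re, I_im]
    ring
  rw [h1]
  have h2 := abs_re_le_norm ((I * B' + B) * (starRingEnd ℂ) B')
  rw [norm_mul, RCLike.norm_conj] at h2
  have h3 := neg_abs_le ((I * B' + B) * (starRingEnd ℂ) B').re
  linarith

lemma re_ge' (B B' : ℂ) : -(‖I * B' + B‖ * ‖B‖) ≤ (B * (starRingEnd ℂ) B').re := by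
  have h1 : (B * (starRingEnd ℂ) B').re = (I * B * (starRingEnd ℂ) (I * B' + B)).re := by
    simp only [add_re, add_im, mul_re, mul_im, conj_re, conj_im, I_re, I_im]
    ring
  rw [h1]
  have h2 := abs_re_le_norm (I * B * (starRingEnd ℂ) (I * B' + B))
  rw [norm_mul, RCLike.norm_conj, norm_mul, norm_I, one_mul] at h2
  have h3 := neg_abs_le (I * B * (starRingEnd ℂ) (I * B' + B)).re
  nlinarith

lemma norm_pK_ge {r r' : ℝ} (hr : 1 ≤ r) (hr' : 1 ≤ r') (B B' : ℂ) :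
    ‖I * B' + B‖ - (r - 1) * ‖B'‖ - (r' - 1) * ‖B‖ ≤ ‖pK r B r' B'‖ := by
  have h0 : ‖pK r B r' B'‖ = ‖I * r * B' + r' * B‖ := by
    unfold pK
    rw [norm_neg, norm_mul, norm_e3, one_mul]
  have h1 : I * B' + B = (I * r * B' + r' * B) - ((I * ((r - 1 : ℝ) : ℂ) * B') + ((r' - 1 : ℝ) : ℂ) * B) := by
    push_cast
    ring
  have h2 : ‖I * ((r - 1 : ℝ) : ℂ) * B'‖ = (r - 1) * ‖B'‖ := by
    rw [norm_mul, norm_mul, norm_I, one_mul, norm_real, Real.norm_of_nonneg (by linarith)]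
  have h3 : ‖((r' - 1 : ℝ) : ℂ) * B‖ = (r' - 1) * ‖B‖ := by
    rw [norm_mul, norm_real, Real.norm_of_nonneg (by linarith)]
  have h4 := norm_sub_le (I * r * B' + r' * B) ((I * ((r - 1 : ℝ) : ℂ) * B') + ((r' - 1 : ℝ) : ℂ) * B)
  rw [← h1] at h4
  have h5 := norm_add_le (I * ((r - 1 : ℝ) : ℂ) * B') (((r' - 1 : ℝ) : ℂ) * B)
  rw [h2, h3] at h5
  rw [h0]
  linarith

/-- lower bound for the product `r r'` -/
lemma rr_ge {r r' d d' a b : ℝ} (hr : 1 ≤ r) (hr' : 1 ≤ r') (h1 : r ^ 2 = 1 + d + a)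
    (h2 : r' ^ 2 = 1 + d' + b) :
    1 + (d + d' + a + b) / 2 - ((d - d') ^ 2 + (a - b) ^ 2) / 4 ≤ r * r' := by
  have h3 : r * r' = (r ^ 2 + r' ^ 2) / 2 - (r - r') ^ 2 / 2 := by ring
  have h4 : (r - r') ^ 2 * (r + r') ^ 2 = ((d - d') + (a - b)) ^ 2 := by
    have : (r - r') * (r + r') = (d - d') + (a - b) := by linear_combination h1 - h2
    rw [← this]
    ring
  have h5 : 4 ≤ (r + r') ^ 2 := by nlinarith only [hr, hr']
  have h6 : (r - r') ^ 2 * 4 ≤ ((d - d') + (a - b)) ^ 2 := by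
    rw [← h4]
    exact mul_le_mul_of_nonneg_left h5 (sq_nonneg _)
  have h7 : ((d - d') + (a - b)) ^ 2 ≤ 2 * (d - d') ^ 2 + 2 * (a - b) ^ 2 := by
    linarith only [sq_nonneg ((d - d') - (a - b))]
  rw [h3, h1, h2]
  linarith only [h6, h7]

end FR0

/-- (F7) `Gh` bounds the three `G` -/
theorem pG_le {r : ℕ → ℝ} {B : ℕ → ℂ} (k : ℕ) :
    pG0 (r k) (B k) (r (k + 1)) (B (k + 1)) ≤ Gh r B k ∧ pG2 (r k) (B k) (r (k + 1)) (B (k + 1)) ≤ Gh r B k ∧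
      pG4 (r k) (B k) (r (k + 1)) (B (k + 1)) ≤ Gh r B k := by
  unfold pG0 pG2 pG4 Gh
  refine ⟨?_, ?_, ?_⟩
  · have h := FR0.neg_im_le 1 (pK (r k) (B k) (r (k + 1)) (B (k + 1))) norm_one
    rw [one_mul] at h
    linarith
  · have h := FR0.neg_im_le z3 (pK (r k) (B k) (r (k + 1)) (B (k + 1))) FR0.norm_z3
    linarith
  · have h := FR0.neg_im_le z3b (pK (r k) (B k) (r (k + 1)) (B (k + 1))) FR0.norm_z3b
    linarith

namespace FR0

lemma num : (17338 : ℝ) / 10000 ≤ 235 / 1000 * sn + Real.sqrt 3 * cs ∧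
    235 / 1000 * sn + Real.sqrt 3 * cs ≤ (17339 : ℝ) / 10000 ∧
    (1798 : ℝ) / 1000000 ≤ 235 / 1000 * sn + Real.sqrt 3 * cs - Real.sqrt 3 ∧
    Real.sqrt 3 * sn - 235 / 1000 * cs ≤ (2214 : ℝ) / 10000 ∧
    0 ≤ Real.sqrt 3 * sn - 235 / 1000 * cs := by
  have hs := sn_ge
  have hs' := sn_le
  have hc := cs_ge
  have hc' := cs_le
  have h3l : (17320508 : ℝ) / 10000000 ≤ Real.sqrt 3 := by
    apply Real.le_sqrt_of_sq_le
    norm_num
  have h3u : Real.sqrt 3 ≤ (17320509 : ℝ) / 10000000 := by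
    rw [Real.sqrt_le_left (by norm_num)]
    norm_num
  refine ⟨?_, ?_, ?_, ?_, ?_⟩ <;> nlinarith

/-- the ratio bound for two consecutive nodes -/
lemma pair {r r' : ℝ} {B B' : ℂ} (hr : 1 ≤ r) (hr' : 1 ≤ r') {d d' : ℝ}
    (hd : 0 ≤ d) (hd' : 0 ≤ d') (hdd : d + d' ≤ 43 / 1000) (h1 : r ^ 2 = 1 + d + ‖B‖ ^ 2)
    (h2 : r' ^ 2 = 1 + d' + ‖B'‖ ^ 2) (hB : ‖B‖ ≤ 232 / 1000) (hB' : ‖B'‖ ≤ 232 / 1000)
    (hm : ‖B‖ ≤ 83 / 1000 ∨ ‖B'‖ ≤ 83 / 1000) :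
    0 < 2 / 3 * pT r B r' B' + 2 * ‖pK r B r' B'‖ ∧
      pC r B r' B' ≤ 235 / 1000 * (2 / 3 * pT r B r' B' + 2 * ‖pK r B r' B'‖) := by
  set p := (B * (starRingEnd ℂ) B').re with hp
  set q := (B * (starRingEnd ℂ) B').im with hq
  set K := ‖pK r B r' B'‖ with hK
  set k1 := ‖I * B' + B‖ with hk1
  have hK0 : 0 ≤ K := norm_nonneg _
  have hk0 : 0 ≤ k1 := norm_nonneg _
  have hb0 : 0 ≤ ‖B‖ := norm_nonneg _
  have hb0' : 0 ≤ ‖B'‖ := norm_nonneg _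
  have hT : 2 / 3 * pT r B r' B' = sn * (r * r') - cs * p + sn * q := by
    unfold pT
    have : (e1 * B * (starRingEnd ℂ) B').re = cs * p - sn * q := by
      rw [hp, hq]
      simp only [e1, mul_re, mul_im, conj_re, conj_im]
      ring
    rw [this]
    ring
  have hC : pC r B r' B' = Real.sqrt 3 / 2 * (2 + d + d' - 2 * cs * (r * r') - 2 * (sn * p + cs * q)) := by
    unfold pC
    have : (e1 * B * (starRingEnd ℂ) B').im = sn * p + cs * q := by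
      rw [hp, hq]
      simp only [e1, mul_re, mul_im, conj_re, conj_im]
      ring
    rw [this, normSq_eq_norm_sq, normSq_eq_norm_sq, h1, h2]
    ring
  have hkk : k1 ^ 2 = ‖B‖ ^ 2 + ‖B'‖ ^ 2 + 2 * q := sq_K' B B'
  have hp1 : -(k1 * (83 / 1000)) ≤ p := by
    rcases hm with hm | hm
    · have := re_ge' B B'
      nlinarith only [this, hm, hk0]
    · have := re_ge B B'
      nlinarith only [this, hm, hk0]
  have hrho := rr_ge hr hr' h1 h2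
  have hbb : ‖B‖ * ‖B'‖ ≤ 83 / 1000 * (232 / 1000) := by
    rcases hm with hm | hm
    · exact mul_le_mul hm hB' hb0' (by norm_num)
    · rw [mul_comm]
      exact mul_le_mul hm hB hb0 (by norm_num)
  have hsum : ‖B‖ + ‖B'‖ ≤ 315 / 1000 := by
    rcases hm with hm | hm <;> linarith
  have hpa : |p| ≤ ‖B‖ * ‖B'‖ := by
    have := abs_re_le_norm (B * (starRingEnd ℂ) B')
    rwa [norm_mul, RCLike.norm_conj] at this
  have hqa : |q| ≤ ‖B‖ * ‖B'‖ := by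
    have := abs_im_le_norm (B * (starRingEnd ℂ) B')
    rwa [norm_mul, RCLike.norm_conj] at this
  -- bound of the difference of the norms
  have hdiff : (‖B‖ - ‖B'‖) ^ 2 ≤ k1 ^ 2 := by
    rw [hkk]
    have := neg_abs_le q
    linarith only [this, hqa]
  have hab : (‖B‖ ^ 2 - ‖B'‖ ^ 2) ^ 2 ≤ k1 ^ 2 * (1 / 10) := by
    have e : (‖B‖ ^ 2 - ‖B'‖ ^ 2) ^ 2 = (‖B‖ - ‖B'‖) ^ 2 * (‖B‖ + ‖B'‖) ^ 2 := by ring
    rw [e]
    exact mul_le_mul hdiff (by nlinarith only [hsum, hb0, hb0']) (sq_nonneg _) (sq_nonneg _)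
  have hd2 : (d - d') ^ 2 ≤ 1849 / 1000000 := by
    nlinarith only [hd, hd', hdd]
  have hrr1 : 1 ≤ r * r' := by nlinarith only [hr, hr']
  -- lower bound of `K`
  have hKge : k1 - 98 / 10000 ≤ K := by
    have h5 := norm_pK_ge hr hr' B B'
    have h6 : r - 1 ≤ (d + ‖B‖ ^ 2) / 2 := by nlinarith only [h1, hr]
    have h7 : r' - 1 ≤ (d' + ‖B'‖ ^ 2) / 2 := by nlinarith only [h2, hr']
    have h8 : (r - 1) * ‖B'‖ ≤ (d + ‖B‖ ^ 2) / 2 * ‖B'‖ := mul_le_mul_of_nonneg_right h6 hb0'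
    have h9 : (r' - 1) * ‖B‖ ≤ (d' + ‖B'‖ ^ 2) / 2 * ‖B‖ := mul_le_mul_of_nonneg_right h7 hb0
    have h10 : d * ‖B'‖ ≤ d * (232 / 1000) := mul_le_mul_of_nonneg_left hB' hd
    have h11 : d' * ‖B‖ ≤ d' * (232 / 1000) := mul_le_mul_of_nonneg_left hB hd'
    have h12 : ‖B‖ * ‖B'‖ * (‖B‖ + ‖B'‖) ≤ 83 / 1000 * (232 / 1000) * (315 / 1000) :=
      mul_le_mul hbb hsum (by positivity) (by norm_num)
    have h13 : (d + ‖B‖ ^ 2) / 2 * ‖B'‖ + (d' + ‖B'‖ ^ 2) / 2 * ‖B‖ =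
        (d * ‖B'‖ + d' * ‖B‖) / 2 + ‖B‖ * ‖B'‖ * (‖B‖ + ‖B'‖) / 2 := by ring
    linarith
  have hs := sn_ge
  have hs' := sn_le
  have hc := cs_ge
  have hc' := cs_le
  refine ⟨?_, ?_⟩
  · rw [hT]
    have e1 := neg_abs_le q
    have e2 := le_abs_self p
    have e3 : sn * 1 ≤ sn * (r * r') := mul_le_mul_of_nonneg_left hrr1 sn_pos.le
    have e4 : cs * p ≤ cs * (83 / 1000 * (232 / 1000)) :=
      mul_le_mul_of_nonneg_left (by linarith) cs_pos.le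
    have e5 : sn * (-(83 / 1000 * (232 / 1000))) ≤ sn * q :=
      mul_le_mul_of_nonneg_left (by linarith) sn_pos.le
    linarith
  · -- main inequality
    rw [hT, hC]
    set w3 := Real.sqrt 3 with hw3
    obtain ⟨hkap, hkap', hkd, hlam, hlam0⟩ := num
    rw [← hw3] at hkap hkap' hkd hlam hlam0
    -- (235/1000)(..) - C = kap * rho - w3/2 (2 + d + d') + lam p + kap q + 0.47 K
    have e1 : (235 / 1000 * sn + w3 * cs) *
        (1 + (d + d' + ‖B‖ ^ 2 + ‖B'‖ ^ 2) / 2 - ((d - d') ^ 2 + (‖B‖ ^ 2 - ‖B'‖ ^ 2) ^ 2) / 4) ≤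
        (235 / 1000 * sn + w3 * cs) * (r * r') :=
      mul_le_mul_of_nonneg_left hrho (by linarith)
    have e2 : (w3 * sn - 235 / 1000 * cs) * (-(k1 * (83 / 1000))) ≤ (w3 * sn - 235 / 1000 * cs) * p :=
      mul_le_mul_of_nonneg_left hp1 hlam0
    have e3 : (w3 * sn - 235 / 1000 * cs) * (k1 * (83 / 1000)) ≤ (2214 : ℝ) / 10000 * (k1 * (83 / 1000)) :=
      mul_le_mul_of_nonneg_right hlam (by positivity)
    have e4 : (235 / 1000 * sn + w3 * cs) * (((d - d') ^ 2 + (‖B‖ ^ 2 - ‖B'‖ ^ 2) ^ 2) / 4) ≤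
        (17339 : ℝ) / 10000 * ((1849 / 1000000 + k1 ^ 2 * (1 / 10)) / 4) :=
      mul_le_mul hkap' (by linarith) (by positivity) (by norm_num)
    have e5 : (17338 : ℝ) / 10000 * (k1 ^ 2 / 2) ≤ (235 / 1000 * sn + w3 * cs) * (k1 ^ 2 / 2) :=
      mul_le_mul_of_nonneg_right hkap (by positivity)
    have e6 : (1798 : ℝ) / 1000000 * (1 + (d + d') / 2) ≤
        (235 / 1000 * sn + w3 * cs - w3) * (1 + (d + d') / 2) :=
      mul_le_mul_of_nonneg_right hkd (by positivity)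
    have e7 : (235 / 1000 * sn + w3 * cs) * q = (235 / 1000 * sn + w3 * cs) * (k1 ^ 2 / 2)
        - (235 / 1000 * sn + w3 * cs) * ((‖B‖ ^ 2 + ‖B'‖ ^ 2) / 2) := by
      rw [hkk]
      ring
    linarith [sq_nonneg k1]

lemma per {t : ℝ} {r : ℕ → ℝ} {B : ℕ → ℂ} (h : Cf t r B) (j q : ℕ) :
    r (j + 4 * q) = r j ∧ B (j + 4 * q) = B j := by
  induction q with
  | zero => simp
  | succ q ih =>
    have e : j + 4 * (q + 1) = (j + 4 * q) + 4 := by ring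
    rw [e, h.rper, h.Bper]
    exact ih

lemma norm_B0 {t : ℝ} {r : ℕ → ℝ} {B : ℕ → ℂ} (h : Cf t r B) : ‖B 0‖ ≤ t + ‖cx t B‖ := by
  have e : B 0 = (t : ℂ) - cx t B := by
    unfold cx
    ring
  calc ‖B 0‖ = ‖(t : ℂ) - cx t B‖ := by rw [← e]
    _ ≤ ‖(t : ℂ)‖ + ‖cx t B‖ := norm_sub_le _ _
    _ = t + ‖cx t B‖ := by rw [norm_real, Real.norm_of_nonneg h.t0]

lemma B1_eq {t : ℝ} {r : ℕ → ℝ} {B : ℕ → ℂ} (h : Cf t r B) :
    B 1 = (t : ℂ) + cx t B + 2 * I * cy B ∧ B 3 = (t : ℂ) + cx t B - 2 * I * cy B := by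
  have hs := h.sum
  have h2 := h.B02
  have hI : (I : ℂ) ≠ 0 := I_ne_zero
  have hy : 4 * I * cy B = B 1 - B 3 := by
    unfold cy
    field_simp
  have hx : B 0 = (t : ℂ) - cx t B := by
    unfold cx
    ring
  have hsum : B 1 + B 3 = 2 * (t : ℂ) + 2 * cx t B := by
    rw [← h2, hx] at hs
    linear_combination hs
  constructor
  · linear_combination hsum / 2 - hy / 2
  · linear_combination hsum / 2 + hy / 2

lemma norm_two_I (z : ℂ) : ‖2 * I * z‖ = 2 * ‖z‖ := by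
  rw [norm_mul, norm_mul, norm_I, mul_one, Complex.norm_two]

lemma norm_B1 {t : ℝ} {r : ℕ → ℝ} {B : ℕ → ℂ} (h : Cf t r B) :
    ‖B 1‖ ≤ t + ‖cx t B‖ + 2 * ‖cy B‖ ∧ ‖B 3‖ ≤ t + ‖cx t B‖ + 2 * ‖cy B‖ := by
  obtain ⟨h1, h3⟩ := B1_eq h
  have ht : ‖(t : ℂ)‖ = t := by rw [norm_real, Real.norm_of_nonneg h.t0]
  constructor
  · calc ‖B 1‖ = ‖(t : ℂ) + cx t B + 2 * I * cy B‖ := by rw [← h1]
      _ ≤ ‖(t : ℂ) + cx t B‖ + ‖2 * I * cy B‖ := norm_add_le _ _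
      _ ≤ (‖(t : ℂ)‖ + ‖cx t B‖) + ‖2 * I * cy B‖ := by
          linarith [norm_add_le (t : ℂ) (cx t B)]
      _ = t + ‖cx t B‖ + 2 * ‖cy B‖ := by rw [ht, norm_two_I]
  · calc ‖B 3‖ = ‖(t : ℂ) + cx t B - 2 * I * cy B‖ := by rw [← h3]
      _ ≤ ‖(t : ℂ) + cx t B‖ + ‖2 * I * cy B‖ := norm_sub_le _ _
      _ ≤ (‖(t : ℂ)‖ + ‖cx t B‖) + ‖2 * I * cy B‖ := by
          linarith [norm_add_le (t : ℂ) (cx t B)]
      _ = t + ‖cx t B‖ + 2 * ‖cy B‖ := by rw [ht, norm_two_I]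

/-- the data of two consecutive nodes -/
lemma data {t : ℝ} {r : ℕ → ℝ} {B : ℕ → ℂ} (h : Cf t r B) (k : ℕ) :
    dd r B k + dd r B (k + 1) ≤ sig r B ∧
    ‖B k‖ ≤ t + ‖cx t B‖ + 2 * ‖cy B‖ ∧ ‖B (k + 1)‖ ≤ t + ‖cx t B‖ + 2 * ‖cy B‖ ∧
    (‖B k‖ ≤ t + ‖cx t B‖ ∨ ‖B (k + 1)‖ ≤ t + ‖cx t B‖) := by
  obtain ⟨j, hj, q, rfl⟩ : ∃ j < 4, ∃ q, k = j + 4 * q :=
    ⟨k % 4, Nat.mod_lt _ (by norm_num), k / 4, (Nat.mod_add_div k 4).symm⟩
  have e1 := per h j q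
  have e2 := per h (j + 1) q
  have e3 : j + 4 * q + 1 = j + 1 + 4 * q := by ring
  have e4 : dd r B (j + 4 * q) = dd r B j := by
    unfold dd
    rw [e1.1, e1.2]
  have e5 : dd r B (j + 1 + 4 * q) = dd r B (j + 1) := by
    unfold dd
    rw [e2.1, e2.2]
  rw [e3, e4, e5, e1.2, e2.2, sig_eq]
  have n0 := norm_B0 h
  obtain ⟨n1, n3⟩ := norm_B1 h
  have n2 : ‖B 2‖ ≤ t + ‖cx t B‖ := by
    rw [← h.B02]
    exact n0
  have d0 := h.dd_nonneg 0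
  have d1 := h.dd_nonneg 1
  have d2 := h.dd_nonneg 2
  have d3 := h.dd_nonneg 3
  have hv := norm_nonneg (cy B)
  have n4 : ‖B 4‖ ≤ t + ‖cx t B‖ := by
    rw [h.B4]
    exact n0
  have d4 : dd r B 4 = dd r B 0 := by
    unfold dd
    rw [h.B4, h.r4]
  interval_cases j
  · exact ⟨by simp only [zero_add]; linarith, by linarith, n1, Or.inl n0⟩
  · exact ⟨by norm_num; linarith, n1, by linarith, Or.inr n2⟩
  · exact ⟨by norm_num; linarith, by linarith, n3, Or.inl n2⟩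
  · refine ⟨?_, n3, ?_, Or.inr n4⟩
    · have : dd r B (3 + 1) = dd r B 0 := d4
      rw [this]
      linarith
    · linarith

end FR0

/-- (F8) first ratio bound (true maximum about 0.2294) -/
theorem fin_rt0 {t : ℝ} {r : ℕ → ℝ} {B : ℕ → ℂ} (h : Cf t r B) {w v g : ℝ} (hw : w = ‖cx t B‖)
    (hv : v = ‖cy B‖) (hg : g = sig r B) (ht : t ≤ 36 / 1000) (hwb : w ≤ 47 / 1000)
    (hvb : v ≤ 745 / 10000) (hgb : g ≤ 43 / 1000) (k : ℕ) : 0 < Gh r B k ∧ rt r B k ≤ 235 / 1000 := by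
  subst hw hv hg
  obtain ⟨a1, a2, a3, a4⟩ := FR0.data h k
  have h1 : r k ^ 2 = 1 + dd r B k + ‖B k‖ ^ 2 := by
    rw [rsq_eq r B k, normSq_eq_norm_sq]
  have h2 : r (k + 1) ^ 2 = 1 + dd r B (k + 1) + ‖B (k + 1)‖ ^ 2 := by
    rw [rsq_eq r B (k + 1), normSq_eq_norm_sq]
  have key := FR0.pair (h.one_le k) (h.one_le (k + 1)) (h.dd_nonneg k) (h.dd_nonneg (k + 1))
    (by linarith) h1 h2 (by linarith) (by linarith) (by
      rcases a4 with a4 | a4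
      · exact Or.inl (by linarith)
      · exact Or.inr (by linarith))
  refine ⟨key.1, ?_⟩
  unfold rt
  have h3 : 0 < Gh r B k := key.1
  rw [div_le_iff₀ h3]
  exact key.2

end Rein83
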