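import Pool.Agent.Rein83.FinRDefs
import Pool.Agent.Rein83.FinS1

set_option autoImplicit false

/-! Section F, module F9: second ratio bound. -/

namespace Rein83

open Complex Finset Rein69

namespace FinR1Aux

lemma s3_ge : (17320508 : ℝ) / 10000000 ≤ Real.sqrt 3 := Real.le_sqrt_of_sq_le (by norm_num)

lemma s3_le : Real.sqrt 3 ≤ (17320509 : ℝ) / 10000000 :=
  Real.sqrt_le_iff.2 ⟨by norm_num, by norm_num⟩

lemma e1_re (P : ℂ) : (e1 * P).re = cs * P.re - sn * P.im := by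
  rw [Complex.mul_re]; rfl

lemma e1_im (P : ℂ) : (e1 * P).im = cs * P.im + sn * P.re := by
  rw [Complex.mul_im]; rfl

lemma rr_ge {p q : ℝ} (hp : 1 ≤ p) (hq : 1 ≤ q) :
    (p ^ 2 + q ^ 2) / 2 - (p ^ 2 - q ^ 2) ^ 2 / 8 ≤ p * q := by
  have h1 : 4 ≤ (p + q) ^ 2 := by nlinarith
  have h2 : (p ^ 2 - q ^ 2) ^ 2 = (p - q) ^ 2 * (p + q) ^ 2 := by ring
  have h3 : (p - q) ^ 2 * 4 ≤ (p - q) ^ 2 * (p + q) ^ 2 :=
    mul_le_mul_of_nonneg_left h1 (sq_nonneg _)
  nlinarith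

lemma kap_sq (B B' : ℂ) : ‖I * B' + B‖ ^ 2 =
    normSq B + normSq B' + 2 * (B * (starRingEnd ℂ) B').im := by
  rw [← Complex.normSq_eq_norm_sq]
  simp only [Complex.normSq_apply, Complex.add_re, Complex.add_im, Complex.mul_re, Complex.mul_im,
    Complex.I_re, Complex.I_im, Complex.conj_re, Complex.conj_im]
  ring

lemma re_ge (B B' : ℂ) : -(‖I * B' + B‖ * ‖B'‖) ≤ (B * (starRingEnd ℂ) B').re := by
  have h1 : B * (starRingEnd ℂ) B' = (I * B' + B) * (starRingEnd ℂ) B' - I * (normSq B' : ℂ) := by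
    rw [← Complex.mul_conj]; ring
  have h2 : (B * (starRingEnd ℂ) B').re = ((I * B' + B) * (starRingEnd ℂ) B').re := by
    rw [h1, Complex.sub_re]
    simp
  rw [h2]
  have h3 := Complex.abs_re_le_norm ((I * B' + B) * (starRingEnd ℂ) B')
  rw [norm_mul, Complex.norm_conj] at h3
  exact (abs_le.mp h3).1

lemma m_bd : 17331 / 10000 ≤ 2325 / 10000 * sn + Real.sqrt 3 * cs ∧
    2325 / 10000 * sn + Real.sqrt 3 * cs ≤ 17333 / 10000 ∧
    114 / 100000 ≤ 2325 / 10000 * sn + Real.sqrt 3 * cs - Real.sqrt 3 ∧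
    0 ≤ Real.sqrt 3 * sn - 2325 / 10000 * cs ∧
    Real.sqrt 3 * sn - 2325 / 10000 * cs ≤ 2238 / 10000 := by
  have h1 := s3_ge
  have h2 := s3_le
  have h3 := sn_ge
  have h4 := sn_le
  have h5 := cs_ge
  have h6 := cs_le
  have h7 := cs_pos
  have h8 := sn_pos
  have e1 : Real.sqrt 3 * cs ≤ 17320509 / 10000000 * (9659259 / 10000000) :=
    mul_le_mul h2 h6 h7.le (by norm_num)
  have e2 : 17320508 / 10000000 * ((9659258 : ℝ) / 10000000 - 1 / 10000000) ≤ Real.sqrt 3 * cs :=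
    mul_le_mul h1 h5 (by norm_num) (by linarith)
  have e3 : Real.sqrt 3 * sn ≤ 17320509 / 10000000 * (25882 / 100000) :=
    mul_le_mul h2 h4 h8.le (by norm_num)
  have e4 : 17320508 / 10000000 * ((258819 : ℝ) / 1000000) ≤ Real.sqrt 3 * sn :=
    mul_le_mul h1 h3 (by norm_num) (by linarith)
  have e5 : Real.sqrt 3 * (1 - cs) ≤ 17320509 / 10000000 * (340744 / 10000000) :=
    mul_le_mul h2 (by linarith) (by linarith) (by norm_num)
  refine ⟨by linarith, by linarith, by linarith, by linarith, by linarith⟩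

lemma ratio {r r' : ℝ} {B B' : ℂ} (hr : 1 ≤ r) (hr' : 1 ≤ r') (hD : 1 ≤ r ^ 2 - normSq B)
    (hD' : 1 ≤ r' ^ 2 - normSq B')
    (hs : (r ^ 2 - normSq B) + (r' ^ 2 - normSq B') ≤ 2 + 357 / 10000)
    (hb : ‖B‖ ≤ 761 / 10000) (hb' : ‖B'‖ ≤ 761 / 10000) :
    pC r B r' B' ≤ 2325 / 10000 * (2 / 3 * pT r B r' B') := by
  obtain ⟨hm1, hm1', hm2, hm3, hm4⟩ := m_bd
  set m1 : ℝ := 2325 / 10000 * sn + Real.sqrt 3 * cs with hm1d
  set m2 : ℝ := Real.sqrt 3 * sn - 2325 / 10000 * cs with hm2d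
  have hP1 := kap_sq B B'
  have hP2 := re_ge B B'
  have hK0 := norm_nonneg (I * B' + B)
  set κ : ℝ := ‖I * B' + B‖ with hκ
  set P : ℂ := B * (starRingEnd ℂ) B' with hP
  have hn : normSq B = ‖B‖ ^ 2 := Complex.normSq_eq_norm_sq B
  have hn' : normSq B' = ‖B'‖ ^ 2 := Complex.normSq_eq_norm_sq B'
  have hb0 := norm_nonneg B
  have hb0' := norm_nonneg B'
  have hnb : normSq B ≤ 58 / 10000 := by rw [hn]; nlinarith only [hb, hb0]
  have hnb' : normSq B' ≤ 58 / 10000 := by rw [hn']; nlinarith only [hb', hb0']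
  have hnn : 0 ≤ normSq B := normSq_nonneg _
  have hnn' : 0 ≤ normSq B' := normSq_nonneg _
  have hrr := rr_ge hr hr'
  have hdiff : (r ^ 2 - r' ^ 2) ^ 2 ≤ 174 / 100000 := by
    have h1 : r ^ 2 - r' ^ 2 ≤ 415 / 10000 := by linarith
    have h2 : -(415 / 10000) ≤ r ^ 2 - r' ^ 2 := by linarith
    nlinarith only [h1, h2]
  have hpT : 2 / 3 * pT r B r' B' = sn * (r * r') - (cs * P.re - sn * P.im) := by
    unfold pT
    rw [mul_assoc e1 B, ← hP, e1_re]
    ring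
  have hpC : pC r B r' B' = Real.sqrt 3 / 2 * ((r ^ 2 - normSq B) + (r' ^ 2 - normSq B')
      - 2 * cs * (r * r') - 2 * (cs * P.im + sn * P.re)) := by
    unfold pC
    rw [mul_assoc e1 B, ← hP, e1_im]
  have hkey : 2325 / 10000 * (2 / 3 * pT r B r' B') - pC r B r' B' =
      m1 * (r * r' + P.im) + m2 * P.re
        - Real.sqrt 3 / 2 * ((r ^ 2 - normSq B) + (r' ^ 2 - normSq B')) := by
    rw [hpT, hpC, hm1d, hm2d]
    ring
  have h1 : ((r ^ 2 - normSq B) + (r' ^ 2 - normSq B')) / 2 + κ ^ 2 / 2 - 22 / 100000 ≤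
      r * r' + P.im := by
    rw [hP1]
    linarith
  have h2 : m1 * (((r ^ 2 - normSq B) + (r' ^ 2 - normSq B')) / 2 + κ ^ 2 / 2 - 22 / 100000) ≤
      m1 * (r * r' + P.im) := mul_le_mul_of_nonneg_left h1 (by linarith)
  have h3 : m2 * (-(κ * ‖B'‖)) ≤ m2 * P.re := mul_le_mul_of_nonneg_left hP2 hm3
  have h4 : m2 * (κ * ‖B'‖) ≤ 2238 / 10000 * (κ * (761 / 10000)) :=
    mul_le_mul hm4 (mul_le_mul_of_nonneg_left hb' hK0) (mul_nonneg hK0 hb0') (by norm_num)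
  have h5 : (m1 - Real.sqrt 3) * 1 ≤ (m1 - Real.sqrt 3) *
      (((r ^ 2 - normSq B) + (r' ^ 2 - normSq B')) / 2) :=
    mul_le_mul_of_nonneg_left (by linarith) (by linarith)
  have h6 : 17331 / 10000 * (κ ^ 2 / 2) ≤ m1 * (κ ^ 2 / 2) :=
    mul_le_mul_of_nonneg_right hm1 (by positivity)
  linarith only [hkey, h2, h3, h4, h5, h6, hm1', hm2, hK0, sq_nonneg (κ - 983 / 100000)]

lemma A_bd {r r' : ℝ} {B B' : ℂ} (hr : 1 ≤ r) (hr' : 1 ≤ r')
    (hs : (r ^ 2 - normSq B) + (r' ^ 2 - normSq B') ≤ 2 + 357 / 10000)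
    (hb : normSq B + normSq B' ≤ 79 / 10000) (hbb : ‖B‖ * ‖B'‖ ≤ 347 / 100000) :
    0 < 2 / 3 * pT r B r' B' ∧ 2 / 3 * pT r B r' B' ≤ 2685 / 10000 := by
  have h1 : ‖e1 * B * (starRingEnd ℂ) B'‖ = ‖B‖ * ‖B'‖ := by
    rw [norm_mul, norm_mul, Complex.norm_conj]
    have : ‖e1‖ = 1 := by
      have h2 : ‖e1‖ ^ 2 = 1 := by
        rw [← Complex.normSq_eq_norm_sq, Complex.normSq_apply]
        change cs * cs + sn * sn = 1
        linarith [sn_sq_add_cs_sq]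
      exact (pow_eq_one_iff_of_nonneg (norm_nonneg _) two_ne_zero).1 h2
    rw [this, one_mul]
  have h2 := Complex.abs_re_le_norm (e1 * B * (starRingEnd ℂ) B')
  rw [h1] at h2
  have h3 := abs_le.mp h2
  have h4 : 2 / 3 * pT r B r' B' = sn * (r * r') - (e1 * B * (starRingEnd ℂ) B').re := by
    unfold pT; ring
  have h5 : r * r' ≤ 10219 / 10000 := by linarith only [sq_nonneg (r - r'), hs, hb]
  have h6 : 1 ≤ r * r' := by nlinarith only [hr, hr']
  have h7 := sn_ge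
  have h8 := sn_le
  rw [h4]
  constructor
  · nlinarith
  · nlinarith

/-- values of `B` -/
lemma Bval {t : ℝ} {r : ℕ → ℝ} {B : ℕ → ℂ} (h : Cf t r B) :
    B 0 = t - cx t B ∧ B 1 = t + cx t B + 2 * I * cy B ∧ B 2 = t - cx t B ∧
      B 3 = t + cx t B - 2 * I * cy B := by
  have h0 : B 0 = t - cx t B := by unfold cx; ring
  have h2 : B 2 = t - cx t B := by rw [← h.B02]; exact h0
  have h4 : 4 * (I * cy B) = B 1 - B 3 := by
    unfold cy
    field_simp
  have h5 := h.sum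
  have h6 : B 1 + B 3 = 2 * t + 2 * cx t B := by
    rw [h0, h2] at h5
    linear_combination h5
  refine ⟨h0, ?_, h2, ?_⟩
  · linear_combination (1 / 2 : ℂ) * h6 - (1 / 2 : ℂ) * h4
  · linear_combination (1 / 2 : ℂ) * h6 + (1 / 2 : ℂ) * h4

lemma red {t : ℝ} {r : ℕ → ℝ} {B : ℕ → ℂ} (h : Cf t r B) (k : ℕ) :
    ∃ j, (j = 0 ∨ j = 1 ∨ j = 2 ∨ j = 3) ∧ ∀ i, r (k + i) = r (j + i) ∧ B (k + i) = B (j + i) := by
  induction k using Nat.strong_induction_on with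
  | _ k ih =>
    by_cases hk : k < 4
    · refine ⟨k, by omega, fun i => ⟨rfl, rfl⟩⟩
    · obtain ⟨j, hj, h1⟩ := ih (k - 4) (by omega)
      refine ⟨j, hj, fun i => ?_⟩
      have h2 : k + i = (k - 4 + i) + 4 := by omega
      rw [h2, h.rper, h.Bper]
      exact h1 i

lemma two_le {M p q : ℝ} (hM : 0 < M) (hp : 0 ≤ p) (hq : 0 ≤ q) :
    M / (M + p) + M / (M + q) ≤ 1 + M / (M + (p + q)) := by
  rw [div_add_div _ _ (by positivity) (by positivity), ← sub_le_iff_le_add']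
  have h1 : (M * (M + q) + (M + p) * M) / ((M + p) * (M + q)) - 1 =
      (M ^ 2 - p * q) / ((M + p) * (M + q)) := by
    field_simp
    ring
  rw [h1, div_le_div_iff₀ (by positivity) (by positivity)]
  nlinarith [mul_nonneg hp hq, mul_nonneg (mul_nonneg hp hq) hp, mul_nonneg (mul_nonneg hp hq) hq,
    mul_nonneg (mul_nonneg hp hq) hM.le]

/-- the final step -/
lemma fin {A A' a b : ℝ} (hA : 0 < A) (hA' : 0 < A') (hA1 : A ≤ 2685 / 10000)
    (hA1' : A' ≤ 2685 / 10000) (ha : 0 ≤ a) (hb : 0 ≤ b) (hab : 205 / 10000 ≤ a + b) {C C' : ℝ}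
    (hC : C ≤ 2325 / 10000 * A) (hC' : C' ≤ 2325 / 10000 * A') :
    C / (A + 2 * a) + C' / (A' + 2 * b) ≤ 435 / 1000 := by
  have mono : ∀ A a : ℝ, 0 < A → A ≤ 2685 / 10000 → 0 ≤ a →
      A / (A + 2 * a) ≤ 2685 / 10000 / (2685 / 10000 + 2 * a) := by
    intro A a hA hA1 ha
    rw [div_le_div_iff₀ (by positivity) (by positivity)]
    nlinarith [mul_nonneg ha (sub_nonneg.2 hA1)]
  have h1 : C / (A + 2 * a) ≤ 2325 / 10000 * (2685 / 10000 / (2685 / 10000 + 2 * a)) := by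
    calc C / (A + 2 * a) ≤ 2325 / 10000 * A / (A + 2 * a) :=
          div_le_div_of_nonneg_right hC (by positivity)
      _ = 2325 / 10000 * (A / (A + 2 * a)) := by rw [mul_div_assoc]
      _ ≤ _ := mul_le_mul_of_nonneg_left (mono A a hA hA1 ha) (by norm_num)
  have h2 : C' / (A' + 2 * b) ≤ 2325 / 10000 * (2685 / 10000 / (2685 / 10000 + 2 * b)) := by
    calc C' / (A' + 2 * b) ≤ 2325 / 10000 * A' / (A' + 2 * b) :=
          div_le_div_of_nonneg_right hC' (by positivity)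
      _ = 2325 / 10000 * (A' / (A' + 2 * b)) := by rw [mul_div_assoc]
      _ ≤ _ := mul_le_mul_of_nonneg_left (mono A' b hA' hA1' hb) (by norm_num)
  have h3 := two_le (M := 2685 / 10000) (p := 2 * a) (q := 2 * b) (by norm_num) (by positivity)
    (by positivity)
  have h4 : (2685 : ℝ) / 10000 / (2685 / 10000 + (2 * a + 2 * b)) ≤
      2685 / 10000 / (2685 / 10000 + 410 / 10000) :=
    div_le_div_of_nonneg_left (by norm_num) (by norm_num) (by linarith)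
  have h5 : (2325 : ℝ) / 10000 * (1 + 2685 / 10000 / (2685 / 10000 + 410 / 10000)) ≤ 435 / 1000 := by
    norm_num
  nlinarith

lemma pK_ge {r r' : ℝ} {B B' : ℂ} (hr : 1 ≤ r) (hr' : 1 ≤ r') :
    ‖I * B' + B‖ - ((r - 1) * ‖B'‖ + (r' - 1) * ‖B‖) ≤ ‖pK r B r' B'‖ := by
  have he3 : ‖e3‖ = 1 := by
    have h2 : ‖e3‖ ^ 2 = 1 := by
      rw [← Complex.normSq_eq_norm_sq, Complex.normSq_apply]
      change Real.sqrt 2 / 2 * (Real.sqrt 2 / 2) + Real.sqrt 2 / 2 * (Real.sqrt 2 / 2) = 1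
      have : Real.sqrt 2 ^ 2 = 2 := Real.sq_sqrt (by norm_num)
      linarith
    exact (pow_eq_one_iff_of_nonneg (norm_nonneg _) two_ne_zero).1 h2
  have h1 : ‖pK r B r' B'‖ = ‖I * r * B' + r' * B‖ := by
    unfold pK
    rw [norm_neg, norm_mul, he3, one_mul]
  have h2 : I * B' + B = (I * r * B' + r' * B) - (((r - 1 : ℝ) : ℂ) * (I * B') + ((r' - 1 : ℝ) : ℂ) * B) := by
    push_cast
    ring
  have h3 : ‖((r - 1 : ℝ) : ℂ) * (I * B') + ((r' - 1 : ℝ) : ℂ) * B‖ ≤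
      (r - 1) * ‖B'‖ + (r' - 1) * ‖B‖ := by
    refine (norm_add_le _ _).trans ?_
    rw [norm_mul, norm_mul, norm_mul, Complex.norm_I, one_mul, Complex.norm_real,
      Complex.norm_real, Real.norm_of_nonneg (by linarith), Real.norm_of_nonneg (by linarith)]
  have h4 := norm_sub_le (I * r * B' + r' * B)
    (((r - 1 : ℝ) : ℂ) * (I * B') + ((r' - 1 : ℝ) : ℂ) * B)
  rw [← h2] at h4
  rw [h1]
  linarith

lemma tv {t v : ℝ} {z : ℂ} {y : ℂ} (ht : 0 ≤ t) (hv : ‖y‖ = v) (e : ℂ) (he : ‖e‖ = 1)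
    (hz : z = 2 * (1 + I) * (t + e * y)) : 2828 / 1000 * (t - v) ≤ ‖z‖ ∨ t < v := by
  by_cases htv : t < v
  · exact Or.inr htv
  · left
    push Not at htv
    have h1 : ‖(1 : ℂ) + I‖ ^ 2 = 2 := by
      rw [← Complex.normSq_eq_norm_sq, Complex.normSq_apply]
      norm_num
    have h2 : 1414 / 1000 ≤ ‖(1 : ℂ) + I‖ := by nlinarith [norm_nonneg ((1 : ℂ) + I)]
    have h3 : t - v ≤ ‖(t : ℂ) + e * y‖ := by
      have h4 := norm_sub_le ((t : ℂ) + e * y) (e * y)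
      rw [add_sub_cancel_right, norm_mul, he, one_mul, hv, Complex.norm_real,
        Real.norm_of_nonneg ht] at h4
      linarith
    rw [hz, norm_mul, norm_mul]
    have h5 : ‖(2 : ℂ)‖ = 2 := by norm_num
    rw [h5]
    calc 2828 / 1000 * (t - v) ≤ 2 * ‖(1 : ℂ) + I‖ * (t - v) :=
          mul_le_mul_of_nonneg_right (by linarith) (by linarith)
      _ ≤ _ := mul_le_mul_of_nonneg_left h3 (by positivity)

end FinR1Aux

open FinR1Aux

/-- (F9) second ratio bound (true maximum about 0.4206) -/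
theorem fin_rt1 {t : ℝ} {r : ℕ → ℝ} {B : ℕ → ℂ} (h : Cf t r B) {w v g : ℝ} (hw : w = ‖cx t B‖)
    (hv : v = ‖cy B‖) (hg : g = sig r B) (ht0 : 237 / 10000 ≤ t) (ht : t ≤ 289 / 10000)
    (hwb : w ≤ 167 / 10000) (hvb : v ≤ 152 / 10000) (hgb : g ≤ 357 / 10000) (k : ℕ) :
    rt r B k + rt r B (k + 1) ≤ 435 / 1000 := by
  obtain ⟨hB0, hB1, hB2, hB3⟩ := Bval h
  have htn : ‖(t : ℂ)‖ = t := by rw [Complex.norm_real, Real.norm_of_nonneg h.t0]
  have hI : ‖2 * I * cy B‖ = 2 * v := by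
    rw [norm_mul, norm_mul, Complex.norm_I, hv]; norm_num
  have n0 : ‖B 0‖ ≤ 456 / 10000 := by
    rw [hB0]
    refine (norm_sub_le _ _).trans ?_
    rw [htn, ← hw]; linarith
  have n2 : ‖B 2‖ ≤ 456 / 10000 := by
    rw [hB2]
    refine (norm_sub_le _ _).trans ?_
    rw [htn, ← hw]; linarith
  have n1 : ‖B 1‖ ≤ 760 / 10000 := by
    rw [hB1]
    refine (norm_add_le _ _).trans ?_
    rw [hI]
    have := norm_add_le (t : ℂ) (cx t B)
    rw [htn, ← hw] at this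
    linarith
  have n3 : ‖B 3‖ ≤ 760 / 10000 := by
    rw [hB3]
    refine (norm_sub_le _ _).trans ?_
    rw [hI]
    have := norm_add_le (t : ℂ) (cx t B)
    rw [htn, ← hw] at this
    linarith
  have hsig : dd r B 0 + dd r B 1 + dd r B 2 + dd r B 3 ≤ 357 / 10000 := by
    rw [← sig_eq, ← hg]; exact hgb
  have d0 := h.dd_nonneg 0
  have d1 := h.dd_nonneg 1
  have d2 := h.dd_nonneg 2
  have d3 := h.dd_nonneg 3
  have hr4 : r 4 = r 0 := h.rper 0
  have hB4 : B 4 = B 0 := h.Bper 0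
  have hr5 : r 5 = r 1 := h.rper 1
  have hB5 : B 5 = B 1 := h.Bper 1
  have hd4 : dd r B 4 = dd r B 0 := by unfold dd; rw [hr4, hB4]
  have hd5 : dd r B 5 = dd r B 1 := by unfold dd; rw [hr5, hB5]
  have sq_le : ∀ (z : ℂ) (c : ℝ), ‖z‖ ≤ c → normSq z ≤ c ^ 2 := by
    intro z c hz
    rw [Complex.normSq_eq_norm_sq]
    exact pow_le_pow_left₀ (norm_nonneg _) hz 2
  have q0 := sq_le _ _ n0
  have q1 := sq_le _ _ n1
  have q2 := sq_le _ _ n2
  have q3 := sq_le _ _ n3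
  -- facts for three consecutive nodes
  have key : ∀ j, (j = 0 ∨ j = 1 ∨ j = 2 ∨ j = 3) →
      (‖B j‖ ≤ 761 / 10000 ∧ ‖B (j + 1)‖ ≤ 761 / 10000 ∧ ‖B (j + 2)‖ ≤ 761 / 10000) ∧
      (‖B j‖ * ‖B (j + 1)‖ ≤ 347 / 100000 ∧ ‖B (j + 1)‖ * ‖B (j + 2)‖ ≤ 347 / 100000) ∧
      (normSq (B j) + normSq (B (j + 1)) ≤ 79 / 10000 ∧
        normSq (B (j + 1)) + normSq (B (j + 2)) ≤ 79 / 10000) ∧
      (dd r B j + dd r B (j + 1) ≤ 357 / 10000 ∧ dd r B (j + 1) + dd r B (j + 2) ≤ 357 / 10000) ∧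
      (r j - 1) * ‖B (j + 1)‖ + (r (j + 1) - 1) * ‖B j‖ + ((r (j + 1) - 1) * ‖B (j + 2)‖ +
        (r (j + 2) - 1) * ‖B (j + 1)‖) ≤ 32 / 10000 ∧
      2403 / 100000 ≤ ‖(I * B (j + 1) + B j) + (I * B (j + 2) + B (j + 1))‖ := by
    have ev : ∀ a b c : ℕ, ‖B a‖ ≤ 456 / 10000 → ‖B b‖ ≤ 760 / 10000 → ‖B c‖ ≤ 456 / 10000 →
        dd r B a + dd r B b + dd r B c ≤ 357 / 10000 →
        (r a - 1) * ‖B b‖ + (r b - 1) * ‖B a‖ + ((r b - 1) * ‖B c‖ + (r c - 1) * ‖B b‖) ≤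
          32 / 10000 := by
      intro a b c ha hb hc hd
      have ua := h.u_le a
      have ub := h.u_le b
      have uc := h.u_le c
      have ra := h.one_le a
      have rb := h.one_le b
      have rc' := h.one_le c
      have da := h.dd_nonneg a
      have db := h.dd_nonneg b
      have dc := h.dd_nonneg c
      have qa := sq_le _ _ ha
      have qb := sq_le _ _ hb
      have qc := sq_le _ _ hc
      have m1 : (r a - 1) * ‖B b‖ ≤ ((dd r B a + (456 / 10000) ^ 2) / 2) * (760 / 10000) :=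
        mul_le_mul (by linarith) hb (norm_nonneg _) (by positivity)
      have m2 : (r b - 1) * ‖B a‖ ≤ ((dd r B b + (760 / 10000) ^ 2) / 2) * (456 / 10000) :=
        mul_le_mul (by linarith) ha (norm_nonneg _) (by positivity)
      have m3 : (r b - 1) * ‖B c‖ ≤ ((dd r B b + (760 / 10000) ^ 2) / 2) * (456 / 10000) :=
        mul_le_mul (by linarith) hc (norm_nonneg _) (by positivity)
      have m4 : (r c - 1) * ‖B b‖ ≤ ((dd r B c + (456 / 10000) ^ 2) / 2) * (760 / 10000) :=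
        mul_le_mul (by linarith) hb (norm_nonneg _) (by positivity)
      linarith
    have od : ∀ a b c : ℕ, ‖B a‖ ≤ 760 / 10000 → ‖B b‖ ≤ 456 / 10000 → ‖B c‖ ≤ 760 / 10000 →
        dd r B a + dd r B b + dd r B c ≤ 357 / 10000 →
        (r a - 1) * ‖B b‖ + (r b - 1) * ‖B a‖ + ((r b - 1) * ‖B c‖ + (r c - 1) * ‖B b‖) ≤
          32 / 10000 := by
      intro a b c ha hb hc hd
      have ua := h.u_le a
      have ub := h.u_le b
      have uc := h.u_le c
      have ra := h.one_le a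
      have rb := h.one_le b
      have rc' := h.one_le c
      have da := h.dd_nonneg a
      have db := h.dd_nonneg b
      have dc := h.dd_nonneg c
      have qa := sq_le _ _ ha
      have qb := sq_le _ _ hb
      have qc := sq_le _ _ hc
      have m1 : (r a - 1) * ‖B b‖ ≤ ((dd r B a + (760 / 10000) ^ 2) / 2) * (456 / 10000) :=
        mul_le_mul (by linarith) hb (norm_nonneg _) (by positivity)
      have m2 : (r b - 1) * ‖B a‖ ≤ ((dd r B b + (456 / 10000) ^ 2) / 2) * (760 / 10000) :=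
        mul_le_mul (by linarith) ha (norm_nonneg _) (by positivity)
      have m3 : (r b - 1) * ‖B c‖ ≤ ((dd r B b + (456 / 10000) ^ 2) / 2) * (760 / 10000) :=
        mul_le_mul (by linarith) hc (norm_nonneg _) (by positivity)
      have m4 : (r c - 1) * ‖B b‖ ≤ ((dd r B c + (760 / 10000) ^ 2) / 2) * (456 / 10000) :=
        mul_le_mul (by linarith) hb (norm_nonneg _) (by positivity)
      linarith
    have pr : ∀ x y : ℂ, ‖x‖ ≤ 456 / 10000 → ‖y‖ ≤ 760 / 10000 → ‖x‖ * ‖y‖ ≤ 347 / 100000 ∧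
        ‖y‖ * ‖x‖ ≤ 347 / 100000 := by
      intro x y hx hy
      have : ‖x‖ * ‖y‖ ≤ 456 / 10000 * (760 / 10000) :=
        mul_le_mul hx hy (norm_nonneg _) (by norm_num)
      constructor <;> linarith
    have tvv : ∀ z e : ℂ, ‖e‖ = 1 → z = 2 * (1 + I) * (t + e * cy B) → 2403 / 100000 ≤ ‖z‖ := by
      intro z e he hz
      rcases tv h.t0 hv.symm e he hz with h1 | h1
      · linarith
      · linarith
    rintro j (rfl | rfl | rfl | rfl)
    · refine ⟨⟨by linarith, by linarith, by linarith⟩, ⟨(pr _ _ n0 n1).1, (pr _ _ n2 n1).2⟩,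
        ⟨by norm_num at q0 q1 ⊢; linarith, by norm_num at q2 q1 ⊢; linarith⟩,
        ⟨by norm_num; linarith, by norm_num; linarith⟩,
        ev 0 1 2 n0 n1 n2 (by linarith), ?_⟩
      refine tvv _ I Complex.norm_I ?_
      change (I * B 1 + B 0) + (I * B 2 + B 1) = _
      rw [hB0, hB1, hB2]
      linear_combination (2 * cy B - 2 * cy B) * Complex.I_sq
    · refine ⟨⟨by linarith, by linarith, by linarith⟩, ⟨(pr _ _ n2 n1).2, (pr _ _ n2 n3).1⟩,
        ⟨by norm_num at q1 q2 ⊢; linarith, by norm_num at q2 q3 ⊢; linarith⟩,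
        ⟨by norm_num; linarith, by norm_num; linarith⟩,
        od 1 2 3 n1 n2 n3 (by linarith), ?_⟩
      refine tvv _ 1 norm_one ?_
      change (I * B 2 + B 1) + (I * B 3 + B 2) = _
      rw [hB1, hB2, hB3]
      linear_combination (-2 * cy B) * Complex.I_sq
    · refine ⟨⟨by linarith, by linarith, by rw [hB4]; linarith⟩,
        ⟨(pr _ _ n2 n3).1, by rw [hB4]; exact (pr _ _ n0 n3).2⟩,
        ⟨by norm_num at q2 q3 ⊢; linarith, by rw [hB4]; norm_num at q0 q3 ⊢; linarith⟩,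
        ⟨by norm_num; linarith, by rw [hd4]; norm_num; linarith⟩,
        ev 2 3 4 n2 n3 (by rw [hB4]; exact n0) (by rw [hd4]; linarith), ?_⟩
      refine tvv _ (-I) (by rw [norm_neg, Complex.norm_I]) ?_
      change (I * B 3 + B 2) + (I * B 4 + B 3) = _
      rw [hB4, hB0, hB2, hB3]
      linear_combination (0 : ℂ) * Complex.I_sq
    · refine ⟨⟨by linarith, by rw [hB4]; linarith, by rw [hB5]; linarith⟩,
        ⟨by rw [hB4]; exact (pr _ _ n0 n3).2, by rw [hB4, hB5]; exact (pr _ _ n0 n1).1⟩,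
        ⟨by rw [hB4]; norm_num at q0 q3 ⊢; linarith, by rw [hB4, hB5]; norm_num at q0 q1 ⊢; linarith⟩,
        ⟨by rw [hd4]; linarith, by rw [hd4, hd5]; linarith⟩,
        od 3 4 5 n3 (by rw [hB4]; exact n0) (by rw [hB5]; exact n1) (by rw [hd4, hd5]; linarith), ?_⟩
      refine tvv _ (-1) (by rw [norm_neg, norm_one]) ?_
      change (I * B 4 + B 3) + (I * B 5 + B 4) = _
      rw [hB4, hB5, hB0, hB1, hB3]
      linear_combination (2 * cy B) * Complex.I_sq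
  obtain ⟨j, hj, hper⟩ := red h k
  have hrt : rt r B k + rt r B (k + 1) = rt r B j + rt r B (j + 1) := by
    have p0 := hper 0
    have p1 := hper 1
    have p2 := hper 2
    simp only [add_zero] at p0
    simp only [rt, Gh, show k + 1 + 1 = k + 2 by rfl, show j + 1 + 1 = j + 2 by rfl, p0.1, p0.2,
      p1.1, p1.2, p2.1, p2.2]
  rw [hrt]
  obtain ⟨⟨b0, b1, b2⟩, ⟨bb0, bb1⟩, ⟨nn0, nn1⟩, ⟨dd0, dd1⟩, hcor, hK⟩ := key j hj
  have r0 := h.one_le j
  have r1 := h.one_le (j + 1)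
  have r2 := h.one_le (j + 2)
  have D0 := h.D1 j
  have D1 := h.D1 (j + 1)
  have D2 := h.D1 (j + 2)
  have s0 : (r j ^ 2 - normSq (B j)) + (r (j + 1) ^ 2 - normSq (B (j + 1))) ≤ 2 + 357 / 10000 := by
    unfold dd at dd0; linarith
  have s1 : (r (j + 1) ^ 2 - normSq (B (j + 1))) + (r (j + 2) ^ 2 - normSq (B (j + 2))) ≤
      2 + 357 / 10000 := by
    unfold dd at dd1; linarith
  have A0 := A_bd r0 r1 s0 nn0 bb0
  have A1 := A_bd r1 r2 s1 nn1 bb1
  have C0 := ratio r0 r1 D0 D1 s0 b0 b1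
  have C1 := ratio r1 r2 D1 D2 s1 b1 b2
  have K0 := pK_ge (B := B j) (B' := B (j + 1)) r0 r1
  have K1 := pK_ge (B := B (j + 1)) (B' := B (j + 2)) r1 r2
  have Ks := norm_add_le (I * B (j + 1) + B j) (I * B (j + 2) + B (j + 1))
  exact fin A0.1 A1.1 A0.2 A1.2 (norm_nonneg _) (norm_nonneg _) (by linarith) C0 C1

end Rein83
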