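import Pool.Agent.Rein83.FinSDefs

set_option autoImplicit false

/-! Section F, module F4: inequality S3. -/

namespace Rein83

open Complex Finset Rein69

namespace S3Aux

lemma q_sq : Real.sqrt 3 ^ 2 = 3 := Real.sq_sqrt (by norm_num)

lemma sq2 : Real.sqrt 2 ^ 2 = 2 := Real.sq_sqrt (by norm_num)

lemma sq6 : Real.sqrt 6 ^ 2 = 6 := Real.sq_sqrt (by norm_num)

lemma s23 : Real.sqrt 6 = Real.sqrt 2 * Real.sqrt 3 := by
  rw [← Real.sqrt_mul (by norm_num)]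
  norm_num

lemma q_cs : Real.sqrt 3 * cs = 2 * cs - sn := by
  have h := s23
  have h3 := q_sq
  unfold cs sn
  rw [h]
  linear_combination (Real.sqrt 2 / 4) * h3

lemma q_sn : Real.sqrt 3 * sn = cs - 2 * sn := by
  have h := s23
  have h3 := q_sq
  unfold cs sn
  rw [h]
  linear_combination (Real.sqrt 2 / 4) * h3

lemma cs_sn : cs ^ 2 + sn ^ 2 = 1 := by
  have h2 := sq2
  have h6 := sq6
  unfold cs sn
  linear_combination (1 / 8) * h2 + (1 / 8) * h6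

lemma b2 : 14142135 / 10000000 ≤ Real.sqrt 2 ∧ Real.sqrt 2 ≤ 14142136 / 10000000 := by
  constructor
  · apply Real.le_sqrt_of_sq_le; norm_num
  · rw [Real.sqrt_le_left (by norm_num)]; norm_num

lemma b3 : 17320508 / 10000000 ≤ Real.sqrt 3 ∧ Real.sqrt 3 ≤ 17320509 / 10000000 := by
  constructor
  · apply Real.le_sqrt_of_sq_le; norm_num
  · rw [Real.sqrt_le_left (by norm_num)]; norm_num

lemma b6 : 24494897 / 10000000 ≤ Real.sqrt 6 ∧ Real.sqrt 6 ≤ 24494898 / 10000000 := by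
  constructor
  · apply Real.le_sqrt_of_sq_le; norm_num
  · rw [Real.sqrt_le_left (by norm_num)]; norm_num

lemma bs : 2588190 / 10000000 ≤ sn ∧ sn ≤ 2588191 / 10000000 := by
  obtain ⟨h1, h2⟩ := b2
  obtain ⟨h3, h4⟩ := b6
  unfold sn
  constructor <;> linarith

lemma bc : 9659258 / 10000000 ≤ cs ∧ cs ≤ 9659259 / 10000000 := by
  obtain ⟨h1, h2⟩ := b2
  obtain ⟨h3, h4⟩ := b6
  unfold cs
  constructor <;> linarith

lemma bd : cs - sn ≤ 7071068 / 10000000 := by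
  obtain ⟨h1, h2⟩ := b2
  unfold cs sn
  linarith

lemma norm_le_one {z : ℂ} (h : z.re ^ 2 + z.im ^ 2 ≤ 1) : ‖z‖ ≤ 1 := by
  rw [← Real.sqrt_one, Complex.norm_def]
  apply Real.sqrt_le_sqrt
  rw [Complex.normSq_apply]
  linarith

lemma n_e1 : ‖e1‖ ≤ 1 := norm_le_one (by have := cs_sn; simp only [e1]; linarith)

lemma n_e2 : ‖e2‖ ≤ 1 := norm_le_one (by have := q_sq; simp only [e2]; linarith)

lemma n_om : ‖om‖ ≤ 1 := norm_le_one (by have := q_sq; simp only [om]; linarith)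

lemma n_mul {a b : ℂ} (ha : ‖a‖ ≤ 1) (hb : ‖b‖ ≤ 1) : ‖a * b‖ ≤ 1 := by
  rw [norm_mul]
  exact mul_le_one₀ ha (norm_nonneg _) hb

lemma n_neg {a : ℂ} (ha : ‖a‖ ≤ 1) : ‖-a‖ ≤ 1 := by rwa [norm_neg]

lemma im_le {E z : ℂ} {a W : ℝ} (hE : ‖E‖ ≤ 1) (ha : 0 ≤ a) (hz : ‖z‖ ≤ W) :
    (E * ((a : ℂ) * z)).im ≤ a * W := by
  have h1 : ‖E * ((a : ℂ) * z)‖ ≤ a * W := by
    rw [norm_mul, norm_mul, Complex.norm_real, Real.norm_eq_abs, abs_of_nonneg ha]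
    have h2 : a * ‖z‖ ≤ a * W := mul_le_mul_of_nonneg_left hz ha
    have h3 : 0 ≤ a * ‖z‖ := by positivity
    nlinarith [norm_nonneg E]
  exact (le_abs_self _).trans ((Complex.abs_im_le_norm _).trans h1)

lemma norm_lt {a b W : ℝ} (hW : 0 ≤ W) (h : a ^ 2 + b ^ 2 ≤ W ^ 2) : ‖(⟨a, b⟩ : ℂ)‖ ≤ W := by
  rw [Complex.norm_def]
  apply Real.sqrt_le_iff.2
  refine ⟨hW, ?_⟩
  rw [Complex.normSq_apply]
  simpa [pow_two] using h

/-- constant part -/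
noncomputable def tau' (t : ℝ) : ℝ := (2 * sn - 1 / 2) - (2 - 2 * (cs - sn)) * t - (2 * cs + 1 / 2) * t ^ 2

lemma even_id (t u um up x1 x2 y1 y2 : ℝ) :
    pturn (1 + um) ⟨t + x1 + 2 * y2, x2 - 2 * y1⟩ (1 + u) ⟨t - x1, -x2⟩ (1 + up)
      ⟨t + x1 - 2 * y2, x2 + 2 * y1⟩ =
    tau' t + (2 * sn + 2 * cs * t) * u - ((1 / 2 - sn) + t * (sn + 1)) * (um + up)
      + (2 * (sn + cs - 1) - t) * x1 + 4 * (sn + t * (Real.sqrt 3 / 2 - sn)) * y1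
      + (2 * cs - 1 / 2) * (x1 ^ 2 + x2 ^ 2) + 2 * (y1 ^ 2 + y2 ^ 2)
      + (4 * sn + 2 * Real.sqrt 3) * (x1 * y1 + x2 * y2)
      + ((e1 * (((um * u : ℝ) : ℂ) * ⟨1, 0⟩)).im + (e1 * ((um : ℂ) * ⟨x1, x2⟩)).im
        + (e1 * om * ((u : ℂ) * ⟨x1 + 2 * y2, -x2 + 2 * y1⟩)).im
        + (e1 * (((u * up : ℝ) : ℂ) * ⟨1, 0⟩)).im
        + (e1 * om * ((u : ℂ) * ⟨x1 - 2 * y2, x2 + 2 * y1⟩)).im
        + (e1 * ((up : ℂ) * ⟨x1, -x2⟩)).im + (-e2 * (((um * up : ℝ) : ℂ) * ⟨1, 0⟩)).im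
        + (-(e2 * om) * ((um : ℂ) * ⟨x1 - 2 * y2, x2 + 2 * y1⟩)).im
        + (-(e2 * om) * ((up : ℂ) * ⟨x1 + 2 * y2, -x2 + 2 * y1⟩)).im) := by
  have h1 := q_cs
  have h2 := q_sn
  have h3 := q_sq
  simp only [pturn, tau', e1, e2, om, ob, Complex.mul_re, Complex.mul_im, Complex.add_re,
    Complex.add_im, Complex.sub_re, Complex.sub_im, Complex.neg_re, Complex.neg_im,
    Complex.conj_re, Complex.conj_im, Complex.ofReal_re, Complex.ofReal_im, map_add, map_sub,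
    map_mul, Complex.conj_ofReal]
  linear_combination (-t ^ 2 + t * u + t + x1 ^ 2 + x1 + x2 ^ 2) * h1
    + (2 * t * y1 - 2 * x1 * y1 - 2 * x2 * y2 - 2 * y1) * h2
    + (1 / 2 * Real.sqrt 3 * t * y1 + 1 / 2 * Real.sqrt 3 * x1 * y1 + 1 / 2 * Real.sqrt 3 * x2 * y2
      - 1 / 8 * t ^ 2 - 1 / 4 * t * x1 - 1 / 4 * t * um - 1 / 4 * t * up - 1 / 2 * t
      - 1 / 8 * x1 ^ 2 - 1 / 2 * x1 - 1 / 8 * x2 ^ 2 + 1 / 2 * y1 ^ 2 + 1 / 2 * y2 ^ 2) * h3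

lemma odd_id (t u um up x1 x2 y1 y2 : ℝ) :
    pturn (1 + um) ⟨t - x1, -x2⟩ (1 + u) ⟨t + x1 - 2 * y2, x2 + 2 * y1⟩ (1 + up) ⟨t - x1, -x2⟩ =
    tau' t + (2 * sn + 2 * cs * t) * (u + 2 * y2) - ((1 / 2 - sn) + t * (sn + 1)) * (um + up)
      - (2 * (sn + cs - 1) - t) * x1 + (2 * cs - 1 / 2) * (x1 ^ 2 + x2 ^ 2)
      - 4 * cs * (x1 * y2 - x2 * y1)
      + ((e1 * (((um * u : ℝ) : ℂ) * ⟨1, 0⟩)).im
        + (-e1 * ((um : ℂ) * ⟨x1 - 2 * y2, x2 + 2 * y1⟩)).im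
        + (-(e1 * om) * ((u : ℂ) * ⟨x1, -x2⟩)).im
        + (e1 * (((u * up : ℝ) : ℂ) * ⟨1, 0⟩)).im
        + (-(e1 * om) * ((u : ℂ) * ⟨x1, x2⟩)).im
        + (-e1 * ((up : ℂ) * ⟨x1 - 2 * y2, -(x2 + 2 * y1)⟩)).im
        + (-e2 * (((um * up : ℝ) : ℂ) * ⟨1, 0⟩)).im
        + (e2 * om * ((um : ℂ) * ⟨x1, x2⟩)).im
        + (e2 * om * ((up : ℂ) * ⟨x1, -x2⟩)).im) := by
  have h1 := q_cs
  have h3 := q_sq
  simp only [pturn, tau', e1, e2, om, ob, Complex.mul_re, Complex.mul_im, Complex.add_re,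
    Complex.add_im, Complex.sub_re, Complex.sub_im, Complex.neg_re, Complex.neg_im,
    Complex.conj_re, Complex.conj_im, Complex.ofReal_re, Complex.ofReal_im, map_add, map_sub,
    map_mul, Complex.conj_ofReal]
  linear_combination (-t ^ 2 + 2 * t * y2 + t * u + t + x1 ^ 2 - 2 * x1 * y2 - x1 + x2 ^ 2
      + 2 * x2 * y1) * h1
    + (-1 / 8 * t ^ 2 + 1 / 4 * t * x1 - 1 / 4 * t * um - 1 / 4 * t * up - 1 / 2 * t
      - 1 / 8 * x1 ^ 2 + 1 / 2 * x1 - 1 / 8 * x2 ^ 2) * h3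

/-- Cauchy-Schwarz -/
lemma cs2 {a b c d w v : ℝ} (hw : 0 ≤ w) (hv : 0 ≤ v) (h1 : a ^ 2 + b ^ 2 = w ^ 2)
    (h2 : c ^ 2 + d ^ 2 = v ^ 2) : a * c + b * d ≤ w * v := by
  apply abs_le_of_sq_le_sq' _ (by positivity) |>.2
  have : (w * v) ^ 2 - (a * c + b * d) ^ 2 = (a * d - b * c) ^ 2 := by
    rw [mul_pow, ← h1, ← h2]; ring
  linarith [sq_nonneg (a * d - b * c)]

lemma n_pm {x1 x2 y1 y2 w v : ℝ} (hw : 0 ≤ w) (hv : 0 ≤ v) (h1 : x1 ^ 2 + x2 ^ 2 = w ^ 2)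
    (h2 : y1 ^ 2 + y2 ^ 2 = v ^ 2) :
    ‖(⟨x1 + 2 * y2, -x2 + 2 * y1⟩ : ℂ)‖ ≤ w + 2 * v ∧
    ‖(⟨x1 - 2 * y2, x2 + 2 * y1⟩ : ℂ)‖ ≤ w + 2 * v ∧
    ‖(⟨x1 - 2 * y2, -(x2 + 2 * y1)⟩ : ℂ)‖ ≤ w + 2 * v := by
  have h3 := cs2 (a := x1) (b := -x2) (c := y2) (d := y1) hw hv (by linarith) (by linarith)
  have h4 := cs2 (a := -x1) (b := x2) (c := y2) (d := y1) hw hv (by linarith) (by linarith)
  refine ⟨norm_lt (by linarith) ?_, norm_lt (by linarith) ?_, norm_lt (by linarith) ?_⟩ <;>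
  linarith

lemma n_x {x1 x2 w : ℝ} (hw : 0 ≤ w) (h1 : x1 ^ 2 + x2 ^ 2 = w ^ 2) :
    ‖(⟨x1, x2⟩ : ℂ)‖ ≤ w ∧ ‖(⟨x1, -x2⟩ : ℂ)‖ ≤ w :=
  ⟨norm_lt hw (by linarith), norm_lt hw (by linarith)⟩

lemma n_one : ‖(⟨1, 0⟩ : ℂ)‖ ≤ 1 := norm_lt (by norm_num) (by norm_num)

lemma even_le {t u um up x1 x2 y1 y2 w v : ℝ} (ht : 0 ≤ t) (hu : 0 ≤ u) (hum : 0 ≤ um)
    (hup : 0 ≤ up) (hw : 0 ≤ w) (hv : 0 ≤ v) (h1 : x1 ^ 2 + x2 ^ 2 = w ^ 2)
    (h2 : y1 ^ 2 + y2 ^ 2 = v ^ 2) :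
    pturn (1 + um) ⟨t + x1 + 2 * y2, x2 - 2 * y1⟩ (1 + u) ⟨t - x1, -x2⟩ (1 + up)
      ⟨t + x1 - 2 * y2, x2 + 2 * y1⟩ ≤
    tau' t + (2 * sn + 2 * cs * t) * u
      + (2 * (sn + cs - 1) - t) * x1 + 4 * (sn + t * (Real.sqrt 3 / 2 - sn)) * y1
      + (2 * cs - 1 / 2) * w ^ 2 + 2 * v ^ 2
      + (4 * sn + 2 * Real.sqrt 3) * (w * v)
      + (u * (2 * w + 4 * v) + (um + up) * (2 * w + 2 * v) + u * (um + up) + um * up) := by
  obtain ⟨s1, s2⟩ := bs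
  obtain ⟨q1, q2⟩ := b3
  obtain ⟨n1, n2, n3⟩ := n_pm hw hv h1 h2
  obtain ⟨n4, n5⟩ := n_x hw h1
  rw [even_id, h1, h2]
  have f1 := im_le n_e1 (mul_nonneg hum hu) n_one
  have f2 := im_le n_e1 hum n4
  have f3 := im_le (n_mul n_e1 n_om) hu n1
  have f4 := im_le n_e1 (mul_nonneg hu hup) n_one
  have f5 := im_le (n_mul n_e1 n_om) hu n2
  have f6 := im_le n_e1 hup n5
  have f7 := im_le (n_neg n_e2) (mul_nonneg hum hup) n_one
  have f8 := im_le (n_neg (n_mul n_e2 n_om)) hum n2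
  have f9 := im_le (n_neg (n_mul n_e2 n_om)) hup n1
  have g1 : 0 ≤ ((1 / 2 - sn) + t * (sn + 1)) * (um + up) :=
    mul_nonneg (add_nonneg (by linarith) (mul_nonneg ht (by linarith))) (by linarith)
  have g2 : (4 * sn + 2 * Real.sqrt 3) * (x1 * y1 + x2 * y2) ≤
      (4 * sn + 2 * Real.sqrt 3) * (w * v) :=
    mul_le_mul_of_nonneg_left (cs2 hw hv h1 h2) (by linarith)
  linarith

lemma odd_le {t u um up x1 x2 y1 y2 w v : ℝ} (ht : 0 ≤ t) (hu : 0 ≤ u) (hum : 0 ≤ um)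
    (hup : 0 ≤ up) (hw : 0 ≤ w) (hv : 0 ≤ v) (h1 : x1 ^ 2 + x2 ^ 2 = w ^ 2)
    (h2 : y1 ^ 2 + y2 ^ 2 = v ^ 2) :
    pturn (1 + um) ⟨t - x1, -x2⟩ (1 + u) ⟨t + x1 - 2 * y2, x2 + 2 * y1⟩ (1 + up) ⟨t - x1, -x2⟩ ≤
    tau' t + (2 * sn + 2 * cs * t) * (u + 2 * y2)
      - (2 * (sn + cs - 1) - t) * x1 + (2 * cs - 1 / 2) * w ^ 2 + 4 * cs * (w * v)
      + (u * (2 * w) + (um + up) * (2 * w + 2 * v) + u * (um + up) + um * up) := by
  obtain ⟨s1, s2⟩ := bs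
  obtain ⟨c1, c2⟩ := bc
  obtain ⟨n1, n2, n3⟩ := n_pm hw hv h1 h2
  obtain ⟨n4, n5⟩ := n_x hw h1
  rw [odd_id, h1]
  have f1 := im_le n_e1 (mul_nonneg hum hu) n_one
  have f2 := im_le (n_neg n_e1) hum n2
  have f3 := im_le (n_neg (n_mul n_e1 n_om)) hu n5
  have f4 := im_le n_e1 (mul_nonneg hu hup) n_one
  have f5 := im_le (n_neg (n_mul n_e1 n_om)) hu n4
  have f6 := im_le (n_neg n_e1) hup n3
  have f7 := im_le (n_neg n_e2) (mul_nonneg hum hup) n_one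
  have f8 := im_le (n_mul n_e2 n_om) hum n4
  have f9 := im_le (n_mul n_e2 n_om) hup n5
  have g1 : 0 ≤ ((1 / 2 - sn) + t * (sn + 1)) * (um + up) :=
    mul_nonneg (add_nonneg (by linarith) (mul_nonneg ht (by linarith))) (by linarith)
  have g3 := cs2 (a := -x1) (b := x2) (c := y2) (d := y1) hw hv (by linarith) (by linarith)
  have g2 : 4 * cs * (-x1 * y2 + x2 * y1) ≤ 4 * cs * (w * v) :=
    mul_le_mul_of_nonneg_left g3 (by linarith)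
  linarith

/-- bound of the third order terms at an even node -/
lemma re_le {t w v g da dm dp u um up : ℝ} (hw : 0 ≤ w) (hv : 0 ≤ v)
    (hda : 0 ≤ da) (hdm : 0 ≤ dm) (hdp : 0 ≤ dp) (hg : da + dm + dp ≤ g) (hu0 : 0 ≤ u)
    (hum0 : 0 ≤ um) (hup0 : 0 ≤ up) (hu : u ≤ da / 2 + (t + w) ^ 2 / 2)
    (hum : um ≤ dm / 2 + (t + w + 2 * v) ^ 2 / 2) (hup : up ≤ dp / 2 + (t + w + 2 * v) ^ 2 / 2) :
    u * (2 * w + 4 * v) + (um + up) * (2 * w + 2 * v) + u * (um + up) + um * up ≤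
    (t + w) ^ 2 / 2 * (2 * w + 4 * v) + 2 * ((t + w + 2 * v) ^ 2 / 2) * (2 * w + 2 * v)
      + 2 * ((t + w) ^ 2 / 2) * ((t + w + 2 * v) ^ 2 / 2) + ((t + w + 2 * v) ^ 2 / 2) ^ 2
      + g / 2 * (2 * w + 4 * v + 4 * ((t + w + 2 * v) ^ 2 / 2) + (t + w) ^ 2 / 2)
      + g ^ 2 / 4 := by
  obtain ⟨ue, hue⟩ : ∃ ue : ℝ, ue = (t + w) ^ 2 / 2 := ⟨_, rfl⟩
  obtain ⟨uo, huo⟩ : ∃ uo : ℝ, uo = (t + w + 2 * v) ^ 2 / 2 := ⟨_, rfl⟩
  have hue0 : 0 ≤ ue := by rw [hue]; positivity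
  have huo0 : 0 ≤ uo := by rw [huo]; positivity
  rw [← hue] at hu ⊢
  rw [← huo] at hum hup ⊢
  have a1 : u * (2 * w + 4 * v) ≤ (da / 2 + ue) * (2 * w + 4 * v) :=
    mul_le_mul_of_nonneg_right hu (by linarith)
  have a2 : (um + up) * (2 * w + 2 * v) ≤ (dm / 2 + uo + (dp / 2 + uo)) * (2 * w + 2 * v) :=
    mul_le_mul_of_nonneg_right (by linarith) (by linarith)
  have a3 : u * (um + up) ≤ (da / 2 + ue) * (dm / 2 + uo + (dp / 2 + uo)) :=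
    mul_le_mul hu (by linarith) (by linarith) (by linarith)
  have a4 : um * up ≤ (dm / 2 + uo) * (dp / 2 + uo) :=
    mul_le_mul hum hup hup0 (by linarith)
  have b1 : (da + dm + dp) ^ 2 ≤ g ^ 2 := pow_le_pow_left₀ (by linarith) hg 2
  have b2 : (da + dm + dp) * w ≤ g * w := mul_le_mul_of_nonneg_right hg hw
  have b3 : (da + dm + dp) * v ≤ g * v := mul_le_mul_of_nonneg_right hg hv
  have b4 : (da + dm + dp) * uo ≤ g * uo := mul_le_mul_of_nonneg_right hg huo0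
  have b5 : (da + dm + dp) * ue ≤ g * ue := mul_le_mul_of_nonneg_right hg hue0
  have p1 : 0 ≤ da * dm := mul_nonneg hda hdm
  have p2 : 0 ≤ da * dp := mul_nonneg hda hdp
  have p3 : 0 ≤ dm * dp := mul_nonneg hdm hdp
  have p4 : 0 ≤ da * uo := mul_nonneg hda huo0
  have p5 : 0 ≤ dm * uo := mul_nonneg hdm huo0
  have p6 : 0 ≤ dp * uo := mul_nonneg hdp huo0
  have p7 : 0 ≤ da * ue := mul_nonneg hda hue0
  have p8 : 0 ≤ dm * ue := mul_nonneg hdm hue0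
  have p9 : 0 ≤ dp * ue := mul_nonneg hdp hue0
  have p10 : 0 ≤ da * w := mul_nonneg hda hw
  have p11 : 0 ≤ dm * v := mul_nonneg hdm hv
  have p12 : 0 ≤ dp * v := mul_nonneg hdp hv
  have p13 := sq_nonneg da
  have p14 := sq_nonneg dm
  have p15 := sq_nonneg dp
  linarith

/-- bound of the third order terms at an odd node -/
lemma ro_le {t w v g da dm dp u um up : ℝ} (hw : 0 ≤ w) (hv : 0 ≤ v)
    (hda : 0 ≤ da) (hdm : 0 ≤ dm) (hdp : 0 ≤ dp) (hg : da + dm + dp ≤ g) (hu0 : 0 ≤ u)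
    (hum0 : 0 ≤ um) (hup0 : 0 ≤ up) (hu : u ≤ da / 2 + (t + w + 2 * v) ^ 2 / 2)
    (hum : um ≤ dm / 2 + (t + w) ^ 2 / 2) (hup : up ≤ dp / 2 + (t + w) ^ 2 / 2) :
    u * (2 * w) + (um + up) * (2 * w + 2 * v) + u * (um + up) + um * up ≤
    2 * ((t + w + 2 * v) ^ 2 / 2) * w + 2 * ((t + w) ^ 2 / 2) * (2 * w + 2 * v)
      + 2 * ((t + w) ^ 2 / 2) * ((t + w + 2 * v) ^ 2 / 2) + ((t + w) ^ 2 / 2) ^ 2
      + g / 2 * (2 * w + 2 * v + 3 * ((t + w) ^ 2 / 2) + (t + w + 2 * v) ^ 2 / 2)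
      + g ^ 2 / 4 := by
  obtain ⟨ue, hue⟩ : ∃ ue : ℝ, ue = (t + w) ^ 2 / 2 := ⟨_, rfl⟩
  obtain ⟨uo, huo⟩ : ∃ uo : ℝ, uo = (t + w + 2 * v) ^ 2 / 2 := ⟨_, rfl⟩
  have hue0 : 0 ≤ ue := by rw [hue]; positivity
  have huo0 : 0 ≤ uo := by rw [huo]; positivity
  rw [← huo] at hu ⊢
  rw [← hue] at hum hup ⊢
  have a1 : u * (2 * w) ≤ (da / 2 + uo) * (2 * w) :=
    mul_le_mul_of_nonneg_right hu (by linarith)
  have a2 : (um + up) * (2 * w + 2 * v) ≤ (dm / 2 + ue + (dp / 2 + ue)) * (2 * w + 2 * v) :=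
    mul_le_mul_of_nonneg_right (by linarith) (by linarith)
  have a3 : u * (um + up) ≤ (da / 2 + uo) * (dm / 2 + ue + (dp / 2 + ue)) :=
    mul_le_mul hu (by linarith) (by linarith) (by linarith)
  have a4 : um * up ≤ (dm / 2 + ue) * (dp / 2 + ue) :=
    mul_le_mul hum hup hup0 (by linarith)
  have b1 : (da + dm + dp) ^ 2 ≤ g ^ 2 := pow_le_pow_left₀ (by linarith) hg 2
  have b2 : (da + dm + dp) * w ≤ g * w := mul_le_mul_of_nonneg_right hg hw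
  have b3 : (da + dm + dp) * v ≤ g * v := mul_le_mul_of_nonneg_right hg hv
  have b4 : (da + dm + dp) * uo ≤ g * uo := mul_le_mul_of_nonneg_right hg huo0
  have b5 : (da + dm + dp) * ue ≤ g * ue := mul_le_mul_of_nonneg_right hg hue0
  have p1 : 0 ≤ da * dm := mul_nonneg hda hdm
  have p2 : 0 ≤ da * dp := mul_nonneg hda hdp
  have p3 : 0 ≤ dm * dp := mul_nonneg hdm hdp
  have p4 : 0 ≤ da * uo := mul_nonneg hda huo0
  have p5 : 0 ≤ dm * uo := mul_nonneg hdm huo0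
  have p6 : 0 ≤ dp * uo := mul_nonneg hdp huo0
  have p7 : 0 ≤ da * ue := mul_nonneg hda hue0
  have p8 : 0 ≤ dm * ue := mul_nonneg hdm hue0
  have p9 : 0 ≤ dp * ue := mul_nonneg hdp hue0
  have p10 : 0 ≤ da * v := mul_nonneg hda hv
  have p13 := sq_nonneg da
  have p14 := sq_nonneg dm
  have p15 := sq_nonneg dp
  linarith

/-- the final combination -/
lemma core {t w v g x1 x2 y1 y2 z a b da db RE RO : ℝ} (ht0 : 0 ≤ t) (ht : t ≤ 1 / 10)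
    (hw : 0 ≤ w) (hv : 0 ≤ v) (hg0 : 0 ≤ g) (h1 : x1 ^ 2 + x2 ^ 2 = w ^ 2)
    (h2 : y1 ^ 2 + y2 ^ 2 = v ^ 2) (hy2 : y2 ≤ 0) (hz : z = |y1|)
    (hE : 0 ≤ tau' t + (2 * sn + 2 * cs * t) * a
      + (2 * (sn + cs - 1) - t) * x1 - 4 * (sn + t * (Real.sqrt 3 / 2 - sn)) * z
      + (2 * cs - 1 / 2) * w ^ 2 + 2 * v ^ 2
      + (4 * sn + 2 * Real.sqrt 3) * (w * v) + RE)
    (hO : 0 ≤ tau' t + (2 * sn + 2 * cs * t) * (b + 2 * y2)
      - (2 * (sn + cs - 1) - t) * x1 + (2 * cs - 1 / 2) * w ^ 2 + 4 * cs * (w * v) + RO)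
    (ha : 2 * a ≤ da + ((t - x1) ^ 2 + x2 ^ 2))
    (hb : 2 * b ≤ db + ((t + x1 - 2 * y2) ^ 2 + (x2 + 2 * y1) ^ 2)) (hd : da + db ≤ g) :
    0 ≤ 2 * (17639 / 1000000 - 58578 / 100000 * t - 243185 / 100000 * t ^ 2)
      + (51764 / 100000 + 193186 / 100000 * t) * (g / 2 + t ^ 2 + w ^ 2 + 2 * v ^ 2 + 2 * w * v)
      + 28638 / 10000 * w ^ 2 + 2 * v ^ 2 + 83634 / 10000 * w * v
      - (103527 / 100000 + 242 / 100 * t) * v + (RE + RO) := by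
  obtain ⟨s1, s2⟩ := bs
  obtain ⟨c1, c2⟩ := bc
  obtain ⟨q1, q2⟩ := b3
  have d1 := bd
  have hz0 : 0 ≤ z := by rw [hz]; exact abs_nonneg _
  have hwv : 0 ≤ w * v := mul_nonneg hw hv
  have hct : 0 ≤ cs * t := mul_nonneg (by linarith) ht0
  have hm : 0 ≤ 2 * sn + 2 * cs * t := by linarith
  have k1 := cs2 (a := -x1) (b := x2) (c := y2) (d := y1) hw hv (by linarith) (by linarith)
  have k2 : a + b ≤ (g / 2 + t ^ 2 + w ^ 2 + 2 * v ^ 2 + 2 * w * v) - 2 * t * y2 := by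
    linarith
  have k3 : (2 * sn + 2 * cs * t) * (a + b) ≤ (2 * sn + 2 * cs * t) *
      ((g / 2 + t ^ 2 + w ^ 2 + 2 * v ^ 2 + 2 * w * v) - 2 * t * y2) :=
    mul_le_mul_of_nonneg_left k2 hm
  have hct' : cs * t ≤ 9659259 / 10000000 * t := mul_le_mul_of_nonneg_right c2 ht0
  have hct'' : 9659258 / 10000000 * t ≤ cs * t := mul_le_mul_of_nonneg_right c1 ht0
  have hS0 : 0 ≤ g / 2 + t ^ 2 + w ^ 2 + 2 * v ^ 2 + 2 * w * v := by
    have : 0 ≤ 2 * w * v := by linarith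
    have := sq_nonneg t
    have := sq_nonneg w
    have := sq_nonneg v
    linarith
  have k4 : (2 * sn + 2 * cs * t) * (g / 2 + t ^ 2 + w ^ 2 + 2 * v ^ 2 + 2 * w * v) ≤
      (51764 / 100000 + 193186 / 100000 * t) *
        (g / 2 + t ^ 2 + w ^ 2 + 2 * v ^ 2 + 2 * w * v) :=
    mul_le_mul_of_nonneg_right (by linarith) hS0
  have k5 : 103527 / 100000 + 242 / 100 * t ≤ (2 * sn + 2 * cs * t) * (2 - 2 * t) := by
    have e1 : sn * t ≤ 2588191 / 10000000 * t := mul_le_mul_of_nonneg_right s2 ht0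
    have e2 : cs * t * t ≤ cs * t * (1 / 10) := mul_le_mul_of_nonneg_left ht hct
    linarith
  have k6 : (103527 / 100000 + 242 / 100 * t) * (-y2) ≤
      (2 * sn + 2 * cs * t) * (2 - 2 * t) * (-y2) :=
    mul_le_mul_of_nonneg_right k5 (by linarith)
  have k7 : 103527 / 100000 + 242 / 100 * t ≤ 4 * (sn + t * (Real.sqrt 3 / 2 - sn)) := by
    have e1 : sn * t ≤ 2588191 / 10000000 * t := mul_le_mul_of_nonneg_right s2 ht0
    have e2 : 17320508 / 10000000 * t ≤ Real.sqrt 3 * t := mul_le_mul_of_nonneg_right q1 ht0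
    linarith
  have k8 : (103527 / 100000 + 242 / 100 * t) * z ≤
      4 * (sn + t * (Real.sqrt 3 / 2 - sn)) * z := mul_le_mul_of_nonneg_right k7 hz0
  have k9 : v ≤ z - y2 := by
    have e : v ^ 2 ≤ (z - y2) ^ 2 := by
      have e1 : z ^ 2 = y1 ^ 2 := by rw [hz, sq_abs]
      have e2 : 0 ≤ z * (-y2) := mul_nonneg hz0 (by linarith)
      have e3 : (z - y2) ^ 2 = v ^ 2 + 2 * (z * (-y2)) := by rw [← h2, ← e1]; ring
      rw [e3]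
      linarith
    exact (abs_le_of_sq_le_sq' e (by linarith)).2
  have k10 : (103527 / 100000 + 242 / 100 * t) * v ≤
      (103527 / 100000 + 242 / 100 * t) * (z - y2) :=
    mul_le_mul_of_nonneg_left k9 (by linarith)
  have k11 : tau' t ≤ 17639 / 1000000 - 58578 / 100000 * t - 243185 / 100000 * t ^ 2 := by
    unfold tau'
    have e1 : (cs - sn) * t ≤ 7071068 / 10000000 * t := mul_le_mul_of_nonneg_right d1 ht0
    have e2 : 9659258 / 10000000 * t ^ 2 ≤ cs * t ^ 2 :=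
      mul_le_mul_of_nonneg_right c1 (sq_nonneg t)
    have := sq_nonneg t
    linarith
  have k12 : cs * w ^ 2 ≤ 9659259 / 10000000 * w ^ 2 :=
    mul_le_mul_of_nonneg_right c2 (sq_nonneg w)
  have k13 : (4 * sn + 2 * Real.sqrt 3 + 4 * cs) * (w * v) ≤ 83634 / 10000 * (w * v) :=
    mul_le_mul_of_nonneg_right (by linarith) hwv
  have k14 := sq_nonneg w
  linarith

lemma sq_bound {t a b W : ℝ} (ht : 0 ≤ t) (hW : 0 ≤ W) (h : a ^ 2 + b ^ 2 ≤ W ^ 2) :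
    (t + a) ^ 2 + b ^ 2 ≤ (t + W) ^ 2 := by
  have h1 : a ≤ W := (abs_le_of_sq_le_sq' (by linarith [sq_nonneg b]) hW).2
  nlinarith

lemma sq_pm {x1 x2 y1 y2 w v : ℝ} (hw : 0 ≤ w) (hv : 0 ≤ v) (h1 : x1 ^ 2 + x2 ^ 2 = w ^ 2)
    (h2 : y1 ^ 2 + y2 ^ 2 = v ^ 2) :
    (x1 - 2 * y2) ^ 2 + (x2 + 2 * y1) ^ 2 ≤ (w + 2 * v) ^ 2 := by
  have h4 := cs2 (a := -x1) (b := x2) (c := y2) (d := y1) hw hv (by linarith) (by linarith)
  linarith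

lemma coords {t : ℝ} {r : ℕ → ℝ} {B : ℕ → ℂ} (h : Cf t r B) : ∃ x1 x2 y1 y2 : ℝ,
    cx t B = ⟨x1, x2⟩ ∧ cy B = ⟨y1, y2⟩ ∧ B 0 = ⟨t - x1, -x2⟩ ∧
    B 1 = ⟨t + x1 - 2 * y2, x2 + 2 * y1⟩ ∧ B 2 = ⟨t - x1, -x2⟩ ∧
    B 3 = ⟨t + x1 + 2 * y2, x2 - 2 * y1⟩ := by
  obtain ⟨y1, hy1⟩ : ∃ y1 : ℝ, y1 = (cy B).re := ⟨_, rfl⟩
  obtain ⟨y2, hy2⟩ : ∃ y2 : ℝ, y2 = (cy B).im := ⟨_, rfl⟩
  obtain ⟨x1, hx1⟩ : ∃ x1 : ℝ, x1 = (cx t B).re := ⟨_, rfl⟩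
  obtain ⟨x2, hx2⟩ : ∃ x2 : ℝ, x2 = (cx t B).im := ⟨_, rfl⟩
  have hy : 4 * I * cy B = B 1 - B 3 := by
    unfold cy
    have : (4 * I : ℂ) ≠ 0 := mul_ne_zero (by norm_num) Complex.I_ne_zero
    field_simp
  have e1 : -4 * y2 = (B 1).re - (B 3).re := by
    have := congrArg Complex.re hy
    simp at this
    rw [hy2]; linarith
  have e2 : 4 * y1 = (B 1).im - (B 3).im := by
    have := congrArg Complex.im hy
    simp at this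
    rw [hy1]; linarith
  have e3 : (B 0).re = t - x1 := by
    rw [hx1]; unfold cx; simp
  have e4 : (B 0).im = -x2 := by
    rw [hx2]; unfold cx; simp
  have e5 : (B 0).re + (B 1).re + (B 2).re + (B 3).re = 4 * t := by
    have := congrArg Complex.re h.sum
    simpa using this
  have e6 : (B 0).im + (B 1).im + (B 2).im + (B 3).im = 0 := by
    have := congrArg Complex.im h.sum
    simpa using this
  have e7 : (B 2).re = (B 0).re := by rw [h.B02]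
  have e8 : (B 2).im = (B 0).im := by rw [h.B02]
  refine ⟨x1, x2, y1, y2, Complex.ext hx1.symm hx2.symm, Complex.ext hy1.symm hy2.symm,
    Complex.ext ?_ ?_, Complex.ext ?_ ?_, Complex.ext ?_ ?_, Complex.ext ?_ ?_⟩ <;>
    simp only <;> linarith

end S3Aux

/-- (F4) inequality S3 -/
theorem fin_S3 {t : ℝ} {r : ℕ → ℝ} {B : ℕ → ℂ} (h : Cf t r B) {w v g : ℝ} (hw : w = ‖cx t B‖)
    (hv : v = ‖cy B‖) (hg : g = sig r B) (htn : ∀ k, 0 ≤ tn r B k) (ht : t ≤ 1 / 10) :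
    0 ≤ 2 * (17639 / 1000000 - 58578 / 100000 * t - 243185 / 100000 * t ^ 2)
      + (51764 / 100000 + 193186 / 100000 * t) * (g / 2 + t ^ 2 + w ^ 2 + 2 * v ^ 2 + 2 * w * v)
      + 28638 / 10000 * w ^ 2 + 2 * v ^ 2 + 83634 / 10000 * w * v
      - (103527 / 100000 + 242 / 100 * t) * v + brS t w v g := by
  obtain ⟨x1, x2, y1, y2, hx, hy, hB0, hB1, hB2, hB3⟩ := S3Aux.coords h
  have hw0 : 0 ≤ w := by rw [hw]; exact norm_nonneg _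
  have hv0 : 0 ≤ v := by rw [hv]; exact norm_nonneg _
  have h1 : x1 ^ 2 + x2 ^ 2 = w ^ 2 := by
    rw [hw, hx, Complex.sq_norm, Complex.normSq_mk]; ring
  have h2 : y1 ^ 2 + y2 ^ 2 = v ^ 2 := by
    rw [hv, hy, Complex.sq_norm, Complex.normSq_mk]; ring
  have ht0 := h.t0
  obtain ⟨d, hdd⟩ : ∃ d : ℕ → ℝ, d = fun k => r k ^ 2 - normSq (B k) - 1 := ⟨_, rfl⟩
  obtain ⟨u, huu⟩ : ∃ u : ℕ → ℝ, u = fun k => r k - 1 := ⟨_, rfl⟩
  have hd0 : ∀ k, 0 ≤ d k := fun k => by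
    rw [hdd]; have := h.D1 k; simp only; linarith
  have hr : ∀ k, r k = 1 + u k := fun k => by rw [huu]; simp only; ring
  have hu0 : ∀ k, 0 ≤ u k := fun k => by
    have e1 := h.D1 k
    have e2 := Complex.normSq_nonneg (B k)
    have e3 := h.rpos k
    rw [huu]
    simp only
    nlinarith
  have hu2 : ∀ k, 2 * u k ≤ d k + normSq (B k) := fun k => by
    have e := hu0 k
    rw [hdd]
    simp only
    rw [hr k]
    linarith [sq_nonneg (u k)]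
  have hgd : g = d 0 + d 1 + d 2 + d 3 := by
    rw [hg, hdd]
    unfold sig
    rw [Finset.sum_range_succ, Finset.sum_range_succ, Finset.sum_range_succ,
      Finset.sum_range_one]
  have hg0 : 0 ≤ g := by
    rw [hgd]; have := hd0 0; have := hd0 1; have := hd0 2; have := hd0 3; linarith
  have n0 : normSq (B 0) = (t - x1) ^ 2 + x2 ^ 2 := by
    rw [hB0, Complex.normSq_mk]; ring
  have n2 : normSq (B 2) = (t - x1) ^ 2 + x2 ^ 2 := by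
    rw [hB2, Complex.normSq_mk]; ring
  have n1 : normSq (B 1) = (t + x1 - 2 * y2) ^ 2 + (x2 + 2 * y1) ^ 2 := by
    rw [hB1, Complex.normSq_mk]; ring
  have n3 : normSq (B 3) = (t + x1 - 2 * (-y2)) ^ 2 + (x2 + 2 * (-y1)) ^ 2 := by
    rw [hB3, Complex.normSq_mk]; ring
  have h2' : (-y1) ^ 2 + (-y2) ^ 2 = v ^ 2 := by rw [neg_sq, neg_sq]; exact h2
  have m0 : (t - x1) ^ 2 + x2 ^ 2 ≤ (t + w) ^ 2 := by
    have := S3Aux.sq_bound (t := t) (a := -x1) (b := x2) (W := w) ht0 hw0 (by linarith)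
    linarith
  have m1 : (t + x1 - 2 * y2) ^ 2 + (x2 + 2 * y1) ^ 2 ≤ (t + w + 2 * v) ^ 2 := by
    have := S3Aux.sq_bound (t := t) ht0 (by linarith) (S3Aux.sq_pm hw0 hv0 h1 h2)
    linarith
  have m3 : (t + x1 - 2 * (-y2)) ^ 2 + (x2 + 2 * (-y1)) ^ 2 ≤ (t + w + 2 * v) ^ 2 := by
    have := S3Aux.sq_bound (t := t) ht0 (by linarith) (S3Aux.sq_pm hw0 hv0 h1 h2')
    linarith
  have w0 : u 0 ≤ d 0 / 2 + (t + w) ^ 2 / 2 := by have := hu2 0; rw [n0] at this; linarith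
  have w2 : u 2 ≤ d 2 / 2 + (t + w) ^ 2 / 2 := by have := hu2 2; rw [n2] at this; linarith
  have w1 : u 1 ≤ d 1 / 2 + (t + w + 2 * v) ^ 2 / 2 := by
    have := hu2 1; rw [n1] at this; linarith
  have w3 : u 3 ≤ d 3 / 2 + (t + w + 2 * v) ^ 2 / 2 := by
    have := hu2 3; rw [n3] at this; linarith
  -- the even node
  obtain ⟨da, a, hda, hda', ha, hE⟩ : ∃ da a : ℝ, 0 ≤ da ∧ da ≤ d 0 + d 2 ∧
      2 * a ≤ da + ((t - x1) ^ 2 + x2 ^ 2) ∧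
      0 ≤ S3Aux.tau' t + (2 * sn + 2 * cs * t) * a
      + (2 * (sn + cs - 1) - t) * x1 - 4 * (sn + t * (Real.sqrt 3 / 2 - sn)) * |y1|
      + (2 * cs - 1 / 2) * w ^ 2 + 2 * v ^ 2
      + (4 * sn + 2 * Real.sqrt 3) * (w * v) +
      ((t + w) ^ 2 / 2 * (2 * w + 4 * v) + 2 * ((t + w + 2 * v) ^ 2 / 2) * (2 * w + 2 * v)
      + 2 * ((t + w) ^ 2 / 2) * ((t + w + 2 * v) ^ 2 / 2) + ((t + w + 2 * v) ^ 2 / 2) ^ 2
      + g / 2 * (2 * w + 4 * v + 4 * ((t + w + 2 * v) ^ 2 / 2) + (t + w) ^ 2 / 2)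
      + g ^ 2 / 4) := by
    rcases le_total y1 0 with hy1 | hy1
    · refine ⟨d 0, u 0, hd0 0, by have := hd0 2; linarith, by
        have := hu2 0; rw [n0] at this; exact this, ?_⟩
      have e1 := htn 3
      have e2 : tn r B 3 = pturn (1 + u 3) ⟨t + x1 + 2 * y2, x2 - 2 * y1⟩ (1 + u 0)
          ⟨t - x1, -x2⟩ (1 + u 1) ⟨t + x1 - 2 * y2, x2 + 2 * y1⟩ := by
        unfold tn
        rw [show (3 : ℕ) + 1 = 0 + 4 from rfl, show (3 : ℕ) + 2 = 1 + 4 from rfl, h.rper, h.rper,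
          h.Bper, h.Bper, hB0, hB1, hB3, hr 0, hr 1, hr 3]
      have e3 := S3Aux.even_le ht0 (hu0 0) (hu0 3) (hu0 1) hw0 hv0 h1 h2
      have e4 := S3Aux.re_le hw0 hv0 (hd0 0) (hd0 3) (hd0 1) (by
        have := hd0 2; linarith : d 0 + d 3 + d 1 ≤ g) (hu0 0) (hu0 3) (hu0 1) w0 w3 w1
      rw [e2] at e1
      rw [abs_of_nonpos hy1]
      linarith
    · refine ⟨d 2, u 2, hd0 2, by have := hd0 0; linarith, by
        have := hu2 2; rw [n2] at this; exact this, ?_⟩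
      have e1 := htn 1
      have e2 : tn r B 1 = pturn (1 + u 1) ⟨t + x1 + 2 * (-y2), x2 - 2 * (-y1)⟩ (1 + u 2)
          ⟨t - x1, -x2⟩ (1 + u 3) ⟨t + x1 - 2 * (-y2), x2 + 2 * (-y1)⟩ := by
        unfold tn
        rw [show (1 : ℕ) + 1 = 2 from rfl, show (1 : ℕ) + 2 = 3 from rfl, hB1, hB2, hB3, hr 1,
          hr 2, hr 3, mul_neg, mul_neg, sub_neg_eq_add, sub_neg_eq_add, ← sub_eq_add_neg,
          ← sub_eq_add_neg]
      have e3 := S3Aux.even_le ht0 (hu0 2) (hu0 1) (hu0 3) hw0 hv0 h1 h2'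
      have e4 := S3Aux.re_le hw0 hv0 (hd0 2) (hd0 1) (hd0 3) (by
        have := hd0 0; linarith : d 2 + d 1 + d 3 ≤ g) (hu0 2) (hu0 1) (hu0 3) w2 w1 w3
      rw [e2] at e1
      rw [abs_of_nonneg hy1]
      linarith
  -- the odd node
  obtain ⟨z1, z2, db, b, hz1, hz2, hz3, hdb, hdb', hb, hO⟩ : ∃ z1 z2 db b : ℝ,
      z1 ^ 2 + z2 ^ 2 = v ^ 2 ∧ z2 ≤ 0 ∧ |y1| = |z1| ∧ 0 ≤ db ∧ db ≤ d 1 + d 3 ∧
      2 * b ≤ db + ((t + x1 - 2 * z2) ^ 2 + (x2 + 2 * z1) ^ 2) ∧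
      0 ≤ S3Aux.tau' t + (2 * sn + 2 * cs * t) * (b + 2 * z2)
      - (2 * (sn + cs - 1) - t) * x1 + (2 * cs - 1 / 2) * w ^ 2 + 4 * cs * (w * v) +
      (2 * ((t + w + 2 * v) ^ 2 / 2) * w + 2 * ((t + w) ^ 2 / 2) * (2 * w + 2 * v)
      + 2 * ((t + w) ^ 2 / 2) * ((t + w + 2 * v) ^ 2 / 2) + ((t + w) ^ 2 / 2) ^ 2
      + g / 2 * (2 * w + 2 * v + 3 * ((t + w) ^ 2 / 2) + (t + w + 2 * v) ^ 2 / 2)
      + g ^ 2 / 4) := by
    rcases le_total y2 0 with hy2 | hy2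
    · refine ⟨y1, y2, d 1, u 1, h2, hy2, rfl, hd0 1, by have := hd0 3; linarith, by
        have := hu2 1; rw [n1] at this; exact this, ?_⟩
      have e1 := htn 0
      have e2 : tn r B 0 = pturn (1 + u 0) ⟨t - x1, -x2⟩ (1 + u 1)
          ⟨t + x1 - 2 * y2, x2 + 2 * y1⟩ (1 + u 2) ⟨t - x1, -x2⟩ := by
        unfold tn
        rw [show (0 : ℕ) + 1 = 1 from rfl, show (0 : ℕ) + 2 = 2 from rfl, hB1, hB2, hB0, hr 1,
          hr 2, hr 0]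
      have e3 := S3Aux.odd_le ht0 (hu0 1) (hu0 0) (hu0 2) hw0 hv0 h1 h2
      have e4 := S3Aux.ro_le hw0 hv0 (hd0 1) (hd0 0) (hd0 2) (by
        have := hd0 3; linarith : d 1 + d 0 + d 2 ≤ g) (hu0 1) (hu0 0) (hu0 2) w1 w0 w2
      rw [e2] at e1
      linarith
    · refine ⟨-y1, -y2, d 3, u 3, h2', by linarith, (abs_neg y1).symm, hd0 3, by
        have := hd0 1; linarith, by
        have := hu2 3; rw [n3] at this; exact this, ?_⟩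
      have e1 := htn 2
      have e2 : tn r B 2 = pturn (1 + u 2) ⟨t - x1, -x2⟩ (1 + u 3)
          ⟨t + x1 - 2 * (-y2), x2 + 2 * (-y1)⟩ (1 + u 0) ⟨t - x1, -x2⟩ := by
        unfold tn
        rw [show (2 : ℕ) + 1 = 3 from rfl, show (2 : ℕ) + 2 = 0 + 4 from rfl, h.rper, h.Bper,
          hB3, hB2, hB0, hr 3, hr 2, hr 0, mul_neg, mul_neg, sub_neg_eq_add, ← sub_eq_add_neg]
      have e3 := S3Aux.odd_le ht0 (hu0 3) (hu0 2) (hu0 0) hw0 hv0 h1 h2'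
      have e4 := S3Aux.ro_le hw0 hv0 (hd0 3) (hd0 2) (hd0 0) (by
        have := hd0 1; linarith : d 3 + d 2 + d 0 ≤ g) (hu0 3) (hu0 2) (hu0 0) w3 w2 w0
      rw [e2] at e1
      linarith
  have hfin := S3Aux.core ht0 ht hw0 hv0 hg0 h1 hz1 hz2 hz3 hE hO ha hb (by linarith)
  unfold brS
  exact hfin

end Rein83
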