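import Pool.Agent.Rein83.FinSDefs

set_option autoImplicit false

/-! Section F: scalar inequality S4. -/

namespace Rein83

open Complex Finset Rein69

private theorem S4_coords {t : ℝ} {r : ℕ → ℝ} {B : ℕ → ℂ} (h : Cf t r B) : ∃ x1 x2 y1 y2 : ℝ,
    cx t B = ⟨x1, x2⟩ ∧ cy B = ⟨y1, y2⟩ ∧ B 0 = ⟨t - x1, -x2⟩ ∧
    B 1 = ⟨t + x1 - 2 * y2, x2 + 2 * y1⟩ ∧ B 2 = ⟨t - x1, -x2⟩ ∧
    B 3 = ⟨t + x1 + 2 * y2, x2 - 2 * y1⟩ := by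
  have hs := h.sum
  have h02 := h.B02
  have hre := congrArg Complex.re hs
  have him := congrArg Complex.im hs
  rw [← h02] at hre him
  simp only [add_re, add_im, mul_re, mul_im, ofReal_re, ofReal_im] at hre him
  norm_num at hre him
  have hcy : cy B = -(I * (B 1 - B 3)) / 4 := by
    unfold cy
    rw [div_eq_div_iff (by simp) (by norm_num)]
    linear_combination (4 * (B 1 - B 3)) * I_sq
  refine ⟨t - (B 0).re, -(B 0).im, ((B 1).im - (B 3).im) / 4, ((B 3).re - (B 1).re) / 4,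
    ?_, ?_, ?_, ?_, ?_, ?_⟩
  · apply Complex.ext
    · simp [cx]
    · simp [cx]
  · rw [hcy]
    apply Complex.ext
    · simp
    · simp
  · apply Complex.ext
    · simp
    · simp
  · apply Complex.ext
    · simp only
      linarith
    · simp only
      linarith
  · rw [← h02]
    apply Complex.ext
    · simp
    · simp
  · apply Complex.ext
    · simp only
      linarith
    · simp only
      linarith

private theorem S4_sq {a b : ℝ} (ha : 1 ≤ a) (hb : 1 ≤ b) :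
    (a - b) ^ 2 ≤ (a ^ 2 - b ^ 2) ^ 2 / 4 := by
  have h1 : (a ^ 2 - b ^ 2) ^ 2 = (a - b) ^ 2 * (a + b) ^ 2 := by ring
  have h2 : 4 ≤ (a + b) ^ 2 := by nlinarith
  rw [h1]
  linarith [mul_nonneg (sq_nonneg (a - b)) (sub_nonneg.mpr h2)]

private theorem S4_a {t x1 x2 y1 y2 w v : ℝ}
    (hw2 : w ^ 2 = x1 ^ 2 + x2 ^ 2) (hv2 : v ^ 2 = y1 ^ 2 + y2 ^ 2) (hw0 : 0 ≤ w)
    (ht0 : 0 ≤ t) : (t * x1 + (y1 ^ 2 + y2 ^ 2)) ^ 2 ≤ (v ^ 2 + t * w) ^ 2 := by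
  have hx1 : |x1| ≤ w := by
    apply abs_le_of_sq_le_sq _ hw0
    linarith [sq_nonneg x2]
  have hx1' := abs_le.mp hx1
  have hv : 0 ≤ v ^ 2 := sq_nonneg v
  have htw : 0 ≤ t * w := mul_nonneg ht0 hw0
  have l1 : t * x1 ≤ t * w := mul_le_mul_of_nonneg_left hx1'.2 ht0
  have l2 : t * (-w) ≤ t * x1 := mul_le_mul_of_nonneg_left hx1'.1 ht0
  rw [← hv2]
  apply sq_le_sq'
  · linarith
  · linarith

private theorem S4_b {t x1 x2 y1 y2 w v : ℝ}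
    (hw2 : w ^ 2 = x1 ^ 2 + x2 ^ 2) (hv2 : v ^ 2 = y1 ^ 2 + y2 ^ 2) (hw0 : 0 ≤ w)
    (ht0 : 0 ≤ t) : (x2 * y1 - y2 * (t + x1)) ^ 2 ≤ v ^ 2 * (t + w) ^ 2 := by
  have hx1 : |x1| ≤ w := by
    apply abs_le_of_sq_le_sq _ hw0
    linarith [sq_nonneg x2]
  have hx1' := abs_le.mp hx1
  have s1 : (x2 * y1 - y2 * (t + x1)) ^ 2 ≤ (y1 ^ 2 + y2 ^ 2) * (x2 ^ 2 + (t + x1) ^ 2) := by
    have : (y1 ^ 2 + y2 ^ 2) * (x2 ^ 2 + (t + x1) ^ 2) - (x2 * y1 - y2 * (t + x1)) ^ 2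
        = (y1 * (t + x1) + y2 * x2) ^ 2 := by ring
    have h5 := sq_nonneg (y1 * (t + x1) + y2 * x2)
    rw [← this] at h5
    exact sub_nonneg.mp h5
  have s2 : x2 ^ 2 + (t + x1) ^ 2 ≤ (t + w) ^ 2 := by
    have h6 : t * x1 ≤ t * w := mul_le_mul_of_nonneg_left hx1'.2 ht0
    have h7 : x2 ^ 2 + (t + x1) ^ 2 = t ^ 2 + 2 * (t * x1) + w ^ 2 := by rw [hw2]; ring
    have h8 : (t + w) ^ 2 = t ^ 2 + 2 * (t * w) + w ^ 2 := by ring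
    rw [h7, h8]
    linarith only [h6]
  rw [← hv2] at s1
  exact s1.trans (mul_le_mul_of_nonneg_left s2 (sq_nonneg v))

private theorem S4_d {d0 d1 d2 d3 : ℝ} (k0 : 0 ≤ d0) (k1 : 0 ≤ d1) (k2 : 0 ≤ d2)
    (k3 : 0 ≤ d3) : (d0 - d1) ^ 2 + (d1 - d2) ^ 2 + (d2 - d3) ^ 2 + (d3 - d0) ^ 2
      ≤ 2 * (d0 + d1 + d2 + d3) ^ 2 := by
  have n01 := mul_nonneg k0 k1
  have n02 := mul_nonneg k0 k2
  have n03 := mul_nonneg k0 k3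
  have n12 := mul_nonneg k1 k2
  have n13 := mul_nonneg k1 k3
  have n23 := mul_nonneg k2 k3
  linarith

private theorem S4_two (a b : ℝ) : (a + b) ^ 2 ≤ 2 * a ^ 2 + 2 * b ^ 2 := by
  have h := sq_nonneg (a - b)
  linarith

private theorem S4_sg {t x1 x2 y1 y2 w v r0 r1 r2 r3 d0 d1 d2 d3 : ℝ}
    (hw2 : w ^ 2 = x1 ^ 2 + x2 ^ 2) (hv2 : v ^ 2 = y1 ^ 2 + y2 ^ 2) (hw0 : 0 ≤ w)
    (ht0 : 0 ≤ t) (h0 : 1 ≤ r0) (h1 : 1 ≤ r1) (h2 : 1 ≤ r2) (h3 : 1 ≤ r3)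
    (k0 : 0 ≤ d0) (k1 : 0 ≤ d1) (k2 : 0 ≤ d2) (k3 : 0 ≤ d3)
    (e0 : r0 ^ 2 = d0 + 1 + ((t - x1) ^ 2 + x2 ^ 2))
    (e1 : r1 ^ 2 = d1 + 1 + ((t + x1 - 2 * y2) ^ 2 + (x2 + 2 * y1) ^ 2))
    (e2 : r2 ^ 2 = d2 + 1 + ((t - x1) ^ 2 + x2 ^ 2))
    (e3 : r3 ^ 2 = d3 + 1 + ((t + x1 + 2 * y2) ^ 2 + (x2 - 2 * y1) ^ 2)) :
    (r0 - r1) ^ 2 + (r1 - r2) ^ 2 + (r2 - r3) ^ 2 + (r3 - r0) ^ 2 ≤
      (d0 + d1 + d2 + d3) ^ 2 + 32 * (v ^ 2 + t * w) ^ 2 + 32 * v ^ 2 * (t + w) ^ 2 := by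
  have ha2 := S4_a hw2 hv2 hw0 ht0
  have hb2 := S4_b hw2 hv2 hw0 ht0
  obtain ⟨a, ha⟩ : ∃ a, a = t * x1 + (y1 ^ 2 + y2 ^ 2) := ⟨_, rfl⟩
  obtain ⟨b, hb⟩ : ∃ b, b = x2 * y1 - y2 * (t + x1) := ⟨_, rfl⟩
  rw [← ha] at ha2
  rw [← hb] at hb2
  have p0 : r0 ^ 2 - r1 ^ 2 = (d0 - d1) + (-(4 * (a + b))) := by
    rw [ha, hb, e0, e1]; ring
  have p1 : r1 ^ 2 - r2 ^ 2 = (d1 - d2) + 4 * (a + b) := by
    rw [ha, hb, e1, e2]; ring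
  have p2 : r2 ^ 2 - r3 ^ 2 = (d2 - d3) + (-(4 * (a - b))) := by
    rw [ha, hb, e2, e3]; ring
  have p3 : r3 ^ 2 - r0 ^ 2 = (d3 - d0) + 4 * (a - b) := by
    rw [ha, hb, e3, e0]; ring
  have q0 := S4_sq h0 h1
  have q1 := S4_sq h1 h2
  have q2 := S4_sq h2 h3
  have q3 := S4_sq h3 h0
  rw [p0] at q0
  rw [p1] at q1
  rw [p2] at q2
  rw [p3] at q3
  have g0 := S4_two (d0 - d1) (-(4 * (a + b)))
  have g1 := S4_two (d1 - d2) (4 * (a + b))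
  have g2 := S4_two (d2 - d3) (-(4 * (a - b)))
  have g3 := S4_two (d3 - d0) (4 * (a - b))
  have hd := S4_d k0 k1 k2 k3
  have hab : (-(4 * (a + b))) ^ 2 + (4 * (a + b)) ^ 2 + (-(4 * (a - b))) ^ 2 + (4 * (a - b)) ^ 2
      = 64 * (a ^ 2 + b ^ 2) := by ring
  linarith only [q0, q1, q2, q3, g0, g1, g2, g3, hd, hab, ha2, hb2]

/-- Cauchy-Schwarz for four terms -/
private theorem S4_cs {m0 m1 m2 m3 u0 u1 u2 u3 M U : ℝ} (hM : 0 ≤ M) (hU : 0 ≤ U)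
    (h1 : m0 ^ 2 + m1 ^ 2 + m2 ^ 2 + m3 ^ 2 ≤ M ^ 2)
    (h2 : u0 ^ 2 + u1 ^ 2 + u2 ^ 2 + u3 ^ 2 ≤ U ^ 2) :
    m0 * u0 + m1 * u1 + m2 * u2 + m3 * u3 ≤ M * U := by
  have hcs : (m0 * u0 + m1 * u1 + m2 * u2 + m3 * u3) ^ 2 ≤
      (m0 ^ 2 + m1 ^ 2 + m2 ^ 2 + m3 ^ 2) * (u0 ^ 2 + u1 ^ 2 + u2 ^ 2 + u3 ^ 2) := by
    have : (m0 ^ 2 + m1 ^ 2 + m2 ^ 2 + m3 ^ 2) * (u0 ^ 2 + u1 ^ 2 + u2 ^ 2 + u3 ^ 2)
        - (m0 * u0 + m1 * u1 + m2 * u2 + m3 * u3) ^ 2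
        = (m0 * u1 - m1 * u0) ^ 2 + (m0 * u2 - m2 * u0) ^ 2 + (m0 * u3 - m3 * u0) ^ 2
          + (m1 * u2 - m2 * u1) ^ 2 + (m1 * u3 - m3 * u1) ^ 2 + (m2 * u3 - m3 * u2) ^ 2 := by ring
    linarith [sq_nonneg (m0 * u1 - m1 * u0), sq_nonneg (m0 * u2 - m2 * u0),
      sq_nonneg (m0 * u3 - m3 * u0), sq_nonneg (m1 * u2 - m2 * u1),
      sq_nonneg (m1 * u3 - m3 * u1), sq_nonneg (m2 * u3 - m3 * u2)]
  apply le_of_sq_le_sq _ (mul_nonneg hM hU)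
  calc _ ≤ _ := hcs
    _ ≤ M ^ 2 * U ^ 2 := by
        apply mul_le_mul h1 h2 (by positivity) (by positivity)
    _ = _ := by ring

/-- pointwise bound of `K` -/
private theorem S4_K {r r' : ℝ} (B B' : ℂ) (h : 0 < r) (h' : 0 < r') :
    ‖pK r B r' B'‖ ≤ (r + r') / 2 * ‖I * B' + B‖ + |(r - r') / 2| * ‖I * B' - B‖ := by
  have he3 : ‖e3‖ = 1 := by
    have h2 : Real.sqrt 2 * Real.sqrt 2 = 2 := Real.mul_self_sqrt (by norm_num)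
    have : ‖e3‖ ^ 2 = 1 := by
      rw [← Complex.normSq_eq_norm_sq, e3, Complex.normSq_mk]
      linarith
    have h0 := norm_nonneg e3
    nlinarith
  have e : (I * r * B' + r' * B) = (((r + r') / 2 : ℝ) : ℂ) * (I * B' + B)
      + (((r - r') / 2 : ℝ) : ℂ) * (I * B' - B) := by
    push_cast; ring
  have : ‖pK r B r' B'‖ = ‖(((r + r') / 2 : ℝ) : ℂ) * (I * B' + B)
      + (((r - r') / 2 : ℝ) : ℂ) * (I * B' - B)‖ := by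
    unfold pK
    rw [norm_neg, norm_mul, he3, one_mul, e]
  rw [this]
  refine (norm_add_le _ _).trans ?_
  rw [norm_mul, norm_mul, Complex.norm_real, Complex.norm_real, Real.norm_eq_abs,
    Real.norm_eq_abs, abs_of_pos (show 0 < (r + r') / 2 by positivity)]

private theorem S4_re (B B' : ℂ) : (e1 * B * (starRingEnd ℂ) B').re
    = cs * (B.re * B'.re + B.im * B'.im) - sn * (B.im * B'.re - B.re * B'.im) := by
  simp [e1, mul_re, mul_im]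
  ring

private theorem S4_im (B B' : ℂ) : (e1 * B * (starRingEnd ℂ) B').im
    = cs * (B.im * B'.re - B.re * B'.im) + sn * (B.re * B'.re + B.im * B'.im) := by
  simp [e1, mul_re, mul_im]
  ring

private theorem S4_np (a b c d : ℝ) : ‖I * (⟨c, d⟩ : ℂ) + ⟨a, b⟩‖ ^ 2 = (a - d) ^ 2 + (b + c) ^ 2 := by
  rw [← Complex.normSq_eq_norm_sq, Complex.normSq_apply]
  simp
  ring

private theorem S4_nm (a b c d : ℝ) : ‖I * (⟨c, d⟩ : ℂ) - ⟨a, b⟩‖ ^ 2 = (a + d) ^ 2 + (c - b) ^ 2 := by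
  rw [← Complex.normSq_eq_norm_sq, Complex.normSq_apply]
  simp
  ring

private theorem S4_T (r r' a b c d : ℝ) : pT r ⟨a, b⟩ r' ⟨c, d⟩
    = 3 / 2 * (sn * (r * r') - (cs * (a * c + b * d) - sn * (b * c - a * d))) := by
  unfold pT
  rw [S4_re]

private theorem S4_C (r r' a b c d : ℝ) : pC r ⟨a, b⟩ r' ⟨c, d⟩
    = Real.sqrt 3 / 2 * ((r ^ 2 - (a * a + b * b)) + (r' ^ 2 - (c * c + d * d)) - 2 * cs * (r * r')
      - 2 * (cs * (b * c - a * d) + sn * (a * c + b * d))) := by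
  unfold pC
  rw [S4_im, normSq_mk, normSq_mk]

private theorem S4_Ksum {t x1 x2 y1 y2 w v r0 r1 r2 r3 g G a b : ℝ}
    (hw2 : w ^ 2 = x1 ^ 2 + x2 ^ 2) (hv2 : v ^ 2 = y1 ^ 2 + y2 ^ 2)
    (h0 : 0 < r0) (h1 : 0 < r1) (h2 : 0 < r2) (h3 : 0 < r3) (hg : 0 ≤ g) (ha : 0 ≤ a) (hb : 0 ≤ b)
    (hr : r0 ^ 2 + r1 ^ 2 + r2 ^ 2 + r3 ^ 2 = 4 + g + 4 * (t ^ 2 + w ^ 2 + 2 * v ^ 2))
    (hG : G = 2 * t ^ 2 + 2 * w ^ 2 + 4 * v ^ 2)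
    (hS : (r0 - r1) ^ 2 + (r1 - r2) ^ 2 + (r2 - r3) ^ 2 + (r3 - r0) ^ 2 ≤
      g ^ 2 + 32 * a ^ 2 + 32 * b ^ 2) :
    ‖pK r0 ⟨t - x1, -x2⟩ r1 ⟨t + x1 - 2 * y2, x2 + 2 * y1⟩‖
      + ‖pK r1 ⟨t + x1 - 2 * y2, x2 + 2 * y1⟩ r2 ⟨t - x1, -x2⟩‖
      + ‖pK r2 ⟨t - x1, -x2⟩ r3 ⟨t + x1 + 2 * y2, x2 - 2 * y1⟩‖
      + ‖pK r3 ⟨t + x1 + 2 * y2, x2 - 2 * y1⟩ r0 ⟨t - x1, -x2⟩‖
      ≤ Real.sqrt G * (4 + 3 / 2 * g + G + 566 / 100 * a + 566 / 100 * b) := by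
  have hG0 : 0 ≤ G := by rw [hG]; positivity
  obtain ⟨R, hR⟩ : ∃ R, R = Real.sqrt G := ⟨_, rfl⟩
  have hR0 : 0 ≤ R := by rw [hR]; exact Real.sqrt_nonneg _
  have hR2 : R ^ 2 = G := by rw [hR]; exact Real.sq_sqrt hG0
  rw [← hR]
  have c0 := S4_K (⟨t - x1, -x2⟩ : ℂ) ⟨t + x1 - 2 * y2, x2 + 2 * y1⟩ h0 h1
  have c1 := S4_K (⟨t + x1 - 2 * y2, x2 + 2 * y1⟩ : ℂ) ⟨t - x1, -x2⟩ h1 h2
  have c2 := S4_K (⟨t - x1, -x2⟩ : ℂ) ⟨t + x1 + 2 * y2, x2 - 2 * y1⟩ h2 h3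
  have c3 := S4_K (⟨t + x1 + 2 * y2, x2 - 2 * y1⟩ : ℂ) ⟨t - x1, -x2⟩ h3 h0
  have u0 := S4_np (t - x1) (-x2) (t + x1 - 2 * y2) (x2 + 2 * y1)
  have u1 := S4_np (t + x1 - 2 * y2) (x2 + 2 * y1) (t - x1) (-x2)
  have u2 := S4_np (t - x1) (-x2) (t + x1 + 2 * y2) (x2 - 2 * y1)
  have u3 := S4_np (t + x1 + 2 * y2) (x2 - 2 * y1) (t - x1) (-x2)
  have w0 := S4_nm (t - x1) (-x2) (t + x1 - 2 * y2) (x2 + 2 * y1)
  have w1 := S4_nm (t + x1 - 2 * y2) (x2 + 2 * y1) (t - x1) (-x2)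
  have w2 := S4_nm (t - x1) (-x2) (t + x1 + 2 * y2) (x2 - 2 * y1)
  have w3 := S4_nm (t + x1 + 2 * y2) (x2 - 2 * y1) (t - x1) (-x2)
  have su : ‖I * (⟨t + x1 - 2 * y2, x2 + 2 * y1⟩ : ℂ) + ⟨t - x1, -x2⟩‖ ^ 2
      + ‖I * (⟨t - x1, -x2⟩ : ℂ) + ⟨t + x1 - 2 * y2, x2 + 2 * y1⟩‖ ^ 2
      + ‖I * (⟨t + x1 + 2 * y2, x2 - 2 * y1⟩ : ℂ) + ⟨t - x1, -x2⟩‖ ^ 2
      + ‖I * (⟨t - x1, -x2⟩ : ℂ) + ⟨t + x1 + 2 * y2, x2 - 2 * y1⟩‖ ^ 2 ≤ (2 * R) ^ 2 := by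
    rw [u0, u1, u2, u3]
    apply le_of_eq
    have : (2 * R) ^ 2 = 4 * G := by rw [← hR2]; ring
    rw [this, hG, hw2, hv2]
    ring
  have sw : ‖I * (⟨t + x1 - 2 * y2, x2 + 2 * y1⟩ : ℂ) - ⟨t - x1, -x2⟩‖ ^ 2
      + ‖I * (⟨t - x1, -x2⟩ : ℂ) - ⟨t + x1 - 2 * y2, x2 + 2 * y1⟩‖ ^ 2
      + ‖I * (⟨t + x1 + 2 * y2, x2 - 2 * y1⟩ : ℂ) - ⟨t - x1, -x2⟩‖ ^ 2
      + ‖I * (⟨t - x1, -x2⟩ : ℂ) - ⟨t + x1 + 2 * y2, x2 - 2 * y1⟩‖ ^ 2 ≤ (2 * R) ^ 2 := by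
    rw [w0, w1, w2, w3]
    apply le_of_eq
    have : (2 * R) ^ 2 = 4 * G := by rw [← hR2]; ring
    rw [this, hG, hw2, hv2]
    ring
  clear u0 u1 u2 u3 w0 w1 w2 w3
  have sm : ((r0 + r1) / 2) ^ 2 + ((r1 + r2) / 2) ^ 2 + ((r2 + r3) / 2) ^ 2 + ((r3 + r0) / 2) ^ 2
      ≤ (2 + g / 4 + G / 2) ^ 2 := by
    have e1 : ((r0 + r1) / 2) ^ 2 + ((r1 + r2) / 2) ^ 2 + ((r2 + r3) / 2) ^ 2 + ((r3 + r0) / 2) ^ 2
        = (r0 ^ 2 + r1 ^ 2 + r2 ^ 2 + r3 ^ 2)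
          - ((r0 - r1) ^ 2 + (r1 - r2) ^ 2 + (r2 - r3) ^ 2 + (r3 - r0) ^ 2) / 4 := by ring
    have e2 : (2 + g / 4 + G / 2) ^ 2 = 4 + g + 2 * G + (g / 4 + G / 2) ^ 2 := by ring
    have e3 : 0 ≤ (r0 - r1) ^ 2 + (r1 - r2) ^ 2 + (r2 - r3) ^ 2 + (r3 - r0) ^ 2 := by positivity
    have e4 := sq_nonneg (g / 4 + G / 2)
    rw [e1, e2, hr]
    linarith only [e3, e4, hG]
  have sd : |(r0 - r1) / 2| ^ 2 + |(r1 - r2) / 2| ^ 2 + |(r2 - r3) / 2| ^ 2 + |(r3 - r0) / 2| ^ 2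
      ≤ ((g + 566 / 100 * a + 566 / 100 * b) / 2) ^ 2 := by
    rw [sq_abs, sq_abs, sq_abs, sq_abs]
    have e1 : ((r0 - r1) / 2) ^ 2 + ((r1 - r2) / 2) ^ 2 + ((r2 - r3) / 2) ^ 2 + ((r3 - r0) / 2) ^ 2
        = ((r0 - r1) ^ 2 + (r1 - r2) ^ 2 + (r2 - r3) ^ 2 + (r3 - r0) ^ 2) / 4 := by ring
    rw [e1]
    have n1 := mul_nonneg hg ha
    have n2 := mul_nonneg hg hb
    have n3 := mul_nonneg ha hb
    have n4 := sq_nonneg a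
    have n5 := sq_nonneg b
    have e2 : ((g + 566 / 100 * a + 566 / 100 * b) / 2) ^ 2
        = (g ^ 2 + (566 / 100) ^ 2 * a ^ 2 + (566 / 100) ^ 2 * b ^ 2 + 2 * (566 / 100) * (g * a)
          + 2 * (566 / 100) * (g * b) + 2 * (566 / 100) ^ 2 * (a * b)) / 4 := by ring
    rw [e2]
    linarith only [hS, n1, n2, n3, n4, n5]
  have q1 := S4_cs (by positivity) (by positivity) sm su
  have q2 := S4_cs (by positivity) (by positivity) sd sw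
  have e : (2 + g / 4 + G / 2) * (2 * R) + (g + 566 / 100 * a + 566 / 100 * b) / 2 * (2 * R)
      = R * (4 + 3 / 2 * g + G + 566 / 100 * a + 566 / 100 * b) := by ring
  rw [← e]
  linarith only [c0, c1, c2, c3, q1, q2]

private theorem S4_final {lam A0 A1 A2 A3 A4 A5 kap q g X Y T2 S K S' K' : ℝ} (h1 : 1 ≤ lam)
    (h2 : lam ≤ 1 + 11 / 10000000) (hk : lam * kap = 757773 / 1000000)
    (a0 : 5796 / 1000000 ≤ A0) (a1 : 3922 / 10000 ≤ A1) (a2 : 67587 / 10000 ≤ A2)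
    (a3 : 16059 / 10000 ≤ A3) (a4 : A4 ≤ 515277 / 100000) (a5 : A5 ≤ 1003745 / 10000000)
    (hg : 0 ≤ g) (hX : 0 ≤ X) (hY : 0 ≤ Y) (hT : 0 ≤ T2) (hS : S ≤ S') (hK : K ≤ K')
    (hA5 : 0 ≤ A5) (hS0 : 0 ≤ S') (hK0 : 0 ≤ K')
    (hm : A0 + A1 * g + A2 * X + A3 * Y ≤ A4 * T2 + A5 * S
      + (621 / 1000 * (89 / 500) ^ 2) * K + kap * (q * g)) :
    5796 / 1000000 + (3922 / 10000 - 757773 / 1000000 * q) * g + 67587 / 10000 * X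
      + 16059 / 10000 * Y ≤ 51528 / 10000 * T2
      + 100375 / 1000000 * S' + 19676 / 1000000 * K' := by
  have hl : 0 ≤ lam := by linarith only [h1]
  have b1 : 5796 / 1000000 + 3922 / 10000 * g + 67587 / 10000 * X + 16059 / 10000 * Y
      ≤ A0 + A1 * g + A2 * X + A3 * Y := by
    have := mul_le_mul_of_nonneg_right a1 hg
    have := mul_le_mul_of_nonneg_right a2 hX
    have := mul_le_mul_of_nonneg_right a3 hY
    linarith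
  have b1' : 0 ≤ 5796 / 1000000 + 3922 / 10000 * g + 67587 / 10000 * X + 16059 / 10000 * Y := by
    positivity
  have b2 : 5796 / 1000000 + 3922 / 10000 * g + 67587 / 10000 * X + 16059 / 10000 * Y
      ≤ lam * (A0 + A1 * g + A2 * X + A3 * Y) := by
    have := mul_le_mul_of_nonneg_left b1 hl
    have := mul_le_mul_of_nonneg_right h1 b1'
    linarith
  have b3 : A4 * T2 + A5 * S + (621 / 1000 * (89 / 500) ^ 2) * K
      ≤ 515277 / 100000 * T2 + 1003745 / 10000000 * S' + (621 / 1000 * (89 / 500) ^ 2) * K' := by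
    have t1 := mul_le_mul_of_nonneg_right a4 hT
    have t2 := mul_le_mul_of_nonneg_left hS hA5
    have t3 := mul_le_mul_of_nonneg_right a5 hS0
    linarith
  have b4 : lam * (A4 * T2 + A5 * S + (621 / 1000 * (89 / 500) ^ 2) * K)
      ≤ lam * (515277 / 100000 * T2 + 1003745 / 10000000 * S'
        + (621 / 1000 * (89 / 500) ^ 2) * K') := mul_le_mul_of_nonneg_left b3 hl
  have b5 : lam * (515277 / 100000 * T2 + 1003745 / 10000000 * S'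
        + (621 / 1000 * (89 / 500) ^ 2) * K')
      ≤ (1 + 11 / 10000000) * (515277 / 100000 * T2 + 1003745 / 10000000 * S'
        + (621 / 1000 * (89 / 500) ^ 2) * K') := by
    apply mul_le_mul_of_nonneg_right h2
    positivity
  have b6 : (1 + 11 / 10000000) * (515277 / 100000 * T2 + 1003745 / 10000000 * S'
        + (621 / 1000 * (89 / 500) ^ 2) * K') ≤ 51528 / 10000 * T2
      + 100375 / 1000000 * S' + 19676 / 1000000 * K' := by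
    linarith only [hT, hS0, hK0]
  have b7 := mul_le_mul_of_nonneg_left hm hl
  have b8 : lam * (A4 * T2 + A5 * S + (621 / 1000 * (89 / 500) ^ 2) * K + kap * (q * g))
      = lam * (A4 * T2 + A5 * S + (621 / 1000 * (89 / 500) ^ 2) * K)
        + 757773 / 1000000 * (q * g) := by
    rw [← hk]; ring
  rw [b8] at b7
  linarith only [b2, b4, b5, b6, b7]

private theorem S4_num : ∃ A E k : ℝ,
    A = 3 / 2 * (1 - 621 / 1000 * (89 / 500) ^ 2 / 3) * sn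
      - 621 / 1000 * (89 / 500) * (Real.sqrt 3 * cs) ∧
    E = 6 * (1 - 621 / 1000 * (89 / 500) ^ 2 / 3) * cs
      + 4 * (621 / 1000 * (89 / 500)) * (Real.sqrt 3 * sn) ∧
    k = 621 / 1000 * (89 / 500) * Real.sqrt 3 ∧
    5796 / 1000000 ≤ 4 * (A + k) - 15630273 / 10000000 ∧ 3922 / 10000 ≤ A + k ∧
    67587 / 10000 ≤ 4 * A + E ∧ 16059 / 10000 ≤ 8 * A ∧ E - 4 * A ≤ 515277 / 100000 ∧
    A / 2 ≤ 1003745 / 10000000 ∧ 0 ≤ A / 2 ∧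
    ∃ lam : ℝ, 1 ≤ lam ∧ lam ≤ 1 + 11 / 10000000 ∧
      lam * (7 * Real.sqrt 3 / 16) = 757773 / 1000000 := by
  have b2 : (14142135623 / 10000000000 : ℝ) ≤ Real.sqrt 2 := by
    apply Real.le_sqrt_of_sq_le; norm_num
  have b2' : Real.sqrt 2 ≤ 14142135624 / 10000000000 := by
    apply Real.sqrt_le_iff.mpr; constructor <;> norm_num
  have b3 : (17320508075 / 10000000000 : ℝ) ≤ Real.sqrt 3 := by
    apply Real.le_sqrt_of_sq_le; norm_num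
  have b3' : Real.sqrt 3 ≤ 17320508076 / 10000000000 := by
    apply Real.sqrt_le_iff.mpr; constructor <;> norm_num
  have b6 : (24494897427 / 10000000000 : ℝ) ≤ Real.sqrt 6 := by
    apply Real.le_sqrt_of_sq_le; norm_num
  have b6' : Real.sqrt 6 ≤ 24494897428 / 10000000000 := by
    apply Real.sqrt_le_iff.mpr; constructor <;> norm_num
  have e6 : Real.sqrt 6 = Real.sqrt 3 * Real.sqrt 2 := by
    rw [← Real.sqrt_mul (by norm_num)]; norm_num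
  have e3 : Real.sqrt 3 * Real.sqrt 3 = 3 := Real.mul_self_sqrt (by norm_num)
  have pc : Real.sqrt 3 * cs = (3 * Real.sqrt 2 + Real.sqrt 6) / 4 := by
    unfold cs
    have : Real.sqrt 3 * Real.sqrt 6 = 3 * Real.sqrt 2 := by
      rw [e6, ← mul_assoc, e3]
    linear_combination (1 / 4) * this - (1 / 4) * e6
  have ps : Real.sqrt 3 * sn = (3 * Real.sqrt 2 - Real.sqrt 6) / 4 := by
    unfold sn
    have : Real.sqrt 3 * Real.sqrt 6 = 3 * Real.sqrt 2 := by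
      rw [e6, ← mul_assoc, e3]
    linear_combination (1 / 4) * this + (1 / 4) * e6
  have hs : sn = (Real.sqrt 6 - Real.sqrt 2) / 4 := rfl
  have hc : cs = (Real.sqrt 6 + Real.sqrt 2) / 4 := rfl
  refine ⟨_, _, _, rfl, rfl, rfl, ?_, ?_, ?_, ?_, ?_, ?_, ?_, ?_⟩
  · rw [pc, hs]; linarith only [b2, b2', b3, b3', b6, b6']
  · rw [pc, hs]; linarith only [b2, b2', b3, b3', b6, b6']
  · rw [pc, ps, hs, hc]; linarith only [b2, b2', b3, b3', b6, b6']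
  · rw [pc, hs]; linarith only [b2, b2', b3, b3', b6, b6']
  · rw [pc, ps, hs, hc]; linarith only [b2, b2', b3, b3', b6, b6']
  · rw [pc, hs]; linarith only [b2, b2', b3, b3', b6, b6']
  · rw [pc, hs]; linarith only [b2, b2', b3, b3', b6, b6']
  · have hk : 0 < 7 * Real.sqrt 3 / 16 := by positivity
    refine ⟨757773 / 1000000 / (7 * Real.sqrt 3 / 16), ?_, ?_, ?_⟩
    · rw [le_div_iff₀ hk]; linarith only [b3']
    · rw [div_le_iff₀ hk]; linarith only [b3]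
    · field_simp

set_option linter.unusedVariables false in
/-- (F5) inequality S4 -/
theorem fin_S4 {t : ℝ} {r : ℕ → ℝ} {B : ℕ → ℂ} (h : Cf t r B) {w v g q : ℝ} (hw : w = ‖cx t B‖)
    (hv : v = ‖cy B‖) (hg : g = sig r B) (hG : ∀ k, 0 < Gh r B k)
    (hq : ∀ k, rt r B k + rt r B (k + 1) ≤ q)
    (hF : ∑ k ∈ range 4, farval r B k ≤ 15630273 / 10000000) :
    5796 / 1000000 + (3922 / 10000 - 757773 / 1000000 * q) * g + 67587 / 10000 * w ^ 2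
      + 16059 / 10000 * v ^ 2 ≤ 51528 / 10000 * t ^ 2
      + 100375 / 1000000 * (g ^ 2 + 32 * (v ^ 2 + t * w) ^ 2 + 32 * v ^ 2 * (t + w) ^ 2)
      + 19676 / 1000000 * (Real.sqrt (2 * t ^ 2 + 2 * w ^ 2 + 4 * v ^ 2)
        * (4 + 3 / 2 * g + (2 * t ^ 2 + 2 * w ^ 2 + 4 * v ^ 2)
          + 566 / 100 * (v ^ 2 + t * w) + 566 / 100 * v * (t + w))) := by
  clear hG
  obtain ⟨x1, x2, y1, y2, hx, hy, hB0, hB1, hB2, hB3⟩ := S4_coords h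
  have hw2 : w ^ 2 = x1 ^ 2 + x2 ^ 2 := by
    rw [hw, hx, ← Complex.normSq_eq_norm_sq, Complex.normSq_mk]; ring
  have hv2 : v ^ 2 = y1 ^ 2 + y2 ^ 2 := by
    rw [hv, hy, ← Complex.normSq_eq_norm_sq, Complex.normSq_mk]; ring
  have hw0 : 0 ≤ w := by rw [hw]; exact norm_nonneg _
  have hv0 : 0 ≤ v := by rw [hv]; exact norm_nonneg _
  have ht0 := h.t0
  have r4 : r 4 = r 0 := h.rper 0
  have r5 : r 5 = r 1 := h.rper 1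
  have B4 : B 4 = B 0 := h.Bper 0
  have B5 : B 5 = B 1 := h.Bper 1
  have p0 := h.rpos 0
  have p1 := h.rpos 1
  have p2 := h.rpos 2
  have p3 := h.rpos 3
  have D0 := h.D1 0
  have D1 := h.D1 1
  have D2 := h.D1 2
  have D3 := h.D1 3
  have hg' : g = (r 0 ^ 2 - normSq (B 0) - 1) + (r 1 ^ 2 - normSq (B 1) - 1)
      + (r 2 ^ 2 - normSq (B 2) - 1) + (r 3 ^ 2 - normSq (B 3) - 1) := by
    rw [hg]; unfold sig
    simp only [Finset.sum_range_succ, Finset.sum_range_zero, zero_add]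
  have hr4 : rt r B 4 = rt r B 0 := by
    unfold rt Gh
    show pC (r 4) (B 4) (r 5) (B 5) / (2 / 3 * pT (r 4) (B 4) (r 5) (B 5)
      + 2 * ‖pK (r 4) (B 4) (r 5) (B 5)‖) = pC (r 0) (B 0) (r 1) (B 1)
      / (2 / 3 * pT (r 0) (B 0) (r 1) (B 1) + 2 * ‖pK (r 0) (B 0) (r 1) (B 1)‖)
    rw [r4, r5, B4, B5]
  have q0 := hq 0
  have q1 := hq 1
  have q2 := hq 2
  have q3 := hq 3
  clear hq
  simp only [Nat.reduceAdd, zero_add] at q0 q1 q2 q3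
  rw [hr4] at q3
  simp only [Finset.sum_range_succ, Finset.sum_range_zero, zero_add] at hF
  unfold farval Gh at hF
  simp only [Nat.reduceAdd, zero_add] at hF
  rw [r4, B4] at hF
  generalize rt r B 0 = ρ0 at q0 q3 hF
  generalize rt r B 1 = ρ1 at q0 q1 hF
  generalize rt r B 2 = ρ2 at q1 q2 hF
  generalize rt r B 3 = ρ3 at q2 q3 hF
  rw [hB0, hB1, hB2, hB3] at hF hg'
  rw [hB0] at D0
  rw [hB1] at D1
  rw [hB2] at D2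
  rw [hB3] at D3
  clear hB0 hB1 hB2 hB3 r4 r5 B4 B5 hr4 hg hw hv hx hy h
  generalize r 0 = a0 at p0 D0 hF hg'
  generalize r 1 = a1 at p1 D1 hF hg'
  generalize r 2 = a2 at p2 D2 hF hg'
  generalize r 3 = a3 at p3 D3 hF hg'
  simp only [normSq_mk] at D0 D1 D2 D3 hF hg'
  obtain ⟨d0, hd0⟩ : ∃ d, d = a0 ^ 2 - ((t - x1) * (t - x1) + -x2 * -x2) - 1 := ⟨_, rfl⟩
  obtain ⟨d1, hd1⟩ : ∃ d, d = a1 ^ 2 - ((t + x1 - 2 * y2) * (t + x1 - 2 * y2)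
    + (x2 + 2 * y1) * (x2 + 2 * y1)) - 1 := ⟨_, rfl⟩
  obtain ⟨d2, hd2⟩ : ∃ d, d = a2 ^ 2 - ((t - x1) * (t - x1) + -x2 * -x2) - 1 := ⟨_, rfl⟩
  obtain ⟨d3, hd3⟩ : ∃ d, d = a3 ^ 2 - ((t + x1 + 2 * y2) * (t + x1 + 2 * y2)
    + (x2 - 2 * y1) * (x2 - 2 * y1)) - 1 := ⟨_, rfl⟩
  have k0 : 0 ≤ d0 := by rw [hd0]; linarith only [D0]
  have k1 : 0 ≤ d1 := by rw [hd1]; linarith only [D1]
  have k2 : 0 ≤ d2 := by rw [hd2]; linarith only [D2]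
  have k3 : 0 ≤ d3 := by rw [hd3]; linarith only [D3]
  clear D0 D1 D2 D3
  rw [← hd0, ← hd1, ← hd2, ← hd3] at hF hg'
  have e0 : a0 ^ 2 = d0 + 1 + ((t - x1) ^ 2 + x2 ^ 2) := by rw [hd0]; ring
  have e1 : a1 ^ 2 = d1 + 1 + ((t + x1 - 2 * y2) ^ 2 + (x2 + 2 * y1) ^ 2) := by rw [hd1]; ring
  have e2 : a2 ^ 2 = d2 + 1 + ((t - x1) ^ 2 + x2 ^ 2) := by rw [hd2]; ring
  have e3 : a3 ^ 2 = d3 + 1 + ((t + x1 + 2 * y2) ^ 2 + (x2 - 2 * y1) ^ 2) := by rw [hd3]; ring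
  clear hd0 hd1 hd2 hd3
  have hge0 : 0 ≤ g := by rw [hg']; linarith only [k0, k1, k2, k3]
  have o1 : ∀ a d N : ℝ, 0 < a → 0 ≤ d → 0 ≤ N → a ^ 2 = d + 1 + N → 1 ≤ a := by
    intro a d N ha hd hN he
    by_contra hcon
    have hlt : a < 1 := not_le.mp hcon
    have : a ^ 2 < 1 := by
      rw [sq]
      calc a * a < 1 * 1 := mul_lt_mul'' hlt hlt ha.le ha.le
        _ = 1 := by norm_num
    linarith
  have l0 := o1 a0 d0 _ p0 k0 (by positivity) e0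
  have l1 := o1 a1 d1 _ p1 k1 (by positivity) e1
  have l2 := o1 a2 d2 _ p2 k2 (by positivity) e2
  have l3 := o1 a3 d3 _ p3 k3 (by positivity) e3
  have hS := S4_sg hw2 hv2 hw0 ht0 l0 l1 l2 l3 k0 k1 k2 k3 e0 e1 e2 e3
  rw [← hg'] at hS
  have hr : a0 ^ 2 + a1 ^ 2 + a2 ^ 2 + a3 ^ 2 = 4 + g + 4 * (t ^ 2 + w ^ 2 + 2 * v ^ 2) := by
    rw [e0, e1, e2, e3, hg', hw2, hv2]; ring
  have hbq : (v * (t + w)) ^ 2 = v ^ 2 * (t + w) ^ 2 := by ring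
  have hK := S4_Ksum (a := v ^ 2 + t * w) (b := v * (t + w)) hw2 hv2 p0 p1 p2 p3 hge0
    (by positivity) (by positivity) hr rfl (by rw [hbq, ← mul_assoc 32]; exact hS)
  simp only [S4_T, S4_C] at hF
  generalize ‖pK a0 ⟨t - x1, -x2⟩ a1 ⟨t + x1 - 2 * y2, x2 + 2 * y1⟩‖ = K0 at hF hK
  generalize ‖pK a1 ⟨t + x1 - 2 * y2, x2 + 2 * y1⟩ a2 ⟨t - x1, -x2⟩‖ = K1 at hF hK
  generalize ‖pK a2 ⟨t - x1, -x2⟩ a3 ⟨t + x1 + 2 * y2, x2 - 2 * y1⟩‖ = K2 at hF hK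
  generalize ‖pK a3 ⟨t + x1 + 2 * y2, x2 - 2 * y1⟩ a0 ⟨t - x1, -x2⟩‖ = K3 at hF hK
  obtain ⟨A, E, k, hA, hE, hk, n0, n1, n2, n3, n4, n5, n6, lam, lam1, lam2, lam3⟩ := S4_num
  -- the term with `q`
  have hQ : ρ0 * (d0 + d1) + ρ1 * (d1 + d2) + ρ2 * (d2 + d3) + ρ3 * (d3 + d0) ≤ q * g := by
    have m0 := mul_le_mul_of_nonneg_left q3 k0
    have m1 := mul_le_mul_of_nonneg_left q0 k1
    have m2 := mul_le_mul_of_nonneg_left q1 k2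
    have m3 := mul_le_mul_of_nonneg_left q2 k3
    rw [hg']
    linarith only [m0, m1, m2, m3]
  have hQ' := mul_le_mul_of_nonneg_left hQ
    (show 0 ≤ 7 * Real.sqrt 3 / 16 by positivity)
  have key : 4 * (A + k) - 15630273 / 10000000 + (A + k) * g + (4 * A + E) * w ^ 2
      + 8 * A * v ^ 2 ≤ (E - 4 * A) * t ^ 2
      + A / 2 * ((a0 - a1) ^ 2 + (a1 - a2) ^ 2 + (a2 - a3) ^ 2 + (a3 - a0) ^ 2)
      + 621 / 1000 * (89 / 500) ^ 2 * (K0 + K1 + K2 + K3)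
      + 7 * Real.sqrt 3 / 16 * (q * g) := by
    clear hK hS hr hbq n0 n1 n2 n3 n4 n5 n6 lam1 lam2 lam3 l0 l1 l2 l3 o1 q0 q1 q2 q3 hQ
    subst hA hE hk
    linear_combination hF + hQ'
      + ((3 / 2 * (1 - 621 / 1000 * (89 / 500) ^ 2 / 3) * sn
        - 621 / 1000 * (89 / 500) * (Real.sqrt 3 * cs)) + 621 / 1000 * (89 / 500) * Real.sqrt 3)
        * (hg' - e0 - e1 - e2 - e3)
      + (4 * (3 / 2 * (1 - 621 / 1000 * (89 / 500) ^ 2 / 3) * sn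
        - 621 / 1000 * (89 / 500) * (Real.sqrt 3 * cs))
        + (6 * (1 - 621 / 1000 * (89 / 500) ^ 2 / 3) * cs
      + 4 * (621 / 1000 * (89 / 500)) * (Real.sqrt 3 * sn))) * hw2
      + 8 * (3 / 2 * (1 - 621 / 1000 * (89 / 500) ^ 2 / 3) * sn
        - 621 / 1000 * (89 / 500) * (Real.sqrt 3 * cs)) * hv2
  have fin := S4_final (X := w ^ 2) (Y := v ^ 2) (T2 := t ^ 2) lam1 lam2 lam3 n0 n1 n2 n3 n4 n5 hge0
    (sq_nonneg w) (sq_nonneg v) (sq_nonneg t) hS hK n6 (by positivity) (by positivity) key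
  have e : Real.sqrt (2 * t ^ 2 + 2 * w ^ 2 + 4 * v ^ 2)
      * (4 + 3 / 2 * g + (2 * t ^ 2 + 2 * w ^ 2 + 4 * v ^ 2)
          + 566 / 100 * (v ^ 2 + t * w) + 566 / 100 * v * (t + w))
      = Real.sqrt (2 * t ^ 2 + 2 * w ^ 2 + 4 * v ^ 2)
      * (4 + 3 / 2 * g + (2 * t ^ 2 + 2 * w ^ 2 + 4 * v ^ 2)
          + 566 / 100 * (v ^ 2 + t * w) + 566 / 100 * (v * (t + w))) := by ring
  rw [e]
  exact fin

end Rein83
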