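import Pool.Agent.Rein83.FinRDefs
import Pool.Agent.Rein83.FinS1

set_option autoImplicit false

/-! Section F, module F12: the canonical far inequality in scalar form. -/

namespace Rein83

open Complex Finset Rein69

namespace S4cAux

/-! ### numerical facts -/

lemma q2_ge : (14142135623 : ℝ) / 10000000000 ≤ Real.sqrt 2 :=
  Real.le_sqrt_of_sq_le (by norm_num)

lemma q2_le : Real.sqrt 2 ≤ (14142135624 : ℝ) / 10000000000 :=
  Real.sqrt_le_iff.2 ⟨by norm_num, by norm_num⟩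

lemma q3_ge : (17320508075 : ℝ) / 10000000000 ≤ Real.sqrt 3 :=
  Real.le_sqrt_of_sq_le (by norm_num)

lemma q3_le : Real.sqrt 3 ≤ (17320508076 : ℝ) / 10000000000 :=
  Real.sqrt_le_iff.2 ⟨by norm_num, by norm_num⟩

lemma q6_ge : (24494897427 : ℝ) / 10000000000 ≤ Real.sqrt 6 :=
  Real.le_sqrt_of_sq_le (by norm_num)

lemma q6_le : Real.sqrt 6 ≤ (24494897428 : ℝ) / 10000000000 :=
  Real.sqrt_le_iff.2 ⟨by norm_num, by norm_num⟩

lemma q6_eq : Real.sqrt 6 = Real.sqrt 2 * Real.sqrt 3 := by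
  rw [← Real.sqrt_mul (by norm_num)]; norm_num

lemma q3_cs : Real.sqrt 3 * cs = (3 * Real.sqrt 2 + Real.sqrt 6) / 4 := by
  have h3 : Real.sqrt 3 ^ 2 = 3 := Real.sq_sqrt (by norm_num)
  unfold cs
  rw [q6_eq]
  linear_combination (Real.sqrt 2 / 4) * h3

lemma q3_sn : Real.sqrt 3 * sn = (3 * Real.sqrt 2 - Real.sqrt 6) / 4 := by
  have h3 : Real.sqrt 3 ^ 2 = 3 := Real.sq_sqrt (by norm_num)
  unfold sn
  rw [q6_eq]
  linear_combination (Real.sqrt 2 / 4) * h3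

/-! ### the sums -/

/-- exact formula for the sum of the `C1` -/
theorem sum_C {t : ℝ} {r : ℕ → ℝ} {B : ℕ → ℂ} (h : Cf t r B) :
    ∑ k ∈ range 4, pC (r k) (B k) (r (k + 1)) (B (k + 1)) =
      Real.sqrt 3 / 2 * ((2 - 2 * cs) * (4 + sig r B) - 8 * ((cs - sn) * ‖cx t B‖ ^ 2
        + 2 * cs * ‖cy B‖ ^ 2 + (cs + sn) * t ^ 2) + cs * Sg r) := by
  have h1 : ∑ k ∈ range 4, pC (r k) (B k) (r (k + 1)) (B (k + 1)) =
      Real.sqrt 3 / 2 * (2 * ((r 0 ^ 2 + r 1 ^ 2 + r 2 ^ 2 + r 3 ^ 2)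
        - (normSq (B 0) + normSq (B 1) + normSq (B 2) + normSq (B 3)))
      - 2 * cs * (r 0 * r 1 + r 1 * r 2 + r 2 * r 3 + r 3 * r 0)
      - 2 * ((e1 * B 0 * (starRingEnd ℂ) (B 1)).im + (e1 * B 1 * (starRingEnd ℂ) (B 2)).im
      + (e1 * B 2 * (starRingEnd ℂ) (B 3)).im + (e1 * B 3 * (starRingEnd ℂ) (B 0)).im)) := by
    simp only [pC, sum_range_succ, sum_range_zero, zero_add]
    rw [h.r4, h.B4]
    ring
  rw [h1, h.sum_rr, h.sum_im, h.sum_rsq, h.sum_normSq]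
  ring

/-- the sum of the four `K` -/
theorem sum_K {t : ℝ} {r : ℕ → ℝ} {B : ℕ → ℂ} (h : Cf t r B) {x1 x2 y1 y2 : ℝ}
    (h0 : B 0 = ⟨t - x1, -x2⟩) (h1 : B 1 = ⟨t + x1 - 2 * y2, x2 + 2 * y1⟩)
    (h2 : B 2 = ⟨t - x1, -x2⟩) (h3 : B 3 = ⟨t + x1 + 2 * y2, x2 - 2 * y1⟩) :
    ∑ k ∈ range 4, -(2 * (pK (r k) (B k) (r (k + 1)) (B (k + 1))).im) =
      2 * Real.sqrt 2 * ((r 0 + r 1 + r 2 + r 3) * t + ((r 0 - r 1) + (r 2 - r 3)) * x1
        - 2 * (r 0 - r 2) * y1) := by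
  simp only [pK, sum_range_succ, sum_range_zero, zero_add]
  rw [h.r4, h.B4, h0, h1, h2, h3]
  simp only [e3, mul_re, mul_im, add_re, add_im, neg_im, I_re, I_im, ofReal_re, ofReal_im]
  ring

/-- the sum of the `farc` -/
theorem sum_farc {r : ℕ → ℝ} {B : ℕ → ℂ} :
    ∑ k ∈ range 4, farc r B k = (1 - 1639647 / 250000000) * sT r B
      + 55269 / 500000 * ∑ k ∈ range 4, pC (r k) (B k) (r (k + 1)) (B (k + 1))
      - 4918941 / 500000000 * ∑ k ∈ range 4, -(2 * (pK (r k) (B k) (r (k + 1)) (B (k + 1))).im)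
      - 7 / 16 * Real.sqrt 3 * ∑ k ∈ range 4, rc r B k * (dd r B k + dd r B (k + 1)) := by
  simp only [farc, sT, pG0, dd, sum_range_succ, sum_range_zero, zero_add]
  ring

/-- the ratio term -/
theorem ratio_le {t : ℝ} {r : ℕ → ℝ} {B : ℕ → ℂ} (h : Cf t r B) {q : ℝ}
    (hq : ∀ k, rc r B k + rc r B (k + 1) ≤ q) :
    ∑ k ∈ range 4, rc r B k * (dd r B k + dd r B (k + 1)) ≤ q * sig r B := by
  have hd4 : dd r B 4 = dd r B 0 := by
    unfold dd; rw [h.r4, h.B4]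
  have hr4 : rc r B 4 = rc r B 0 := by
    have h5 : r (4 + 1) = r (0 + 1) := h.rper 1
    have h6 : B (4 + 1) = B (0 + 1) := h.Bper 1
    unfold rc; rw [h.r4, h.B4, h5, h6]
  simp only [sum_range_succ, sum_range_zero, zero_add]
  norm_num
  rw [hd4, sig_eq]
  have a0 := mul_le_mul_of_nonneg_right (hq 3) (h.dd_nonneg 0)
  have a1 := mul_le_mul_of_nonneg_right (hq 0) (h.dd_nonneg 1)
  have a2 := mul_le_mul_of_nonneg_right (hq 1) (h.dd_nonneg 2)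
  have a3 := mul_le_mul_of_nonneg_right (hq 2) (h.dd_nonneg 3)
  norm_num at a0 a1 a2 a3
  rw [hr4] at a0
  linarith

/-- bound of the sum of the `K` -/
theorem K_le {t : ℝ} {r : ℕ → ℝ} {B : ℕ → ℂ} (h : Cf t r B) :
    ∑ k ∈ range 4, -(2 * (pK (r k) (B k) (r (k + 1)) (B (k + 1))).im) ≤
      2 * Real.sqrt 2 * ((4 + sig r B / 2 + 2 * t ^ 2 + 2 * ‖cx t B‖ ^ 2 + 4 * ‖cy B‖ ^ 2) * t
        + (sig r B / 2 + 4 * (‖cy B‖ ^ 2 + t * ‖cx t B‖) + 4 * ‖cy B‖ * (t + ‖cx t B‖)) * ‖cx t B‖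
        + sig r B * ‖cy B‖) := by
  have hdiff : ∀ k l : ℕ, |r k - r l| ≤ |r k ^ 2 - r l ^ 2| / 2 := by
    intro k l
    have h1 := h.one_le k
    have h2 := h.one_le l
    have h3 : r k ^ 2 - r l ^ 2 = (r k - r l) * (r k + r l) := by ring
    rw [h3, abs_mul, abs_of_pos (show 0 < r k + r l by linarith)]
    nlinarith [abs_nonneg (r k - r l)]
  obtain ⟨x1, x2, y1, y2, hx, hy, h0, h1, h2, h3⟩ := h.coords
  rw [sum_K h h0 h1 h2 h3]
  have hsum := h.sum_normSq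
  set w := ‖cx t B‖ with hw
  set v := ‖cy B‖ with hv
  have hw0 : 0 ≤ w := norm_nonneg _
  have hv0 : 0 ≤ v := norm_nonneg _
  have ht0 := h.t0
  have hw2 : w ^ 2 = x1 ^ 2 + x2 ^ 2 := by
    rw [hw, ← normSq_eq_norm_sq, hx, normSq_mk]
    ring
  have hv2 : v ^ 2 = y1 ^ 2 + y2 ^ 2 := by
    rw [hv, ← normSq_eq_norm_sq, hy, normSq_mk]
    ring
  have hx1 : |x1| ≤ w := abs_le_of_sq_le_sq (by linarith [sq_nonneg x2]) hw0
  have hy1 : |y1| ≤ v := abs_le_of_sq_le_sq (by linarith [sq_nonneg y2]) hv0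
  have hy2 : |y2| ≤ v := abs_le_of_sq_le_sq (by linarith [sq_nonneg y1]) hv0
  -- the two combinations
  set a : ℝ := t * x1 + v ^ 2 with ha
  set b : ℝ := x2 * y1 - y2 * (t + x1) with hb
  have ha2 : |a| ≤ v ^ 2 + t * w := by
    rw [ha]
    refine (abs_add_le _ _).trans ?_
    rw [abs_mul, abs_of_nonneg ht0, abs_of_nonneg (sq_nonneg v)]
    have := mul_le_mul_of_nonneg_left hx1 ht0
    linarith
  have hb2 : |b| ≤ v * (t + w) := by
    have h5 : |x2 * y1 - y2 * x1| ≤ v * w := by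
      apply abs_le_of_sq_le_sq _ (by positivity)
      rw [mul_pow, hv2, hw2]
      linarith [sq_nonneg (x1 * y1 + x2 * y2)]
    have h7 : b = (x2 * y1 - y2 * x1) + -(t * y2) := by rw [hb]; ring
    rw [h7]
    refine (abs_add_le _ _).trans ?_
    rw [abs_neg, abs_mul, abs_of_nonneg ht0]
    have := mul_le_mul_of_nonneg_left hy2 ht0
    linarith
  -- the squares
  have hN0 : normSq (B 0) = (t - x1) ^ 2 + x2 ^ 2 := by rw [h0, normSq_mk]; ring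
  have hN1 : normSq (B 1) = normSq (B 0) + 4 * (a + b) := by
    rw [hN0, h1, normSq_mk, ha, hb, hv2]; ring
  have hN2 : normSq (B 2) = normSq (B 0) := by rw [h.B02]
  have hN3 : normSq (B 3) = normSq (B 0) + 4 * (a - b) := by
    rw [hN0, h3, normSq_mk, ha, hb, hv2]; ring
  have hd0 := h.dd_nonneg 0
  have hd1 := h.dd_nonneg 1
  have hd2 := h.dd_nonneg 2
  have hd3 := h.dd_nonneg 3
  have e0 := rsq_eq r B 0
  have e1' := rsq_eq r B 1
  have e2' := rsq_eq r B 2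
  have e3' := rsq_eq r B 3
  have u0 := h.u_le 0
  have u1 := h.u_le 1
  have u2 := h.u_le 2
  have u3 := h.u_le 3
  have hR0 : r 0 + r 1 + r 2 + r 3 ≤ 4 + sig r B / 2 + 2 * t ^ 2 + 2 * w ^ 2 + 4 * v ^ 2 := by
    rw [sig_eq]
    linarith
  rw [hN1] at e1'
  rw [hN2] at e2'
  rw [hN3] at e3'
  rw [sig_eq] at hR0 ⊢
  set d0 := dd r B 0
  set d1 := dd r B 1
  set d2 := dd r B 2
  set d3 := dd r B 3
  have r01 : |r 0 - r 1| ≤ (d0 + d1) / 2 + 2 * |a + b| := by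
    refine (hdiff 0 1).trans ?_
    have e : r 0 ^ 2 - r 1 ^ 2 = d0 + -d1 + -(4 * (a + b)) := by rw [e0, e1']; ring
    rw [e]
    have f1 := abs_add_le (d0 + -d1) (-(4 * (a + b)))
    have f2 := abs_add_le d0 (-d1)
    rw [abs_neg, abs_mul, abs_of_pos (show (0 : ℝ) < 4 by norm_num)] at f1
    rw [abs_neg, abs_of_nonneg hd0, abs_of_nonneg hd1] at f2
    linarith
  have r23 : |r 2 - r 3| ≤ (d2 + d3) / 2 + 2 * |a - b| := by
    refine (hdiff 2 3).trans ?_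
    have e : r 2 ^ 2 - r 3 ^ 2 = d2 + -d3 + -(4 * (a - b)) := by rw [e2', e3']; ring
    rw [e]
    have f1 := abs_add_le (d2 + -d3) (-(4 * (a - b)))
    have f2 := abs_add_le d2 (-d3)
    rw [abs_neg, abs_mul, abs_of_pos (show (0 : ℝ) < 4 by norm_num)] at f1
    rw [abs_neg, abs_of_nonneg hd2, abs_of_nonneg hd3] at f2
    linarith
  have r02 : |r 0 - r 2| ≤ (d0 + d2) / 2 := by
    refine (hdiff 0 2).trans ?_
    have e : r 0 ^ 2 - r 2 ^ 2 = d0 + -d2 := by rw [e0, e2']; ring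
    rw [e]
    have f2 := abs_add_le d0 (-d2)
    rw [abs_neg, abs_of_nonneg hd0, abs_of_nonneg hd2] at f2
    linarith
  have hR2 : |(r 0 - r 1) + (r 2 - r 3)| ≤ (d0 + d1 + d2 + d3) / 2 + 4 * (v ^ 2 + t * w)
      + 4 * v * (t + w) := by
    have f1 := abs_add_le (r 0 - r 1) (r 2 - r 3)
    have f2 := abs_add_le a b
    have f3 := abs_sub a b
    linarith
  have g1 : (r 0 + r 1 + r 2 + r 3) * t ≤
      (4 + (d0 + d1 + d2 + d3) / 2 + 2 * t ^ 2 + 2 * w ^ 2 + 4 * v ^ 2) * t :=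
    mul_le_mul_of_nonneg_right hR0 ht0
  have g2 : ((r 0 - r 1) + (r 2 - r 3)) * x1 ≤ ((d0 + d1 + d2 + d3) / 2 + 4 * (v ^ 2 + t * w)
      + 4 * v * (t + w)) * w := by
    refine (le_abs_self _).trans ?_
    rw [abs_mul]
    exact mul_le_mul hR2 hx1 (abs_nonneg _) ((abs_nonneg _).trans hR2)
  have g3 : -(2 * (r 0 - r 2) * y1) ≤ (d0 + d1 + d2 + d3) * v := by
    have h5 : |(r 0 - r 2) * y1| ≤ (d0 + d2) / 2 * v := by
      rw [abs_mul]
      exact mul_le_mul r02 hy1 (abs_nonneg _) ((abs_nonneg _).trans r02)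
    have h6 := neg_abs_le ((r 0 - r 2) * y1)
    have h7 : 0 ≤ (d1 + d3) * v := mul_nonneg (by linarith) hv0
    have h8 : (d0 + d1 + d2 + d3) * v = 2 * ((d0 + d2) / 2 * v) + (d1 + d3) * v := by ring
    have h9 : -(2 * (r 0 - r 2) * y1) = -2 * ((r 0 - r 2) * y1) := by ring
    rw [h8, h9]
    linarith
  have h2p : 0 ≤ 2 * Real.sqrt 2 := by positivity
  refine mul_le_mul_of_nonneg_left ?_ h2p
  linarith

end S4cAux

open S4cAux in
/-- (F12) canonical inequality S4c -/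
theorem fin_S4c {t : ℝ} {r : ℕ → ℝ} {B : ℕ → ℂ} (h : Cf t r B) {w v g q : ℝ} (hw : w = ‖cx t B‖)
    (hv : v = ‖cy B‖) (hg : g = sig r B) (hG : ∀ k, 0 < pG0 (r k) (B k) (r (k + 1)) (B (k + 1)))
    (hq : ∀ k, rc r B k + rc r B (k + 1) ≤ q)
    (hF : ∑ k ∈ range 4, farc r B k ≤ 15630273 / 10000000) :
    5796 / 1000000 + (3922 / 10000 - 757773 / 1000000 * q) * g + 67587 / 10000 * w ^ 2
      + 16059 / 10000 * v ^ 2 ≤ 51528 / 10000 * t ^ 2
      + 100375 / 1000000 * (g ^ 2 + 32 * (v ^ 2 + t * w) ^ 2 + 32 * v ^ 2 * (t + w) ^ 2)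
      + 27826 / 1000000 * ((4 + g / 2 + 2 * t ^ 2 + 2 * w ^ 2 + 4 * v ^ 2) * t)
      + 27826 / 1000000 * ((g / 2 + 4 * (v ^ 2 + t * w) + 4 * v * (t + w)) * w)
      + 2783 / 100000 * (g * v) := by
  have h1 := h.sum_T
  have h2 := h.Sg_le
  have h3 := h.sig_nonneg
  have h4 := sum_C h
  have h5 := K_le h
  have h6 := ratio_le h hq
  rw [sum_farc, h1, h4] at hF
  rw [← hw, ← hv, ← hg] at h2 h5 hF
  rw [← hg] at h3 h6
  have hw0 : 0 ≤ w := by rw [hw]; exact norm_nonneg _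
  have hv0 : 0 ≤ v := by rw [hv]; exact norm_nonneg _
  have ht0 := h.t0
  have hSg0 : 0 ≤ Sg r := sum_nonneg fun k _ => sq_nonneg _
  set K := ∑ k ∈ range 4, -(2 * (pK (r k) (B k) (r (k + 1)) (B (k + 1))).im) with hK
  set R := ∑ k ∈ range 4, rc r B k * (dd r B k + dd r B (k + 1)) with hR
  set G := Sg r with hGdef
  set Gb := g ^ 2 + 32 * (v ^ 2 + t * w) ^ 2 + 32 * v ^ 2 * (t + w) ^ 2 with hGb
  set K1 := (4 + g / 2 + 2 * t ^ 2 + 2 * w ^ 2 + 4 * v ^ 2) * t with hK1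
  set K2 := (g / 2 + 4 * (v ^ 2 + t * w) + 4 * v * (t + w)) * w with hK2
  have hK10 : 0 ≤ K1 := by positivity
  have hK20 : 0 ≤ K2 := by positivity
  have hgv : 0 ≤ g * v := by positivity
  have hGb0 : 0 ≤ Gb := by positivity
  have c2 := q2_ge
  have c2' := q2_le
  have c3 := q3_ge
  have c3' := q3_le
  have c6 := q6_ge
  have c6' := q6_le
  have m1 := q3_cs
  have m2 := q3_sn
  have hsn : sn = (Real.sqrt 6 - Real.sqrt 2) / 4 := rfl
  have hcs : cs = (Real.sqrt 6 + Real.sqrt 2) / 4 := rfl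
  -- the coefficients
  obtain ⟨a0, ha0⟩ : ∃ a0 : ℝ, a0 = (1 - 1639647 / 250000000) * (6 * sn)
      + 55269 / 500000 * (4 * Real.sqrt 3 - 4 * (Real.sqrt 3 * cs)) - 15630273 / 10000000 := ⟨_, rfl⟩
  obtain ⟨ag, hag⟩ : ∃ a0 : ℝ, a0 = (1 - 1639647 / 250000000) * (3 / 2 * sn)
      + 55269 / 500000 * (Real.sqrt 3 - Real.sqrt 3 * cs) := ⟨_, rfl⟩
  obtain ⟨aX, haX⟩ : ∃ a0 : ℝ, a0 = (1 - 1639647 / 250000000) * (6 * (sn + cs))
      - 55269 / 500000 * (4 * (Real.sqrt 3 * cs - Real.sqrt 3 * sn)) := ⟨_, rfl⟩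
  obtain ⟨aY, haY⟩ : ∃ a0 : ℝ, a0 = (1 - 1639647 / 250000000) * (12 * sn)
      - 55269 / 500000 * (8 * (Real.sqrt 3 * cs)) := ⟨_, rfl⟩
  obtain ⟨aT, haT⟩ : ∃ a0 : ℝ, a0 = (1 - 1639647 / 250000000) * (6 * (cs - sn))
      + 55269 / 500000 * (4 * (Real.sqrt 3 * cs + Real.sqrt 3 * sn)) := ⟨_, rfl⟩
  obtain ⟨aS, haS⟩ : ∃ a0 : ℝ, a0 = (1 - 1639647 / 250000000) * (3 / 4 * sn)
      - 55269 / 500000 * (1 / 2 * (Real.sqrt 3 * cs)) := ⟨_, rfl⟩
  have hE : a0 + ag * g + aX * w ^ 2 + aY * v ^ 2 - aT * t ^ 2 - aS * G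
      - 4918941 / 500000000 * K - 7 / 16 * Real.sqrt 3 * R ≤ 0 := by
    rw [ha0, hag, haX, haY, haT, haS]
    linarith
  have b0 : 5796 / 1000000 ≤ a0 := by
    rw [ha0, m1, hsn]; linarith
  have bg : 3922 / 10000 ≤ ag := by
    rw [hag, m1, hsn]; linarith
  have bX : 67587 / 10000 ≤ aX := by
    rw [haX, m1, m2, hsn, hcs]; linarith
  have bY : 16059 / 10000 ≤ aY := by
    rw [haY, m1, hsn]; linarith
  have bT : aT ≤ 515279 / 100000 := by
    rw [haT, m1, m2, hsn, hcs]; linarith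
  have bS : aS ≤ 1003745 / 10000000 := by
    rw [haS, m1, hsn]; linarith
  clear ha0 hag haX haY haT haS h1 h4 hF
  have p1 : 3922 / 10000 * g ≤ ag * g := mul_le_mul_of_nonneg_right bg h3
  have p2 : 67587 / 10000 * w ^ 2 ≤ aX * w ^ 2 := mul_le_mul_of_nonneg_right bX (sq_nonneg w)
  have p3 : 16059 / 10000 * v ^ 2 ≤ aY * v ^ 2 := mul_le_mul_of_nonneg_right bY (sq_nonneg v)
  have p4 : aT * t ^ 2 ≤ 515279 / 100000 * t ^ 2 := mul_le_mul_of_nonneg_right bT (sq_nonneg t)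
  have p5 : aS * G ≤ 1003745 / 10000000 * Gb :=
    (mul_le_mul_of_nonneg_right bS hSg0).trans (mul_le_mul_of_nonneg_left h2 (by norm_num))
  have p6 : 4918941 / 500000000 * K ≤ 278258 / 10000000 * (K1 + K2 + g * v) := by
    have e1' : 4918941 / 500000000 * (2 * Real.sqrt 2) ≤ 278258 / 10000000 := by linarith
    have e2' : 0 ≤ K1 + K2 + g * v := by linarith
    calc 4918941 / 500000000 * K ≤ 4918941 / 500000000 * (2 * Real.sqrt 2 * (K1 + K2 + g * v)) :=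
          mul_le_mul_of_nonneg_left h5 (by norm_num)
      _ = 4918941 / 500000000 * (2 * Real.sqrt 2) * (K1 + K2 + g * v) := by ring
      _ ≤ _ := mul_le_mul_of_nonneg_right e1' e2'
  obtain ⟨P, hP⟩ : ∃ P : ℝ, P = 5796 / 1000000 + 3922 / 10000 * g + 67587 / 10000 * w ^ 2
      + 16059 / 10000 * v ^ 2 := ⟨_, rfl⟩
  obtain ⟨M, hM⟩ : ∃ M : ℝ, M = 515279 / 100000 * t ^ 2 + 1003745 / 10000000 * Gb
      + 278258 / 10000000 * (K1 + K2 + g * v) := ⟨_, rfl⟩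
  have hPM : P - M ≤ 7 / 16 * Real.sqrt 3 * R := by
    rw [hP, hM]; linarith
  have hP0 : 0 ≤ P := by rw [hP]; positivity
  have hM0 : 0 ≤ M := by rw [hM]; positivity
  obtain ⟨L, hL⟩ : ∃ L : ℝ, L = 12124368 / 21000000 * Real.sqrt 3 := ⟨_, rfl⟩
  have hL1 : 1 ≤ L := by rw [hL]; linarith
  have hL2 : L ≤ 10000011 / 10000000 := by rw [hL]; linarith
  have h33 : Real.sqrt 3 ^ 2 = 3 := Real.sq_sqrt (by norm_num)
  have hLk : L * (7 / 16 * Real.sqrt 3 * R) = 757773 / 1000000 * R := by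
    rw [hL]
    linear_combination (12124368 / 21000000 * (7 / 16) * R) * h33
  have k1 : L * (P - M) ≤ 757773 / 1000000 * R := by
    rw [← hLk]
    exact mul_le_mul_of_nonneg_left hPM (by linarith)
  have k2 : P ≤ L * P := le_mul_of_one_le_left hP0 hL1
  have k3 : L * M ≤ 10000011 / 10000000 * M := mul_le_mul_of_nonneg_right hL2 hM0
  have k4 : 10000011 / 10000000 * M ≤ 51528 / 10000 * t ^ 2 + 100375 / 1000000 * Gb
      + 27826 / 1000000 * K1 + 27826 / 1000000 * K2 + 2783 / 100000 * (g * v) := by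
    rw [hM]
    have := sq_nonneg t
    linarith
  rw [mul_sub] at k1
  have k5 : 757773 / 1000000 * R ≤ 757773 / 1000000 * (q * g) :=
    mul_le_mul_of_nonneg_left h6 (by norm_num)
  have k6 : P ≤ 51528 / 10000 * t ^ 2 + 100375 / 1000000 * Gb
      + 27826 / 1000000 * K1 + 27826 / 1000000 * K2 + 2783 / 100000 * (g * v)
      + 757773 / 1000000 * (q * g) := by linarith
  rw [hP] at k6
  linarith

end Rein83
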