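import Pool.Agent.Rein83.FinMDefs

set_option autoImplicit false
set_option maxHeartbeats 4000000

namespace Rein83

theorem cC4 {t w v g : ℝ} (ht : 31 / 1000 ≤ t) (ht' : t ≤ 9 / 250) (hw : 0 ≤ w) (hw' : w ≤ 229 / 10000)
    (hv : 0 ≤ v) (hv' : v ≤ 3 / 100) (hg : 0 ≤ g) (hg' : g ≤ 49 / 1250)
    (h1 : 0 ≤ m1 (9 / 250) (229 / 10000) (3 / 100) (49 / 1250) t w v g) (h2 : 0 ≤ m2 (9 / 250) (229 / 10000) (3 / 100) (49 / 1250) t w v g) (h3 : 0 ≤ m3 (9 / 250) (229 / 10000) (3 / 100) (49 / 1250) t w v g) : False := by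
  simp only [m1, m2, m3] at h1 h2 h3
  norm_num at h1 h2 h3
  linarith [sq_nonneg (v + (-1807 / 1250000) + (-29639 / 50000) * w), sq_nonneg (w + (-8193 / 500000) + (-8067 / 1250000) * (t - 31 / 1000)), sq_nonneg ((t - 31 / 1000) + (-3289 / 2000000000)),
    mul_nonneg (sub_nonneg.2 ht) (sub_nonneg.2 ht'), mul_nonneg (sub_nonneg.2 hw) (sub_nonneg.2 hw'), mul_nonneg (sub_nonneg.2 hv) (sub_nonneg.2 hv'), mul_nonneg (sub_nonneg.2 ht) (sub_nonneg.2 hw), mul_nonneg (sub_nonneg.2 ht) (sub_nonneg.2 hw'), mul_nonneg (sub_nonneg.2 ht') (sub_nonneg.2 hw), mul_nonneg (sub_nonneg.2 ht') (sub_nonneg.2 hw'), mul_nonneg (sub_nonneg.2 ht) (sub_nonneg.2 hv), mul_nonneg (sub_nonneg.2 ht) (sub_nonneg.2 hv'), mul_nonneg (sub_nonneg.2 ht') (sub_nonneg.2 hv), mul_nonneg (sub_nonneg.2 ht') (sub_nonneg.2 hv'), mul_nonneg (sub_nonneg.2 hw) (sub_nonneg.2 hv), mul_nonneg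 (sub_nonneg.2 hw) (sub_nonneg.2 hv'), mul_nonneg (sub_nonneg.2 hw') (sub_nonneg.2 hv), mul_nonneg (sub_nonneg.2 hw') (sub_nonneg.2 hv')]

theorem cC5 {t w v g : ℝ} (ht : 3 / 100 ≤ t) (ht' : t ≤ 31 / 1000) (hw : 0 ≤ w) (hw' : w ≤ 229 / 10000)
    (hv : 0 ≤ v) (hv' : v ≤ 3 / 100) (hg : 0 ≤ g) (hg' : g ≤ 49 / 1250)
    (h1 : 0 ≤ m1 (31 / 1000) (229 / 10000) (3 / 100) (49 / 1250) t w v g) (h2 : 0 ≤ m2 (31 / 1000) (229 / 10000) (3 / 100) (49 / 1250) t w v g) (h3 : 0 ≤ m3 (31 / 1000) (229 / 10000) (3 / 100) (49 / 1250) t w v g) (h4 : 0 ≤ m4 (47 / 100) (629 / 10000) (8107 / 100000) (31 / 1000) (229 / 10000) (3 / 100) (49 / 1250) t w v g) : False := by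
  simp only [m1, m2, m3, m4] at h1 h2 h3 h4
  norm_num at h1 h2 h3 h4
  linarith [sq_nonneg (v + (-8449 / 500000000000) + (-65463 / 100000) * w), sq_nonneg (w + (-11087 / 500000) + (-70251 / 1000000) * (t - 3 / 100)), sq_nonneg ((t - 3 / 100) + (-3553 / 6250000000)),
    mul_nonneg (sub_nonneg.2 ht) (sub_nonneg.2 ht'), mul_nonneg (sub_nonneg.2 hw) (sub_nonneg.2 hw'), mul_nonneg (sub_nonneg.2 hv) (sub_nonneg.2 hv'), mul_nonneg (sub_nonneg.2 ht) (sub_nonneg.2 hw), mul_nonneg (sub_nonneg.2 ht) (sub_nonneg.2 hw'), mul_nonneg (sub_nonneg.2 ht') (sub_nonneg.2 hw), mul_nonneg (sub_nonneg.2 ht') (sub_nonneg.2 hw'), mul_nonneg (sub_nonneg.2 ht) (sub_nonneg.2 hv), mul_nonneg (sub_nonneg.2 ht) (sub_nonneg.2 hv'), mul_nonneg (sub_nonneg.2 ht') (sub_nonneg.2 hv), mul_nonneg (sub_nonneg.2 ht') (sub_nonneg.2 hv'), mul_nonneg (sub_nonneg.2 hw) (sub_nonneg.2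 hv), mul_nonneg (sub_nonneg.2 hw) (sub_nonneg.2 hv'), mul_nonneg (sub_nonneg.2 hw') (sub_nonneg.2 hv), mul_nonneg (sub_nonneg.2 hw') (sub_nonneg.2 hv')]

theorem cC6 {t w v g : ℝ} (ht : 457 / 25000 ≤ t) (ht' : t ≤ 1147 / 50000) (hw : 0 ≤ w) (hw' : w ≤ 229 / 10000)
    (hv : 0 ≤ v) (hv' : v ≤ 3 / 100) (hg : 0 ≤ g) (hg' : g ≤ 49 / 1250)
    (h3 : 0 ≤ m3 (1147 / 50000) (229 / 10000) (3 / 100) (49 / 1250) t w v g) (h4 : 0 ≤ m4 (47 / 100) (431 / 10000) (7551 / 100000) (1147 / 50000) (229 / 10000) (3 / 100) (49 / 1250) t w v g) : False := by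
  simp only [m3, m4] at h3 h4
  norm_num at h3 h4
  linarith [sq_nonneg (v + (-5323 / 500000) + (-42757 / 5000) * w), sq_nonneg (w + (-21751 / 10000000) + (-15167 / 1000000) * (t - 457 / 25000)), sq_nonneg ((t - 457 / 25000) + (-46599 / 10000000)),
    mul_nonneg (sub_nonneg.2 ht) (sub_nonneg.2 ht'), mul_nonneg (sub_nonneg.2 hw) (sub_nonneg.2 hw'), mul_nonneg (sub_nonneg.2 hv) (sub_nonneg.2 hv'), mul_nonneg (sub_nonneg.2 ht) (sub_nonneg.2 hw), mul_nonneg (sub_nonneg.2 ht) (sub_nonneg.2 hw'), mul_nonneg (sub_nonneg.2 ht') (sub_nonneg.2 hw), mul_nonneg (sub_nonneg.2 ht') (sub_nonneg.2 hw'), mul_nonneg (sub_nonneg.2 ht) (sub_nonneg.2 hv), mul_nonneg (sub_nonneg.2 ht) (sub_nonneg.2 hv'), mul_nonneg (sub_nonneg.2 ht') (sub_nonneg.2 hv), mul_nonneg (sub_nonneg.2 ht') (sub_nonneg.2 hv'), mul_nonneg (sub_nonneg.2 hw) (sub_nonneg.2 hv), mul_nonneg (sub_nonneg.2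 hw) (sub_nonneg.2 hv'), mul_nonneg (sub_nonneg.2 hw') (sub_nonneg.2 hv), mul_nonneg (sub_nonneg.2 hw') (sub_nonneg.2 hv')]

theorem cC7 {t w v g : ℝ} (ht : 1147 / 50000 ≤ t) (ht' : t ≤ 3 / 100) (hw : 0 ≤ w) (hw' : w ≤ 229 / 10000)
    (hv : 183 / 10000 ≤ v) (hv' : v ≤ 3 / 100) (hg : 0 ≤ g) (hg' : g ≤ 49 / 1250)
    (h1 : 0 ≤ m1 (3 / 100) (229 / 10000) (3 / 100) (49 / 1250) t w v g) (h3 : 0 ≤ m3 (3 / 100) (229 / 10000) (3 / 100) (49 / 1250) t w v g) (h4 : 0 ≤ m4 (47 / 100) (519 / 10000) (8031 / 100000) (3 / 100) (229 / 10000) (3 / 100) (49 / 1250) t w v g) : False := by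
  simp only [m1, m3, m4] at h1 h3 h4
  norm_num at h1 h3 h4
  linarith [sq_nonneg ((v - 183 / 10000) + (-7341 / 100000) * w), sq_nonneg (w + (-3049 / 625000) + (-17601 / 1000000) * (t - 1147 / 50000)), sq_nonneg ((t - 1147 / 50000) + (-34817 / 10000000)),
    mul_nonneg (sub_nonneg.2 ht) (sub_nonneg.2 ht'), mul_nonneg (sub_nonneg.2 hw) (sub_nonneg.2 hw'), mul_nonneg (sub_nonneg.2 hv) (sub_nonneg.2 hv'), mul_nonneg (sub_nonneg.2 ht) (sub_nonneg.2 hw), mul_nonneg (sub_nonneg.2 ht) (sub_nonneg.2 hw'), mul_nonneg (sub_nonneg.2 ht') (sub_nonneg.2 hw), mul_nonneg (sub_nonneg.2 ht') (sub_nonneg.2 hw'), mul_nonneg (sub_nonneg.2 ht) (sub_nonneg.2 hv), mul_nonneg (sub_nonneg.2 ht) (sub_nonneg.2 hv'), mul_nonneg (sub_nonneg.2 ht') (sub_nonneg.2 hv), mul_nonneg (sub_nonneg.2 ht') (sub_nonneg.2 hv'), mul_nonneg (sub_nonneg.2 hw) (sub_nonneg.2 hv), mul_nonneg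 (sub_nonneg.2 hw) (sub_nonneg.2 hv'), mul_nonneg (sub_nonneg.2 hw') (sub_nonneg.2 hv), mul_nonneg (sub_nonneg.2 hw') (sub_nonneg.2 hv')]

theorem cC8 {t w v g : ℝ} (ht : 1147 / 50000 ≤ t) (ht' : t ≤ 3 / 100) (hw : 169 / 10000 ≤ w) (hw' : w ≤ 229 / 10000)
    (hv : 0 ≤ v) (hv' : v ≤ 183 / 10000) (hg : 0 ≤ g) (hg' : g ≤ 49 / 1250)
    (h2 : 0 ≤ m2 (3 / 100) (229 / 10000) (183 / 10000) (49 / 1250) t w v g) (h3 : 0 ≤ m3 (3 / 100) (229 / 10000) (183 / 10000) (49 / 1250) t w v g) (h4 : 0 ≤ m4 (47 / 100) (49 / 1000) (809 / 12500) (3 / 100) (229 / 10000) (183 / 10000) (49 / 1250) t w v g) : False := by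
  simp only [m2, m3, m4] at h2 h3 h4
  norm_num at h2 h3 h4
  linarith [sq_nonneg (v + (-5837 / 500000) + (-39197 / 10000) * (w - 169 / 10000)), sq_nonneg ((w - 169 / 10000) + (-11957 / 100000000) + (-3217 / 5000000) * (t - 1147 / 50000)), sq_nonneg ((t - 1147 / 50000) + (-367 / 80000)),
    mul_nonneg (sub_nonneg.2 ht) (sub_nonneg.2 ht'), mul_nonneg (sub_nonneg.2 hw) (sub_nonneg.2 hw'), mul_nonneg (sub_nonneg.2 hv) (sub_nonneg.2 hv'), mul_nonneg (sub_nonneg.2 ht) (sub_nonneg.2 hw), mul_nonneg (sub_nonneg.2 ht) (sub_nonneg.2 hw'), mul_nonneg (sub_nonneg.2 ht') (sub_nonneg.2 hw), mul_nonneg (sub_nonneg.2 ht') (sub_nonneg.2 hw'), mul_nonneg (sub_nonneg.2 ht) (sub_nonneg.2 hv), mul_nonneg (sub_nonneg.2 ht) (sub_nonneg.2 hv'), mul_nonneg (sub_nonneg.2 ht') (sub_nonneg.2 hv), mul_nonneg (sub_nonneg.2 ht') (sub_nonneg.2 hv'), mul_nonneg (sub_nonneg.2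 hw) (sub_nonneg.2 hv), mul_nonneg (sub_nonneg.2 hw) (sub_nonneg.2 hv'), mul_nonneg (sub_nonneg.2 hw') (sub_nonneg.2 hv), mul_nonneg (sub_nonneg.2 hw') (sub_nonneg.2 hv')]

theorem cC9 {t w v g : ℝ} (ht : 2907 / 100000 ≤ t) (ht' : t ≤ 3 / 100) (hw : 0 ≤ w) (hw' : w ≤ 169 / 10000)
    (hv : 0 ≤ v) (hv' : v ≤ 183 / 10000) (hg : 0 ≤ g) (hg' : g ≤ 49 / 1250)
    (h1 : 0 ≤ m1 (3 / 100) (169 / 10000) (183 / 10000) (49 / 1250) t w v g) (h2 : 0 ≤ m2 (3 / 100) (169 / 10000) (183 / 10000) (49 / 1250) t w v g) (h3 : 0 ≤ m3 (3 / 100) (169 / 10000) (183 / 10000) (49 / 1250) t w v g) (h4 : 0 ≤ m4 (47 / 100) (57 / 1000) (1523 / 25000) (3 / 100) (169 / 10000) (183 / 10000) (49 / 1250) t w v g) : False := by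
  simp only [m1, m2, m3, m4] at h1 h2 h3 h4
  norm_num at h1 h2 h3 h4
  linarith [sq_nonneg (v + (-1686 / 3125) * w), sq_nonneg (w + (-12649 / 1000000) + (-25939 / 1000000) * (t - 2907 / 100000)), sq_nonneg ((t - 2907 / 100000) + (-893 / 6250000000)),
    mul_nonneg (sub_nonneg.2 ht) (sub_nonneg.2 ht'), mul_nonneg (sub_nonneg.2 hw) (sub_nonneg.2 hw'), mul_nonneg (sub_nonneg.2 hv) (sub_nonneg.2 hv'), mul_nonneg (sub_nonneg.2 ht) (sub_nonneg.2 hw), mul_nonneg (sub_nonneg.2 ht) (sub_nonneg.2 hw'), mul_nonneg (sub_nonneg.2 ht') (sub_nonneg.2 hw), mul_nonneg (sub_nonneg.2 ht') (sub_nonneg.2 hw'), mul_nonneg (sub_nonneg.2 ht) (sub_nonneg.2 hv), mul_nonneg (sub_nonneg.2 ht) (sub_nonneg.2 hv'), mul_nonneg (sub_nonneg.2 ht') (sub_nonneg.2 hv), mul_nonneg (sub_nonneg.2 ht') (sub_nonneg.2 hv'), mul_nonneg (sub_nonneg.2 hw) (sub_nonneg.2 hv), mul_nonneg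 (sub_nonneg.2 hw) (sub_nonneg.2 hv'), mul_nonneg (sub_nonneg.2 hw') (sub_nonneg.2 hv), mul_nonneg (sub_nonneg.2 hw') (sub_nonneg.2 hv')]

theorem cC10 {t w v g : ℝ} (ht : 1147 / 50000 ≤ t) (ht' : t ≤ 473 / 20000) (hw : 0 ≤ w) (hw' : w ≤ 169 / 10000)
    (hv : 0 ≤ v) (hv' : v ≤ 183 / 10000) (hg : 0 ≤ g) (hg' : g ≤ 49 / 1250)
    (h3 : 0 ≤ m3 (473 / 20000) (169 / 10000) (183 / 10000) (49 / 1250) t w v g) (h4 : 0 ≤ m4 (47 / 100) (97 / 2500) (1101 / 20000) (473 / 20000) (169 / 10000) (183 / 10000) (49 / 1250) t w v g) : False := by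
  simp only [m3, m4] at h3 h4
  norm_num at h3 h4
  linarith [sq_nonneg (v + (-65507 / 10000000) + (-54421 / 10000) * w), sq_nonneg (w + (-53213 / 100000000) + (-41881 / 10000000) * (t - 1147 / 50000)), sq_nonneg ((t - 1147 / 50000) + (-6931 / 10000000)),
    mul_nonneg (sub_nonneg.2 ht) (sub_nonneg.2 ht'), mul_nonneg (sub_nonneg.2 hw) (sub_nonneg.2 hw'), mul_nonneg (sub_nonneg.2 hv) (sub_nonneg.2 hv'), mul_nonneg (sub_nonneg.2 ht) (sub_nonneg.2 hw), mul_nonneg (sub_nonneg.2 ht) (sub_nonneg.2 hw'), mul_nonneg (sub_nonneg.2 ht') (sub_nonneg.2 hw), mul_nonneg (sub_nonneg.2 ht') (sub_nonneg.2 hw'), mul_nonneg (sub_nonneg.2 ht) (sub_nonneg.2 hv), mul_nonneg (sub_nonneg.2 ht) (sub_nonneg.2 hv'), mul_nonneg (sub_nonneg.2 ht') (sub_nonneg.2 hv), mul_nonneg (sub_nonneg.2 ht') (sub_nonneg.2 hv'), mul_nonneg (sub_nonneg.2 hw) (sub_nonneg.2 hv), mul_nonneg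 (sub_nonneg.2 hw) (sub_nonneg.2 hv'), mul_nonneg (sub_nonneg.2 hw') (sub_nonneg.2 hv), mul_nonneg (sub_nonneg.2 hw') (sub_nonneg.2 hv')]

theorem cC11 {t w v g : ℝ} (ht : 473 / 20000 ≤ t) (ht' : t ≤ 2907 / 100000) (hw : 0 ≤ w) (hw' : w ≤ 169 / 10000)
    (hv : 79 / 5000 ≤ v) (hv' : v ≤ 183 / 10000) (hg : 0 ≤ g) (hg' : g ≤ 49 / 1250)
    (h1 : 0 ≤ m1 (2907 / 100000) (169 / 10000) (183 / 10000) (49 / 1250) t w v g) (h3 : 0 ≤ m3 (2907 / 100000) (169 / 10000) (183 / 10000) (49 / 1250) t w v g) (h4 : 0 ≤ m4 (47 / 100) (97 / 2000) (6001 / 100000) (2907 / 100000) (169 / 10000) (183 / 10000) (49 / 1250) t w v g) : False := by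
  simp only [m1, m3, m4] at h1 h3 h4
  norm_num at h1 h3 h4
  linarith [sq_nonneg ((v - 79 / 5000) + (-7263 / 500000) * w), sq_nonneg (w + (-42177 / 10000000) + (-6003 / 500000) * (t - 473 / 20000)), sq_nonneg ((t - 473 / 20000) + (-6513 / 2500000)),
    mul_nonneg (sub_nonneg.2 ht) (sub_nonneg.2 ht'), mul_nonneg (sub_nonneg.2 hw) (sub_nonneg.2 hw'), mul_nonneg (sub_nonneg.2 hv) (sub_nonneg.2 hv'), mul_nonneg (sub_nonneg.2 ht) (sub_nonneg.2 hw), mul_nonneg (sub_nonneg.2 ht) (sub_nonneg.2 hw'), mul_nonneg (sub_nonneg.2 ht') (sub_nonneg.2 hw), mul_nonneg (sub_nonneg.2 ht') (sub_nonneg.2 hw'), mul_nonneg (sub_nonneg.2 ht) (sub_nonneg.2 hv), mul_nonneg (sub_nonneg.2 ht) (sub_nonneg.2 hv'), mul_nonneg (sub_nonneg.2 ht') (sub_nonneg.2 hv), mul_nonneg (sub_nonneg.2 ht') (sub_nonneg.2 hv'), mul_nonneg (sub_nonneg.2 hw) (sub_nonneg.2 hv), mul_nonneg (sub_nonneg.2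 hw) (sub_nonneg.2 hv'), mul_nonneg (sub_nonneg.2 hw') (sub_nonneg.2 hv), mul_nonneg (sub_nonneg.2 hw') (sub_nonneg.2 hv')]

theorem cC12 {t w v g : ℝ} (ht : 473 / 20000 ≤ t) (ht' : t ≤ 2907 / 100000) (hw : 0 ≤ w) (hw' : w ≤ 169 / 10000)
    (hv : 0 ≤ v) (hv' : v ≤ 79 / 5000) (hg : 89 / 2500 ≤ g) (hg' : g ≤ 49 / 1250)
    (h1 : 0 ≤ m1 (2907 / 100000) (169 / 10000) (79 / 5000) (49 / 1250) t w v g) (h2 : 0 ≤ m2 (2907 / 100000) (169 / 10000) (79 / 5000) (49 / 1250) t w v g) : False := by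
  simp only [m1, m2] at h1 h2
  norm_num at h1 h2
  linarith [sq_nonneg (v + (-19421 / 2500000000) + (-32847 / 100000000) * (t - 473 / 20000) + (-23729 / 2500000) * w), sq_nonneg (w + (-39979 / 5000000000) + (-33659 / 100000000) * (t - 473 / 20000)), sq_nonneg ((t - 473 / 20000) + (-26959 / 10000000)),
    mul_nonneg (sub_nonneg.2 ht) (sub_nonneg.2 ht'), mul_nonneg (sub_nonneg.2 hw) (sub_nonneg.2 hw'), mul_nonneg (sub_nonneg.2 hv) (sub_nonneg.2 hv'), mul_nonneg (sub_nonneg.2 ht) (sub_nonneg.2 hw), mul_nonneg (sub_nonneg.2 ht) (sub_nonneg.2 hw'), mul_nonneg (sub_nonneg.2 ht') (sub_nonneg.2 hw), mul_nonneg (sub_nonneg.2 ht') (sub_nonneg.2 hw'), mul_nonneg (sub_nonneg.2 ht) (sub_nonneg.2 hv), mul_nonneg (sub_nonneg.2 ht) (sub_nonneg.2 hv'), mul_nonneg (sub_nonneg.2 ht') (sub_nonneg.2 hv), mul_nonneg (sub_nonneg.2 ht') (sub_nonneg.2 hv'), mul_nonneg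 (sub_nonneg.2 hw) (sub_nonneg.2 hv), mul_nonneg (sub_nonneg.2 hw) (sub_nonneg.2 hv'), mul_nonneg (sub_nonneg.2 hw') (sub_nonneg.2 hv), mul_nonneg (sub_nonneg.2 hw') (sub_nonneg.2 hv')]

theorem cC13 {t w v g : ℝ} (ht : 1443 / 50000 ≤ t) (ht' : t ≤ 2907 / 100000) (hw : 0 ≤ w) (hw' : w ≤ 169 / 10000)
    (hv : 0 ≤ v) (hv' : v ≤ 79 / 5000) (hg : 0 ≤ g) (hg' : g ≤ 89 / 2500)
    (h1 : 0 ≤ m1 (2907 / 100000) (169 / 10000) (79 / 5000) (89 / 2500) t w v g) (h2 : 0 ≤ m2 (2907 / 100000) (169 / 10000) (79 / 5000) (89 / 2500) t w v g) (h3 : 0 ≤ m3 (2907 / 100000) (169 / 10000) (79 / 5000) (89 / 2500) t w v g) (h4 : 0 ≤ m4 (47 / 100) (107 / 2000) (571 / 10000) (2907 / 100000) (169 / 10000) (79 / 5000) (89 / 2500) t w v g) : False := by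
  simp only [m1, m2, m3, m4] at h1 h2 h3 h4
  norm_num at h1 h2 h3 h4
  linarith [sq_nonneg (v + (-5029 / 10000) * w), sq_nonneg (w + (-13027 / 1000000) + (-44099 / 1000000) * (t - 1443 / 50000)), sq_nonneg ((t - 1443 / 50000) + (-5857 / 200000000000)),
    mul_nonneg (sub_nonneg.2 ht) (sub_nonneg.2 ht'), mul_nonneg (sub_nonneg.2 hw) (sub_nonneg.2 hw'), mul_nonneg (sub_nonneg.2 hv) (sub_nonneg.2 hv'), mul_nonneg (sub_nonneg.2 ht) (sub_nonneg.2 hw), mul_nonneg (sub_nonneg.2 ht) (sub_nonneg.2 hw'), mul_nonneg (sub_nonneg.2 ht') (sub_nonneg.2 hw), mul_nonneg (sub_nonneg.2 ht') (sub_nonneg.2 hw'), mul_nonneg (sub_nonneg.2 ht) (sub_nonneg.2 hv), mul_nonneg (sub_nonneg.2 ht) (sub_nonneg.2 hv'), mul_nonneg (sub_nonneg.2 ht') (sub_nonneg.2 hv), mul_nonneg (sub_nonneg.2 ht') (sub_nonneg.2 hv'), mul_nonneg (sub_nonneg.2 hw) (sub_nonneg.2 hv), mul_nonneg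 (sub_nonneg.2 hw) (sub_nonneg.2 hv'), mul_nonneg (sub_nonneg.2 hw') (sub_nonneg.2 hv), mul_nonneg (sub_nonneg.2 hw') (sub_nonneg.2 hv')]

theorem cC14 {t w v g : ℝ} (ht : 473 / 20000 ≤ t) (ht' : t ≤ 1443 / 50000) (hw : 0 ≤ w) (hw' : w ≤ 169 / 10000)
    (hv : 19 / 1250 ≤ v) (hv' : v ≤ 79 / 5000) (hg : 0 ≤ g) (hg' : g ≤ 89 / 2500)
    (h1 : 0 ≤ m1 (1443 / 50000) (169 / 10000) (79 / 5000) (89 / 2500) t w v g) (h3 : 0 ≤ m3 (1443 / 50000) (169 / 10000) (79 / 5000) (89 / 2500) t w v g) (h4 : 0 ≤ m4 (47 / 100) (6 / 125) (5689 / 100000) (1443 / 50000) (169 / 10000) (79 / 5000) (89 / 2500) t w v g) : False := by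
  simp only [m1, m3, m4] at h1 h3 h4
  norm_num at h1 h3 h4
  linarith [sq_nonneg ((v - 19 / 1250) + (-34239 / 10000000) * w), sq_nonneg (w + (-20289 / 5000000) + (-5593 / 500000) * (t - 473 / 20000)), sq_nonneg ((t - 473 / 20000) + (-25919 / 10000000)),
    mul_nonneg (sub_nonneg.2 ht) (sub_nonneg.2 ht'), mul_nonneg (sub_nonneg.2 hw) (sub_nonneg.2 hw'), mul_nonneg (sub_nonneg.2 hv) (sub_nonneg.2 hv'), mul_nonneg (sub_nonneg.2 ht) (sub_nonneg.2 hw), mul_nonneg (sub_nonneg.2 ht) (sub_nonneg.2 hw'), mul_nonneg (sub_nonneg.2 ht') (sub_nonneg.2 hw), mul_nonneg (sub_nonneg.2 ht') (sub_nonneg.2 hw'), mul_nonneg (sub_nonneg.2 ht) (sub_nonneg.2 hv), mul_nonneg (sub_nonneg.2 ht) (sub_nonneg.2 hv'), mul_nonneg (sub_nonneg.2 ht') (sub_nonneg.2 hv), mul_nonneg (sub_nonneg.2 ht') (sub_nonneg.2 hv'), mul_nonneg (sub_nonneg.2 hw) (sub_nonneg.2 hv), mul_nonneg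 (sub_nonneg.2 hw) (sub_nonneg.2 hv'), mul_nonneg (sub_nonneg.2 hw') (sub_nonneg.2 hv), mul_nonneg (sub_nonneg.2 hw') (sub_nonneg.2 hv')]

theorem cC15 {t w v g : ℝ} (ht : 473 / 20000 ≤ t) (ht' : t ≤ 2381 / 100000) (hw : 0 ≤ w) (hw' : w ≤ 169 / 10000)
    (hv : 0 ≤ v) (hv' : v ≤ 19 / 1250) (hg : 0 ≤ g) (hg' : g ≤ 89 / 2500)
    (h3 : 0 ≤ m3 (2381 / 100000) (169 / 10000) (19 / 1250) (89 / 2500) t w v g) (h4 : 0 ≤ m4 (47 / 100) (377 / 10000) (641 / 12500) (2381 / 100000) (169 / 10000) (19 / 1250) (89 / 2500) t w v g) : False := by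
  simp only [m3, m4] at h3 h4
  norm_num at h3 h4
  linarith [sq_nonneg (v + (-32117 / 5000000) + (-10463 / 2500) * w), sq_nonneg (w + (-4019 / 10000000) + (-30859 / 10000000) * (t - 473 / 20000)), sq_nonneg ((t - 473 / 20000) + (-7409 / 50000000)),
    mul_nonneg (sub_nonneg.2 ht) (sub_nonneg.2 ht'), mul_nonneg (sub_nonneg.2 hw) (sub_nonneg.2 hw'), mul_nonneg (sub_nonneg.2 hv) (sub_nonneg.2 hv'), mul_nonneg (sub_nonneg.2 ht) (sub_nonneg.2 hw), mul_nonneg (sub_nonneg.2 ht) (sub_nonneg.2 hw'), mul_nonneg (sub_nonneg.2 ht') (sub_nonneg.2 hw), mul_nonneg (sub_nonneg.2 ht') (sub_nonneg.2 hw'), mul_nonneg (sub_nonneg.2 ht) (sub_nonneg.2 hv), mul_nonneg (sub_nonneg.2 ht) (sub_nonneg.2 hv'), mul_nonneg (sub_nonneg.2 ht') (sub_nonneg.2 hv), mul_nonneg (sub_nonneg.2 ht') (sub_nonneg.2 hv'), mul_nonneg (sub_nonneg.2 hw) (sub_nonneg.2 hv), mul_nonneg (sub_nonneg.2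 hw) (sub_nonneg.2 hv'), mul_nonneg (sub_nonneg.2 hw') (sub_nonneg.2 hv), mul_nonneg (sub_nonneg.2 hw') (sub_nonneg.2 hv')]

theorem cC16 {t w v g : ℝ} (ht : 2381 / 100000 ≤ t) (ht' : t ≤ 1443 / 50000) (hw : 83 / 5000 ≤ w) (hw' : w ≤ 169 / 10000)
    (hv : 0 ≤ v) (hv' : v ≤ 19 / 1250) (hg : 0 ≤ g) (hg' : g ≤ 89 / 2500)
    (h2 : 0 ≤ m2 (1443 / 50000) (169 / 10000) (19 / 1250) (89 / 2500) t w v g) (h3 : 0 ≤ m3 (1443 / 50000) (169 / 10000) (19 / 1250) (89 / 2500) t w v g) (h4 : 0 ≤ m4 (47 / 100) (29 / 625) (5623 / 100000) (1443 / 50000) (169 / 10000) (19 / 1250) (89 / 2500) t w v g) : False := by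
  simp only [m2, m3, m4] at h2 h3 h4
  norm_num at h2 h3 h4
  linarith [sq_nonneg (v + (-77483 / 10000000) + (-3691 / 2000) * (w - 83 / 5000)), sq_nonneg ((w - 83 / 5000) + (-40579 / 10000000000) + (-2719 / 100000000) * (t - 2381 / 100000)), sq_nonneg ((t - 2381 / 100000) + (-2627 / 1000000)),
    mul_nonneg (sub_nonneg.2 ht) (sub_nonneg.2 ht'), mul_nonneg (sub_nonneg.2 hw) (sub_nonneg.2 hw'), mul_nonneg (sub_nonneg.2 hv) (sub_nonneg.2 hv'), mul_nonneg (sub_nonneg.2 ht) (sub_nonneg.2 hw), mul_nonneg (sub_nonneg.2 ht) (sub_nonneg.2 hw'), mul_nonneg (sub_nonneg.2 ht') (sub_nonneg.2 hw), mul_nonneg (sub_nonneg.2 ht') (sub_nonneg.2 hw'), mul_nonneg (sub_nonneg.2 ht) (sub_nonneg.2 hv), mul_nonneg (sub_nonneg.2 ht) (sub_nonneg.2 hv'), mul_nonneg (sub_nonneg.2 ht') (sub_nonneg.2 hv), mul_nonneg (sub_nonneg.2 ht') (sub_nonneg.2 hv'), mul_nonneg (sub_nonneg.2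 hw) (sub_nonneg.2 hv), mul_nonneg (sub_nonneg.2 hw) (sub_nonneg.2 hv'), mul_nonneg (sub_nonneg.2 hw') (sub_nonneg.2 hv), mul_nonneg (sub_nonneg.2 hw') (sub_nonneg.2 hv')]

theorem cD1 {t w v g : ℝ} (ht : 237 / 10000 ≤ t) (ht' : t ≤ 289 / 10000) (hw : 0 ≤ w) (hw' : w ≤ 167 / 10000)
    (hv : 0 ≤ v) (hv' : v ≤ 19 / 1250) (hg : 0 ≤ g) (hg' : g ≤ 357 / 10000)
    (h2 : 0 ≤ m2 (289 / 10000) (167 / 10000) (19 / 1250) (357 / 10000) t w v g) (h3 : 0 ≤ m3 (289 / 10000) (167 / 10000) (19 / 1250) (357 / 10000) t w v g) (h4 : 0 ≤ m4 (87 / 200) (501 / 10000) (1123 / 20000) (289 / 10000) (167 / 10000) (19 / 1250) (357 / 10000) t w v g) (h5 : 12247 / 10000 * t ≤ 141422 / 100000 * w + 2 * v + 1 / 500) : False := by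
  simp only [m2, m3, m4] at h2 h3 h4
  norm_num at h2 h3 h4
  linarith [sq_nonneg (v + (-19679 / 500000000000) + (-43027 / 50000) * w), sq_nonneg (w + (-49091 / 5000000) + (-82657 / 10000000) * (t - 237 / 10000)), sq_nonneg ((t - 237 / 10000) + (-42983 / 10000000)),
    mul_nonneg (sub_nonneg.2 ht) (sub_nonneg.2 ht'), mul_nonneg (sub_nonneg.2 hw) (sub_nonneg.2 hw'), mul_nonneg (sub_nonneg.2 hv) (sub_nonneg.2 hv'), mul_nonneg (sub_nonneg.2 ht) (sub_nonneg.2 hw), mul_nonneg (sub_nonneg.2 ht) (sub_nonneg.2 hw'), mul_nonneg (sub_nonneg.2 ht') (sub_nonneg.2 hw), mul_nonneg (sub_nonneg.2 ht') (sub_nonneg.2 hw'), mul_nonneg (sub_nonneg.2 ht) (sub_nonneg.2 hv), mul_nonneg (sub_nonneg.2 ht) (sub_nonneg.2 hv'), mul_nonneg (sub_nonneg.2 ht') (sub_nonneg.2 hv), mul_nonneg (sub_nonneg.2 ht') (sub_nonneg.2 hv'), mul_nonneg (sub_nonneg.2 hw) (sub_nonneg.2 hv),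 mul_nonneg (sub_nonneg.2 hw) (sub_nonneg.2 hv'), mul_nonneg (sub_nonneg.2 hw') (sub_nonneg.2 hv), mul_nonneg (sub_nonneg.2 hw') (sub_nonneg.2 hv')]

theorem cE1 {t w v g : ℝ} (ht : 237 / 10000 ≤ t) (ht' : t ≤ 289 / 10000) (hw : 0 ≤ w) (hw' : w ≤ 167 / 10000)
    (hv : 31 / 5000 ≤ v) (hv' : v ≤ 19 / 1250) (hg : 0 ≤ g) (hg' : g ≤ 357 / 10000)
    (h2 : 0 ≤ m2 (289 / 10000) (167 / 10000) (19 / 1250) (357 / 10000) t w v g) (h3 : 0 ≤ m3 (289 / 10000) (167 / 10000) (19 / 1250) (357 / 10000) t w v g) (h4 : 0 ≤ m4c (21 / 50) (289 / 10000) (167 / 10000) (19 / 1250) (357 / 10000) t w v g) : False := by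
  simp only [m2, m3, m4c] at h2 h3 h4
  norm_num at h2 h3 h4
  linarith [sq_nonneg ((v - 31 / 5000) + (-38383 / 1000000) * w), sq_nonneg (w + (-5171 / 5000000) + (-59013 / 10000000) * (t - 237 / 10000)), sq_nonneg ((t - 237 / 10000) + (-6481 / 2500000)),
    mul_nonneg (sub_nonneg.2 ht) (sub_nonneg.2 ht'), mul_nonneg (sub_nonneg.2 hw) (sub_nonneg.2 hw'), mul_nonneg (sub_nonneg.2 hv) (sub_nonneg.2 hv'), mul_nonneg (sub_nonneg.2 ht) (sub_nonneg.2 hw), mul_nonneg (sub_nonneg.2 ht) (sub_nonneg.2 hw'), mul_nonneg (sub_nonneg.2 ht') (sub_nonneg.2 hw), mul_nonneg (sub_nonneg.2 ht') (sub_nonneg.2 hw'), mul_nonneg (sub_nonneg.2 ht) (sub_nonneg.2 hv), mul_nonneg (sub_nonneg.2 ht) (sub_nonneg.2 hv'), mul_nonneg (sub_nonneg.2 ht') (sub_nonneg.2 hv), mul_nonneg (sub_nonneg.2 ht') (sub_nonneg.2 hv'), mul_nonneg (sub_nonneg.2 hw) (sub_nonneg.2 hv), mul_nonneg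 (sub_nonneg.2 hw) (sub_nonneg.2 hv'), mul_nonneg (sub_nonneg.2 hw') (sub_nonneg.2 hv), mul_nonneg (sub_nonneg.2 hw') (sub_nonneg.2 hv')]

theorem cE2 {t w v g : ℝ} (ht : 237 / 10000 ≤ t) (ht' : t ≤ 289 / 10000) (hw : 0 ≤ w) (hw' : w ≤ 167 / 10000)
    (hv : 0 ≤ v) (hv' : v ≤ 31 / 5000) (hg : 171 / 10000 ≤ g) (hg' : g ≤ 357 / 10000)
    (h2 : 0 ≤ m2 (289 / 10000) (167 / 10000) (31 / 5000) (357 / 10000) t w v g) (h4 : 0 ≤ m4c (21 / 50) (289 / 10000) (167 / 10000) (31 / 5000) (357 / 10000) t w v g) : False := by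
  simp only [m2, m4c] at h2 h4
  norm_num at h2 h4
  linarith [sq_nonneg (v + (-3321 / 100000000) + (-14013 / 10000000) * (t - 237 / 10000) + (-5017 / 100000) * w), sq_nonneg (w + (-36403 / 10000000000) + (-3803 / 25000000) * (t - 237 / 10000)), sq_nonneg ((t - 237 / 10000) + (-25869 / 10000000)),
    mul_nonneg (sub_nonneg.2 ht) (sub_nonneg.2 ht'), mul_nonneg (sub_nonneg.2 hw) (sub_nonneg.2 hw'), mul_nonneg (sub_nonneg.2 hv) (sub_nonneg.2 hv'), mul_nonneg (sub_nonneg.2 ht) (sub_nonneg.2 hw), mul_nonneg (sub_nonneg.2 ht) (sub_nonneg.2 hw'), mul_nonneg (sub_nonneg.2 ht') (sub_nonneg.2 hw), mul_nonneg (sub_nonneg.2 ht') (sub_nonneg.2 hw'), mul_nonneg (sub_nonneg.2 ht) (sub_nonneg.2 hv), mul_nonneg (sub_nonneg.2 ht) (sub_nonneg.2 hv'), mul_nonneg (sub_nonneg.2 ht') (sub_nonneg.2 hv), mul_nonneg (sub_nonneg.2 ht') (sub_nonneg.2 hv'), mul_nonneg (sub_nonneg.2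 hw) (sub_nonneg.2 hv), mul_nonneg (sub_nonneg.2 hw) (sub_nonneg.2 hv'), mul_nonneg (sub_nonneg.2 hw') (sub_nonneg.2 hv), mul_nonneg (sub_nonneg.2 hw') (sub_nonneg.2 hv')]

theorem cE3 {t w v g : ℝ} (ht : 86 / 3125 ≤ t) (ht' : t ≤ 289 / 10000) (hw : 0 ≤ w) (hw' : w ≤ 167 / 10000)
    (hv : 0 ≤ v) (hv' : v ≤ 31 / 5000) (hg : 0 ≤ g) (hg' : g ≤ 171 / 10000)
    (h2 : 0 ≤ m2 (289 / 10000) (167 / 10000) (31 / 5000) (171 / 10000) t w v g) (h3 : 0 ≤ m3 (289 / 10000) (167 / 10000) (31 / 5000) (171 / 10000) t w v g) (h4 : 0 ≤ m4c (21 / 50) (289 / 10000) (167 / 10000) (31 / 5000) (171 / 10000) t w v g) : False := by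
  simp only [m2, m3, m4c] at h2 h3 h4
  norm_num at h2 h3 h4
  linarith [sq_nonneg (v + (-22957 / 10000000) + (-6337 / 50000) * w), sq_nonneg (w + (-72483 / 10000000) + (-13619 / 1000000) * (t - 86 / 3125)), sq_nonneg ((t - 86 / 3125) + (-957 / 6250000000)),
    mul_nonneg (sub_nonneg.2 ht) (sub_nonneg.2 ht'), mul_nonneg (sub_nonneg.2 hw) (sub_nonneg.2 hw'), mul_nonneg (sub_nonneg.2 hv) (sub_nonneg.2 hv'), mul_nonneg (sub_nonneg.2 ht) (sub_nonneg.2 hw), mul_nonneg (sub_nonneg.2 ht) (sub_nonneg.2 hw'), mul_nonneg (sub_nonneg.2 ht') (sub_nonneg.2 hw), mul_nonneg (sub_nonneg.2 ht') (sub_nonneg.2 hw'), mul_nonneg (sub_nonneg.2 ht) (sub_nonneg.2 hv), mul_nonneg (sub_nonneg.2 ht) (sub_nonneg.2 hv'), mul_nonneg (sub_nonneg.2 ht') (sub_nonneg.2 hv), mul_nonneg (sub_nonneg.2 ht') (sub_nonneg.2 hv'), mul_nonneg (sub_nonneg.2 hw) (sub_nonneg.2 hv), mul_nonneg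 (sub_nonneg.2 hw) (sub_nonneg.2 hv'), mul_nonneg (sub_nonneg.2 hw') (sub_nonneg.2 hv), mul_nonneg (sub_nonneg.2 hw') (sub_nonneg.2 hv')]

theorem cE4 {t w v g : ℝ} (ht : 237 / 10000 ≤ t) (ht' : t ≤ 1219 / 50000) (hw : 0 ≤ w) (hw' : w ≤ 167 / 10000)
    (hv : 0 ≤ v) (hv' : v ≤ 31 / 5000) (hg : 0 ≤ g) (hg' : g ≤ 171 / 10000)
    (h4 : 0 ≤ m4c (21 / 50) (1219 / 50000) (167 / 10000) (31 / 5000) (171 / 10000) t w v g) : False := by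
  simp only [m4c] at h4
  norm_num at h4
  linarith [sq_nonneg (v + (-7169 / 5000000) * w), sq_nonneg (w + (-12729 / 5000000000) + (-5297 / 50000000) * (t - 237 / 10000)), sq_nonneg ((t - 237 / 10000) + (-32779 / 50000000)),
    mul_nonneg (sub_nonneg.2 ht) (sub_nonneg.2 ht'), mul_nonneg (sub_nonneg.2 hw) (sub_nonneg.2 hw'), mul_nonneg (sub_nonneg.2 hv) (sub_nonneg.2 hv'), mul_nonneg (sub_nonneg.2 ht) (sub_nonneg.2 hw), mul_nonneg (sub_nonneg.2 ht) (sub_nonneg.2 hw'), mul_nonneg (sub_nonneg.2 ht') (sub_nonneg.2 hw), mul_nonneg (sub_nonneg.2 ht') (sub_nonneg.2 hw'), mul_nonneg (sub_nonneg.2 ht) (sub_nonneg.2 hv), mul_nonneg (sub_nonneg.2 ht) (sub_nonneg.2 hv'), mul_nonneg (sub_nonneg.2 ht') (sub_nonneg.2 hv), mul_nonneg (sub_nonneg.2 ht') (sub_nonneg.2 hv'), mul_nonneg (sub_nonneg.2 hw) (sub_nonneg.2 hv), mul_nonneg (sub_nonneg.2 hw) (sub_nonneg.2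 hv'), mul_nonneg (sub_nonneg.2 hw') (sub_nonneg.2 hv), mul_nonneg (sub_nonneg.2 hw') (sub_nonneg.2 hv')]

theorem cE5 {t w v g : ℝ} (ht : 1219 / 50000 ≤ t) (ht' : t ≤ 86 / 3125) (hw : 33 / 2500 ≤ w) (hw' : w ≤ 167 / 10000)
    (hv : 0 ≤ v) (hv' : v ≤ 31 / 5000) (hg : 0 ≤ g) (hg' : g ≤ 171 / 10000)
    (h2 : 0 ≤ m2 (86 / 3125) (167 / 10000) (31 / 5000) (171 / 10000) t w v g) (h4 : 0 ≤ m4c (21 / 50) (86 / 3125) (167 / 10000) (31 / 5000) (171 / 10000) t w v g) : False := by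
  simp only [m2, m4c] at h2 h4
  norm_num at h2 h4
  linarith [sq_nonneg (v + (-801 / 1250000) + (-70071 / 100000000) * (t - 1219 / 50000) + (-47251 / 1000000) * (w - 33 / 2500)), sq_nonneg ((w - 33 / 2500) + (-55177 / 100000000000) + (-33 / 2000000) * (t - 1219 / 50000)), sq_nonneg ((t - 1219 / 50000) + (-15649 / 10000000)),
    mul_nonneg (sub_nonneg.2 ht) (sub_nonneg.2 ht'), mul_nonneg (sub_nonneg.2 hw) (sub_nonneg.2 hw'), mul_nonneg (sub_nonneg.2 hv) (sub_nonneg.2 hv'), mul_nonneg (sub_nonneg.2 ht) (sub_nonneg.2 hw), mul_nonneg (sub_nonneg.2 ht) (sub_nonneg.2 hw'), mul_nonneg (sub_nonneg.2 ht') (sub_nonneg.2 hw), mul_nonneg (sub_nonneg.2 ht') (sub_nonneg.2 hw'), mul_nonneg (sub_nonneg.2 ht) (sub_nonneg.2 hv), mul_nonneg (sub_nonneg.2 ht) (sub_nonneg.2 hv'), mul_nonneg (sub_nonneg.2 ht') (sub_nonneg.2 hv), mul_nonneg (sub_nonneg.2 ht') (sub_nonneg.2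 hv'), mul_nonneg (sub_nonneg.2 hw) (sub_nonneg.2 hv), mul_nonneg (sub_nonneg.2 hw) (sub_nonneg.2 hv'), mul_nonneg (sub_nonneg.2 hw') (sub_nonneg.2 hv), mul_nonneg (sub_nonneg.2 hw') (sub_nonneg.2 hv')]

theorem cE6 {t w v g : ℝ} (ht : 1219 / 50000 ≤ t) (ht' : t ≤ 86 / 3125) (hw : 0 ≤ w) (hw' : w ≤ 33 / 2500)
    (hv : 1 / 200 ≤ v) (hv' : v ≤ 31 / 5000) (hg : 0 ≤ g) (hg' : g ≤ 171 / 10000)
    (h2 : 0 ≤ m2 (86 / 3125) (33 / 2500) (31 / 5000) (171 / 10000) t w v g) (h3 : 0 ≤ m3 (86 / 3125) (33 / 2500) (31 / 5000) (171 / 10000) t w v g) (h4 : 0 ≤ m4c (21 / 50) (86 / 3125) (33 / 2500) (31 / 5000) (171 / 10000) t w v g) : False := by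
  simp only [m2, m3, m4c] at h2 h3 h4
  norm_num at h2 h3 h4
  linarith [sq_nonneg ((v - 1 / 200) + (-5219 / 1000000) * w), sq_nonneg (w + (-47979 / 50000000) + (-42961 / 10000000) * (t - 1219 / 50000)), sq_nonneg ((t - 1219 / 50000) + (-16287 / 10000000)),
    mul_nonneg (sub_nonneg.2 ht) (sub_nonneg.2 ht'), mul_nonneg (sub_nonneg.2 hw) (sub_nonneg.2 hw'), mul_nonneg (sub_nonneg.2 hv) (sub_nonneg.2 hv'), mul_nonneg (sub_nonneg.2 ht) (sub_nonneg.2 hw), mul_nonneg (sub_nonneg.2 ht) (sub_nonneg.2 hw'), mul_nonneg (sub_nonneg.2 ht') (sub_nonneg.2 hw), mul_nonneg (sub_nonneg.2 ht') (sub_nonneg.2 hw'), mul_nonneg (sub_nonneg.2 ht) (sub_nonneg.2 hv), mul_nonneg (sub_nonneg.2 ht) (sub_nonneg.2 hv'), mul_nonneg (sub_nonneg.2 ht') (sub_nonneg.2 hv), mul_nonneg (sub_nonneg.2 ht') (sub_nonneg.2 hv'), mul_nonneg (sub_nonneg.2 hw) (sub_nonneg.2 hv), mul_nonneg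 (sub_nonneg.2 hw) (sub_nonneg.2 hv'), mul_nonneg (sub_nonneg.2 hw') (sub_nonneg.2 hv), mul_nonneg (sub_nonneg.2 hw') (sub_nonneg.2 hv')]

theorem cE7 {t w v g : ℝ} (ht : 1219 / 50000 ≤ t) (ht' : t ≤ 86 / 3125) (hw : 0 ≤ w) (hw' : w ≤ 33 / 2500)
    (hv : 0 ≤ v) (hv' : v ≤ 1 / 200) (hg : 159 / 10000 ≤ g) (hg' : g ≤ 171 / 10000)
    (h2 : 0 ≤ m2 (86 / 3125) (33 / 2500) (1 / 200) (171 / 10000) t w v g) (h4 : 0 ≤ m4c (21 / 50) (86 / 3125) (33 / 2500) (1 / 200) (171 / 10000) t w v g) : False := by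
  simp only [m2, m4c] at h2 h4
  norm_num at h2 h4
  linarith [sq_nonneg (v + (-16307 / 1000000000) + (-66889 / 100000000) * (t - 1219 / 50000) + (-42821 / 1000000) * w), sq_nonneg (w + (-13793 / 5000000000) + (-2193 / 20000000) * (t - 1219 / 50000)), sq_nonneg ((t - 1219 / 50000) + (-1949 / 1250000)),
    mul_nonneg (sub_nonneg.2 ht) (sub_nonneg.2 ht'), mul_nonneg (sub_nonneg.2 hw) (sub_nonneg.2 hw'), mul_nonneg (sub_nonneg.2 hv) (sub_nonneg.2 hv'), mul_nonneg (sub_nonneg.2 ht) (sub_nonneg.2 hw), mul_nonneg (sub_nonneg.2 ht) (sub_nonneg.2 hw'), mul_nonneg (sub_nonneg.2 ht') (sub_nonneg.2 hw), mul_nonneg (sub_nonneg.2 ht') (sub_nonneg.2 hw'), mul_nonneg (sub_nonneg.2 ht) (sub_nonneg.2 hv), mul_nonneg (sub_nonneg.2 ht) (sub_nonneg.2 hv'), mul_nonneg (sub_nonneg.2 ht') (sub_nonneg.2 hv), mul_nonneg (sub_nonneg.2 ht') (sub_nonneg.2 hv'), mul_nonneg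 (sub_nonneg.2 hw) (sub_nonneg.2 hv), mul_nonneg (sub_nonneg.2 hw) (sub_nonneg.2 hv'), mul_nonneg (sub_nonneg.2 hw') (sub_nonneg.2 hv), mul_nonneg (sub_nonneg.2 hw') (sub_nonneg.2 hv')]

end Rein83
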