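import Pool.Agent.Rein83.FinSDefs

set_option autoImplicit false

/-! Section F: the inequalities S1 - S4. -/

namespace Rein83

/-- S1 -/
def HS1 (t w v g : ℝ) : Prop := 2588 / 10000 * g + 48989 / 10000 * w ^ 2 + 20705 / 10000 * v ^ 2 ≤
      6743 / 1000000 + 28285 / 10000 * t ^ 2 + 12942 / 100000 * (g ^ 2 + 32 * (v ^ 2 + t * w) ^ 2
        + 32 * v ^ 2 * (t + w) ^ 2)
/-- S2 -/
def HS2 (t w v g : ℝ) : Prop := 0 ≤ 17639 / 1000000 * (1 + g / 4 + w ^ 2 + 2 * v ^ 2 + t ^ 2) + (g / 8 + v * (t + w)) ^ 2 + v ^ 2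
      + 143186 / 100000 * w ^ 2 - 243185 / 100000 * t ^ 2 - 58578 / 100000 * t + g * v / 2
      + 4 * v ^ 2 * (t + w)
      + 341422 / 100000 * w * (g / 8 + v ^ 2 + t * w + v * (t + w))
/-- S3 -/
def HS3 (t w v g : ℝ) : Prop := 0 ≤ 2 * (17639 / 1000000 - 58578 / 100000 * t - 243185 / 100000 * t ^ 2)
      + (51764 / 100000 + 193186 / 100000 * t) * (g / 2 + t ^ 2 + w ^ 2 + 2 * v ^ 2 + 2 * w * v)
      + 28638 / 10000 * w ^ 2 + 2 * v ^ 2 + 83634 / 10000 * w * v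
      - (103527 / 100000 + 242 / 100 * t) * v + brS t w v g
/-- S4 -/
def HS4 (q t w v g : ℝ) : Prop := 5796 / 1000000 + (3922 / 10000 - 757773 / 1000000 * q) * g + 67587 / 10000 * w ^ 2
      + 16059 / 10000 * v ^ 2 ≤ 51528 / 10000 * t ^ 2
      + 100375 / 1000000 * (g ^ 2 + 32 * (v ^ 2 + t * w) ^ 2 + 32 * v ^ 2 * (t + w) ^ 2)
      + 19676 / 1000000 * (Real.sqrt (2 * t ^ 2 + 2 * w ^ 2 + 4 * v ^ 2)
        * (4 + 3 / 2 * g + (2 * t ^ 2 + 2 * w ^ 2 + 4 * v ^ 2)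
          + 566 / 100 * (v ^ 2 + t * w) + 566 / 100 * v * (t + w)))
/-- canonical S4 -/
def HS4c (q t w v g : ℝ) : Prop := 5796 / 1000000 + (3922 / 10000 - 757773 / 1000000 * q) * g + 67587 / 10000 * w ^ 2
      + 16059 / 10000 * v ^ 2 ≤ 51528 / 10000 * t ^ 2
      + 100375 / 1000000 * (g ^ 2 + 32 * (v ^ 2 + t * w) ^ 2 + 32 * v ^ 2 * (t + w) ^ 2)
      + 27826 / 1000000 * ((4 + g / 2 + 2 * t ^ 2 + 2 * w ^ 2 + 4 * v ^ 2) * t)
      + 27826 / 1000000 * ((g / 2 + 4 * (v ^ 2 + t * w) + 4 * v * (t + w)) * w)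
      + 2783 / 100000 * (g * v)

end Rein83
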