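import Pool.Agent.Rein83.FinMDefs

set_option autoImplicit false
set_option linter.unusedSectionVars false

/-! Section F: quadratic majorants. -/

namespace Rein83

private theorem mm {a A b : ℝ} (h : a ≤ A) (hb : 0 ≤ b) : a * b ≤ A * b :=
  mul_le_mul_of_nonneg_right h hb

section
variable {T W V G t w v g : ℝ} (ht0 : 0 ≤ t) (ht : t ≤ T) (hw0 : 0 ≤ w) (hw : w ≤ W) (hv0 : 0 ≤ v) (hv : v ≤ V)
  (hg0 : 0 ≤ g) (hg : g ≤ G)
include ht0 ht hw0 hw hv0 hv hg0 hg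

private theorem mP2 : (v ^ 2 + t * w) ^ 2 ≤ (V ^ 2 + T * W) * (v ^ 2 + t * w) := by
  have h1 : v ^ 2 + t * w ≤ V ^ 2 + T * W := by
    have h2 : v ^ 2 ≤ V ^ 2 := pow_le_pow_left₀ hv0 hv 2
    have h3 : t * w ≤ T * W := mul_le_mul ht hw hw0 (ht0.trans ht)
    linarith
  have h4 : 0 ≤ v ^ 2 + t * w := by positivity
  linarith [mm h1 h4]

private theorem mP3 : v ^ 2 * (t + w) ^ 2 ≤ (T + W) ^ 2 * v ^ 2 := by
  have h1 : (t + w) ^ 2 ≤ (T + W) ^ 2 := pow_le_pow_left₀ (by positivity) (by linarith) 2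
  linarith [mm h1 (sq_nonneg v)]

private theorem mP1 : g ^ 2 ≤ G * g := by linarith [mm hg hg0]

theorem maj1 (h : 2588 / 10000 * g + 48989 / 10000 * w ^ 2 + 20705 / 10000 * v ^ 2 ≤
      6743 / 1000000 + 28285 / 10000 * t ^ 2 + 12942 / 100000 * (g ^ 2 + 32 * (v ^ 2 + t * w) ^ 2
        + 32 * v ^ 2 * (t + w) ^ 2)) : 0 ≤ m1 T W V G t w v g := by
  have h1 := mP1 ht0 ht hw0 hw hv0 hv hg0 hg
  have h2 := mP2 ht0 ht hw0 hw hv0 hv hg0 hg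
  have h3 := mP3 ht0 ht hw0 hw hv0 hv hg0 hg
  unfold m1
  linarith

theorem maj2 (h : 0 ≤ 17639 / 1000000 * (1 + g / 4 + w ^ 2 + 2 * v ^ 2 + t ^ 2) + (g / 8 + v * (t + w)) ^ 2 + v ^ 2
      + 143186 / 100000 * w ^ 2 - 243185 / 100000 * t ^ 2 - 58578 / 100000 * t + g * v / 2
      + 4 * v ^ 2 * (t + w)
      + 341422 / 100000 * w * (g / 8 + v ^ 2 + t * w + v * (t + w))) : 0 ≤ m2 T W V G t w v g := by
  have hV0 : 0 ≤ V := hv0.trans hv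
  have h1 : (g / 8 + v * (t + w)) ^ 2 ≤ (G / 8 + V * (T + W)) * (g / 8 + v * (t + w)) := by
    have h2 : v * (t + w) ≤ V * (T + W) := mul_le_mul hv (by linarith) (by positivity) hV0
    have h3 : g / 8 + v * (t + w) ≤ G / 8 + V * (T + W) := by linarith
    have h4 : 0 ≤ g / 8 + v * (t + w) := by positivity
    linarith [mm h3 h4]
  have h2 : g * v ≤ g * V := mul_le_mul_of_nonneg_left hv hg0
  have h3 : v ^ 2 * (t + w) ≤ v ^ 2 * (T + W) :=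
    mul_le_mul_of_nonneg_left (by linarith) (sq_nonneg v)
  have h4 : w * g ≤ W * g := mm hw hg0
  have h5 : w * v ^ 2 ≤ W * v ^ 2 := mm hw (sq_nonneg v)
  have h6 : t * w ^ 2 ≤ T * w ^ 2 := mm ht (sq_nonneg w)
  have h7 : (t + w) * (v * w) ≤ (T + W) * (v * w) := mm (by linarith) (by positivity)
  have h8 : w * (g / 8 + v ^ 2 + t * w + v * (t + w)) ≤
      W * g / 8 + W * v ^ 2 + T * w ^ 2 + (T + W) * (v * w) := by
    have : w * (g / 8 + v ^ 2 + t * w + v * (t + w)) =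
        w * g / 8 + w * v ^ 2 + t * w ^ 2 + (t + w) * (v * w) := by ring
    rw [this]
    linarith
  unfold m2
  linarith

theorem maj3 (h : 0 ≤ 2 * (17639 / 1000000 - 58578 / 100000 * t - 243185 / 100000 * t ^ 2)
      + (51764 / 100000 + 193186 / 100000 * t) * (g / 2 + t ^ 2 + w ^ 2 + 2 * v ^ 2 + 2 * w * v)
      + 28638 / 10000 * w ^ 2 + 2 * v ^ 2 + 83634 / 10000 * w * v
      - (103527 / 100000 + 242 / 100 * t) * v + brS t w v g) : 0 ≤ m3 T W V G t w v g := by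
  have hT0 : 0 ≤ T := ht0.trans ht
  have hW0 : 0 ≤ W := hw0.trans hw
  have hV0 : 0 ≤ V := hv0.trans hv
  have hue0 : 0 ≤ (t + w) ^ 2 / 2 := by positivity
  have huo0 : 0 ≤ (t + w + 2 * v) ^ 2 / 2 := by positivity
  have hue : (t + w) ^ 2 / 2 ≤ (T + W) ^ 2 / 2 := by
    have : (t + w) ^ 2 ≤ (T + W) ^ 2 := pow_le_pow_left₀ (by positivity) (by linarith) 2
    linarith
  have huo : (t + w + 2 * v) ^ 2 / 2 ≤ (T + W + 2 * V) ^ 2 / 2 := by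
    have : (t + w + 2 * v) ^ 2 ≤ (T + W + 2 * V) ^ 2 :=
      pow_le_pow_left₀ (by positivity) (by linarith) 2
    linarith
  have hP : t * (g / 2 + t ^ 2 + w ^ 2 + 2 * v ^ 2 + 2 * w * v) ≤
      T * (g / 2 + t ^ 2 + w ^ 2 + 2 * v ^ 2 + 2 * w * v) := mm ht (by positivity)
  have hb : brS t w v g ≤
      ((2 * W + 4 * V) + 2 * (2 * W + 2 * V) + 2 * (T + W + 2 * V) ^ 2 + (T + W) ^ 2 / 2) * ((t + w) ^ 2 / 2)
    + (2 * (2 * W + 2 * V) + (T + W + 2 * V) ^ 2 / 2 + 2 * W) * ((t + w + 2 * v) ^ 2 / 2)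
    + ((2 * W + 4 * V + 2 * (T + W + 2 * V) ^ 2 + (T + W) ^ 2 / 2) / 2
        + (2 * W + 2 * V + 3 * (T + W) ^ 2 / 2 + (T + W + 2 * V) ^ 2 / 2) / 2 + G / 2) * g := by
    unfold brS
    generalize (t + w) ^ 2 / 2 = ue at *
    generalize (t + w + 2 * v) ^ 2 / 2 = uo at *
    have e1 : ((2 * w + 4 * v) + 2 * (2 * w + 2 * v) + 4 * uo + ue) * ue ≤
        ((2 * W + 4 * V) + 2 * (2 * W + 2 * V) + 2 * (T + W + 2 * V) ^ 2 + (T + W) ^ 2 / 2) * ue :=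
      mm (by linarith) hue0
    have e2 : (2 * (2 * w + 2 * v) + uo + 2 * w) * uo ≤
        (2 * (2 * W + 2 * V) + (T + W + 2 * V) ^ 2 / 2 + 2 * W) * uo :=
      mm (by linarith) huo0
    have e3 : ((2 * w + 4 * v + 4 * uo + ue) / 2 + (2 * w + 2 * v + 3 * ue + uo) / 2 + g / 2) * g ≤
        ((2 * W + 4 * V + 2 * (T + W + 2 * V) ^ 2 + (T + W) ^ 2 / 2) / 2
        + (2 * W + 2 * V + 3 * (T + W) ^ 2 / 2 + (T + W + 2 * V) ^ 2 / 2) / 2 + G / 2) * g :=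
      mm (by linarith) hg0
    have e4 : ue * (2 * w + 4 * v) + 2 * uo * (2 * w + 2 * v) + 2 * ue * uo + uo ^ 2
      + g / 2 * (2 * w + 4 * v + 4 * uo + ue) + g ^ 2 / 4
      + (2 * uo * w + 2 * ue * (2 * w + 2 * v) + 2 * ue * uo + ue ^ 2
      + g / 2 * (2 * w + 2 * v + 3 * ue + uo) + g ^ 2 / 4)
      = ((2 * w + 4 * v) + 2 * (2 * w + 2 * v) + 4 * uo + ue) * ue
        + (2 * (2 * w + 2 * v) + uo + 2 * w) * uo
        + ((2 * w + 4 * v + 4 * uo + ue) / 2 + (2 * w + 2 * v + 3 * ue + uo) / 2 + g / 2) * g := by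
      ring
    show ue * (2 * w + 4 * v) + 2 * uo * (2 * w + 2 * v) + 2 * ue * uo + uo ^ 2
      + g / 2 * (2 * w + 4 * v + 4 * uo + ue) + g ^ 2 / 4
      + (2 * uo * w + 2 * ue * (2 * w + 2 * v) + 2 * ue * uo + ue ^ 2
      + g / 2 * (2 * w + 2 * v + 3 * ue + uo) + g ^ 2 / 4) ≤ _
    rw [e4]
    linarith
  unfold m3
  linarith

theorem maj4 {q c R : ℝ} (hc : 0 < c) (hR : 0 ≤ R) (hR2 : 2 * T ^ 2 + 2 * W ^ 2 + 4 * V ^ 2 ≤ R ^ 2)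
    (h : 5796 / 1000000 + (3922 / 10000 - 757773 / 1000000 * q) * g + 67587 / 10000 * w ^ 2
      + 16059 / 10000 * v ^ 2 ≤ 51528 / 10000 * t ^ 2
      + 100375 / 1000000 * (g ^ 2 + 32 * (v ^ 2 + t * w) ^ 2 + 32 * v ^ 2 * (t + w) ^ 2)
      + 19676 / 1000000 * (Real.sqrt (2 * t ^ 2 + 2 * w ^ 2 + 4 * v ^ 2)
        * (4 + 3 / 2 * g + (2 * t ^ 2 + 2 * w ^ 2 + 4 * v ^ 2)
          + 566 / 100 * (v ^ 2 + t * w) + 566 / 100 * v * (t + w)))) :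
    0 ≤ m4 q c R T W V G t w v g := by
  have h1 := mP1 ht0 ht hw0 hw hv0 hv hg0 hg
  have h2 := mP2 ht0 ht hw0 hw hv0 hv hg0 hg
  have h3 := mP3 ht0 ht hw0 hw hv0 hv hg0 hg
  have hx0 : 0 ≤ 2 * t ^ 2 + 2 * w ^ 2 + 4 * v ^ 2 := by positivity
  have hxR : 2 * t ^ 2 + 2 * w ^ 2 + 4 * v ^ 2 ≤ R ^ 2 := by
    have e1 : t ^ 2 ≤ T ^ 2 := pow_le_pow_left₀ ht0 ht 2
    have e2 : w ^ 2 ≤ W ^ 2 := pow_le_pow_left₀ hw0 hw 2
    have e3 : v ^ 2 ≤ V ^ 2 := pow_le_pow_left₀ hv0 hv 2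
    linarith
  have hY0 : 0 ≤ 3 / 2 * g + (2 * t ^ 2 + 2 * w ^ 2 + 4 * v ^ 2) + 566 / 100 * (v ^ 2 + t * w)
          + 566 / 100 * (v * (t + w)) := by positivity
  have hs : Real.sqrt (2 * t ^ 2 + 2 * w ^ 2 + 4 * v ^ 2)
        * (4 + 3 / 2 * g + (2 * t ^ 2 + 2 * w ^ 2 + 4 * v ^ 2)
          + 566 / 100 * (v ^ 2 + t * w) + 566 / 100 * v * (t + w)) ≤
      2 / c * ((2 * t ^ 2 + 2 * w ^ 2 + 4 * v ^ 2) + c ^ 2)
        + R * (3 / 2 * g + (2 * t ^ 2 + 2 * w ^ 2 + 4 * v ^ 2) + 566 / 100 * (v ^ 2 + t * w)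
          + 566 / 100 * (v * (t + w))) := by
    set x := 2 * t ^ 2 + 2 * w ^ 2 + 4 * v ^ 2 with hx
    have hsq : Real.sqrt x ^ 2 = x := Real.sq_sqrt hx0
    have hs0 : 0 ≤ Real.sqrt x := Real.sqrt_nonneg x
    have hsR : Real.sqrt x ≤ R := by
      rw [show R = Real.sqrt (R ^ 2) from (Real.sqrt_sq hR).symm]
      exact Real.sqrt_le_sqrt hxR
    have ha : Real.sqrt x * 4 ≤ 2 / c * (x + c ^ 2) := by
      rw [div_mul_eq_mul_div, le_div_iff₀ hc]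
      linarith [sq_nonneg (Real.sqrt x - c)]
    have hb := mm hsR hY0
    have hcc : Real.sqrt x * (4 + 3 / 2 * g + x
          + 566 / 100 * (v ^ 2 + t * w) + 566 / 100 * v * (t + w)) =
        Real.sqrt x * 4 + Real.sqrt x * (3 / 2 * g + x + 566 / 100 * (v ^ 2 + t * w)
          + 566 / 100 * (v * (t + w))) := by ring
    rw [hcc]
    linarith
  unfold m4
  linarith

theorem maj4c {q : ℝ}
    (h : 5796 / 1000000 + (3922 / 10000 - 757773 / 1000000 * q) * g + 67587 / 10000 * w ^ 2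
      + 16059 / 10000 * v ^ 2 ≤ 51528 / 10000 * t ^ 2
      + 100375 / 1000000 * (g ^ 2 + 32 * (v ^ 2 + t * w) ^ 2 + 32 * v ^ 2 * (t + w) ^ 2)
      + 27826 / 1000000 * ((4 + g / 2 + 2 * t ^ 2 + 2 * w ^ 2 + 4 * v ^ 2) * t)
      + 27826 / 1000000 * ((g / 2 + 4 * (v ^ 2 + t * w) + 4 * v * (t + w)) * w)
      + 2783 / 100000 * (g * v)) : 0 ≤ m4c q T W V G t w v g := by
  have h1 := mP1 ht0 ht hw0 hw hv0 hv hg0 hg
  have h2 := mP2 ht0 ht hw0 hw hv0 hv hg0 hg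
  have h3 := mP3 ht0 ht hw0 hw hv0 hv hg0 hg
  have h4 : t * (g / 2 + 2 * t ^ 2 + 2 * w ^ 2 + 4 * v ^ 2) ≤
      T * (g / 2 + 2 * t ^ 2 + 2 * w ^ 2 + 4 * v ^ 2) := mm ht (by positivity)
  have h5 : w * g ≤ W * g := mm hw hg0
  have h6 : w * v ^ 2 ≤ W * v ^ 2 := mm hw (sq_nonneg v)
  have h7 : t * w ^ 2 ≤ T * w ^ 2 := mm ht (sq_nonneg w)
  have h8 : (t + w) * (v * w) ≤ (T + W) * (v * w) := mm (by linarith) (by positivity)
  have h9 : v * g ≤ V * g := mm hv hg0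
  have e1 : (4 + g / 2 + 2 * t ^ 2 + 2 * w ^ 2 + 4 * v ^ 2) * t =
      4 * t + t * (g / 2 + 2 * t ^ 2 + 2 * w ^ 2 + 4 * v ^ 2) := by ring
  have e2 : (g / 2 + 4 * (v ^ 2 + t * w) + 4 * v * (t + w)) * w =
      w * g / 2 + 4 * (w * v ^ 2) + 4 * (t * w ^ 2) + 4 * ((t + w) * (v * w)) := by ring
  rw [e1, e2] at h
  unfold m4c
  linarith

end

end Rein83
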