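import Pool.Agent.Rein83.FinCert
import Pool.Agent.Rein83.FinCertB
import Pool.Agent.Rein83.FinHS
import Pool.Agent.Rein83.FinM

set_option autoImplicit false

/-! Section F: the stages (generated). -/

namespace Rein83

theorem stageB {t w v g : ℝ} (ht0 : 0 ≤ t) (hw0 : 0 ≤ w) (hv0 : 0 ≤ v) (hg0 : 0 ≤ g)
    (ht : t ≤ 152 / 1000) (hw : w ≤ 152 / 1000) (hv : v ≤ 2205 / 10000) (hg : g ≤ 188 / 1000)
    (s0 : g + 8168 / 1000 * (t ^ 2 + w ^ 2) ≤ 1717 / 10000 + 3362 / 10000 * v ^ 2)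
    (s1 : HS1 t w v g) (s2 : HS2 t w v g) (s3 : t ≤ 1 / 10 → HS3 t w v g) :
    t ≤ 36 / 1000 ∧ w ≤ 464 / 10000 ∧ v ≤ 723 / 10000 ∧ g ≤ 392 / 10000 := by
  have ht : t ≤ 19 / 125 := by linarith
  have hw : w ≤ 19 / 125 := by linarith
  have hv : v ≤ 441 / 2000 := by linarith
  have hg : g ≤ 47 / 250 := by linarith
  have kI : t ≤ 1 / 10 := by
    by_contra hcI
    have hcI := (not_le.1 hcI).le
    have kI1 : g ≤ 103 / 2000 := by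
      by_contra hc
      have hc := (not_le.1 hc).le
      exact cI1 hcI ht hw0 hw hv0 hv hc hg s0 (maj1 ht0 ht hw0 hw hv0 hv hg0 hg s1) (maj2 ht0 ht hw0 hw hv0 hv hg0 hg s2)
    have kI2 : w ≤ 321 / 5000 := by
      by_contra hc
      have hc := (not_le.1 hc).le
      exact cI2 hcI ht hc hw hv0 hv hg0 kI1 s0 (maj1 ht0 ht hw0 hw hv0 hv hg0 kI1 s1) (maj2 ht0 ht hw0 hw hv0 hv hg0 kI1 s2)
    exact cI3 hcI ht hw0 kI2 hv0 hv hg0 kI1 (maj1 ht0 ht hw0 kI2 hv0 hv hg0 kI1 s1) (maj2 ht0 ht hw0 kI2 hv0 hv hg0 kI1 s2)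
  have s3 := s3 kI
  have kII : t ≤ 3 / 50 := by
    by_contra hcI
    have hcI := (not_le.1 hcI).le
    have kII1 : t ≤ 29 / 400 := by
      by_contra hc
      have hc := (not_le.1 hc).le
      exact cII1 hc kI hw0 hw hv0 hv hg0 hg (maj1 ht0 kI hw0 hw hv0 hv hg0 hg s1) (maj2 ht0 kI hw0 hw hv0 hv hg0 hg s2) (maj3 ht0 kI hw0 hw hv0 hv hg0 hg s3)
    have kII2 : t ≤ 6137 / 100000 := by
      by_contra hc
      have hc := (not_le.1 hc).le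
      exact cII2 hc kII1 hw0 hw hv0 hv hg0 hg (maj1 ht0 kII1 hw0 hw hv0 hv hg0 hg s1) (maj2 ht0 kII1 hw0 hw hv0 hv hg0 hg s2) (maj3 ht0 kII1 hw0 hw hv0 hv hg0 hg s3)
    exact cII3 hcI kII2 hw0 hw hv0 hv hg0 hg (maj1 ht0 kII2 hw0 hw hv0 hv hg0 hg s1) (maj2 ht0 kII2 hw0 hw hv0 hv hg0 hg s2) (maj3 ht0 kII2 hw0 hw hv0 hv hg0 hg s3)
  have kIII : t ≤ 9 / 250 := by
    by_contra hcI
    have hcI := (not_le.1 hcI).le
    have kIII1 : g ≤ 97 / 2000 := by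
      by_contra hc
      have hc := (not_le.1 hc).le
      exact cIII1 hcI kII hw0 hw hv0 hv hc hg (maj1 ht0 kII hw0 hw hv0 hv hg0 hg s1) (maj2 ht0 kII hw0 hw hv0 hv hg0 hg s2)
    have kIII2 : w ≤ 11 / 250 := by
      by_contra hc
      have hc := (not_le.1 hc).le
      exact cIII2 hcI kII hc hw hv0 hv hg0 kIII1 (maj1 ht0 kII hw0 hw hv0 hv hg0 kIII1 s1) (maj2 ht0 kII hw0 hw hv0 hv hg0 kIII1 s2)
    have kIII3 : t ≤ 411 / 10000 := by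
      by_contra hc
      have hc := (not_le.1 hc).le
      exact cIII3 hc kII hw0 kIII2 hv0 hv hg0 kIII1 (maj1 ht0 kII hw0 kIII2 hv0 hv hg0 kIII1 s1) (maj2 ht0 kII hw0 kIII2 hv0 hv hg0 kIII1 s2) (maj3 ht0 kII hw0 kIII2 hv0 hv hg0 kIII1 s3)
    have kIII4 : v ≤ 793 / 10000 := by
      by_contra hc
      have hc := (not_le.1 hc).le
      exact cIII4 hcI kIII3 hw0 kIII2 hc hv hg0 kIII1 (maj1 ht0 kIII3 hw0 kIII2 hv0 hv hg0 kIII1 s1) (maj2 ht0 kIII3 hw0 kIII2 hv0 hv hg0 kIII1 s2)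
    exact cIII5 hcI kIII3 hw0 kIII2 hv0 kIII4 hg0 kIII1 (maj1 ht0 kIII3 hw0 kIII2 hv0 kIII4 hg0 kIII1 s1) (maj2 ht0 kIII3 hw0 kIII2 hv0 kIII4 hg0 kIII1 s2) (maj3 ht0 kIII3 hw0 kIII2 hv0 kIII4 hg0 kIII1 s3)
  have kIV1 : g ≤ 57 / 1250 := by
    by_contra hc
    have hc := (not_le.1 hc).le
    exact cIV1 ht0 kIII hw0 hw hv0 hv hc hg (maj1 ht0 kIII hw0 hw hv0 hv hg0 hg s1)
  have kIV2 : w ≤ 29 / 625 := by
    by_contra hc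
    have hc := (not_le.1 hc).le
    exact cIV2 ht0 kIII hc hw hv0 hv hg0 kIV1 (maj1 ht0 kIII hw0 hw hv0 hv hg0 kIV1 s1) (maj2 ht0 kIII hw0 hw hv0 hv hg0 kIV1 s2)
  have kIV3 : v ≤ 379 / 5000 := by
    by_contra hc
    have hc := (not_le.1 hc).le
    exact cIV3 ht0 kIII hw0 kIV2 hc hv hg0 kIV1 (maj1 ht0 kIII hw0 kIV2 hv0 hv hg0 kIV1 s1)
  have kIV4 : g ≤ 49 / 1250 := by
    by_contra hc
    have hc := (not_le.1 hc).le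
    exact cIV4 ht0 kIII hw0 kIV2 hv0 kIV3 hc kIV1 (maj1 ht0 kIII hw0 kIV2 hv0 kIV3 hg0 kIV1 s1) (maj2 ht0 kIII hw0 kIV2 hv0 kIV3 hg0 kIV1 s2)
  have kIV5 : v ≤ 723 / 10000 := by
    by_contra hc
    have hc := (not_le.1 hc).le
    exact cIV5 ht0 kIII hw0 kIV2 hc kIV3 hg0 kIV4 (maj1 ht0 kIII hw0 kIV2 hv0 kIV3 hg0 kIV4 s1)
  exact ⟨by linarith, by linarith, by linarith, by linarith⟩

theorem stageC {t w v g : ℝ} (ht0 : 0 ≤ t) (hw0 : 0 ≤ w) (hv0 : 0 ≤ v) (hg0 : 0 ≤ g)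
    (ht : t ≤ 36 / 1000) (hw : w ≤ 464 / 10000) (hv : v ≤ 723 / 10000) (hg : g ≤ 392 / 10000)
    (s1 : HS1 t w v g) (s2 : HS2 t w v g) (s3 : HS3 t w v g) (s4 : HS4 (47 / 100) t w v g) :
    2381 / 100000 ≤ t ∧ t ≤ 2886 / 100000 ∧ w ≤ 166 / 10000 ∧ v ≤ 152 / 10000 ∧ g ≤ 356 / 10000 := by
  have ht : t ≤ 9 / 250 := by linarith
  have hw : w ≤ 29 / 625 := by linarith
  have hv : v ≤ 723 / 10000 := by linarith
  have hg : g ≤ 49 / 1250 := by linarith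
  have kC1 : 457 / 25000 ≤ t := by
    by_contra hc
    have hc := (not_le.1 hc).le
    exact cC1 ht0 hc hw0 hw hv0 hv hg0 hg (maj3 ht0 hc hw0 hw hv0 hv hg0 hg s3) (maj4 ht0 hc hw0 hw hv0 hv hg0 hg (by norm_num) (by norm_num) (by norm_num) s4)
  have kC2 : v ≤ 3 / 100 := by
    by_contra hc
    have hc := (not_le.1 hc).le
    exact cC2 kC1 ht hw0 hw hc hv hg0 hg (maj1 ht0 ht hw0 hw hv0 hv hg0 hg s1) (maj3 ht0 ht hw0 hw hv0 hv hg0 hg s3) (maj4 ht0 ht hw0 hw hv0 hv hg0 hg (by norm_num) (by norm_num) (by norm_num) s4)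
  have kC3 : w ≤ 229 / 10000 := by
    by_contra hc
    have hc := (not_le.1 hc).le
    exact cC3 kC1 ht hc hw hv0 kC2 hg0 hg (maj1 ht0 ht hw0 hw hv0 kC2 hg0 hg s1) (maj2 ht0 ht hw0 hw hv0 kC2 hg0 hg s2) (maj3 ht0 ht hw0 hw hv0 kC2 hg0 hg s3) (maj4 ht0 ht hw0 hw hv0 kC2 hg0 hg (by norm_num) (by norm_num) (by norm_num) s4)
  have kC4 : t ≤ 31 / 1000 := by
    by_contra hc
    have hc := (not_le.1 hc).le
    exact cC4 hc ht hw0 kC3 hv0 kC2 hg0 hg (maj1 ht0 ht hw0 kC3 hv0 kC2 hg0 hg s1) (maj2 ht0 ht hw0 kC3 hv0 kC2 hg0 hg s2) (maj3 ht0 ht hw0 kC3 hv0 kC2 hg0 hg s3)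
  have kC5 : t ≤ 3 / 100 := by
    by_contra hc
    have hc := (not_le.1 hc).le
    exact cC5 hc kC4 hw0 kC3 hv0 kC2 hg0 hg (maj1 ht0 kC4 hw0 kC3 hv0 kC2 hg0 hg s1) (maj2 ht0 kC4 hw0 kC3 hv0 kC2 hg0 hg s2) (maj3 ht0 kC4 hw0 kC3 hv0 kC2 hg0 hg s3) (maj4 ht0 kC4 hw0 kC3 hv0 kC2 hg0 hg (by norm_num) (by norm_num) (by norm_num) s4)
  have kC6 : 1147 / 50000 ≤ t := by
    by_contra hc
    have hc := (not_le.1 hc).le
    exact cC6 kC1 hc hw0 kC3 hv0 kC2 hg0 hg (maj3 ht0 hc hw0 kC3 hv0 kC2 hg0 hg s3) (maj4 ht0 hc hw0 kC3 hv0 kC2 hg0 hg (by norm_num) (by norm_num) (by norm_num) s4)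
  have kC7 : v ≤ 183 / 10000 := by
    by_contra hc
    have hc := (not_le.1 hc).le
    exact cC7 kC6 kC5 hw0 kC3 hc kC2 hg0 hg (maj1 ht0 kC5 hw0 kC3 hv0 kC2 hg0 hg s1) (maj3 ht0 kC5 hw0 kC3 hv0 kC2 hg0 hg s3) (maj4 ht0 kC5 hw0 kC3 hv0 kC2 hg0 hg (by norm_num) (by norm_num) (by norm_num) s4)
  have kC8 : w ≤ 169 / 10000 := by
    by_contra hc
    have hc := (not_le.1 hc).le
    exact cC8 kC6 kC5 hc kC3 hv0 kC7 hg0 hg (maj2 ht0 kC5 hw0 kC3 hv0 kC7 hg0 hg s2) (maj3 ht0 kC5 hw0 kC3 hv0 kC7 hg0 hg s3) (maj4 ht0 kC5 hw0 kC3 hv0 kC7 hg0 hg (by norm_num) (by norm_num) (by norm_num) s4)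
  have kC9 : t ≤ 2907 / 100000 := by
    by_contra hc
    have hc := (not_le.1 hc).le
    exact cC9 hc kC5 hw0 kC8 hv0 kC7 hg0 hg (maj1 ht0 kC5 hw0 kC8 hv0 kC7 hg0 hg s1) (maj2 ht0 kC5 hw0 kC8 hv0 kC7 hg0 hg s2) (maj3 ht0 kC5 hw0 kC8 hv0 kC7 hg0 hg s3) (maj4 ht0 kC5 hw0 kC8 hv0 kC7 hg0 hg (by norm_num) (by norm_num) (by norm_num) s4)
  have kC10 : 473 / 20000 ≤ t := by
    by_contra hc
    have hc := (not_le.1 hc).le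
    exact cC10 kC6 hc hw0 kC8 hv0 kC7 hg0 hg (maj3 ht0 hc hw0 kC8 hv0 kC7 hg0 hg s3) (maj4 ht0 hc hw0 kC8 hv0 kC7 hg0 hg (by norm_num) (by norm_num) (by norm_num) s4)
  have kC11 : v ≤ 79 / 5000 := by
    by_contra hc
    have hc := (not_le.1 hc).le
    exact cC11 kC10 kC9 hw0 kC8 hc kC7 hg0 hg (maj1 ht0 kC9 hw0 kC8 hv0 kC7 hg0 hg s1) (maj3 ht0 kC9 hw0 kC8 hv0 kC7 hg0 hg s3) (maj4 ht0 kC9 hw0 kC8 hv0 kC7 hg0 hg (by norm_num) (by norm_num) (by norm_num) s4)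
  have kC12 : g ≤ 89 / 2500 := by
    by_contra hc
    have hc := (not_le.1 hc).le
    exact cC12 kC10 kC9 hw0 kC8 hv0 kC11 hc hg (maj1 ht0 kC9 hw0 kC8 hv0 kC11 hg0 hg s1) (maj2 ht0 kC9 hw0 kC8 hv0 kC11 hg0 hg s2)
  have kC13 : t ≤ 1443 / 50000 := by
    by_contra hc
    have hc := (not_le.1 hc).le
    exact cC13 hc kC9 hw0 kC8 hv0 kC11 hg0 kC12 (maj1 ht0 kC9 hw0 kC8 hv0 kC11 hg0 kC12 s1) (maj2 ht0 kC9 hw0 kC8 hv0 kC11 hg0 kC12 s2) (maj3 ht0 kC9 hw0 kC8 hv0 kC11 hg0 kC12 s3) (maj4 ht0 kC9 hw0 kC8 hv0 kC11 hg0 kC12 (by norm_num) (by norm_num) (by norm_num) s4)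
  have kC14 : v ≤ 19 / 1250 := by
    by_contra hc
    have hc := (not_le.1 hc).le
    exact cC14 kC10 kC13 hw0 kC8 hc kC11 hg0 kC12 (maj1 ht0 kC13 hw0 kC8 hv0 kC11 hg0 kC12 s1) (maj3 ht0 kC13 hw0 kC8 hv0 kC11 hg0 kC12 s3) (maj4 ht0 kC13 hw0 kC8 hv0 kC11 hg0 kC12 (by norm_num) (by norm_num) (by norm_num) s4)
  have kC15 : 2381 / 100000 ≤ t := by
    by_contra hc
    have hc := (not_le.1 hc).le
    exact cC15 kC10 hc hw0 kC8 hv0 kC14 hg0 kC12 (maj3 ht0 hc hw0 kC8 hv0 kC14 hg0 kC12 s3) (maj4 ht0 hc hw0 kC8 hv0 kC14 hg0 kC12 (by norm_num) (by norm_num) (by norm_num) s4)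
  have kC16 : w ≤ 83 / 5000 := by
    by_contra hc
    have hc := (not_le.1 hc).le
    exact cC16 kC15 kC13 hc kC8 hv0 kC14 hg0 kC12 (maj2 ht0 kC13 hw0 kC8 hv0 kC14 hg0 kC12 s2) (maj3 ht0 kC13 hw0 kC8 hv0 kC14 hg0 kC12 s3) (maj4 ht0 kC13 hw0 kC8 hv0 kC14 hg0 kC12 (by norm_num) (by norm_num) (by norm_num) s4)
  exact ⟨by linarith, by linarith, by linarith, by linarith, by linarith⟩

theorem stageD {t w v g : ℝ} (ht0 : 0 ≤ t) (hw0 : 0 ≤ w) (hv0 : 0 ≤ v) (hg0 : 0 ≤ g)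
    (ht' : 237 / 10000 ≤ t) (ht : t ≤ 289 / 10000) (hw : w ≤ 167 / 10000) (hv : v ≤ 152 / 10000) (hg : g ≤ 357 / 10000)
    (s1 : HS1 t w v g) (s2 : HS2 t w v g) (s3 : HS3 t w v g) (s4 : HS4 (435 / 1000) t w v g) :
    141422 / 100000 * w + 2 * v + 2 / 1000 ≤ 12247 / 10000 * t := by
  have ht : t ≤ 289 / 10000 := by linarith
  have ht' : 237 / 10000 ≤ t := by linarith
  have hw : w ≤ 167 / 10000 := by linarith
  have hv : v ≤ 19 / 1250 := by linarith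
  have hg : g ≤ 357 / 10000 := by linarith
  have s4 : HS4 (87 / 200) t w v g := by norm_num [HS4] at s4 ⊢; exact s4
  by_contra hc
  have hc : 12247 / 10000 * t ≤ 141422 / 100000 * w + 2 * v + 1 / 500 := by linarith
  exact cD1 ht' ht hw0 hw hv0 hv hg0 hg (maj2 ht0 ht hw0 hw hv0 hv hg0 hg s2) (maj3 ht0 ht hw0 hw hv0 hv hg0 hg s3) (maj4 ht0 ht hw0 hw hv0 hv hg0 hg (by norm_num) (by norm_num) (by norm_num) s4) hc

theorem stageE {t w v g : ℝ} (ht0 : 0 ≤ t) (hw0 : 0 ≤ w) (hv0 : 0 ≤ v) (hg0 : 0 ≤ g)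
    (ht' : 237 / 10000 ≤ t) (ht : t ≤ 289 / 10000) (hw : w ≤ 167 / 10000) (hv : v ≤ 152 / 10000) (hg : g ≤ 357 / 10000)
    (s2 : HS2 t w v g) (s3 : HS3 t w v g) (s4 : HS4c (42 / 100) t w v g) :
    2438 / 100000 ≤ t ∧ t ≤ 2752 / 100000 ∧ w ≤ 132 / 10000 ∧ v ≤ 5 / 1000 ∧ g ≤ 159 / 10000 := by
  have ht : t ≤ 289 / 10000 := by linarith
  have ht' : 237 / 10000 ≤ t := by linarith
  have hw : w ≤ 167 / 10000 := by linarith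
  have hv : v ≤ 19 / 1250 := by linarith
  have hg : g ≤ 357 / 10000 := by linarith
  have s4 : HS4c (21 / 50) t w v g := by norm_num [HS4c] at s4 ⊢; exact s4
  have kE1 : v ≤ 31 / 5000 := by
    by_contra hc
    have hc := (not_le.1 hc).le
    exact cE1 ht' ht hw0 hw hc hv hg0 hg (maj2 ht0 ht hw0 hw hv0 hv hg0 hg s2) (maj3 ht0 ht hw0 hw hv0 hv hg0 hg s3) (maj4c ht0 ht hw0 hw hv0 hv hg0 hg s4)
  have kE2 : g ≤ 171 / 10000 := by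
    by_contra hc
    have hc := (not_le.1 hc).le
    exact cE2 ht' ht hw0 hw hv0 kE1 hc hg (maj2 ht0 ht hw0 hw hv0 kE1 hg0 hg s2) (maj4c ht0 ht hw0 hw hv0 kE1 hg0 hg s4)
  have kE3 : t ≤ 86 / 3125 := by
    by_contra hc
    have hc := (not_le.1 hc).le
    exact cE3 hc ht hw0 hw hv0 kE1 hg0 kE2 (maj2 ht0 ht hw0 hw hv0 kE1 hg0 kE2 s2) (maj3 ht0 ht hw0 hw hv0 kE1 hg0 kE2 s3) (maj4c ht0 ht hw0 hw hv0 kE1 hg0 kE2 s4)
  have kE4 : 1219 / 50000 ≤ t := by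
    by_contra hc
    have hc := (not_le.1 hc).le
    exact cE4 ht' hc hw0 hw hv0 kE1 hg0 kE2 (maj4c ht0 hc hw0 hw hv0 kE1 hg0 kE2 s4)
  have kE5 : w ≤ 33 / 2500 := by
    by_contra hc
    have hc := (not_le.1 hc).le
    exact cE5 kE4 kE3 hc hw hv0 kE1 hg0 kE2 (maj2 ht0 kE3 hw0 hw hv0 kE1 hg0 kE2 s2) (maj4c ht0 kE3 hw0 hw hv0 kE1 hg0 kE2 s4)
  have kE6 : v ≤ 1 / 200 := by
    by_contra hc
    have hc := (not_le.1 hc).le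
    exact cE6 kE4 kE3 hw0 kE5 hc kE1 hg0 kE2 (maj2 ht0 kE3 hw0 kE5 hv0 kE1 hg0 kE2 s2) (maj3 ht0 kE3 hw0 kE5 hv0 kE1 hg0 kE2 s3) (maj4c ht0 kE3 hw0 kE5 hv0 kE1 hg0 kE2 s4)
  have kE7 : g ≤ 159 / 10000 := by
    by_contra hc
    have hc := (not_le.1 hc).le
    exact cE7 kE4 kE3 hw0 kE5 hv0 kE6 hc kE2 (maj2 ht0 kE3 hw0 kE5 hv0 kE6 hg0 kE2 s2) (maj4c ht0 kE3 hw0 kE5 hv0 kE6 hg0 kE2 s4)
  exact ⟨by linarith, by linarith, by linarith, by linarith, by linarith⟩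

end Rein83
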