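import Pool.Agent.Rein83.FinHS
import Pool.Agent.Rein83.FinRDefs

set_option autoImplicit false

/-! Section F: the final box. -/

namespace Rein83

open Complex Finset Rein69

/-- everything known about the configuration in the final box -/
structure NBox (t : ℝ) (ρ : ℕ → ℝ) (B : ℕ → ℂ) (w v g : ℝ) : Prop where
  hw : w = ‖cx t B‖
  hv : v = ‖cy B‖
  hg : g = sig ρ B
  w0 : 0 ≤ w
  v0 : 0 ≤ v
  g0 : 0 ≤ g
  tl : 2438 / 100000 ≤ t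
  tu : t ≤ 2752 / 100000
  wu : w ≤ 132 / 10000
  vu : v ≤ 5 / 1000
  gu : g ≤ 159 / 10000
  s1 : HS1 t w v g
  s2 : HS2 t w v g
  s3 : HS3 t w v g
  s4 : HS4c (42 / 100) t w v g
  hm : 141422 / 100000 * w + 2 * v + 2 / 1000 ≤ 12247 / 10000 * t
  can : ∀ k, 0 < pG0 (ρ k) (B k) (ρ (k + 1)) (B (k + 1)) ∧
    pG2 (ρ k) (B k) (ρ (k + 1)) (B (k + 1)) ≤ pG0 (ρ k) (B k) (ρ (k + 1)) (B (k + 1)) ∧
    pG4 (ρ k) (B k) (ρ (k + 1)) (B (k + 1)) ≤ pG0 (ρ k) (B k) (ρ (k + 1)) (B (k + 1))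
  far : ∑ k ∈ range 4, farc ρ B k ≤ 15630273 / 10000000

end Rein83
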