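import Pool.Agent.Rein83.FinAssm
import Pool.Agent.Rein83.FinStage
import Pool.Agent.Rein83.FinS1
import Pool.Agent.Rein83.FinS2
import Pool.Agent.Rein83.FinS3
import Pool.Agent.Rein83.FinA
import Pool.Agent.Rein83.FinR0
import Pool.Agent.Rein83.FinS4
import Pool.Agent.Rein83.FinS4c
import Pool.Agent.Rein83.FinR1
import Pool.Agent.Rein83.FinCanon
import Pool.Agent.Rein83.NBoxDef

set_option autoImplicit false

/-! Section F: the configuration lies in the final box. -/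

namespace Rein83

open Complex Finset Rein69

lemma sig_nn {t : ℝ} {r : ℕ → ℝ} {B : ℕ → ℂ} (h : Cf t r B) : 0 ≤ sig r B := by
  unfold sig
  apply Finset.sum_nonneg
  intro k _
  have := h.D1 k
  linarith

theorem fin_box {N : ℂ → ℝ} (hN : IsSN N) {V : ℝ} (hV : AreaBd N V) (hE : ∀ φ, Real.sqrt 3 / 2 ≤ EE N φ)
    {Φ ρ : ℕ → ℝ} {b : ℕ → ℂ} (h : HSeq N 4 Φ ρ b) {t : ℝ} {B : ℕ → ℂ} (hF : FI N Φ V t ρ B)
    (hVl : V ≤ 31260546 / 10000000) :
    NBox t ρ B ‖cx t B‖ ‖cy B‖ (sig ρ B) := by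
  have cf := hF.cf
  set w := ‖cx t B‖ with hw
  set v := ‖cy B‖ with hv
  set g := sig ρ B with hg
  have ht0 : 0 ≤ t := cf.t0
  have hw0 : 0 ≤ w := norm_nonneg _
  have hv0 : 0 ≤ v := norm_nonneg _
  have hg0 : 0 ≤ g := sig_nn cf
  have hT : sT ρ B ≤ 15630273 / 10000000 := by
    have := sT_le hN h hF hV
    linarith
  have htn := tn_nonneg hN h hF
  obtain ⟨a1, a2, a3, a4, a5⟩ := fin_AP0 cf hw hv hg (hF.g02.trans hVl) (hF.g13.trans hVl)
    (hF.g01.trans hVl) (hF.g30.trans hVl) hT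
  have s1 : HS1 t w v g := fin_S1 cf hw hv hg hT
  have s2 : HS2 t w v g := fin_S2 cf hw hv hg (Finset.sum_nonneg fun k _ => htn k)
  have s3' : t ≤ 1 / 10 → HS3 t w v g := fun ht => fin_S3 cf hw hv hg htn ht
  obtain ⟨b1, b2, b3, b4⟩ := stageB ht0 hw0 hv0 hg0 a1 a2 a3 a4 a5 s1 s2 s3'
  have s3 := s3' (by linarith)
  have r0 := fun k => fin_rt0 cf hw hv hg b1 (by linarith) (by linarith) (by linarith) k
  have hGh : ∀ k, 0 < Gh ρ B k := fun k => (r0 k).1
  -- far lemma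
  have hfar : ∑ k ∈ range 4, farval ρ B k ≤ 15630273 / 10000000 := by
    have hex := fun k => far_k hN h hF hE k (hGh k) (pG_le k).1 (pG_le k).2.1 (pG_le k).2.2
    choose S hS hS' using hex
    have hA := area4 hN h hV hS
    have : ∑ k ∈ range 4, farval ρ B k ≤ ∑ k ∈ range 4, S k :=
      Finset.sum_le_sum fun k _ => hS' k
    linarith
  have s4 : HS4 (47 / 100) t w v g := by
    refine fin_S4 cf hw hv hg hGh (fun k => ?_) hfar
    have k1 := (r0 k).2
    have k2 := (r0 (k + 1)).2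
    linarith
  obtain ⟨c0, c1, c2, c3, c4⟩ := stageC ht0 hw0 hv0 hg0 b1 b2 b3 b4 s1 s2 s3 s4
  have c0' : 237 / 10000 ≤ t := by linarith
  have c1' : t ≤ 289 / 10000 := by linarith
  have c2' : w ≤ 167 / 10000 := by linarith
  have c4' : g ≤ 357 / 10000 := by linarith
  have s4' : HS4 (435 / 1000) t w v g :=
    fin_S4 cf hw hv hg hGh (fun k => fin_rt1 cf hw hv hg c0' c1' c2' c3 c4' k) hfar
  have hm := stageD ht0 hw0 hv0 hg0 c0' c1' c2' c3 c4' s1 s2 s3 s4'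
  have hcan := fun k => fin_canon cf hw hv hg c0' c1' c2' c3 c4' hm k
  have hfarc : ∑ k ∈ range 4, farc ρ B k ≤ 15630273 / 10000000 := by
    have hex := fun k => far_k hN h hF hE k (hcan k).1 le_rfl (hcan k).2.1 (hcan k).2.2
    choose S hS hS' using hex
    have hA := area4 hN h hV hS
    have : ∑ k ∈ range 4, farc ρ B k ≤ ∑ k ∈ range 4, S k :=
      Finset.sum_le_sum fun k _ => hS' k
    linarith
  have s4c : HS4c (42 / 100) t w v g :=
    fin_S4c cf hw hv hg (fun k => (hcan k).1) (fun k => fin_rc cf hw hv hg c0' c1' c2' c3 c4' hm k) hfarc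
  obtain ⟨d0, d1, d2, d3, d4⟩ := stageE ht0 hw0 hv0 hg0 c0' c1' c2' c3 c4' s2 s3 s4c
  exact ⟨hw, hv, hg, hw0, hv0, hg0, d0, d1, d2, d3, d4, s1, s2, s3, s4c, hm, hcan, hfarc⟩

end Rein83
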