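import Pool.Agent.Rein83.FinMDefs

set_option autoImplicit false
set_option maxHeartbeats 4000000

namespace Rein83

theorem cI1 {t w v g : ℝ} (ht : 1 / 10 ≤ t) (ht' : t ≤ 19 / 125) (hw : 0 ≤ w) (hw' : w ≤ 19 / 125)
    (hv : 0 ≤ v) (hv' : v ≤ 441 / 2000) (hg : 103 / 2000 ≤ g) (hg' : g ≤ 47 / 250)
    (h0 : g + 8168 / 1000 * (t ^ 2 + w ^ 2) ≤ 1717 / 10000 + 3362 / 10000 * v ^ 2) (h1 : 0 ≤ m1 (19 / 125) (19 / 125) (441 / 2000) (47 / 250) t w v g) (h2 : 0 ≤ m2 (19 / 125) (19 / 125) (441 / 2000) (47 / 250) t w v g) : False := by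
  simp only [m1, m2] at h1 h2
  norm_num at h1 h2
  linarith [sq_nonneg (v + (-11047 / 200000) + (-11047 / 20000) * (t - 1 / 10) + (-68849 / 10000) * w), sq_nonneg (w + (-11029 / 1000000) + (-11029 / 100000) * (t - 1 / 10)), sq_nonneg ((t - 1 / 10) + (-13019 / 500000)),
    mul_nonneg (sub_nonneg.2 ht) (sub_nonneg.2 ht'), mul_nonneg (sub_nonneg.2 hw) (sub_nonneg.2 hw'), mul_nonneg (sub_nonneg.2 hv) (sub_nonneg.2 hv'), mul_nonneg (sub_nonneg.2 ht) (sub_nonneg.2 hw), mul_nonneg (sub_nonneg.2 ht) (sub_nonneg.2 hw'), mul_nonneg (sub_nonneg.2 ht') (sub_nonneg.2 hw), mul_nonneg (sub_nonneg.2 ht') (sub_nonneg.2 hw'), mul_nonneg (sub_nonneg.2 ht) (sub_nonneg.2 hv), mul_nonneg (sub_nonneg.2 ht) (sub_nonneg.2 hv'), mul_nonneg (sub_nonneg.2 ht') (sub_nonneg.2 hv), mul_nonneg (sub_nonneg.2 ht') (sub_nonneg.2 hv'), mul_nonneg (sub_nonneg.2 hw) (sub_nonneg.2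 hv), mul_nonneg (sub_nonneg.2 hw) (sub_nonneg.2 hv'), mul_nonneg (sub_nonneg.2 hw') (sub_nonneg.2 hv), mul_nonneg (sub_nonneg.2 hw') (sub_nonneg.2 hv')]

theorem cI2 {t w v g : ℝ} (ht : 1 / 10 ≤ t) (ht' : t ≤ 19 / 125) (hw : 321 / 5000 ≤ w) (hw' : w ≤ 19 / 125)
    (hv : 0 ≤ v) (hv' : v ≤ 441 / 2000) (hg : 0 ≤ g) (hg' : g ≤ 103 / 2000)
    (h0 : g + 8168 / 1000 * (t ^ 2 + w ^ 2) ≤ 1717 / 10000 + 3362 / 10000 * v ^ 2) (h1 : 0 ≤ m1 (19 / 125) (19 / 125) (441 / 2000) (103 / 2000) t w v g) (h2 : 0 ≤ m2 (19 / 125) (19 / 125) (441 / 2000) (103 / 2000) t w v g) : False := by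
  simp only [m1, m2] at h1 h2
  norm_num at h1 h2
  linarith [sq_nonneg (v + (-4127 / 25000) + (-15411 / 100000) * (t - 1 / 10) + (-1457 / 625) * (w - 321 / 5000)), sq_nonneg ((w - 321 / 5000) + (-38031 / 10000000) + (-17189 / 1000000) * (t - 1 / 10)), sq_nonneg ((t - 1 / 10) + (-31667 / 1000000)),
    mul_nonneg (sub_nonneg.2 ht) (sub_nonneg.2 ht'), mul_nonneg (sub_nonneg.2 hw) (sub_nonneg.2 hw'), mul_nonneg (sub_nonneg.2 hv) (sub_nonneg.2 hv'), mul_nonneg (sub_nonneg.2 ht) (sub_nonneg.2 hw), mul_nonneg (sub_nonneg.2 ht) (sub_nonneg.2 hw'), mul_nonneg (sub_nonneg.2 ht') (sub_nonneg.2 hw), mul_nonneg (sub_nonneg.2 ht') (sub_nonneg.2 hw'), mul_nonneg (sub_nonneg.2 ht) (sub_nonneg.2 hv), mul_nonneg (sub_nonneg.2 ht) (sub_nonneg.2 hv'), mul_nonneg (sub_nonneg.2 ht') (sub_nonneg.2 hv), mul_nonneg (sub_nonneg.2 ht') (sub_nonneg.2 hv'), mul_nonneg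 (sub_nonneg.2 hw) (sub_nonneg.2 hv), mul_nonneg (sub_nonneg.2 hw) (sub_nonneg.2 hv'), mul_nonneg (sub_nonneg.2 hw') (sub_nonneg.2 hv), mul_nonneg (sub_nonneg.2 hw') (sub_nonneg.2 hv')]

theorem cI3 {t w v g : ℝ} (ht : 1 / 10 ≤ t) (ht' : t ≤ 19 / 125) (hw : 0 ≤ w) (hw' : w ≤ 321 / 5000)
    (hv : 0 ≤ v) (hv' : v ≤ 441 / 2000) (hg : 0 ≤ g) (hg' : g ≤ 103 / 2000)
    (h1 : 0 ≤ m1 (19 / 125) (321 / 5000) (441 / 2000) (103 / 2000) t w v g) (h2 : 0 ≤ m2 (19 / 125) (321 / 5000) (441 / 2000) (103 / 2000) t w v g) : False := by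
  simp only [m1, m2] at h1 h2
  norm_num at h1 h2
  linarith [sq_nonneg (v + (-10137 / 100000) + (-3091 / 50000) * (t - 1 / 10) + (-22629 / 25000) * w), sq_nonneg (w + (-837 / 62500) + (-11043 / 250000) * (t - 1 / 10)), sq_nonneg ((t - 1 / 10) + (-697 / 625000)),
    mul_nonneg (sub_nonneg.2 ht) (sub_nonneg.2 ht'), mul_nonneg (sub_nonneg.2 hw) (sub_nonneg.2 hw'), mul_nonneg (sub_nonneg.2 hv) (sub_nonneg.2 hv'), mul_nonneg (sub_nonneg.2 ht) (sub_nonneg.2 hw), mul_nonneg (sub_nonneg.2 ht) (sub_nonneg.2 hw'), mul_nonneg (sub_nonneg.2 ht') (sub_nonneg.2 hw), mul_nonneg (sub_nonneg.2 ht') (sub_nonneg.2 hw'), mul_nonneg (sub_nonneg.2 ht) (sub_nonneg.2 hv), mul_nonneg (sub_nonneg.2 ht) (sub_nonneg.2 hv'), mul_nonneg (sub_nonneg.2 ht') (sub_nonneg.2 hv), mul_nonneg (sub_nonneg.2 ht') (sub_nonneg.2 hv'), mul_nonneg (sub_nonneg.2 hw) (sub_nonneg.2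 hv), mul_nonneg (sub_nonneg.2 hw) (sub_nonneg.2 hv'), mul_nonneg (sub_nonneg.2 hw') (sub_nonneg.2 hv), mul_nonneg (sub_nonneg.2 hw') (sub_nonneg.2 hv')]

theorem cII1 {t w v g : ℝ} (ht : 29 / 400 ≤ t) (ht' : t ≤ 1 / 10) (hw : 0 ≤ w) (hw' : w ≤ 19 / 125)
    (hv : 0 ≤ v) (hv' : v ≤ 441 / 2000) (hg : 0 ≤ g) (hg' : g ≤ 47 / 250)
    (h1 : 0 ≤ m1 (1 / 10) (19 / 125) (441 / 2000) (47 / 250) t w v g) (h2 : 0 ≤ m2 (1 / 10) (19 / 125) (441 / 2000) (47 / 250) t w v g) (h3 : 0 ≤ m3 (1 / 10) (19 / 125) (441 / 2000) (47 / 250) t w v g) : False := by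
  simp only [m1, m2, m3] at h1 h2 h3
  norm_num at h1 h2 h3
  linarith [sq_nonneg (v + (-96 / 390625) + (-4183 / 5000) * (t - 29 / 400) + (-94623 / 10000) * w), sq_nonneg (w + (-11827 / 1000000) + (-8903 / 20000) * (t - 29 / 400)), sq_nonneg ((t - 29 / 400) + (-3591 / 2500000)),
    mul_nonneg (sub_nonneg.2 ht) (sub_nonneg.2 ht'), mul_nonneg (sub_nonneg.2 hw) (sub_nonneg.2 hw'), mul_nonneg (sub_nonneg.2 hv) (sub_nonneg.2 hv'), mul_nonneg (sub_nonneg.2 ht) (sub_nonneg.2 hw), mul_nonneg (sub_nonneg.2 ht) (sub_nonneg.2 hw'), mul_nonneg (sub_nonneg.2 ht') (sub_nonneg.2 hw), mul_nonneg (sub_nonneg.2 ht') (sub_nonneg.2 hw'), mul_nonneg (sub_nonneg.2 ht) (sub_nonneg.2 hv), mul_nonneg (sub_nonneg.2 ht) (sub_nonneg.2 hv'), mul_nonneg (sub_nonneg.2 ht') (sub_nonneg.2 hv), mul_nonneg (sub_nonneg.2 ht') (sub_nonneg.2 hv'), mul_nonneg (sub_nonneg.2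 hw) (sub_nonneg.2 hv), mul_nonneg (sub_nonneg.2 hw) (sub_nonneg.2 hv'), mul_nonneg (sub_nonneg.2 hw') (sub_nonneg.2 hv), mul_nonneg (sub_nonneg.2 hw') (sub_nonneg.2 hv')]

theorem cII2 {t w v g : ℝ} (ht : 6137 / 100000 ≤ t) (ht' : t ≤ 29 / 400) (hw : 0 ≤ w) (hw' : w ≤ 19 / 125)
    (hv : 0 ≤ v) (hv' : v ≤ 441 / 2000) (hg : 0 ≤ g) (hg' : g ≤ 47 / 250)
    (h1 : 0 ≤ m1 (29 / 400) (19 / 125) (441 / 2000) (47 / 250) t w v g) (h2 : 0 ≤ m2 (29 / 400) (19 / 125) (441 / 2000) (47 / 250) t w v g) (h3 : 0 ≤ m3 (29 / 400) (19 / 125) (441 / 2000) (47 / 250) t w v g) : False := by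
  simp only [m1, m2, m3] at h1 h2 h3
  norm_num at h1 h2 h3
  linarith [sq_nonneg (v + (-1317 / 50000000) + (-91759 / 100000) * (t - 6137 / 100000) + (-10179 / 1000) * w), sq_nonneg (w + (-11013 / 1000000) + (-10781 / 20000) * (t - 6137 / 100000)), sq_nonneg ((t - 6137 / 100000) + (-3101 / 12500000)),
    mul_nonneg (sub_nonneg.2 ht) (sub_nonneg.2 ht'), mul_nonneg (sub_nonneg.2 hw) (sub_nonneg.2 hw'), mul_nonneg (sub_nonneg.2 hv) (sub_nonneg.2 hv'), mul_nonneg (sub_nonneg.2 ht) (sub_nonneg.2 hw), mul_nonneg (sub_nonneg.2 ht) (sub_nonneg.2 hw'), mul_nonneg (sub_nonneg.2 ht') (sub_nonneg.2 hw), mul_nonneg (sub_nonneg.2 ht') (sub_nonneg.2 hw'), mul_nonneg (sub_nonneg.2 ht) (sub_nonneg.2 hv), mul_nonneg (sub_nonneg.2 ht) (sub_nonneg.2 hv'), mul_nonneg (sub_nonneg.2 ht') (sub_nonneg.2 hv), mul_nonneg (sub_nonneg.2 ht') (sub_nonneg.2 hv'),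 mul_nonneg (sub_nonneg.2 hw) (sub_nonneg.2 hv), mul_nonneg (sub_nonneg.2 hw) (sub_nonneg.2 hv'), mul_nonneg (sub_nonneg.2 hw') (sub_nonneg.2 hv), mul_nonneg (sub_nonneg.2 hw') (sub_nonneg.2 hv')]

theorem cII3 {t w v g : ℝ} (ht : 3 / 50 ≤ t) (ht' : t ≤ 6137 / 100000) (hw : 0 ≤ w) (hw' : w ≤ 19 / 125)
    (hv : 0 ≤ v) (hv' : v ≤ 441 / 2000) (hg : 0 ≤ g) (hg' : g ≤ 47 / 250)
    (h1 : 0 ≤ m1 (6137 / 100000) (19 / 125) (441 / 2000) (47 / 250) t w v g) (h2 : 0 ≤ m2 (6137 / 100000) (19 / 125) (441 / 2000) (47 / 250) t w v g) (h3 : 0 ≤ m3 (6137 / 100000) (19 / 125) (441 / 2000) (47 / 250) t w v g) : False := by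
  simp only [m1, m2, m3] at h1 h2 h3
  norm_num at h1 h2 h3
  linarith [sq_nonneg (v + (-7239 / 500000) + (-20071 / 25000) * (t - 3 / 50) + (-21809 / 2500) * w), sq_nonneg (w + (-5503 / 500000) + (-3323 / 10000) * (t - 3 / 50)), sq_nonneg ((t - 3 / 50) + (-13059 / 500000000)),
    mul_nonneg (sub_nonneg.2 ht) (sub_nonneg.2 ht'), mul_nonneg (sub_nonneg.2 hw) (sub_nonneg.2 hw'), mul_nonneg (sub_nonneg.2 hv) (sub_nonneg.2 hv'), mul_nonneg (sub_nonneg.2 ht) (sub_nonneg.2 hw), mul_nonneg (sub_nonneg.2 ht) (sub_nonneg.2 hw'), mul_nonneg (sub_nonneg.2 ht') (sub_nonneg.2 hw), mul_nonneg (sub_nonneg.2 ht') (sub_nonneg.2 hw'), mul_nonneg (sub_nonneg.2 ht) (sub_nonneg.2 hv), mul_nonneg (sub_nonneg.2 ht) (sub_nonneg.2 hv'), mul_nonneg (sub_nonneg.2 ht') (sub_nonneg.2 hv), mul_nonneg (sub_nonneg.2 ht') (sub_nonneg.2 hv'), mul_nonneg (sub_nonneg.2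 hw) (sub_nonneg.2 hv), mul_nonneg (sub_nonneg.2 hw) (sub_nonneg.2 hv'), mul_nonneg (sub_nonneg.2 hw') (sub_nonneg.2 hv), mul_nonneg (sub_nonneg.2 hw') (sub_nonneg.2 hv')]

theorem cIII1 {t w v g : ℝ} (ht : 9 / 250 ≤ t) (ht' : t ≤ 3 / 50) (hw : 0 ≤ w) (hw' : w ≤ 19 / 125)
    (hv : 0 ≤ v) (hv' : v ≤ 441 / 2000) (hg : 97 / 2000 ≤ g) (hg' : g ≤ 47 / 250)
    (h1 : 0 ≤ m1 (3 / 50) (19 / 125) (441 / 2000) (47 / 250) t w v g) (h2 : 0 ≤ m2 (3 / 50) (19 / 125) (441 / 2000) (47 / 250) t w v g) : False := by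
  simp only [m1, m2] at h1 h2
  norm_num at h1 h2
  linarith [sq_nonneg (v + (-24851 / 50000000) + (-6903 / 500000) * (t - 9 / 250) + (-7803 / 50000) * w), sq_nonneg (w + (-10097 / 10000000) + (-28047 / 1000000) * (t - 9 / 250)), sq_nonneg ((t - 9 / 250) + (-11853 / 1000000)),
    mul_nonneg (sub_nonneg.2 ht) (sub_nonneg.2 ht'), mul_nonneg (sub_nonneg.2 hw) (sub_nonneg.2 hw'), mul_nonneg (sub_nonneg.2 hv) (sub_nonneg.2 hv'), mul_nonneg (sub_nonneg.2 ht) (sub_nonneg.2 hw), mul_nonneg (sub_nonneg.2 ht) (sub_nonneg.2 hw'), mul_nonneg (sub_nonneg.2 ht') (sub_nonneg.2 hw), mul_nonneg (sub_nonneg.2 ht') (sub_nonneg.2 hw'), mul_nonneg (sub_nonneg.2 ht) (sub_nonneg.2 hv), mul_nonneg (sub_nonneg.2 ht) (sub_nonneg.2 hv'), mul_nonneg (sub_nonneg.2 ht') (sub_nonneg.2 hv), mul_nonneg (sub_nonneg.2 ht') (sub_nonneg.2 hv'), mul_nonneg (sub_nonneg.2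 hw) (sub_nonneg.2 hv), mul_nonneg (sub_nonneg.2 hw) (sub_nonneg.2 hv'), mul_nonneg (sub_nonneg.2 hw') (sub_nonneg.2 hv), mul_nonneg (sub_nonneg.2 hw') (sub_nonneg.2 hv')]

theorem cIII2 {t w v g : ℝ} (ht : 9 / 250 ≤ t) (ht' : t ≤ 3 / 50) (hw : 11 / 250 ≤ w) (hw' : w ≤ 19 / 125)
    (hv : 0 ≤ v) (hv' : v ≤ 441 / 2000) (hg : 0 ≤ g) (hg' : g ≤ 97 / 2000)
    (h1 : 0 ≤ m1 (3 / 50) (19 / 125) (441 / 2000) (97 / 2000) t w v g) (h2 : 0 ≤ m2 (3 / 50) (19 / 125) (441 / 2000) (97 / 2000) t w v g) : False := by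
  simp only [m1, m2] at h1 h2
  norm_num at h1 h2
  linarith [sq_nonneg (v + (-1493 / 50000) + (-43713 / 1000000) * (t - 9 / 250) + (-64287 / 100000) * (w - 11 / 250)), sq_nonneg ((w - 11 / 250) + (-361 / 400000) + (-9163 / 500000) * (t - 9 / 250)), sq_nonneg ((t - 9 / 250) + (-19887 / 250000000)),
    mul_nonneg (sub_nonneg.2 ht) (sub_nonneg.2 ht'), mul_nonneg (sub_nonneg.2 hw) (sub_nonneg.2 hw'), mul_nonneg (sub_nonneg.2 hv) (sub_nonneg.2 hv'), mul_nonneg (sub_nonneg.2 ht) (sub_nonneg.2 hw), mul_nonneg (sub_nonneg.2 ht) (sub_nonneg.2 hw'), mul_nonneg (sub_nonneg.2 ht') (sub_nonneg.2 hw), mul_nonneg (sub_nonneg.2 ht') (sub_nonneg.2 hw'), mul_nonneg (sub_nonneg.2 ht) (sub_nonneg.2 hv), mul_nonneg (sub_nonneg.2 ht) (sub_nonneg.2 hv'), mul_nonneg (sub_nonneg.2 ht') (sub_nonneg.2 hv), mul_nonneg (sub_nonneg.2 ht') (sub_nonneg.2 hv'), mul_nonneg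 (sub_nonneg.2 hw) (sub_nonneg.2 hv), mul_nonneg (sub_nonneg.2 hw) (sub_nonneg.2 hv'), mul_nonneg (sub_nonneg.2 hw') (sub_nonneg.2 hv), mul_nonneg (sub_nonneg.2 hw') (sub_nonneg.2 hv')]

theorem cIII3 {t w v g : ℝ} (ht : 411 / 10000 ≤ t) (ht' : t ≤ 3 / 50) (hw : 0 ≤ w) (hw' : w ≤ 11 / 250)
    (hv : 0 ≤ v) (hv' : v ≤ 441 / 2000) (hg : 0 ≤ g) (hg' : g ≤ 97 / 2000)
    (h1 : 0 ≤ m1 (3 / 50) (11 / 250) (441 / 2000) (97 / 2000) t w v g) (h2 : 0 ≤ m2 (3 / 50) (11 / 250) (441 / 2000) (97 / 2000) t w v g) (h3 : 0 ≤ m3 (3 / 50) (11 / 250) (441 / 2000) (97 / 2000) t w v g) : False := by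
  simp only [m1, m2, m3] at h1 h2 h3
  norm_num at h1 h2 h3
  linarith [sq_nonneg (v + (-10857 / 10000000) + (-47359 / 100000) * (t - 411 / 10000) + (-83919 / 10000) * w), sq_nonneg (w + (-6589 / 500000) + (-31141 / 50000) * (t - 411 / 10000)), sq_nonneg ((t - 411 / 10000) + (-5479 / 50000000)),
    mul_nonneg (sub_nonneg.2 ht) (sub_nonneg.2 ht'), mul_nonneg (sub_nonneg.2 hw) (sub_nonneg.2 hw'), mul_nonneg (sub_nonneg.2 hv) (sub_nonneg.2 hv'), mul_nonneg (sub_nonneg.2 ht) (sub_nonneg.2 hw), mul_nonneg (sub_nonneg.2 ht) (sub_nonneg.2 hw'), mul_nonneg (sub_nonneg.2 ht') (sub_nonneg.2 hw), mul_nonneg (sub_nonneg.2 ht') (sub_nonneg.2 hw'), mul_nonneg (sub_nonneg.2 ht) (sub_nonneg.2 hv), mul_nonneg (sub_nonneg.2 ht) (sub_nonneg.2 hv'), mul_nonneg (sub_nonneg.2 ht') (sub_nonneg.2 hv), mul_nonneg (sub_nonneg.2 ht') (sub_nonneg.2 hv'), mul_nonneg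 (sub_nonneg.2 hw) (sub_nonneg.2 hv), mul_nonneg (sub_nonneg.2 hw) (sub_nonneg.2 hv'), mul_nonneg (sub_nonneg.2 hw') (sub_nonneg.2 hv), mul_nonneg (sub_nonneg.2 hw') (sub_nonneg.2 hv')]

theorem cIII4 {t w v g : ℝ} (ht : 9 / 250 ≤ t) (ht' : t ≤ 411 / 10000) (hw : 0 ≤ w) (hw' : w ≤ 11 / 250)
    (hv : 793 / 10000 ≤ v) (hv' : v ≤ 441 / 2000) (hg : 0 ≤ g) (hg' : g ≤ 97 / 2000)
    (h1 : 0 ≤ m1 (411 / 10000) (11 / 250) (441 / 2000) (97 / 2000) t w v g) (h2 : 0 ≤ m2 (411 / 10000) (11 / 250) (441 / 2000) (97 / 2000) t w v g) : False := by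
  simp only [m1, m2] at h1 h2
  norm_num at h1 h2
  linarith [sq_nonneg ((v - 793 / 10000) + (-2973 / 2500000) * (t - 9 / 250) + (-15107 / 1000000) * w), sq_nonneg (w + (-16447 / 10000000) + (-23497 / 1000000) * (t - 9 / 250)), sq_nonneg ((t - 9 / 250) + (-6319 / 2500000)),
    mul_nonneg (sub_nonneg.2 ht) (sub_nonneg.2 ht'), mul_nonneg (sub_nonneg.2 hw) (sub_nonneg.2 hw'), mul_nonneg (sub_nonneg.2 hv) (sub_nonneg.2 hv'), mul_nonneg (sub_nonneg.2 ht) (sub_nonneg.2 hw), mul_nonneg (sub_nonneg.2 ht) (sub_nonneg.2 hw'), mul_nonneg (sub_nonneg.2 ht') (sub_nonneg.2 hw), mul_nonneg (sub_nonneg.2 ht') (sub_nonneg.2 hw'), mul_nonneg (sub_nonneg.2 ht) (sub_nonneg.2 hv), mul_nonneg (sub_nonneg.2 ht) (sub_nonneg.2 hv'), mul_nonneg (sub_nonneg.2 ht') (sub_nonneg.2 hv), mul_nonneg (sub_nonneg.2 ht') (sub_nonneg.2 hv'), mul_nonneg (sub_nonneg.2 hw)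 (sub_nonneg.2 hv), mul_nonneg (sub_nonneg.2 hw) (sub_nonneg.2 hv'), mul_nonneg (sub_nonneg.2 hw') (sub_nonneg.2 hv), mul_nonneg (sub_nonneg.2 hw') (sub_nonneg.2 hv')]

theorem cIII5 {t w v g : ℝ} (ht : 9 / 250 ≤ t) (ht' : t ≤ 411 / 10000) (hw : 0 ≤ w) (hw' : w ≤ 11 / 250)
    (hv : 0 ≤ v) (hv' : v ≤ 793 / 10000) (hg : 0 ≤ g) (hg' : g ≤ 97 / 2000)
    (h1 : 0 ≤ m1 (411 / 10000) (11 / 250) (793 / 10000) (97 / 2000) t w v g) (h2 : 0 ≤ m2 (411 / 10000) (11 / 250) (793 / 10000) (97 / 2000) t w v g) (h3 : 0 ≤ m3 (411 / 10000) (11 / 250) (793 / 10000) (97 / 2000) t w v g) : False := by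
  simp only [m1, m2, m3] at h1 h2 h3
  norm_num at h1 h2 h3
  linarith [sq_nonneg (v + (-31193 / 100000000000) + (-11617 / 10000) * w), sq_nonneg (w + (-27621 / 1000000) + (-18587 / 200000) * (t - 9 / 250)), sq_nonneg ((t - 9 / 250) + (-137 / 7812500)),
    mul_nonneg (sub_nonneg.2 ht) (sub_nonneg.2 ht'), mul_nonneg (sub_nonneg.2 hw) (sub_nonneg.2 hw'), mul_nonneg (sub_nonneg.2 hv) (sub_nonneg.2 hv'), mul_nonneg (sub_nonneg.2 ht) (sub_nonneg.2 hw), mul_nonneg (sub_nonneg.2 ht) (sub_nonneg.2 hw'), mul_nonneg (sub_nonneg.2 ht') (sub_nonneg.2 hw), mul_nonneg (sub_nonneg.2 ht') (sub_nonneg.2 hw'), mul_nonneg (sub_nonneg.2 ht) (sub_nonneg.2 hv), mul_nonneg (sub_nonneg.2 ht) (sub_nonneg.2 hv'), mul_nonneg (sub_nonneg.2 ht') (sub_nonneg.2 hv), mul_nonneg (sub_nonneg.2 ht') (sub_nonneg.2 hv'), mul_nonneg (sub_nonneg.2 hw) (sub_nonneg.2 hv),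 mul_nonneg (sub_nonneg.2 hw) (sub_nonneg.2 hv'), mul_nonneg (sub_nonneg.2 hw') (sub_nonneg.2 hv), mul_nonneg (sub_nonneg.2 hw') (sub_nonneg.2 hv')]

theorem cIV1 {t w v g : ℝ} (ht : 0 ≤ t) (ht' : t ≤ 9 / 250) (hw : 0 ≤ w) (hw' : w ≤ 19 / 125)
    (hv : 0 ≤ v) (hv' : v ≤ 441 / 2000) (hg : 57 / 1250 ≤ g) (hg' : g ≤ 47 / 250)
    (h1 : 0 ≤ m1 (9 / 250) (19 / 125) (441 / 2000) (47 / 250) t w v g) : False := by
  simp only [m1] at h1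
  norm_num at h1
  linarith [sq_nonneg (v), sq_nonneg (w + (-1429 / 62500) * t), sq_nonneg (t + (-34721 / 1000000)),
    mul_nonneg (sub_nonneg.2 ht) (sub_nonneg.2 ht'), mul_nonneg (sub_nonneg.2 hw) (sub_nonneg.2 hw'), mul_nonneg (sub_nonneg.2 hv) (sub_nonneg.2 hv'), mul_nonneg (sub_nonneg.2 ht) (sub_nonneg.2 hw), mul_nonneg (sub_nonneg.2 ht) (sub_nonneg.2 hw'), mul_nonneg (sub_nonneg.2 ht') (sub_nonneg.2 hw), mul_nonneg (sub_nonneg.2 ht') (sub_nonneg.2 hw'), mul_nonneg (sub_nonneg.2 ht) (sub_nonneg.2 hv), mul_nonneg (sub_nonneg.2 ht) (sub_nonneg.2 hv'), mul_nonneg (sub_nonneg.2 ht') (sub_nonneg.2 hv), mul_nonneg (sub_nonneg.2 ht') (sub_nonneg.2 hv'), mul_nonneg (sub_nonneg.2 hw) (sub_nonneg.2 hv), mul_nonneg (sub_nonneg.2 hw) (sub_nonneg.2 hv'), mul_nonneg (sub_nonneg.2 hw') (sub_nonneg.2 hv), mul_nonneg (sub_nonneg.2 hw') (sub_nonneg.2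 hv')]

theorem cIV2 {t w v g : ℝ} (ht : 0 ≤ t) (ht' : t ≤ 9 / 250) (hw : 29 / 625 ≤ w) (hw' : w ≤ 19 / 125)
    (hv : 0 ≤ v) (hv' : v ≤ 441 / 2000) (hg : 0 ≤ g) (hg' : g ≤ 57 / 1250)
    (h1 : 0 ≤ m1 (9 / 250) (19 / 125) (441 / 2000) (57 / 1250) t w v g) (h2 : 0 ≤ m2 (9 / 250) (19 / 125) (441 / 2000) (57 / 1250) t w v g) : False := by
  simp only [m1, m2] at h1 h2
  norm_num at h1 h2
  linarith [sq_nonneg (v + (-507 / 250000) + (-29911 / 10000000) * t + (-21853 / 500000) * (w - 29 / 625)), sq_nonneg ((w - 29 / 625) + (-13387 / 1000000000) + (-6441 / 500000) * t), sq_nonneg (t + (-9051 / 500000)),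
    mul_nonneg (sub_nonneg.2 ht) (sub_nonneg.2 ht'), mul_nonneg (sub_nonneg.2 hw) (sub_nonneg.2 hw'), mul_nonneg (sub_nonneg.2 hv) (sub_nonneg.2 hv'), mul_nonneg (sub_nonneg.2 ht) (sub_nonneg.2 hw), mul_nonneg (sub_nonneg.2 ht) (sub_nonneg.2 hw'), mul_nonneg (sub_nonneg.2 ht') (sub_nonneg.2 hw), mul_nonneg (sub_nonneg.2 ht') (sub_nonneg.2 hw'), mul_nonneg (sub_nonneg.2 ht) (sub_nonneg.2 hv), mul_nonneg (sub_nonneg.2 ht) (sub_nonneg.2 hv'), mul_nonneg (sub_nonneg.2 ht') (sub_nonneg.2 hv), mul_nonneg (sub_nonneg.2 ht') (sub_nonneg.2 hv'), mul_nonneg (sub_nonneg.2 hw) (sub_nonneg.2 hv), mul_nonneg (sub_nonneg.2 hw) (sub_nonneg.2 hv'), mul_nonneg (sub_nonneg.2 hw') (sub_nonneg.2 hv), mul_nonneg (sub_nonneg.2 hw') (sub_nonneg.2 hv')]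

theorem cIV3 {t w v g : ℝ} (ht : 0 ≤ t) (ht' : t ≤ 9 / 250) (hw : 0 ≤ w) (hw' : w ≤ 29 / 625)
    (hv : 379 / 5000 ≤ v) (hv' : v ≤ 441 / 2000) (hg : 0 ≤ g) (hg' : g ≤ 57 / 1250)
    (h1 : 0 ≤ m1 (9 / 250) (29 / 625) (441 / 2000) (57 / 1250) t w v g) : False := by
  simp only [m1] at h1
  norm_num at h1
  linarith [sq_nonneg ((v - 379 / 5000)), sq_nonneg (w + (-21257 / 1000000) * t), sq_nonneg (t + (-177 / 5000)),
    mul_nonneg (sub_nonneg.2 ht) (sub_nonneg.2 ht'), mul_nonneg (sub_nonneg.2 hw) (sub_nonneg.2 hw'), mul_nonneg (sub_nonneg.2 hv) (sub_nonneg.2 hv'), mul_nonneg (sub_nonneg.2 ht) (sub_nonneg.2 hw), mul_nonneg (sub_nonneg.2 ht) (sub_nonneg.2 hw'), mul_nonneg (sub_nonneg.2 ht') (sub_nonneg.2 hw), mul_nonneg (sub_nonneg.2 ht') (sub_nonneg.2 hw'), mul_nonneg (sub_nonneg.2 ht) (sub_nonneg.2 hv), mul_nonneg (sub_nonneg.2 ht) (sub_nonneg.2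 hv'), mul_nonneg (sub_nonneg.2 ht') (sub_nonneg.2 hv), mul_nonneg (sub_nonneg.2 ht') (sub_nonneg.2 hv'), mul_nonneg (sub_nonneg.2 hw) (sub_nonneg.2 hv), mul_nonneg (sub_nonneg.2 hw) (sub_nonneg.2 hv'), mul_nonneg (sub_nonneg.2 hw') (sub_nonneg.2 hv), mul_nonneg (sub_nonneg.2 hw') (sub_nonneg.2 hv')]

theorem cIV4 {t w v g : ℝ} (ht : 0 ≤ t) (ht' : t ≤ 9 / 250) (hw : 0 ≤ w) (hw' : w ≤ 29 / 625)
    (hv : 0 ≤ v) (hv' : v ≤ 379 / 5000) (hg : 49 / 1250 ≤ g) (hg' : g ≤ 57 / 1250)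
    (h1 : 0 ≤ m1 (9 / 250) (29 / 625) (379 / 5000) (57 / 1250) t w v g) (h2 : 0 ≤ m2 (9 / 250) (29 / 625) (379 / 5000) (57 / 1250) t w v g) : False := by
  simp only [m1, m2] at h1 h2
  norm_num at h1 h2
  linarith [sq_nonneg (v + (-25389 / 50000000) * t + (-6233 / 500000) * w), sq_nonneg (w + (-16487 / 5000000) * t), sq_nonneg (t + (-17869 / 1000000)),
    mul_nonneg (sub_nonneg.2 ht) (sub_nonneg.2 ht'), mul_nonneg (sub_nonneg.2 hw) (sub_nonneg.2 hw'), mul_nonneg (sub_nonneg.2 hv) (sub_nonneg.2 hv'), mul_nonneg (sub_nonneg.2 ht) (sub_nonneg.2 hw), mul_nonneg (sub_nonneg.2 ht) (sub_nonneg.2 hw'), mul_nonneg (sub_nonneg.2 ht') (sub_nonneg.2 hw), mul_nonneg (sub_nonneg.2 ht') (sub_nonneg.2 hw'), mul_nonneg (sub_nonneg.2 ht) (sub_nonneg.2 hv), mul_nonneg (sub_nonneg.2 ht) (sub_nonneg.2 hv'), mul_nonneg (sub_nonneg.2 ht') (sub_nonneg.2 hv),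 mul_nonneg (sub_nonneg.2 ht') (sub_nonneg.2 hv'), mul_nonneg (sub_nonneg.2 hw) (sub_nonneg.2 hv), mul_nonneg (sub_nonneg.2 hw) (sub_nonneg.2 hv'), mul_nonneg (sub_nonneg.2 hw') (sub_nonneg.2 hv), mul_nonneg (sub_nonneg.2 hw') (sub_nonneg.2 hv')]

theorem cIV5 {t w v g : ℝ} (ht : 0 ≤ t) (ht' : t ≤ 9 / 250) (hw : 0 ≤ w) (hw' : w ≤ 29 / 625)
    (hv : 723 / 10000 ≤ v) (hv' : v ≤ 379 / 5000) (hg : 0 ≤ g) (hg' : g ≤ 49 / 1250)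
    (h1 : 0 ≤ m1 (9 / 250) (29 / 625) (379 / 5000) (49 / 1250) t w v g) : False := by
  simp only [m1] at h1
  norm_num at h1
  linarith [sq_nonneg ((v - 723 / 10000)), sq_nonneg (w + (-31347 / 10000000) * t), sq_nonneg (t + (-35491 / 1000000)),
    mul_nonneg (sub_nonneg.2 ht) (sub_nonneg.2 ht'), mul_nonneg (sub_nonneg.2 hw) (sub_nonneg.2 hw'), mul_nonneg (sub_nonneg.2 hv) (sub_nonneg.2 hv'), mul_nonneg (sub_nonneg.2 ht) (sub_nonneg.2 hw), mul_nonneg (sub_nonneg.2 ht) (sub_nonneg.2 hw'), mul_nonneg (sub_nonneg.2 ht') (sub_nonneg.2 hw), mul_nonneg (sub_nonneg.2 ht') (sub_nonneg.2 hw'), mul_nonneg (sub_nonneg.2 ht) (sub_nonneg.2 hv), mul_nonneg (sub_nonneg.2 ht) (sub_nonneg.2 hv'), mul_nonneg (sub_nonneg.2 ht') (sub_nonneg.2 hv), mul_nonneg (sub_nonneg.2 ht') (sub_nonneg.2 hv'), mul_nonneg (sub_nonneg.2 hw) (sub_nonneg.2 hv), mul_nonneg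 (sub_nonneg.2 hw) (sub_nonneg.2 hv'), mul_nonneg (sub_nonneg.2 hw') (sub_nonneg.2 hv), mul_nonneg (sub_nonneg.2 hw') (sub_nonneg.2 hv')]

theorem cC1 {t w v g : ℝ} (ht : 0 ≤ t) (ht' : t ≤ 457 / 25000) (hw : 0 ≤ w) (hw' : w ≤ 29 / 625)
    (hv : 0 ≤ v) (hv' : v ≤ 723 / 10000) (hg : 0 ≤ g) (hg' : g ≤ 49 / 1250)
    (h3 : 0 ≤ m3 (457 / 25000) (29 / 625) (723 / 10000) (49 / 1250) t w v g) (h4 : 0 ≤ m4 (47 / 100) (403 / 5000) (16089 / 100000) (457 / 25000) (29 / 625) (723 / 10000) (49 / 1250) t w v g) : False := by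
  simp only [m3, m4] at h3 h4
  norm_num at h3 h4
  linarith [sq_nonneg (v + (-33699 / 1000000) + (-11951 / 1000) * w), sq_nonneg (w + (-6643 / 2500000) + (-17413 / 1000000) * t), sq_nonneg (t + (-18241 / 1000000)),
    mul_nonneg (sub_nonneg.2 ht) (sub_nonneg.2 ht'), mul_nonneg (sub_nonneg.2 hw) (sub_nonneg.2 hw'), mul_nonneg (sub_nonneg.2 hv) (sub_nonneg.2 hv'), mul_nonneg (sub_nonneg.2 ht) (sub_nonneg.2 hw), mul_nonneg (sub_nonneg.2 ht) (sub_nonneg.2 hw'), mul_nonneg (sub_nonneg.2 ht') (sub_nonneg.2 hw), mul_nonneg (sub_nonneg.2 ht') (sub_nonneg.2 hw'), mul_nonneg (sub_nonneg.2 ht) (sub_nonneg.2 hv), mul_nonneg (sub_nonneg.2 ht) (sub_nonneg.2 hv'), mul_nonneg (sub_nonneg.2 ht') (sub_nonneg.2 hv), mul_nonneg (sub_nonneg.2 ht') (sub_nonneg.2 hv'), mul_nonneg (sub_nonneg.2 hw) (sub_nonneg.2 hv), mul_nonneg (sub_nonneg.2 hw) (sub_nonneg.2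 hv'), mul_nonneg (sub_nonneg.2 hw') (sub_nonneg.2 hv), mul_nonneg (sub_nonneg.2 hw') (sub_nonneg.2 hv')]

theorem cC2 {t w v g : ℝ} (ht : 457 / 25000 ≤ t) (ht' : t ≤ 9 / 250) (hw : 0 ≤ w) (hw' : w ≤ 29 / 625)
    (hv : 3 / 100 ≤ v) (hv' : v ≤ 723 / 10000) (hg : 0 ≤ g) (hg' : g ≤ 49 / 1250)
    (h1 : 0 ≤ m1 (9 / 250) (29 / 625) (723 / 10000) (49 / 1250) t w v g) (h3 : 0 ≤ m3 (9 / 250) (29 / 625) (723 / 10000) (49 / 1250) t w v g) (h4 : 0 ≤ m4 (47 / 100) (681 / 10000) (4169 / 25000) (9 / 250) (29 / 625) (723 / 10000) (49 / 1250) t w v g) : False := by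
  simp only [m1, m3, m4] at h1 h3 h4
  norm_num at h1 h3 h4
  linarith [sq_nonneg ((v - 3 / 100) + (-26091 / 100000) * w), sq_nonneg (w + (-78171 / 10000000) + (-9603 / 250000) * (t - 457 / 25000)), sq_nonneg ((t - 457 / 25000) + (-43879 / 5000000)),
    mul_nonneg (sub_nonneg.2 ht) (sub_nonneg.2 ht'), mul_nonneg (sub_nonneg.2 hw) (sub_nonneg.2 hw'), mul_nonneg (sub_nonneg.2 hv) (sub_nonneg.2 hv'), mul_nonneg (sub_nonneg.2 ht) (sub_nonneg.2 hw), mul_nonneg (sub_nonneg.2 ht) (sub_nonneg.2 hw'), mul_nonneg (sub_nonneg.2 ht') (sub_nonneg.2 hw), mul_nonneg (sub_nonneg.2 ht') (sub_nonneg.2 hw'), mul_nonneg (sub_nonneg.2 ht) (sub_nonneg.2 hv), mul_nonneg (sub_nonneg.2 ht) (sub_nonneg.2 hv'), mul_nonneg (sub_nonneg.2 ht') (sub_nonneg.2 hv), mul_nonneg (sub_nonneg.2 ht') (sub_nonneg.2 hv'), mul_nonneg (sub_nonneg.2 hw) (sub_nonneg.2 hv), mul_nonneg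 (sub_nonneg.2 hw) (sub_nonneg.2 hv'), mul_nonneg (sub_nonneg.2 hw') (sub_nonneg.2 hv), mul_nonneg (sub_nonneg.2 hw') (sub_nonneg.2 hv')]

theorem cC3 {t w v g : ℝ} (ht : 457 / 25000 ≤ t) (ht' : t ≤ 9 / 250) (hw : 229 / 10000 ≤ w) (hw' : w ≤ 29 / 625)
    (hv : 0 ≤ v) (hv' : v ≤ 3 / 100) (hg : 0 ≤ g) (hg' : g ≤ 49 / 1250)
    (h1 : 0 ≤ m1 (9 / 250) (29 / 625) (3 / 100) (49 / 1250) t w v g) (h2 : 0 ≤ m2 (9 / 250) (29 / 625) (3 / 100) (49 / 1250) t w v g) (h3 : 0 ≤ m3 (9 / 250) (29 / 625) (3 / 100) (49 / 1250) t w v g) (h4 : 0 ≤ m4 (47 / 100) (173 / 2500) (5123 / 50000) (9 / 250) (29 / 625) (3 / 100) (49 / 1250) t w v g) : False := by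
  simp only [m1, m2, m3, m4] at h1 h2 h3 h4
  norm_num at h1 h2 h3 h4
  linarith [sq_nonneg (v + (-21921 / 1000000) + (-35489 / 10000) * (w - 229 / 10000)), sq_nonneg ((w - 229 / 10000) + (-13399 / 25000000) + (-26113 / 10000000) * (t - 457 / 25000)), sq_nonneg ((t - 457 / 25000) + (-3503 / 250000)),
    mul_nonneg (sub_nonneg.2 ht) (sub_nonneg.2 ht'), mul_nonneg (sub_nonneg.2 hw) (sub_nonneg.2 hw'), mul_nonneg (sub_nonneg.2 hv) (sub_nonneg.2 hv'), mul_nonneg (sub_nonneg.2 ht) (sub_nonneg.2 hw), mul_nonneg (sub_nonneg.2 ht) (sub_nonneg.2 hw'), mul_nonneg (sub_nonneg.2 ht') (sub_nonneg.2 hw), mul_nonneg (sub_nonneg.2 ht') (sub_nonneg.2 hw'), mul_nonneg (sub_nonneg.2 ht) (sub_nonneg.2 hv), mul_nonneg (sub_nonneg.2 ht) (sub_nonneg.2 hv'), mul_nonneg (sub_nonneg.2 ht') (sub_nonneg.2 hv), mul_nonneg (sub_nonneg.2 ht') (sub_nonneg.2 hv'),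 mul_nonneg (sub_nonneg.2 hw) (sub_nonneg.2 hv), mul_nonneg (sub_nonneg.2 hw) (sub_nonneg.2 hv'), mul_nonneg (sub_nonneg.2 hw') (sub_nonneg.2 hv), mul_nonneg (sub_nonneg.2 hw') (sub_nonneg.2 hv')]

end Rein83
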