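import Pool.Agent.Rein83.FinMDefs

set_option autoImplicit false
set_option maxHeartbeats 4000000

namespace Rein83

theorem fF1a {t w v g : ℝ} (ht : 1219 / 50000 ≤ t) (ht' : t ≤ 51 / 2000) (hw : 0 ≤ w) (hw' : w ≤ 33 / 2500)
    (hv : 0 ≤ v) (hv' : v ≤ 1 / 200) (hg : 0 ≤ g) (hg' : g ≤ 159 / 10000)
    (h3 : 0 ≤ m3 (51 / 2000) (33 / 2500) (1 / 200) (159 / 10000) t w v g) (h4 : 0 ≤ m4c (21 / 50) (51 / 2000) (33 / 2500) (1 / 200) (159 / 10000) t w v g) :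
    8 / 10 * w + 182 / 100 * v + 6 / 100 * g ≤ 137 / 10000 := by
  by_contra hcon
  have hcon := not_le.1 hcon
  simp only [m3, m4c] at h3 h4
  norm_num at h3 h4
  linarith [sq_nonneg (v + (-8461 / 5000000) + (-12971 / 100000) * w), sq_nonneg (w + (-3119 / 400000) + (-18569 / 5000000) * (t - 1219 / 50000)), sq_nonneg ((t - 1219 / 50000) + (-40033 / 50000000)),
    mul_nonneg (sub_nonneg.2 ht) (sub_nonneg.2 ht'), mul_nonneg (sub_nonneg.2 hw) (sub_nonneg.2 hw'), mul_nonneg (sub_nonneg.2 hv) (sub_nonneg.2 hv'), mul_nonneg (sub_nonneg.2 ht) (sub_nonneg.2 hw), mul_nonneg (sub_nonneg.2 ht) (sub_nonneg.2 hw'), mul_nonneg (sub_nonneg.2 ht') (sub_nonneg.2 hw), mul_nonneg (sub_nonneg.2 ht') (sub_nonneg.2 hw'), mul_nonneg (sub_nonneg.2 ht) (sub_nonneg.2 hv), mul_nonneg (sub_nonneg.2 ht) (sub_nonneg.2 hv'), mul_nonneg (sub_nonneg.2 ht') (sub_nonneg.2 hv),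 mul_nonneg (sub_nonneg.2 ht') (sub_nonneg.2 hv'), mul_nonneg (sub_nonneg.2 hw) (sub_nonneg.2 hv), mul_nonneg (sub_nonneg.2 hw) (sub_nonneg.2 hv'), mul_nonneg (sub_nonneg.2 hw') (sub_nonneg.2 hv), mul_nonneg (sub_nonneg.2 hw') (sub_nonneg.2 hv')]

theorem fF1b {t w v g : ℝ} (ht : 51 / 2000 ≤ t) (ht' : t ≤ 53 / 2000) (hw : 0 ≤ w) (hw' : w ≤ 33 / 2500)
    (hv : 0 ≤ v) (hv' : v ≤ 1 / 200) (hg : 0 ≤ g) (hg' : g ≤ 159 / 10000)
    (h3 : 0 ≤ m3 (53 / 2000) (33 / 2500) (1 / 200) (159 / 10000) t w v g) (h4 : 0 ≤ m4c (21 / 50) (53 / 2000) (33 / 2500) (1 / 200) (159 / 10000) t w v g) :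
    8 / 10 * w + 182 / 100 * v + 6 / 100 * g ≤ 137 / 10000 := by
  by_contra hcon
  have hcon := not_le.1 hcon
  simp only [m3, m4c] at h3 h4
  norm_num at h3 h4
  linarith [sq_nonneg (v + (-5597 / 5000000) + (-4263 / 20000) * w), sq_nonneg (w + (-9769 / 1250000) + (-7543 / 2000000) * (t - 51 / 2000)), sq_nonneg ((t - 51 / 2000) + (-77901 / 100000000)),
    mul_nonneg (sub_nonneg.2 ht) (sub_nonneg.2 ht'), mul_nonneg (sub_nonneg.2 hw) (sub_nonneg.2 hw'), mul_nonneg (sub_nonneg.2 hv) (sub_nonneg.2 hv'), mul_nonneg (sub_nonneg.2 ht) (sub_nonneg.2 hw), mul_nonneg (sub_nonneg.2 ht) (sub_nonneg.2 hw'), mul_nonneg (sub_nonneg.2 ht') (sub_nonneg.2 hw), mul_nonneg (sub_nonneg.2 ht') (sub_nonneg.2 hw'), mul_nonneg (sub_nonneg.2 ht) (sub_nonneg.2 hv), mul_nonneg (sub_nonneg.2 ht) (sub_nonneg.2 hv'), mul_nonneg (sub_nonneg.2 ht') (sub_nonneg.2 hv), mul_nonneg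 (sub_nonneg.2 ht') (sub_nonneg.2 hv'), mul_nonneg (sub_nonneg.2 hw) (sub_nonneg.2 hv), mul_nonneg (sub_nonneg.2 hw) (sub_nonneg.2 hv'), mul_nonneg (sub_nonneg.2 hw') (sub_nonneg.2 hv), mul_nonneg (sub_nonneg.2 hw') (sub_nonneg.2 hv')]

theorem fF1c {t w v g : ℝ} (ht : 53 / 2000 ≤ t) (ht' : t ≤ 86 / 3125) (hw : 0 ≤ w) (hw' : w ≤ 33 / 2500)
    (hv : 0 ≤ v) (hv' : v ≤ 1 / 200) (hg : 0 ≤ g) (hg' : g ≤ 159 / 10000)
    (h3 : 0 ≤ m3 (86 / 3125) (33 / 2500) (1 / 200) (159 / 10000) t w v g) (h4 : 0 ≤ m4c (21 / 50) (86 / 3125) (33 / 2500) (1 / 200) (159 / 10000) t w v g) :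
    8 / 10 * w + 182 / 100 * v + 6 / 100 * g ≤ 137 / 10000 := by
  by_contra hcon
  have hcon := not_le.1 hcon
  simp only [m3, m4c] at h3 h4
  norm_num at h3 h4
  linarith [sq_nonneg (v + (-9559 / 50000000000) + (-37317 / 100000) * w), sq_nonneg (w + (-78417 / 10000000) + (-9697 / 2500000) * (t - 53 / 2000)), sq_nonneg ((t - 53 / 2000) + (-24207 / 25000000)),
    mul_nonneg (sub_nonneg.2 ht) (sub_nonneg.2 ht'), mul_nonneg (sub_nonneg.2 hw) (sub_nonneg.2 hw'), mul_nonneg (sub_nonneg.2 hv) (sub_nonneg.2 hv'), mul_nonneg (sub_nonneg.2 ht) (sub_nonneg.2 hw), mul_nonneg (sub_nonneg.2 ht) (sub_nonneg.2 hw'), mul_nonneg (sub_nonneg.2 ht') (sub_nonneg.2 hw), mul_nonneg (sub_nonneg.2 ht') (sub_nonneg.2 hw'), mul_nonneg (sub_nonneg.2 ht) (sub_nonneg.2 hv), mul_nonneg (sub_nonneg.2 ht) (sub_nonneg.2 hv'), mul_nonneg (sub_nonneg.2 ht') (sub_nonneg.2 hv),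 mul_nonneg (sub_nonneg.2 ht') (sub_nonneg.2 hv'), mul_nonneg (sub_nonneg.2 hw) (sub_nonneg.2 hv), mul_nonneg (sub_nonneg.2 hw) (sub_nonneg.2 hv'), mul_nonneg (sub_nonneg.2 hw') (sub_nonneg.2 hv), mul_nonneg (sub_nonneg.2 hw') (sub_nonneg.2 hv')]

theorem fF2a {t w v g : ℝ} (ht : 1219 / 50000 ≤ t) (ht' : t ≤ 51 / 2000) (hw : 0 ≤ w) (hw' : w ≤ 33 / 2500)
    (hv : 0 ≤ v) (hv' : v ≤ 1 / 200) (hg : 0 ≤ g) (hg' : g ≤ 159 / 10000)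
    (h3 : 0 ≤ m3 (51 / 2000) (33 / 2500) (1 / 200) (159 / 10000) t w v g) (h4 : 0 ≤ m4c (21 / 50) (51 / 2000) (33 / 2500) (1 / 200) (159 / 10000) t w v g) :
    28285 / 10000 * w + 4 * v + 371 / 10000 ≤ 28285 / 10000 * t := by
  by_contra hcon
  have hcon := not_le.1 hcon
  simp only [m3, m4c] at h3 h4
  norm_num at h3 h4
  linarith [sq_nonneg (v + (-70633 / 100000000) + (-27693 / 100000) * w), sq_nonneg (w + (-37461 / 5000000) + (-4547 / 2000000) * (t - 1219 / 50000)), sq_nonneg ((t - 1219 / 50000) + (-761 / 781250)),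
    mul_nonneg (sub_nonneg.2 ht) (sub_nonneg.2 ht'), mul_nonneg (sub_nonneg.2 hw) (sub_nonneg.2 hw'), mul_nonneg (sub_nonneg.2 hv) (sub_nonneg.2 hv'), mul_nonneg (sub_nonneg.2 ht) (sub_nonneg.2 hw), mul_nonneg (sub_nonneg.2 ht) (sub_nonneg.2 hw'), mul_nonneg (sub_nonneg.2 ht') (sub_nonneg.2 hw), mul_nonneg (sub_nonneg.2 ht') (sub_nonneg.2 hw'), mul_nonneg (sub_nonneg.2 ht) (sub_nonneg.2 hv), mul_nonneg (sub_nonneg.2 ht) (sub_nonneg.2 hv'), mul_nonneg (sub_nonneg.2 ht') (sub_nonneg.2 hv), mul_nonneg (sub_nonneg.2 ht') (sub_nonneg.2 hv'), mul_nonneg (sub_nonneg.2 hw) (sub_nonneg.2 hv), mul_nonneg (sub_nonneg.2 hw) (sub_nonneg.2 hv'), mul_nonneg (sub_nonneg.2 hw') (sub_nonneg.2 hv), mul_nonneg (sub_nonneg.2 hw') (sub_nonneg.2 hv')]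

theorem fF2b {t w v g : ℝ} (ht : 51 / 2000 ≤ t) (ht' : t ≤ 53 / 2000) (hw : 0 ≤ w) (hw' : w ≤ 33 / 2500)
    (hv : 0 ≤ v) (hv' : v ≤ 1 / 200) (hg : 0 ≤ g) (hg' : g ≤ 159 / 10000)
    (h3 : 0 ≤ m3 (53 / 2000) (33 / 2500) (1 / 200) (159 / 10000) t w v g) (h4 : 0 ≤ m4c (21 / 50) (53 / 2000) (33 / 2500) (1 / 200) (159 / 10000) t w v g) :
    28285 / 10000 * w + 4 * v + 371 / 10000 ≤ 28285 / 10000 * t := by
  by_contra hcon
  have hcon := not_le.1 hcon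
  simp only [m3, m4c] at h3 h4
  norm_num at h3 h4
  linarith [sq_nonneg (v + (-22189 / 100000) * w), sq_nonneg (w + (-10749 / 1000000) + (-6927 / 2000000) * (t - 51 / 2000)), sq_nonneg ((t - 51 / 2000) + (-83713 / 100000000)),
    mul_nonneg (sub_nonneg.2 ht) (sub_nonneg.2 ht'), mul_nonneg (sub_nonneg.2 hw) (sub_nonneg.2 hw'), mul_nonneg (sub_nonneg.2 hv) (sub_nonneg.2 hv'), mul_nonneg (sub_nonneg.2 ht) (sub_nonneg.2 hw), mul_nonneg (sub_nonneg.2 ht) (sub_nonneg.2 hw'), mul_nonneg (sub_nonneg.2 ht') (sub_nonneg.2 hw), mul_nonneg (sub_nonneg.2 ht') (sub_nonneg.2 hw'), mul_nonneg (sub_nonneg.2 ht) (sub_nonneg.2 hv), mul_nonneg (sub_nonneg.2 ht) (sub_nonneg.2 hv'), mul_nonneg (sub_nonneg.2 ht') (sub_nonneg.2 hv), mul_nonneg (sub_nonneg.2 ht') (sub_nonneg.2 hv'), mul_nonneg (sub_nonneg.2 hw) (sub_nonneg.2 hv), mul_nonneg (sub_nonneg.2 hw) (sub_nonneg.2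 hv'), mul_nonneg (sub_nonneg.2 hw') (sub_nonneg.2 hv), mul_nonneg (sub_nonneg.2 hw') (sub_nonneg.2 hv')]

end Rein83
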