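import Pool.Agent.Rein83.FinMDefs

set_option autoImplicit false
set_option maxHeartbeats 4000000

namespace Rein83

theorem fF2c {t w v g : ℝ} (ht : 53 / 2000 ≤ t) (ht' : t ≤ 86 / 3125) (hw : 0 ≤ w) (hw' : w ≤ 33 / 2500)
    (hv : 0 ≤ v) (hv' : v ≤ 1 / 200) (hg : 0 ≤ g) (hg' : g ≤ 159 / 10000)
    (h3 : 0 ≤ m3 (86 / 3125) (33 / 2500) (1 / 200) (159 / 10000) t w v g) (h4 : 0 ≤ m4c (21 / 50) (86 / 3125) (33 / 2500) (1 / 200) (159 / 10000) t w v g) :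
    28285 / 10000 * w + 4 * v + 371 / 10000 ≤ 28285 / 10000 * t := by
  by_contra hcon
  have hcon := not_le.1 hcon
  simp only [m3, m4c] at h3 h4
  norm_num at h3 h4
  linarith [sq_nonneg (v + (-24359 / 1000000000000) + (-1029 / 5000) * w), sq_nonneg (w + (-5593 / 500000) + (-9091 / 2500000) * (t - 53 / 2000)), sq_nonneg ((t - 53 / 2000) + (-8457 / 12500000)),
    mul_nonneg (sub_nonneg.2 ht) (sub_nonneg.2 ht'), mul_nonneg (sub_nonneg.2 hw) (sub_nonneg.2 hw'), mul_nonneg (sub_nonneg.2 hv) (sub_nonneg.2 hv'), mul_nonneg (sub_nonneg.2 ht) (sub_nonneg.2 hw), mul_nonneg (sub_nonneg.2 ht) (sub_nonneg.2 hw'), mul_nonneg (sub_nonneg.2 ht') (sub_nonneg.2 hw), mul_nonneg (sub_nonneg.2 ht') (sub_nonneg.2 hw'), mul_nonneg (sub_nonneg.2 ht) (sub_nonneg.2 hv), mul_nonneg (sub_nonneg.2 ht) (sub_nonneg.2 hv'), mul_nonneg (sub_nonneg.2 ht') (sub_nonneg.2 hv),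 mul_nonneg (sub_nonneg.2 ht') (sub_nonneg.2 hv'), mul_nonneg (sub_nonneg.2 hw) (sub_nonneg.2 hv), mul_nonneg (sub_nonneg.2 hw) (sub_nonneg.2 hv'), mul_nonneg (sub_nonneg.2 hw') (sub_nonneg.2 hv), mul_nonneg (sub_nonneg.2 hw') (sub_nonneg.2 hv')]

theorem fF3 {t w v g : ℝ} (ht : 1219 / 50000 ≤ t) (ht' : t ≤ 86 / 3125) (hw : 0 ≤ w) (hw' : w ≤ 33 / 2500)
    (hv : 0 ≤ v) (hv' : v ≤ 1 / 200) (hg : 0 ≤ g) (hg' : g ≤ 159 / 10000)
    (h3 : 0 ≤ m3 (86 / 3125) (33 / 2500) (1 / 200) (159 / 10000) t w v g) (h4 : 0 ≤ m4c (21 / 50) (86 / 3125) (33 / 2500) (1 / 200) (159 / 10000) t w v g) :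
    v + 206 / 10000 ≤ t := by
  by_contra hcon
  have hcon := not_le.1 hcon
  simp only [m3, m4c] at h3 h4
  norm_num at h3 h4
  linarith [sq_nonneg (v + (-17391 / 5000000) + (-66387 / 100000) * w), sq_nonneg (w + (-51479 / 100000000) + (-7611 / 2500000) * (t - 1219 / 50000)), sq_nonneg ((t - 1219 / 50000) + (-2477 / 1250000)),
    mul_nonneg (sub_nonneg.2 ht) (sub_nonneg.2 ht'), mul_nonneg (sub_nonneg.2 hw) (sub_nonneg.2 hw'), mul_nonneg (sub_nonneg.2 hv) (sub_nonneg.2 hv'), mul_nonneg (sub_nonneg.2 ht) (sub_nonneg.2 hw), mul_nonneg (sub_nonneg.2 ht) (sub_nonneg.2 hw'), mul_nonneg (sub_nonneg.2 ht') (sub_nonneg.2 hw), mul_nonneg (sub_nonneg.2 ht') (sub_nonneg.2 hw'), mul_nonneg (sub_nonneg.2 ht) (sub_nonneg.2 hv), mul_nonneg (sub_nonneg.2 ht) (sub_nonneg.2 hv'), mul_nonneg (sub_nonneg.2 ht') (sub_nonneg.2 hv), mul_nonneg (sub_nonneg.2 ht') (sub_nonneg.2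 hv'), mul_nonneg (sub_nonneg.2 hw) (sub_nonneg.2 hv), mul_nonneg (sub_nonneg.2 hw) (sub_nonneg.2 hv'), mul_nonneg (sub_nonneg.2 hw') (sub_nonneg.2 hv), mul_nonneg (sub_nonneg.2 hw') (sub_nonneg.2 hv')]

theorem fF4 {t w v g : ℝ} (ht : 1219 / 50000 ≤ t) (ht' : t ≤ 86 / 3125) (hw : 0 ≤ w) (hw' : w ≤ 33 / 2500)
    (hv : 0 ≤ v) (hv' : v ≤ 1 / 200) (hg : 0 ≤ g) (hg' : g ≤ 159 / 10000)
    (h2 : 0 ≤ m2 (86 / 3125) (33 / 2500) (1 / 200) (159 / 10000) t w v g) (h3 : 0 ≤ m3 (86 / 3125) (33 / 2500) (1 / 200) (159 / 10000) t w v g) (h4 : 0 ≤ m4c (21 / 50) (86 / 3125) (33 / 2500) (1 / 200) (159 / 10000) t w v g) :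
    925 / 10000 * w + 15 / 100 * v + 3 / 100 * g ≤ 512 / 10000 * t + 2 / 10000 := by
  by_contra hcon
  have hcon := not_le.1 hcon
  simp only [m2, m3, m4c] at h2 h3 h4
  norm_num at h2 h3 h4
  linarith [sq_nonneg (v + (-50331 / 100000000) + (-3849 / 10000) * w), sq_nonneg (w + (-36403 / 5000000) + (-797 / 312500) * (t - 1219 / 50000)), sq_nonneg ((t - 1219 / 50000) + (-18013 / 10000000)),
    mul_nonneg (sub_nonneg.2 ht) (sub_nonneg.2 ht'), mul_nonneg (sub_nonneg.2 hw) (sub_nonneg.2 hw'), mul_nonneg (sub_nonneg.2 hv) (sub_nonneg.2 hv'), mul_nonneg (sub_nonneg.2 ht) (sub_nonneg.2 hw), mul_nonneg (sub_nonneg.2 ht) (sub_nonneg.2 hw'), mul_nonneg (sub_nonneg.2 ht') (sub_nonneg.2 hw), mul_nonneg (sub_nonneg.2 ht') (sub_nonneg.2 hw'), mul_nonneg (sub_nonneg.2 ht) (sub_nonneg.2 hv), mul_nonneg (sub_nonneg.2 ht) (sub_nonneg.2 hv'), mul_nonneg (sub_nonneg.2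 ht') (sub_nonneg.2 hv), mul_nonneg (sub_nonneg.2 ht') (sub_nonneg.2 hv'), mul_nonneg (sub_nonneg.2 hw) (sub_nonneg.2 hv), mul_nonneg (sub_nonneg.2 hw) (sub_nonneg.2 hv'), mul_nonneg (sub_nonneg.2 hw') (sub_nonneg.2 hv), mul_nonneg (sub_nonneg.2 hw') (sub_nonneg.2 hv')]

theorem fF5 {t w v g : ℝ} (ht : 1219 / 50000 ≤ t) (ht' : t ≤ 86 / 3125) (hw : 0 ≤ w) (hw' : w ≤ 33 / 2500)
    (hv : 0 ≤ v) (hv' : v ≤ 1 / 200) (hg : 0 ≤ g) (hg' : g ≤ 159 / 10000)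
    (h2 : 0 ≤ m2 (86 / 3125) (33 / 2500) (1 / 200) (159 / 10000) t w v g) (h3 : 0 ≤ m3 (86 / 3125) (33 / 2500) (1 / 200) (159 / 10000) t w v g) (h4 : 0 ≤ m4c (21 / 50) (86 / 3125) (33 / 2500) (1 / 200) (159 / 10000) t w v g) :
    28285 / 10000 * t + 28285 / 10000 * w + 53 / 10 * v + 2903 / 1000 * (2 * (17639 / 1000000 - 58578 / 100000 * t - 243185 / 100000 * t ^ 2)
      + (51764 / 100000 + 193186 / 100000 * (86 / 3125)) * (g / 2 + (t + w) ^ 2 + 4 * v ^ 2)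
      + 28638 / 10000 * w ^ 2 + 4 * v ^ 2) ≤ 1289 / 10000 := by
  by_contra hcon
  have hcon := not_le.1 hcon
  simp only [m2, m3, m4c] at h2 h3 h4
  norm_num at h2 h3 h4
  linarith [sq_nonneg (v + (-38223 / 100000) * w), sq_nonneg (w + (-73039 / 10000000) + (-11217 / 1000000) * (t - 1219 / 50000)), sq_nonneg ((t - 1219 / 50000) + (-259 / 125000)),
    mul_nonneg (sub_nonneg.2 ht) (sub_nonneg.2 ht'), mul_nonneg (sub_nonneg.2 hw) (sub_nonneg.2 hw'), mul_nonneg (sub_nonneg.2 hv) (sub_nonneg.2 hv'), mul_nonneg (sub_nonneg.2 ht) (sub_nonneg.2 hw), mul_nonneg (sub_nonneg.2 ht) (sub_nonneg.2 hw'), mul_nonneg (sub_nonneg.2 ht') (sub_nonneg.2 hw), mul_nonneg (sub_nonneg.2 ht') (sub_nonneg.2 hw'), mul_nonneg (sub_nonneg.2 ht) (sub_nonneg.2 hv), mul_nonneg (sub_nonneg.2 ht) (sub_nonneg.2 hv'), mul_nonneg (sub_nonneg.2 ht') (sub_nonneg.2 hv), mul_nonneg (sub_nonneg.2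 ht') (sub_nonneg.2 hv'), mul_nonneg (sub_nonneg.2 hw) (sub_nonneg.2 hv), mul_nonneg (sub_nonneg.2 hw) (sub_nonneg.2 hv'), mul_nonneg (sub_nonneg.2 hw') (sub_nonneg.2 hv), mul_nonneg (sub_nonneg.2 hw') (sub_nonneg.2 hv')]

theorem fF6 {t w v g : ℝ} (ht : 1219 / 50000 ≤ t) (ht' : t ≤ 86 / 3125) (hw : 0 ≤ w) (hw' : w ≤ 33 / 2500)
    (hv : 0 ≤ v) (hv' : v ≤ 1 / 200) (hg : 0 ≤ g) (hg' : g ≤ 159 / 10000)
    (h3 : 0 ≤ m3 (86 / 3125) (33 / 2500) (1 / 200) (159 / 10000) t w v g) (h4 : 0 ≤ m4c (21 / 50) (86 / 3125) (33 / 2500) (1 / 200) (159 / 10000) t w v g) :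
    454 / 100 * w + 642 / 100 * v + 397 / 10000 ≤ 3818 / 1000 * t := by
  by_contra hcon
  have hcon := not_le.1 hcon
  simp only [m3, m4c] at h3 h4
  norm_num at h3 h4
  linarith [sq_nonneg (v + (-61251 / 10000000000000) + (-4141 / 20000) * w), sq_nonneg (w + (-1443 / 125000) + (-37719 / 10000000) * (t - 1219 / 50000)), sq_nonneg ((t - 1219 / 50000) + (-19463 / 10000000)),
    mul_nonneg (sub_nonneg.2 ht) (sub_nonneg.2 ht'), mul_nonneg (sub_nonneg.2 hw) (sub_nonneg.2 hw'), mul_nonneg (sub_nonneg.2 hv) (sub_nonneg.2 hv'), mul_nonneg (sub_nonneg.2 ht) (sub_nonneg.2 hw), mul_nonneg (sub_nonneg.2 ht) (sub_nonneg.2 hw'), mul_nonneg (sub_nonneg.2 ht') (sub_nonneg.2 hw), mul_nonneg (sub_nonneg.2 ht') (sub_nonneg.2 hw'), mul_nonneg (sub_nonneg.2 ht) (sub_nonneg.2 hv), mul_nonneg (sub_nonneg.2 ht) (sub_nonneg.2 hv'), mul_nonneg (sub_nonneg.2 ht') (sub_nonneg.2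 hv), mul_nonneg (sub_nonneg.2 ht') (sub_nonneg.2 hv'), mul_nonneg (sub_nonneg.2 hw) (sub_nonneg.2 hv), mul_nonneg (sub_nonneg.2 hw) (sub_nonneg.2 hv'), mul_nonneg (sub_nonneg.2 hw') (sub_nonneg.2 hv), mul_nonneg (sub_nonneg.2 hw') (sub_nonneg.2 hv')]

theorem fF7 {t w v g : ℝ} (ht : 1219 / 50000 ≤ t) (ht' : t ≤ 86 / 3125) (hw : 0 ≤ w) (hw' : w ≤ 33 / 2500)
    (hv : 0 ≤ v) (hv' : v ≤ 1 / 200) (hg : 0 ≤ g) (hg' : g ≤ 159 / 10000)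
    (h4 : 0 ≤ m4c (21 / 50) (86 / 3125) (33 / 2500) (1 / 200) (159 / 10000) t w v g) :
    4 * m2 (86 / 3125) (33 / 2500) (1 / 200) (159 / 10000) t w v g ≤ 757 / 100000 := by
  by_contra hcon
  have hcon := not_le.1 hcon
  simp only [m4c, m2] at hcon h4
  norm_num at hcon h4
  linarith [sq_nonneg (v + (-15261 / 1000000000) + (-15649 / 25000000) * (t - 1219 / 50000) + (-21387 / 500000) * w), sq_nonneg (w + (-13331 / 5000000000) + (-1367 / 12500000) * (t - 1219 / 50000)), sq_nonneg ((t - 1219 / 50000) + (-477 / 312500)),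
    mul_nonneg (sub_nonneg.2 ht) (sub_nonneg.2 ht'), mul_nonneg (sub_nonneg.2 hw) (sub_nonneg.2 hw'), mul_nonneg (sub_nonneg.2 hv) (sub_nonneg.2 hv'), mul_nonneg (sub_nonneg.2 ht) (sub_nonneg.2 hw), mul_nonneg (sub_nonneg.2 ht) (sub_nonneg.2 hw'), mul_nonneg (sub_nonneg.2 ht') (sub_nonneg.2 hw), mul_nonneg (sub_nonneg.2 ht') (sub_nonneg.2 hw'), mul_nonneg (sub_nonneg.2 ht) (sub_nonneg.2 hv), mul_nonneg (sub_nonneg.2 ht) (sub_nonneg.2 hv'), mul_nonneg (sub_nonneg.2 ht') (sub_nonneg.2 hv), mul_nonneg (sub_nonneg.2 ht') (sub_nonneg.2 hv'), mul_nonneg (sub_nonneg.2 hw) (sub_nonneg.2 hv), mul_nonneg (sub_nonneg.2 hw) (sub_nonneg.2 hv'), mul_nonneg (sub_nonneg.2 hw') (sub_nonneg.2 hv), mul_nonneg (sub_nonneg.2 hw') (sub_nonneg.2 hv')]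

end Rein83
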