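import Pool.Agent.Rein83.Ident

set_option autoImplicit false

/-! Section F: the finite-dimensional configuration. -/

namespace Rein83

open Complex Finset Rein69

/-- `sin 15°` -/
noncomputable def sn : ℝ := (Real.sqrt 6 - Real.sqrt 2) / 4
/-- `cos 15°` -/
noncomputable def cs : ℝ := (Real.sqrt 6 + Real.sqrt 2) / 4
/-- `e^{iπ/12}` -/
noncomputable def e1 : ℂ := ⟨cs, sn⟩
/-- `e^{iπ/6}` -/
noncomputable def e2 : ℂ := ⟨Real.sqrt 3 / 2, 1 / 2⟩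
/-- `e^{iπ/4}` -/
noncomputable def e3 : ℂ := ⟨Real.sqrt 2 / 2, Real.sqrt 2 / 2⟩
/-- `e^{2iπ/3}` -/
noncomputable def z3 : ℂ := ⟨-1 / 2, Real.sqrt 3 / 2⟩
/-- `e^{-2iπ/3}` -/
noncomputable def z3b : ℂ := ⟨-1 / 2, -(Real.sqrt 3 / 2)⟩

/-- aligned configuration of four hexagons: `r k` and `B k` (period 4) -/
structure Cf (t : ℝ) (r : ℕ → ℝ) (B : ℕ → ℂ) : Prop where
  rper : ∀ k, r (k + 4) = r k
  Bper : ∀ k, B (k + 4) = B k
  B02 : B 0 = B 2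
  sum : B 0 + B 1 + B 2 + B 3 = 4 * t
  t0 : 0 ≤ t
  rpos : ∀ k, 0 < r k
  D1 : ∀ k, 1 ≤ r k ^ 2 - normSq (B k)

/-- `T` of consecutive nodes -/
noncomputable def pT (r : ℝ) (B : ℂ) (r' : ℝ) (B' : ℂ) : ℝ :=
  3 / 2 * (sn * (r * r') - (e1 * B * (starRingEnd ℂ) B').re)

/-- `C1` of consecutive nodes -/
noncomputable def pC (r : ℝ) (B : ℂ) (r' : ℝ) (B' : ℂ) : ℝ :=
  Real.sqrt 3 / 2 * ((r ^ 2 - normSq B) + (r' ^ 2 - normSq B') - 2 * cs * (r * r')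
    - 2 * (e1 * B * (starRingEnd ℂ) B').im)

/-- `K` of consecutive nodes -/
noncomputable def pK (r : ℝ) (B : ℂ) (r' : ℝ) (B' : ℂ) : ℂ := -(e3 * (I * r * B' + r' * B))

/-- `G_0` of consecutive nodes -/
noncomputable def pG0 (r : ℝ) (B : ℂ) (r' : ℝ) (B' : ℂ) : ℝ :=
  2 / 3 * pT r B r' B' - 2 * (pK r B r' B').im
/-- `G_2` of consecutive nodes -/
noncomputable def pG2 (r : ℝ) (B : ℂ) (r' : ℝ) (B' : ℂ) : ℝ :=
  2 / 3 * pT r B r' B' - 2 * (z3 * pK r B r' B').im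
/-- `G_4` of consecutive nodes -/
noncomputable def pG4 (r : ℝ) (B : ℂ) (r' : ℝ) (B' : ℂ) : ℝ :=
  2 / 3 * pT r B r' B' - 2 * (z3b * pK r B r' B').im

/-- the turn at the straight vertex of the middle node of three consecutive nodes -/
noncomputable def pturn (r : ℝ) (B : ℂ) (r' : ℝ) (B' : ℂ) (r'' : ℝ) (B'' : ℂ) : ℝ :=
  (e1 * ((starRingEnd ℂ) (r + ob * B) * (r' - B') + (starRingEnd ℂ) (r' - B') * (r'' + om * B''))
    - e2 * ((starRingEnd ℂ) (r + ob * B) * (r'' + om * B''))).im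

/-- `det (d0 - d4, dm)` for the interval `(r', B'), (r'', B'')` with previous node `(r, B)` -/
noncomputable def pcrx (r : ℝ) (B : ℂ) (r' : ℝ) (B' : ℂ) (r'' : ℝ) (B'' : ℂ) : ℝ :=
  cr ((e1 * (r'' + ob * B'') - (r' + om * B'))
      - (z3b * (e1 * (r'' - B'') - (r' + ob * B'))))
    (z3 * ((r' - B') - (starRingEnd ℂ) e1 * (r + ob * B)))

/-- `det (d2 - d0, dp)` for the interval `(r, B), (r', B')` with next node `(r'', B'')` -/
noncomputable def pcry (r : ℝ) (B : ℂ) (r' : ℝ) (B' : ℂ) (r'' : ℝ) (B'' : ℂ) : ℝ :=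
  cr (z3 * (e1 * (r' + om * B') - (r - B)) - (e1 * (r' + ob * B') - (r + om * B)))
    (z3b * (e2 * (r'' + om * B'') - e1 * (r' - B')))

/-- total excess of the determinants -/
noncomputable def sig (r : ℕ → ℝ) (B : ℕ → ℂ) : ℝ := ∑ k ∈ range 4, (r k ^ 2 - normSq (B k) - 1)

/-- `x = t - B 0` -/
noncomputable def cx (t : ℝ) (B : ℕ → ℂ) : ℂ := t - B 0
/-- `2 i y = (B 1 - B 3) / 2` -/
noncomputable def cy (B : ℕ → ℂ) : ℂ := (B 1 - B 3) / (4 * I)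

end Rein83
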