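import Pool.Agent.Rein83.Ident

set_option autoImplicit false

/-! Section E: definitions for the near lemma (verbatim from NearStub.lean). -/

namespace Rein83

open Complex Finset Rein69

/-- hyperbola profile: `ph - z ph^2 = z s (1-s)` -/
noncomputable def ph (z s : ℝ) : ℝ := (1 - Real.sqrt (1 - 4 * z ^ 2 * s * (1 - s))) / (2 * z)

/-- average of the hyperbola profile over `i / M` -/
noncomputable def Ph (z : ℝ) (M : ℕ) : ℝ := (∑ i ∈ range M, ph z (i / M)) / M

/-- the data of the near lemma: normalised heights `A, x, y` over the three curves at the hexagons with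
`B1 = (i/M) C1` -/
structure NearSeq (M : ℕ) (z g2 g4 e0 e1 σx σy : ℝ) (A x y : ℕ → ℝ) : Prop where
  A0 : A 0 = 0
  x0 : x 0 = 0
  y0 : y 0 = 0
  AM : A M = 0
  xM : x M = 0
  yM : y M = 0
  An : ∀ i, i ≤ M → 0 ≤ A i
  xn : ∀ i, i ≤ M → 0 ≤ x i
  yn : ∀ i, i ≤ M → 0 ≤ y i
  /-- the intermediate hexagon has large determinant -/
  con : ∀ i, i ≤ M → z * (i / M) * (1 - i / M) - ((1 - i / M) * e0 + (i / M) * e1) ≤
    A i + g2 * x i + g4 * y i
      + 2 * z * (A i * x i + A i * y i + x i * y i - (A i ^ 2 + x i ^ 2 + y i ^ 2) / 2)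
  /-- first coordinates increase (curve 2: `ξ = s + A - y`) -/
  dξ : ∀ i, i < M → 0 < 1 / (M : ℝ) + (A (i + 1) - A i) - (y (i + 1) - y i)
  /-- first coordinates increase (curve 4: `η = s + x - A`) -/
  dη : ∀ i, i < M → 0 < 1 / (M : ℝ) + (x (i + 1) - x i) - (A (i + 1) - A i)
  /-- initial slope of curve 2 -/
  sx : ∀ i, i ≤ M → x i ≤ σx * (i / M + A i - y i)
  dx : ∀ i, i < M → x (i + 1) - x i ≤ σx * (1 / (M : ℝ) + (A (i + 1) - A i) - (y (i + 1) - y i))
  /-- final slope of curve 4 -/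
  sy : ∀ i, i ≤ M → y i ≤ σy * (1 - (i / M + x i - A i))
  dy : ∀ i, i < M → -(y (i + 1) - y i) ≤ σy * (1 / (M : ℝ) + (x (i + 1) - x i) - (A (i + 1) - A i))
  /-- `x / ξ` is nonincreasing -/
  rx : ∀ i, i < M → x (i + 1) * (i / M + A i - y i) ≤ x i * ((i + 1) / M + A (i + 1) - y (i + 1))
  /-- `y / (1 - η)` is nondecreasing -/
  ry : ∀ i, i < M → y i * (1 - ((i + 1) / M + x (i + 1) - A (i + 1))) ≤ y (i + 1) * (1 - (i / M + x i - A i))
  /-- `y` is concave as a function of `η` -/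
  cy : ∀ i, i + 1 < M → (y (i + 2) - y (i + 1)) * (1 / (M : ℝ) + (x (i + 1) - x i) - (A (i + 1) - A i)) ≤
    (y (i + 1) - y i) * (1 / (M : ℝ) + (x (i + 2) - x (i + 1)) - (A (i + 2) - A (i + 1)))

/-- normalised gain of the chain -/
noncomputable def cap (M : ℕ) (A x y : ℕ → ℝ) : ℝ :=
  (∑ i ∈ range M, (A i + x i + y i)) / M
    + ∑ i ∈ range M, ((x i * A (i + 1) - x (i + 1) * A i) + (A i * y (i + 1) - A (i + 1) * y i)
      + (y i * x (i + 1) - y (i + 1) * x i))

/-- the constants of the tangent line of the hyperbola cap (area `∼ b C - a G`) -/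
noncomputable def ca : ℝ := (3 + 2 * Real.sqrt 2) * Real.log 2 / 4 - 1
/-- the constants of the tangent line of the hyperbola cap -/
noncomputable def cb : ℝ := (9 + 6 * Real.sqrt 2) * Real.log 2 / 4 - (3 + 2 * Real.sqrt 2) / 2

end Rein83
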