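import Pool.Agent.Rein83.NBoxDef
import Pool.Agent.Rein83.NearDefs
import Pool.Agent.Rein83.FinS1

set_option autoImplicit false

/-! Section F, near stage, module G3: upper bound of `C`. -/

namespace Rein83

open Complex Finset Rein69

namespace FinGCAux

lemma s3_ge : (17320508 : ℝ) / 10000000 ≤ Real.sqrt 3 := Real.le_sqrt_of_sq_le (by norm_num)

lemma s3_le : Real.sqrt 3 ≤ (17320509 : ℝ) / 10000000 :=
  Real.sqrt_le_iff.2 ⟨by norm_num, by norm_num⟩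

lemma s6_eq : Real.sqrt 6 = Real.sqrt 2 * Real.sqrt 3 := by
  rw [← Real.sqrt_mul (by norm_num)]
  norm_num

lemma rr_ge {p q : ℝ} (hp : 1 ≤ p) (hq : 1 ≤ q) :
    (p ^ 2 + q ^ 2) / 2 - (p ^ 2 - q ^ 2) ^ 2 / 8 ≤ p * q := by
  have h1 : 4 ≤ (p + q) ^ 2 := by nlinarith
  have h2 : (p ^ 2 - q ^ 2) ^ 2 = (p - q) ^ 2 * (p + q) ^ 2 := by ring
  have h3 : (p - q) ^ 2 * 4 ≤ (p - q) ^ 2 * (p + q) ^ 2 :=
    mul_le_mul_of_nonneg_left h1 (sq_nonneg _)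
  linarith

/-- the numerical constants -/
lemma consts :
    Real.sqrt 3 * (1 - cs) ≤ 590184 / 10000000 ∧
    212132 / 100000 ≤ Real.sqrt 3 * (cs + sn) ∧
    122474 / 100000 ≤ Real.sqrt 3 * (cs - sn) ∧
    334606 / 200000 ≤ Real.sqrt 3 * cs ∧
    Real.sqrt 3 * cs ≤ 334608 / 200000 := by
  have h1 := s3_ge
  have h2 := s3_le
  have h5 := cs_ge
  have h6 := cs_le
  have h7 := cs_pos
  have e1 : Real.sqrt 3 * cs ≤ 17320509 / 10000000 * (9659259 / 10000000) :=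
    mul_le_mul h2 h6 h7.le (by norm_num)
  have e2 : 17320508 / 10000000 * ((9659258 : ℝ) / 10000000 - 1 / 10000000) ≤ Real.sqrt 3 * cs :=
    mul_le_mul h1 h5 (by norm_num) (by linarith)
  have e5 : Real.sqrt 3 * (1 - cs) ≤ 17320509 / 10000000 * (340743 / 10000000) :=
    mul_le_mul h2 (by linarith) (by linarith) (by norm_num)
  have q3 : Real.sqrt 3 ^ 2 = 3 := Real.sq_sqrt (by norm_num)
  have e3 : Real.sqrt 3 * (cs + sn) = 3 / 2 * Real.sqrt 2 := by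
    have : cs + sn = Real.sqrt 6 / 2 := by unfold cs sn; ring
    rw [this, s6_eq]
    linear_combination (Real.sqrt 2 / 2) * q3
  have e4 : Real.sqrt 3 * (cs - sn) = Real.sqrt 6 / 2 := by
    rw [cs_sub_sn, s6_eq]; ring
  have h8 := sqrt2_ge
  have h9 := sqrt6_ge
  refine ⟨by linarith, by rw [e3]; linarith, by rw [e4]; linarith, by linarith, by linarith⟩

lemma consts_a : (Real.sqrt 3 * (cs + sn)) ^ 2 = 9 / 2 := by
  have q3 : Real.sqrt 3 ^ 2 = 3 := Real.sq_sqrt (by norm_num)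
  have q6 : Real.sqrt 6 ^ 2 = 6 := Real.sq_sqrt (by norm_num)
  have : cs + sn = Real.sqrt 6 / 2 := by unfold cs sn; ring
  rw [this, mul_pow, q3, div_pow, q6]
  norm_num

lemma consts_b : (Real.sqrt 3 * (cs - sn)) ^ 2 = 3 / 2 := by
  have q3 : Real.sqrt 3 ^ 2 = 3 := Real.sq_sqrt (by norm_num)
  have q2 : Real.sqrt 2 ^ 2 = 2 := Real.sq_sqrt (by norm_num)
  rw [cs_sub_sn, mul_pow, q3, div_pow, q2]
  norm_num

/-- the numerical inequality -/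
lemma num {t w v g : ℝ} (h1 : 2438 / 100000 ≤ t) (h2 : t ≤ 2752 / 100000) (hw : 0 ≤ w)
    (hw' : w ≤ 132 / 10000) (hv : 0 ≤ v) (hv' : v ≤ 5 / 1000) (hg : 0 ≤ g) (hg' : g ≤ 159 / 10000) :
    590184 / 10000000 + 295092 / 10000000 * g - 212132 / 100000 * t ^ 2 - 122474 / 100000 * w ^ 2
      - 334606 / 100000 * v ^ 2 + 334608 / 100000 * (t * w) + 540401 / 100000 * (t * v)
      + 41470 / 10000 * (w * v)
      + 20913 / 100000 * (g + 4 * (v ^ 2 + t * w + v * (t + w))) ^ 2 ≤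
    5906 / 100000 - 512 / 10000 * t + 925 / 10000 * w + 15 / 100 * v + 3 / 100 * g := by
  have hz0 : 0 ≤ v ^ 2 + t * w + v * (t + w) := by positivity
  have hz1 : v ^ 2 + t * w + v * (t + w) ≤ 2752 / 100000 * w + 4572 / 100000 * v := by
    linarith [mul_nonneg hv (sub_nonneg.2 hv'), mul_nonneg hw (sub_nonneg.2 h2),
      mul_nonneg hv (sub_nonneg.2 h2), mul_nonneg hv (sub_nonneg.2 hw')]
  set z := v ^ 2 + t * w + v * (t + w) with hz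
  have hz2 : z ≤ 592 / 1000000 := by linarith
  have hsq : (g + 4 * z) ^ 2 ≤ 159 / 10000 * g + 13667 / 100000 * z + 0 := by
    nlinarith [mul_nonneg hg (sub_nonneg.2 hg'), mul_nonneg hz0 (sub_nonneg.2 hg'),
      mul_nonneg hz0 (sub_nonneg.2 hz2)]
  have ht2 : 2438 / 100000 * (2438 / 100000) + 2 * (2438 / 100000) * (t - 2438 / 100000) ≤ t ^ 2 := by
    linarith [sq_nonneg (t - 2438 / 100000)]
  have hwv : 4147 / 1000 * (w * v) ≤ 122474 / 100000 * w ^ 2 + 35105 / 10000 * v ^ 2 := by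
    nlinarith [sq_nonneg (w - 1693 / 1000 * v), sq_nonneg w, sq_nonneg v]
  have hvv : v ^ 2 ≤ 5 / 1000 * v := by nlinarith
  have htw : t * w ≤ 2752 / 100000 * w := by nlinarith
  have hwt : w * (334608 / 100000 * t - 9171 / 100000) ≤ 132 / 10000 * (375 / 1000000) * ((t - 2438 / 100000) / (314 / 100000)) := by
    linarith [mul_nonneg hw (sub_nonneg.2 h2), mul_nonneg hw (sub_nonneg.2 h1), mul_nonneg (sub_nonneg.2 hw') (sub_nonneg.2 h1)]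
  have hvt : v * (540401 / 100000 * t - 14787 / 100000) ≤ 5 / 1000 * (85 / 100000) * ((t - 2438 / 100000) / (314 / 100000)) := by
    linarith [mul_nonneg hv (sub_nonneg.2 h2), mul_nonneg hv (sub_nonneg.2 h1), mul_nonneg (sub_nonneg.2 hv') (sub_nonneg.2 h1)]
  linarith

lemma lin1 {y1 y2 v : ℝ} (hv : 0 ≤ v) (hY : y1 ^ 2 + y2 ^ 2 = v ^ 2) :
    Real.sqrt 3 * (cs + sn) * y2 + Real.sqrt 3 * cs * y1 ≤ 2702005 / 1000000 * v := by
  obtain ⟨c1, c2, c3, c4, c5⟩ := consts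
  have b1 : (Real.sqrt 3 * (cs + sn)) ^ 2 = 9 / 2 := consts_a
  set A : ℝ := Real.sqrt 3 * (cs + sn)
  set C : ℝ := Real.sqrt 3 * cs
  have b2 : C ^ 2 ≤ (334608 / 200000) ^ 2 := pow_le_pow_left₀ (by linarith) c5 2
  have b3 : (A * y2 + C * y1) ^ 2 ≤ (A ^ 2 + C ^ 2) * v ^ 2 := by
    rw [← hY]
    linarith [sq_nonneg (A * y1 - C * y2)]
  have b4 : (A ^ 2 + C ^ 2) * v ^ 2 ≤ (2702005 / 1000000) ^ 2 * v ^ 2 :=
    mul_le_mul_of_nonneg_right (by rw [b1]; linarith) (sq_nonneg v)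
  have b5 : |A * y2 + C * y1| ≤ 2702005 / 1000000 * v :=
    abs_le_of_sq_le_sq (by rw [mul_pow]; linarith) (by positivity)
  exact (abs_le.1 b5).2

lemma lin2 {p q W : ℝ} (hW : 0 ≤ W) (hpq : q ^ 2 + p ^ 2 = W ^ 2) :
    -(Real.sqrt 3 * (cs - sn) * q + Real.sqrt 3 * cs * p) ≤ 20735 / 10000 * W := by
  obtain ⟨c1, c2, c3, c4, c5⟩ := consts
  have b1 : (Real.sqrt 3 * (cs - sn)) ^ 2 = 3 / 2 := consts_b
  set A : ℝ := Real.sqrt 3 * (cs - sn)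
  set C : ℝ := Real.sqrt 3 * cs
  have b2 : C ^ 2 ≤ (334608 / 200000) ^ 2 := pow_le_pow_left₀ (by linarith) c5 2
  have b3 : (A * q + C * p) ^ 2 ≤ (A ^ 2 + C ^ 2) * W ^ 2 := by
    rw [← hpq]
    linarith [sq_nonneg (A * p - C * q)]
  have b4 : (A ^ 2 + C ^ 2) * W ^ 2 ≤ (20735 / 10000) ^ 2 * W ^ 2 :=
    mul_le_mul_of_nonneg_right (by rw [b1]; linarith) (sq_nonneg W)
  have b5 : |A * q + C * p| ≤ 20735 / 10000 * W :=
    abs_le_of_sq_le_sq (by rw [mul_pow]; linarith) (by positivity)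
  linarith [(abs_le.1 b5).1]

lemma core {t x1 x2 y1 y2 w v g d d' r r' S J : ℝ} (h1 : 2438 / 100000 ≤ t)
    (h2 : t ≤ 2752 / 100000) (hw : 0 ≤ w) (hw' : w ≤ 132 / 10000) (hv : 0 ≤ v) (hv' : v ≤ 5 / 1000)
    (hg : 0 ≤ g) (hg' : g ≤ 159 / 10000) (hX : x1 ^ 2 + x2 ^ 2 = w ^ 2) (hY : y1 ^ 2 + y2 ^ 2 = v ^ 2)
    (hr1 : 1 ≤ r) (hr1' : 1 ≤ r') (hr : r ^ 2 = 1 + d + ((t - x1) ^ 2 + x2 ^ 2))
    (hr' : r' ^ 2 = 1 + d' + ((t + x1 - 2 * y2) ^ 2 + (x2 + 2 * y1) ^ 2)) (hd : 0 ≤ d) (hd' : 0 ≤ d')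
    (hdd : d + d' ≤ g) (hS : S = (t - x1) * (t + x1 - 2 * y2) - x2 * (x2 + 2 * y1))
    (hJ : J = -(x2 * (t + x1 - 2 * y2)) - (t - x1) * (x2 + 2 * y1)) :
    Real.sqrt 3 / 2 * ((1 + d) + (1 + d') - 2 * cs * (r * r') - 2 * (sn * S + cs * J)) ≤
    5906 / 100000 - 512 / 10000 * t + 925 / 10000 * w + 15 / 100 * v + 3 / 100 * g := by
  obtain ⟨c1, c2, c3, c4, c5⟩ := consts
  have hn := num h1 h2 hw hw' hv hv' hg hg'
  have ht0 : 0 ≤ t := by linarith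
  have hs3 : 0 ≤ Real.sqrt 3 := Real.sqrt_nonneg 3
  have hrr := rr_ge hr1 hr1'
  have hx1 : |x1| ≤ w := abs_le_of_sq_le_sq (by linarith [sq_nonneg x2]) hw
  have hx2 : |x2| ≤ w := abs_le_of_sq_le_sq (by linarith [sq_nonneg x1]) hw
  have hy2 : |y2| ≤ v := abs_le_of_sq_le_sq (by linarith [sq_nonneg y1]) hv
  have hpq : (x2 * y1 - x1 * y2) ^ 2 + (x1 * y1 + x2 * y2) ^ 2 = (w * v) ^ 2 := by
    rw [mul_pow, ← hX, ← hY]; ring
  have hwv : 0 ≤ w * v := mul_nonneg hw hv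
  set q : ℝ := x2 * y1 - x1 * y2 with hq
  set p : ℝ := x1 * y1 + x2 * y2 with hp
  have hq1 : |q| ≤ w * v := abs_le_of_sq_le_sq (by linarith [sq_nonneg p]) hwv
  set z : ℝ := v ^ 2 + t * w + v * (t + w) with hz
  have hz0 : 0 ≤ z := by positivity
  have hdiff : r ^ 2 - r' ^ 2 = (d - d') - 4 * (t * x1 + v ^ 2 - t * y2 + q) := by
    rw [hr, hr', ← hY, hq]; ring
  have htx : |t * x1| ≤ t * w := by
    rw [abs_mul, abs_of_nonneg ht0]; exact mul_le_mul_of_nonneg_left hx1 ht0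
  have hty : |t * y2| ≤ t * v := by
    rw [abs_mul, abs_of_nonneg ht0]; exact mul_le_mul_of_nonneg_left hy2 ht0
  have hE : (r ^ 2 - r' ^ 2) ^ 2 ≤ (g + 4 * z) ^ 2 := by
    apply sq_le_sq'
    · rw [hdiff]
      have a1 := (abs_le.1 htx).2
      have a2 := (abs_le.1 hty).1
      have a3 := (abs_le.1 hq1).2
      linarith [sq_nonneg v]
    · rw [hdiff]
      have a1 := (abs_le.1 htx).1
      have a2 := (abs_le.1 hty).2
      have a3 := (abs_le.1 hq1).1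
      linarith [sq_nonneg v]
  have hM : (r ^ 2 + r' ^ 2) / 2 - r * r' ≤ (g + 4 * z) ^ 2 / 8 := by linarith
  set M : ℝ := (r ^ 2 + r' ^ 2) / 2 - r * r' with hMd
  have hM0 : 0 ≤ M := by rw [hMd]; linarith [sq_nonneg (r - r')]
  have hrr' : r * r' = 1 + (d + d') / 2 + (t ^ 2 + w ^ 2 + 2 * v ^ 2 - 2 * t * y2 + 2 * q) - M := by
    rw [hMd, hr, hr', ← hX, ← hY, hq]; ring
  have hS' : S = t ^ 2 - w ^ 2 - 2 * t * y2 - 2 * q := by
    rw [hS, ← hX, hq]; ring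
  have hJ' : J = -(2 * t * x2) - 2 * t * y1 + 2 * p := by
    rw [hJ, hp]; ring
  have hl1 := lin1 (y1 := y1) (y2 := y2) hv hY
  have hl2 := lin2 (p := p) (q := q) hwv hpq
  have key : Real.sqrt 3 / 2 * ((1 + d) + (1 + d') - 2 * cs * (r * r') - 2 * (sn * S + cs * J)) =
      Real.sqrt 3 * (1 - cs) + Real.sqrt 3 * (1 - cs) * (d + d') / 2
      - Real.sqrt 3 * (cs + sn) * t ^ 2 - Real.sqrt 3 * (cs - sn) * w ^ 2
      - 2 * (Real.sqrt 3 * cs) * v ^ 2 + 2 * (Real.sqrt 3 * cs) * (t * x2)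
      + 2 * t * (Real.sqrt 3 * (cs + sn) * y2 + Real.sqrt 3 * cs * y1)
      - 2 * (Real.sqrt 3 * (cs - sn) * q + Real.sqrt 3 * cs * p) + Real.sqrt 3 * cs * M := by
    rw [hrr', hS', hJ']; ring
  rw [key]
  have hcs0 : 0 ≤ Real.sqrt 3 * cs := by linarith
  have k1 : Real.sqrt 3 * (1 - cs) * (d + d') / 2 ≤ 295092 / 10000000 * g := by
    have := mul_le_mul c1 hdd (by linarith) (by norm_num : (0 : ℝ) ≤ 590184 / 10000000)
    linarith
  have k2 : 212132 / 100000 * t ^ 2 ≤ Real.sqrt 3 * (cs + sn) * t ^ 2 :=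
    mul_le_mul_of_nonneg_right c2 (sq_nonneg t)
  have k3 : 122474 / 100000 * w ^ 2 ≤ Real.sqrt 3 * (cs - sn) * w ^ 2 :=
    mul_le_mul_of_nonneg_right c3 (sq_nonneg w)
  have k4 : 334606 / 200000 * v ^ 2 ≤ Real.sqrt 3 * cs * v ^ 2 :=
    mul_le_mul_of_nonneg_right c4 (sq_nonneg v)
  have k5 : Real.sqrt 3 * cs * (t * x2) ≤ 334608 / 200000 * (t * w) := by
    have a1 : t * x2 ≤ t * w := mul_le_mul_of_nonneg_left (abs_le.1 hx2).2 ht0
    have a2 : Real.sqrt 3 * cs * (t * x2) ≤ Real.sqrt 3 * cs * (t * w) :=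
      mul_le_mul_of_nonneg_left a1 hcs0
    have a3 : Real.sqrt 3 * cs * (t * w) ≤ 334608 / 200000 * (t * w) :=
      mul_le_mul_of_nonneg_right c5 (mul_nonneg ht0 hw)
    linarith
  have k6 : t * (Real.sqrt 3 * (cs + sn) * y2 + Real.sqrt 3 * cs * y1) ≤
      t * (2702005 / 1000000 * v) := mul_le_mul_of_nonneg_left hl1 ht0
  have k7 : Real.sqrt 3 * cs * M ≤ 334608 / 200000 * ((g + 4 * z) ^ 2 / 8) :=
    mul_le_mul c5 hM hM0 (by norm_num)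
  linarith

lemma red {t : ℝ} {r : ℕ → ℝ} {B : ℕ → ℂ} (h : Cf t r B) (k : ℕ) :
    ∃ j, (j = 0 ∨ j = 1 ∨ j = 2 ∨ j = 3) ∧ ∀ i, r (k + i) = r (j + i) ∧ B (k + i) = B (j + i) := by
  induction k using Nat.strong_induction_on with
  | _ k ih =>
    by_cases hk : k < 4
    · refine ⟨k, by omega, fun i => ⟨rfl, rfl⟩⟩
    · obtain ⟨j, hj, h1⟩ := ih (k - 4) (by omega)
      refine ⟨j, hj, fun i => ?_⟩
      have h2 : k + i = (k - 4 + i) + 4 := by omega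
      rw [h2, h.rper, h.Bper]
      exact h1 i

/-- `pC` in coordinates -/
lemma pC_re (r r' a b a' b' : ℝ) : pC r ⟨a, b⟩ r' ⟨a', b'⟩ =
    Real.sqrt 3 / 2 * ((1 + (r ^ 2 - (a ^ 2 + b ^ 2) - 1)) + (1 + (r' ^ 2 - (a' ^ 2 + b' ^ 2) - 1))
      - 2 * cs * (r * r') - 2 * (sn * (a * a' + b * b') + cs * (b * a' - a * b'))) := by
  simp only [pC, normSq_mk, e1, mul_re, mul_im, conj_re, conj_im]
  ring

end FinGCAux

open FinGCAux in
/-- (G3) -/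
theorem fin_gC {t : ℝ} {r : ℕ → ℝ} {B : ℕ → ℂ} (h : Cf t r B) {w v g : ℝ} (hb : NBox t r B w v g)
    (k : ℕ) : pC (r k) (B k) (r (k + 1)) (B (k + 1)) ≤
    5906 / 100000 - 512 / 10000 * t + 925 / 10000 * w + 15 / 100 * v + 3 / 100 * g := by
  obtain ⟨x1, x2, y1, y2, hx, hy, h0, h1, h2, h3⟩ := h.coords
  have hX : x1 ^ 2 + x2 ^ 2 = w ^ 2 := by
    rw [hb.hw, ← normSq_eq_norm_sq, hx, normSq_mk]; ring
  have hY : y1 ^ 2 + y2 ^ 2 = v ^ 2 := by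
    rw [hb.hv, ← normSq_eq_norm_sq, hy, normSq_mk]; ring
  have hs := sig_eq r B
  rw [← hb.hg] at hs
  have d0 := h.dd_nonneg 0
  have d1 := h.dd_nonneg 1
  have d2 := h.dd_nonneg 2
  have d3 := h.dd_nonneg 3
  have g0 := hb.g0
  have q0 := rsq_eq r B 0
  have q1 := rsq_eq r B 1
  have q2 := rsq_eq r B 2
  have q3 := rsq_eq r B 3
  have e0 : normSq (B 0) = (t - x1) ^ 2 + x2 ^ 2 := by rw [h0, normSq_mk]; ring
  have e1' : normSq (B 1) = (t + x1 - 2 * y2) ^ 2 + (x2 + 2 * y1) ^ 2 := by rw [h1, normSq_mk]; ring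
  have e2' : normSq (B 2) = (t - x1) ^ 2 + x2 ^ 2 := by rw [h2, normSq_mk]; ring
  have e3' : normSq (B 3) = (t + x1 + 2 * y2) ^ 2 + (x2 - 2 * y1) ^ 2 := by rw [h3, normSq_mk]; ring
  obtain ⟨j, hj, hk⟩ := red h k
  have hk0 := hk 0
  have hk1 := hk 1
  simp only [add_zero] at hk0
  rw [hk0.1, hk0.2, hk1.1, hk1.2]
  rcases hj with rfl | rfl | rfl | rfl
  · have e : pC (r 0) (B 0) (r 1) (B 1) = Real.sqrt 3 / 2 *
        ((1 + (r 0 ^ 2 - ((t - x1) ^ 2 + x2 ^ 2) - 1)) +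
        (1 + (r 1 ^ 2 - ((t + x1 - 2 * y2) ^ 2 + (x2 + 2 * y1) ^ 2) - 1)) - 2 * cs * (r 0 * r 1)
        - 2 * (sn * ((t - x1) * (t + x1 - 2 * y2) - x2 * (x2 + 2 * y1)) +
          cs * (-(x2 * (t + x1 - 2 * y2)) - (t - x1) * (x2 + 2 * y1)))) := by
      rw [h0, h1, pC_re]; ring
    show pC (r 0) (B 0) (r 1) (B 1) ≤ _
    rw [e]
    exact core (t := t) (x1 := x1) (x2 := x2) (y1 := y1) (y2 := y2)
      hb.tl hb.tu hb.w0 hb.wu hb.v0 hb.vu hb.g0 hb.gu hX hY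
      (h.one_le 0) (h.one_le 1) (by ring) (by ring) (by linarith) (by linarith) (by linarith)
      (by ring) (by ring)
  · have e : pC (r 1) (B 1) (r 2) (B 2) = Real.sqrt 3 / 2 *
        ((1 + (r 2 ^ 2 - ((t - x1) ^ 2 + x2 ^ 2) - 1)) +
        (1 + (r 1 ^ 2 - ((t + x1 - 2 * y2) ^ 2 + (x2 + 2 * y1) ^ 2) - 1)) - 2 * cs * (r 2 * r 1)
        - 2 * (sn * ((t - x1) * (t + x1 - 2 * y2) - x2 * (x2 + 2 * y1)) +
          cs * (x2 * (t + x1 - 2 * y2) + (t - x1) * (x2 + 2 * y1)))) := by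
      rw [h1, h2, pC_re]; ring
    show pC (r 1) (B 1) (r 2) (B 2) ≤ _
    rw [e]
    exact core (t := t) (x1 := x1) (x2 := -x2) (y1 := -y1) (y2 := y2)
      hb.tl hb.tu hb.w0 hb.wu hb.v0 hb.vu hb.g0 hb.gu (by rw [← hX]; ring) (by rw [← hY]; ring)
      (h.one_le 2) (h.one_le 1) (by ring) (by ring) (by linarith) (by linarith) (by linarith)
      (by ring) (by ring)
  · have e : pC (r 2) (B 2) (r 3) (B 3) = Real.sqrt 3 / 2 *
        ((1 + (r 2 ^ 2 - ((t - x1) ^ 2 + x2 ^ 2) - 1)) +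
        (1 + (r 3 ^ 2 - ((t + x1 + 2 * y2) ^ 2 + (x2 - 2 * y1) ^ 2) - 1)) - 2 * cs * (r 2 * r 3)
        - 2 * (sn * ((t - x1) * (t + x1 + 2 * y2) - x2 * (x2 - 2 * y1)) +
          cs * (-(x2 * (t + x1 + 2 * y2)) - (t - x1) * (x2 - 2 * y1)))) := by
      rw [h2, h3, pC_re]; ring
    show pC (r 2) (B 2) (r 3) (B 3) ≤ _
    rw [e]
    exact core (t := t) (x1 := x1) (x2 := x2) (y1 := -y1) (y2 := -y2)
      hb.tl hb.tu hb.w0 hb.wu hb.v0 hb.vu hb.g0 hb.gu hX (by rw [← hY]; ring)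
      (h.one_le 2) (h.one_le 3) (by ring) (by ring) (by linarith) (by linarith) (by linarith)
      (by ring) (by ring)
  · have e : pC (r 3) (B 3) (r 0) (B 0) = Real.sqrt 3 / 2 *
        ((1 + (r 0 ^ 2 - ((t - x1) ^ 2 + x2 ^ 2) - 1)) +
        (1 + (r 3 ^ 2 - ((t + x1 + 2 * y2) ^ 2 + (x2 - 2 * y1) ^ 2) - 1)) - 2 * cs * (r 0 * r 3)
        - 2 * (sn * ((t - x1) * (t + x1 + 2 * y2) - x2 * (x2 - 2 * y1)) +
          cs * (x2 * (t + x1 + 2 * y2) + (t - x1) * (x2 - 2 * y1)))) := by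
      rw [h3, h0, pC_re]; ring
    show pC (r 3) (B 3) (r 4) (B 4) ≤ _
    rw [h.r4, h.B4, e]
    exact core (t := t) (x1 := x1) (x2 := -x2) (y1 := y1) (y2 := -y2)
      hb.tl hb.tu hb.w0 hb.wu hb.v0 hb.vu hb.g0 hb.gu (by rw [← hX]; ring) (by rw [← hY]; ring)
      (h.one_le 0) (h.one_le 3) (by ring) (by ring) (by linarith) (by linarith) (by linarith)
      (by ring) (by ring)

end Rein83
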