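import Pool.Agent.Rein83.NBoxDef
import Pool.Agent.Rein83.FinS1

set_option autoImplicit false

/-! Section F, near stage, module G5: bounds of `G_0` in the final box. -/

namespace Rein83

open Complex Finset Rein69

namespace FinGG0Aux

lemma coord (r b1 b2 r' c1 c2 : ℝ) : pG0 r ⟨b1, b2⟩ r' ⟨c1, c2⟩ =
    sn * (r * r') - (cs * (b1 * c1 + b2 * c2) - sn * (b2 * c1 - b1 * c2))
      + Real.sqrt 2 * (r * (c1 - c2)) + Real.sqrt 2 * (r' * (b1 + b2)) := by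
  unfold pG0 pT pK e1 e3
  simp only [mul_re, mul_im, conj_re, conj_im, neg_im, add_re, add_im, I_re, I_im, ofReal_re,
    ofReal_im]
  ring

/-- the three consecutive `B` in coordinates -/
theorem types {t : ℝ} {r : ℕ → ℝ} {B : ℕ → ℂ} (h : Cf t r B) {w v : ℝ} (hw : w = ‖cx t B‖)
    (hv : v = ‖cy B‖) : ∃ x1 x2 : ℝ, w ^ 2 = x1 ^ 2 + x2 ^ 2 ∧ ∀ k : ℕ, ∃ y1 y2 : ℝ,
      v ^ 2 = y1 ^ 2 + y2 ^ 2 ∧
      ((B k = ⟨t - x1, -x2⟩ ∧ B (k + 1) = ⟨t + x1 - 2 * y2, x2 + 2 * y1⟩ ∧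
          B (k + 2) = ⟨t - x1, -x2⟩) ∨
       (B k = ⟨t + x1 - 2 * y2, x2 + 2 * y1⟩ ∧ B (k + 1) = ⟨t - x1, -x2⟩ ∧
          B (k + 2) = ⟨t + x1 + 2 * y2, x2 - 2 * y1⟩)) := by
  obtain ⟨x1, x2, y1, y2, hx, hy, h0, h1, h2, h3⟩ := h.coords
  have hw2 : w ^ 2 = x1 ^ 2 + x2 ^ 2 := by
    rw [hw, ← normSq_eq_norm_sq, hx, normSq_mk]
    ring
  have hv2 : v ^ 2 = y1 ^ 2 + y2 ^ 2 := by
    rw [hv, ← normSq_eq_norm_sq, hy, normSq_mk]
    ring
  have h4 : B 4 = B 0 := h.Bper 0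
  have h5 : B 5 = B 1 := h.Bper 1
  refine ⟨x1, x2, hw2, fun k => ?_⟩
  induction k using Nat.strong_induction_on with
  | _ k ih =>
    by_cases hk : k < 4
    · interval_cases k
      · exact ⟨y1, y2, hv2, Or.inl ⟨h0, h1, h2⟩⟩
      · exact ⟨y1, y2, hv2, Or.inr ⟨h1, h2, h3⟩⟩
      · refine ⟨-y1, -y2, by rw [hv2]; ring, Or.inl ⟨h2, ?_, ?_⟩⟩
        · rw [h3]
          congr 1 <;> ring
        · rw [h4, h0]
      · refine ⟨-y1, -y2, by rw [hv2]; ring, Or.inr ⟨?_, ?_, ?_⟩⟩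
        · rw [h3]
          congr 1 <;> ring
        · rw [h4, h0]
        · rw [h5, h1]
          congr 1 <;> ring
    · obtain ⟨z1, z2, hz, hz'⟩ := ih (k - 4) (by omega)
      refine ⟨z1, z2, hz, ?_⟩
      have e0 : B k = B (k - 4) := by
        have := h.Bper (k - 4)
        rwa [show k - 4 + 4 = k by omega] at this
      have e1 : B (k + 1) = B (k - 4 + 1) := by
        have := h.Bper (k - 4 + 1)
        rwa [show k - 4 + 1 + 4 = k + 1 by omega] at this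
      have e2 : B (k + 2) = B (k - 4 + 2) := by
        have := h.Bper (k - 4 + 2)
        rwa [show k - 4 + 2 + 4 = k + 2 by omega] at this
      rw [e0, e1, e2]
      exact hz'

theorem dd_le {t : ℝ} {r : ℕ → ℝ} {B : ℕ → ℂ} (h : Cf t r B) (k : ℕ) : dd r B k ≤ sig r B := by
  induction k using Nat.strong_induction_on with
  | _ k ih =>
    by_cases hk : k < 4
    · rw [sig_eq]
      have h0 := h.dd_nonneg 0
      have h1 := h.dd_nonneg 1
      have h2 := h.dd_nonneg 2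
      have h3 := h.dd_nonneg 3
      interval_cases k <;> linarith
    · have h1 := ih (k - 4) (by omega)
      have e0 : B k = B (k - 4) := by
        have := h.Bper (k - 4)
        rwa [show k - 4 + 4 = k by omega] at this
      have e1 : r k = r (k - 4) := by
        have := h.rper (k - 4)
        rwa [show k - 4 + 4 = k by omega] at this
      have e2 : dd r B k = dd r B (k - 4) := by
        unfold dd
        rw [e0, e1]
      rw [e2]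
      exact h1

/-- the bounds of all coordinates -/
structure Bx (t x1 x2 y1 y2 w v : ℝ) : Prop where
  tl : 2438 / 100000 ≤ t
  tu : t ≤ 2752 / 100000
  w0 : 0 ≤ w
  wu : w ≤ 132 / 10000
  v0 : 0 ≤ v
  vu : v ≤ 5 / 1000
  w2 : w ^ 2 = x1 ^ 2 + x2 ^ 2
  v2 : v ^ 2 = y1 ^ 2 + y2 ^ 2

section real
variable {t x1 x2 y1 y2 w v : ℝ} (hb : Bx t x1 x2 y1 y2 w v)
include hb

lemma Bx.ax1 : |x1| ≤ w := abs_le_of_sq_le_sq (by nlinarith [hb.w2, sq_nonneg x2]) hb.w0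
lemma Bx.ax2 : |x2| ≤ w := abs_le_of_sq_le_sq (by nlinarith [hb.w2, sq_nonneg x1]) hb.w0
lemma Bx.ay1 : |y1| ≤ v := abs_le_of_sq_le_sq (by nlinarith [hb.v2, sq_nonneg y2]) hb.v0
lemma Bx.ay2 : |y2| ≤ v := abs_le_of_sq_le_sq (by nlinarith [hb.v2, sq_nonneg y1]) hb.v0

/-- `x1 - x2` and `x1 + x2` -/
lemma Bx.xm : |x1 - x2| ≤ 141422 / 100000 * w := by
  apply abs_le_of_sq_le_sq _ (by have := hb.w0; positivity)
  nlinarith [hb.w2, sq_nonneg (x1 + x2), sq_nonneg w]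
lemma Bx.xp : |x1 + x2| ≤ 141422 / 100000 * w := by
  apply abs_le_of_sq_le_sq _ (by have := hb.w0; positivity)
  nlinarith [hb.w2, sq_nonneg (x1 - x2), sq_nonneg w]
lemma Bx.yp : |y1 + y2| ≤ 141422 / 100000 * v := by
  apply abs_le_of_sq_le_sq _ (by have := hb.v0; positivity)
  nlinarith [hb.v2, sq_nonneg (y1 - y2), sq_nonneg v]
lemma Bx.ym : |y1 - y2| ≤ 141422 / 100000 * v := by
  apply abs_le_of_sq_le_sq _ (by have := hb.v0; positivity)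
  nlinarith [hb.v2, sq_nonneg (y1 + y2), sq_nonneg v]

lemma Bx.Z : |x1 * y2 - x2 * y1| ≤ w * v := by
  apply abs_le_of_sq_le_sq _ (mul_nonneg hb.w0 hb.v0)
  rw [mul_pow, hb.w2, hb.v2]
  nlinarith [sq_nonneg (x1 * y1 + x2 * y2)]
lemma Bx.U : |x1 * y1 + x2 * y2| ≤ w * v := by
  apply abs_le_of_sq_le_sq _ (mul_nonneg hb.w0 hb.v0)
  rw [mul_pow, hb.w2, hb.v2]
  nlinarith [sq_nonneg (x1 * y2 - x2 * y1)]

lemma Bx.ZU : 2448455 / 1000000 * (x1 * y2 - x2 * y1) - 517639 / 1000000 * (x1 * y1 + x2 * y2) ≤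
    25026 / 10000 * (w * v) := by
  apply abs_le_of_sq_le_sq' _ (by have := mul_nonneg hb.w0 hb.v0; positivity) |>.2
  have h1 : (w * v) ^ 2 = (x1 * y2 - x2 * y1) ^ 2 + (x1 * y1 + x2 * y2) ^ 2 := by
    rw [mul_pow, hb.w2, hb.v2]
    ring
  have h2 := sq_nonneg (517639 / 1000000 * (x1 * y2 - x2 * y1)
    + 2448455 / 1000000 * (x1 * y1 + x2 * y2))
  have h3 := sq_nonneg (x1 * y2 - x2 * y1)
  have h4 := sq_nonneg (x1 * y1 + x2 * y2)
  rw [mul_pow, h1]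
  nlinarith

lemma Bx.Y : (2828427 / 1000000 + 517639 / 1000000 * t) * y1
    + (2828427 / 1000000 - 14152486 / 10000000 * t) * y2 ≤ (4 - 6 / 10 * t) * v := by
  have ht0 := hb.tl
  have ht1 := hb.tu
  apply abs_le_of_sq_le_sq' _ (mul_nonneg (by linarith) hb.v0) |>.2
  have h1 := sq_nonneg ((2828427 / 1000000 - 14152486 / 10000000 * t) * y1
    - (2828427 / 1000000 + 517639 / 1000000 * t) * y2)
  have h2 : (2828427 / 1000000 + 517639 / 1000000 * t) ^ 2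
      + (2828427 / 1000000 - 14152486 / 10000000 * t) ^ 2 ≤ (4 - 6 / 10 * t) ^ 2 := by nlinarith
  have h3 := mul_le_mul_of_nonneg_right h2 (sq_nonneg v)
  rw [mul_pow]
  nlinarith [hb.v2]

/-- squares of the absolute values -/
lemma Bx.b0 : (t - x1) ^ 2 + x2 ^ 2 ≤ 166 / 100000 := by
  have h1 := abs_le.1 hb.ax1
  have h2 := hb.tl
  have h3 := hb.tu
  have h4 := hb.wu
  have h5 := hb.w0
  have h6 : (t - x1) ^ 2 + x2 ^ 2 = t ^ 2 - 2 * t * x1 + w ^ 2 := by rw [hb.w2]; ring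
  have h7 : -(t * w) ≤ t * x1 := by nlinarith
  have h8 : (t + w) ^ 2 ≤ (4072 / 100000) ^ 2 := pow_le_pow_left₀ (by linarith) (by linarith) 2
  rw [h6]
  nlinarith

lemma Bx.b1 : (t + x1 - 2 * y2) ^ 2 + (x2 + 2 * y1) ^ 2 ≤ 258 / 100000 := by
  have h1 := abs_le.1 hb.ax1
  have h1' := abs_le.1 hb.ay2
  have h2 := hb.tl
  have h3 := hb.tu
  have h4 := hb.wu
  have h5 := hb.w0
  have h5' := hb.v0
  have hv := hb.vu
  have hZ := abs_le.1 hb.Z
  have h6 : (t + x1 - 2 * y2) ^ 2 + (x2 + 2 * y1) ^ 2 =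
      t ^ 2 + 2 * t * x1 + w ^ 2 + 4 * v ^ 2 - 4 * t * y2 - 4 * (x1 * y2 - x2 * y1) := by
    rw [hb.w2, hb.v2]; ring
  have h7 : t * x1 ≤ t * w := mul_le_mul_of_nonneg_left h1.2 (by linarith)
  have h7' : -(t * v) ≤ t * y2 := by nlinarith
  have h8 : (t + w + 2 * v) ^ 2 ≤ (5072 / 100000) ^ 2 :=
    pow_le_pow_left₀ (by linarith) (by linarith) 2
  rw [h6]
  linarith only [h7, h7', h8, hZ.1]

end real

lemma low {r b : ℝ} (hr : 1 ≤ r) (h : 1 ≤ r ^ 2 - b) (_hb0 : 0 ≤ b) (hb : b ≤ 8 / 1000) :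
    1 + 499 / 1000 * b ≤ r := by
  by_contra hcon
  push Not at hcon
  have h1 : r ^ 2 < (1 + 499 / 1000 * b) ^ 2 := pow_lt_pow_left₀ hcon (by linarith) (by norm_num)
  nlinarith

/-- replacing the radii by their lower bounds -/
lemma repl {s q r r' a a' p p' : ℝ} (hr : a ≤ r) (hr' : a' ≤ r') (ha : 1 ≤ a) (ha' : 1 ≤ a')
    (hs : 0 ≤ s) (h1 : 0 ≤ s + q * p) (h2 : 0 ≤ s + q * p') :
    s * (a * a') + q * (a * p) + q * (a' * p') ≤ s * (r * r') + q * (r * p) + q * (r' * p') := by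
  have e1 := mul_nonneg (sub_nonneg.2 hr) h1
  have e2 := mul_nonneg (sub_nonneg.2 hr') h2
  have e3 : 0 ≤ s * ((r - a) * (r' - a')) :=
    mul_nonneg hs (mul_nonneg (sub_nonneg.2 hr) (sub_nonneg.2 hr'))
  have e4 : 0 ≤ s * ((r - a) * (a' - 1)) :=
    mul_nonneg hs (mul_nonneg (sub_nonneg.2 hr) (sub_nonneg.2 ha'))
  have e5 : 0 ≤ s * ((r' - a') * (a - 1)) :=
    mul_nonneg hs (mul_nonneg (sub_nonneg.2 hr') (sub_nonneg.2 ha))
  linarith [show s * (r * r') + q * (r * p) + q * (r' * p')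
    - (s * (a * a') + q * (a * p) + q * (a' * p')) = (r - a) * (s + q * p) + (r' - a') * (s + q * p')
      + s * ((r - a) * (r' - a')) + s * ((r - a) * (a' - 1)) + s * ((r' - a') * (a - 1)) by ring]

/-- product with a number known approximately -/
lemma approx {c c₀ e m M : ℝ} (h1 : c₀ - e ≤ c) (h2 : c ≤ c₀ + e) (hm : |m| ≤ M) :
    c₀ * m - e * M ≤ c * m ∧ c * m ≤ c₀ * m + e * M := by
  have he : 0 ≤ e := by linarith
  have h3 : |(c - c₀) * m| ≤ e * M := by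
    rw [abs_mul]
    exact mul_le_mul (abs_le.2 ⟨by linarith, by linarith⟩) hm (abs_nonneg _) he
  have h4 := abs_le.1 h3
  constructor <;> linarith [h4.1, h4.2]

/-- the polynomial in the single bound -/
lemma hwv {w v : ℝ} (hv0 : 0 ≤ v) (hv : v ≤ 5 / 1000) :
    0 ≤ 17 / 100000 + 1224226 / 1000000 * w ^ 2 - 142456 / 10000000 * w + 14628 / 1000000 * v
      - 25026 / 10000 * (w * v) + 516603 / 1000000 * v ^ 2 := by
  have h0 : 0 ≤ 17 / 100000 + 1224226 / 1000000 * w ^ 2 - 142456 / 10000000 * w := by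
    nlinarith [sq_nonneg (w - 142456 / 10000000 / (2 * (1224226 / 1000000)))]
  have h1 : 0 ≤ 17 / 100000 + 1224226 / 1000000 * w ^ 2 - 142456 / 10000000 * w
      + 14628 / 1000000 * (5 / 1000) - 25026 / 10000 * (5 / 1000) * w := by
    nlinarith [sq_nonneg (w - (142456 / 10000000 + 25026 / 10000 * (5 / 1000))
      / (2 * (1224226 / 1000000)))]
  nlinarith [mul_nonneg hv0 h1, mul_nonneg (sub_nonneg.2 hv) h0, sq_nonneg v]

/-- (1) the lower bound of a single `G_0` -/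
lemma single {t x1 x2 y1 y2 w v r r' : ℝ} (hb : Bx t x1 x2 y1 y2 w v) (hr : 1 ≤ r) (hr' : 1 ≤ r')
    (hD : 1 ≤ r ^ 2 - ((t - x1) ^ 2 + x2 ^ 2))
    (hD' : 1 ≤ r' ^ 2 - ((t + x1 - 2 * y2) ^ 2 + (x2 + 2 * y1) ^ 2)) :
    2581 / 10000 + 28285 / 10000 * t - 28285 / 10000 * w - 4 * v ≤
      sn * (r * r') - (cs * ((t - x1) * (t + x1 - 2 * y2) + (-x2) * (x2 + 2 * y1))
        - sn * ((-x2) * (t + x1 - 2 * y2) - (t - x1) * (x2 + 2 * y1)))
      + Real.sqrt 2 * (r * ((t + x1 - 2 * y2) - (x2 + 2 * y1)))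
      + Real.sqrt 2 * (r' * ((t - x1) + -x2)) := by
  have ht0 := hb.tl
  have ht1 := hb.tu
  have hw0 := hb.w0
  have hw1 := hb.wu
  have hv0 := hb.v0
  have hv1 := hb.vu
  have hs1 := sn_ge
  have hs2 := sn_le
  have hc1 := cs_ge
  have hc2 := cs_le
  have hq1 := sqrt2_ge
  have hq2 := sqrt2_le
  obtain ⟨b, hbd⟩ : ∃ b, b = (t - x1) ^ 2 + x2 ^ 2 := ⟨_, rfl⟩
  obtain ⟨b', hbd'⟩ : ∃ b, b = (t + x1 - 2 * y2) ^ 2 + (x2 + 2 * y1) ^ 2 := ⟨_, rfl⟩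
  rw [← hbd] at hD
  rw [← hbd'] at hD'
  have hb0 : 0 ≤ b := by rw [hbd]; positivity
  have hb0' : 0 ≤ b' := by rw [hbd']; positivity
  have hb1 : b ≤ 166 / 100000 := by rw [hbd]; exact hb.b0
  have hb1' : b' ≤ 258 / 100000 := by rw [hbd']; exact hb.b1
  have hL := low hr hD hb0 (by linarith)
  have hL' := low hr' hD' hb0' (by linarith)
  obtain ⟨p, hp⟩ : ∃ p, p = (t + x1 - 2 * y2) - (x2 + 2 * y1) := ⟨_, rfl⟩
  obtain ⟨p', hp'⟩ : ∃ p, p = (t - x1) + -x2 := ⟨_, rfl⟩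
  have hxm := abs_le.1 hb.xm
  have hxp := abs_le.1 hb.xp
  have hyp := abs_le.1 hb.yp
  have hx1 := abs_le.1 hb.ax1
  have hx2 := abs_le.1 hb.ax2
  have hy1 := abs_le.1 hb.ay1
  have hy2 := abs_le.1 hb.ay2
  have hpl : -(844 / 100000) ≤ p := by rw [hp]; linarith
  have hpu : p ≤ 8 / 100 := by rw [hp]; linarith
  have hpl' : 0 ≤ p' := by rw [hp']; linarith
  have hpu' : p' ≤ 8 / 100 := by rw [hp']; linarith
  have hqp : -(1194 / 100000) ≤ Real.sqrt 2 * p := by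
    have j1 := mul_le_mul_of_nonneg_left hpl (Real.sqrt_nonneg 2)
    linarith
  have hqp' : 0 ≤ Real.sqrt 2 * p' := by positivity
  have hrepl := repl (s := sn) (q := Real.sqrt 2) (p := p) (p' := p') hL hL'
    (by linarith) (by linarith) sn_pos.le (by linarith) (by linarith)
  rw [← hp, ← hp']
  -- the products with the constants
  obtain ⟨M, hM⟩ : ∃ M, M = (t - x1) * (t + x1 - 2 * y2) + (-x2) * (x2 + 2 * y1) := ⟨_, rfl⟩
  obtain ⟨N, hN⟩ : ∃ M, M = (-x2) * (t + x1 - 2 * y2) - (t - x1) * (x2 + 2 * y1) := ⟨_, rfl⟩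
  have hZ := hb.Z
  have hU := hb.U
  have hZ' := abs_le.1 hZ
  have hU' := abs_le.1 hU
  have hwv0 : 0 ≤ w * v := mul_nonneg hw0 hv0
  have hwv1 : w * v ≤ 132 / 10000 * (5 / 1000) := mul_le_mul hw1 hv1 hv0 (by norm_num)
  have hMeq : M = t ^ 2 - w ^ 2 - 2 * t * y2 + 2 * (x1 * y2 - x2 * y1) := by
    rw [hM, hb.w2]; ring
  have hNeq : N = -2 * t * x2 - 2 * t * y1 + 2 * (x1 * y1 + x2 * y2) := by
    rw [hN]; ring
  have htx2 : |t * x2| ≤ 1 / 1000 := by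
    rw [abs_mul, abs_of_nonneg (by linarith : (0 : ℝ) ≤ t)]
    have := mul_le_mul ht1 hb.ax2 (abs_nonneg _) (by norm_num)
    linarith
  have hty1 : |t * y1| ≤ 1 / 1000 := by
    rw [abs_mul, abs_of_nonneg (by linarith : (0 : ℝ) ≤ t)]
    have := mul_le_mul ht1 hb.ay1 (abs_nonneg _) (by norm_num)
    linarith
  have hty2 : |t * y2| ≤ 1 / 1000 := by
    rw [abs_mul, abs_of_nonneg (by linarith : (0 : ℝ) ≤ t)]
    have := mul_le_mul ht1 hb.ay2 (abs_nonneg _) (by norm_num)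
    linarith
  have htx2' := abs_le.1 htx2
  have hty1' := abs_le.1 hty1
  have hty2' := abs_le.1 hty2
  have ht2 : t ^ 2 ≤ 2752 / 100000 * t := by
    rw [sq]
    exact mul_le_mul_of_nonneg_right ht1 (by linarith)
  have hw2 : w ^ 2 ≤ 132 / 10000 * w := by
    rw [sq]
    exact mul_le_mul_of_nonneg_right hw1 hw0
  have ht2' := sq_nonneg t
  have hw2' := sq_nonneg w
  have hMb : |M| ≤ 1 / 100 := by
    rw [abs_le, hMeq]
    constructor <;> linarith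
  have hNb : |N| ≤ 1 / 100 := by
    rw [abs_le, hNeq]
    constructor <;> linarith
  have hcM := (approx (c := cs) (c₀ := 9659258 / 10000000) (e := 1 / 10000000) (by linarith)
    (by linarith) hMb).2
  have hsN := (approx (c := sn) (c₀ := 2588195 / 10000000) (e := 1 / 1000000) (by linarith)
    (by linarith) hNb).1
  have hqL := (approx (c := Real.sqrt 2) (c₀ := 14142135 / 10000000) (e := 1 / 10000000)
    (m := p + p') (M := 2 / 10) (by linarith) (by linarith) (by rw [abs_le]; constructor <;> linarith)).1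
  -- lower bounds
  have i1 : 258819 / 1000000 * (1 + 499 / 1000 * (b + b')) ≤
      sn * ((1 + 499 / 1000 * b) * (1 + 499 / 1000 * b')) := by
    have j1 : 1 + 499 / 1000 * (b + b') ≤ (1 + 499 / 1000 * b) * (1 + 499 / 1000 * b') := by
      linarith [mul_nonneg hb0 hb0',
        show (1 + 499 / 1000 * b) * (1 + 499 / 1000 * b') = 1 + 499 / 1000 * (b + b')
          + (499 / 1000) ^ 2 * (b * b') by ring]
    exact mul_le_mul hs1 j1 (by positivity) sn_pos.le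
  have i2 : -(1 / 100000) ≤ Real.sqrt 2 * p * (499 / 1000 * b) := by
    have j1 := mul_le_mul_of_nonneg_right hqp (by positivity : (0 : ℝ) ≤ 499 / 1000 * b)
    linarith
  have i3 : 0 ≤ Real.sqrt 2 * p' * (499 / 1000 * b') := by positivity
  have hbb : b + b' = 2 * t ^ 2 + 2 * w ^ 2 + 4 * v ^ 2 - 4 * (t * y2)
      - 4 * (x1 * y2 - x2 * y1) := by
    rw [hbd, hbd', hb.w2, hb.v2]; ring
  have hpp : p + p' = 2 * t - 2 * x2 - 2 * (y1 + y2) := by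
    rw [hp, hp']; ring
  have hZU := hb.ZU
  have hY := hb.Y
  have hX : (2828427 / 1000000 + 517639 / 1000000 * t) * x2 ≤
      (2828427 / 1000000 + 517639 / 1000000 * t) * w :=
    mul_le_mul_of_nonneg_left hx2.2 (by linarith)
  have hh := hwv (w := w) hv0 hv1
  have htw : t * w ≤ 2752 / 100000 * w := mul_le_mul_of_nonneg_right ht1 hw0
  have htv : 2438 / 100000 * v ≤ t * v := mul_le_mul_of_nonneg_right ht0 hv0
  rw [hbb] at i1
  rw [hMeq] at hcM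
  rw [hNeq] at hsN
  rw [← hM, ← hN, hMeq, hNeq]
  linarith [hrepl, i1, i2, i3, hcM, hsN, hqL, hZU, hY, hX, hh, ht2, htw, htv, hpp]

/-- replacing the radii by their lower bounds, three nodes -/
lemma repl3 {s q r0 r1 r2 a0 a1 a2 p0 p1 p2 : ℝ} (h0 : a0 ≤ r0) (h1 : a1 ≤ r1) (h2 : a2 ≤ r2)
    (ha0 : 1 ≤ a0) (ha1 : 1 ≤ a1) (ha2 : 1 ≤ a2)
    (hs : 0 ≤ s) (g0 : 0 ≤ s + q * p0) (g1 : 0 ≤ s + q * p1) (g2 : 0 ≤ s + q * p2) :
    s * (a1 * (a0 + a2)) + q * (a0 * p0) + q * (a1 * p1) + q * (a2 * p2) ≤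
      s * (r1 * (r0 + r2)) + q * (r0 * p0) + q * (r1 * p1) + q * (r2 * p2) := by
  have e0 := mul_nonneg (sub_nonneg.2 h0) g0
  have e1 := mul_nonneg (sub_nonneg.2 h1) g1
  have e2 := mul_nonneg (sub_nonneg.2 h2) g2
  have f1 : 0 ≤ s * ((r1 - a1) * (r0 - 1)) :=
    mul_nonneg hs (mul_nonneg (sub_nonneg.2 h1) (by linarith))
  have f2 : 0 ≤ s * ((r1 - a1) * r2) :=
    mul_nonneg hs (mul_nonneg (sub_nonneg.2 h1) (by linarith))
  have f3 : 0 ≤ s * ((a1 - 1) * (r0 - a0)) :=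
    mul_nonneg hs (mul_nonneg (by linarith) (sub_nonneg.2 h0))
  have f4 : 0 ≤ s * ((a1 - 1) * (r2 - a2)) :=
    mul_nonneg hs (mul_nonneg (by linarith) (sub_nonneg.2 h2))
  linarith [show s * (r1 * (r0 + r2)) + q * (r0 * p0) + q * (r1 * p1) + q * (r2 * p2)
    - (s * (a1 * (a0 + a2)) + q * (a0 * p0) + q * (a1 * p1) + q * (a2 * p2)) =
      (r0 - a0) * (s + q * p0) + (r1 - a1) * (s + q * p1) + (r2 - a2) * (s + q * p2)
      + s * ((r1 - a1) * (r0 - 1)) + s * ((r1 - a1) * r2) + s * ((a1 - 1) * (r0 - a0))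
      + s * ((a1 - 1) * (r2 - a2)) by ring]

/-- (3) two consecutive `G_0`, even `k` -/
lemma pairE {t x1 x2 y1 y2 w v r0 r1 r2 : ℝ} (hb : Bx t x1 x2 y1 y2 w v) (hr0 : 1 ≤ r0)
    (hr1 : 1 ≤ r1) (hr2 : 1 ≤ r2) (hD0 : 1 ≤ r0 ^ 2 - ((t - x1) ^ 2 + x2 ^ 2))
    (hD1 : 1 ≤ r1 ^ 2 - ((t + x1 - 2 * y2) ^ 2 + (x2 + 2 * y1) ^ 2))
    (hD2 : 1 ≤ r2 ^ 2 - ((t - x1) ^ 2 + x2 ^ 2)) :
    5165 / 10000 + 565 / 100 * (t - v) ≤
      sn * (r1 * (r0 + r2)) + Real.sqrt 2 * (r0 * ((t + x1 - 2 * y2) - (x2 + 2 * y1)))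
      + Real.sqrt 2 * (r1 * (2 * (t - x1)))
      + Real.sqrt 2 * (r2 * ((t + x1 - 2 * y2) + (x2 + 2 * y1)))
      - 2 * (cs * ((t - x1) * (t + x1 - 2 * y2) + (-x2) * (x2 + 2 * y1))) := by
  have ht0 := hb.tl
  have ht1 := hb.tu
  have hw0 := hb.w0
  have hw1 := hb.wu
  have hv0 := hb.v0
  have hv1 := hb.vu
  have hs1 := sn_ge
  have hc1 := cs_ge
  have hc2 := cs_le
  have hq1 := sqrt2_ge
  have hq2 := sqrt2_le
  obtain ⟨b, hbd⟩ : ∃ b, b = (t - x1) ^ 2 + x2 ^ 2 := ⟨_, rfl⟩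
  obtain ⟨b', hbd'⟩ : ∃ b, b = (t + x1 - 2 * y2) ^ 2 + (x2 + 2 * y1) ^ 2 := ⟨_, rfl⟩
  rw [← hbd] at hD0 hD2
  rw [← hbd'] at hD1
  have hb0 : 0 ≤ b := by rw [hbd]; positivity
  have hb0' : 0 ≤ b' := by rw [hbd']; positivity
  have hb1 : b ≤ 166 / 100000 := by rw [hbd]; exact hb.b0
  have hb1' : b' ≤ 258 / 100000 := by rw [hbd']; exact hb.b1
  have hL0 := low hr0 hD0 hb0 (by linarith)
  have hL1 := low hr1 hD1 hb0' (by linarith)
  have hL2 := low hr2 hD2 hb0 (by linarith)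
  obtain ⟨p0, hp0⟩ : ∃ p, p = (t + x1 - 2 * y2) - (x2 + 2 * y1) := ⟨_, rfl⟩
  obtain ⟨p2, hp2⟩ : ∃ p, p = (t + x1 - 2 * y2) + (x2 + 2 * y1) := ⟨_, rfl⟩
  obtain ⟨p1, hp1⟩ : ∃ p, p = 2 * (t - x1) := ⟨_, rfl⟩
  have hxm := abs_le.1 hb.xm
  have hxp := abs_le.1 hb.xp
  have hyp := abs_le.1 hb.yp
  have hym := abs_le.1 hb.ym
  have hx1 := abs_le.1 hb.ax1
  have hx2 := abs_le.1 hb.ax2
  have hy1 := abs_le.1 hb.ay1
  have hy2 := abs_le.1 hb.ay2
  have hpl0 : -(844 / 100000) ≤ p0 := by rw [hp0]; linarith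
  have hpl2 : -(844 / 100000) ≤ p2 := by rw [hp2]; linarith
  have hpl1 : 0 ≤ p1 := by rw [hp1]; linarith
  have hps : 0 ≤ p0 + p2 := by rw [hp0, hp2]; linarith
  have hq0 := Real.sqrt_nonneg 2
  have g0 := mul_le_mul_of_nonneg_left hpl0 hq0
  have g2 := mul_le_mul_of_nonneg_left hpl2 hq0
  have g1 : 0 ≤ Real.sqrt 2 * p1 := mul_nonneg hq0 hpl1
  have hrepl := repl3 (s := sn) (q := Real.sqrt 2) (p0 := p0) (p1 := p1) (p2 := p2) hL0 hL1 hL2
    (by linarith) (by linarith) (by linarith) sn_pos.le (by linarith) (by linarith) (by linarith)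
  rw [← hp0, ← hp1, ← hp2]
  obtain ⟨M, hM⟩ : ∃ M, M = (t - x1) * (t + x1 - 2 * y2) + (-x2) * (x2 + 2 * y1) := ⟨_, rfl⟩
  have hZ' := abs_le.1 hb.Z
  have hwv0 : 0 ≤ w * v := mul_nonneg hw0 hv0
  have hwv1 : w * v ≤ 132 / 10000 * (5 / 1000) := mul_le_mul hw1 hv1 hv0 (by norm_num)
  have hMeq : M = t ^ 2 - w ^ 2 - 2 * t * y2 + 2 * (x1 * y2 - x2 * y1) := by
    rw [hM, hb.w2]; ring
  have hty2 : |t * y2| ≤ 1 / 1000 := by
    rw [abs_mul, abs_of_nonneg (by linarith : (0 : ℝ) ≤ t)]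
    have := mul_le_mul ht1 hb.ay2 (abs_nonneg _) (by norm_num)
    linarith
  have hty2' := abs_le.1 hty2
  have ht2 : t ^ 2 ≤ 2752 / 100000 * t := by
    rw [sq]
    exact mul_le_mul_of_nonneg_right ht1 (by linarith)
  have hw2 : w ^ 2 ≤ 132 / 10000 * w := by
    rw [sq]
    exact mul_le_mul_of_nonneg_right hw1 hw0
  have ht2' := sq_nonneg t
  have hw2' := sq_nonneg w
  have hMb : |M| ≤ 1 / 100 := by
    rw [abs_le, hMeq]
    constructor <;> linarith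
  have hcM := (approx (c := cs) (c₀ := 9659258 / 10000000) (e := 1 / 10000000) (by linarith)
    (by linarith) hMb).2
  have i1 : 258819 / 1000000 * (2 * (1 + 499 / 1000 * (b + b'))) ≤
      sn * ((1 + 499 / 1000 * b') * ((1 + 499 / 1000 * b) + (1 + 499 / 1000 * b))) := by
    have j1 : 2 * (1 + 499 / 1000 * (b + b')) ≤
        (1 + 499 / 1000 * b') * ((1 + 499 / 1000 * b) + (1 + 499 / 1000 * b)) := by
      linarith [mul_nonneg hb0 hb0',
        show (1 + 499 / 1000 * b') * ((1 + 499 / 1000 * b) + (1 + 499 / 1000 * b))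
          = 2 * (1 + 499 / 1000 * (b + b')) + 2 * (499 / 1000) ^ 2 * (b * b') by ring]
    exact mul_le_mul hs1 j1 (by positivity) sn_pos.le
  have i2 : 0 ≤ Real.sqrt 2 * ((499 / 1000 * b) * (p0 + p2)) :=
    mul_nonneg hq0 (mul_nonneg (by positivity) hps)
  have i3 : 0 ≤ Real.sqrt 2 * ((499 / 1000 * b') * p1) :=
    mul_nonneg hq0 (mul_nonneg (by positivity) hpl1)
  have hqL : 14142135 / 10000000 * (p0 + p1 + p2) ≤ Real.sqrt 2 * (p0 + p1 + p2) :=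
    mul_le_mul_of_nonneg_right hq1 (by linarith)
  have hbb : b + b' = 2 * t ^ 2 + 2 * w ^ 2 + 4 * v ^ 2 - 4 * (t * y2)
      - 4 * (x1 * y2 - x2 * y1) := by
    rw [hbd, hbd', hb.w2, hb.v2]; ring
  have hpp : p0 + p1 + p2 = 4 * t - 4 * y2 := by
    rw [hp0, hp1, hp2]; ring
  have hY : (5656854 / 1000000 - 283 / 100 * t) * y2 ≤ (5656854 / 1000000 - 283 / 100 * t) * v :=
    mul_le_mul_of_nonneg_left hy2.2 (by linarith)
  have htv : 2438 / 100000 * v ≤ t * v := mul_le_mul_of_nonneg_right ht0 hv0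
  have hv2 : v ^ 2 ≤ 5 / 1000 * v := by
    rw [sq]
    exact mul_le_mul_of_nonneg_right hv1 hv0
  have hsq := sq_nonneg (w - v)
  rw [hbb] at i1
  rw [hMeq] at hcM
  rw [← hM, hMeq]
  have htl2 : 2438 / 100000 * t ≤ t ^ 2 := by
    rw [sq]
    exact mul_le_mul_of_nonneg_right ht0 (by linarith)
  linarith [hrepl, i1, i2, i3, hcM, hqL, hY, ht2, htv, hpp, hsq, hv2, htl2, hty2'.1, hty2'.2]

/-- (3) two consecutive `G_0`, odd `k` -/
lemma pairO {t x1 x2 y1 y2 w v r0 r1 r2 : ℝ} (hb : Bx t x1 x2 y1 y2 w v) (hr0 : 1 ≤ r0)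
    (hr1 : 1 ≤ r1) (hr2 : 1 ≤ r2)
    (hD0 : 1 ≤ r0 ^ 2 - ((t + x1 - 2 * y2) ^ 2 + (x2 + 2 * y1) ^ 2))
    (hD1 : 1 ≤ r1 ^ 2 - ((t - x1) ^ 2 + x2 ^ 2))
    (hD2 : 1 ≤ r2 ^ 2 - ((t + x1 + 2 * y2) ^ 2 + (x2 - 2 * y1) ^ 2)) :
    5165 / 10000 + 565 / 100 * (t - v) ≤
      sn * (r1 * (r0 + r2)) + Real.sqrt 2 * (r0 * ((t - x1) - -x2))
      + Real.sqrt 2 * (r1 * (2 * t + 2 * x1 + 4 * y1))
      + Real.sqrt 2 * (r2 * ((t - x1) + -x2))
      - cs * (2 * (t ^ 2 - w ^ 2)) + sn * (4 * (t * y1) - 4 * (x1 * y1 + x2 * y2)) := by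
  have ht0 := hb.tl
  have ht1 := hb.tu
  have hw0 := hb.w0
  have hw1 := hb.wu
  have hv0 := hb.v0
  have hv1 := hb.vu
  have hs1 := sn_ge
  have hs2 := sn_le
  have hc1 := cs_ge
  have hc2 := cs_le
  have hq1 := sqrt2_ge
  have hq2 := sqrt2_le
  have hb' : Bx t x1 x2 (-y1) (-y2) w v := ⟨ht0, ht1, hw0, hw1, hv0, hv1, hb.w2, by
    rw [hb.v2]; ring⟩
  obtain ⟨b, hbd⟩ : ∃ b, b = (t - x1) ^ 2 + x2 ^ 2 := ⟨_, rfl⟩
  obtain ⟨b0, hbd0⟩ : ∃ b, b = (t + x1 - 2 * y2) ^ 2 + (x2 + 2 * y1) ^ 2 := ⟨_, rfl⟩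
  obtain ⟨b2, hbd2⟩ : ∃ b, b = (t + x1 + 2 * y2) ^ 2 + (x2 - 2 * y1) ^ 2 := ⟨_, rfl⟩
  rw [← hbd] at hD1
  rw [← hbd0] at hD0
  rw [← hbd2] at hD2
  have h0 : 0 ≤ b := by rw [hbd]; positivity
  have h00 : 0 ≤ b0 := by rw [hbd0]; positivity
  have h02 : 0 ≤ b2 := by rw [hbd2]; positivity
  have h1 : b ≤ 166 / 100000 := by rw [hbd]; exact hb.b0
  have h10 : b0 ≤ 258 / 100000 := by rw [hbd0]; exact hb.b1
  have h12 : b2 ≤ 258 / 100000 := by
    have := hb'.b1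
    rw [hbd2]
    calc (t + x1 + 2 * y2) ^ 2 + (x2 - 2 * y1) ^ 2
        = (t + x1 - 2 * -y2) ^ 2 + (x2 + 2 * -y1) ^ 2 := by ring
      _ ≤ _ := this
  have hL0 := low hr0 hD0 h00 (by linarith)
  have hL1 := low hr1 hD1 h0 (by linarith)
  have hL2 := low hr2 hD2 h02 (by linarith)
  obtain ⟨p0, hp0⟩ : ∃ p, p = (t - x1) - -x2 := ⟨_, rfl⟩
  obtain ⟨p2, hp2⟩ : ∃ p, p = (t - x1) + -x2 := ⟨_, rfl⟩
  obtain ⟨p1, hp1⟩ : ∃ p, p = 2 * t + 2 * x1 + 4 * y1 := ⟨_, rfl⟩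
  have hxm := abs_le.1 hb.xm
  have hxp := abs_le.1 hb.xp
  have hx1 := abs_le.1 hb.ax1
  have hx2 := abs_le.1 hb.ax2
  have hy1 := abs_le.1 hb.ay1
  have hy2 := abs_le.1 hb.ay2
  have hpl0 : 0 ≤ p0 := by rw [hp0]; linarith
  have hpl2 : 0 ≤ p2 := by rw [hp2]; linarith
  have hpl1 : 0 ≤ p1 := by rw [hp1]; linarith
  have hq0 := Real.sqrt_nonneg 2
  have g0 := mul_nonneg hq0 hpl0
  have g1 := mul_nonneg hq0 hpl1
  have g2 := mul_nonneg hq0 hpl2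
  have hsn := sn_pos
  have hrepl := repl3 (s := sn) (q := Real.sqrt 2) (p0 := p0) (p1 := p1) (p2 := p2) hL0 hL1 hL2
    (by linarith) (by linarith) (by linarith) sn_pos.le (by linarith) (by linarith) (by linarith)
  rw [← hp0, ← hp1, ← hp2]
  have hU' := abs_le.1 hb.U
  have hwv0 : 0 ≤ w * v := mul_nonneg hw0 hv0
  have hwv1 : w * v ≤ 132 / 10000 * (5 / 1000) := mul_le_mul hw1 hv1 hv0 (by norm_num)
  have hty1 : |t * y1| ≤ 1 / 1000 := by
    rw [abs_mul, abs_of_nonneg (by linarith : (0 : ℝ) ≤ t)]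
    have := mul_le_mul ht1 hb.ay1 (abs_nonneg _) (by norm_num)
    linarith
  have hty1' := abs_le.1 hty1
  have ht2 : t ^ 2 ≤ 2752 / 100000 * t := by
    rw [sq]
    exact mul_le_mul_of_nonneg_right ht1 (by linarith)
  have hw2 : w ^ 2 ≤ 132 / 10000 * w := by
    rw [sq]
    exact mul_le_mul_of_nonneg_right hw1 hw0
  have ht2' := sq_nonneg t
  have hw2' := sq_nonneg w
  have hMb : |2 * (t ^ 2 - w ^ 2)| ≤ 1 / 100 := by
    rw [abs_le]
    constructor <;> linarith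
  have hNb : |4 * (t * y1) - 4 * (x1 * y1 + x2 * y2)| ≤ 1 / 100 := by
    rw [abs_le]
    constructor <;> linarith
  have hcM := (approx (c := cs) (c₀ := 9659258 / 10000000) (e := 1 / 10000000) (by linarith)
    (by linarith) hMb).2
  have hsN := (approx (c := sn) (c₀ := 2588195 / 10000000) (e := 1 / 1000000) (by linarith)
    (by linarith) hNb).1
  have i1 : 258819 / 1000000 * (2 + 499 / 1000 * (2 * b + b0 + b2)) ≤
      sn * ((1 + 499 / 1000 * b) * ((1 + 499 / 1000 * b0) + (1 + 499 / 1000 * b2))) := by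
    have j1 : 2 + 499 / 1000 * (2 * b + b0 + b2) ≤
        (1 + 499 / 1000 * b) * ((1 + 499 / 1000 * b0) + (1 + 499 / 1000 * b2)) := by
      linarith [mul_nonneg h0 h00, mul_nonneg h0 h02,
        show (1 + 499 / 1000 * b) * ((1 + 499 / 1000 * b0) + (1 + 499 / 1000 * b2))
          = 2 + 499 / 1000 * (2 * b + b0 + b2) + (499 / 1000) ^ 2 * (b * b0)
            + (499 / 1000) ^ 2 * (b * b2) by ring]
    exact mul_le_mul hs1 j1 (by positivity) sn_pos.le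
  have i2 : 0 ≤ Real.sqrt 2 * ((499 / 1000 * b0) * p0) :=
    mul_nonneg hq0 (mul_nonneg (by positivity) hpl0)
  have i3 : 0 ≤ Real.sqrt 2 * ((499 / 1000 * b) * p1) :=
    mul_nonneg hq0 (mul_nonneg (by positivity) hpl1)
  have i4 : 0 ≤ Real.sqrt 2 * ((499 / 1000 * b2) * p2) :=
    mul_nonneg hq0 (mul_nonneg (by positivity) hpl2)
  have hqL : 14142135 / 10000000 * (p0 + p1 + p2) ≤ Real.sqrt 2 * (p0 + p1 + p2) :=
    mul_le_mul_of_nonneg_right hq1 (by linarith)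
  have hbb : 2 * b + b0 + b2 = 4 * t ^ 2 + 4 * w ^ 2 + 8 * v ^ 2 := by
    rw [hbd, hbd0, hbd2, hb.w2, hb.v2]; ring
  have hpp : p0 + p1 + p2 = 4 * t + 4 * y1 := by
    rw [hp0, hp1, hp2]; ring
  have hty : -(t * v) ≤ t * y1 := by
    have := mul_le_mul_of_nonneg_left hy1.1 (by linarith : (0 : ℝ) ≤ t)
    linarith
  have htv : t * v ≤ 2752 / 100000 * v := mul_le_mul_of_nonneg_right ht1 hv0
  have hv2 := sq_nonneg v
  have hsq := sq_nonneg (w - v)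
  have hwv2 : w * v ≤ 132 / 10000 * v := mul_le_mul_of_nonneg_right hw1 hv0
  rw [hbb] at i1
  have hfin : 0 ≤ 1138 / 1000000 + 6853 / 1000000 * t - 1415250 / 1000000 * t ^ 2
      - 6900 / 1000000 * v - 10353 / 10000 * (2752 / 100000 * v) - 1 / 1000000 := by
    linarith only [ht0, ht1, hv1, mul_nonneg (sub_nonneg.2 ht0) (sub_nonneg.2 ht1)]
  linarith [hrepl, i1, i2, i3, i4, hcM, hsN, hqL, hty, htv, hpp, hsq, hv2, hfin, hwv2, hU'.1, hU'.2]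

/-- (2) the upper bound -/
lemma upper {t x1 x2 y1 y2 w v r r' : ℝ} (hb : Bx t x1 x2 y1 y2 w v) (hr : 1 ≤ r) (hr' : 1 ≤ r')
    (hD : r ^ 2 - ((t - x1) ^ 2 + x2 ^ 2) ≤ 1 + 16 / 1000)
    (hD' : r' ^ 2 - ((t + x1 - 2 * y2) ^ 2 + (x2 + 2 * y1) ^ 2) ≤ 1 + 16 / 1000) :
      sn * (r * r') - (cs * ((t - x1) * (t + x1 - 2 * y2) + (-x2) * (x2 + 2 * y1))
        - sn * ((-x2) * (t + x1 - 2 * y2) - (t - x1) * (x2 + 2 * y1)))
      + Real.sqrt 2 * (r * ((t + x1 - 2 * y2) - (x2 + 2 * y1)))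
      + Real.sqrt 2 * (r' * ((t - x1) + -x2)) ≤ 1 := by
  have ht0 := hb.tl
  have ht1 := hb.tu
  have hw0 := hb.w0
  have hw1 := hb.wu
  have hv0 := hb.v0
  have hv1 := hb.vu
  have hs1 := sn_ge
  have hs2 := sn_le
  have hc1 := cs_ge
  have hc2 := cs_le
  have hq1 := sqrt2_ge
  have hq2 := sqrt2_le
  have hb0 := hb.b0
  have hb1 := hb.b1
  have h1 : r ≤ 101 / 100 := by nlinarith only [hD, hb0, hr]
  have h2 : r' ≤ 101 / 100 := by nlinarith only [hD', hb1, hr']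
  have hx1 := abs_le.1 hb.ax1
  have hx2 := abs_le.1 hb.ax2
  have hy1 := abs_le.1 hb.ay1
  have hy2 := abs_le.1 hb.ay2
  have h3 : r * r' ≤ 101 / 100 * (101 / 100) := mul_le_mul h1 h2 (by linarith) (by norm_num)
  have h4 : sn * (r * r') ≤ 25882 / 100000 * (101 / 100 * (101 / 100)) :=
    mul_le_mul hs2 h3 (by nlinarith) (by norm_num)
  obtain ⟨c1, hc1'⟩ : ∃ p, p = t + x1 - 2 * y2 := ⟨_, rfl⟩
  obtain ⟨c2, hc2'⟩ : ∃ p, p = x2 + 2 * y1 := ⟨_, rfl⟩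
  obtain ⟨a1, ha1⟩ : ∃ p, p = t - x1 := ⟨_, rfl⟩
  rw [← hc1', ← hc2', ← ha1]
  have k1 : |c1| ≤ 6 / 100 := by rw [abs_le, hc1']; constructor <;> linarith
  have k2 : |c2| ≤ 3 / 100 := by rw [abs_le, hc2']; constructor <;> linarith
  have k3 : |a1| ≤ 5 / 100 := by rw [abs_le, ha1]; constructor <;> linarith
  have k4 : |-x2| ≤ 2 / 100 := by rw [abs_le]; constructor <;> linarith
  have m1 : |a1 * c1 + -x2 * c2| ≤ 1 / 100 := by
    refine (abs_add_le _ _).trans ?_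
    rw [abs_mul, abs_mul]
    have e1 := mul_le_mul k3 k1 (abs_nonneg _) (by norm_num)
    have e2 := mul_le_mul k4 k2 (abs_nonneg _) (by norm_num)
    linarith
  have m2 : |-x2 * c1 - a1 * c2| ≤ 1 / 100 := by
    rw [sub_eq_add_neg]
    refine (abs_add_le _ _).trans ?_
    rw [abs_neg, abs_mul, abs_mul]
    have e1 := mul_le_mul k4 k1 (abs_nonneg _) (by norm_num)
    have e2 := mul_le_mul k3 k2 (abs_nonneg _) (by norm_num)
    linarith
  have m3 : |r * (c1 - c2)| ≤ 101 / 100 * (9 / 100) := by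
    rw [abs_mul]
    refine mul_le_mul (by rw [abs_of_nonneg (by linarith)]; exact h1) ?_ (abs_nonneg _)
      (by norm_num)
    have e1 := abs_le.1 k1
    have e2 := abs_le.1 k2
    rw [abs_le]
    constructor <;> linarith
  have m4 : |r' * (a1 + -x2)| ≤ 101 / 100 * (7 / 100) := by
    rw [abs_mul]
    refine mul_le_mul (by rw [abs_of_nonneg (by linarith)]; exact h2) ?_ (abs_nonneg _)
      (by norm_num)
    have e1 := abs_le.1 k3
    have e2 := abs_le.1 k4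
    rw [abs_le]
    constructor <;> linarith
  have n1 := (approx (c := cs) (c₀ := 9659258 / 10000000) (e := 1 / 10000000) (by linarith)
    (by linarith) m1).1
  have n2 := (approx (c := sn) (c₀ := 2588195 / 10000000) (e := 1 / 1000000) (by linarith)
    (by linarith) m2).2
  have n3 := (approx (c := Real.sqrt 2) (c₀ := 14142135 / 10000000) (e := 1 / 10000000)
    (by linarith) (by linarith) m3).2
  have n4 := (approx (c := Real.sqrt 2) (c₀ := 14142135 / 10000000) (e := 1 / 10000000)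
    (by linarith) (by linarith) m4).2
  have m1' := abs_le.1 m1
  have m2' := abs_le.1 m2
  have m3' := abs_le.1 m3
  have m4' := abs_le.1 m4
  linarith

end FinGG0Aux

open FinGG0Aux in
/-- (G5) -/
theorem fin_gG0 {t : ℝ} {r : ℕ → ℝ} {B : ℕ → ℂ} (h : Cf t r B) {w v g : ℝ} (hb : NBox t r B w v g)
    (k : ℕ) :
    2581 / 10000 + 28285 / 10000 * t - 28285 / 10000 * w - 4 * v ≤ pG0 (r k) (B k) (r (k + 1)) (B (k + 1)) ∧
    pG0 (r k) (B k) (r (k + 1)) (B (k + 1)) ≤ 1 ∧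
    5165 / 10000 + 565 / 100 * (t - v) ≤ pG0 (r k) (B k) (r (k + 1)) (B (k + 1)) +
      pG0 (r (k + 1)) (B (k + 1)) (r (k + 2)) (B (k + 2)) := by
  obtain ⟨x1, x2, hw2, hy⟩ := types h hb.hw hb.hv
  obtain ⟨y1, y2, hv2, hk⟩ := hy k
  have hD0 := h.D1 k
  have hD1 := h.D1 (k + 1)
  have hD2 := h.D1 (k + 2)
  have hu0 : r k ^ 2 - normSq (B k) ≤ 1 + 16 / 1000 := by
    have h1 := dd_le h k
    rw [← hb.hg] at h1
    unfold dd at h1
    linarith [hb.gu]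
  have hu1 : r (k + 1) ^ 2 - normSq (B (k + 1)) ≤ 1 + 16 / 1000 := by
    have h1 := dd_le h (k + 1)
    rw [← hb.hg] at h1
    unfold dd at h1
    linarith [hb.gu]
  have hr0 := h.one_le k
  have hr1 := h.one_le (k + 1)
  have hr2 := h.one_le (k + 2)
  rcases hk with ⟨hB0, hB1, hB2⟩ | ⟨hB0, hB1, hB2⟩
  · have hbx : Bx t x1 x2 y1 y2 w v :=
      ⟨hb.tl, hb.tu, hb.w0, hb.wu, hb.v0, hb.vu, hw2, hv2⟩
    have e0 : normSq (B k) = (t - x1) ^ 2 + x2 ^ 2 := by rw [hB0, normSq_mk]; ring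
    have e1 : normSq (B (k + 1)) = (t + x1 - 2 * y2) ^ 2 + (x2 + 2 * y1) ^ 2 := by
      rw [hB1, normSq_mk]; ring
    have e2 : normSq (B (k + 2)) = (t - x1) ^ 2 + x2 ^ 2 := by rw [hB2, normSq_mk]; ring
    rw [e0] at hD0 hu0
    rw [e1] at hD1 hu1
    rw [e2] at hD2
    have f1 := single hbx hr0 hr1 hD0 hD1
    have f2 := upper hbx hr0 hr1 hu0 hu1
    have f3 := pairE hbx hr0 hr1 hr2 hD0 hD1 hD2
    rw [hB0, hB1, hB2, coord, coord]
    exact ⟨f1, f2, by linarith⟩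
  · have hbx : Bx t x1 x2 y1 y2 w v :=
      ⟨hb.tl, hb.tu, hb.w0, hb.wu, hb.v0, hb.vu, hw2, hv2⟩
    have hbx' : Bx t x1 (-x2) (-y1) y2 w v :=
      ⟨hb.tl, hb.tu, hb.w0, hb.wu, hb.v0, hb.vu, by rw [hw2]; ring, by rw [hv2]; ring⟩
    have e0 : normSq (B k) = (t + x1 - 2 * y2) ^ 2 + (x2 + 2 * y1) ^ 2 := by
      rw [hB0, normSq_mk]; ring
    have e1 : normSq (B (k + 1)) = (t - x1) ^ 2 + x2 ^ 2 := by rw [hB1, normSq_mk]; ring
    have e2 : normSq (B (k + 2)) = (t + x1 + 2 * y2) ^ 2 + (x2 - 2 * y1) ^ 2 := by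
      rw [hB2, normSq_mk]; ring
    rw [e0] at hD0 hu0
    rw [e1] at hD1 hu1
    rw [e2] at hD2
    have e0' : (t + x1 - 2 * y2) ^ 2 + (-x2 + 2 * -y1) ^ 2
        = (t + x1 - 2 * y2) ^ 2 + (x2 + 2 * y1) ^ 2 := by ring
    have e1' : (t - x1) ^ 2 + (-x2) ^ 2 = (t - x1) ^ 2 + x2 ^ 2 := by ring
    have f1 := single hbx' hr1 hr0 (by rw [e1']; exact hD1) (by rw [e0']; exact hD0)
    have f2 := upper hbx' hr1 hr0 (by rw [e1']; exact hu1) (by rw [e0']; exact hu0)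
    have f3 := pairO hbx hr0 hr1 hr2 hD0 hD1 hD2
    rw [hB0, hB1, hB2, coord, coord]
    refine ⟨f1.trans (le_of_eq (by ring)), (le_of_eq (by ring)).trans f2, f3.trans ?_⟩
    rw [hw2]
    exact le_of_eq (by ring)

end Rein83
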