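import Pool.Agent.Rein83.NBoxDef
import Pool.Agent.Rein83.NearDefs
import Pool.Agent.Rein83.FinS1
import Pool.Agent.Rein83.FinR1

set_option autoImplicit false

/-! Section F, near stage, module G6: bounds of `pG2`, `pG4` in the final box. -/

namespace Rein83

open Complex Finset Rein69

namespace FinG24Aux

lemma cs_bound {a b y1 y2 v M : ℝ} (hM : 0 ≤ M) (hv0 : 0 ≤ v) (h : a ^ 2 + b ^ 2 ≤ M ^ 2)
    (hv : y1 ^ 2 + y2 ^ 2 = v ^ 2) : -(M * v) ≤ a * y1 + b * y2 := by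
  have h1 : (a * y1 + b * y2) ^ 2 ≤ (M * v) ^ 2 := by
    have h2 : (a * y1 + b * y2) ^ 2 + (a * y2 - b * y1) ^ 2 = (a ^ 2 + b ^ 2) * (y1 ^ 2 + y2 ^ 2) := by
      ring
    have h3 : (a ^ 2 + b ^ 2) * (y1 ^ 2 + y2 ^ 2) ≤ M ^ 2 * v ^ 2 := by
      rw [hv]
      exact mul_le_mul_of_nonneg_right h (sq_nonneg v)
    have h4 := sq_nonneg (a * y2 - b * y1)
    have h5 : (M * v) ^ 2 = M ^ 2 * v ^ 2 := by ring
    linarith
  exact (abs_le.mp (abs_le_of_sq_le_sq h1 (mul_nonneg hM hv0))).1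

/-- numerical facts -/
structure Cst (h m : ℝ) : Prop where
  hh : h ^ 2 = 1 / 2
  mm : m ^ 2 = 3 / 2
  h1 : 7071067 / 10000000 ≤ h
  h2 : h ≤ 7071069 / 10000000
  m1 : 12247448 / 10000000 ≤ m
  m2 : m ≤ 12247450 / 10000000

structure Bx (t x1 x2 y1 y2 u u' w v : ℝ) : Prop where
  t1 : 2438 / 100000 ≤ t
  t2 : t ≤ 2752 / 100000
  w0 : 0 ≤ w
  w1 : w ≤ 132 / 10000
  v0 : 0 ≤ v
  v1 : v ≤ 5 / 1000
  hx : x1 ^ 2 + x2 ^ 2 = w ^ 2
  hy : y1 ^ 2 + y2 ^ 2 = v ^ 2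
  u0 : 0 ≤ u
  u0' : 0 ≤ u'
  u1 : u ≤ 8745 / 1000000
  u1' : u' ≤ 92 / 10000
  us : u + u' ≤ 1007 / 100000

lemma xb {t x1 x2 y1 y2 u u' w v : ℝ} (b : Bx t x1 x2 y1 y2 u u' w v) :
    |x1| ≤ w ∧ |x2| ≤ w ∧ |x1| ^ 2 ≤ 264 / 10000 * (w - |x2|) := by
  have hx := b.hx
  have h1 : |x1| ≤ w := abs_le_of_sq_le_sq (by linarith [sq_nonneg x2]) b.w0
  have h2 : |x2| ≤ w := abs_le_of_sq_le_sq (by linarith [sq_nonneg x1]) b.w0
  refine ⟨h1, h2, ?_⟩
  have h3 : |x1| ^ 2 = (w + |x2|) * (w - |x2|) := by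
    have e1 := sq_abs x1
    have e2 := sq_abs x2
    linear_combination e1 + e2 + hx
  rw [h3]
  exact mul_le_mul_of_nonneg_right (by linarith [b.w1]) (by linarith)

/-- products that are used several times -/
lemma prods {t x1 x2 y1 y2 u u' w v : ℝ} (b : Bx t x1 x2 y1 y2 u u' w v) :
    t ^ 2 ≤ 75736 / 100000000 ∧ t * v ≤ 2752 / 100000 * v ∧ w * v ≤ 5 / 1000 * w ∧
      u * v ≤ 5 / 1000 * u := by
  refine ⟨?_, mul_le_mul_of_nonneg_right b.t2 b.v0, ?_, ?_⟩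
  · have h1 : t ^ 2 ≤ (2752 / 100000) ^ 2 := pow_le_pow_left₀ (by linarith [b.t1]) b.t2 2
    linarith
  · rw [mul_comm w v]; exact mul_le_mul_of_nonneg_right b.v1 b.w0
  · rw [mul_comm u v]; exact mul_le_mul_of_nonneg_right b.v1 b.u0

/-- `c * x ≥ -(d |x|)` if `0 ≤ c ≤ d` -/
lemma mul_ge {c d x : ℝ} (h0 : 0 ≤ c) (h1 : c ≤ d) : -(d * |x|) ≤ c * x := by
  have h2 : c * (-|x|) ≤ c * x := mul_le_mul_of_nonneg_left (neg_abs_le x) h0
  have h3 : c * |x| ≤ d * |x| := mul_le_mul_of_nonneg_right h1 (abs_nonneg x)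
  linarith

lemma mul_le' {c d x : ℝ} (h0 : 0 ≤ c) (h1 : c ≤ d) : c * x ≤ d * |x| := by
  have h2 : c * x ≤ c * |x| := mul_le_mul_of_nonneg_left (le_abs_self x) h0
  have h3 : c * |x| ≤ d * |x| := mul_le_mul_of_nonneg_right h1 (abs_nonneg x)
  linarith

lemma hm34 {h m : ℝ} (C : Cst h m) : (h * m) ^ 2 = 3 / 4 := by
  rw [mul_pow, C.hh, C.mm]; norm_num

/-- y part of I- -/
lemma g2y {h m t x1 x2 y1 y2 u u' w v : ℝ} (C : Cst h m) (b : Bx t x1 x2 y1 y2 u u' w v) :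
    -((52916 / 10000 * (1 + u) + 9451 / 10000 * t + w) * v) ≤
      ((1 + u) * (4 * h - 2 * m) - (m - h) / 2 * (t - x1) + (m + h) / 2 * x2) * y1 +
      ((1 + u) * (4 * h + 2 * m) + (m + h) / 2 * (t - x1) + (m - h) / 2 * x2) * y2 := by
  have ht1 := b.t1
  have ht2 := b.t2
  have hw0 := b.w0
  have hww := b.w1
  have hu0 := b.u0
  have hxx : 5 * (-x1) + 2 * (h * m) * x2 ≤ 52916 / 10000 * w := by
    have h1 := cs_bound (a := 5) (b := -(2 * (h * m))) (y1 := x1) (y2 := x2) (v := w)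
      (M := 52916 / 10000) (by norm_num) hw0 (by
        have := hm34 C
        have e : (-(2 * (h * m))) ^ 2 = 4 * (h * m) ^ 2 := by ring
        rw [e, this]; norm_num) b.hx
    linarith
  refine cs_bound (by positivity) b.v0 ?_ b.hy
  have e1 : ((1 + u) * (4 * h - 2 * m) - (m - h) / 2 * (t - x1) + (m + h) / 2 * x2) ^ 2 +
      ((1 + u) * (4 * h + 2 * m) + (m + h) / 2 * (t - x1) + (m - h) / 2 * x2) ^ 2 =
      28 * (1 + u) ^ 2 + 2 * (1 + u) * (5 * t + (5 * (-x1) + 2 * (h * m) * x2))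
        + ((t - x1) ^ 2 + x2 ^ 2) := by
    linear_combination ((4 * (1 + u) + (t - x1) / 2 + x2 / 2) ^ 2
      + (4 * (1 + u) + (t - x1) / 2 - x2 / 2) ^ 2) * C.hh
      + ((-2 * (1 + u) - (t - x1) / 2 + x2 / 2) ^ 2 + (2 * (1 + u) + (t - x1) / 2 + x2 / 2) ^ 2) * C.mm
  rw [e1]
  have ht0 : 0 ≤ t := by linarith
  have e2 : (t - x1) ^ 2 + x2 ^ 2 ≤ (t + w) ^ 2 := by
    have h1 := b.hx
    have h2 : t * (-x1) ≤ t * w := mul_le_mul_of_nonneg_left
      (by linarith [neg_abs_le x1, (xb b).1]) ht0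
    have h3 : (t - x1) ^ 2 + x2 ^ 2 = t ^ 2 + 2 * (t * (-x1)) + (x1 ^ 2 + x2 ^ 2) := by ring
    have h4 : (t + w) ^ 2 = t ^ 2 + 2 * (t * w) + w ^ 2 := by ring
    rw [h3, h4, h1]
    linarith
  have e3 : 2 * (1 + u) * (5 * t + (5 * (-x1) + 2 * (h * m) * x2)) ≤
      2 * (1 + u) * (5 * t + 52916 / 10000 * w) :=
    mul_le_mul_of_nonneg_left (by linarith) (by linarith)
  have e4 : (t + w) ^ 2 - (9451 / 10000 * t + w) ^ 2 ≤ 2 / 10000 := by
    have h1 : t * (549 / 10000 * (19451 / 10000 * t + 2 * w)) ≤ 1 * (549 / 10000 * (1 / 10)) :=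
      mul_le_mul (by linarith) (by linarith) (by positivity) (by norm_num)
    have h2 : (t + w) ^ 2 - (9451 / 10000 * t + w) ^ 2 =
      t * (549 / 10000 * (19451 / 10000 * t + 2 * w)) := by ring
    have h3 : t * (549 / 10000 * (19451 / 10000 * t + 2 * w)) ≤
      2752 / 100000 * (549 / 10000 * (19451 / 10000 * t + 2 * w)) :=
      mul_le_mul_of_nonneg_right ht2 (by positivity)
    rw [h2]
    linarith
  have e5 : 0 ≤ (1 + u) * t := mul_nonneg (by linarith) (by linarith)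
  have e6 : 1 ≤ (1 + u) ^ 2 := one_le_pow₀ (by linarith)
  have e7 : (52916 / 10000 * (1 + u) + 9451 / 10000 * t + w) ^ 2 =
      (52916 / 10000) ^ 2 * (1 + u) ^ 2 + 2 * (52916 / 10000) * (9451 / 10000) * ((1 + u) * t)
      + 2 * (1 + u) * (52916 / 10000 * w) + (9451 / 10000 * t + w) ^ 2 := by ring
  have e8 : 2 * (1 + u) * (5 * t + 52916 / 10000 * w) = 10 * ((1 + u) * t) +
    2 * (1 + u) * (52916 / 10000 * w) := by ring
  rw [e7]
  rw [e8] at e3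
  linarith

/-- I- -/
lemma g2a {h m t x1 x2 y1 y2 u u' w v : ℝ} (C : Cst h m) (b : Bx t x1 x2 y1 y2 u u' w v) :
    1289 / 10000 - 28285 / 10000 * t - 28285 / 10000 * (866 / 1000 * |x1| + w) - 53 / 10 * v ≤
    ((m - h) / 2 * ((1 + u) * (1 + u'))
        - (m + h) / 2 * (t ^ 2 - x1 ^ 2 - x2 ^ 2 - 2 * y2 * (t - x1) - 2 * x2 * y1)
        + (m - h) / 2 * (-2 * t * x2 + 2 * x2 * y2 - 2 * t * y1 + 2 * x1 * y1)) / 2
      - 2 * h * (2 * t - 2 * x2 - 2 * (y1 + y2) + u * (t + x1 - x2 - 2 * (y1 + y2))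
        + u' * (t - x1 - x2))
      - m * (2 * x1 + 2 * (y1 - y2) + u * (t + x1 + x2 + 2 * (y1 - y2)) - u' * (t + x2 - x1)) := by
  obtain ⟨hw1, hw2, hw3⟩ := xb b
  obtain ⟨p1, p2, p3, p4⟩ := prods b
  have hyy := g2y C b
  have ht1 := b.t1
  have ht2 := b.t2
  have ht0 : 0 ≤ t := by linarith
  have hw0 := b.w0
  have hww := b.w1
  have hv0 := b.v0
  have hvv := b.v1
  have hu0 := b.u0
  have hu0' := b.u0'
  have hu1 := b.u1
  have hh1 := C.h1
  have hh2 := C.h2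
  have hm1 := C.m1
  have hm2 := C.m2
  have a0 := abs_nonneg x1
  have b0 := abs_nonneg x2
  have p5 : 264 / 100 * (u * |x1|) ≤ 106 * |x1| ^ 2 + 2 / 10000 * u := by
    have h1 := sq_nonneg (1029 / 100 * |x1| - 1283 / 10000 * u)
    have h2 : u * u ≤ 8745 / 1000000 * u := mul_le_mul_of_nonneg_right hu1 hu0
    have h3 : 0 ≤ u * |x1| := mul_nonneg hu0 a0
    have h4 : (1029 / 100 * |x1| - 1283 / 10000 * u) ^ 2 =
      (1029 / 100) ^ 2 * |x1| ^ 2 - 2 * (1029 / 100) * (1283 / 10000) * (u * |x1|) +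
        (1283 / 10000) ^ 2 * (u * u) := by ring
    rw [h4] at h1
    have h5 := sq_nonneg |x1|
    linarith
  have hmt : 2588189 / 10000000 * (2438 / 100000) ≤ (m - h) / 2 * t :=
    mul_le_mul (by linarith) ht1 (by norm_num) (by linarith)
  have hmt' : (m - h) / 2 * t ≤ 1 * (2752 / 100000) :=
    mul_le_mul (by linarith) ht2 ht0 (by norm_num)
  have q1 : -(282214 / 100000 * |x2|) ≤ (4 * h - (m - h) / 2 * t) * x2 :=
    mul_ge (by linarith) (by linarith)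
  have q2 : 2 * m * x1 ≤ 24494901 / 10000000 * |x1| := mul_le' (by linarith) (by linarith)
  have q3 : u * (1294 / 10000 - 264 / 100 * |x1| - 753 / 10000) ≤
      u * ((m - h) / 4 - (2 * h + m) * (t + x1) + (2 * h - m) * x2) := by
    refine mul_le_mul_of_nonneg_left ?_ hu0
    have c1 : (2 * h + m) * x1 ≤ 264 / 100 * |x1| := mul_le' (by linarith) (by linarith)
    have c1' : (2 * h + m) * t ≤ 264 / 100 * (2752 / 100000) :=
      mul_le_mul (by linarith) ht2 ht0 (by norm_num)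
    have c2 : -(2 / 10 * |x2|) ≤ (2 * h - m) * x2 := mul_ge (by linarith) (by linarith)
    linarith
  have q4 : 0 ≤ u' * ((m - h) / 4 - (2 * h - m) * t + (2 * h - m) * x1 + (2 * h + m) * x2) := by
    refine mul_nonneg hu0' ?_
    have c1 : (2 * h - m) * t ≤ 2 / 10 * (2752 / 100000) :=
      mul_le_mul (by linarith) ht2 ht0 (by norm_num)
    have c2 : -(2 / 10 * |x1|) ≤ (2 * h - m) * x1 := mul_ge (by linarith) (by linarith)
    have c3 : -(264 / 100 * |x2|) ≤ (2 * h + m) * x2 := mul_ge (by linarith) (by linarith)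
    linarith
  have q5 : 0 ≤ u * u' * (m - h) := mul_nonneg (mul_nonneg hu0 hu0') (by linarith)
  have q6 : (m + h) * t ^ 2 ≤ 193186 / 100000 * (75736 / 100000000) :=
    mul_le_mul (by linarith) p1 (by positivity) (by norm_num)
  have q7 : 0 ≤ (m + h) * w ^ 2 := mul_nonneg (by linarith) (sq_nonneg w)
  have q8 : h * t ≤ 7071069 / 10000000 * t := mul_le_mul_of_nonneg_right hh2 ht0
  have key : ((m - h) / 2 * ((1 + u) * (1 + u'))
        - (m + h) / 2 * (t ^ 2 - x1 ^ 2 - x2 ^ 2 - 2 * y2 * (t - x1) - 2 * x2 * y1)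
        + (m - h) / 2 * (-2 * t * x2 + 2 * x2 * y2 - 2 * t * y1 + 2 * x1 * y1)) / 2
      - 2 * h * (2 * t - 2 * x2 - 2 * (y1 + y2) + u * (t + x1 - x2 - 2 * (y1 + y2))
        + u' * (t - x1 - x2))
      - m * (2 * x1 + 2 * (y1 - y2) + u * (t + x1 + x2 + 2 * (y1 - y2)) - u' * (t + x2 - x1)) =
      (m - h) / 4 + u * u' * (m - h) / 4 - (m + h) * t ^ 2 / 4 + (m + h) * w ^ 2 / 4
      - 4 * (h * t) + (4 * h - (m - h) / 2 * t) * x2 - 2 * m * x1
      + u * ((m - h) / 4 - (2 * h + m) * (t + x1) + (2 * h - m) * x2)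
      + u' * ((m - h) / 4 - (2 * h - m) * t + (2 * h - m) * x1 + (2 * h + m) * x2)
      + (((1 + u) * (4 * h - 2 * m) - (m - h) / 2 * (t - x1) + (m + h) / 2 * x2) * y1 +
      ((1 + u) * (4 * h + 2 * m) + (m + h) / 2 * (t - x1) + (m - h) / 2 * x2) * y2) := by
    rw [← b.hx]
    ring
  rw [key]
  have hMv : (52916 / 10000 * (1 + u) + 9451 / 10000 * t + w) * v =
    52916 / 10000 * v + 52916 / 10000 * (u * v) + 9451 / 10000 * (t * v) + w * v := by ring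
  rw [hMv] at hyy
  have q9 : u * (1294 / 10000 - 264 / 100 * |x1| - 753 / 10000) =
    541 / 10000 * u - 264 / 100 * (u * |x1|) := by ring
  rw [q9] at q3
  linarith


/-- y part of I+ -/
lemma g4y {h m t x1 x2 y1 y2 u u' w v : ℝ} (C : Cst h m) (b : Bx t x1 x2 y1 y2 u u' w v) :
    -((52916 / 10000 * (1 + u) + w) * v) ≤
      ((1 + u) * (4 * h + 2 * m) - (m - h) / 2 * (t - x1) + (m + h) / 2 * x2) * y1 +
      ((1 + u) * (4 * h - 2 * m) + (m + h) / 2 * (t - x1) + (m - h) / 2 * x2) * y2 := by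
  have ht1 := b.t1
  have ht2 := b.t2
  have hw0 := b.w0
  have hww := b.w1
  have hu0 := b.u0
  have hxx : x1 + 6 * (h * m) * x2 ≤ 52916 / 10000 * w := by
    have h1 := cs_bound (a := -1) (b := -(6 * (h * m))) (y1 := x1) (y2 := x2) (v := w)
      (M := 52916 / 10000) (by norm_num) hw0 (by
        have := hm34 C
        have e : (-(6 * (h * m))) ^ 2 = 36 * (h * m) ^ 2 := by ring
        rw [e, this]; norm_num) b.hx
    linarith
  refine cs_bound (by positivity) b.v0 ?_ b.hy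
  have e1 : ((1 + u) * (4 * h + 2 * m) - (m - h) / 2 * (t - x1) + (m + h) / 2 * x2) ^ 2 +
      ((1 + u) * (4 * h - 2 * m) + (m + h) / 2 * (t - x1) + (m - h) / 2 * x2) ^ 2 =
      28 * (1 + u) ^ 2 + 2 * (1 + u) * (-t + (x1 + 6 * (h * m) * x2))
        + ((t - x1) ^ 2 + x2 ^ 2) := by
    linear_combination ((4 * (1 + u) + (t - x1) / 2 + x2 / 2) ^ 2
      + (4 * (1 + u) + (t - x1) / 2 - x2 / 2) ^ 2) * C.hh
      + ((2 * (1 + u) - (t - x1) / 2 + x2 / 2) ^ 2 + (-2 * (1 + u) + (t - x1) / 2 + x2 / 2) ^ 2) * C.mm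
  rw [e1]
  have ht0 : 0 ≤ t := by linarith
  have e2 : (t - x1) ^ 2 + x2 ^ 2 ≤ t * (t + 2 * w) + w ^ 2 := by
    have h1 := b.hx
    have h2 : t * (-x1) ≤ t * w := mul_le_mul_of_nonneg_left
      (by linarith [neg_abs_le x1, (xb b).1]) ht0
    have h3 : (t - x1) ^ 2 + x2 ^ 2 = t ^ 2 + 2 * (t * (-x1)) + (x1 ^ 2 + x2 ^ 2) := by ring
    have h4 : t * (t + 2 * w) + w ^ 2 = t ^ 2 + 2 * (t * w) + w ^ 2 := by ring
    rw [h3, h4, h1]
    linarith
  have e3 : 2 * (1 + u) * (-t + (x1 + 6 * (h * m) * x2)) ≤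
      2 * (1 + u) * (-t + 52916 / 10000 * w) :=
    mul_le_mul_of_nonneg_left (by linarith) (by linarith)
  have e4 : t * (t + 2 * w) ≤ t * 1 := mul_le_mul_of_nonneg_left (by linarith) ht0
  have e5 : 0 ≤ u * t := mul_nonneg hu0 ht0
  have e6 : 1 ≤ (1 + u) ^ 2 := one_le_pow₀ (by linarith)
  have e7 : (52916 / 10000 * (1 + u) + w) ^ 2 =
      (52916 / 10000) ^ 2 * (1 + u) ^ 2 + 2 * (1 + u) * (52916 / 10000 * w) + w ^ 2 := by ring
  have e8 : 2 * (1 + u) * (-t + 52916 / 10000 * w) = -(2 * t) - 2 * (u * t) +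
    2 * (1 + u) * (52916 / 10000 * w) := by ring
  rw [e7]
  rw [e8] at e3
  linarith

/-- I+ -/
lemma g4a {h m t x1 x2 y1 y2 u u' w v : ℝ} (C : Cst h m) (b : Bx t x1 x2 y1 y2 u u' w v) :
    1289 / 10000 - 28285 / 10000 * t - 28285 / 10000 * (866 / 1000 * |x1| + w) - 53 / 10 * v ≤
    ((m - h) / 2 * ((1 + u) * (1 + u'))
        - (m + h) / 2 * (t ^ 2 - x1 ^ 2 - x2 ^ 2 - 2 * y2 * (t - x1) - 2 * x2 * y1)
        + (m - h) / 2 * (-2 * t * x2 + 2 * x2 * y2 - 2 * t * y1 + 2 * x1 * y1)) / 2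
      - 2 * h * (2 * t - 2 * x2 - 2 * (y1 + y2) + u * (t + x1 - x2 - 2 * (y1 + y2))
        + u' * (t - x1 - x2))
      + m * (2 * x1 + 2 * (y1 - y2) + u * (t + x1 + x2 + 2 * (y1 - y2)) - u' * (t + x2 - x1)) := by
  obtain ⟨hw1, hw2, hw3⟩ := xb b
  obtain ⟨p1, p2, p3, p4⟩ := prods b
  have hyy := g4y C b
  have ht1 := b.t1
  have ht2 := b.t2
  have ht0 : 0 ≤ t := by linarith
  have hw0 := b.w0
  have hww := b.w1
  have hv0 := b.v0
  have hvv := b.v1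
  have hu0 := b.u0
  have hu0' := b.u0'
  have hu1 := b.u1
  have hh1 := C.h1
  have hh2 := C.h2
  have hm1 := C.m1
  have hm2 := C.m2
  have a0 := abs_nonneg x1
  have b0 := abs_nonneg x2
  have hmt : 2588189 / 10000000 * (2438 / 100000) ≤ (m - h) / 2 * t :=
    mul_le_mul (by linarith) ht1 (by norm_num) (by linarith)
  have hmt' : (m - h) / 2 * t ≤ 1 * (2752 / 100000) :=
    mul_le_mul (by linarith) ht2 ht0 (by norm_num)
  have q1 : -(282214 / 100000 * |x2|) ≤ (4 * h - (m - h) / 2 * t) * x2 :=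
    mul_ge (by linarith) (by linarith)
  have q2 : -(24494901 / 10000000 * |x1|) ≤ 2 * m * x1 := mul_ge (by linarith) (by linarith)
  have q3 : u * (8 / 100) ≤
      u * ((m - h) / 4 - (2 * h - m) * (t + x1) + (2 * h + m) * x2) := by
    refine mul_le_mul_of_nonneg_left ?_ hu0
    have c1 : (2 * h - m) * x1 ≤ 2 / 10 * |x1| := mul_le' (by linarith) (by linarith)
    have c1' : (2 * h - m) * t ≤ 2 / 10 * (2752 / 100000) :=
      mul_le_mul (by linarith) ht2 ht0 (by norm_num)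
    have c2 : -(264 / 100 * |x2|) ≤ (2 * h + m) * x2 := mul_ge (by linarith) (by linarith)
    linarith
  have q4 : 0 ≤ u' * ((m - h) / 4 - (2 * h + m) * t + (2 * h + m) * x1 + (2 * h - m) * x2) := by
    refine mul_nonneg hu0' ?_
    have c1 : (2 * h + m) * t ≤ 264 / 100 * (2752 / 100000) :=
      mul_le_mul (by linarith) ht2 ht0 (by norm_num)
    have c2 : -(264 / 100 * |x1|) ≤ (2 * h + m) * x1 := mul_ge (by linarith) (by linarith)
    have c3 : -(2 / 10 * |x2|) ≤ (2 * h - m) * x2 := mul_ge (by linarith) (by linarith)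
    linarith
  have q5 : 0 ≤ u * u' * (m - h) := mul_nonneg (mul_nonneg hu0 hu0') (by linarith)
  have q6 : (m + h) * t ^ 2 ≤ 193186 / 100000 * (75736 / 100000000) :=
    mul_le_mul (by linarith) p1 (by positivity) (by norm_num)
  have q7 : 0 ≤ (m + h) * w ^ 2 := mul_nonneg (by linarith) (sq_nonneg w)
  have q8 : h * t ≤ 7071069 / 10000000 * t := mul_le_mul_of_nonneg_right hh2 ht0
  have key : ((m - h) / 2 * ((1 + u) * (1 + u'))
        - (m + h) / 2 * (t ^ 2 - x1 ^ 2 - x2 ^ 2 - 2 * y2 * (t - x1) - 2 * x2 * y1)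
        + (m - h) / 2 * (-2 * t * x2 + 2 * x2 * y2 - 2 * t * y1 + 2 * x1 * y1)) / 2
      - 2 * h * (2 * t - 2 * x2 - 2 * (y1 + y2) + u * (t + x1 - x2 - 2 * (y1 + y2))
        + u' * (t - x1 - x2))
      + m * (2 * x1 + 2 * (y1 - y2) + u * (t + x1 + x2 + 2 * (y1 - y2)) - u' * (t + x2 - x1)) =
      (m - h) / 4 + u * u' * (m - h) / 4 - (m + h) * t ^ 2 / 4 + (m + h) * w ^ 2 / 4
      - 4 * (h * t) + (4 * h - (m - h) / 2 * t) * x2 + 2 * m * x1
      + u * ((m - h) / 4 - (2 * h - m) * (t + x1) + (2 * h + m) * x2)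
      + u' * ((m - h) / 4 - (2 * h + m) * t + (2 * h + m) * x1 + (2 * h - m) * x2)
      + (((1 + u) * (4 * h + 2 * m) - (m - h) / 2 * (t - x1) + (m + h) / 2 * x2) * y1 +
      ((1 + u) * (4 * h - 2 * m) + (m + h) / 2 * (t - x1) + (m - h) / 2 * x2) * y2) := by
    rw [← b.hx]
    ring
  rw [key]
  have hMv : (52916 / 10000 * (1 + u) + w) * v =
    52916 / 10000 * v + 52916 / 10000 * (u * v) + w * v := by ring
  rw [hMv] at hyy
  linarith


lemma uub {t x1 x2 y1 y2 u u' w v : ℝ} (b : Bx t x1 x2 y1 y2 u u' w v) :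
    0 ≤ u * u' ∧ u * u' ≤ 9 / 100000 ∧ (u - u') ^ 2 ≤ 9 / 100000 ∧
    (u + u') * w ≤ 132 / 10000 * (u + u') := by
  have hu0 := b.u0
  have hu0' := b.u0'
  have hu1 := b.u1
  have hu1' := b.u1'
  refine ⟨mul_nonneg hu0 hu0', ?_, ?_, (by rw [mul_comm (u + u') w]; exact mul_le_mul_of_nonneg_right b.w1 (by linarith [b.u0, b.u0']))⟩
  · have := mul_le_mul hu1 hu1' hu0' (by norm_num : (0:ℝ) ≤ 8745 / 1000000)
    linarith
  · have h1 : |u - u'| ≤ 92 / 10000 := abs_le.mpr ⟨by linarith, by linarith⟩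
    have h2 : (u - u') ^ 2 ≤ (92 / 10000) ^ 2 := sq_le_sq' (by linarith [(abs_le.mp h1).1]) (abs_le.mp h1).2
    linarith

lemma h2y {h m t x1 x2 y1 y2 u u' w v : ℝ} (C : Cst h m) (b : Bx t x1 x2 y1 y2 u u' w v) :
    -((64157 / 10000 * (1 + u) + 3 / 10 * (t + w)) * v) ≤
      (-(1 + u) * (54 / 10 * h - 2 * m) + 3 / 10 * ((m - h) / 2 * (t - x1) - (m + h) / 2 * x2)) * y1 +
      (-(1 + u) * (54 / 10 * h + 2 * m) - 3 / 10 * ((m + h) / 2 * (t - x1) + (m - h) / 2 * x2)) * y2 := by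
  have ht1 := b.t1
  have ht2 := b.t2
  have hw0 := b.w0
  have hww := b.w1
  have hu0 := b.u0
  have hxx : 57 / 10 * (-x1) + 34 / 10 * (h * m) * x2 ≤ 64157 / 10000 * w := by
    have h1 := cs_bound (a := 57 / 10) (b := -(34 / 10 * (h * m))) (y1 := x1) (y2 := x2) (v := w)
      (M := 64157 / 10000) (by norm_num) hw0 (by
        have := hm34 C
        have e : (-(34 / 10 * (h * m))) ^ 2 = (34 / 10) ^ 2 * (h * m) ^ 2 := by ring
        rw [e, this]; norm_num) b.hx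
    linarith
  have ht0 : 0 ≤ t := by linarith
  refine cs_bound (by positivity) b.v0 ?_ b.hy
  have e1 : (-(1 + u) * (54 / 10 * h - 2 * m) + 3 / 10 * ((m - h) / 2 * (t - x1) - (m + h) / 2 * x2)) ^ 2 +
      (-(1 + u) * (54 / 10 * h + 2 * m) - 3 / 10 * ((m + h) / 2 * (t - x1) + (m - h) / 2 * x2)) ^ 2 =
      4116 / 100 * (1 + u) ^ 2 + 6 / 10 * (1 + u) * (57 / 10 * t + (57 / 10 * (-x1) + 34 / 10 * (h * m) * x2))
        + 9 / 100 * ((t - x1) ^ 2 + x2 ^ 2) := by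
    linear_combination ((-(54 / 10) * (1 + u) - 15 / 100 * (t - x1) - 15 / 100 * x2) ^ 2
      + (-(54 / 10) * (1 + u) - 15 / 100 * (t - x1) + 15 / 100 * x2) ^ 2) * C.hh
      + ((2 * (1 + u) + 15 / 100 * (t - x1) - 15 / 100 * x2) ^ 2
        + (-2 * (1 + u) - 15 / 100 * (t - x1) - 15 / 100 * x2) ^ 2) * C.mm
  rw [e1]
  have e2 : (t - x1) ^ 2 + x2 ^ 2 ≤ (t + w) ^ 2 := by
    have h1 := b.hx
    have h2 : t * (-x1) ≤ t * w := mul_le_mul_of_nonneg_left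
      (by linarith [neg_abs_le x1, (xb b).1]) ht0
    have h3 : (t - x1) ^ 2 + x2 ^ 2 = t ^ 2 + 2 * (t * (-x1)) + (x1 ^ 2 + x2 ^ 2) := by ring
    have h4 : (t + w) ^ 2 = t ^ 2 + 2 * (t * w) + w ^ 2 := by ring
    rw [h3, h4, h1]
    linarith
  have e3 : 6 / 10 * (1 + u) * (57 / 10 * t + (57 / 10 * (-x1) + 34 / 10 * (h * m) * x2)) ≤
      6 / 10 * (1 + u) * (57 / 10 * t + 64157 / 10000 * w) :=
    mul_le_mul_of_nonneg_left (by linarith) (by linarith)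
  have e5 : 0 ≤ (1 + u) * t := mul_nonneg (by linarith) ht0
  have e6 : 1 ≤ (1 + u) ^ 2 := one_le_pow₀ (by linarith)
  have e7 : (64157 / 10000 * (1 + u) + 3 / 10 * (t + w)) ^ 2 =
      (64157 / 10000) ^ 2 * (1 + u) ^ 2 + 6 / 10 * (64157 / 10000) * ((1 + u) * t)
      + 6 / 10 * (64157 / 10000) * ((1 + u) * w) + 9 / 100 * (t + w) ^ 2 := by ring
  have e8 : 6 / 10 * (1 + u) * (57 / 10 * t + 64157 / 10000 * w) = 6 / 10 * ((1 + u) * (57 / 10 * t)) +
    6 / 10 * (64157 / 10000) * ((1 + u) * w) := by ring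
  have e9 : (1 + u) * (57 / 10 * t) ≤ 64157 / 10000 * ((1 + u) * t) := by
    have : (1 + u) * (57 / 10 * t) ≤ (1 + u) * (64157 / 10000 * t) :=
      mul_le_mul_of_nonneg_left (by linarith) (by linarith)
    linarith
  rw [e7]
  rw [e8] at e3
  linarith

lemma h4y {h m t x1 x2 y1 y2 u u' w v : ℝ} (C : Cst h m) (b : Bx t x1 x2 y1 y2 u u' w v) :
    -((64157 / 10000 * (1 + u) + 3 / 10 * (t + w)) * v) ≤
      (-(1 + u) * (54 / 10 * h + 2 * m) + 3 / 10 * ((m - h) / 2 * (t - x1) - (m + h) / 2 * x2)) * y1 +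
      (-(1 + u) * (54 / 10 * h - 2 * m) - 3 / 10 * ((m + h) / 2 * (t - x1) + (m - h) / 2 * x2)) * y2 := by
  have ht1 := b.t1
  have ht2 := b.t2
  have hw0 := b.w0
  have hww := b.w1
  have hu0 := b.u0
  have hxx : 3 / 10 * x1 + 74 / 10 * (h * m) * x2 ≤ 64157 / 10000 * w := by
    have h1 := cs_bound (a := -(3 / 10)) (b := -(74 / 10 * (h * m))) (y1 := x1) (y2 := x2) (v := w)
      (M := 64157 / 10000) (by norm_num) hw0 (by
        have := hm34 C
        have e : (-(74 / 10 * (h * m))) ^ 2 = (74 / 10) ^ 2 * (h * m) ^ 2 := by ring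
        rw [e, this]; norm_num) b.hx
    linarith
  have ht0 : 0 ≤ t := by linarith
  refine cs_bound (by positivity) b.v0 ?_ b.hy
  have e1 : (-(1 + u) * (54 / 10 * h + 2 * m) + 3 / 10 * ((m - h) / 2 * (t - x1) - (m + h) / 2 * x2)) ^ 2 +
      (-(1 + u) * (54 / 10 * h - 2 * m) - 3 / 10 * ((m + h) / 2 * (t - x1) + (m - h) / 2 * x2)) ^ 2 =
      4116 / 100 * (1 + u) ^ 2 + 6 / 10 * (1 + u) * (-(3 / 10) * t + (3 / 10 * x1 + 74 / 10 * (h * m) * x2))
        + 9 / 100 * ((t - x1) ^ 2 + x2 ^ 2) := by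
    linear_combination ((-(54 / 10) * (1 + u) - 15 / 100 * (t - x1) - 15 / 100 * x2) ^ 2
      + (-(54 / 10) * (1 + u) - 15 / 100 * (t - x1) + 15 / 100 * x2) ^ 2) * C.hh
      + ((-2 * (1 + u) + 15 / 100 * (t - x1) - 15 / 100 * x2) ^ 2
        + (2 * (1 + u) - 15 / 100 * (t - x1) - 15 / 100 * x2) ^ 2) * C.mm
  rw [e1]
  have e2 : (t - x1) ^ 2 + x2 ^ 2 ≤ (t + w) ^ 2 := by
    have h1 := b.hx
    have h2 : t * (-x1) ≤ t * w := mul_le_mul_of_nonneg_left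
      (by linarith [neg_abs_le x1, (xb b).1]) ht0
    have h3 : (t - x1) ^ 2 + x2 ^ 2 = t ^ 2 + 2 * (t * (-x1)) + (x1 ^ 2 + x2 ^ 2) := by ring
    have h4 : (t + w) ^ 2 = t ^ 2 + 2 * (t * w) + w ^ 2 := by ring
    rw [h3, h4, h1]
    linarith
  have e3 : 6 / 10 * (1 + u) * (-(3 / 10) * t + (3 / 10 * x1 + 74 / 10 * (h * m) * x2)) ≤
      6 / 10 * (1 + u) * (-(3 / 10) * t + 64157 / 10000 * w) :=
    mul_le_mul_of_nonneg_left (by linarith) (by linarith)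
  have e5 : 0 ≤ (1 + u) * t := mul_nonneg (by linarith) ht0
  have e6 : 1 ≤ (1 + u) ^ 2 := one_le_pow₀ (by linarith)
  have e7 : (64157 / 10000 * (1 + u) + 3 / 10 * (t + w)) ^ 2 =
      (64157 / 10000) ^ 2 * (1 + u) ^ 2 + 6 / 10 * (64157 / 10000) * ((1 + u) * t)
      + 6 / 10 * (64157 / 10000) * ((1 + u) * w) + 9 / 100 * (t + w) ^ 2 := by ring
  have e8 : 6 / 10 * (1 + u) * (-(3 / 10) * t + 64157 / 10000 * w) = 6 / 10 * ((1 + u) * (-(3 / 10) * t)) +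
    6 / 10 * (64157 / 10000) * ((1 + u) * w) := by ring
  have e9 : (1 + u) * (-(3 / 10) * t) ≤ 64157 / 10000 * ((1 + u) * t) := by
    have : (1 + u) * (-(3 / 10) * t) ≤ (1 + u) * (64157 / 10000 * t) :=
      mul_le_mul_of_nonneg_left (by linarith) (by linarith)
    linarith
  rw [e7]
  rw [e8] at e3
  linarith

lemma h2x {h m t x1 x2 y1 y2 u u' w v : ℝ} (C : Cst h m) (b : Bx t x1 x2 y1 y2 u u' w v) :
    -((45368 / 10000 + 22684 / 10000 * (u + u')) * w) ≤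
      (2 * m + (27 / 10 * h + m) * u - (27 / 10 * h - m) * u') * x1 + (-(54 / 10 * h) - (27 / 10 * h - m) * u - (27 / 10 * h + m) * u') * x2 := by
  have hu0 := b.u0
  have hu0' := b.u0'
  refine cs_bound (by positivity) b.w0 ?_ b.hx
  obtain ⟨-, -, h3, -⟩ := uub b
  have e1 : (2 * m + (27 / 10 * h + m) * u - (27 / 10 * h - m) * u') ^ 2 + (-(54 / 10 * h) - (27 / 10 * h - m) * u - (27 / 10 * h + m) * u') ^ 2 =
      2058 / 100 + 2058 / 100 * (u + u') + 1029 / 100 * ((u + u') ^ 2 + (u - u') ^ 2) / 2 := by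
    linear_combination ((27 / 10 * (u - u')) ^ 2 + (54 / 10 + 27 / 10 * (u + u')) ^ 2) * C.hh + ((2 + u + u') ^ 2 + (u - u') ^ 2) * C.mm
  rw [e1]
  have e2 : (45368 / 10000 + 22684 / 10000 * (u + u')) ^ 2 = (45368 / 10000) ^ 2
    + 2 * (45368 / 10000) * (22684 / 10000) * (u + u') + (22684 / 10000) ^ 2 * (u + u') ^ 2 := by ring
  rw [e2]
  have e3 := sq_nonneg (u + u')
  linarith

lemma h4x {h m t x1 x2 y1 y2 u u' w v : ℝ} (C : Cst h m) (b : Bx t x1 x2 y1 y2 u u' w v) :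
    -((45368 / 10000 + 22684 / 10000 * (u + u')) * w) ≤
      (-(2 * m) + (27 / 10 * h - m) * u - (27 / 10 * h + m) * u') * x1 + (-(54 / 10 * h) - (27 / 10 * h + m) * u - (27 / 10 * h - m) * u') * x2 := by
  have hu0 := b.u0
  have hu0' := b.u0'
  refine cs_bound (by positivity) b.w0 ?_ b.hx
  obtain ⟨-, -, h3, -⟩ := uub b
  have e1 : (-(2 * m) + (27 / 10 * h - m) * u - (27 / 10 * h + m) * u') ^ 2 + (-(54 / 10 * h) - (27 / 10 * h + m) * u - (27 / 10 * h - m) * u') ^ 2 =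
      2058 / 100 + 2058 / 100 * (u + u') + 1029 / 100 * ((u + u') ^ 2 + (u - u') ^ 2) / 2 := by
    linear_combination ((27 / 10 * (u - u')) ^ 2 + (54 / 10 + 27 / 10 * (u + u')) ^ 2) * C.hh + ((2 + u + u') ^ 2 + (u - u') ^ 2) * C.mm
  rw [e1]
  have e2 : (45368 / 10000 + 22684 / 10000 * (u + u')) ^ 2 = (45368 / 10000) ^ 2
    + 2 * (45368 / 10000) * (22684 / 10000) * (u + u') + (22684 / 10000) ^ 2 * (u + u') ^ 2 := by ring
  rw [e2]
  have e3 := sq_nonneg (u + u')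
  linarith

lemma g2b {h m t x1 x2 y1 y2 u u' w v : ℝ} (C : Cst h m) (b : Bx t x1 x2 y1 y2 u u' w v) :
    -(397 / 10000) + 3818 / 1000 * t - 454 / 100 * w - 642 / 100 * v ≤
    -(15 / 100) * ((m - h) / 2 * ((1 + u) * (1 + u'))
        - (m + h) / 2 * (t ^ 2 - x1 ^ 2 - x2 ^ 2 - 2 * y2 * (t - x1) - 2 * x2 * y1)
        + (m - h) / 2 * (-2 * t * x2 + 2 * x2 * y2 - 2 * t * y1 + 2 * x1 * y1))
      + 27 / 10 * h * (2 * t - 2 * x2 - 2 * (y1 + y2) + u * (t + x1 - x2 - 2 * (y1 + y2))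
        + u' * (t - x1 - x2))
      + m * (2 * x1 + 2 * (y1 - y2) + u * (t + x1 + x2 + 2 * (y1 - y2)) - u' * (t + x2 - x1)) := by
  obtain ⟨hw1, hw2, hw3⟩ := xb b
  obtain ⟨p1, p2, p3, p4⟩ := prods b
  obtain ⟨o1, o2, o3, o4⟩ := uub b
  have hyy := h2y C b
  have hxx := h2x C b
  have ht1 := b.t1
  have ht2 := b.t2
  have ht0 : 0 ≤ t := by linarith
  have hw0 := b.w0
  have hww := b.w1
  have hv0 := b.v0
  have hvv := b.v1
  have hu0 := b.u0
  have hu0' := b.u0'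
  have hu1 := b.u1
  have hu1' := b.u1'
  have hus := b.us
  have hh1 := C.h1
  have hh2 := C.h2
  have hm1 := C.m1
  have hm2 := C.m2
  have b0 := abs_nonneg x2
  have hmt : (m - h) / 2 * t ≤ 25882 / 100000 * (2752 / 100000) :=
    mul_le_mul (by linarith) ht2 ht0 (by norm_num)
  have hmt0 : 0 ≤ (m - h) / 2 * t := mul_nonneg (by linarith) ht0
  have q1 : -(713 / 100000 * |x2|) ≤ ((m - h) / 2 * t) * x2 := mul_ge hmt0 (by linarith)
  have t2 : 594 / 1000000 ≤ t ^ 2 := by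
    have h1 : (2438 / 100000) ^ 2 ≤ t ^ 2 := pow_le_pow_left₀ (by norm_num) ht1 2
    linarith
  have w2 : w ^ 2 ≤ 132 / 10000 * w := by
    rw [sq]; exact mul_le_mul_of_nonneg_right hww hw0
  have q2 : 9659 / 10000 * (t ^ 2) ≤ (m + h) / 2 * t ^ 2 :=
    mul_le_mul_of_nonneg_right (by linarith) (by positivity)
  have q3 : (m + h) / 2 * w ^ 2 ≤ 96593 / 100000 * w ^ 2 :=
    mul_le_mul_of_nonneg_right (by linarith) (by positivity)
  have q4 : 7071067 / 10000000 * t ≤ h * t := mul_le_mul_of_nonneg_right hh1 ht0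
  have q5 : (m - h) / 2 * ((1 + u) * (1 + u')) ≤ 25882 / 100000 * (1 + u + u' + 9 / 100000) := by
    have h1 : (1 + u) * (1 + u') ≤ 1 + u + u' + 9 / 100000 := by
      have : (1 + u) * (1 + u') = 1 + u + u' + u * u' := by ring
      rw [this]; linarith
    exact mul_le_mul (by linarith) h1 (by positivity) (by norm_num)
  have r1 : 31339 / 10000 * (2438 / 100000) ≤ (27 / 10 * h + m) * t :=
    mul_le_mul (by linarith) ht1 (by norm_num) (by linarith)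
  have r2 : 6844 / 10000 * (2438 / 100000) ≤ (27 / 10 * h - m) * t :=
    mul_le_mul (by linarith) ht1 (by norm_num) (by linarith)
  have q6 : u * (31339 / 10000 * (2438 / 100000)) ≤ u * ((27 / 10 * h + m) * t) := mul_le_mul_of_nonneg_left r1 hu0
  have q7 : u' * (6844 / 10000 * (2438 / 100000)) ≤ u' * ((27 / 10 * h - m) * t) := mul_le_mul_of_nonneg_left r2 hu0'
  have key : -(15 / 100) * ((m - h) / 2 * ((1 + u) * (1 + u'))
        - (m + h) / 2 * (t ^ 2 - x1 ^ 2 - x2 ^ 2 - 2 * y2 * (t - x1) - 2 * x2 * y1)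
        + (m - h) / 2 * (-2 * t * x2 + 2 * x2 * y2 - 2 * t * y1 + 2 * x1 * y1))
      + 27 / 10 * h * (2 * t - 2 * x2 - 2 * (y1 + y2) + u * (t + x1 - x2 - 2 * (y1 + y2))
        + u' * (t - x1 - x2))
      + m * (2 * x1 + 2 * (y1 - y2) + u * (t + x1 + x2 + 2 * (y1 - y2)) - u' * (t + x2 - x1)) =
      -(15 / 100) * ((m - h) / 2 * ((1 + u) * (1 + u'))) + 15 / 100 * ((m + h) / 2 * t ^ 2)
      - 15 / 100 * ((m + h) / 2 * w ^ 2) + 3 / 10 * (((m - h) / 2 * t) * x2)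
      + 54 / 10 * (h * t) + u * ((27 / 10 * h + m) * t) + u' * ((27 / 10 * h - m) * t)
      + ((2 * m + (27 / 10 * h + m) * u - (27 / 10 * h - m) * u') * x1 + (-(54 / 10 * h) - (27 / 10 * h - m) * u - (27 / 10 * h + m) * u') * x2)
      + ((-(1 + u) * (54 / 10 * h - 2 * m) + 3 / 10 * ((m - h) / 2 * (t - x1) - (m + h) / 2 * x2)) * y1 +
      (-(1 + u) * (54 / 10 * h + 2 * m) - 3 / 10 * ((m + h) / 2 * (t - x1) + (m - h) / 2 * x2)) * y2) := by
    rw [← b.hx]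
    ring
  rw [key]
  have hMv : (64157 / 10000 * (1 + u) + 3 / 10 * (t + w)) * v =
    64157 / 10000 * v + 64157 / 10000 * (u * v) + 3 / 10 * (t * v) + 3 / 10 * (w * v) := by ring
  rw [hMv] at hyy
  have hMw : (45368 / 10000 + 22684 / 10000 * (u + u')) * w =
    45368 / 10000 * w + 22684 / 10000 * ((u + u') * w) := by ring
  rw [hMw] at hxx
  linarith

lemma g4b {h m t x1 x2 y1 y2 u u' w v : ℝ} (C : Cst h m) (b : Bx t x1 x2 y1 y2 u u' w v) :
    -(397 / 10000) + 3818 / 1000 * t - 454 / 100 * w - 642 / 100 * v ≤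
    -(15 / 100) * ((m - h) / 2 * ((1 + u) * (1 + u'))
        - (m + h) / 2 * (t ^ 2 - x1 ^ 2 - x2 ^ 2 - 2 * y2 * (t - x1) - 2 * x2 * y1)
        + (m - h) / 2 * (-2 * t * x2 + 2 * x2 * y2 - 2 * t * y1 + 2 * x1 * y1))
      + 27 / 10 * h * (2 * t - 2 * x2 - 2 * (y1 + y2) + u * (t + x1 - x2 - 2 * (y1 + y2))
        + u' * (t - x1 - x2))
      - m * (2 * x1 + 2 * (y1 - y2) + u * (t + x1 + x2 + 2 * (y1 - y2)) - u' * (t + x2 - x1)) := by
  obtain ⟨hw1, hw2, hw3⟩ := xb b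
  obtain ⟨p1, p2, p3, p4⟩ := prods b
  obtain ⟨o1, o2, o3, o4⟩ := uub b
  have hyy := h4y C b
  have hxx := h4x C b
  have ht1 := b.t1
  have ht2 := b.t2
  have ht0 : 0 ≤ t := by linarith
  have hw0 := b.w0
  have hww := b.w1
  have hv0 := b.v0
  have hvv := b.v1
  have hu0 := b.u0
  have hu0' := b.u0'
  have hu1 := b.u1
  have hu1' := b.u1'
  have hus := b.us
  have hh1 := C.h1
  have hh2 := C.h2
  have hm1 := C.m1
  have hm2 := C.m2
  have b0 := abs_nonneg x2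
  have hmt : (m - h) / 2 * t ≤ 25882 / 100000 * (2752 / 100000) :=
    mul_le_mul (by linarith) ht2 ht0 (by norm_num)
  have hmt0 : 0 ≤ (m - h) / 2 * t := mul_nonneg (by linarith) ht0
  have q1 : -(713 / 100000 * |x2|) ≤ ((m - h) / 2 * t) * x2 := mul_ge hmt0 (by linarith)
  have t2 : 594 / 1000000 ≤ t ^ 2 := by
    have h1 : (2438 / 100000) ^ 2 ≤ t ^ 2 := pow_le_pow_left₀ (by norm_num) ht1 2
    linarith
  have w2 : w ^ 2 ≤ 132 / 10000 * w := by
    rw [sq]; exact mul_le_mul_of_nonneg_right hww hw0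
  have q2 : 9659 / 10000 * (t ^ 2) ≤ (m + h) / 2 * t ^ 2 :=
    mul_le_mul_of_nonneg_right (by linarith) (by positivity)
  have q3 : (m + h) / 2 * w ^ 2 ≤ 96593 / 100000 * w ^ 2 :=
    mul_le_mul_of_nonneg_right (by linarith) (by positivity)
  have q4 : 7071067 / 10000000 * t ≤ h * t := mul_le_mul_of_nonneg_right hh1 ht0
  have q5 : (m - h) / 2 * ((1 + u) * (1 + u')) ≤ 25882 / 100000 * (1 + u + u' + 9 / 100000) := by
    have h1 : (1 + u) * (1 + u') ≤ 1 + u + u' + 9 / 100000 := by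
      have : (1 + u) * (1 + u') = 1 + u + u' + u * u' := by ring
      rw [this]; linarith
    exact mul_le_mul (by linarith) h1 (by positivity) (by norm_num)
  have r1 : 6844 / 10000 * (2438 / 100000) ≤ (27 / 10 * h - m) * t :=
    mul_le_mul (by linarith) ht1 (by norm_num) (by linarith)
  have r2 : 31339 / 10000 * (2438 / 100000) ≤ (27 / 10 * h + m) * t :=
    mul_le_mul (by linarith) ht1 (by norm_num) (by linarith)
  have q6 : u * (6844 / 10000 * (2438 / 100000)) ≤ u * ((27 / 10 * h - m) * t) := mul_le_mul_of_nonneg_left r1 hu0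
  have q7 : u' * (31339 / 10000 * (2438 / 100000)) ≤ u' * ((27 / 10 * h + m) * t) := mul_le_mul_of_nonneg_left r2 hu0'
  have key : -(15 / 100) * ((m - h) / 2 * ((1 + u) * (1 + u'))
        - (m + h) / 2 * (t ^ 2 - x1 ^ 2 - x2 ^ 2 - 2 * y2 * (t - x1) - 2 * x2 * y1)
        + (m - h) / 2 * (-2 * t * x2 + 2 * x2 * y2 - 2 * t * y1 + 2 * x1 * y1))
      + 27 / 10 * h * (2 * t - 2 * x2 - 2 * (y1 + y2) + u * (t + x1 - x2 - 2 * (y1 + y2))
        + u' * (t - x1 - x2))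
      - m * (2 * x1 + 2 * (y1 - y2) + u * (t + x1 + x2 + 2 * (y1 - y2)) - u' * (t + x2 - x1)) =
      -(15 / 100) * ((m - h) / 2 * ((1 + u) * (1 + u'))) + 15 / 100 * ((m + h) / 2 * t ^ 2)
      - 15 / 100 * ((m + h) / 2 * w ^ 2) + 3 / 10 * (((m - h) / 2 * t) * x2)
      + 54 / 10 * (h * t) + u * ((27 / 10 * h - m) * t) + u' * ((27 / 10 * h + m) * t)
      + ((-(2 * m) + (27 / 10 * h - m) * u - (27 / 10 * h + m) * u') * x1 + (-(54 / 10 * h) - (27 / 10 * h + m) * u - (27 / 10 * h - m) * u') * x2)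
      + ((-(1 + u) * (54 / 10 * h + 2 * m) + 3 / 10 * ((m - h) / 2 * (t - x1) - (m + h) / 2 * x2)) * y1 +
      (-(1 + u) * (54 / 10 * h - 2 * m) - 3 / 10 * ((m + h) / 2 * (t - x1) + (m - h) / 2 * x2)) * y2) := by
    rw [← b.hx]
    ring
  rw [key]
  have hMv : (64157 / 10000 * (1 + u) + 3 / 10 * (t + w)) * v =
    64157 / 10000 * v + 64157 / 10000 * (u * v) + 3 / 10 * (t * v) + 3 / 10 * (w * v) := by ring
  rw [hMv] at hyy
  have hMw : (45368 / 10000 + 22684 / 10000 * (u + u')) * w =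
    45368 / 10000 * w + 22684 / 10000 * ((u + u') * w) := by ring
  rw [hMw] at hxx
  linarith



lemma cst : Cst (cs - sn) (sn + cs) := by
  have h1 := cs_sub_sn
  have h2 := sn_add_cs
  have h3 := sn_sq_add_cs_sq
  have h4 := sn_mul_cs
  have a1 := sqrt2_ge
  have a2 := sqrt2_le
  have a3 := sqrt6_ge
  have a4 := sqrt6_le
  refine ⟨?_, ?_, ?_, ?_, ?_, ?_⟩
  · linear_combination h3 - 2 * h4
  · linear_combination h3 + 2 * h4
  · rw [h1]; linarith
  · rw [h1]; linarith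
  · rw [h2]; linarith
  · rw [h2]; linarith

lemma s32 : Real.sqrt 3 * (Real.sqrt 2 / 2) = sn + cs := by
  rw [sn_add_cs]
  have : Real.sqrt 6 = Real.sqrt 3 * Real.sqrt 2 := by
    rw [← Real.sqrt_mul (by norm_num)]
    norm_num
  rw [this]
  ring

lemma pT_form (r : ℝ) (B : ℂ) (r' : ℝ) (B' : ℂ) : 2 / 3 * pT r B r' B' =
    sn * (r * r') - cs * (B.re * B'.re + B.im * B'.im) + sn * (B.im * B'.re - B.re * B'.im) := by
  have h : (e1 * B * (starRingEnd ℂ) B').re =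
      cs * (B.re * B'.re + B.im * B'.im) - sn * (B.im * B'.re - B.re * B'.im) := by
    rw [mul_assoc, FinR1Aux.e1_re]
    simp only [Complex.mul_re, Complex.mul_im, Complex.conj_re, Complex.conj_im]
    ring
  unfold pT
  rw [h]
  ring

lemma pK_re (r : ℝ) (B : ℂ) (r' : ℝ) (B' : ℂ) : (pK r B r' B').re =
    Real.sqrt 2 / 2 * (r * (B'.re + B'.im) + r' * (B.im - B.re)) := by
  have h1 : e3.re = Real.sqrt 2 / 2 := rfl
  have h2 : e3.im = Real.sqrt 2 / 2 := rfl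
  unfold pK
  simp only [Complex.neg_re, Complex.mul_re, Complex.mul_im, Complex.add_re, Complex.add_im,
    Complex.I_re, Complex.I_im, Complex.ofReal_re, Complex.ofReal_im, h1, h2]
  ring

lemma pK_im (r : ℝ) (B : ℂ) (r' : ℝ) (B' : ℂ) : (pK r B r' B').im =
    -(Real.sqrt 2 / 2 * (r * (B'.re - B'.im) + r' * (B.re + B.im))) := by
  have h1 : e3.re = Real.sqrt 2 / 2 := rfl
  have h2 : e3.im = Real.sqrt 2 / 2 := rfl
  unfold pK
  simp only [Complex.neg_im, Complex.mul_re, Complex.mul_im, Complex.add_re, Complex.add_im,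
    Complex.I_re, Complex.I_im, Complex.ofReal_re, Complex.ofReal_im, h1, h2]
  ring

lemma z3_im (K : ℂ) : (z3 * K).im = -(1 / 2) * K.im + Real.sqrt 3 / 2 * K.re := by
  have h1 : z3.re = -1 / 2 := rfl
  have h2 : z3.im = Real.sqrt 3 / 2 := rfl
  rw [Complex.mul_im, h1, h2]
  ring

lemma z3b_im (K : ℂ) : (z3b * K).im = -(1 / 2) * K.im - Real.sqrt 3 / 2 * K.re := by
  have h1 : z3b.re = -1 / 2 := rfl
  have h2 : z3b.im = -(Real.sqrt 3 / 2) := rfl
  rw [Complex.mul_im, h1, h2]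
  ring

/-- real forms of the four quantities -/
lemma forms (r : ℝ) (B : ℂ) (r' : ℝ) (B' : ℂ) {A I R : ℝ}
    (hA : A = sn * (r * r') - cs * (B.re * B'.re + B.im * B'.im) + sn * (B.im * B'.re - B.re * B'.im))
    (hI : I = r * (B'.re - B'.im) + r' * (B.re + B.im))
    (hR : R = r * (B'.re + B'.im) + r' * (B.im - B.re)) :
    pG2 r B r' B' - pG0 r B r' B' / 2 = A / 2 - 2 * (cs - sn) * I - (sn + cs) * R ∧
    pG4 r B r' B' - pG0 r B r' B' / 2 = A / 2 - 2 * (cs - sn) * I + (sn + cs) * R ∧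
    85 / 100 * pG0 r B r' B' - pG2 r B r' B' =
      -(15 / 100) * A + 27 / 10 * (cs - sn) * I + (sn + cs) * R ∧
    85 / 100 * pG0 r B r' B' - pG4 r B r' B' =
      -(15 / 100) * A + 27 / 10 * (cs - sn) * I - (sn + cs) * R := by
  have h1 := pT_form r B r' B'
  rw [← hA] at h1
  have h2 := pK_re r B r' B'
  rw [← hR] at h2
  have h3 := pK_im r B r' B'
  rw [← hI, ← cs_sub_sn] at h3
  have h4 : Real.sqrt 3 * (pK r B r' B').re = (sn + cs) * R := by
    rw [h2, ← s32]; ring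
  unfold pG2 pG4 pG0
  rw [z3_im, z3b_im, h1, h3]
  refine ⟨?_, ?_, ?_, ?_⟩
  · linear_combination -h4
  · linear_combination h4
  · linear_combination h4
  · linear_combination -h4

lemma mkBx {t w v : ℝ} {x y : ℂ} {r r' : ℝ} {B B' : ℂ} (ht1 : 2438 / 100000 ≤ t)
    (ht2 : t ≤ 2752 / 100000) (hw : w = ‖x‖) (hww : w ≤ 132 / 10000) (hv : v = ‖y‖)
    (hvv : v ≤ 5 / 1000) (hr : 0 < r) (hr' : 0 < r') (hD : 1 ≤ r ^ 2 - normSq B)
    (hD' : 1 ≤ r' ^ 2 - normSq B')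
    (hs : (r ^ 2 - normSq B - 1) + (r' ^ 2 - normSq B' - 1) ≤ 159 / 10000)
    (hB : ‖B‖ ≤ t + w) (hB' : ‖B'‖ ≤ t + w + 2 * v) :
    Bx t x.re x.im y.re y.im (r - 1) (r' - 1) w v := by
  have n1 : normSq B = ‖B‖ ^ 2 := Complex.normSq_eq_norm_sq B
  have n2 : normSq B' = ‖B'‖ ^ 2 := Complex.normSq_eq_norm_sq B'
  have q1 : ‖B‖ ^ 2 ≤ (4072 / 100000) ^ 2 := pow_le_pow_left₀ (norm_nonneg _) (by linarith) 2
  have q2 : ‖B'‖ ^ 2 ≤ (5072 / 100000) ^ 2 := pow_le_pow_left₀ (norm_nonneg _) (by linarith) 2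
  have q1' := sq_nonneg ‖B‖
  have q2' := sq_nonneg ‖B'‖
  have r1 : 1 ≤ r := by
    by_contra h
    have : r ^ 2 < 1 := by nlinarith
    linarith
  have r1' : 1 ≤ r' := by
    by_contra h
    have : r' ^ 2 < 1 := by nlinarith
    linarith
  have e1 : r ≤ 10087450 / 10000000 := by
    by_contra h
    push Not at h
    have : (10087450 / 10000000 : ℝ) ^ 2 < r ^ 2 := pow_lt_pow_left₀ h (by norm_num) (by norm_num)
    linarith
  have e2 : r' ≤ 10092 / 10000 := by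
    by_contra h
    push Not at h
    have : (10092 / 10000 : ℝ) ^ 2 < r' ^ 2 := pow_lt_pow_left₀ h (by norm_num) (by norm_num)
    linarith
  have e3 : (r - 1) + (r' - 1) ≤ 1007 / 100000 := by
    have h1 : 2 * r - 1 ≤ r ^ 2 := by linarith [sq_nonneg (r - 1)]
    have h2 : 2 * r' - 1 ≤ r' ^ 2 := by linarith [sq_nonneg (r' - 1)]
    linarith
  refine ⟨ht1, ht2, ?_, hww, ?_, hvv, ?_, ?_, by linarith, by linarith, by linarith, by linarith, e3⟩
  · rw [hw]; exact norm_nonneg _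
  · rw [hv]; exact norm_nonneg _
  · rw [hw, ← Complex.normSq_eq_norm_sq, Complex.normSq_apply]; ring
  · rw [hv, ← Complex.normSq_eq_norm_sq, Complex.normSq_apply]; ring

/-- the four inequalities -/
def Q4 (r : ℝ) (B : ℂ) (r' : ℝ) (B' : ℂ) (t a w v : ℝ) : Prop :=
    (1289 / 10000 - 28285 / 10000 * t - 28285 / 10000 * (866 / 1000 * a + w) - 53 / 10 * v ≤
      pG2 r B r' B' - pG0 r B r' B' / 2) ∧
    (1289 / 10000 - 28285 / 10000 * t - 28285 / 10000 * (866 / 1000 * a + w) - 53 / 10 * v ≤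
      pG4 r B r' B' - pG0 r B r' B' / 2) ∧
    (-(397 / 10000) + 3818 / 1000 * t - 454 / 100 * w - 642 / 100 * v ≤
      85 / 100 * pG0 r B r' B' - pG2 r B r' B') ∧
    (-(397 / 10000) + 3818 / 1000 * t - 454 / 100 * w - 642 / 100 * v ≤
      85 / 100 * pG0 r B r' B' - pG4 r B r' B')

/-- even nodes first -/
lemma main_a {t w v : ℝ} {x y : ℂ} {r r' : ℝ} {B B' : ℂ} (b : Bx t x.re x.im y.re y.im (r - 1) (r' - 1) w v)
    (hB : B = t - x) (hB' : B' = t + x + 2 * I * y) : Q4 r B r' B' t |x.re| w v := by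
  have hb1 : B.re = t - x.re := by rw [hB]; simp
  have hb2 : B.im = -x.im := by rw [hB]; simp
  have hb3 : B'.re = t + x.re - 2 * y.im := by
    rw [hB']
    simp
    ring
  have hb4 : B'.im = x.im + 2 * y.re := by
    rw [hB']
    simp
  obtain ⟨f1, f2, f3, f4⟩ := forms r B r' B' rfl rfl rfl
  rw [hb1, hb2, hb3, hb4] at f1 f2 f3 f4
  have C := cst
  refine ⟨?_, ?_, ?_, ?_⟩
  · rw [f1]
    refine (g2a C b).trans (le_of_eq ?_)
    ring
  · rw [f2]
    refine (g4a C b).trans (le_of_eq ?_)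
    ring
  · rw [f3]
    refine (g2b C b).trans (le_of_eq ?_)
    ring
  · rw [f4]
    refine (g4b C b).trans (le_of_eq ?_)
    ring

/-- odd nodes first -/
lemma main_b {t w v : ℝ} {x y : ℂ} {r r' : ℝ} {B B' : ℂ} (b : Bx t x.re x.im y.re y.im (r - 1) (r' - 1) w v)
    (hB : B = t - x) (hB' : B' = t + x + 2 * I * y) : Q4 r' B' r B t |x.re| w v := by
  have hb1 : B.re = t - x.re := by rw [hB]; simp
  have hb2 : B.im = -x.im := by rw [hB]; simp
  have hb3 : B'.re = t + x.re - 2 * y.im := by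
    rw [hB']
    simp
    ring
  have hb4 : B'.im = x.im + 2 * y.re := by
    rw [hB']
    simp
  obtain ⟨f1, f2, f3, f4⟩ := forms r' B' r B rfl rfl rfl
  rw [hb1, hb2, hb3, hb4] at f1 f2 f3 f4
  have C := cst
  have b' : Bx t x.re (-x.im) (-y.re) y.im (r - 1) (r' - 1) w v :=
    ⟨b.t1, b.t2, b.w0, b.w1, b.v0, b.v1, by rw [neg_sq]; exact b.hx, by rw [neg_sq]; exact b.hy,
      b.u0, b.u0', b.u1, b.u1', b.us⟩
  refine ⟨?_, ?_, ?_, ?_⟩
  · rw [f1]
    refine (g4a C b').trans (le_of_eq ?_)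
    ring
  · rw [f2]
    refine (g2a C b').trans (le_of_eq ?_)
    ring
  · rw [f3]
    refine (g4b C b').trans (le_of_eq ?_)
    ring
  · rw [f4]
    refine (g2b C b').trans (le_of_eq ?_)
    ring

end FinG24Aux

open FinG24Aux in
/-- (G6) -/
theorem fin_gG24 {t : ℝ} {r : ℕ → ℝ} {B : ℕ → ℂ} (h : Cf t r B) {w v g : ℝ} (hb : NBox t r B w v g)
    (k : ℕ) :
    (1289 / 10000 - 28285 / 10000 * t - 28285 / 10000 * (866 / 1000 * |(cx t B).re| + w) - 53 / 10 * v ≤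
      pG2 (r k) (B k) (r (k + 1)) (B (k + 1)) - pG0 (r k) (B k) (r (k + 1)) (B (k + 1)) / 2) ∧
    (1289 / 10000 - 28285 / 10000 * t - 28285 / 10000 * (866 / 1000 * |(cx t B).re| + w) - 53 / 10 * v ≤
      pG4 (r k) (B k) (r (k + 1)) (B (k + 1)) - pG0 (r k) (B k) (r (k + 1)) (B (k + 1)) / 2) ∧
    (-(397 / 10000) + 3818 / 1000 * t - 454 / 100 * w - 642 / 100 * v ≤
      85 / 100 * pG0 (r k) (B k) (r (k + 1)) (B (k + 1)) - pG2 (r k) (B k) (r (k + 1)) (B (k + 1))) ∧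
    (-(397 / 10000) + 3818 / 1000 * t - 454 / 100 * w - 642 / 100 * v ≤
      85 / 100 * pG0 (r k) (B k) (r (k + 1)) (B (k + 1)) - pG4 (r k) (B k) (r (k + 1)) (B (k + 1))) := by
  obtain ⟨hB0, hB1, hB2, hB3⟩ := FinR1Aux.Bval h
  have hw := hb.hw
  have hv := hb.hv
  have htn : ‖(t : ℂ)‖ = t := by rw [Complex.norm_real, Real.norm_of_nonneg h.t0]
  have hI : ∀ z : ℂ, ‖2 * I * z‖ = 2 * ‖z‖ := by
    intro z
    rw [norm_mul, norm_mul, Complex.norm_I]; norm_num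
  have hg : dd r B 0 + dd r B 1 + dd r B 2 + dd r B 3 ≤ 159 / 10000 := by
    rw [← sig_eq, ← hb.hg]; exact hb.gu
  have d0 := h.dd_nonneg 0
  have d1 := h.dd_nonneg 1
  have d2 := h.dd_nonneg 2
  have d3 := h.dd_nonneg 3
  have hr4 : r 4 = r 0 := h.rper 0
  have hB4 : B 4 = B 0 := h.Bper 0
  have n0 : ‖(t : ℂ) - cx t B‖ ≤ t + w := by
    refine (norm_sub_le _ _).trans ?_
    rw [htn, ← hw]
  have n1 : ∀ y : ℂ, ‖y‖ = v → ‖(t : ℂ) + cx t B + 2 * I * y‖ ≤ t + w + 2 * v := by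
    intro y hy
    refine (norm_add_le _ _).trans ?_
    have := norm_add_le (t : ℂ) (cx t B)
    rw [htn, ← hw] at this
    rw [hI, hy]
    linarith
  have mk : ∀ (i j : ℕ) (y : ℂ), ‖y‖ = v → B i = t - cx t B → B j = t + cx t B + 2 * I * y →
      dd r B i + dd r B j ≤ 159 / 10000 →
      Bx t (cx t B).re (cx t B).im y.re y.im (r i - 1) (r j - 1) w v := by
    intro i j y hy h1 h2 h3
    refine mkBx hb.tl hb.tu hw hb.wu hy.symm hb.vu (h.rpos i) (h.rpos j) (h.D1 i) (h.D1 j) h3 ?_ ?_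
    · rw [h1]; exact n0
    · rw [h2]; exact n1 y hy
  have y1 : ‖cy B‖ = v := hv.symm
  have y2 : ‖-cy B‖ = v := by rw [norm_neg]; exact y1
  have hB3' : B 3 = t + cx t B + 2 * I * (-cy B) := by rw [hB3]; ring
  obtain ⟨j, hj, hred⟩ := FinR1Aux.red h k
  have e0 := hred 0
  have e1 := hred 1
  rw [add_zero, add_zero] at e0
  rw [e0.1, e0.2, e1.1, e1.2]
  rcases hj with rfl | rfl | rfl | rfl
  · exact main_a (mk 0 1 (cy B) y1 hB0 hB1 (by linarith)) hB0 hB1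
  · exact main_b (mk 2 1 (cy B) y1 hB2 hB1 (by linarith)) hB2 hB1
  · exact main_a (mk 2 3 (-cy B) y2 hB2 hB3' (by linarith)) hB2 hB3'
  · have := main_b (mk 0 3 (-cy B) y2 hB0 hB3' (by linarith)) hB0 hB3'
    change Q4 (r 3) (B 3) (r 4) (B 4) t |(cx t B).re| w v
    rw [hr4, hB4]
    exact this

end Rein83
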