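import Pool.Agent.Rein83.FinSDefs

set_option autoImplicit false

/-! Section F, near stage: upper bound of the sum of the four turns (G9). -/

namespace Rein83

open Complex Finset Rein69

private lemma gth_r2 : Real.sqrt 2 ^ 2 = 2 := Real.sq_sqrt (by norm_num)
private lemma gth_r6 : Real.sqrt 6 = Real.sqrt 2 * Real.sqrt 3 := by
  rw [← Real.sqrt_mul (by norm_num)]; norm_num
private lemma gth_q3 : Real.sqrt 3 ^ 2 = 3 := Real.sq_sqrt (by norm_num)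

private lemma gth_q1 : Real.sqrt 3 * sn = cs - 2 * sn := by
  unfold sn cs
  rw [gth_r6]
  linear_combination (Real.sqrt 2 / 4) * gth_q3

private lemma gth_q2 : Real.sqrt 3 * cs = 2 * cs - sn := by
  unfold sn cs
  rw [gth_r6]
  linear_combination (Real.sqrt 2 / 4) * gth_q3

private lemma gth_num : (0 : ℝ) ≤ 2 * sn - 1 / 2 ∧ 2 * sn - 1 / 2 ≤ 17639 / 1000000 ∧
    2 - 4 * sn ≤ 1 ∧ 0 ≤ sn ∧
    2 * cs - 1 / 2 ≤ 143186 / 100000 ∧ 243185 / 100000 ≤ 2 * cs + 1 / 2 ∧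
    58578 / 100000 ≤ 2 - 2 * (cs - sn) ∧ 2 + 2 * (cs - sn) ≤ 341422 / 100000 ∧
    0 ≤ cs - sn ∧ cs - sn ≤ 1 := by
  have a1 : (1.41421356 : ℝ) ≤ Real.sqrt 2 := by
    apply Real.le_sqrt_of_sq_le; norm_num
  have a2 : Real.sqrt 2 ≤ (1.41421357 : ℝ) := by
    apply Real.sqrt_le_iff.mpr; constructor <;> norm_num
  have b1 : (2.44948974 : ℝ) ≤ Real.sqrt 6 := by
    apply Real.le_sqrt_of_sq_le; norm_num
  have b2 : Real.sqrt 6 ≤ (2.44948975 : ℝ) := by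
    apply Real.sqrt_le_iff.mpr; constructor <;> norm_num
  unfold sn cs
  refine ⟨?_, ?_, ?_, ?_, ?_, ?_, ?_, ?_, ?_, ?_⟩ <;> norm_num at * <;> linarith

/-- the sum of the four turns in real coordinates -/
private lemma gth_ident (r0 r1 r2 r3 x1 x2 y1 y2 t : ℝ) :
    pturn r0 ⟨t - x1, -x2⟩ r1 ⟨t + x1 - 2 * y2, x2 + 2 * y1⟩ r2 ⟨t - x1, -x2⟩
      + pturn r1 ⟨t + x1 - 2 * y2, x2 + 2 * y1⟩ r2 ⟨t - x1, -x2⟩ r3 ⟨t + x1 + 2 * y2, x2 - 2 * y1⟩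
      + pturn r2 ⟨t - x1, -x2⟩ r3 ⟨t + x1 + 2 * y2, x2 - 2 * y1⟩ r0 ⟨t - x1, -x2⟩
      + pturn r3 ⟨t + x1 + 2 * y2, x2 - 2 * y1⟩ r0 ⟨t - x1, -x2⟩ r1 ⟨t + x1 - 2 * y2, x2 + 2 * y1⟩
    = 4 * ((2 * sn - 1 / 2) * ((r0 + r1 + r2 + r3) / 4) ^ 2
        + ((r0 - r2) ^ 2 + (r1 - r3) ^ 2) / 16
        - (2 * sn + 1 / 2) * ((r0 - r1 + r2 - r3) / 4) ^ 2 + (y1 ^ 2 + y2 ^ 2)
        + (2 * cs - 1 / 2) * (x1 ^ 2 + x2 ^ 2) - (2 * cs + 1 / 2) * t ^ 2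
        - (2 - 2 * (cs - sn)) * ((r0 + r1 + r2 + r3) / 4) * t
        - (cs - sn) * (r0 - r2) * y1 - (r1 - r3) * y2
        + (2 + 2 * (cs - sn)) * ((r0 - r1 + r2 - r3) / 4) * x1) := by
  simp only [pturn, e1, e2, ob, om, Complex.sub_re, Complex.sub_im, Complex.add_re, Complex.add_im,
    Complex.mul_re, Complex.mul_im, Complex.conj_re, Complex.conj_im, Complex.ofReal_re,
    Complex.ofReal_im, map_add, map_sub, map_mul, Complex.conj_ofReal]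
  linear_combination (-2 * r0 * y1 + 2 * r2 * y1) * gth_q1
    + (r0*x1 + r0*t - r1*x1 + r1*t + r2*x1 + r2*t - r3*x1 + r3*t + 4*x1^2 + 4*x2^2 - 4*t^2) * gth_q2
    + (1/2*r0*x1 - 1/2*r0*t - 1/2*r1*x1 - r1*y2 - 1/2*r1*t + 1/2*r2*x1 - 1/2*r2*t - 1/2*r3*x1
        + r3*y2 - 1/2*r3*t - 1/2*x1^2 - 1/2*x2^2 + y1^2 + y2^2 - 1/2*t^2) * gth_q3

private lemma gth_coords {t : ℝ} {r : ℕ → ℝ} {B : ℕ → ℂ} (h : Cf t r B) : ∃ x1 x2 y1 y2 : ℝ,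
    cx t B = ⟨x1, x2⟩ ∧ cy B = ⟨y1, y2⟩ ∧ B 0 = ⟨t - x1, -x2⟩ ∧
    B 1 = ⟨t + x1 - 2 * y2, x2 + 2 * y1⟩ ∧ B 2 = ⟨t - x1, -x2⟩ ∧
    B 3 = ⟨t + x1 + 2 * y2, x2 - 2 * y1⟩ := by
  have hs := h.sum
  rw [← h.B02] at hs
  have hsr := congrArg Complex.re hs
  have hsi := congrArg Complex.im hs
  have hy : B 1 - B 3 = 4 * I * cy B := by
    unfold cy
    have : (4 * I : ℂ) ≠ 0 := by simp
    field_simp
  have hyr := congrArg Complex.re hy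
  have hyi := congrArg Complex.im hy
  simp [Complex.add_re, Complex.add_im, Complex.mul_re, Complex.mul_im] at hsr hsi hyr hyi
  refine ⟨t - (B 0).re, -(B 0).im, (cy B).re, (cy B).im, ?_, ?_, ?_, ?_, ?_, ?_⟩
  · apply Complex.ext <;> simp [cx]
  · rfl
  · apply Complex.ext <;> simp
  · apply Complex.ext <;> simp <;> linarith
  · rw [← h.B02]; apply Complex.ext <;> simp
  · apply Complex.ext <;> simp <;> linarith

/-- distance of two radii -/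
private lemma gth_rad {p q m : ℝ} (hp : 1 ≤ p) (hq : 1 ≤ q) (h : |p ^ 2 - q ^ 2| ≤ 2 * m) :
    |p - q| ≤ m := by
  have e : |p ^ 2 - q ^ 2| = |p - q| * (p + q) := by
    rw [show p ^ 2 - q ^ 2 = (p - q) * (p + q) by ring, abs_mul, abs_of_pos (by linarith : 0 < p + q)]
  rw [e] at h
  nlinarith only [abs_nonneg (p - q), hp, hq, h]

/-- (G9) -/
theorem fin_gTh {t : ℝ} {r : ℕ → ℝ} {B : ℕ → ℂ} (h : Cf t r B) {w v g : ℝ} (hw : w = ‖cx t B‖)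
    (hv : v = ‖cy B‖) (hg : g = sig r B) :
    ∑ k ∈ range 4, tn r B k ≤ 4 * (17639 / 1000000 * (1 + g / 4 + w ^ 2 + 2 * v ^ 2 + t ^ 2)
      + (g / 8 + v * (t + w)) ^ 2 + v ^ 2
      + 143186 / 100000 * w ^ 2 - 243185 / 100000 * t ^ 2 - 58578 / 100000 * t + g * v / 2
      + 4 * v ^ 2 * (t + w)
      + 341422 / 100000 * w * (g / 8 + v ^ 2 + t * w + v * (t + w))) := by
  obtain ⟨S, hS⟩ : ∃ S, S = ∑ k ∈ range 4, tn r B k := ⟨_, rfl⟩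
  have hth : S ≤ ∑ k ∈ range 4, tn r B k := hS.le
  rw [← hS]
  clear hS
  obtain ⟨x1, x2, y1, y2, hcx, hcy, hB0, hB1, hB2, hB3⟩ := gth_coords h
  have hw0 : 0 ≤ w := by rw [hw]; exact norm_nonneg _
  have hv0 : 0 ≤ v := by rw [hv]; exact norm_nonneg _
  have ht0 := h.t0
  have hw2 : w ^ 2 = x1 ^ 2 + x2 ^ 2 := by
    rw [hw, hcx, ← Complex.normSq_eq_norm_sq, Complex.normSq_mk]; ring
  have hv2 : v ^ 2 = y1 ^ 2 + y2 ^ 2 := by
    rw [hv, hcy, ← Complex.normSq_eq_norm_sq, Complex.normSq_mk]; ring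
  -- the radii and determinants
  have D0 := h.D1 0
  have D1 := h.D1 1
  have D2 := h.D1 2
  have D3 := h.D1 3
  have R0 := h.rpos 0
  have R1 := h.rpos 1
  have R2 := h.rpos 2
  have R3 := h.rpos 3
  have hsum : ∑ k ∈ range 4, tn r B k
      = pturn (r 0) (B 0) (r 1) (B 1) (r 2) (B 2) + pturn (r 1) (B 1) (r 2) (B 2) (r 3) (B 3)
        + pturn (r 2) (B 2) (r 3) (B 3) (r 0) (B 0) + pturn (r 3) (B 3) (r 0) (B 0) (r 1) (B 1) := by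
    have e4 : r 4 = r 0 := h.rper 0
    have e5 : r 5 = r 1 := h.rper 1
    have f4 : B 4 = B 0 := h.Bper 0
    have f5 : B 5 = B 1 := h.Bper 1
    simp only [Finset.sum_range_succ, Finset.sum_range_zero, tn, zero_add]
    norm_num
    rw [e4, e5, f4, f5]
  have hg' : g = (r 0 ^ 2 - normSq (B 0) - 1) + (r 1 ^ 2 - normSq (B 1) - 1)
      + (r 2 ^ 2 - normSq (B 2) - 1) + (r 3 ^ 2 - normSq (B 3) - 1) := by
    rw [hg]; simp only [sig, Finset.sum_range_succ, Finset.sum_range_zero, zero_add]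
  rw [hsum, hB0, hB1, hB2, hB3, gth_ident] at hth
  rw [hB0] at D0 hg'
  rw [hB1] at D1 hg'
  rw [hB2] at D2 hg'
  rw [hB3] at D3 hg'
  rw [Complex.normSq_mk] at D0 D1 D2 D3
  simp only [Complex.normSq_mk] at hg'
  clear hsum hB0 hB1 hB2 hB3 hcx hcy hw hv hg
  generalize r 0 = r0 at *
  generalize r 1 = r1 at *
  generalize r 2 = r2 at *
  generalize r 3 = r3 at *
  obtain ⟨n1, n2, n3, n4, n5, n6, n7, n8, n9, n10⟩ := gth_num
  -- lower bounds for the radii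
  have one_le : ∀ p : ℝ, 0 < p → 1 ≤ p ^ 2 → 1 ≤ p := by
    intro p hp h1; nlinarith only [hp, h1]
  have L0 : 1 ≤ r0 := one_le _ R0 (by linarith only [D0, mul_self_nonneg (t - x1), mul_self_nonneg x2])
  have L1 : 1 ≤ r1 := one_le _ R1 (by
    linarith only [D1, mul_self_nonneg (t + x1 - 2 * y2), mul_self_nonneg (x2 + 2 * y1)])
  have L2 : 1 ≤ r2 := one_le _ R2 (by linarith only [D2, mul_self_nonneg (t - x1), mul_self_nonneg x2])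
  have L3 : 1 ≤ r3 := one_le _ R3 (by
    linarith only [D3, mul_self_nonneg (t + x1 + 2 * y2), mul_self_nonneg (x2 - 2 * y1)])
  -- the excesses
  obtain ⟨d0, hd0⟩ : ∃ d, d = r0 ^ 2 - ((t - x1) * (t - x1) + -x2 * -x2) - 1 := ⟨_, rfl⟩
  obtain ⟨d1, hd1⟩ : ∃ d, d = r1 ^ 2 - ((t + x1 - 2 * y2) * (t + x1 - 2 * y2)
    + (x2 + 2 * y1) * (x2 + 2 * y1)) - 1 := ⟨_, rfl⟩
  obtain ⟨d2, hd2⟩ : ∃ d, d = r2 ^ 2 - ((t - x1) * (t - x1) + -x2 * -x2) - 1 := ⟨_, rfl⟩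
  obtain ⟨d3, hd3⟩ : ∃ d, d = r3 ^ 2 - ((t + x1 + 2 * y2) * (t + x1 + 2 * y2)
    + (x2 - 2 * y1) * (x2 - 2 * y1)) - 1 := ⟨_, rfl⟩
  have hgd : g = d0 + d1 + d2 + d3 := by rw [hg', hd0, hd1, hd2, hd3]
  have d0' : 0 ≤ d0 := by linarith
  have d1' : 0 ≤ d1 := by linarith
  have d2' : 0 ≤ d2 := by linarith
  have d3' : 0 ≤ d3 := by linarith
  -- bounds of coordinates
  have hx1 : |x1| ≤ w := abs_le_of_sq_le_sq (by linarith only [hw2, sq_nonneg x2]) hw0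
  have hy1 : |y1| ≤ v := abs_le_of_sq_le_sq (by linarith only [hv2, sq_nonneg y2]) hv0
  have hy2 : |y2| ≤ v := abs_le_of_sq_le_sq (by linarith only [hv2, sq_nonneg y1]) hv0
  have ha : |t * x1 + v ^ 2| ≤ v ^ 2 + t * w := by
    have := abs_add_le (t * x1) (v ^ 2)
    rw [abs_mul, abs_of_nonneg ht0, abs_of_nonneg (sq_nonneg v)] at this
    linarith only [this, mul_le_mul_of_nonneg_left hx1 ht0]
  have hb : |x2 * y1 - y2 * (t + x1)| ≤ v * (t + w) := by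
    have e : x2 * y1 - y2 * (t + x1) = (x2 * y1 - x1 * y2) - t * y2 := by ring
    rw [e]
    have h1 : |x2 * y1 - x1 * y2| ≤ w * v := by
      apply abs_le_of_sq_le_sq _ (mul_nonneg hw0 hv0)
      rw [mul_pow, hw2, hv2]
      linarith only [sq_nonneg (x1 * y1 + x2 * y2)]
    have h2 : |t * y2| ≤ t * v := by
      rw [abs_mul, abs_of_nonneg ht0]; exact mul_le_mul_of_nonneg_left hy2 ht0
    have := abs_sub (x2 * y1 - x1 * y2) (t * y2)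
    linarith
  obtain ⟨a, hadef⟩ : ∃ a, a = t * x1 + v ^ 2 := ⟨_, rfl⟩
  obtain ⟨b, hbdef⟩ : ∃ b, b = x2 * y1 - y2 * (t + x1) := ⟨_, rfl⟩
  rw [← hadef] at ha
  rw [← hbdef] at hb
  have q02 : r0 ^ 2 - r2 ^ 2 = d0 - d2 := by rw [hd0, hd2]; ring
  have q13 : r1 ^ 2 - r3 ^ 2 = d1 - d3 + 8 * b := by rw [hd1, hd3, hbdef]; ring
  have q01 : r0 ^ 2 - r1 ^ 2 = d0 - d1 - 4 * (a + b) := by
    rw [hd0, hd1, hadef, hbdef, hv2]; ring
  have q23 : r2 ^ 2 - r3 ^ 2 = d2 - d3 - 4 * (a - b) := by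
    rw [hd2, hd3, hadef, hbdef, hv2]; ring
  obtain ⟨a1, a2⟩ := abs_le.mp ha
  obtain ⟨b1, b2⟩ := abs_le.mp hb
  have m02 : |r0 - r2| ≤ (d0 + d2) / 2 := gth_rad L0 L2 (by
    rw [q02, abs_le]; constructor <;> linarith)
  have m13 : |r1 - r3| ≤ (d1 + d3) / 2 + 4 * (v * (t + w)) := gth_rad L1 L3 (by
    rw [q13, abs_le]; constructor <;> linarith)
  have m01 : |r0 - r1| ≤ (d0 + d1) / 2 + 2 * (v ^ 2 + t * w) + 2 * (v * (t + w)) := gth_rad L0 L1 (by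
    rw [q01, abs_le]; constructor <;> linarith)
  have m23 : |r2 - r3| ≤ (d2 + d3) / 2 + 2 * (v ^ 2 + t * w) + 2 * (v * (t + w)) := gth_rad L2 L3 (by
    rw [q23, abs_le]; constructor <;> linarith)
  have vt : 0 ≤ v * (t + w) := mul_nonneg hv0 (by linarith)
  -- the Fourier components
  have hR1 : ((r0 - r2) ^ 2 + (r1 - r3) ^ 2) / 16 ≤ (g / 8 + v * (t + w)) ^ 2 := by
    have e1 : (r0 - r2) ^ 2 = |r0 - r2| ^ 2 := (sq_abs _).symm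
    have e2 : (r1 - r3) ^ 2 = |r1 - r3| ^ 2 := (sq_abs _).symm
    have p1 := abs_nonneg (r0 - r2)
    have p2 := abs_nonneg (r1 - r3)
    have q : (|r0 - r2| + |r1 - r3|) / 4 ≤ g / 8 + v * (t + w) := by rw [hgd]; linarith
    have q' : ((|r0 - r2| + |r1 - r3|) / 4) ^ 2 ≤ (g / 8 + v * (t + w)) ^ 2 :=
      pow_le_pow_left₀ (by positivity) q 2
    rw [e1, e2]
    linarith only [q', mul_nonneg p1 p2]
  have hR2 : |(r0 - r1 + r2 - r3) / 4| ≤ g / 8 + v ^ 2 + t * w + v * (t + w) := by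
    obtain ⟨u1, u2⟩ := abs_le.mp m01
    obtain ⟨u3, u4⟩ := abs_le.mp m23
    rw [abs_le, hgd]
    constructor <;> linarith
  have hR0 : 1 ≤ (r0 + r1 + r2 + r3) / 4 := by linarith
  have hP : ((r0 + r1 + r2 + r3) / 4) ^ 2 = (1 + g / 4 + w ^ 2 + 2 * v ^ 2 + t ^ 2)
      - 2 * (((r0 - r2) ^ 2 + (r1 - r3) ^ 2) / 16) - ((r0 - r1 + r2 - r3) / 4) ^ 2 := by
    rw [hw2, hv2, hg']; ring
  have c1 : |(cs - sn) * (r0 - r2) * y1| ≤ (d0 + d2) / 2 * v := by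
    rw [abs_mul, abs_mul, abs_of_nonneg n9]
    have : (cs - sn) * |r0 - r2| ≤ (d0 + d2) / 2 := by
      nlinarith only [abs_nonneg (r0 - r2), m02, n9, n10]
    exact mul_le_mul this hy1 (abs_nonneg _) (by linarith)
  have c2 : |(r1 - r3) * y2| ≤ ((d1 + d3) / 2 + 4 * (v * (t + w))) * v := by
    rw [abs_mul]
    exact mul_le_mul m13 hy2 (abs_nonneg _) (by linarith)
  have c3 : (2 + 2 * (cs - sn)) * ((r0 - r1 + r2 - r3) / 4) * x1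
      ≤ 341422 / 100000 * w * (g / 8 + v ^ 2 + t * w + v * (t + w)) := by
    have e : (2 + 2 * (cs - sn)) * ((r0 - r1 + r2 - r3) / 4) * x1
        ≤ (2 + 2 * (cs - sn)) * |(r0 - r1 + r2 - r3) / 4| * |x1| := by
      have := le_abs_self ((2 + 2 * (cs - sn)) * ((r0 - r1 + r2 - r3) / 4) * x1)
      rwa [abs_mul, abs_mul, abs_of_nonneg (by linarith : 0 ≤ 2 + 2 * (cs - sn))] at this
    refine e.trans ?_
    have s0 : 0 ≤ g / 8 + v ^ 2 + t * w + v * (t + w) := le_trans (abs_nonneg _) hR2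
    calc (2 + 2 * (cs - sn)) * |(r0 - r1 + r2 - r3) / 4| * |x1|
        ≤ (341422 / 100000 * (g / 8 + v ^ 2 + t * w + v * (t + w))) * w := by
          apply mul_le_mul _ hx1 (abs_nonneg _) (by positivity)
          exact mul_le_mul n8 hR2 (abs_nonneg _) (by norm_num)
      _ = _ := by ring
  -- abbreviations
  obtain ⟨P, hPd⟩ : ∃ P, P = 1 + g / 4 + w ^ 2 + 2 * v ^ 2 + t ^ 2 := ⟨_, rfl⟩
  obtain ⟨S1, hS1⟩ : ∃ S, S = ((r0 - r2) ^ 2 + (r1 - r3) ^ 2) / 16 := ⟨_, rfl⟩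
  obtain ⟨ρ0, hρ0⟩ : ∃ S, S = (r0 + r1 + r2 + r3) / 4 := ⟨_, rfl⟩
  obtain ⟨ρ2, hρ2⟩ : ∃ S, S = (r0 - r1 + r2 - r3) / 4 := ⟨_, rfl⟩
  have S1n : 0 ≤ S1 := by rw [hS1]; positivity
  have Pn : 0 ≤ P := by
    rw [hPd, hgd]; positivity
  rw [← hS1] at hR1 hP hth
  rw [← hρ0] at hR0 hP hth
  rw [← hρ2] at hP hth c3
  rw [← hPd] at hP ⊢
  rw [← hw2, ← hv2, hP] at hth
  have k1 : (2 * sn - 1 / 2) * P ≤ 17639 / 1000000 * P := mul_le_mul_of_nonneg_right n2 Pn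
  have k2 : (2 - 4 * sn) * S1 ≤ (g / 8 + v * (t + w)) ^ 2 := by nlinarith only [n3, S1n, hR1]
  have k3 : 0 ≤ sn * ρ2 ^ 2 := mul_nonneg n4 (sq_nonneg _)
  have k4 : (2 * cs - 1 / 2) * w ^ 2 ≤ 143186 / 100000 * w ^ 2 :=
    mul_le_mul_of_nonneg_right n5 (sq_nonneg _)
  have k5 : 243185 / 100000 * t ^ 2 ≤ (2 * cs + 1 / 2) * t ^ 2 :=
    mul_le_mul_of_nonneg_right n6 (sq_nonneg _)
  have k6 : 58578 / 100000 * t ≤ (2 - 2 * (cs - sn)) * ρ0 * t := by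
    apply mul_le_mul_of_nonneg_right _ ht0
    nlinarith only [n7, hR0]
  have k7 := (abs_le.mp c1).1
  have k8 := (abs_le.mp c2).1
  have k9 : (d0 + d2) / 2 * v + ((d1 + d3) / 2 + 4 * (v * (t + w))) * v
      = g * v / 2 + 4 * v ^ 2 * (t + w) := by rw [hgd]; ring
  linarith only [hth, k1, k2, k3, k4, k5, k6, k7, k8, k9, c3]

end Rein83
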