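import Pool.Agent.Rein83.NBoxDef
import Pool.Agent.Rein83.NearDefs
import Pool.Agent.Rein83.FinS1

set_option autoImplicit false

/-! Section F, near stage, module G4: lower bounds of `pcrx`, `pcry`. -/

namespace Rein83

open Complex Finset Rein69

namespace FinGcr

/-- `pcrx / √3` in real coordinates -/
noncomputable def gX (r b1 b2 r' c1 c2 r'' d1 d2 : ℝ) : ℝ :=
  cs * (r'' * r') - Real.sqrt 3 / 2 * (r'' * r) - r' ^ 2 + cs * (r * r')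
    + r' * (sn * (b1 - d1) + cs * (b2 + d2)) + r * (-d2 + cs * c1 - sn * c2)
    - r'' * (b2 + cs * c1 + sn * c2)
    + (sn * (c1 * d1 + c2 * d2) + cs * (c2 * d1 - c1 * d2))
    + (1 / 2 * (b2 * d1 - b1 * d2) - Real.sqrt 3 / 2 * (b1 * d1 + b2 * d2)) + (c1 ^ 2 + c2 ^ 2)
    + (sn * (b1 * c1 + b2 * c2) + cs * (b2 * c1 - b1 * c2))

lemma pcrx_eq (r : ℝ) (B : ℂ) (r' : ℝ) (B' : ℂ) (r'' : ℝ) (B'' : ℂ) :
    pcrx r B r' B' r'' B'' =
      Real.sqrt 3 * gX r B.re B.im r' B'.re B'.im r'' B''.re B''.im := by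
  have h2 : Real.sqrt 2 ^ 2 = 2 := Real.sq_sqrt (by norm_num)
  have h3 : Real.sqrt 3 ^ 2 = 3 := Real.sq_sqrt (by norm_num)
  have h6 : Real.sqrt 6 = Real.sqrt 2 * Real.sqrt 3 := by
    rw [← Real.sqrt_mul (by norm_num)]
    norm_num
  have h33 : Real.sqrt 3 ^ 3 = 3 * Real.sqrt 3 := by rw [pow_succ, h3]
  have h34 : Real.sqrt 3 ^ 4 = 9 := by
    rw [show Real.sqrt 3 ^ 4 = (Real.sqrt 3 ^ 2) ^ 2 by ring, h3]; norm_num
  have h35 : Real.sqrt 3 ^ 5 = 9 * Real.sqrt 3 := by rw [pow_succ, h34]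
  have h36 : Real.sqrt 3 ^ 6 = 27 := by
    rw [show Real.sqrt 3 ^ 6 = (Real.sqrt 3 ^ 2) ^ 3 by ring, h3]; norm_num
  simp only [pcrx, cr, gX, e1, z3, z3b, om, ob, sn, cs, h6, sub_re, sub_im, add_re, add_im, mul_re,
    mul_im, conj_re, conj_im, ofReal_re, ofReal_im]
  ring_nf
  simp only [h2, h3, h33, h34, h35, h36]
  ring

lemma pcry_eq (r : ℝ) (B : ℂ) (r' : ℝ) (B' : ℂ) (r'' : ℝ) (B'' : ℂ) :
    pcry r B r' B' r'' B'' =
      Real.sqrt 3 * gX r'' B''.re (-B''.im) r' B'.re (-B'.im) r B.re (-B.im) := by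
  have h2 : Real.sqrt 2 ^ 2 = 2 := Real.sq_sqrt (by norm_num)
  have h3 : Real.sqrt 3 ^ 2 = 3 := Real.sq_sqrt (by norm_num)
  have h6 : Real.sqrt 6 = Real.sqrt 2 * Real.sqrt 3 := by
    rw [← Real.sqrt_mul (by norm_num)]
    norm_num
  have h33 : Real.sqrt 3 ^ 3 = 3 * Real.sqrt 3 := by rw [pow_succ, h3]
  have h34 : Real.sqrt 3 ^ 4 = 9 := by
    rw [show Real.sqrt 3 ^ 4 = (Real.sqrt 3 ^ 2) ^ 2 by ring, h3]; norm_num
  have h35 : Real.sqrt 3 ^ 5 = 9 * Real.sqrt 3 := by rw [pow_succ, h34]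
  have h36 : Real.sqrt 3 ^ 6 = 27 := by
    rw [show Real.sqrt 3 ^ 6 = (Real.sqrt 3 ^ 2) ^ 3 by ring, h3]; norm_num
  simp only [pcry, cr, gX, e1, e2, z3, z3b, om, ob, sn, cs, h6, sub_re, sub_im, add_re, add_im,
    mul_re, mul_im, conj_re, conj_im, ofReal_re, ofReal_im]
  ring_nf
  simp only [h2, h3, h33, h34, h35, h36]
  ring

/-- `pcrx / √3` for an even middle node -/
lemma gX_even (t x1 x2 y1 y2 um u0 up : ℝ) :
    gX (1 + um) (t + x1 + 2 * y2) (x2 - 2 * y1) (1 + u0) (t - x1) (-x2) (1 + up)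
      (t + x1 - 2 * y2) (x2 + 2 * y1) =
    (2 * cs - Real.sqrt 3 / 2 - 1) + (2 * sn + 1 - Real.sqrt 3 / 2) * t ^ 2
      + (-(2 * (1 - cs)) * u0 - u0 ^ 2 + 2 * cs * (u0 * x2) + 4 * sn * (u0 * y2))
      + (2 * (sn + cs - 1) * x2 - (2 + Real.sqrt 3) * (t * x1)
        + 4 * sn * y2 - (4 * cs + 2) * t * y1 + (4 * cs - 2) * (x1 * y1 + x2 * y2))
      - (2 * sn + Real.sqrt 3 / 2 - 1) * (x1 ^ 2 + x2 ^ 2) + 2 * Real.sqrt 3 * (y1 ^ 2 + y2 ^ 2)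
      + (um * ((cs - Real.sqrt 3 / 2 - (1 - sn) * x2) + (cs * t - cs * x1 - 2 * y1))
        + up * ((cs - Real.sqrt 3 / 2 - (1 - sn) * x2) - (cs * t - cs * x1 - 2 * y1))
        - Real.sqrt 3 / 2 * (um * up) + cs * u0 * (um + up)) := by
  unfold gX
  ring

/-- `pcrx / √3` for an odd middle node -/
lemma gX_odd (t x1 x2 y1 y2 um u0 up : ℝ) :
    gX (1 + um) (t + x1) x2 (1 + u0) (t - x1 - 2 * y1) (-x2 - 2 * y2) (1 + up) (t + x1) x2 =
    (2 * cs - Real.sqrt 3 / 2 - 1) + (2 * sn + 1 - Real.sqrt 3 / 2) * t ^ 2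
      + (-(2 * (1 - cs)) * u0 - u0 ^ 2 + 2 * cs * (u0 * x2))
      + (2 * (sn + cs - 1) * x2 - (2 + Real.sqrt 3) * (t * x1)
        + 4 * sn * y2 - (4 * sn + 4) * t * y1 + (4 - 4 * sn) * (x1 * y1 + x2 * y2))
      - (2 * sn + Real.sqrt 3 / 2 - 1) * (x1 ^ 2 + x2 ^ 2) + 4 * (y1 ^ 2 + y2 ^ 2)
      + (um * ((cs - Real.sqrt 3 / 2 - (1 - sn) * x2 + 2 * sn * y2) + (cs * t - cs * x1 - 2 * cs * y1))
        + up * ((cs - Real.sqrt 3 / 2 - (1 - sn) * x2 + 2 * sn * y2) - (cs * t - cs * x1 - 2 * cs * y1))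
        - Real.sqrt 3 / 2 * (um * up) + cs * u0 * (um + up)) := by
  unfold gX
  ring

lemma cauchy {a b x y M w : ℝ} (h : x ^ 2 + y ^ 2 = w ^ 2) (hM : a ^ 2 + b ^ 2 ≤ M ^ 2)
    (hM0 : 0 ≤ M) (hw0 : 0 ≤ w) : -(M * w) ≤ a * x + b * y := by
  have h1 : (a * x + b * y) ^ 2 ≤ (M * w) ^ 2 := by
    have h2 : (a ^ 2 + b ^ 2) * w ^ 2 ≤ M ^ 2 * w ^ 2 := mul_le_mul_of_nonneg_right hM (sq_nonneg w)
    nlinarith [sq_nonneg (a * y - b * x)]
  exact (abs_le_of_sq_le_sq' h1 (mul_nonneg hM0 hw0)).1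

lemma s3 : (17320508 : ℝ) / 10000000 ≤ Real.sqrt 3 ∧ Real.sqrt 3 ≤ 17320509 / 10000000 :=
  ⟨Real.le_sqrt_of_sq_le (by norm_num), Real.sqrt_le_iff.2 ⟨by norm_num, by norm_num⟩⟩

/-- the terms with `u` of the outer nodes -/
lemma Ub {A D um up u0 nm np dm dp : ℝ} (hum : 0 ≤ um) (hup : 0 ≤ up) (hu0 : 0 ≤ u0)
    (hdm : 0 ≤ dm) (hdp : 0 ≤ dp) (h1 : um * (2 + um) = dm + nm) (h2 : up * (2 + up) = dp + np)
    (hnm : 0 ≤ nm) (hnp : 0 ≤ np)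
    (hA : 875 / 10000 ≤ A) (hD : |D| ≤ 494 / 10000) (hm : um ≤ 96 / 10000) (hp : up ≤ 96 / 10000) :
    414 / 10000 * (nm + np) + 4975 / 10000 * (D * (nm - np)) ≤
      um * (A + D) + up * (A - D) - Real.sqrt 3 / 2 * (um * up) + cs * u0 * (um + up) := by
  obtain ⟨hD1, hD2⟩ := abs_le.1 hD
  have h3 := s3.2
  have hc := cs_pos
  have e1 : 0 ≤ cs * u0 * (um + up) := by positivity
  have e2 : um * up ≤ 96 / 20000 * (um + up) := by nlinarith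
  have e3 : Real.sqrt 3 / 2 * (um * up) ≤ 42 / 10000 * (um + up) := by
    have e4 : 0 ≤ um * up := mul_nonneg hum hup
    nlinarith
  have e5 : 4975 / 10000 * nm ≤ um := by nlinarith
  have e6 : 4975 / 10000 * np ≤ up := by nlinarith
  have e7 : 0 ≤ A - 42 / 10000 + D := by linarith
  have e8 : 0 ≤ A - 42 / 10000 - D := by linarith
  have e9 := mul_le_mul_of_nonneg_right e5 e7
  have e10 := mul_le_mul_of_nonneg_right e6 e8
  have e11 : 833 / 10000 * (nm + np) ≤ (A - 42 / 10000) * (nm + np) :=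
    mul_le_mul_of_nonneg_right (by linarith) (by linarith)
  linarith

/-- the linear terms -/
lemma lin {q p k κ l t x1 x2 y1 y2 w v : ℝ} (hq1 : 0 ≤ q) (hq : q ≤ 44950 / 100000)
    (hp0 : 0 ≤ p) (hp : p ≤ 3464 / 1000) (hl1 : 10352 / 10000 ≤ l) (hl2 : l ≤ 103528 / 100000)
    (hk0 : 0 ≤ k) (hκ0 : 0 ≤ κ) (hκ : κ ≤ 297 / 100)
    (ht0 : 2438 / 100000 ≤ t) (ht1 : t ≤ 2752 / 100000)
    (hkt : k * t ≤ 1614 / 10000) (hkk : k * t + κ * (66 / 10000) ≤ 1759 / 10000)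
    (hw0 : 0 ≤ w) (hw : w ≤ 132 / 10000) (hv0 : 0 ≤ v) (hv : v ≤ 5 / 1000)
    (hx : x1 ^ 2 + x2 ^ 2 = w ^ 2) (hy : y1 ^ 2 + y2 ^ 2 = v ^ 2) :
    -((44957 / 100000 + 1313 / 100 * t ^ 2) * w) - 10479 / 10000 * v ≤
      q * x2 - p * (t * x1) + l * y2 - k * t * y1 + κ * (x1 * y1 + x2 * y2) := by
  have hx1 : |x1| ≤ w := by
    refine abs_le_of_sq_le_sq ?_ hw0
    linarith [sq_nonneg x2]
  have hx2 : |x2| ≤ w := by
    refine abs_le_of_sq_le_sq ?_ hw0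
    linarith [sq_nonneg x1]
  obtain ⟨a1, a2⟩ := abs_le.1 hx1
  obtain ⟨b1, b2⟩ := abs_le.1 hx2
  have hkt0 : 0 ≤ k * t := by positivity
  rcases le_total x2 (-(17 / 100 * w)) with hc | hc
  · -- the coupling helps
    have h1 : -((44957 / 100000 + 1313 / 100 * t ^ 2) * w) ≤ (-(p * t)) * x1 + q * x2 := by
      refine cauchy hx ?_ (by positivity) hw0
      have e1 : q ^ 2 ≤ (44950 / 100000) ^ 2 := pow_le_pow_left₀ hq1 hq 2
      have e2 : p ^ 2 ≤ (3464 / 1000) ^ 2 := pow_le_pow_left₀ hp0 hp 2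
      have e3 : p ^ 2 * t ^ 2 ≤ (3464 / 1000) ^ 2 * t ^ 2 :=
        mul_le_mul_of_nonneg_right e2 (sq_nonneg t)
      nlinarith [sq_nonneg (t ^ 2 - 56 / 100000)]
    have h2 : -(10479 / 10000 * v) ≤ (-(k * t) + κ * x1) * y1 + (l + κ * x2) * y2 := by
      refine cauchy hy ?_ (by norm_num) hv0
      have e1 : l ^ 2 ≤ (103528 / 100000) ^ 2 := pow_le_pow_left₀ (by linarith) hl2 2
      have e2 : (k * t) ^ 2 ≤ (1614 / 10000) ^ 2 := pow_le_pow_left₀ hkt0 hkt 2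
      have e3 : l * x2 ≤ -(10352 / 10000 * (17 / 100 * w)) := by
        have h7 : l * x2 ≤ l * (-(17 / 100 * w)) := mul_le_mul_of_nonneg_left hc (by linarith)
        have h8 : 10352 / 10000 * w ≤ l * w := mul_le_mul_of_nonneg_right hl1 hw0
        linarith
      have e4 : -(k * t * x1) ≤ k * t * w := by
        have h7 : k * t * (-x1) ≤ k * t * w := mul_le_mul_of_nonneg_left (by linarith) hkt0
        linarith
      have e5 : κ * w ^ 2 ≤ κ * (132 / 10000) * w := by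
        have h7 : w ^ 2 ≤ 132 / 10000 * w := by
          rw [pow_two]
          exact mul_le_mul_of_nonneg_right hw hw0
        have h8 := mul_le_mul_of_nonneg_left h7 hκ0
        linarith
      have e8 : w * (k * t + κ * (66 / 10000)) ≤ w * (1759 / 10000) :=
        mul_le_mul_of_nonneg_left hkk hw0
      have e6 : 2 * (l * x2 - k * t * x1) + κ * w ^ 2 ≤ 0 := by
        have h7 : w * (k * t + κ * (66 / 10000)) = k * t * w + κ * (132 / 10000) * w / 2 := by ring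
        linarith
      have e7 : κ * (2 * (l * x2 - k * t * x1) + κ * w ^ 2) ≤ 0 :=
        mul_nonpos_of_nonneg_of_nonpos hκ0 e6
      have e9 : (-(k * t) + κ * x1) ^ 2 + (l + κ * x2) ^ 2 =
          (k * t) ^ 2 + l ^ 2 + κ * (2 * (l * x2 - k * t * x1) + κ * w ^ 2) := by
        linear_combination κ ^ 2 * hx
      rw [e9]
      linarith
    have h9 : q * x2 - p * (t * x1) + l * y2 - k * t * y1 + κ * (x1 * y1 + x2 * y2) =
        ((-(p * t)) * x1 + q * x2) + ((-(k * t) + κ * x1) * y1 + (l + κ * x2) * y2) := by ring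
    rw [h9]
    linarith
  · -- the linear term in `x` is small
    have h2 : -(10479 / 10000 * v) ≤ (-(k * t)) * y1 + l * y2 := by
      refine cauchy hy ?_ (by norm_num) hv0
      have e1 : l ^ 2 ≤ (103528 / 100000) ^ 2 := pow_le_pow_left₀ (by linarith) hl2 2
      have e2 : (k * t) ^ 2 ≤ (1614 / 10000) ^ 2 := pow_le_pow_left₀ hkt0 hkt 2
      linarith
    have h3 : -(v * w) ≤ y1 * x1 + y2 * x2 :=
      cauchy hx (by linarith) hv0 hw0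
    have h4 : -(15 / 1000 * w) ≤ κ * (x1 * y1 + x2 * y2) := by
      have e0 : κ * v ≤ 297 / 100 * (5 / 1000) := mul_le_mul hκ hv hv0 (by norm_num)
      have e1 : κ * v * w ≤ 297 / 100 * (5 / 1000) * w := mul_le_mul_of_nonneg_right e0 hw0
      have e2 : κ * (-(v * w)) ≤ κ * (y1 * x1 + y2 * x2) := mul_le_mul_of_nonneg_left h3 hκ0
      linarith
    have h5 : p * (t * x1) ≤ 954 / 10000 * w := by
      have e1 : p * t ≤ 3464 / 1000 * (2752 / 100000) := mul_le_mul hp ht1 (by linarith) (by norm_num)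
      have e2 : p * t * x1 ≤ p * t * w := mul_le_mul_of_nonneg_left a2 (by positivity)
      have e3 : p * t * w ≤ 3464 / 1000 * (2752 / 100000) * w := mul_le_mul_of_nonneg_right e1 hw0
      linarith
    have h6 : -(765 / 10000 * w) ≤ q * x2 := by
      have e2 : q * (-(17 / 100 * w)) ≤ q * x2 := mul_le_mul_of_nonneg_left hc hq1
      have e3 : q * w ≤ 44950 / 100000 * w := mul_le_mul_of_nonneg_right hq hw0
      linarith
    have h7 : 0 ≤ 1313 / 100 * t ^ 2 * w := by positivity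
    linarith

lemma usq {u d n : ℝ} (hu : 0 ≤ u) (h : u * (2 + u) = d + n) : u ≤ (d + n) / 2 := by
  have : 0 ≤ u * u := mul_nonneg hu hu
  linarith

/-- numerical bounds of the coefficients -/
lemma coef : 658259 / 10000000 ≤ 2 * cs - Real.sqrt 3 / 2 - 1 ∧
    6516 / 10000 ≤ 2 * sn + 1 - Real.sqrt 3 / 2 ∧
    2 * (1 - cs) ≤ 681487 / 10000000 ∧
    99900 / 1000000 ≤ cs - Real.sqrt 3 / 2 ∧
    2 * sn + Real.sqrt 3 / 2 - 1 ≤ 38367 / 100000 ∧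
    0 ≤ 2 * (sn + cs - 1) ∧ 2 * (sn + cs - 1) ≤ 44950 / 100000 := by
  obtain ⟨q1, q2⟩ := s3
  have c1 := cs_ge
  have c2 := cs_le
  have n1 := sn_ge
  have n2 := sn_le
  refine ⟨?_, ?_, ?_, ?_, ?_, ?_, ?_⟩ <;> linarith

/-- the last scaling by `√3` -/
lemma scale {X w v g : ℝ} (hw0 : 0 ≤ w) (hv0 : 0 ≤ v) (hg0 : 0 ≤ g)
    (h : 659335 / 10000000 - 461878 / 1000000 * w - 105077 / 100000 * v - 3464 / 100000 * g ≤ X) :
    1142 / 10000 - 8 / 10 * w - 182 / 100 * v - 6 / 100 * g ≤ Real.sqrt 3 * X := by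
  obtain ⟨q1, q2⟩ := s3
  have h1 := mul_le_mul_of_nonneg_left h (Real.sqrt_nonneg 3)
  have h2 : Real.sqrt 3 * w ≤ 17320509 / 10000000 * w := mul_le_mul_of_nonneg_right q2 hw0
  have h3 : Real.sqrt 3 * v ≤ 17320509 / 10000000 * v := mul_le_mul_of_nonneg_right q2 hv0
  have h4 : Real.sqrt 3 * g ≤ 17320509 / 10000000 * g := mul_le_mul_of_nonneg_right q2 hg0
  linarith

lemma absx {x y w : ℝ} (hw0 : 0 ≤ w) (h : x ^ 2 + y ^ 2 = w ^ 2) :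
    (-w ≤ x ∧ x ≤ w) ∧ (-w ≤ y ∧ y ≤ w) := by
  have hx : |x| ≤ w := by
    refine abs_le_of_sq_le_sq ?_ hw0
    linarith [sq_nonneg y]
  have hy : |y| ≤ w := by
    refine abs_le_of_sq_le_sq ?_ hw0
    linarith [sq_nonneg x]
  exact ⟨abs_le.1 hx, abs_le.1 hy⟩

/-- the terms with `u` of the middle node -/
lemma U0b {u0 x2 w b c : ℝ} (hu0 : 0 ≤ u0) (hu1 : u0 ≤ b) (hx2 : -w ≤ x2) (hw : w ≤ 132 / 10000)
    (hc : 681487 / 10000000 + b + 2550046 / 100000000 ≤ c) :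
    -(c * u0) ≤ -(2 * (1 - cs)) * u0 - u0 ^ 2 + 2 * cs * (u0 * x2) := by
  obtain ⟨-, -, k3, -, -, -, -⟩ := coef
  have e1 : 2 * (1 - cs) * u0 ≤ 681487 / 10000000 * u0 := mul_le_mul_of_nonneg_right k3 hu0
  have e2 : u0 * u0 ≤ b * u0 := mul_le_mul_of_nonneg_right hu1 hu0
  have e3 : u0 * (-x2) ≤ u0 * (132 / 10000) := mul_le_mul_of_nonneg_left (by linarith) hu0
  have e4 : 2 * cs * (u0 * (-x2)) ≤ 2 * cs * (u0 * (132 / 10000)) :=
    mul_le_mul_of_nonneg_left e3 (by linarith [cs_pos])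
  have e5 : cs * (u0 * (132 / 10000)) ≤ 9659259 / 10000000 * (u0 * (132 / 10000)) :=
    mul_le_mul_of_nonneg_right cs_le (by positivity)
  have e6 : (681487 / 10000000 + b + 2550046 / 100000000) * u0 ≤ c * u0 :=
    mul_le_mul_of_nonneg_right hc hu0
  linarith

lemma sqb {z M : ℝ} (h1 : -M ≤ z) (h2 : z ≤ M) : z ^ 2 ≤ M ^ 2 := sq_le_sq' h1 h2

/-- the final polynomial inequality, even case -/
lemma finE {t w v g : ℝ} (ht0 : 2438 / 100000 ≤ t) (hw0 : 0 ≤ w) (hw : w ≤ 132 / 10000)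
    (hv0 : 0 ≤ v) (hv : v ≤ 5 / 1000) (hg1 : g ≤ 159 / 10000) :
    0 ≤ -(1076 / 10000000) + 68315 / 100000 * t ^ 2 - 1313 / 100 * (t ^ 2 * w)
      + 12308 / 1000000 * w - 35212 / 100000 * w ^ 2 - 1661 / 100000 * g - 1443 / 100000 * v
      + 37953 / 10000 * v ^ 2 := by
  have e1 : (2438 / 100000) ^ 2 ≤ t ^ 2 := pow_le_pow_left₀ (by norm_num) ht0 2
  have e2 : 0 ≤ (t ^ 2 - (2438 / 100000) ^ 2) * (68315 / 100000 - 1313 / 100 * w) :=
    mul_nonneg (by linarith) (by linarith)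
  have e3 := sq_nonneg (v - 19 / 10000)
  have e4 : 0 ≤ w * (132 / 10000 - w) := mul_nonneg hw0 (by linarith)
  linarith only [e1, e2, e3, e4, hw0, hw, hv0, hv, hg1]

/-- even middle node -/
lemma core_even {t x1 x2 y1 y2 um u0 up dm d0 dp w v g : ℝ}
    (ht0 : 2438 / 100000 ≤ t) (ht1 : t ≤ 2752 / 100000)
    (hw0 : 0 ≤ w) (hw : w ≤ 132 / 10000) (hv0 : 0 ≤ v) (hv : v ≤ 5 / 1000)
    (hx : x1 ^ 2 + x2 ^ 2 = w ^ 2) (hy : y1 ^ 2 + y2 ^ 2 = v ^ 2)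
    (hum : 0 ≤ um) (hu0 : 0 ≤ u0) (hup : 0 ≤ up)
    (hdm : 0 ≤ dm) (hd0 : 0 ≤ d0) (hdp : 0 ≤ dp) (hg : dm + d0 + dp ≤ g) (hg1 : g ≤ 159 / 10000)
    (h1 : um * (2 + um) = dm + ((t + x1 + 2 * y2) ^ 2 + (x2 - 2 * y1) ^ 2))
    (h2 : u0 * (2 + u0) = d0 + ((t - x1) ^ 2 + (-x2) ^ 2))
    (h3 : up * (2 + up) = dp + ((t + x1 - 2 * y2) ^ 2 + (x2 + 2 * y1) ^ 2)) :
    1142 / 10000 - 8 / 10 * w - 182 / 100 * v - 6 / 100 * g ≤
      Real.sqrt 3 * gX (1 + um) (t + x1 + 2 * y2) (x2 - 2 * y1) (1 + u0) (t - x1) (-x2) (1 + up)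
      (t + x1 - 2 * y2) (x2 + 2 * y1) := by
  obtain ⟨q1, q2⟩ := s3
  have c1 := cs_ge
  have c2 := cs_le
  have n1 := sn_ge
  have n2 := sn_le
  obtain ⟨k1, k2, k3, k4, k5, k6, k7⟩ := coef
  obtain ⟨⟨a1, a2⟩, b1, b2⟩ := absx hw0 hx
  obtain ⟨⟨a3, a4⟩, b3, b4⟩ := absx hv0 hy
  have ht : 0 ≤ t := by linarith
  have hnm : (t + x1 + 2 * y2) ^ 2 + (x2 - 2 * y1) ^ 2 ≤ (5072 / 100000) ^ 2 + (232 / 10000) ^ 2 :=
    add_le_add (sqb (by linarith) (by linarith)) (sqb (by linarith) (by linarith))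
  have hnp : (t + x1 - 2 * y2) ^ 2 + (x2 + 2 * y1) ^ 2 ≤ (5072 / 100000) ^ 2 + (232 / 10000) ^ 2 :=
    add_le_add (sqb (by linarith) (by linarith)) (sqb (by linarith) (by linarith))
  have htw : t * w ≤ t * (132 / 10000) := mul_le_mul_of_nonneg_left hw ht
  have hn0' : (t - x1) ^ 2 + (-x2) ^ 2 = t ^ 2 - 2 * (t * x1) + w ^ 2 := by
    linear_combination hx
  have hn0 : (t - x1) ^ 2 + (-x2) ^ 2 ≤ 1659 / 1000000 := by
    have e1 : t * (-x1) ≤ t * w := mul_le_mul_of_nonneg_left (by linarith) ht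
    have e2 : (t + w) ^ 2 ≤ (4072 / 100000) ^ 2 := sqb (by linarith) (by linarith)
    linarith
  have um1 := usq hum h1
  have up1 := usq hup h3
  have u01 := usq hu0 h2
  have u02 : u0 ≤ 88 / 10000 := by linarith
  have hA : 875 / 10000 ≤ cs - Real.sqrt 3 / 2 - (1 - sn) * x2 := by
    have e1 : (1 - sn) * x2 ≤ (1 - sn) * (132 / 10000) :=
      mul_le_mul_of_nonneg_left (by linarith) (by linarith)
    linarith
  have hcx0 : 0 ≤ cs * (t - x1) := mul_nonneg cs_pos.le (by linarith)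
  have hcx1 : cs * (t - x1) ≤ 9659259 / 10000000 * (4072 / 100000) :=
    mul_le_mul c2 (by linarith) (by linarith) (by norm_num)
  have hD : |cs * t - cs * x1 - 2 * y1| ≤ 494 / 10000 := by
    rw [abs_le]
    constructor <;> linarith
  have hU := Ub hum hup hu0 hdm hdp h1 h3 (by positivity) (by positivity) hA hD (by linarith)
    (by linarith)
  have hDn : -(8 / 1000 * 2 * v + 2 / 10000 * v) ≤ (cs * t - cs * x1 - 2 * y1) *
      (((t + x1 + 2 * y2) ^ 2 + (x2 - 2 * y1) ^ 2) - ((t + x1 - 2 * y2) ^ 2 + (x2 + 2 * y1) ^ 2)) := by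
    have e0 : (-x2) ^ 2 + (t + x1) ^ 2 ≤ (4072 / 100000) ^ 2 := by
      have e1 : t * x1 ≤ t * w := mul_le_mul_of_nonneg_left a2 ht
      have e2 : (t + w) ^ 2 ≤ (4072 / 100000) ^ 2 := sqb (by linarith) (by linarith)
      have e3 : (-x2) ^ 2 + (t + x1) ^ 2 = t ^ 2 + 2 * (t * x1) + w ^ 2 := by
        linear_combination hx
      linarith
    have e1 : -(4072 / 100000 * v) ≤ (-x2) * y1 + (t + x1) * y2 := cauchy hy e0 (by norm_num) hv0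
    have e2 : -(4072 / 100000 * v) ≤ x2 * y1 + (-(t + x1)) * y2 :=
      cauchy hy (by linarith) (by norm_num) hv0
    have e3 : |(-x2) * y1 + (t + x1) * y2| ≤ 4072 / 100000 * v := by
      rw [abs_le]
      constructor <;> linarith
    have e4 : (((t + x1 + 2 * y2) ^ 2 + (x2 - 2 * y1) ^ 2) - ((t + x1 - 2 * y2) ^ 2 +
        (x2 + 2 * y1) ^ 2)) = 8 * ((-x2) * y1 + (t + x1) * y2) := by ring
    have e5 : |(cs * t - cs * x1 - 2 * y1) * ((-x2) * y1 + (t + x1) * y2)| ≤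
        494 / 10000 * (4072 / 100000 * v) := by
      rw [abs_mul]
      exact mul_le_mul hD e3 (abs_nonneg _) (by norm_num)
    rw [e4]
    have e6 := (abs_le.1 e5).1
    linarith
  have hT2 := U0b (c := 1025 / 10000) hu0 u02 b1 hw (by norm_num)
  have hT2' : -(92 / 10000 * v) ≤ 4 * sn * (u0 * y2) := by
    have e1 : u0 * (-y2) ≤ u0 * v := mul_le_mul_of_nonneg_left (by linarith only [b3]) hu0
    have e2 : u0 * v ≤ 88 / 10000 * v := mul_le_mul_of_nonneg_right u02 hv0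
    have e3 : 4 * sn * (u0 * (-y2)) ≤ 4 * sn * (88 / 10000 * v) :=
      mul_le_mul_of_nonneg_left (by linarith only [e1, e2]) (by linarith only [n1])
    have e4 : sn * (88 / 10000 * v) ≤ 25882 / 100000 * (88 / 10000 * v) :=
      mul_le_mul_of_nonneg_right n2 (by positivity)
    linarith only [e3, e4, hv0]
  have hkt : (4 * cs + 2) * t ≤ (4 * (9659259 / 10000000) + 2) * (2752 / 100000) :=
    mul_le_mul (by linarith only [c2]) ht1 ht (by norm_num)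
  have hL := lin (q := 2 * (sn + cs - 1)) (p := 2 + Real.sqrt 3 - 2681 / 10000) (k := 4 * cs + 2)
    (κ := 4 * cs - 2) (l := 4 * sn) k6 k7 (by linarith only [q1]) (by linarith only [q2])
    (by linarith only [n1]) (by linarith only [n2]) (by linarith only [c1]) (by linarith only [c1])
    (by linarith only [c2]) ht0 ht1 (by linarith only [hkt]) (by linarith only [hkt, c2])
    hw0 hw hv0 hv hx hy
  have hnn : ((t + x1 + 2 * y2) ^ 2 + (x2 - 2 * y1) ^ 2) + ((t + x1 - 2 * y2) ^ 2 +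
      (x2 + 2 * y1) ^ 2) = 2 * t ^ 2 + 4 * (t * x1) + 2 * w ^ 2 + 8 * v ^ 2 := by
    linear_combination 2 * hx + 8 * hy
  have hK2 : 6516 / 10000 * t ^ 2 ≤ (2 * sn + 1 - Real.sqrt 3 / 2) * t ^ 2 :=
    mul_le_mul_of_nonneg_right k2 (sq_nonneg t)
  have hK5 : (2 * sn + Real.sqrt 3 / 2 - 1) * w ^ 2 ≤ 38367 / 100000 * w ^ 2 :=
    mul_le_mul_of_nonneg_right k5 (sq_nonneg w)
  have hK6 : 34641 / 10000 * v ^ 2 ≤ 2 * Real.sqrt 3 * v ^ 2 :=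
    mul_le_mul_of_nonneg_right (by linarith only [q1]) (sq_nonneg v)
  have hfin := finE (v := v) ht0 hw0 hw hv0 hv hg1
  rw [hn0'] at u01
  rw [hnn] at hU
  refine scale hw0 hv0 (by linarith only [hdm, hd0, hdp, hg]) ?_
  rw [gX_even, hx, hy]
  linarith only [hfin, hK2, hK5, hK6, hL, hT2, hT2', hU, hDn, u01, k1, hdm, hdp, hg, hv0, hw0]

/-- the final polynomial inequality, odd case -/
lemma finO {t w v g : ℝ} (ht0 : 2438 / 100000 ≤ t) (hw0 : 0 ≤ w) (hw : w ≤ 132 / 10000)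
    (hv0 : 0 ≤ v) (hg1 : g ≤ 159 / 10000) :
    0 ≤ -(1076 / 10000000) + 6828 / 10000 * t ^ 2 - 1313 / 100 * (t ^ 2 * w)
      + 12308 / 1000000 * w - 35247 / 100000 * w ^ 2 - 1696 / 100000 * g + 287 / 100000 * v
      + 37936 / 10000 * v ^ 2 := by
  have e1 : (2438 / 100000) ^ 2 ≤ t ^ 2 := pow_le_pow_left₀ (by norm_num) ht0 2
  have e2 : 0 ≤ (t ^ 2 - (2438 / 100000) ^ 2) * (6828 / 10000 - 1313 / 100 * w) :=
    mul_nonneg (by linarith) (by linarith)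
  have e3 := sq_nonneg v
  have e4 : 0 ≤ w * (132 / 10000 - w) := mul_nonneg hw0 (by linarith)
  linarith only [e1, e2, e3, e4, hw0, hw, hv0, hg1]

/-- odd middle node -/
lemma core_odd {t x1 x2 y1 y2 um u0 up dm d0 dp w v g : ℝ}
    (ht0 : 2438 / 100000 ≤ t) (ht1 : t ≤ 2752 / 100000)
    (hw0 : 0 ≤ w) (hw : w ≤ 132 / 10000) (hv0 : 0 ≤ v) (hv : v ≤ 5 / 1000)
    (hx : x1 ^ 2 + x2 ^ 2 = w ^ 2) (hy : y1 ^ 2 + y2 ^ 2 = v ^ 2)
    (hum : 0 ≤ um) (hu0 : 0 ≤ u0) (hup : 0 ≤ up)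
    (hdm : 0 ≤ dm) (hd0 : 0 ≤ d0) (hdp : 0 ≤ dp) (hg : dm + d0 + dp ≤ g) (hg1 : g ≤ 159 / 10000)
    (h1 : um * (2 + um) = dm + ((t + x1) ^ 2 + x2 ^ 2))
    (h2 : u0 * (2 + u0) = d0 + ((t - x1 - 2 * y1) ^ 2 + (-x2 - 2 * y2) ^ 2))
    (h3 : up * (2 + up) = dp + ((t + x1) ^ 2 + x2 ^ 2)) :
    1142 / 10000 - 8 / 10 * w - 182 / 100 * v - 6 / 100 * g ≤
      Real.sqrt 3 * gX (1 + um) (t + x1) x2 (1 + u0) (t - x1 - 2 * y1) (-x2 - 2 * y2) (1 + up)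
      (t + x1) x2 := by
  obtain ⟨q1, q2⟩ := s3
  have c1 := cs_ge
  have c2 := cs_le
  have n1 := sn_ge
  have n2 := sn_le
  obtain ⟨k1, k2, k3, k4, k5, k6, k7⟩ := coef
  obtain ⟨⟨a1, a2⟩, b1, b2⟩ := absx hw0 hx
  obtain ⟨⟨a3, a4⟩, b3, b4⟩ := absx hv0 hy
  have ht : 0 ≤ t := by linarith only [ht0]
  have htw : t * w ≤ t * (132 / 10000) := mul_le_mul_of_nonneg_left hw ht
  have hn1' : (t + x1) ^ 2 + x2 ^ 2 = t ^ 2 + 2 * (t * x1) + w ^ 2 := by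
    linear_combination hx
  have hn1 : (t + x1) ^ 2 + x2 ^ 2 ≤ 1659 / 1000000 := by
    have e1 : t * x1 ≤ t * w := mul_le_mul_of_nonneg_left a2 ht
    have e2 : (t + w) ^ 2 ≤ (4072 / 100000) ^ 2 :=
      sqb (by linarith only [ht, hw0]) (by linarith only [ht1, hw])
    linarith only [e1, e2, hn1']
  have hn0' : (t - x1 - 2 * y1) ^ 2 + (-x2 - 2 * y2) ^ 2 = t ^ 2 - 2 * (t * x1) + w ^ 2
      - 4 * (t * y1) + 4 * (x1 * y1 + x2 * y2) + 4 * v ^ 2 := by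
    linear_combination hx + 4 * hy
  have hn0 : (t - x1 - 2 * y1) ^ 2 + (-x2 - 2 * y2) ^ 2 ≤
      (5072 / 100000) ^ 2 + (232 / 10000) ^ 2 :=
    add_le_add (sqb (by linarith only [ht, hw0, hw, hv0, hv, ht1, ht0, a1, a2, a3, a4])
        (by linarith only [ht1, hw, hv, a1, a3]))
      (sqb (by linarith only [b2, b4, hw, hv]) (by linarith only [b1, b3, hw, hv]))
  have um1 := usq hum h1
  have up1 := usq hup h3
  have u01 := usq hu0 h2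
  have u02 : u0 ≤ 951 / 100000 := by linarith only [u01, hn0, hg, hg1, hdm, hdp]
  have hA : 875 / 10000 ≤ cs - Real.sqrt 3 / 2 - (1 - sn) * x2 + 2 * sn * y2 := by
    have e1 : (1 - sn) * x2 ≤ (1 - sn) * (132 / 10000) :=
      mul_le_mul_of_nonneg_left (by linarith only [b2, hw]) (by linarith only [n2])
    have e2 : 2 * sn * (-y2) ≤ 2 * sn * (5 / 1000) :=
      mul_le_mul_of_nonneg_left (by linarith only [b3, hv]) (by linarith only [n1])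
    linarith only [e1, e2, n1, n2, k4]
  have hcx0 : 0 ≤ cs * (t - x1 - 2 * y1) :=
    mul_nonneg cs_pos.le (by linarith only [ht0, a2, a4, hw, hv])
  have hcx1 : cs * (t - x1 - 2 * y1) ≤ 9659259 / 10000000 * (5072 / 100000) :=
    mul_le_mul c2 (by linarith only [ht1, a1, a3, hw, hv])
      (by linarith only [ht0, a2, a4, hw, hv]) (by norm_num)
  have hD : |cs * t - cs * x1 - 2 * cs * y1| ≤ 494 / 10000 := by
    rw [abs_le]
    constructor <;> linarith only [hcx0, hcx1]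
  have hU := Ub hum hup hu0 hdm hdp h1 h3 (by positivity) (by positivity) hA hD
    (by linarith only [um1, hn1, hg, hg1, hd0, hdp]) (by linarith only [up1, hn1, hg, hg1, hd0, hdm])
  have hT2 := U0b (c := 1032 / 10000) hu0 u02 b1 hw (by norm_num)
  have hkt : (4 * sn + 4 - 2064 / 10000) * t ≤
      (4 * (25882 / 100000) + 4 - 2064 / 10000) * (2752 / 100000) :=
    mul_le_mul (by linarith only [n2]) ht1 ht (by norm_num)
  have hL := lin (q := 2 * (sn + cs - 1)) (p := 2 + Real.sqrt 3 - 2688 / 10000)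
    (k := 4 * sn + 4 - 2064 / 10000)
    (κ := 4 - 4 * sn - 2064 / 10000) (l := 4 * sn) k6 k7 (by linarith only [q1])
    (by linarith only [q2])
    (by linarith only [n1]) (by linarith only [n2]) (by linarith only [n1]) (by linarith only [n2])
    (by linarith only [n1]) ht0 ht1 (by linarith only [hkt]) (by linarith only [hkt, n1])
    hw0 hw hv0 hv hx hy
  have hK2 : 6516 / 10000 * t ^ 2 ≤ (2 * sn + 1 - Real.sqrt 3 / 2) * t ^ 2 :=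
    mul_le_mul_of_nonneg_right k2 (sq_nonneg t)
  have hK5 : (2 * sn + Real.sqrt 3 / 2 - 1) * w ^ 2 ≤ 38367 / 100000 * w ^ 2 :=
    mul_le_mul_of_nonneg_right k5 (sq_nonneg w)
  have hfin := finO (v := v) ht0 hw0 hw hv0 hg1
  rw [hn0'] at u01
  rw [hn1', sub_self, mul_zero] at hU
  refine scale hw0 hv0 (by linarith only [hdm, hd0, hdp, hg]) ?_
  rw [gX_odd, hx, hy]
  linarith only [hfin, hK2, hK5, hL, hT2, hU, u01, k1, hdm, hdp, hg, hv0, hw0]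

/-- `core_even` with free names for the coordinates -/
lemma even_case {t x1 x2 y1 y2 rm r0 rp dm d0 dp w v g b1 b2 c1 c2 d1 d2 : ℝ}
    (ht0 : 2438 / 100000 ≤ t) (ht1 : t ≤ 2752 / 100000)
    (hw0 : 0 ≤ w) (hw : w ≤ 132 / 10000) (hv0 : 0 ≤ v) (hv : v ≤ 5 / 1000)
    (hx : x1 ^ 2 + x2 ^ 2 = w ^ 2) (hy : y1 ^ 2 + y2 ^ 2 = v ^ 2)
    (hum : 1 ≤ rm) (hu0 : 1 ≤ r0) (hup : 1 ≤ rp)
    (hdm : 0 ≤ dm) (hd0 : 0 ≤ d0) (hdp : 0 ≤ dp) (hg : dm + d0 + dp ≤ g) (hg1 : g ≤ 159 / 10000)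
    (h1 : rm ^ 2 = 1 + dm + (b1 ^ 2 + b2 ^ 2))
    (h2 : r0 ^ 2 = 1 + d0 + (c1 ^ 2 + c2 ^ 2))
    (h3 : rp ^ 2 = 1 + dp + (d1 ^ 2 + d2 ^ 2))
    (eb1 : b1 = t + x1 + 2 * y2) (eb2 : b2 = x2 - 2 * y1) (ec1 : c1 = t - x1) (ec2 : c2 = -x2)
    (ed1 : d1 = t + x1 - 2 * y2) (ed2 : d2 = x2 + 2 * y1) :
    1142 / 10000 - 8 / 10 * w - 182 / 100 * v - 6 / 100 * g ≤
      Real.sqrt 3 * gX rm b1 b2 r0 c1 c2 rp d1 d2 := by
  subst eb1 eb2 ec1 ec2 ed1 ed2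
  have key := core_even (um := rm - 1) (u0 := r0 - 1) (up := rp - 1) ht0 ht1 hw0 hw hv0 hv hx hy
    (by linarith only [hum]) (by linarith only [hu0]) (by linarith only [hup]) hdm hd0 hdp hg hg1
    (by linear_combination h1) (by linear_combination h2) (by linear_combination h3)
  rw [add_sub_cancel, add_sub_cancel, add_sub_cancel] at key
  exact key

/-- `core_odd` with free names for the coordinates -/
lemma odd_case {t x1 x2 y1 y2 rm r0 rp dm d0 dp w v g b1 b2 c1 c2 d1 d2 : ℝ}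
    (ht0 : 2438 / 100000 ≤ t) (ht1 : t ≤ 2752 / 100000)
    (hw0 : 0 ≤ w) (hw : w ≤ 132 / 10000) (hv0 : 0 ≤ v) (hv : v ≤ 5 / 1000)
    (hx : x1 ^ 2 + x2 ^ 2 = w ^ 2) (hy : y1 ^ 2 + y2 ^ 2 = v ^ 2)
    (hum : 1 ≤ rm) (hu0 : 1 ≤ r0) (hup : 1 ≤ rp)
    (hdm : 0 ≤ dm) (hd0 : 0 ≤ d0) (hdp : 0 ≤ dp) (hg : dm + d0 + dp ≤ g) (hg1 : g ≤ 159 / 10000)
    (h1 : rm ^ 2 = 1 + dm + (b1 ^ 2 + b2 ^ 2))
    (h2 : r0 ^ 2 = 1 + d0 + (c1 ^ 2 + c2 ^ 2))
    (h3 : rp ^ 2 = 1 + dp + (d1 ^ 2 + d2 ^ 2))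
    (eb1 : b1 = t + x1) (eb2 : b2 = x2) (ec1 : c1 = t - x1 - 2 * y1) (ec2 : c2 = -x2 - 2 * y2)
    (ed1 : d1 = t + x1) (ed2 : d2 = x2) :
    1142 / 10000 - 8 / 10 * w - 182 / 100 * v - 6 / 100 * g ≤
      Real.sqrt 3 * gX rm b1 b2 r0 c1 c2 rp d1 d2 := by
  subst eb1 eb2 ec1 ec2 ed1 ed2
  have key := core_odd (um := rm - 1) (u0 := r0 - 1) (up := rp - 1) ht0 ht1 hw0 hw hv0 hv hx hy
    (by linarith only [hum]) (by linarith only [hu0]) (by linarith only [hup]) hdm hd0 hdp hg hg1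
    (by linear_combination h1) (by linear_combination h2) (by linear_combination h3)
  rw [add_sub_cancel, add_sub_cancel, add_sub_cancel] at key
  exact key

lemma per {t : ℝ} {r : ℕ → ℝ} {B : ℕ → ℂ} (h : Cf t r B) (j q : ℕ) :
    r (j + 4 * q) = r j ∧ B (j + 4 * q) = B j := by
  induction q with
  | zero => simp
  | succ q ih =>
    have e : j + 4 * (q + 1) = (j + 4 * q) + 4 := by ring
    rw [e, h.rper, h.Bper]
    exact ih

/-- all cases -/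
lemma cases4 {t : ℝ} {r : ℕ → ℝ} {B : ℕ → ℂ} (h : Cf t r B) {w v g : ℝ} (hb : NBox t r B w v g) :
    (1142 / 10000 - 8 / 10 * w - 182 / 100 * v - 6 / 100 * g ≤
        pcrx (r 3) (B 3) (r 0) (B 0) (r 1) (B 1) ∧
      1142 / 10000 - 8 / 10 * w - 182 / 100 * v - 6 / 100 * g ≤
        pcry (r 0) (B 0) (r 1) (B 1) (r 2) (B 2)) ∧
    (1142 / 10000 - 8 / 10 * w - 182 / 100 * v - 6 / 100 * g ≤
        pcrx (r 0) (B 0) (r 1) (B 1) (r 2) (B 2) ∧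
      1142 / 10000 - 8 / 10 * w - 182 / 100 * v - 6 / 100 * g ≤
        pcry (r 1) (B 1) (r 2) (B 2) (r 3) (B 3)) ∧
    (1142 / 10000 - 8 / 10 * w - 182 / 100 * v - 6 / 100 * g ≤
        pcrx (r 1) (B 1) (r 2) (B 2) (r 3) (B 3) ∧
      1142 / 10000 - 8 / 10 * w - 182 / 100 * v - 6 / 100 * g ≤
        pcry (r 2) (B 2) (r 3) (B 3) (r 0) (B 0)) ∧
    (1142 / 10000 - 8 / 10 * w - 182 / 100 * v - 6 / 100 * g ≤
        pcrx (r 2) (B 2) (r 3) (B 3) (r 0) (B 0) ∧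
      1142 / 10000 - 8 / 10 * w - 182 / 100 * v - 6 / 100 * g ≤
        pcry (r 3) (B 3) (r 0) (B 0) (r 1) (B 1)) := by
  obtain ⟨x1, x2, y1, y2, hcx, hcy, h0, h1, h2, h3⟩ := h.coords
  have hx : x1 ^ 2 + x2 ^ 2 = w ^ 2 := by
    rw [hb.hw, hcx, ← Complex.normSq_eq_norm_sq, Complex.normSq_mk]
    ring
  have hy : y1 ^ 2 + y2 ^ 2 = v ^ 2 := by
    rw [hb.hv, hcy, ← Complex.normSq_eq_norm_sq, Complex.normSq_mk]
    ring
  have hx' : (-x1) ^ 2 + (-x2) ^ 2 = w ^ 2 := by rw [← hx]; ring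
  have hxc : x1 ^ 2 + (-x2) ^ 2 = w ^ 2 := by rw [← hx]; ring
  have hxc' : (-x1) ^ 2 + x2 ^ 2 = w ^ 2 := by rw [← hx]; ring
  have hy1 : (-y1) ^ 2 + (-y2) ^ 2 = v ^ 2 := by rw [← hy]; ring
  have hy2 : y2 ^ 2 + (-y1) ^ 2 = v ^ 2 := by rw [← hy]; ring
  have hy3 : (-y2) ^ 2 + y1 ^ 2 = v ^ 2 := by rw [← hy]; ring
  have hy4 : (-y1) ^ 2 + y2 ^ 2 = v ^ 2 := by rw [← hy]; ring
  have hy5 : y1 ^ 2 + (-y2) ^ 2 = v ^ 2 := by rw [← hy]; ring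
  have hy6 : y2 ^ 2 + y1 ^ 2 = v ^ 2 := by rw [← hy]; ring
  have hy7 : (-y2) ^ 2 + (-y1) ^ 2 = v ^ 2 := by rw [← hy]; ring
  have hg : g = dd r B 0 + dd r B 1 + dd r B 2 + dd r B 3 := by rw [hb.hg, sig_eq]
  have d0 := h.dd_nonneg 0
  have d1 := h.dd_nonneg 1
  have d2 := h.dd_nonneg 2
  have d3 := h.dd_nonneg 3
  have o0 := h.one_le 0
  have o1 := h.one_le 1
  have o2 := h.one_le 2
  have o3 := h.one_le 3
  have s0 : r 0 ^ 2 = 1 + dd r B 0 + ((t - x1) ^ 2 + (-x2) ^ 2) := by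
    rw [rsq_eq r B 0, h0, Complex.normSq_mk]; ring
  have s1 : r 1 ^ 2 = 1 + dd r B 1 + ((t + x1 - 2 * y2) ^ 2 + (x2 + 2 * y1) ^ 2) := by
    rw [rsq_eq r B 1, h1, Complex.normSq_mk]; ring
  have s2 : r 2 ^ 2 = 1 + dd r B 2 + ((t - x1) ^ 2 + (-x2) ^ 2) := by
    rw [rsq_eq r B 2, h2, Complex.normSq_mk]; ring
  have s3 : r 3 ^ 2 = 1 + dd r B 3 + ((t + x1 + 2 * y2) ^ 2 + (x2 - 2 * y1) ^ 2) := by
    rw [rsq_eq r B 3, h3, Complex.normSq_mk]; ring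
  have s0' : r 0 ^ 2 = 1 + dd r B 0 + ((t - x1) ^ 2 + (-(-x2)) ^ 2) := by rw [s0]; ring
  have s1' : r 1 ^ 2 = 1 + dd r B 1 + ((t + x1 - 2 * y2) ^ 2 + (-(x2 + 2 * y1)) ^ 2) := by
    rw [s1]; ring
  have s2' : r 2 ^ 2 = 1 + dd r B 2 + ((t - x1) ^ 2 + (-(-x2)) ^ 2) := by rw [s2]; ring
  have s3' : r 3 ^ 2 = 1 + dd r B 3 + ((t + x1 + 2 * y2) ^ 2 + (-(x2 - 2 * y1)) ^ 2) := by
    rw [s3]; ring
  simp only [pcrx_eq, pcry_eq, h0, h1, h2, h3]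
  refine ⟨⟨?_, ?_⟩, ⟨?_, ?_⟩, ⟨?_, ?_⟩, ⟨?_, ?_⟩⟩
  · exact even_case hb.tl hb.tu hb.w0 hb.wu hb.v0 hb.vu hx hy o3 o0 o1 d3 d0 d1
      (by linarith only [hg, d0, d1, d2, d3]) hb.gu s3 s0 s1 (by ring) (by ring) (by ring) (by ring)
      (by ring) (by ring)
  · exact odd_case hb.tl hb.tu hb.w0 hb.wu hb.v0 hb.vu hxc' hy6 o2 o1 o0 d2 d1 d0
      (by linarith only [hg, d0, d1, d2, d3]) hb.gu s2' s1' s0' (by ring) (by ring) (by ring)
      (by ring) (by ring) (by ring)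
  · exact odd_case hb.tl hb.tu hb.w0 hb.wu hb.v0 hb.vu hx' hy2 o0 o1 o2 d0 d1 d2
      (by linarith only [hg, d0, d1, d2, d3]) hb.gu s0 s1 s2 (by ring) (by ring) (by ring)
      (by ring) (by ring) (by ring)
  · exact even_case hb.tl hb.tu hb.w0 hb.wu hb.v0 hb.vu hxc hy4 o3 o2 o1 d3 d2 d1
      (by linarith only [hg, d0, d1, d2, d3]) hb.gu s3' s2' s1' (by ring) (by ring) (by ring)
      (by ring) (by ring) (by ring)
  · exact even_case hb.tl hb.tu hb.w0 hb.wu hb.v0 hb.vu hx hy1 o1 o2 o3 d1 d2 d3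
      (by linarith only [hg, d0, d1, d2, d3]) hb.gu s1 s2 s3 (by ring) (by ring) (by ring)
      (by ring) (by ring) (by ring)
  · exact odd_case hb.tl hb.tu hb.w0 hb.wu hb.v0 hb.vu hxc' hy7 o0 o3 o2 d0 d3 d2
      (by linarith only [hg, d0, d1, d2, d3]) hb.gu s0' s3' s2' (by ring) (by ring) (by ring)
      (by ring) (by ring) (by ring)
  · exact odd_case hb.tl hb.tu hb.w0 hb.wu hb.v0 hb.vu hx' hy3 o2 o3 o0 d2 d3 d0
      (by linarith only [hg, d0, d1, d2, d3]) hb.gu s2 s3 s0 (by ring) (by ring) (by ring)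
      (by ring) (by ring) (by ring)
  · exact even_case hb.tl hb.tu hb.w0 hb.wu hb.v0 hb.vu hxc hy5 o1 o0 o3 d1 d0 d3
      (by linarith only [hg, d0, d1, d2, d3]) hb.gu s1' s0' s3' (by ring) (by ring) (by ring)
      (by ring) (by ring) (by ring)

end FinGcr

section
variable {t : ℝ} {r : ℕ → ℝ} {B : ℕ → ℂ} (h : Cf t r B) {w v g : ℝ} (hb : NBox t r B w v g)
include h hb

/-- (G4) -/
theorem fin_gcr (k : ℕ) :
    1142 / 10000 - 8 / 10 * w - 182 / 100 * v - 6 / 100 * g ≤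
      pcrx (r (k + 3)) (B (k + 3)) (r k) (B k) (r (k + 1)) (B (k + 1)) ∧
    1142 / 10000 - 8 / 10 * w - 182 / 100 * v - 6 / 100 * g ≤
      pcry (r k) (B k) (r (k + 1)) (B (k + 1)) (r (k + 2)) (B (k + 2)) := by
  obtain ⟨c0, c1, c2, c3⟩ := FinGcr.cases4 h hb
  obtain ⟨j, q, hj, rfl⟩ : ∃ j q : ℕ, j < 4 ∧ k = j + 4 * q :=
    ⟨k % 4, k / 4, Nat.mod_lt _ (by norm_num), by omega⟩
  rw [show j + 4 * q + 1 = j + 1 + 4 * q by ring, show j + 4 * q + 2 = j + 2 + 4 * q by ring,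
    show j + 4 * q + 3 = j + 3 + 4 * q by ring]
  rw [(FinGcr.per h j q).1, (FinGcr.per h j q).2, (FinGcr.per h (j + 1) q).1,
    (FinGcr.per h (j + 1) q).2, (FinGcr.per h (j + 2) q).1, (FinGcr.per h (j + 2) q).2,
    (FinGcr.per h (j + 3) q).1, (FinGcr.per h (j + 3) q).2]
  have p0 : r 4 = r 0 ∧ B 4 = B 0 := FinGcr.per h 0 1
  have p1 : r 5 = r 1 ∧ B 5 = B 1 := FinGcr.per h 1 1
  have p2 : r 6 = r 2 ∧ B 6 = B 2 := FinGcr.per h 2 1
  interval_cases j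
  · exact c0
  · show _ ≤ pcrx (r 4) (B 4) (r 1) (B 1) (r 2) (B 2) ∧ _ ≤ pcry (r 1) (B 1) (r 2) (B 2) (r 3) (B 3)
    rw [p0.1, p0.2]
    exact c1
  · show _ ≤ pcrx (r 5) (B 5) (r 2) (B 2) (r 3) (B 3) ∧ _ ≤ pcry (r 2) (B 2) (r 3) (B 3) (r 4) (B 4)
    rw [p0.1, p0.2, p1.1, p1.2]
    exact c2
  · show _ ≤ pcrx (r 6) (B 6) (r 3) (B 3) (r 4) (B 4) ∧ _ ≤ pcry (r 3) (B 3) (r 4) (B 4) (r 5) (B 5)
    rw [p0.1, p0.2, p1.1, p1.2, p2.1, p2.2]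
    exact c3

end

end Rein83
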