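import Pool.Agent.Rein83.NBoxDef
import Pool.Agent.Rein83.NearDefs
import Pool.Agent.Rein83.FinS3

set_option autoImplicit false

/-! Section F, near stage, module G7: `x1` is small. -/

namespace Rein83

open Complex Finset Rein69

namespace Gx1Aux

open S3Aux

lemma e1om : e1 * om = ⟨sn, cs⟩ := by
  have h1 := q_cs
  have h2 := q_sn
  apply Complex.ext
  · simp only [e1, om, Complex.mul_re]
    linear_combination (-1 / 2) * h2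
  · simp only [e1, om, Complex.mul_im]
    linear_combination (1 / 2) * h1

lemma e2om : e2 * om = ⟨0, 1⟩ := by
  have h3 := q_sq
  apply Complex.ext
  · simp only [e2, om, Complex.mul_re]
    ring
  · simp only [e2, om, Complex.mul_im]
    linear_combination (1 / 4) * h3

/-- the turn at an even node, all terms -/
lemma even_full (t u um up x1 x2 y1 y2 : ℝ) :
    pturn (1 + um) ⟨t + x1 + 2 * y2, x2 - 2 * y1⟩ (1 + u) ⟨t - x1, -x2⟩ (1 + up)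
      ⟨t + x1 - 2 * y2, x2 + 2 * y1⟩ =
    tau' t + (2 * sn + 2 * cs * t) * u - ((1 / 2 - sn) + t * (sn + 1)) * (um + up)
      + (2 * (sn + cs - 1) - t) * x1 + 4 * (sn + t * (Real.sqrt 3 / 2 - sn)) * y1
      + (2 * cs - 1 / 2) * (x1 ^ 2 + x2 ^ 2) + 2 * (y1 ^ 2 + y2 ^ 2)
      + (4 * sn + 2 * Real.sqrt 3) * (x1 * y1 + x2 * y2)
      + (sn * u * (um + up) - 1 / 2 * (um * up) + u * (2 * cs * x1 + 4 * sn * y1)
        + um * (cs * x2 - (1 - sn) * x1 + 2 * y2) + up * (-(cs * x2) - (1 - sn) * x1 - 2 * y2)) := by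
  rw [even_id, e1om, e2om]
  simp only [e1, e2, Complex.mul_re, Complex.mul_im, Complex.neg_re, Complex.neg_im,
    Complex.ofReal_re, Complex.ofReal_im]
  ring

/-- the turn at an odd node, all terms -/
lemma odd_full (t u um up x1 x2 y1 y2 : ℝ) :
    pturn (1 + um) ⟨t - x1, -x2⟩ (1 + u) ⟨t + x1 - 2 * y2, x2 + 2 * y1⟩ (1 + up) ⟨t - x1, -x2⟩ =
    tau' t + (2 * sn + 2 * cs * t) * (u + 2 * y2) - ((1 / 2 - sn) + t * (sn + 1)) * (um + up)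
      - (2 * (sn + cs - 1) - t) * x1 + (2 * cs - 1 / 2) * (x1 ^ 2 + x2 ^ 2)
      - 4 * cs * (x1 * y2 - x2 * y1)
      + (sn * u * (um + up) - 1 / 2 * (um * up) - 2 * cs * x1 * u
        + um * ((1 - sn) * x1 + 2 * sn * y2 - cs * x2 - 2 * cs * y1)
        + up * ((1 - sn) * x1 + 2 * sn * y2 + cs * x2 + 2 * cs * y1)) := by
  rw [odd_id, e1om, e2om]
  simp only [e1, e2, Complex.mul_re, Complex.mul_im, Complex.neg_re, Complex.neg_im,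
    Complex.ofReal_re, Complex.ofReal_im]
  ring

lemma tau_le {t : ℝ} (ht0 : 0 ≤ t) :
    tau' t ≤ 17639 / 1000000 - 58578 / 100000 * t - 243185 / 100000 * t ^ 2 := by
  obtain ⟨s1, s2⟩ := bs
  obtain ⟨c1, c2⟩ := bc
  have d1 := bd
  unfold tau'
  have e1 : (cs - sn) * t ≤ 7071068 / 10000000 * t := mul_le_mul_of_nonneg_right d1 ht0
  have e2 : 9659258 / 10000000 * t ^ 2 ≤ cs * t ^ 2 :=
    mul_le_mul_of_nonneg_right c1 (sq_nonneg t)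
  have := sq_nonneg t
  linarith

/-- the case `x1 ≥ 0` -/
lemma core_pos {t w v g x1 x2 y1 u0 u1 u2 u3 : ℝ} (ht0 : 0 ≤ t) (ht : t ≤ 2752 / 100000)
    (hw0 : 0 ≤ w) (hw : w ≤ 132 / 10000) (hv0 : 0 ≤ v) (hv : v ≤ 5 / 1000)
    (hg : g ≤ 159 / 10000) (hu0 : 0 ≤ u0) (hu1 : 0 ≤ u1) (hu2 : 0 ≤ u2)
    (hu3 : 0 ≤ u3) (h1 : x1 ^ 2 + x2 ^ 2 = w ^ 2) (hx : 0 ≤ x1) (hxw : x1 ≤ w)
    (hy1 : -v ≤ y1) (hy2 : y1 ≤ v) (hu13 : u1 + u3 ≤ g / 2 + (t + w) ^ 2 + 4 * v ^ 2)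
    (hO : 0 ≤ 2 * tau' t + (2 * sn + 2 * cs * t) * (u1 + u3)
      - 2 * ((1 / 2 - sn) + t * (sn + 1)) * (u0 + u2) - 2 * (2 * (sn + cs - 1) - t) * x1
      + 2 * (2 * cs - 1 / 2) * (x1 ^ 2 + x2 ^ 2) + sn * (u1 + u3) * (u0 + u2) - u0 * u2
      - 2 * cs * x1 * (u1 + u3) + 2 * (1 - sn) * x1 * (u0 + u2) - 4 * cs * y1 * (u0 - u2)) :
    (8989 / 10000 - 2 * t) * x1 ≤
      2 * (17639 / 1000000 - 58578 / 100000 * t - 243185 / 100000 * t ^ 2)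
      + (51764 / 100000 + 193186 / 100000 * t) * (g / 2 + (t + w) ^ 2 + 4 * v ^ 2)
      + 28638 / 10000 * w ^ 2 + 4 * v ^ 2 := by
  obtain ⟨s1, s2⟩ := bs
  obtain ⟨c1, c2⟩ := bc
  have ht1 := tau_le ht0
  obtain ⟨a, ha⟩ : ∃ a, a = u0 + u2 := ⟨_, rfl⟩
  obtain ⟨b, hb⟩ : ∃ b, b = u1 + u3 := ⟨_, rfl⟩
  have ha0 : 0 ≤ a := by linarith
  have hb0 : 0 ≤ b := by linarith
  rw [← hb] at hu13
  have hb1 : b ≤ 2 / 100 := by
    have e1 : (t + w) ^ 2 ≤ (5 / 100) ^ 2 := pow_le_pow_left₀ (by linarith) (by linarith) 2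
    have e2 : v ^ 2 ≤ (5 / 1000) ^ 2 := pow_le_pow_left₀ hv0 hv 2
    norm_num at e1 e2
    linarith
  have k1 : (2 * sn + 2 * cs * t) * b ≤
      (51764 / 100000 + 193186 / 100000 * t) * (g / 2 + (t + w) ^ 2 + 4 * v ^ 2) := by
    have e1 : 2 * sn + 2 * cs * t ≤ 51764 / 100000 + 193186 / 100000 * t := by
      have : cs * t ≤ 9659259 / 10000000 * t := mul_le_mul_of_nonneg_right c2 ht0
      linarith
    exact mul_le_mul e1 hu13 hb0 (by linarith)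
  have k2 : 2 * (2 * cs - 1 / 2) * (x1 ^ 2 + x2 ^ 2) ≤ 28638 / 10000 * w ^ 2 := by
    rw [h1]
    exact mul_le_mul_of_nonneg_right (by linarith) (sq_nonneg w)
  have k3 : (8989 / 10000 - 2 * t) * x1 ≤ 2 * (2 * (sn + cs - 1) - t) * x1 :=
    mul_le_mul_of_nonneg_right (by linarith) hx
  have k4 : -(4 * cs * y1 * (u0 - u2)) ≤ 4 * cs * v * a := by
    have e1 : -y1 * u0 ≤ v * u0 := mul_le_mul_of_nonneg_right (by linarith) hu0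
    have e2 : y1 * u2 ≤ v * u2 := mul_le_mul_of_nonneg_right hy2 hu2
    have e3 : -y1 * (u0 - u2) ≤ v * a := by rw [ha]; linarith
    have e4 : 4 * cs * (-y1 * (u0 - u2)) ≤ 4 * cs * (v * a) :=
      mul_le_mul_of_nonneg_left e3 (by linarith)
    linarith
  have k5 : (-2 * ((1 / 2 - sn) + t * (sn + 1)) + sn * b + 2 * (1 - sn) * x1 + 4 * cs * v) * a
      ≤ 0 := by
    refine mul_nonpos_of_nonpos_of_nonneg ?_ ha0
    have e1 : 0 ≤ t * (sn + 1) := mul_nonneg ht0 (by linarith)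
    have e2 : sn * b ≤ 1 * (2 / 100) := mul_le_mul (by linarith) hb1 hb0 (by norm_num)
    have e3 : (1 - sn) * x1 ≤ 1 * (132 / 10000) :=
      mul_le_mul (by linarith) (by linarith) hx (by norm_num)
    have e4 : cs * v ≤ 1 * (5 / 1000) := mul_le_mul (by linarith) hv hv0 (by norm_num)
    linarith
  have k6 : 0 ≤ cs * x1 * b := mul_nonneg (mul_nonneg (by linarith) hx) hb0
  have k7 : 0 ≤ u0 * u2 := mul_nonneg hu0 hu2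
  rw [← ha, ← hb] at hO
  have k8 := sq_nonneg v
  linarith

/-- the case `x1 ≤ 0` -/
lemma core_neg {t w v g x1 x2 y1 y2 u0 u1 u2 u3 : ℝ} (ht0 : 2438 / 100000 ≤ t)
    (ht : t ≤ 2752 / 100000)
    (hw0 : 0 ≤ w) (hw : w ≤ 132 / 10000) (hv0 : 0 ≤ v) (hv : v ≤ 5 / 1000) (hg0 : 0 ≤ g)
    (hg : g ≤ 159 / 10000) (hu0 : 0 ≤ u0) (hu1 : 0 ≤ u1) (hu2 : 0 ≤ u2)
    (hu3 : 0 ≤ u3) (h1 : x1 ^ 2 + x2 ^ 2 = w ^ 2) (h2 : y1 ^ 2 + y2 ^ 2 = v ^ 2)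
    (hx : x1 ≤ 0) (hxw : -w ≤ x1)
    (hy1 : -v ≤ y1) (hy2 : y1 ≤ v) (hy3 : -v ≤ y2) (hy4 : y2 ≤ v)
    (hu02 : u0 + u2 ≤ g / 2 + (t + w) ^ 2) (hd1 : u0 - u2 ≤ g / 2) (hd2 : u2 - u0 ≤ g / 2)
    (hu13 : 12 / 100000 ≤ u1 + u3)
    (hE : 0 ≤ 2 * tau' t + (2 * sn + 2 * cs * t) * (u0 + u2)
      - 2 * ((1 / 2 - sn) + t * (sn + 1)) * (u1 + u3) + 2 * (2 * (sn + cs - 1) - t) * x1
      + 2 * (2 * cs - 1 / 2) * (x1 ^ 2 + x2 ^ 2) + 4 * (y1 ^ 2 + y2 ^ 2)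
      + sn * (u0 + u2) * (u1 + u3) - u1 * u3
      + 2 * cs * x1 * (u0 + u2) + 4 * sn * y1 * (u0 - u2) - 2 * (1 - sn) * x1 * (u1 + u3)
      + 4 * y2 * (u3 - u1)) :
    (8989 / 10000 - 2 * t) * (-x1) ≤
      2 * (17639 / 1000000 - 58578 / 100000 * t - 243185 / 100000 * t ^ 2)
      + (51764 / 100000 + 193186 / 100000 * t) * (g / 2 + (t + w) ^ 2 + 4 * v ^ 2)
      + 28638 / 10000 * w ^ 2 + 4 * v ^ 2 := by
  obtain ⟨s1, s2⟩ := bs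
  obtain ⟨c1, c2⟩ := bc
  have ht00 : 0 ≤ t := by linarith
  have ht1 := tau_le ht00
  obtain ⟨a, ha⟩ : ∃ a, a = u0 + u2 := ⟨_, rfl⟩
  obtain ⟨b, hb⟩ : ∃ b, b = u1 + u3 := ⟨_, rfl⟩
  have ha0 : 0 ≤ a := by linarith
  have hb0 : 0 ≤ b := by linarith
  rw [← ha] at hu02
  rw [← hb] at hu13
  have ha1 : a ≤ 2 / 100 := by
    have e1 : (t + w) ^ 2 ≤ (5 / 100) ^ 2 := pow_le_pow_left₀ (by linarith) (by linarith) 2
    norm_num at e1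
    linarith
  have hm0 : 51764 / 100000 ≤ 51764 / 100000 + 193186 / 100000 * t := by linarith
  have k1 : (2 * sn + 2 * cs * t) * a ≤
      (51764 / 100000 + 193186 / 100000 * t) * (g / 2 + (t + w) ^ 2) := by
    have e1 : 2 * sn + 2 * cs * t ≤ 51764 / 100000 + 193186 / 100000 * t := by
      have : cs * t ≤ 9659259 / 10000000 * t := mul_le_mul_of_nonneg_right c2 ht00
      linarith
    exact mul_le_mul e1 hu02 ha0 (by linarith)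
  have k1' : 51764 / 100000 * (4 * v ^ 2) ≤
      (51764 / 100000 + 193186 / 100000 * t) * (4 * v ^ 2) :=
    mul_le_mul_of_nonneg_right hm0 (by positivity)
  have k2 : 2 * (2 * cs - 1 / 2) * (x1 ^ 2 + x2 ^ 2) ≤ 28638 / 10000 * w ^ 2 := by
    rw [h1]
    exact mul_le_mul_of_nonneg_right (by linarith) (sq_nonneg w)
  have k3 : (8989 / 10000 - 2 * t) * (-x1) ≤ 2 * (2 * (sn + cs - 1) - t) * (-x1) :=
    mul_le_mul_of_nonneg_right (by linarith) (by linarith)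
  have k4 : 4 * y2 * (u3 - u1) ≤ 4 * v * b := by
    have e1 : -y2 * u1 ≤ v * u1 := mul_le_mul_of_nonneg_right (by linarith) hu1
    have e2 : y2 * u3 ≤ v * u3 := mul_le_mul_of_nonneg_right hy4 hu3
    rw [hb]
    linarith
  have k5 : (-2 * ((1 / 2 - sn) + t * (sn + 1)) + sn * a + 2 * (1 - sn) * (-x1) + 4 * v) * b
      ≤ -(4 / 10) * b := by
    refine mul_le_mul_of_nonneg_right ?_ hb0
    have e1 : 0 ≤ t * (sn + 1) := mul_nonneg ht00 (by linarith)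
    have e2 : sn * a ≤ 1 * (2 / 100) := mul_le_mul (by linarith) ha1 ha0 (by norm_num)
    have e3 : (1 - sn) * (-x1) ≤ 1 * (132 / 10000) :=
      mul_le_mul (by linarith) (by linarith) (by linarith) (by norm_num)
    linarith
  have k6 : cs * x1 * a ≤ 0 :=
    mul_nonpos_of_nonpos_of_nonneg (mul_nonpos_of_nonneg_of_nonpos (by linarith) hx) ha0
  have k7 : 0 ≤ u1 * u3 := mul_nonneg hu1 hu3
  have k8 : y1 * (u0 - u2) ≤ v * (g / 2) := by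
    have e0 : |y1 * (u0 - u2)| ≤ v * (g / 2) := by
      rw [abs_mul]
      exact mul_le_mul (abs_le.2 ⟨hy1, hy2⟩) (abs_le.2 ⟨by linarith, hd1⟩) (abs_nonneg _) hv0
    exact (le_abs_self _).trans e0
  have k9 : 4 * sn * y1 * (u0 - u2) ≤ 51764 / 100000 * (v * g) := by
    have e1 : 4 * sn * (y1 * (u0 - u2)) ≤ 4 * sn * (v * (g / 2)) :=
      mul_le_mul_of_nonneg_left k8 (by linarith)
    have e2 : 2 * sn * (v * g) ≤ 51764 / 100000 * (v * g) :=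
      mul_le_mul_of_nonneg_right (by linarith) (mul_nonneg hv0 hg0)
    linarith
  have k10 : v * g ≤ 4 * v ^ 2 + g ^ 2 / 16 := by
    have := sq_nonneg (2 * v - g / 4)
    linarith
  have k11 : g ^ 2 ≤ (159 / 10000) ^ 2 := pow_le_pow_left₀ hg0 hg 2
  norm_num at k11
  rw [← ha, ← hb, h2] at hE
  linarith

lemma u13_le {t w v g x1 x2 y1 y2 u1 u3 d0 d1 d2 d3 : ℝ} (ht0 : 0 ≤ t) (hw0 : 0 ≤ w)
    (h1 : x1 ^ 2 + x2 ^ 2 = w ^ 2) (h2 : y1 ^ 2 + y2 ^ 2 = v ^ 2) (b0 : 0 ≤ d0) (b2 : 0 ≤ d2)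
    (hg : g = d0 + d1 + d2 + d3)
    (hs1 : 2 * u1 + u1 ^ 2 = d1 + ((t + x1 - 2 * y2) ^ 2 + (x2 + 2 * y1) ^ 2))
    (hs3 : 2 * u3 + u3 ^ 2 = d3 + ((t + x1 + 2 * y2) ^ 2 + (x2 - 2 * y1) ^ 2)) :
    u1 + u3 ≤ g / 2 + (t + w) ^ 2 + 4 * v ^ 2 := by
  have c1 : (t + x1) ^ 2 + x2 ^ 2 ≤ (t + w) ^ 2 := sq_bound ht0 hw0 (by linarith)
  have c2 := sq_nonneg u1
  have c3 := sq_nonneg u3
  have c4 : 2 * (u1 + u3) + u1 ^ 2 + u3 ^ 2 =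
      d1 + d3 + 2 * ((t + x1) ^ 2 + x2 ^ 2) + 8 * (y1 ^ 2 + y2 ^ 2) := by
    linear_combination hs1 + hs3
  rw [h2] at c4
  linarith

lemma u02_le {t w g x1 x2 u0 u2 d0 d1 d2 d3 : ℝ} (ht0 : 0 ≤ t) (hw0 : 0 ≤ w)
    (h1 : x1 ^ 2 + x2 ^ 2 = w ^ 2) (b1 : 0 ≤ d1) (b3 : 0 ≤ d3)
    (hg : g = d0 + d1 + d2 + d3)
    (hs0 : 2 * u0 + u0 ^ 2 = d0 + ((t - x1) ^ 2 + x2 ^ 2))
    (hs2 : 2 * u2 + u2 ^ 2 = d2 + ((t - x1) ^ 2 + x2 ^ 2)) :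
    u0 + u2 ≤ g / 2 + (t + w) ^ 2 := by
  have c1 : (t + -x1) ^ 2 + x2 ^ 2 ≤ (t + w) ^ 2 := sq_bound ht0 hw0 (by linarith)
  rw [← sub_eq_add_neg] at c1
  have c2 := sq_nonneg u0
  have c3 := sq_nonneg u2
  linarith

lemma diff_le {g u0 u2 d0 d2 q : ℝ} (a0 : 0 ≤ u0) (a2 : 0 ≤ u2) (hg0 : 0 ≤ g) (b2 : 0 ≤ d2)
    (hg : d0 ≤ g) (hs0 : 2 * u0 + u0 ^ 2 = d0 + q) (hs2 : 2 * u2 + u2 ^ 2 = d2 + q) :
    u0 - u2 ≤ g / 2 := by
  by_contra hc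
  rw [not_le] at hc
  have h1 : 0 ≤ (u0 - u2) * (u0 + u2) := mul_nonneg (by linarith) (by linarith)
  have h2 : (u0 - u2) * (u0 + u2) = u0 ^ 2 - u2 ^ 2 := by ring
  linarith

lemma u13_ge {t w v g x1 x2 y1 y2 u1 u3 d0 d1 d2 d3 : ℝ} (ht0 : 2438 / 100000 ≤ t)
    (ht : t ≤ 2752 / 100000) (hw0 : 0 ≤ w) (hw : w ≤ 132 / 10000) (hv0 : 0 ≤ v)
    (hv : v ≤ 5 / 1000) (hgu : g ≤ 159 / 10000)
    (h1 : x1 ^ 2 + x2 ^ 2 = w ^ 2) (h2 : y1 ^ 2 + y2 ^ 2 = v ^ 2) (hx : -w ≤ x1)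
    (a1 : 0 ≤ u1) (a3 : 0 ≤ u3) (b0 : 0 ≤ d0) (b1 : 0 ≤ d1) (b2 : 0 ≤ d2) (b3 : 0 ≤ d3)
    (hg : g = d0 + d1 + d2 + d3)
    (hs1 : 2 * u1 + u1 ^ 2 = d1 + ((t + x1 - 2 * y2) ^ 2 + (x2 + 2 * y1) ^ 2))
    (hs3 : 2 * u3 + u3 ^ 2 = d3 + ((t + x1 + 2 * y2) ^ 2 + (x2 - 2 * y1) ^ 2)) :
    12 / 100000 ≤ u1 + u3 := by
  have ht00 : 0 ≤ t := by linarith
  have c0 : (t + w + 2 * v) ^ 2 ≤ (52 / 1000) ^ 2 :=
    pow_le_pow_left₀ (by linarith) (by linarith) 2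
  have c1 : (t + x1 - 2 * y2) ^ 2 + (x2 + 2 * y1) ^ 2 ≤ (t + w + 2 * v) ^ 2 := by
    have := sq_bound (t := t) ht00 (by linarith) (sq_pm hw0 hv0 h1 h2)
    linarith
  have c3 : (t + x1 + 2 * y2) ^ 2 + (x2 - 2 * y1) ^ 2 ≤ (t + w + 2 * v) ^ 2 := by
    have := sq_bound (t := t) ht00 (by linarith)
      (sq_pm (y1 := -y1) (y2 := -y2) hw0 hv0 h1 (by rw [neg_sq, neg_sq]; exact h2))
    linarith
  norm_num at c0
  have p1 := sq_nonneg u1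
  have p3 := sq_nonneg u3
  have f1 : u1 ≤ 1 / 100 := by linarith
  have f3 : u3 ≤ 1 / 100 := by linarith
  have g1 : u1 * u1 ≤ 1 / 100 * u1 := mul_le_mul_of_nonneg_right f1 a1
  have g3 : u3 * u3 ≤ 1 / 100 * u3 := mul_le_mul_of_nonneg_right f3 a3
  have k1 : (1118 / 100000 : ℝ) ^ 2 ≤ (t + x1) ^ 2 :=
    pow_le_pow_left₀ (by norm_num) (by linarith) 2
  norm_num at k1
  have c4 : 2 * (u1 + u3) + u1 * u1 + u3 * u3 =
      d1 + d3 + 2 * ((t + x1) ^ 2 + x2 ^ 2) + 8 * (y1 ^ 2 + y2 ^ 2) := by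
    linear_combination hs1 + hs3
  have k2 := sq_nonneg x2
  have k3 := sq_nonneg y1
  have k4 := sq_nonneg y2
  linarith

end Gx1Aux

/-- (G7) -/
theorem fin_gx1 {t : ℝ} {r : ℕ → ℝ} {B : ℕ → ℂ} (h : Cf t r B) {w v g : ℝ}
    (hb : NBox t r B w v g) (htn : ∀ k, 0 ≤ tn r B k) :
    (8989 / 10000 - 2 * t) * |(cx t B).re| ≤
      2 * (17639 / 1000000 - 58578 / 100000 * t - 243185 / 100000 * t ^ 2)
      + (51764 / 100000 + 193186 / 100000 * t) * (g / 2 + (t + w) ^ 2 + 4 * v ^ 2)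
      + 28638 / 10000 * w ^ 2 + 4 * v ^ 2 := by
  obtain ⟨x1, x2, y1, y2, hx, hy, hB0, hB1, hB2, hB3⟩ := S3Aux.coords h
  have hw0 := hb.w0
  have hv0 := hb.v0
  have hg0 := hb.g0
  have hwu := hb.wu
  have hvu := hb.vu
  have hgu := hb.gu
  have htl := hb.tl
  have htu := hb.tu
  have h1 : x1 ^ 2 + x2 ^ 2 = w ^ 2 := by
    rw [hb.hw, hx, Complex.sq_norm, Complex.normSq_mk]; ring
  have h2 : y1 ^ 2 + y2 ^ 2 = v ^ 2 := by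
    rw [hb.hv, hy, Complex.sq_norm, Complex.normSq_mk]; ring
  have ht0 := h.t0
  have hx1 : |x1| ≤ w := abs_le_of_sq_le_sq (by linarith [sq_nonneg x2]) hw0
  have hy1 : |y1| ≤ v := abs_le_of_sq_le_sq (by linarith [sq_nonneg y2]) hv0
  have hy2 : |y2| ≤ v := abs_le_of_sq_le_sq (by linarith [sq_nonneg y1]) hv0
  rw [abs_le] at hx1 hy1 hy2
  obtain ⟨d, hdd⟩ : ∃ d : ℕ → ℝ, d = fun k => r k ^ 2 - normSq (B k) - 1 := ⟨_, rfl⟩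
  obtain ⟨u, huu⟩ : ∃ u : ℕ → ℝ, u = fun k => r k - 1 := ⟨_, rfl⟩
  have hd0 : ∀ k, 0 ≤ d k := fun k => by
    rw [hdd]; have := h.D1 k; simp only; linarith
  have hr : ∀ k, r k = 1 + u k := fun k => by rw [huu]; simp only; ring
  have hu0 : ∀ k, 0 ≤ u k := fun k => by
    have e1 := h.D1 k
    have e2 := Complex.normSq_nonneg (B k)
    have e3 := h.rpos k
    rw [huu]
    simp only
    nlinarith
  have hu2 : ∀ k, 2 * u k + u k ^ 2 = d k + normSq (B k) := fun k => by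
    rw [hdd]
    simp only
    rw [hr k]
    ring
  have hgd : g = d 0 + d 1 + d 2 + d 3 := by
    rw [hb.hg, hdd]
    unfold sig
    rw [Finset.sum_range_succ, Finset.sum_range_succ, Finset.sum_range_succ,
      Finset.sum_range_one]
  have n0 : normSq (B 0) = (t - x1) ^ 2 + x2 ^ 2 := by
    rw [hB0, Complex.normSq_mk]; ring
  have n2 : normSq (B 2) = (t - x1) ^ 2 + x2 ^ 2 := by
    rw [hB2, Complex.normSq_mk]; ring
  have n1 : normSq (B 1) = (t + x1 - 2 * y2) ^ 2 + (x2 + 2 * y1) ^ 2 := by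
    rw [hB1, Complex.normSq_mk]; ring
  have n3 : normSq (B 3) = (t + x1 + 2 * y2) ^ 2 + (x2 - 2 * y1) ^ 2 := by
    rw [hB3, Complex.normSq_mk]; ring
  have hs0 := hu2 0
  have hs1 := hu2 1
  have hs2 := hu2 2
  have hs3 := hu2 3
  rw [n0] at hs0
  rw [n1] at hs1
  rw [n2] at hs2
  rw [n3] at hs3
  have a0 := hu0 0
  have a1 := hu0 1
  have a2 := hu0 2
  have a3 := hu0 3
  have b0 := hd0 0
  have b1 := hd0 1
  have b2 := hd0 2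
  have b3 := hd0 3
  have e0 : tn r B 3 = pturn (1 + u 3) ⟨t + x1 + 2 * y2, x2 - 2 * y1⟩ (1 + u 0)
      ⟨t - x1, -x2⟩ (1 + u 1) ⟨t + x1 - 2 * y2, x2 + 2 * y1⟩ := by
    unfold tn
    rw [show (3 : ℕ) + 1 = 0 + 4 from rfl, show (3 : ℕ) + 2 = 1 + 4 from rfl, h.rper, h.rper,
      h.Bper, h.Bper, hB0, hB1, hB3, hr 0, hr 1, hr 3]
  have e2 : tn r B 1 = pturn (1 + u 1) ⟨t + x1 + 2 * (-y2), x2 - 2 * (-y1)⟩ (1 + u 2)
      ⟨t - x1, -x2⟩ (1 + u 3) ⟨t + x1 - 2 * (-y2), x2 + 2 * (-y1)⟩ := by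
    unfold tn
    rw [show (1 : ℕ) + 1 = 2 from rfl, show (1 : ℕ) + 2 = 3 from rfl, hB1, hB2, hB3, hr 1,
      hr 2, hr 3, mul_neg, mul_neg, sub_neg_eq_add, sub_neg_eq_add, ← sub_eq_add_neg,
      ← sub_eq_add_neg]
  have e1 : tn r B 0 = pturn (1 + u 0) ⟨t - x1, -x2⟩ (1 + u 1)
      ⟨t + x1 - 2 * y2, x2 + 2 * y1⟩ (1 + u 2) ⟨t - x1, -x2⟩ := by
    unfold tn
    rw [show (0 : ℕ) + 1 = 1 from rfl, show (0 : ℕ) + 2 = 2 from rfl, hB1, hB2, hB0, hr 1,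
      hr 2, hr 0]
  have e3 : tn r B 2 = pturn (1 + u 2) ⟨t - x1, -x2⟩ (1 + u 3)
      ⟨t + x1 - 2 * (-y2), x2 + 2 * (-y1)⟩ (1 + u 0) ⟨t - x1, -x2⟩ := by
    unfold tn
    rw [show (2 : ℕ) + 1 = 3 from rfl, show (2 : ℕ) + 2 = 0 + 4 from rfl, h.rper, h.Bper,
      hB3, hB2, hB0, hr 3, hr 2, hr 0, mul_neg, mul_neg, sub_neg_eq_add, ← sub_eq_add_neg]
  have t0 := htn 0
  have t1 := htn 1
  have t2 := htn 2
  have t3 := htn 3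
  rw [e1, Gx1Aux.odd_full] at t0
  rw [e2, Gx1Aux.even_full] at t1
  rw [e3, Gx1Aux.odd_full] at t2
  rw [e0, Gx1Aux.even_full] at t3
  have hxre : (cx t B).re = x1 := by rw [hx]
  rw [hxre]
  clear e0 e1 e2 e3 hr huu hu0 hdd hd0 n0 n1 n2 n3 hB0 hB1 hB2 hB3 htn hx hy hxre hu2 hb h
  rcases le_total 0 x1 with hx0 | hx0
  · rw [abs_of_nonneg hx0]
    refine Gx1Aux.core_pos (u0 := u 0) (u1 := u 1) (u2 := u 2) (u3 := u 3) (x2 := x2) (y1 := y1)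
      ht0 htu hw0 hwu hv0 hvu hgu a0 a1 a2 a3 h1 hx0 hx1.2 hy1.1 hy1.2 ?_ ?_
    · exact Gx1Aux.u13_le ht0 hw0 h1 h2 b0 b2 hgd hs1 hs3
    · refine (add_nonneg t0 t2).trans (le_of_eq ?_)
      ring
  · rw [abs_of_nonpos hx0]
    refine Gx1Aux.core_neg (u0 := u 0) (u1 := u 1) (u2 := u 2) (u3 := u 3) (x2 := x2) (y1 := y1)
      (y2 := y2) htl htu hw0 hwu hv0 hvu hg0 hgu a0 a1 a2 a3 h1 h2 hx0 hx1.1 hy1.1 hy1.2 hy2.1
      hy2.2 ?_ ?_ ?_ ?_ ?_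
    · exact Gx1Aux.u02_le ht0 hw0 h1 b1 b3 hgd hs0 hs2
    · exact Gx1Aux.diff_le a0 a2 hg0 b2 (by linarith) hs0 hs2
    · exact Gx1Aux.diff_le a2 a0 hg0 b0 (by linarith) hs2 hs0
    · exact Gx1Aux.u13_ge htl htu hw0 hwu hv0 hvu hgu h1 h2 hx1.1 a1 a3 b0 b1 b2 b3 hgd hs1 hs3
    · refine (add_nonneg t3 t1).trans (le_of_eq ?_)
      ring

end Rein83
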