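import Pool.Agent.Rein83.FinSDefs

set_option autoImplicit false

/-! Section F: quadratic majorants of S1 - S4 on a box `t ≤ T`, `w ≤ W`, `v ≤ V`, `g ≤ G`. -/

namespace Rein83

noncomputable def m1 (T W V G t w v g : ℝ) : ℝ :=
  6743 / 1000000 + 28285 / 10000 * t ^ 2
    + 12942 / 100000 * (G * g + 32 * ((V ^ 2 + T * W) * (v ^ 2 + t * w) + (T + W) ^ 2 * v ^ 2))
    - (2588 / 10000 * g + 48989 / 10000 * w ^ 2 + 20705 / 10000 * v ^ 2)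

noncomputable def m2 (T W V G t w v g : ℝ) : ℝ :=
  17639 / 1000000 * (1 + g / 4 + w ^ 2 + 2 * v ^ 2 + t ^ 2) + (G / 8 + V * (T + W)) * (g / 8 + v * (t + w))
    + v ^ 2 + 143186 / 100000 * w ^ 2 - 243185 / 100000 * t ^ 2 - 58578 / 100000 * t + g * V / 2
    + 4 * v ^ 2 * (T + W)
    + 341422 / 100000 * (W * g / 8 + W * v ^ 2 + T * w ^ 2 + (T + W) * (v * w))

noncomputable def m3 (T W V G t w v g : ℝ) : ℝ :=
  2 * (17639 / 1000000 - 58578 / 100000 * t - 243185 / 100000 * t ^ 2)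
    + (51764 / 100000 + 193186 / 100000 * T) * (g / 2 + t ^ 2 + w ^ 2 + 2 * v ^ 2 + 2 * w * v)
    + 28638 / 10000 * w ^ 2 + 2 * v ^ 2 + 83634 / 10000 * w * v
    - 103527 / 100000 * v - 242 / 100 * t * v
    + ((2 * W + 4 * V) + 2 * (2 * W + 2 * V) + 2 * (T + W + 2 * V) ^ 2 + (T + W) ^ 2 / 2) * ((t + w) ^ 2 / 2)
    + (2 * (2 * W + 2 * V) + (T + W + 2 * V) ^ 2 / 2 + 2 * W) * ((t + w + 2 * v) ^ 2 / 2)
    + ((2 * W + 4 * V + 2 * (T + W + 2 * V) ^ 2 + (T + W) ^ 2 / 2) / 2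
        + (2 * W + 2 * V + 3 * (T + W) ^ 2 / 2 + (T + W + 2 * V) ^ 2 / 2) / 2 + G / 2) * g

noncomputable def m4 (q c R T W V G t w v g : ℝ) : ℝ :=
  51528 / 10000 * t ^ 2
    + 100375 / 1000000 * (G * g + 32 * ((V ^ 2 + T * W) * (v ^ 2 + t * w) + (T + W) ^ 2 * v ^ 2))
    + 19676 / 1000000 * (2 / c * ((2 * t ^ 2 + 2 * w ^ 2 + 4 * v ^ 2) + c ^ 2)
        + R * (3 / 2 * g + (2 * t ^ 2 + 2 * w ^ 2 + 4 * v ^ 2) + 566 / 100 * (v ^ 2 + t * w)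
          + 566 / 100 * (v * (t + w))))
    - (5796 / 1000000 + (3922 / 10000 - 757773 / 1000000 * q) * g + 67587 / 10000 * w ^ 2
      + 16059 / 10000 * v ^ 2)

noncomputable def m4c (q T W V G t w v g : ℝ) : ℝ :=
  51528 / 10000 * t ^ 2
    + 100375 / 1000000 * (G * g + 32 * ((V ^ 2 + T * W) * (v ^ 2 + t * w) + (T + W) ^ 2 * v ^ 2))
    + 27826 / 1000000 * (4 * t + T * (g / 2 + 2 * t ^ 2 + 2 * w ^ 2 + 4 * v ^ 2))
    + 27826 / 1000000 * (W * g / 2 + 4 * W * v ^ 2 + 4 * T * w ^ 2 + 4 * (T + W) * (v * w))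
    + 2783 / 100000 * (V * g)
    - (5796 / 1000000 + (3922 / 10000 - 757773 / 1000000 * q) * g + 67587 / 10000 * w ^ 2
      + 16059 / 10000 * v ^ 2)

end Rein83
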