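import Pool.Agent.Rein83.FinS4c
import Pool.Agent.Rein83.NBoxDef
import Pool.Agent.Rein83.NearDefs

set_option autoImplicit false

/-! Section F, near stage: the exact near identity (G1). -/

namespace Rein83

open Complex Finset Rein69

namespace N1

/-- `κ √3 / 4` -/
noncomputable def K : ℝ := 4 * (8 - 4 * Real.sqrt 2 - Real.log 2) / (2 * Real.sqrt 2 - 1) * (Real.sqrt 3 / 2) / 2
noncomputable def m : ℝ := 1 - 2 * ca / 3
noncomputable def b : ℝ := 4 * Real.sqrt 3 * cb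
noncomputable def τ : ℝ := 10 + 6 * Real.sqrt 2 - 5 * Real.sqrt 3 - 4 * Real.sqrt 2 * Real.sqrt 3
noncomputable def β : ℝ := 6 * cs * m + b * (1 + sn) - K
noncomputable def α : ℝ := τ * β + 8 * Real.sqrt 2 * ca
noncomputable def γ : ℝ := τ * (2 * cs + 1 / 2) + (2 - Real.sqrt 2)

lemma hx : Real.sqrt 2 ^ 2 = 2 := Real.sq_sqrt (by norm_num)
lemma hy : Real.sqrt 3 ^ 2 = 3 := Real.sq_sqrt (by norm_num)

lemma r6 : Real.sqrt 6 = Real.sqrt 2 * Real.sqrt 3 := by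
  rw [← Real.sqrt_mul (by norm_num)]; norm_num

lemma sn_eq : sn = Real.sqrt 2 * (Real.sqrt 3 - 1) / 4 := by
  unfold sn; rw [r6]; ring

lemma cs_eq : cs = Real.sqrt 2 * (Real.sqrt 3 + 1) / 4 := by
  unfold cs; rw [r6]; ring

lemma K_eq : K = Real.sqrt 3 * (8 - 4 * Real.sqrt 2 - Real.log 2) * (2 * Real.sqrt 2 + 1) / 7 := by
  have h2 : (14142135 / 10000000 : ℝ) ≤ Real.sqrt 2 := by
    apply Real.le_sqrt_of_sq_le; norm_num
  have h : (2 * Real.sqrt 2 - 1) ≠ 0 := by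
    intro h; linarith
  unfold K
  rw [div_mul_eq_mul_div, div_div, div_eq_div_iff (mul_ne_zero h (by norm_num)) (by norm_num)]
  linear_combination (-8 * (8 - 4 * Real.sqrt 2 - Real.log 2) * Real.sqrt 3) * hx

lemma id1 : 6 * sn * m + b * (1 - cs) - K = τ * α := by
  unfold α β m b τ ca cb
  rw [K_eq, sn_eq, cs_eq]
  linear_combination ((-252) + (201/2)*Real.log 2 + (2901/7)*Real.sqrt 3 + (-3783/7)*Real.sqrt 3*Real.log 2 + (631/7)*Real.sqrt 3^2 + (251/7)*Real.sqrt 3^2*Real.log 2 + (-2417/7)*Real.sqrt 3^3 + (3117/7)*Real.sqrt 3^3*Real.log 2 + (117)*Real.sqrt 3^4 + (-351/2)*Real.sqrt 3^4*Real.log 2 + (-90)*Real.sqrt 2 + (63)*Real.sqrt 2*Real.log 2 + (-528/7)*Real.sqrt 2*Real.sqrt 3 + (222/7)*Real.sqrt 2*Real.sqrt 3*Real.log 2 + (2462/7)*Real.sqrt 2*Real.sqrt 3^2 + (-2459/7)*Real.sqrt 2*Real.sqrt 3^2*Real.log 2 + (-1892/7)*Real.sqrt 2*Real.sqrt 3^3 + (2418/7)*Real.sqrt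 2*Real.sqrt 3^3*Real.log 2 + (64)*Real.sqrt 2*Real.sqrt 3^4 + (-96)*Real.sqrt 2*Real.sqrt 3^4*Real.log 2 + (18)*Real.sqrt 2^2*Real.log 2 + (-540/7)*Real.sqrt 2^2*Real.sqrt 3 + (48)*Real.sqrt 2^2*Real.sqrt 3*Real.log 2 + (972/7)*Real.sqrt 2^2*Real.sqrt 3^2 + (-142)*Real.sqrt 2^2*Real.sqrt 3^2*Real.log 2 + (-576/7)*Real.sqrt 2^2*Real.sqrt 3^3 + (104)*Real.sqrt 2^2*Real.sqrt 3^3*Real.log 2 + (16)*Real.sqrt 2^2*Real.sqrt 3^4 + (-24)*Real.sqrt 2^2*Real.sqrt 3^4*Real.log 2) * hx + ((168) + (-67)*Real.log 2 + (-512)*Real.sqrt 3 + (662)*Real.sqrt 3*Real.log 2 + (234)*Real.sqrt 3^2 + (-351)*Real.sqrt 3^2*Real.log 2 + (235/2)*Real.sqrt 2 + (-189/4)*Real.sqrt 2*Real.log 2 + (-362)*Real.sqrt 2*Real.sqrt 3 + (468)*Real.sqrt 2*Real.sqrt 3*Real.log 2 + (331/2)*Real.sqrt 2*Real.sqrt 3^2 + (-993/4)*Real.sqrt 2*Real.sqrt 3^2*Real.log 2) * hy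

lemma id2 : 2 * sn - 1 / 2 = τ * γ := by
  unfold γ τ
  rw [sn_eq, cs_eq]
  linear_combination ((-72) + (30)*Real.sqrt 3 + (42)*Real.sqrt 3^2 + (-20)*Real.sqrt 3^3 + (-18)*Real.sqrt 2 + (6)*Real.sqrt 2*Real.sqrt 3 + (16)*Real.sqrt 2*Real.sqrt 3^2 + (-8)*Real.sqrt 2*Real.sqrt 3^3) * hx + ((143/2) + (-40)*Real.sqrt 3 + (99/2)*Real.sqrt 2 + (-57/2)*Real.sqrt 2*Real.sqrt 3) * hy

lemma bnds : 14142135623 / 10000000000 ≤ Real.sqrt 2 ∧ Real.sqrt 2 ≤ 14142135624 / 10000000000 ∧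
    17320508075 / 10000000000 ≤ Real.sqrt 3 ∧ Real.sqrt 3 ≤ 17320508076 / 10000000000 ∧
    24494897427 / 10000000000 ≤ Real.sqrt 2 * Real.sqrt 3 ∧ Real.sqrt 2 * Real.sqrt 3 ≤ 24494897428 / 10000000000 ∧
    6931471803 / 10000000000 ≤ Real.log 2 ∧ Real.log 2 ≤ 6931471808 / 10000000000 := by
  rw [← r6]
  refine ⟨S4cAux.q2_ge, S4cAux.q2_le, S4cAux.q3_ge, S4cAux.q3_le, S4cAux.q6_ge, S4cAux.q6_le, ?_, ?_⟩
  · have := Real.log_two_gt_d9
    norm_num at this ⊢; linarith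
  · have := Real.log_two_lt_d9
    norm_num at this ⊢; linarith

lemma mul_bnd {a l a0 a1 : ℝ} (h0 : 0 ≤ a0) (ha : a0 ≤ a) (ha' : a ≤ a1)
    (hl : 6931471803 / 10000000000 ≤ l) (hl' : l ≤ 6931471808 / 10000000000) :
    a0 * (6931471803 / 10000000000) ≤ a * l ∧ a * l ≤ a1 * (6931471808 / 10000000000) :=
  ⟨mul_le_mul ha hl (by norm_num) (h0.trans ha), mul_le_mul ha' hl' (by linarith) (h0.trans (ha.trans ha'))⟩

lemma bndl : 14142135623 / 10000000000 * (6931471803 / 10000000000) ≤ Real.sqrt 2 * Real.log 2 ∧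
    Real.sqrt 2 * Real.log 2 ≤ 14142135624 / 10000000000 * (6931471808 / 10000000000) ∧
    17320508075 / 10000000000 * (6931471803 / 10000000000) ≤ Real.sqrt 3 * Real.log 2 ∧
    Real.sqrt 3 * Real.log 2 ≤ 17320508076 / 10000000000 * (6931471808 / 10000000000) ∧
    24494897427 / 10000000000 * (6931471803 / 10000000000) ≤ Real.sqrt 2 * Real.sqrt 3 * Real.log 2 ∧
    Real.sqrt 2 * Real.sqrt 3 * Real.log 2 ≤ 24494897428 / 10000000000 * (6931471808 / 10000000000) := by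
  obtain ⟨a1, a2, a3, a4, a5, a6, a7, a8⟩ := bnds
  have h1 := mul_bnd (by norm_num) a1 a2 a7 a8
  have h2 := mul_bnd (by norm_num) a3 a4 a7 a8
  have h3 := mul_bnd (by norm_num) a5 a6 a7 a8
  exact ⟨h1.1, h1.2, h2.1, h2.2, h3.1, h3.2⟩

lemma n_u1 : -948760 / 10000000 ≤ α - 5352 / 10000 * γ ∧ α - 5352 / 10000 * γ ≤ -948757 / 10000000 := by
  have e : α - 5352 / 10000 * γ = (-669/1250) + (4) * Real.log 2 + (-50317/17500) * Real.sqrt 3 + (20/7) * (Real.sqrt 3 * Real.log 2) + (-9331/2500) * Real.sqrt 2 + (3) * (Real.sqrt 2 * Real.log 2) + (-9683/17500) * (Real.sqrt 2 * Real.sqrt 3) + (12/7) * (Real.sqrt 2 * Real.sqrt 3 * Real.log 2) := by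
    unfold α γ β m b τ ca cb
    try rw [K_eq]
    try rw [sn_eq]
    try rw [cs_eq]
    linear_combination ((16743/1250) + (-11/2)*Real.log 2 + (5317/8750)*Real.sqrt 3 + (73/14)*Real.sqrt 3*Real.log 2 + (-95317/4375)*Real.sqrt 3^2 + (355/14)*Real.sqrt 3^2*Real.log 2 + (11)*Real.sqrt 3^3 + (-33/2)*Real.sqrt 3^3*Real.log 2 + (-3)*Real.sqrt 2*Real.log 2 + (90/7)*Real.sqrt 2*Real.sqrt 3 + (-10)*Real.sqrt 2*Real.sqrt 3*Real.log 2 + (-102/7)*Real.sqrt 2*Real.sqrt 3^2 + (17)*Real.sqrt 2*Real.sqrt 3^2*Real.log 2 + (4)*Real.sqrt 2*Real.sqrt 3^3 + (-6)*Real.sqrt 2*Real.sqrt 3^3*Real.log 2) * hx + ((-4912/625) + (5)*Real.log 2 + (22)*Real.sqrt 3 + (-33)*Real.sqrt 3*Real.log 2 + (-2831/500)*Real.sqrt 2 + (7/2)*Real.sqrt 2*Real.log 2 + (31/2)*Real.sqrt 2*Real.sqrt 3 + (-93/4)*Real.sqrt 2*Real.sqrt 3*Real.log 2) * hy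
  rw [e]
  obtain ⟨a1, a2, a3, a4, a5, a6, a7, a8⟩ := bnds
  obtain ⟨b1, b2, b3, b4, b5, b6⟩ := bndl
  constructor <;> linarith

lemma n_u2 : 39019430 / 10000000 ≤ β - 5352 / 10000 * (2 * cs + 1 / 2) ∧ β - 5352 / 10000 * (2 * cs + 1 / 2) ≤ 39019433 / 10000000 := by
  have e : β - 5352 / 10000 * (2 * cs + 1 / 2) = (-15669/2500) + (8) * Real.log 2 + (-20/7) * Real.sqrt 3 + (36/7) * (Real.sqrt 3 * Real.log 2) + (-5669/2500) * Real.sqrt 2 + (6) * (Real.sqrt 2 * Real.log 2) + (-34683/17500) * (Real.sqrt 2 * Real.sqrt 3) + (23/7) * (Real.sqrt 2 * Real.sqrt 3 * Real.log 2) := by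
    unfold β m b ca cb
    try rw [K_eq]
    try rw [sn_eq]
    try rw [cs_eq]
    linear_combination ((-1/2)*Real.log 2 + (15/7)*Real.sqrt 3 + (-2)*Real.sqrt 3*Real.log 2 + (-1)*Real.sqrt 3^2 + (3/2)*Real.sqrt 3^2*Real.log 2) * hx + ((-2) + (3)*Real.log 2 + (-3/2)*Real.sqrt 2 + (9/4)*Real.sqrt 2*Real.log 2) * hy
  rw [e]
  obtain ⟨a1, a2, a3, a4, a5, a6, a7, a8⟩ := bnds
  obtain ⟨b1, b2, b3, b4, b5, b6⟩ := bndl
  constructor <;> linarith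

lemma n_v1 : -1063444 / 10000000 ≤ α - 5528 / 10000 * γ ∧ α - 5528 / 10000 * γ ≤ -1063441 / 10000000 := by
  have e : α - 5528 / 10000 * γ = (-691/1250) + (4) * Real.log 2 + (-50163/17500) * Real.sqrt 3 + (20/7) * (Real.sqrt 3 * Real.log 2) + (-9309/2500) * Real.sqrt 2 + (3) * (Real.sqrt 2 * Real.log 2) + (-9837/17500) * (Real.sqrt 2 * Real.sqrt 3) + (12/7) * (Real.sqrt 2 * Real.sqrt 3 * Real.log 2) := by
    unfold α γ β m b τ ca cb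
    try rw [K_eq]
    try rw [sn_eq]
    try rw [cs_eq]
    linear_combination ((16677/1250) + (-11/2)*Real.log 2 + (5163/8750)*Real.sqrt 3 + (73/14)*Real.sqrt 3*Real.log 2 + (-95163/4375)*Real.sqrt 3^2 + (355/14)*Real.sqrt 3^2*Real.log 2 + (11)*Real.sqrt 3^3 + (-33/2)*Real.sqrt 3^3*Real.log 2 + (-3)*Real.sqrt 2*Real.log 2 + (90/7)*Real.sqrt 2*Real.sqrt 3 + (-10)*Real.sqrt 2*Real.sqrt 3*Real.log 2 + (-102/7)*Real.sqrt 2*Real.sqrt 3^2 + (17)*Real.sqrt 2*Real.sqrt 3^2*Real.log 2 + (4)*Real.sqrt 2*Real.sqrt 3^3 + (-6)*Real.sqrt 2*Real.sqrt 3^3*Real.log 2) * hx + ((-4868/625) + (5)*Real.log 2 + (22)*Real.sqrt 3 + (-33)*Real.sqrt 3*Real.log 2 + (-2809/500)*Real.sqrt 2 + (7/2)*Real.sqrt 2*Real.log 2 + (31/2)*Real.sqrt 2*Real.sqrt 3 + (-93/4)*Real.sqrt 2*Real.sqrt 3*Real.log 2) * hy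
  rw [e]
  obtain ⟨a1, a2, a3, a4, a5, a6, a7, a8⟩ := bnds
  obtain ⟨b1, b2, b3, b4, b5, b6⟩ := bndl
  constructor <;> linarith

lemma n_v2 : 38591424 / 10000000 ≤ β - 5528 / 10000 * (2 * cs + 1 / 2) ∧ β - 5528 / 10000 * (2 * cs + 1 / 2) ≤ 38591427 / 10000000 := by
  have e : β - 5528 / 10000 * (2 * cs + 1 / 2) = (-15691/2500) + (8) * Real.log 2 + (-20/7) * Real.sqrt 3 + (36/7) * (Real.sqrt 3 * Real.log 2) + (-5691/2500) * Real.sqrt 2 + (6) * (Real.sqrt 2 * Real.log 2) + (-34837/17500) * (Real.sqrt 2 * Real.sqrt 3) + (23/7) * (Real.sqrt 2 * Real.sqrt 3 * Real.log 2) := by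
    unfold β m b ca cb
    try rw [K_eq]
    try rw [sn_eq]
    try rw [cs_eq]
    linear_combination ((-1/2)*Real.log 2 + (15/7)*Real.sqrt 3 + (-2)*Real.sqrt 3*Real.log 2 + (-1)*Real.sqrt 3^2 + (3/2)*Real.sqrt 3^2*Real.log 2) * hx + ((-2) + (3)*Real.log 2 + (-3/2)*Real.sqrt 2 + (9/4)*Real.sqrt 2*Real.log 2) * hy
  rw [e]
  obtain ⟨a1, a2, a3, a4, a5, a6, a7, a8⟩ := bnds
  obtain ⟨b1, b2, b3, b4, b5, b6⟩ := bndl
  constructor <;> linarith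

lemma n_R1 : -15221089 / 10000000 ≤ 2 * b - 2 * K ∧ 2 * b - 2 * K ≤ -15221086 / 10000000 := by
  have e : 2 * b - 2 * K = (-68/7) * Real.sqrt 3 + (128/7) * (Real.sqrt 3 * Real.log 2) + (-80/7) * (Real.sqrt 2 * Real.sqrt 3) + (88/7) * (Real.sqrt 2 * Real.sqrt 3 * Real.log 2) := by
    unfold b cb
    try rw [K_eq]
    try rw [sn_eq]
    try rw [cs_eq]
    linear_combination ((16/7)*Real.sqrt 3) * hx + (0) * hy
  rw [e]
  obtain ⟨a1, a2, a3, a4, a5, a6, a7, a8⟩ := bnds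
  obtain ⟨b1, b2, b3, b4, b5, b6⟩ := bndl
  constructor <;> linarith

lemma n_e2 : -15289807 / 10000000 ≤ -6 * sn * m + b * (1 + cs) - K ∧ -6 * sn * m + b * (1 + cs) - K ≤ -15289804 / 10000000 := by
  have e : -6 * sn * m + b * (1 + cs) - K = (-6) + (8) * Real.log 2 + (-48/7) * Real.sqrt 3 + (92/7) * (Real.sqrt 3 * Real.log 2) + (-2) * Real.sqrt 2 + (6) * (Real.sqrt 2 * Real.log 2) + (-68/7) * (Real.sqrt 2 * Real.sqrt 3) + (65/7) * (Real.sqrt 2 * Real.sqrt 3 * Real.log 2) := by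
    unfold m b ca cb
    try rw [K_eq]
    try rw [sn_eq]
    try rw [cs_eq]
    linear_combination ((-1/2)*Real.log 2 + (1/7)*Real.sqrt 3 + (2)*Real.sqrt 3*Real.log 2 + (-1)*Real.sqrt 3^2 + (3/2)*Real.sqrt 3^2*Real.log 2) * hx + ((-2) + (3)*Real.log 2 + (-3/2)*Real.sqrt 2 + (9/4)*Real.sqrt 2*Real.log 2) * hy
  rw [e]
  obtain ⟨a1, a2, a3, a4, a5, a6, a7, a8⟩ := bnds
  obtain ⟨b1, b2, b3, b4, b5, b6⟩ := bndl
  constructor <;> linarith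

lemma n_X : 67255787 / 10000000 ≤ 6 * cs * m - b * (1 - sn) + K ∧ 6 * cs * m - b * (1 - sn) + K ≤ 67255790 / 10000000 := by
  have e : 6 * cs * m - b * (1 - sn) + K = (-6) + (8) * Real.log 2 + (48/7) * Real.sqrt 3 + (-92/7) * (Real.sqrt 3 * Real.log 2) + (-2) * Real.sqrt 2 + (6) * (Real.sqrt 2 * Real.log 2) + (68/7) * (Real.sqrt 2 * Real.sqrt 3) + (-65/7) * (Real.sqrt 2 * Real.sqrt 3 * Real.log 2) := by
    unfold m b ca cb
    try rw [K_eq]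
    try rw [sn_eq]
    try rw [cs_eq]
    linear_combination ((-1/2)*Real.log 2 + (-1/7)*Real.sqrt 3 + (-2)*Real.sqrt 3*Real.log 2 + (-1)*Real.sqrt 3^2 + (3/2)*Real.sqrt 3^2*Real.log 2) * hx + ((-2) + (3)*Real.log 2 + (-3/2)*Real.sqrt 2 + (9/4)*Real.sqrt 2*Real.log 2) * hy
  rw [e]
  obtain ⟨a1, a2, a3, a4, a5, a6, a7, a8⟩ := bnds
  obtain ⟨b1, b2, b3, b4, b5, b6⟩ := bndl
  constructor <;> linarith

lemma n_K : 15630271 / 10000000 ≤ K ∧ K ≤ 15630274 / 10000000 := by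
  have e : K = (-8/7) * Real.sqrt 3 + (-1/7) * (Real.sqrt 3 * Real.log 2) + (12/7) * (Real.sqrt 2 * Real.sqrt 3) + (-2/7) * (Real.sqrt 2 * Real.sqrt 3 * Real.log 2) := by
    skip
    try rw [K_eq]
    try rw [sn_eq]
    try rw [cs_eq]
    linear_combination ((-8/7)*Real.sqrt 3) * hx + (0) * hy
  rw [e]
  obtain ⟨a1, a2, a3, a4, a5, a6, a7, a8⟩ := bnds
  obtain ⟨b1, b2, b3, b4, b5, b6⟩ := bndl
  constructor <;> linarith

lemma n_ca : 99893 / 10000000 ≤ ca ∧ ca ≤ 99896 / 10000000 := by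
  have e : ca = (-1) + (3/4) * Real.log 2 + (1/2) * (Real.sqrt 2 * Real.log 2) := by
    unfold ca
    try rw [K_eq]
    try rw [sn_eq]
    try rw [cs_eq]
    linear_combination (0) * hx + (0) * hy
  rw [e]
  obtain ⟨a1, a2, a3, a4, a5, a6, a7, a8⟩ := bnds
  obtain ⟨b1, b2, b3, b4, b5, b6⟩ := bndl
  constructor <;> linarith

lemma n_ga : 6516125 / 10000000 ≤ γ ∧ γ ≤ 6516128 / 10000000 := by
  have e : γ = (1) + (-1/2) * Real.sqrt 3 + (-1/2) * Real.sqrt 2 + (1/2) * (Real.sqrt 2 * Real.sqrt 3) := by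
    unfold γ τ
    try rw [K_eq]
    try rw [sn_eq]
    try rw [cs_eq]
    linear_combination ((3) + (1)*Real.sqrt 3 + (-2)*Real.sqrt 3^2) * hx + ((-4) + (-5/2)*Real.sqrt 2) * hy
  rw [e]
  obtain ⟨a1, a2, a3, a4, a5, a6, a7, a8⟩ := bnds
  obtain ⟨b1, b2, b3, b4, b5, b6⟩ := bndl
  constructor <;> linarith


/-- final quadratic estimate -/
lemma fin_ineq {g t w v p q ex R1 e2 E : ℝ} (hg0 : 0 ≤ g) (hg : g ≤ 159 / 10000) (ht0 : 0 ≤ t) (ht : t ≤ 2752 / 100000)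
    (hw0 : 0 ≤ w) (hw : w ≤ 132 / 10000) (hv0 : 0 ≤ v) (hv : v ≤ 5 / 1000)
    (hE : E = g / 8 + v ^ 2 + t * w + v * (t + w))
    (hR : R1 ≤ (g / 8 + v * (t + w)) ^ 2) (he : e2 ≤ E ^ 2)
    (hpq : |p| + |q| ≤ (g / 2 + 4 * (v * (t + w))) * v) (hex : |ex| ≤ w * E) :
    -(575 / 100000) * g ≤ -(209 / 100) * R1 - 153 / 100 * e2 + 59 / 10 * w ^ 2 + 96 / 100 * v ^ 2
      - 201 / 100 * |ex| - 56 / 100 * (|p| + |q|) := by
  have hvt : v * (t + w) ≤ 4072 / 100000 * v := by nlinarith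
  have hvt0 : 0 ≤ v * (t + w) := by positivity
  have hE1 : E ≤ g / 8 + 4572 / 100000 * v + 2752 / 100000 * w := by
    rw [hE]; nlinarith
  have hE0 : 0 ≤ E := by rw [hE]; positivity
  have h1 : R1 ≤ (g / 8 + 4072 / 100000 * v) ^ 2 :=
    hR.trans (pow_le_pow_left₀ (by positivity) (by linarith) 2)
  have h2 : e2 ≤ (g / 8 + 4572 / 100000 * v + 2752 / 100000 * w) ^ 2 :=
    he.trans (pow_le_pow_left₀ hE0 hE1 2)
  have h3 : |ex| ≤ w * (g / 8 + 4572 / 100000 * v + 2752 / 100000 * w) :=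
    hex.trans (mul_le_mul_of_nonneg_left hE1 hw0)
  have h4 : |p| + |q| ≤ (g / 2 + 4 * (4072 / 100000 * v)) * v :=
    hpq.trans (mul_le_mul_of_nonneg_right (by linarith) hv0)
  have h5 : g ^ 2 ≤ 159 / 10000 * g := by nlinarith
  nlinarith [sq_nonneg (g - v), sq_nonneg (g - w), sq_nonneg (v - w), sq_nonneg g, sq_nonneg w, sq_nonneg v,
    mul_nonneg hg0 hv0, mul_nonneg hg0 hw0, mul_nonneg hv0 hw0]

/-- the near inequality in scalar form -/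
lemma core {a g t X Y p q ex R1 e2 w v E : ℝ} (ha0 : 0 ≤ a) (hg0 : 0 ≤ g) (hg : g ≤ 159 / 10000)
    (htl : 2438 / 100000 ≤ t) (ht : t ≤ 2752 / 100000)
    (hw0 : 0 ≤ w) (hw : w ≤ 132 / 10000) (hv0 : 0 ≤ v) (hv : v ≤ 5 / 1000) (hX : X = w ^ 2) (hY : Y = v ^ 2)
    (hE : E = g / 8 + v ^ 2 + t * w + v * (t + w)) (ha1 : 1 ≤ a)
    (hR0 : 0 ≤ R1) (he0 : 0 ≤ e2)
    (hR : R1 ≤ (g / 8 + v * (t + w)) ^ 2) (he : e2 ≤ E ^ 2)
    (hpq : |p| + |q| ≤ (g / 2 + 4 * (v * (t + w))) * v) (hex : |ex| ≤ w * E)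
    (hP : a ^ 2 = 1 + g / 4 + X + 2 * Y + t ^ 2 - 2 * R1 - e2)
    {Θ : ℝ} (hΘ : Θ = (2 * sn - 1 / 2) * a ^ 2 + R1 - (2 * sn + 1 / 2) * e2 + Y
        + (2 * cs - 1 / 2) * X - (2 * cs + 1 / 2) * t ^ 2
        - (2 - Real.sqrt 2) * a * t - Real.sqrt 2 / 2 * p - q + (2 + Real.sqrt 2) * ex)
    (hth : 0 ≤ Θ) :
    K + 385 / 1000 * g + 1338 / 10000 * (4 * Θ) ≤
      m * (6 * sn * (a ^ 2 - e2) - 6 * cs * (t ^ 2 - X))
      + b * ((1 - cs) * a ^ 2 + 2 * R1 + (1 + cs) * e2 - (1 + sn) * t ^ 2 - (1 - sn) * X - 2 * Y)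
      - ca * (8 * Real.sqrt 2 * (a * t + ex) - 4 * Real.sqrt 2 * p) := by
  obtain ⟨s1, s2, s3, s4, s5, s6, s7, s8⟩ := bnds
  have u1 := n_u1
  have u2 := n_u2
  have v1 := n_v1
  have v2 := n_v2
  have nR := n_R1
  have ne := n_e2
  have nX := n_X
  have nK := n_K
  have nc := n_ca
  have ng := n_ga
  have hs := sn_pos
  -- `rest`
  obtain ⟨rL, hrL⟩ : ∃ z, z = (2 * b - 2 * K) * R1 + (-6 * sn * m + b * (1 + cs) - K) * e2
    + (6 * cs * m - b * (1 - sn) + K) * X - (2 * b - 2 * K) * Y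
    - 8 * Real.sqrt 2 * ca * ex + 4 * Real.sqrt 2 * ca * p := ⟨_, rfl⟩
  obtain ⟨rT, hrT⟩ : ∃ z, z = R1 - (2 * sn + 1 / 2) * e2 + Y + (2 * cs - 1 / 2) * X
    - Real.sqrt 2 / 2 * p - q + (2 + Real.sqrt 2) * ex := ⟨_, rfl⟩
  have hcs : cs ≤ 9659259 / 10000000 := cs_le
  have hrest : ∀ φ : ℝ, 5352 / 10000 ≤ φ → φ ≤ 5528 / 10000 → -(575 / 100000) * g ≤ rL - φ * rT := by
    intro φ h1 h2
    have hf := fin_ineq hg0 hg (by linarith) ht hw0 hw hv0 hv hE hR he hpq hex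
    have hca : 0 ≤ ca := by linarith only [nc.1]
    have kc : Real.sqrt 2 * ca ≤ 14142135624 / 10000000000 * (99896 / 10000000) :=
      mul_le_mul s2 nc.2 hca (by norm_num)
    have kf : φ * Real.sqrt 2 ≤ 5528 / 10000 * (14142135624 / 10000000000) :=
      mul_le_mul h2 s2 (by positivity) (by norm_num)
    have hc1 : 8 * Real.sqrt 2 * ca + φ * (2 + Real.sqrt 2) ≤ 201 / 100 := by
      linarith only [kc, kf, h2]
    have hc1' : 0 ≤ 8 * Real.sqrt 2 * ca + φ * (2 + Real.sqrt 2) := by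
      positivity
    have hc2 : 4 * Real.sqrt 2 * ca + φ * (Real.sqrt 2 / 2) ≤ 56 / 100 := by
      linarith only [kc, kf]
    have hc2' : 0 ≤ 4 * Real.sqrt 2 * ca + φ * (Real.sqrt 2 / 2) := by
      positivity
    have e : rL - φ * rT = (2 * b - 2 * K - φ) * R1 + (-6 * sn * m + b * (1 + cs) - K + φ * (2 * sn + 1 / 2)) * e2
      + (6 * cs * m - b * (1 - sn) + K - φ * (2 * cs - 1 / 2)) * X + (-(2 * b - 2 * K) - φ) * Y
      - (8 * Real.sqrt 2 * ca + φ * (2 + Real.sqrt 2)) * ex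
      + (4 * Real.sqrt 2 * ca + φ * (Real.sqrt 2 / 2)) * p + φ * q := by
      rw [hrL, hrT]; ring
    have t1 : -(209 / 100) * R1 ≤ (2 * b - 2 * K - φ) * R1 :=
      mul_le_mul_of_nonneg_right (by linarith [nR.1]) hR0
    have t2 : -(153 / 100) * e2 ≤ (-6 * sn * m + b * (1 + cs) - K + φ * (2 * sn + 1 / 2)) * e2 := by
      apply mul_le_mul_of_nonneg_right _ he0
      have : 0 ≤ φ * (2 * sn + 1 / 2) := by positivity
      linarith [ne.1]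
    have t3 : 59 / 10 * X ≤ (6 * cs * m - b * (1 - sn) + K - φ * (2 * cs - 1 / 2)) * X := by
      apply mul_le_mul_of_nonneg_right _ (by rw [hX]; positivity)
      have : φ * (2 * cs - 1 / 2) ≤ 5528 / 10000 * (2 * (9659259 / 10000000) - 1 / 2) := by
        apply mul_le_mul h2 (by linarith) _ (by norm_num)
        have := cs_ge
        linarith
      linarith [nX.1]
    have t4 : 96 / 100 * Y ≤ (-(2 * b - 2 * K) - φ) * Y :=
      mul_le_mul_of_nonneg_right (by linarith [nR.2]) (by rw [hY]; positivity)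
    have t5 : (8 * Real.sqrt 2 * ca + φ * (2 + Real.sqrt 2)) * ex ≤ 201 / 100 * |ex| := by
      have a1 := mul_le_mul_of_nonneg_left (le_abs_self ex) hc1'
      have a2 := mul_le_mul_of_nonneg_right hc1 (abs_nonneg ex)
      linarith
    have t6 : -(56 / 100) * |p| ≤ (4 * Real.sqrt 2 * ca + φ * (Real.sqrt 2 / 2)) * p := by
      have a1 := mul_le_mul_of_nonneg_left (neg_abs_le p) hc2'
      have a2 := mul_le_mul_of_nonneg_right hc2 (abs_nonneg p)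
      linarith
    have t7 : -(56 / 100) * |q| ≤ φ * q := by
      have a1 := mul_le_mul_of_nonneg_left (neg_abs_le q) (by linarith : 0 ≤ φ)
      have a2 := mul_le_mul_of_nonneg_right (by linarith : φ ≤ 56 / 100) (abs_nonneg q)
      linarith
    rw [← hX, ← hY] at hf
    rw [e]
    linarith
  -- the factorised parts
  obtain ⟨A, hA⟩ : ∃ z, z = α * a + β * t := ⟨_, rfl⟩
  obtain ⟨G, hG⟩ : ∃ z, z = γ * a + (2 * cs + 1 / 2) * t := ⟨_, rfl⟩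
  have hq : Θ = (τ * a - t) * G + rT := by
    rw [hΘ, hrT, hG]
    have i2 := id2
    have e : γ = τ * (2 * cs + 1 / 2) + (2 - Real.sqrt 2) := rfl
    linear_combination (a ^ 2) * i2 + a * t * e
  have hf : m * (6 * sn * (a ^ 2 - e2) - 6 * cs * (t ^ 2 - X))
      + b * ((1 - cs) * a ^ 2 + 2 * R1 + (1 + cs) * e2 - (1 + sn) * t ^ 2 - (1 - sn) * X - 2 * Y)
      - ca * (8 * Real.sqrt 2 * (a * t + ex) - 4 * Real.sqrt 2 * p) = K * (1 + g / 4) + (τ * a - t) * A + rL := by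
    rw [hrL, hA]
    have i1 := id1
    have e : α = τ * β + 8 * Real.sqrt 2 * ca := rfl
    have e' : β = 6 * cs * m + b * (1 + sn) - K := rfl
    linear_combination (a ^ 2) * i1 + a * t * e + t ^ 2 * e' + K * hP
  -- bound of `a`
  have ha2 : a ≤ 100248 / 100000 := by
    have : a ^ 2 ≤ (100248 / 100000) ^ 2 := by
      rw [hP, hX, hY]
      have w2 : w ^ 2 ≤ (132 / 10000) ^ 2 := pow_le_pow_left₀ hw0 hw 2
      have v2 : v ^ 2 ≤ (5 / 1000) ^ 2 := pow_le_pow_left₀ hv0 hv 2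
      have t2 : t ^ 2 ≤ (2752 / 100000) ^ 2 := pow_le_pow_left₀ (by linarith) ht 2
      linarith
    exact abs_le_of_sq_le_sq' this (by norm_num) |>.2
  have hU : 0 ≤ A - 5352 / 10000 * G := by
    have e : A - 5352 / 10000 * G = (α - 5352 / 10000 * γ) * a + (β - 5352 / 10000 * (2 * cs + 1 / 2)) * t := by
      rw [hA, hG]; ring
    rw [e]
    have a1 : -948760 / 10000000 * a ≤ (α - 5352 / 10000 * γ) * a := mul_le_mul_of_nonneg_right u1.1 ha0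
    have a2 : 39019430 / 10000000 * t ≤ (β - 5352 / 10000 * (2 * cs + 1 / 2)) * t :=
      mul_le_mul_of_nonneg_right u2.1 (by linarith)
    linarith
  have hV : A - 5528 / 10000 * G ≤ 0 := by
    have e : A - 5528 / 10000 * G = (α - 5528 / 10000 * γ) * a + (β - 5528 / 10000 * (2 * cs + 1 / 2)) * t := by
      rw [hA, hG]; ring
    rw [e]
    have a1 : (α - 5528 / 10000 * γ) * a ≤ -1063441 / 10000000 * a := mul_le_mul_of_nonneg_right v1.2 ha0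
    have a2 : (β - 5528 / 10000 * (2 * cs + 1 / 2)) * t ≤ 38591427 / 10000000 * t :=
      mul_le_mul_of_nonneg_right v2.2 (by linarith)
    linarith
  rw [hf]
  have hKg : 385 / 1000 * g ≤ K * (g / 4) - 575 / 100000 * g := by
    have := mul_le_mul_of_nonneg_right nK.1 hg0
    linarith
  by_cases hc : 0 ≤ τ * a - t
  · have r := hrest (5352 / 10000) (by norm_num) (by norm_num)
    have k := mul_nonneg hc hU
    rw [hq]
    linarith
  · push Not at hc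
    have r := hrest (5528 / 10000) (by norm_num) (by norm_num)
    have k := mul_nonneg_of_nonpos_of_nonpos hc.le hV
    rw [hq] at hth ⊢
    linarith

/-- the sum of the four turns in real coordinates -/
lemma ident (r0 r1 r2 r3 x1 x2 y1 y2 t : ℝ) :
    pturn r0 ⟨t - x1, -x2⟩ r1 ⟨t + x1 - 2 * y2, x2 + 2 * y1⟩ r2 ⟨t - x1, -x2⟩
      + pturn r1 ⟨t + x1 - 2 * y2, x2 + 2 * y1⟩ r2 ⟨t - x1, -x2⟩ r3 ⟨t + x1 + 2 * y2, x2 - 2 * y1⟩
      + pturn r2 ⟨t - x1, -x2⟩ r3 ⟨t + x1 + 2 * y2, x2 - 2 * y1⟩ r0 ⟨t - x1, -x2⟩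
      + pturn r3 ⟨t + x1 + 2 * y2, x2 - 2 * y1⟩ r0 ⟨t - x1, -x2⟩ r1 ⟨t + x1 - 2 * y2, x2 + 2 * y1⟩
    = 4 * ((2 * sn - 1 / 2) * ((r0 + r1 + r2 + r3) / 4) ^ 2
        + ((r0 - r2) ^ 2 + (r1 - r3) ^ 2) / 16
        - (2 * sn + 1 / 2) * ((r0 - r1 + r2 - r3) / 4) ^ 2 + (y1 ^ 2 + y2 ^ 2)
        + (2 * cs - 1 / 2) * (x1 ^ 2 + x2 ^ 2) - (2 * cs + 1 / 2) * t ^ 2
        - (2 - 2 * (cs - sn)) * ((r0 + r1 + r2 + r3) / 4) * t
        - (cs - sn) * (r0 - r2) * y1 - (r1 - r3) * y2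
        + (2 + 2 * (cs - sn)) * ((r0 - r1 + r2 - r3) / 4) * x1) := by
  have q1 : Real.sqrt 3 * sn = cs - 2 * sn := by
    rw [sn_eq, cs_eq]
    linear_combination (Real.sqrt 2 / 4) * hy
  have q2 : Real.sqrt 3 * cs = 2 * cs - sn := by
    rw [sn_eq, cs_eq]
    linear_combination (Real.sqrt 2 / 4) * hy
  simp only [pturn, e1, e2, ob, om, Complex.sub_re, Complex.sub_im, Complex.add_re, Complex.add_im,
    Complex.mul_re, Complex.mul_im, Complex.conj_re, Complex.conj_im, Complex.ofReal_re,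
    Complex.ofReal_im, map_add, map_sub, map_mul, Complex.conj_ofReal]
  linear_combination (-2 * r0 * y1 + 2 * r2 * y1) * q1
    + (r0*x1 + r0*t - r1*x1 + r1*t + r2*x1 + r2*t - r3*x1 + r3*t + 4*x1^2 + 4*x2^2 - 4*t^2) * q2
    + (1/2*r0*x1 - 1/2*r0*t - 1/2*r1*x1 - r1*y2 - 1/2*r1*t + 1/2*r2*x1 - 1/2*r2*t - 1/2*r3*x1
        + r3*y2 - 1/2*r3*t - 1/2*x1^2 - 1/2*x2^2 + y1^2 + y2^2 - 1/2*t^2) * hy

/-- distance of two radii -/
lemma rad {p q m : ℝ} (hp : 1 ≤ p) (hq : 1 ≤ q) (h : |p ^ 2 - q ^ 2| ≤ 2 * m) :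
    |p - q| ≤ m := by
  have e : |p ^ 2 - q ^ 2| = |p - q| * (p + q) := by
    rw [show p ^ 2 - q ^ 2 = (p - q) * (p + q) by ring, abs_mul, abs_of_pos (by linarith : 0 < p + q)]
  rw [e] at h
  nlinarith only [abs_nonneg (p - q), hp, hq, h]

end N1

open N1

/-- (G1) -/
theorem fin_near1 {t : ℝ} {r : ℕ → ℝ} {B : ℕ → ℂ} (h : Cf t r B) {w v g : ℝ} (hb : NBox t r B w v g)
    (hth : 0 ≤ ∑ k ∈ range 4, tn r B k) :
    4 * (8 - 4 * Real.sqrt 2 - Real.log 2) / (2 * Real.sqrt 2 - 1) * (Real.sqrt 3 / 2) / 2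
      + 385 / 1000 * g + 1338 / 10000 * ∑ k ∈ range 4, tn r B k ≤
    ∑ k ∈ range 4, (pT (r k) (B k) (r (k + 1)) (B (k + 1))
      + (cb * pC (r k) (B k) (r (k + 1)) (B (k + 1)) - ca * pG0 (r k) (B k) (r (k + 1)) (B (k + 1)))) := by
  obtain ⟨x1, x2, y1, y2, hcx, hcy, hB0, hB1, hB2, hB3⟩ := h.coords
  have hw0 : 0 ≤ w := hb.w0
  have hv0 : 0 ≤ v := hb.v0
  have ht0 := h.t0
  have hw2 : w ^ 2 = x1 ^ 2 + x2 ^ 2 := by
    rw [hb.hw, hcx, ← Complex.normSq_eq_norm_sq, Complex.normSq_mk]; ring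
  have hv2 : v ^ 2 = y1 ^ 2 + y2 ^ 2 := by
    rw [hb.hv, hcy, ← Complex.normSq_eq_norm_sq, Complex.normSq_mk]; ring
  -- the turns
  have hsum : ∑ k ∈ range 4, tn r B k
      = pturn (r 0) (B 0) (r 1) (B 1) (r 2) (B 2) + pturn (r 1) (B 1) (r 2) (B 2) (r 3) (B 3)
        + pturn (r 2) (B 2) (r 3) (B 3) (r 0) (B 0) + pturn (r 3) (B 3) (r 0) (B 0) (r 1) (B 1) := by
    have e4 : r 4 = r 0 := h.rper 0
    have e5 : r 5 = r 1 := h.rper 1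
    have f4 : B 4 = B 0 := h.Bper 0
    have f5 : B 5 = B 1 := h.Bper 1
    simp only [Finset.sum_range_succ, Finset.sum_range_zero, tn, zero_add]
    norm_num
    rw [e4, e5, f4, f5]
  rw [hB0, hB1, hB2, hB3, N1.ident, cs_sub_sn, ← hw2, ← hv2] at hsum
  -- the sums
  have hL : ∑ k ∈ range 4, (pT (r k) (B k) (r (k + 1)) (B (k + 1))
      + (cb * pC (r k) (B k) (r (k + 1)) (B (k + 1)) - ca * pG0 (r k) (B k) (r (k + 1)) (B (k + 1)))) =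
      (1 - 2 * ca / 3) * sT r B + cb * ∑ k ∈ range 4, pC (r k) (B k) (r (k + 1)) (B (k + 1))
      - ca * ∑ k ∈ range 4, -(2 * (pK (r k) (B k) (r (k + 1)) (B (k + 1))).im) := by
    simp only [sT, pG0, sum_range_succ, sum_range_zero, zero_add]
    ring
  have hS : Sg r = 16 * (((r 0 - r 2) ^ 2 + (r 1 - r 3) ^ 2) / 16 + ((r 0 - r 1 + r 2 - r 3) / 4) ^ 2) := by
    rw [h.Sg_eq]; ring
  have hrs := h.sum_rsq
  rw [hL, h.sum_T, S4cAux.sum_C h, S4cAux.sum_K h hB0 hB1 hB2 hB3]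
  rw [← hb.hg, ← hb.hw, ← hb.hv, hS] at *
  have hgs := sig_eq r B
  rw [← hb.hg] at hgs
  have d0' := h.dd_nonneg 0
  have d1' := h.dd_nonneg 1
  have d2' := h.dd_nonneg 2
  have d3' := h.dd_nonneg 3
  have hd0 : dd r B 0 = r 0 ^ 2 - ((t - x1) * (t - x1) + -x2 * -x2) - 1 := by
    unfold dd; rw [hB0, Complex.normSq_mk]
  have hd1 : dd r B 1 = r 1 ^ 2 - ((t + x1 - 2 * y2) * (t + x1 - 2 * y2)
    + (x2 + 2 * y1) * (x2 + 2 * y1)) - 1 := by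
    unfold dd; rw [hB1, Complex.normSq_mk]
  have hd2 : dd r B 2 = r 2 ^ 2 - ((t - x1) * (t - x1) + -x2 * -x2) - 1 := by
    unfold dd; rw [hB2, Complex.normSq_mk]
  have hd3 : dd r B 3 = r 3 ^ 2 - ((t + x1 + 2 * y2) * (t + x1 + 2 * y2)
    + (x2 - 2 * y1) * (x2 - 2 * y1)) - 1 := by
    unfold dd; rw [hB3, Complex.normSq_mk]
  have L0 := h.one_le 0
  have L1 := h.one_le 1
  have L2 := h.one_le 2
  have L3 := h.one_le 3
  generalize dd r B 0 = d0 at *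
  generalize dd r B 1 = d1 at *
  generalize dd r B 2 = d2 at *
  generalize dd r B 3 = d3 at *
  generalize (∑ k ∈ range 4, tn r B k) = S at *
  generalize r 0 = r0 at *
  generalize r 1 = r1 at *
  generalize r 2 = r2 at *
  generalize r 3 = r3 at *
  -- bounds of coordinates
  have hx1 : |x1| ≤ w := abs_le_of_sq_le_sq (by linarith only [hw2, sq_nonneg x2]) hw0
  have hy1 : |y1| ≤ v := abs_le_of_sq_le_sq (by linarith only [hv2, sq_nonneg y2]) hv0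
  have hy2 : |y2| ≤ v := abs_le_of_sq_le_sq (by linarith only [hv2, sq_nonneg y1]) hv0
  have ha : |t * x1 + v ^ 2| ≤ v ^ 2 + t * w := by
    have := abs_add_le (t * x1) (v ^ 2)
    rw [abs_mul, abs_of_nonneg ht0, abs_of_nonneg (sq_nonneg v)] at this
    linarith only [this, mul_le_mul_of_nonneg_left hx1 ht0]
  have hbb : |x2 * y1 - y2 * (t + x1)| ≤ v * (t + w) := by
    have e : x2 * y1 - y2 * (t + x1) = (x2 * y1 - x1 * y2) - t * y2 := by ring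
    rw [e]
    have h1 : |x2 * y1 - x1 * y2| ≤ w * v := by
      apply abs_le_of_sq_le_sq _ (mul_nonneg hw0 hv0)
      rw [mul_pow, hw2, hv2]
      nlinarith only [sq_nonneg (x1 * y1 + x2 * y2)]
    have h2 : |t * y2| ≤ t * v := by
      rw [abs_mul, abs_of_nonneg ht0]; exact mul_le_mul_of_nonneg_left hy2 ht0
    have := abs_sub (x2 * y1 - x1 * y2) (t * y2)
    linarith
  obtain ⟨a, hadef⟩ : ∃ a, a = t * x1 + v ^ 2 := ⟨_, rfl⟩
  obtain ⟨b', hbdef⟩ : ∃ b, b = x2 * y1 - y2 * (t + x1) := ⟨_, rfl⟩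
  rw [← hadef] at ha
  rw [← hbdef] at hbb
  have q02 : r0 ^ 2 - r2 ^ 2 = d0 - d2 := by rw [hd0, hd2]; ring
  have q13 : r1 ^ 2 - r3 ^ 2 = d1 - d3 + 8 * b' := by rw [hd1, hd3, hbdef]; ring
  have q01 : r0 ^ 2 - r1 ^ 2 = d0 - d1 - 4 * (a + b') := by
    rw [hd0, hd1, hadef, hbdef, hv2]; ring
  have q23 : r2 ^ 2 - r3 ^ 2 = d2 - d3 - 4 * (a - b') := by
    rw [hd2, hd3, hadef, hbdef, hv2]; ring
  obtain ⟨a1, a2⟩ := abs_le.mp ha
  obtain ⟨b1, b2⟩ := abs_le.mp hbb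
  have m02 : |r0 - r2| ≤ (d0 + d2) / 2 := N1.rad L0 L2 (by
    rw [q02, abs_le]; constructor <;> linarith)
  have m13 : |r1 - r3| ≤ (d1 + d3) / 2 + 4 * (v * (t + w)) := N1.rad L1 L3 (by
    rw [q13, abs_le]; constructor <;> linarith)
  have m01 : |r0 - r1| ≤ (d0 + d1) / 2 + 2 * (v ^ 2 + t * w) + 2 * (v * (t + w)) := N1.rad L0 L1 (by
    rw [q01, abs_le]; constructor <;> linarith)
  have m23 : |r2 - r3| ≤ (d2 + d3) / 2 + 2 * (v ^ 2 + t * w) + 2 * (v * (t + w)) := N1.rad L2 L3 (by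
    rw [q23, abs_le]; constructor <;> linarith)
  have vt : 0 ≤ v * (t + w) := mul_nonneg hv0 (by linarith)
  have hR1 : ((r0 - r2) ^ 2 + (r1 - r3) ^ 2) / 16 ≤ (g / 8 + v * (t + w)) ^ 2 := by
    have e1 : (r0 - r2) ^ 2 = |r0 - r2| ^ 2 := (sq_abs _).symm
    have e2 : (r1 - r3) ^ 2 = |r1 - r3| ^ 2 := (sq_abs _).symm
    have p1 := abs_nonneg (r0 - r2)
    have p2 := abs_nonneg (r1 - r3)
    have q : (|r0 - r2| + |r1 - r3|) / 4 ≤ g / 8 + v * (t + w) := by rw [hgs]; linarith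
    have q' : ((|r0 - r2| + |r1 - r3|) / 4) ^ 2 ≤ (g / 8 + v * (t + w)) ^ 2 :=
      pow_le_pow_left₀ (by positivity) q 2
    rw [e1, e2]
    nlinarith only [q', mul_nonneg p1 p2]
  have hR2 : |(r0 - r1 + r2 - r3) / 4| ≤ g / 8 + v ^ 2 + t * w + v * (t + w) := by
    obtain ⟨u1, u2⟩ := abs_le.mp m01
    obtain ⟨u3, u4⟩ := abs_le.mp m23
    rw [abs_le, hgs]
    constructor <;> linarith
  have hR0 : 1 ≤ (r0 + r1 + r2 + r3) / 4 := by linarith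
  have hP : ((r0 + r1 + r2 + r3) / 4) ^ 2 = 1 + g / 4 + w ^ 2 + 2 * v ^ 2 + t ^ 2
      - 2 * (((r0 - r2) ^ 2 + (r1 - r3) ^ 2) / 16) - ((r0 - r1 + r2 - r3) / 4) ^ 2 := by
    linear_combination hrs / 4
  have e2le : ((r0 - r1 + r2 - r3) / 4) ^ 2 ≤ (g / 8 + v ^ 2 + t * w + v * (t + w)) ^ 2 := by
    rw [← sq_abs]
    exact pow_le_pow_left₀ (abs_nonneg _) hR2 2
  have hpq : |(r0 - r2) * y1| + |(r1 - r3) * y2| ≤ (g / 2 + 4 * (v * (t + w))) * v := by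
    rw [abs_mul, abs_mul]
    have k1 : |r0 - r2| * |y1| ≤ (d0 + d2) / 2 * v := mul_le_mul m02 hy1 (abs_nonneg _) (by linarith)
    have k2 : |r1 - r3| * |y2| ≤ ((d1 + d3) / 2 + 4 * (v * (t + w))) * v :=
      mul_le_mul m13 hy2 (abs_nonneg _) (by linarith)
    rw [hgs]
    linarith
  have hex : |(r0 - r1 + r2 - r3) / 4 * x1| ≤ w * (g / 8 + v ^ 2 + t * w + v * (t + w)) := by
    rw [abs_mul, mul_comm]
    exact mul_le_mul hx1 hR2 (abs_nonneg _) hw0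
  have hSΘ : 0 ≤ S / 4 := by linarith
  have key := N1.core (by linarith) hb.g0 hb.gu hb.tl hb.tu hw0 hb.wu hv0 hb.vu rfl rfl rfl hR0
    (by positivity) (sq_nonneg _) hR1 e2le hpq hex hP (Θ := S / 4) (by rw [hsum]; ring) hSΘ
  have e4 : 4 * (S / 4) = S := by ring
  rw [e4] at key
  unfold N1.K N1.m N1.b at key
  refine key.trans (le_of_eq ?_)
  linear_combination ((1 - 2 * ca / 3) * 6 * sn + 4 * Real.sqrt 3 * cb * (1 - cs)) * hP

end Rein83
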