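import Pool.Agent.Rein83.NearK
import Pool.Agent.Rein83.FinCert2
import Pool.Agent.Rein83.FinCert2B
import Pool.Agent.Rein83.FinM
import Pool.Agent.Rein83.FinGC
import Pool.Agent.Rein83.FinGG0
import Pool.Agent.Rein83.FinGcr
import Pool.Agent.Rein83.FinGG24
import Pool.Agent.Rein83.FinGx1
import Pool.Agent.Rein83.FinGTh
import Pool.Agent.Rein83.FinNear1

set_option autoImplicit false

/-! Section F: the near stage. -/

namespace Rein83

open Complex Finset Rein69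

/-- right side of S2 -/
lemma s2_le_m2 {T W V G t w v g : ℝ} (ht0 : 0 ≤ t) (ht : t ≤ T) (hw0 : 0 ≤ w) (hw : w ≤ W) (hv0 : 0 ≤ v) (hv : v ≤ V)
    (hg0 : 0 ≤ g) (hg : g ≤ G) :
    17639 / 1000000 * (1 + g / 4 + w ^ 2 + 2 * v ^ 2 + t ^ 2) + (g / 8 + v * (t + w)) ^ 2 + v ^ 2
      + 143186 / 100000 * w ^ 2 - 243185 / 100000 * t ^ 2 - 58578 / 100000 * t + g * v / 2
      + 4 * v ^ 2 * (t + w)
      + 341422 / 100000 * w * (g / 8 + v ^ 2 + t * w + v * (t + w)) ≤ m2 T W V G t w v g := by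
  have e : m2 T W V G t w v g - (17639 / 1000000 * (1 + g / 4 + w ^ 2 + 2 * v ^ 2 + t ^ 2)
      + (g / 8 + v * (t + w)) ^ 2 + v ^ 2
      + 143186 / 100000 * w ^ 2 - 243185 / 100000 * t ^ 2 - 58578 / 100000 * t + g * v / 2
      + 4 * v ^ 2 * (t + w)
      + 341422 / 100000 * w * (g / 8 + v ^ 2 + t * w + v * (t + w))) =
      ((G - g) / 8 + (V * (T + W) - v * (t + w))) * (g / 8 + v * (t + w)) + g * (V - v) / 2
      + 4 * v ^ 2 * ((T - t) + (W - w))
      + 341422 / 100000 * ((W - w) * g / 8 + (W - w) * v ^ 2 + (T - t) * w ^ 2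
        + ((T - t) + (W - w)) * (v * w)) := by
    unfold m2; ring
  have hT : 0 ≤ T - t := by linarith
  have hW : 0 ≤ W - w := by linarith
  have hV : 0 ≤ V - v := by linarith
  have hG : 0 ≤ G - g := by linarith
  have h1 : v * (t + w) ≤ V * (T + W) := by
    apply mul_le_mul hv (by linarith) (by linarith) (by linarith)
  have h2 : 0 ≤ V * (T + W) - v * (t + w) := by linarith
  have h3 : 0 ≤ v * (t + w) := by positivity
  have : 0 ≤ ((G - g) / 8 + (V * (T + W) - v * (t + w))) * (g / 8 + v * (t + w)) + g * (V - v) / 2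
      + 4 * v ^ 2 * ((T - t) + (W - w))
      + 341422 / 100000 * ((W - w) * g / 8 + (W - w) * v ^ 2 + (T - t) * w ^ 2
        + ((T - t) + (W - w)) * (v * w)) := by positivity
  linarith

lemma tn_per {t : ℝ} {r : ℕ → ℝ} {B : ℕ → ℂ} (h : Cf t r B) (k : ℕ) : tn r B (k + 4) = tn r B k := by
  unfold tn
  rw [show k + 4 + 1 = k + 1 + 4 by ring, show k + 4 + 2 = k + 2 + 4 by ring]
  simp only [h.rper, h.Bper]

lemma tn_sum {t : ℝ} {r : ℕ → ℝ} {B : ℕ → ℂ} (h : Cf t r B) (k : ℕ) :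
    tn r B k + tn r B (k + 1) + tn r B (k + 2) + tn r B (k + 3) = ∑ i ∈ range 4, tn r B i := by
  induction k with
  | zero => simp only [Finset.sum_range_succ, Finset.sum_range_zero, zero_add]
  | succ k ih =>
    have := tn_per h k
    rw [show k + 1 + 1 = k + 2 by ring, show k + 1 + 2 = k + 3 by ring, show k + 1 + 3 = k + 4 by ring, this]
    linarith

/-- ratio pair -/
lemma ratio_pair {c c' G G' : ℝ} (hc : c ≤ 593 / 10000) (hc' : c' ≤ 593 / 10000)
    (hG : 2952 / 10000 ≤ G) (hG' : 2952 / 10000 ≤ G') (hS : 63289 / 100000 ≤ G + G') :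
    c / G + c' / G' ≤ 3766 / 10000 := by
  have g0 : 0 < G := by linarith
  have g1 : 0 < G' := by linarith
  rw [div_add_div _ _ g0.ne' g1.ne', div_le_iff₀ (mul_pos g0 g1)]
  have a1 : c * G' ≤ 593 / 10000 * G' := mul_le_mul_of_nonneg_right hc g1.le
  have a2 : G * c' ≤ 593 / 10000 * G := by
    have := mul_le_mul_of_nonneg_left hc' g0.le
    linarith
  have a3 := mul_nonneg (sub_nonneg.2 hG) (sub_nonneg.2 hG')
  nlinarith only [a1, a2, a3, hS, g0, g1]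

/-- the final numerical inequality -/
lemma final_num {Θ g : ℝ} (h0 : 0 ≤ Θ) (h1 : Θ ≤ 757 / 100000) (g0 : 0 ≤ g) (g1 : g ≤ 159 / 10000)
    {s : ℝ} (hs0 : 0 ≤ s) (hs : s ≤ 8660255 / 10000000) :
    2 * (593 / 10000) * (214 / 10000 * (2 * Θ / (1005 / 10000)) + 284 / 100 * (Θ ^ 2 / 4 / (1005 / 10000) ^ 2))
      + (1 + 228 / 100 * (Θ / (1005 / 10000))) / (9787 / 10000) * s * (3766 / 10000 * g) ≤
    385 / 1000 * g + 1338 / 10000 * Θ := by
  have k1 : (1 + 228 / 100 * (Θ / (1005 / 10000))) / (9787 / 10000) * s * (3766 / 10000 * g) ≤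
      (1 + 228 / 100 * (Θ / (1005 / 10000))) / (9787 / 10000) * (8660255 / 10000000) * (3766 / 10000 * g) := by
    apply mul_le_mul_of_nonneg_right _ (by positivity)
    apply mul_le_mul_of_nonneg_left hs (by positivity)
  refine le_trans (add_le_add le_rfl k1) ?_
  have p1 := mul_nonneg h0 (sub_nonneg.2 h1)
  have p2 := mul_nonneg g0 (sub_nonneg.2 h1)
  have p3 := mul_nonneg h0 (sub_nonneg.2 g1)
  have e1 : 2 * Θ / (1005 / 10000) = Θ * (20000 / 1005) := by ring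
  have e2 : Θ ^ 2 / 4 / (1005 / 10000) ^ 2 = Θ ^ 2 * (10000 ^ 2 / (4 * 1005 ^ 2)) := by ring
  have e3 : Θ / (1005 / 10000) = Θ * (10000 / 1005) := by ring
  have e4 : (1 + 228 / 100 * (Θ * (10000 / 1005))) / (9787 / 10000) =
      (1 + 228 / 100 * (Θ * (10000 / 1005))) * (10000 / 9787) := by ring
  rw [e1, e2, e3, e4]
  nlinarith [p1, p2, p3]

/-- consequences of the certificates in the final box -/
lemma box_lin {t : ℝ} {r : ℕ → ℝ} {B : ℕ → ℂ} {w v g : ℝ} (hb : NBox t r B w v g) :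
    8 / 10 * w + 182 / 100 * v + 6 / 100 * g ≤ 137 / 10000 ∧
    28285 / 10000 * w + 4 * v + 371 / 10000 ≤ 28285 / 10000 * t ∧
    v + 206 / 10000 ≤ t ∧
    925 / 10000 * w + 15 / 100 * v + 3 / 100 * g ≤ 512 / 10000 * t + 2 / 10000 ∧
    28285 / 10000 * t + 28285 / 10000 * w + 53 / 10 * v + 2903 / 1000 * (2 * (17639 / 1000000
      - 58578 / 100000 * t - 243185 / 100000 * t ^ 2)
      + (51764 / 100000 + 193186 / 100000 * (86 / 3125)) * (g / 2 + (t + w) ^ 2 + 4 * v ^ 2)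
      + 28638 / 10000 * w ^ 2 + 4 * v ^ 2) ≤ 1289 / 10000 ∧
    454 / 100 * w + 642 / 100 * v + 397 / 10000 ≤ 3818 / 1000 * t ∧
    4 * m2 (86 / 3125) (33 / 2500) (1 / 200) (159 / 10000) t w v g ≤ 757 / 100000 := by
  have ht0 : 0 ≤ t := by linarith [hb.tl]
  have t1 : 1219 / 50000 ≤ t := by linarith [hb.tl]
  have t2 : t ≤ 86 / 3125 := by linarith [hb.tu]
  have w0 := hb.w0
  have v0 := hb.v0
  have g0 := hb.g0
  have w1 : w ≤ 33 / 2500 := by linarith [hb.wu]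
  have v1 : v ≤ 1 / 200 := by linarith [hb.vu]
  have g1 : g ≤ 159 / 10000 := hb.gu
  have s4 : HS4c (21 / 50) t w v g := by
    have := hb.s4
    norm_num [HS4c] at this ⊢; exact this
  have M2 := maj2 ht0 t2 w0 w1 v0 v1 g0 g1 hb.s2
  have M3 := maj3 ht0 t2 w0 w1 v0 v1 g0 g1 hb.s3
  have M4 := maj4c ht0 t2 w0 w1 v0 v1 g0 g1 s4
  refine ⟨?_, ?_, fF3 t1 t2 w0 w1 v0 v1 g0 g1 M3 M4, fF4 t1 t2 w0 w1 v0 v1 g0 g1 M2 M3 M4,
    fF5 t1 t2 w0 w1 v0 v1 g0 g1 M2 M3 M4, fF6 t1 t2 w0 w1 v0 v1 g0 g1 M3 M4,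
    fF7 t1 t2 w0 w1 v0 v1 g0 g1 M4⟩
  · rcases le_total t (51 / 2000) with c | c
    · exact fF1a t1 c w0 w1 v0 v1 g0 g1 (maj3 ht0 c w0 w1 v0 v1 g0 g1 hb.s3)
        (maj4c ht0 c w0 w1 v0 v1 g0 g1 s4)
    · rcases le_total t (53 / 2000) with d | d
      · exact fF1b c d w0 w1 v0 v1 g0 g1 (maj3 ht0 d w0 w1 v0 v1 g0 g1 hb.s3)
          (maj4c ht0 d w0 w1 v0 v1 g0 g1 s4)
      · exact fF1c d t2 w0 w1 v0 v1 g0 g1 M3 M4
  · rcases le_total t (51 / 2000) with c | c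
    · exact fF2a t1 c w0 w1 v0 v1 g0 g1 (maj3 ht0 c w0 w1 v0 v1 g0 g1 hb.s3)
        (maj4c ht0 c w0 w1 v0 v1 g0 g1 s4)
    · rcases le_total t (53 / 2000) with d | d
      · exact fF2b c d w0 w1 v0 v1 g0 g1 (maj3 ht0 d w0 w1 v0 v1 g0 g1 hb.s3)
          (maj4c ht0 d w0 w1 v0 v1 g0 g1 s4)
      · exact fF2c d t2 w0 w1 v0 v1 g0 g1 M3 M4

lemma prod4_le {a b c d : ℝ} : a * b + b * c + c * d + d * a ≤ (a + b + c + d) ^ 2 / 4 := by
  nlinarith [sq_nonneg (a + c - b - d)]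

/-- one interval: bound of the losses -/
lemma nval_ge {C G L σ σ' Θ s D D' : ℝ} (hC0 : 0 ≤ C) (hC : C ≤ 593 / 10000) (hG : 0 < G)
    (hσ : 0 ≤ σ) (hσ' : 0 ≤ σ') (h1 : σ ≤ Θ) (h2 : σ' ≤ Θ) (hs : 0 ≤ s) (hD : 0 ≤ D) (hD' : 0 ≤ D') :
    L - 2 * (593 / 10000) * (214 / 10000 * ((σ + σ') / (1005 / 10000))
        + 284 / 100 * (σ * σ' / (1005 / 10000) ^ 2))
      - (1 + 228 / 100 * (Θ / (1005 / 10000))) / (9787 / 10000) * s * (C / G * (D + D')) ≤
    L - 2 * C * (214 / 10000 * (σ / (1005 / 10000) + σ' / (1005 / 10000))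
        + 284 / 100 * ((σ / (1005 / 10000)) * (σ' / (1005 / 10000))))
      - (1 + 228 / 100 * max (σ / (1005 / 10000)) (σ' / (1005 / 10000))) / (9787 / 10000)
        * (C / G) * (s * (D + D')) := by
  have hm : max (σ / (1005 / 10000)) (σ' / (1005 / 10000)) ≤ Θ / (1005 / 10000) := by
    apply max_le
    · exact div_le_div_of_nonneg_right h1 (by norm_num)
    · exact div_le_div_of_nonneg_right h2 (by norm_num)
  have hCG : 0 ≤ C / G := div_nonneg hC0 hG.le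
  have e1 : (1 + 228 / 100 * max (σ / (1005 / 10000)) (σ' / (1005 / 10000))) / (9787 / 10000)
        * (C / G) * (s * (D + D')) ≤
      (1 + 228 / 100 * (Θ / (1005 / 10000))) / (9787 / 10000) * s * (C / G * (D + D')) := by
    have : (1 + 228 / 100 * max (σ / (1005 / 10000)) (σ' / (1005 / 10000))) / (9787 / 10000) ≤
        (1 + 228 / 100 * (Θ / (1005 / 10000))) / (9787 / 10000) := by
      apply div_le_div_of_nonneg_right _ (by norm_num)
      linarith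
    have h3 : 0 ≤ C / G * (s * (D + D')) := by positivity
    calc _ = (1 + 228 / 100 * max (σ / (1005 / 10000)) (σ' / (1005 / 10000))) / (9787 / 10000)
        * (C / G * (s * (D + D'))) := by ring
      _ ≤ (1 + 228 / 100 * (Θ / (1005 / 10000))) / (9787 / 10000) * (C / G * (s * (D + D'))) :=
        mul_le_mul_of_nonneg_right this h3
      _ = _ := by ring
  have e2 : 2 * C * (214 / 10000 * (σ / (1005 / 10000) + σ' / (1005 / 10000))
        + 284 / 100 * ((σ / (1005 / 10000)) * (σ' / (1005 / 10000)))) ≤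
      2 * (593 / 10000) * (214 / 10000 * ((σ + σ') / (1005 / 10000))
        + 284 / 100 * (σ * σ' / (1005 / 10000) ^ 2)) := by
    have h3 : 0 ≤ 214 / 10000 * (σ / (1005 / 10000) + σ' / (1005 / 10000))
        + 284 / 100 * ((σ / (1005 / 10000)) * (σ' / (1005 / 10000))) := by positivity
    calc _ ≤ 2 * (593 / 10000) * (214 / 10000 * (σ / (1005 / 10000) + σ' / (1005 / 10000))
        + 284 / 100 * ((σ / (1005 / 10000)) * (σ' / (1005 / 10000)))) := by
          apply mul_le_mul_of_nonneg_right _ h3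
          linarith
      _ = _ := by ring
  linarith

theorem near_final {N : ℂ → ℝ} (hN : IsSN N) {V : ℝ} (hV : AreaBd N V) (hE : ∀ φ, Real.sqrt 3 / 2 ≤ EE N φ)
    {Φ ρ : ℕ → ℝ} {b : ℕ → ℂ} (h : HSeq N 4 Φ ρ b) {t : ℝ} {B : ℕ → ℂ} (hF : FI N Φ V t ρ B)
    {w v g : ℝ} (hb : NBox t ρ B w v g) :
    4 * (8 - 4 * Real.sqrt 2 - Real.log 2) / (2 * Real.sqrt 2 - 1) * (Real.sqrt 3 / 2) ≤ V := by
  have cf := hF.cf
  obtain ⟨f1, f2, f3, f4, f5, f6, f7⟩ := box_lin hb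
  have htn := tn_nonneg hN h hF
  set Θ := ∑ k ∈ range 4, tn ρ B k with hΘ
  have hΘ0 : 0 ≤ Θ := Finset.sum_nonneg fun k _ => htn k
  have hΘ1 : Θ ≤ 757 / 100000 := by
    have ht0 : 0 ≤ t := by linarith [hb.tl]
    have t2 : t ≤ 86 / 3125 := by linarith [hb.tu]
    have w1 : w ≤ 33 / 2500 := by linarith [hb.wu]
    have v1 : v ≤ 1 / 200 := by linarith [hb.vu]
    have e1 := fin_gTh cf hb.hw hb.hv hb.hg
    have e2 := s2_le_m2 ht0 t2 hb.w0 w1 hb.v0 v1 hb.g0 hb.gu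
    linarith
  have tle : ∀ k, tn ρ B k ≤ Θ := fun k => by
    have := tn_sum cf k
    have a1 := htn (k + 1)
    have a2 := htn (k + 2)
    have a3 := htn (k + 3)
    linarith
  have tle2 : ∀ k, tn ρ B (k + 3) + tn ρ B k ≤ Θ := fun k => by
    have := tn_sum cf k
    have a1 := htn (k + 1)
    have a2 := htn (k + 2)
    linarith
  have hC : ∀ k, pC (ρ k) (B k) (ρ (k + 1)) (B (k + 1)) ≤ 593 / 10000 := fun k => by
    have := fin_gC cf hb k
    linarith
  have hC0 : ∀ k, 0 ≤ pC (ρ k) (B k) (ρ (k + 1)) (B (k + 1)) := fun k => by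
    rw [← hF.C1]
    exact (C1_pos hN (hs_lt h k) (hs_le h k 1 (by norm_num))).le
  have hG : ∀ k, 2952 / 10000 ≤ pG0 (ρ k) (B k) (ρ (k + 1)) (B (k + 1)) := fun k => by
    have := (fin_gG0 cf hb k).1
    linarith
  have hG1 : ∀ k, pG0 (ρ k) (B k) (ρ (k + 1)) (B (k + 1)) ≤ 1 := fun k => (fin_gG0 cf hb k).2.1
  have hGs : ∀ k, 63289 / 100000 ≤ pG0 (ρ k) (B k) (ρ (k + 1)) (B (k + 1)) +
      pG0 (ρ (k + 1)) (B (k + 1)) (ρ (k + 2)) (B (k + 2)) := fun k => by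
    have := (fin_gG0 cf hb k).2.2
    linarith
  have hX : 28285 / 10000 * (866 / 1000 * |(cx t B).re|) ≤ 2903 / 1000 * (2 * (17639 / 1000000
      - 58578 / 100000 * t - 243185 / 100000 * t ^ 2)
      + (51764 / 100000 + 193186 / 100000 * (86 / 3125)) * (g / 2 + (t + w) ^ 2 + 4 * v ^ 2)
      + 28638 / 10000 * w ^ 2 + 4 * v ^ 2) := by
    have h1 := fin_gx1 cf hb htn
    have h2 := abs_nonneg (cx t B).re
    have t2 : t ≤ 86 / 3125 := by linarith [hb.tu]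
    have g0 := hb.g0
    have h3 : 0 ≤ (86 / 3125 - t) * (g / 2 + (t + w) ^ 2 + 4 * v ^ 2) := by
      apply mul_nonneg (by linarith) (by positivity)
    have h4 : (8989 / 10000 - 2 * (86 / 3125)) * |(cx t B).re| ≤
        (8989 / 10000 - 2 * t) * |(cx t B).re| :=
      mul_le_mul_of_nonneg_right (by linarith) h2
    linarith only [h1, h2, h3, h4]
  have hg24 := fin_gG24 cf hb
  have key := near_sum hN h hF hV hE (p := 1005 / 10000) (by norm_num)
    (fun k => by have := (fin_gcr cf hb k).1; linarith)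
    (fun k => by have := (fin_gcr cf hb k).2; linarith)
    (fun k => by
      have := tle2 k
      rw [← add_div, div_le_iff₀ (by norm_num)]
      linarith)
    (fun k => by have := hG k; linarith)
    hG1
    (fun k => by have h1 := hG k; have h2 := hC k; linarith)
    (fun k => by have := (hg24 k).1; linarith)
    (fun k => by have := (hg24 k).2.2.1; linarith)
    (fun k => by have := (hg24 k).2.1; linarith)
    (fun k => by have := (hg24 k).2.2.2; linarith)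
  -- lower bound of the sum
  have n1 := fin_near1 cf hb hΘ0
  rw [← hΘ] at n1
  set s := Real.sqrt 3 / 2 with hs
  have hs0 : 0 ≤ s := by positivity
  have hs1 : s ≤ 8660255 / 10000000 := by
    have : Real.sqrt 3 ≤ 17320509 / 10000000 := by
      rw [Real.sqrt_le_left (by norm_num)]; norm_num
    rw [hs]; linarith
  set d : ℕ → ℝ := fun k => ρ k ^ 2 - normSq (B k) - 1 with hd
  have hd0 : ∀ k, 0 ≤ d k := fun k => by
    have := cf.D1 k
    simp only [hd]; linarith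
  set z : ℕ → ℝ := fun k => pC (ρ k) (B k) (ρ (k + 1)) (B (k + 1)) / pG0 (ρ k) (B k) (ρ (k + 1)) (B (k + 1))
    with hz
  set L : ℕ → ℝ := fun k => pT (ρ k) (B k) (ρ (k + 1)) (B (k + 1))
      + (cb * pC (ρ k) (B k) (ρ (k + 1)) (B (k + 1)) - ca * pG0 (ρ k) (B k) (ρ (k + 1)) (B (k + 1))) with hL
  set M := (1 + 228 / 100 * (Θ / (1005 / 10000))) / (9787 / 10000) * s with hM
  have hM0 : 0 ≤ M := by positivity
  have hnv : ∀ k, L k - 2 * (593 / 10000) * (214 / 10000 * ((tn ρ B (k + 3) + tn ρ B k) / (1005 / 10000))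
        + 284 / 100 * (tn ρ B (k + 3) * tn ρ B k / (1005 / 10000) ^ 2))
      - M * (z k * (d k + d (k + 1))) ≤ nval ρ B (1005 / 10000) k := fun k => by
    have hGk : 0 < pG0 (ρ k) (B k) (ρ (k + 1)) (B (k + 1)) := by have := hG k; linarith
    exact nval_ge (L := L k) (hC0 k) (hC k) hGk (htn (k + 3)) (htn k) (tle (k + 3)) (tle k) hs0 (hd0 k)
      (hd0 (k + 1))
  have zp : ∀ k, z k + z (k + 1) ≤ 3766 / 10000 := fun k =>
    ratio_pair (hC k) (hC (k + 1)) (hG k) (hG (k + 1)) (hGs k)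
  have per : ∀ k, tn ρ B (k + 4) = tn ρ B k := tn_per cf
  have dper : d 4 = d 0 := by
    simp only [hd]
    rw [show (4 : ℕ) = 0 + 4 by rfl, cf.rper, cf.Bper]
  have zper : z 4 = z 0 := by
    simp only [hz]
    have e1 := cf.rper 0
    have e2 := cf.Bper 0
    have e3 := cf.rper 1
    have e4 := cf.Bper 1
    simp only [zero_add] at e1 e2
    norm_num at e1 e2 e3 e4 ⊢
    rw [e1, e2, e3, e4]
  have hg : g = d 0 + d 1 + d 2 + d 3 := by
    rw [hb.hg]; unfold sig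
    simp only [Finset.sum_range_succ, Finset.sum_range_zero, zero_add, hd]
  set A : ℝ → ℝ → ℝ := fun x y => 2 * (593 / 10000) * (214 / 10000 * ((x + y) / (1005 / 10000))
        + 284 / 100 * (x * y / (1005 / 10000) ^ 2)) with hA
  have q0 : L 0 - A (tn ρ B 3) (tn ρ B 0) - M * (z 0 * (d 0 + d 1)) ≤ nval ρ B (1005 / 10000) 0 := hnv 0
  have q1 : L 1 - A (tn ρ B 4) (tn ρ B 1) - M * (z 1 * (d 1 + d 2)) ≤ nval ρ B (1005 / 10000) 1 := hnv 1
  have q2 : L 2 - A (tn ρ B 5) (tn ρ B 2) - M * (z 2 * (d 2 + d 3)) ≤ nval ρ B (1005 / 10000) 2 := hnv 2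
  have q3 : L 3 - A (tn ρ B 6) (tn ρ B 3) - M * (z 3 * (d 3 + d 4)) ≤ nval ρ B (1005 / 10000) 3 := hnv 3
  have z0 : z 0 + z 1 ≤ 3766 / 10000 := zp 0
  have z1 : z 1 + z 2 ≤ 3766 / 10000 := zp 1
  have z2 : z 2 + z 3 ≤ 3766 / 10000 := zp 2
  have z3' : z 3 + z 4 ≤ 3766 / 10000 := zp 3
  rw [zper] at z3'
  have p4 : tn ρ B 4 = tn ρ B 0 := per 0
  have p5 : tn ρ B 5 = tn ρ B 1 := per 1
  have p6 : tn ρ B 6 = tn ρ B 2 := per 2
  rw [p4] at q1
  rw [p5] at q2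
  rw [p6] at q3
  rw [dper] at q3
  have hsumL : ∑ k ∈ range 4, L k = L 0 + L 1 + L 2 + L 3 := by
    simp only [Finset.sum_range_succ, Finset.sum_range_zero, zero_add]
  have hsumN : ∑ k ∈ range 4, nval ρ B (1005 / 10000) k = nval ρ B (1005 / 10000) 0 +
      nval ρ B (1005 / 10000) 1 + nval ρ B (1005 / 10000) 2 + nval ρ B (1005 / 10000) 3 := by
    simp only [Finset.sum_range_succ, Finset.sum_range_zero, zero_add]
  have hsumT : Θ = tn ρ B 0 + tn ρ B 1 + tn ρ B 2 + tn ρ B 3 := by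
    rw [hΘ]
    simp only [Finset.sum_range_succ, Finset.sum_range_zero, zero_add]
  have hprod := prod4_le (a := tn ρ B 0) (b := tn ρ B 1) (c := tn ρ B 2) (d := tn ρ B 3)
  rw [← hsumT] at hprod
  have hzd : z 0 * (d 0 + d 1) + z 1 * (d 1 + d 2) + z 2 * (d 2 + d 3) + z 3 * (d 3 + d 0) ≤
      3766 / 10000 * g := by
    have a0 := mul_le_mul_of_nonneg_left z3' (hd0 0)
    have a1 := mul_le_mul_of_nonneg_left z0 (hd0 1)
    have a2 := mul_le_mul_of_nonneg_left z1 (hd0 2)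
    have a3 := mul_le_mul_of_nonneg_left z2 (hd0 3)
    rw [hg]
    linarith only [a0, a1, a2, a3]
  have hzd' := mul_le_mul_of_nonneg_left hzd hM0
  have hAs : A (tn ρ B 3) (tn ρ B 0) + A (tn ρ B 0) (tn ρ B 1) + A (tn ρ B 1) (tn ρ B 2)
      + A (tn ρ B 2) (tn ρ B 3) ≤ 2 * (593 / 10000) * (214 / 10000 * (2 * Θ / (1005 / 10000))
        + 284 / 100 * (Θ ^ 2 / 4 / (1005 / 10000) ^ 2)) := by
    have e : A (tn ρ B 3) (tn ρ B 0) + A (tn ρ B 0) (tn ρ B 1) + A (tn ρ B 1) (tn ρ B 2)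
      + A (tn ρ B 2) (tn ρ B 3) = 2 * (593 / 10000) * (214 / 10000 * (2 * Θ / (1005 / 10000))
        + 284 / 100 * ((tn ρ B 0 * tn ρ B 1 + tn ρ B 1 * tn ρ B 2 + tn ρ B 2 * tn ρ B 3
          + tn ρ B 3 * tn ρ B 0) / (1005 / 10000) ^ 2)) := by
      rw [hsumT]; simp only [hA]; ring
    have e' : (tn ρ B 0 * tn ρ B 1 + tn ρ B 1 * tn ρ B 2 + tn ρ B 2 * tn ρ B 3
          + tn ρ B 3 * tn ρ B 0) / (1005 / 10000) ^ 2 ≤ Θ ^ 2 / 4 / (1005 / 10000) ^ 2 :=
      div_le_div_of_nonneg_right hprod (by norm_num)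
    rw [e]
    linarith
  have fin := final_num hΘ0 hΘ1 hb.g0 hb.gu hs0 hs1
  rw [← hM] at fin
  rw [hsumN] at key
  rw [hsumL] at n1
  have hMs : M * (z 0 * (d 0 + d 1)) + M * (z 1 * (d 1 + d 2)) + M * (z 2 * (d 2 + d 3))
      + M * (z 3 * (d 3 + d 0)) ≤ M * (3766 / 10000 * g) := by
    refine le_trans (le_of_eq ?_) hzd'
    ring
  linarith

end Rein83
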