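import Pool.Agent.Rein83.NearDefs
import Pool.Agent.Rein83.Geo
import Pool.Agent.Rein83.Chain

set_option autoImplicit false

/-! Section E2: from hexagons to sequences. -/

namespace Rein83

open Complex Finset Rein69

/-- Pluecker relation -/
lemma plu (a b c d : ℂ) : cr a b * cr c d = cr a c * cr b d - cr a d * cr b c := by
  unfold cr; ring

section
variable {N : ℂ → ℝ} (hN : IsSN N)
include hN

/-- weak chord lemma -/
lemma chord_le {a b c d : ℝ} (hab : a ≤ b) (hbc : b ≤ c) (hcd : c ≤ d) (hda : d ≤ a + Real.pi) :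
    0 ≤ cr (P N b - P N a) (P N d - P N c) := by
  rcases hab.eq_or_lt with h1 | h1
  · rw [h1, sub_self, cr_zero_left]
  · rcases hcd.eq_or_lt with h2 | h2
    · rw [h2, sub_self, cr_zero_right]
    · exact (chord hN h1 hbc h2 hda).le

end

lemma H0_left (N : ℂ → ℝ) (φ ψ : ℝ) : H0 N φ ψ φ = 0 := by
  unfold H0; rw [sub_self, cr_zero_left]
lemma H2_left (N : ℂ → ℝ) (φ ψ : ℝ) : H2 N φ ψ φ = 0 := by
  unfold H2; rw [sub_self, cr_zero_left]
lemma H4_left (N : ℂ → ℝ) (φ ψ : ℝ) : H4 N φ ψ φ = 0 := by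
  unfold H4; rw [sub_self, cr_zero_left]
lemma H0_right (N : ℂ → ℝ) (φ ψ : ℝ) : H0 N φ ψ ψ = 0 := by
  unfold H0; rw [cr_self]
lemma H2_right (N : ℂ → ℝ) (φ ψ : ℝ) : H2 N φ ψ ψ = 0 := by
  unfold H2; rw [cr_self]
lemma H4_right (N : ℂ → ℝ) (φ ψ : ℝ) : H4 N φ ψ ψ = 0 := by
  unfold H4; rw [cr_self]

/-- the gain of a chain -/
lemma sum_TT (N : ℂ → ℝ) {φ ψ C : ℝ} (hC : C1 N φ ψ = C) (hC0 : 0 < C) (m : ℕ → ℝ) (M : ℕ)
    (hM : 0 < M) (m0 : m 0 = φ) (mM : m M = ψ)
    (mB : ∀ i, i ≤ M → B1 N φ ψ (m i) = (i / M : ℝ) * C) (A x y : ℕ → ℝ)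
    (hA : ∀ i, H0 N φ ψ (m i) = 2 * C * A i) (hx : ∀ i, H2 N φ ψ (m i) = 2 * C * x i)
    (hy : ∀ i, H4 N φ ψ (m i) = 2 * C * y i) (A0 : A 0 = 0) (x0 : x 0 = 0) (y0 : y 0 = 0)
    (AM : A M = 0) (xM : x M = 0) (yM : y M = 0) :
    ∑ i ∈ range M, TT N (m i) (m (i + 1)) = TT N φ ψ + 2 * C * cap M A x y := by
  have hM' : (0 : ℝ) < M := by exact_mod_cast hM
  set F : ℕ → ℝ := fun i => cr (v0 N φ) (v0 N (m i)) + cr (v2 N φ) (v2 N (m i))
    + cr (v4 N φ) (v4 N (m i)) with hF
  set K : ℕ → ℝ := fun i => -((i : ℝ) - 1) * (A i + x i + y i) with hK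
  set S : ℕ → ℝ := fun i => A i + x i + y i with hS
  set Wd : ℕ → ℝ := fun i => (x i * A (i + 1) - x (i + 1) * A i) + (A i * y (i + 1) - A (i + 1) * y i)
      + (y i * x (i + 1) - y (i + 1) * x i) with hWd
  have key : ∀ i ∈ range M, TT N (m i) (m (i + 1)) =
      (F (i + 1) - F i) / 2 + (C / M) * (2 * S i + (K (i + 1) - K i)) + 2 * C * Wd i := by
    intro i hi
    have hi' := Finset.mem_range.mp hi
    have h1 := TT_inner N φ (m i) (m (i + 1))
    have h2 := wedge_sum N φ ψ (m i) (m (i + 1))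
    rw [hC, mB i hi'.le, mB (i + 1) hi', hA, hx, hy, hA, hx, hy] at h2
    set w := cr (v0 N (m i) - v0 N φ) (v0 N (m (i + 1)) - v0 N φ)
      + cr (v2 N (m i) - v2 N φ) (v2 N (m (i + 1)) - v2 N φ)
      + cr (v4 N (m i) - v4 N φ) (v4 N (m (i + 1)) - v4 N φ) with hw
    have h3 : w = (2 * C / M) * (2 * S i + (K (i + 1) - K i)) + 4 * C * Wd i := by
      have h4 : C * w = C * ((2 * C / M) * (2 * S i + (K (i + 1) - K i)) + 4 * C * Wd i) := by
        rw [h2]
        simp only [hK, hS, hWd]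
        push_cast
        field_simp
        ring
      exact mul_left_cancel₀ hC0.ne' h4
    rw [cr_sub_right, cr_sub_right, cr_sub_right, h3] at h1
    have h5 : F (i + 1) - F i = cr (v0 N φ) (v0 N (m (i + 1))) - cr (v0 N φ) (v0 N (m i)) +
        (cr (v2 N φ) (v2 N (m (i + 1))) - cr (v2 N φ) (v2 N (m i))) +
        (cr (v4 N φ) (v4 N (m (i + 1))) - cr (v4 N φ) (v4 N (m i))) := by
      simp only [hF]; ring
    have h6 : (2 * C / M) * (2 * S i + (K (i + 1) - K i)) =
        2 * ((C / M) * (2 * S i + (K (i + 1) - K i))) := by ring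
    rw [h6] at h1
    linarith
  rw [Finset.sum_congr rfl key, Finset.sum_add_distrib, Finset.sum_add_distrib,
    ← Finset.sum_div, Finset.sum_range_sub, ← Finset.mul_sum, Finset.sum_add_distrib,
    Finset.sum_range_sub, ← Finset.mul_sum, ← Finset.mul_sum]
  have hK0 : K 0 = 0 := by simp only [hK, A0, x0, y0]; ring
  have hKM : K M = 0 := by simp only [hK, AM, xM, yM]; ring
  have hF0 : F 0 = 0 := by simp only [hF, m0, cr_self]; ring
  have hFM : F M = 2 * TT N φ ψ := by
    simp only [hF, mM, TT, a0, a2, a4]; ring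
  rw [hK0, hKM, hF0, hFM]
  have hcap : cap M A x y = (∑ i ∈ range M, S i) / M + ∑ i ∈ range M, Wd i := rfl
  rw [hcap]
  field_simp
  ring

/-- (E2) from hexagons to sequences; `φm, φ, ψ, ψp` are four consecutive nodes -/
theorem near_hex {N : ℂ → ℝ} (hN : IsSN N) (hE : ∀ φ, Real.sqrt 3 / 2 ≤ EE N φ) {φm φ ψ ψp : ℝ}
    (h1 : φm < φ) (h2 : φ < ψ) (h3 : ψ < ψp) (h4 : ψp ≤ tau N φm) {σx σy : ℝ} (hσx : 0 ≤ σx) (hσy : 0 ≤ σy)
    (hpx : 0 < cr (v0 N ψ - v0 N φ - (v4 N ψ - v4 N φ)) (v2 N φ - v2 N φm))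
    (hsx : cr (v2 N φ - v2 N φm) (v2 N ψ - v2 N φ) ≤
      σx * cr (v0 N ψ - v0 N φ - (v4 N ψ - v4 N φ)) (v2 N φ - v2 N φm))
    (hpy : 0 < cr (v2 N ψ - v2 N φ - (v0 N ψ - v0 N φ)) (v4 N ψp - v4 N ψ))
    (hsy : cr (v4 N ψ - v4 N φ) (v4 N ψp - v4 N ψ) ≤
      σy * cr (v2 N ψ - v2 N φ - (v0 N ψ - v0 N φ)) (v4 N ψp - v4 N ψ))
    (hG : 0 < G0 N φ ψ) (M : ℕ) (hM : 2 ≤ M) :
    ∃ A x y : ℕ → ℝ, NearSeq M (C1 N φ ψ / G0 N φ ψ) (G2 N φ ψ / G0 N φ ψ) (G4 N φ ψ / G0 N φ ψ)
        ((EE N φ - Real.sqrt 3 / 2) / G0 N φ ψ) ((EE N ψ - Real.sqrt 3 / 2) / G0 N φ ψ) σx σy A x y ∧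
      Ch N φ ψ (TT N φ ψ + 2 * C1 N φ ψ * cap M A x y) ∧
      ∀ i, 0 < i → i < M → Ch N φ ψ (TT N φ ψ + C1 N φ ψ * (A i + x i + y i)) := by
  have hsm := hN.tau_strictMono
  have hmo := hsm.monotone
  have hψτ : ψ < tau N φ := by
    have := hsm h1
    linarith
  have hM0 : 0 < M := by omega
  have hM' : (0 : ℝ) < M := by exact_mod_cast hM0
  have hCpos := C1_pos hN h2 hψτ.le
  obtain ⟨m, m0, mM, mi, mB⟩ := exists_chain hN h2 hψτ.le M hM0
  -- order
  have mmono : ∀ i j, i ≤ j → j ≤ M → m i ≤ m j := by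
    intro i j hij
    induction j, hij using Nat.le_induction with
    | base => intro _; exact le_rfl
    | succ j hj ih =>
      intro hjM
      exact (ih (by omega)).trans (mi j (by omega)).le
  have mlo : ∀ i, i ≤ M → φ ≤ m i := by
    intro i hi
    rw [← m0]
    exact mmono 0 i (Nat.zero_le _) hi
  have mhi : ∀ i, i ≤ M → m i ≤ ψ := by
    intro i hi
    rw [← mM]
    exact mmono i M hi le_rfl
  -- facts on tau
  have t1 : ∀ t, φ ≤ t → ψ ≤ tau N t := fun t ht => hψτ.le.trans (hmo ht)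
  have t3 := hN.tau_three φ
  have t3m := hN.tau_three φm
  have tψ2 : tau N (tau N ψ) ≤ φ + Real.pi := by
    rw [← t3]; exact hmo (hmo hψτ.le)
  have tψp2 : tau N (tau N ψp) ≤ φm + Real.pi := by
    rw [← t3m]; exact hmo (hmo h4)
  obtain ⟨a1, a2', -⟩ := hN.tau_spec φ
  obtain ⟨b1, b2, -⟩ := hN.tau_spec (tau N φ)
  obtain ⟨am1, am2, -⟩ := hN.tau_spec φm
  obtain ⟨bm1, bm2, -⟩ := hN.tau_spec (tau N φm)
  have tt_lt : tau N (tau N φ) < φ + Real.pi := hN.tau_tau_lt φ
  have ttm_lt : tau N (tau N φm) < φm + Real.pi := hN.tau_tau_lt φm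
  -- names
  set C := C1 N φ ψ with hC
  set G := G0 N φ ψ with hGdef
  set A : ℕ → ℝ := fun i => H0 N φ ψ (m i) / (2 * C) with hA
  set x : ℕ → ℝ := fun i => H2 N φ ψ (m i) / (2 * C) with hx
  set y : ℕ → ℝ := fun i => H4 N φ ψ (m i) / (2 * C) with hy
  have hA' : ∀ i, H0 N φ ψ (m i) = 2 * C * A i := by
    intro i; simp only [hA]; field_simp
  have hx' : ∀ i, H2 N φ ψ (m i) = 2 * C * x i := by
    intro i; simp only [hx]; field_simp
  have hy' : ∀ i, H4 N φ ψ (m i) = 2 * C * y i := by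
    intro i; simp only [hy]; field_simp
  have hC2 : (0 : ℝ) < 2 * C := by linarith
  have A0 : A 0 = 0 := by simp only [hA, m0, H0_left, zero_div]
  have x0 : x 0 = 0 := by simp only [hx, m0, H2_left, zero_div]
  have y0 : y 0 = 0 := by simp only [hy, m0, H4_left, zero_div]
  have AM : A M = 0 := by simp only [hA, mM, H0_right, zero_div]
  have xM : x M = 0 := by simp only [hx, mM, H2_right, zero_div]
  have yM : y M = 0 := by simp only [hy, mM, H4_right, zero_div]
  -- vectors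
  set d0 : ℂ := v0 N ψ - v0 N φ with hd0
  set d2 : ℂ := v2 N ψ - v2 N φ with hd2
  set d4 : ℂ := v4 N ψ - v4 N φ with hd4
  set U : ℂ := d0 - d4 with hU
  set U' : ℂ := d2 - d0 with hU'
  set dm : ℂ := v2 N φ - v2 N φm with hdm
  set dp : ℂ := v4 N ψp - v4 N ψ with hdp
  have e02 : cr d0 d2 = C := rfl
  have e24 : cr d2 d4 = C := C1_eq24 N φ ψ
  have e40 : cr d4 d0 = C := C1_eq40 N φ ψ
  have eDU : cr d2 U = -(2 * C) := by
    rw [hU, cr_sub_right, e24, cr_swap d2 d0, e02]; ring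
  have eDU' : cr d4 U' = -(2 * C) := by
    rw [hU', cr_sub_right, e40, cr_swap d4 d2, e24]; ring
  -- coordinates of curve 2
  set w2 : ℕ → ℂ := fun i => v2 N (m i) - v2 N φ with hw2
  set w4 : ℕ → ℂ := fun i => v4 N (m i) - v4 N φ with hw4
  have cX2 : ∀ i, i ≤ M → cr U (w2 i) = 2 * C * ((i / M : ℝ) + A i - y i) := by
    intro i hi
    have := X2_eq N φ ψ (m i)
    rw [mB i hi, hA', hy'] at this
    simp only [hw2, hU, hd0, hd4]
    rw [this]; ring
  have cH2 : ∀ i, cr (w2 i) d2 = 2 * C * x i := by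
    intro i
    rw [← hx']
    rfl
  have cX4 : ∀ i, i ≤ M → cr U' (w4 i) = 2 * C * ((i / M : ℝ) + x i - A i) := by
    intro i hi
    have := X4_eq N φ ψ (m i)
    rw [mB i hi, hA', hx'] at this
    simp only [hw4, hU', hd0, hd2]
    rw [this]; ring
  have cH4 : ∀ i, cr (w4 i) d4 = 2 * C * y i := by
    intro i
    rw [← hy']
    rfl
  -- the two determinant relations
  have rel2 : ∀ u v : ℂ, 2 * C * cr u v = cr u d2 * cr U v - cr U u * cr v d2 := by
    intro u v
    have := plu u v d2 U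
    rw [eDU, cr_swap v U, cr_swap u U] at this
    linarith
  have rel4 : ∀ u v : ℂ, 2 * C * cr u v = cr u d4 * cr U' v - cr U' u * cr v d4 := by
    intro u v
    have := plu u v d4 U'
    rw [eDU', cr_swap v U', cr_swap u U'] at this
    linarith
  -- edge vectors as differences of `P`
  have f0 : d0 = P N ψ - P N φ := rfl
  have f2 : d2 = P N (tau N (tau N ψ)) - P N (tau N (tau N φ)) := by
    rw [hd2, v2_eq hN, v2_eq hN]
  have f4 : d4 = -(P N (tau N ψ) - P N (tau N φ)) := by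
    rw [hd4]; unfold v4; ring
  have fe2 : ∀ i j, w2 j - w2 i = P N (tau N (tau N (m j))) - P N (tau N (tau N (m i))) := by
    intro i j
    simp only [hw2, v2_eq hN]; ring
  have fe4 : ∀ i j, w4 j - w4 i = -(P N (tau N (m j)) - P N (tau N (m i))) := by
    intro i j
    simp only [hw4, v4]; ring
  have fw2 : ∀ i, w2 i = P N (tau N (tau N (m i))) - P N (tau N (tau N φ)) := by
    intro i
    simp only [hw2, v2_eq hN]
  have fdw4 : ∀ i, d4 - w4 i = -(P N (tau N ψ) - P N (tau N (m i))) := by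
    intro i
    simp only [hw4, hd4, v4]; ring
  -- monotonicity of first coordinates
  have cΔ2 : ∀ i, i < M → cr U (w2 (i + 1) - w2 i) =
      2 * C * (1 / (M : ℝ) + (A (i + 1) - A i) - (y (i + 1) - y i)) := by
    intro i hi
    rw [cr_sub_right, cX2 _ hi, cX2 _ hi.le]
    push_cast
    ring
  have cΔ4 : ∀ i, i < M → cr U' (w4 (i + 1) - w4 i) =
      2 * C * (1 / (M : ℝ) + (x (i + 1) - x i) - (A (i + 1) - A i)) := by
    intro i hi
    rw [cr_sub_right, cX4 _ hi, cX4 _ hi.le]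
    push_cast
    ring
  have hdξ : ∀ i, i < M → 0 < 1 / (M : ℝ) + (A (i + 1) - A i) - (y (i + 1) - y i) := by
    intro i hi
    have hlt := mi i hi
    have g1 := mlo i hi.le
    have g2 := mhi (i + 1) hi
    have g3 : tau N (tau N (m (i + 1))) ≤ φ + Real.pi := (hmo (hmo g2)).trans tψ2
    have p0 : 0 < cr U (w2 (i + 1) - w2 i) := by
      rw [hU, cr_sub_left, f0, f4, fe2, cr_neg_left, sub_neg_eq_add]
      refine add_pos ?_ ?_
      · refine chord hN h2 ?_ (hsm (hsm hlt)) g3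
        exact (t1 _ g1).trans (hN.tau_spec (tau N (m i))).1.le
      · refine chord hN (hsm h2) (hmo (t1 _ g1)) (hsm (hsm hlt)) ?_
        linarith
    rw [cΔ2 i hi] at p0
    exact (pos_iff_pos_of_mul_pos p0).mp hC2
  have hdη : ∀ i, i < M → 0 < 1 / (M : ℝ) + (x (i + 1) - x i) - (A (i + 1) - A i) := by
    intro i hi
    have hlt := mi i hi
    have g1 := mlo i hi.le
    have g2 := mhi (i + 1) hi
    have g3 : tau N (m (i + 1)) ≤ φ + Real.pi := by
      have e1 := hmo g2
      have e2 := hmo hψτ.le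
      linarith
    have p0 : 0 < cr U' (w4 (i + 1) - w4 i) := by
      rw [hU', cr_sub_left, f0, f2, fe4, cr_neg_right, cr_neg_right, sub_neg_eq_add,
        ← cr_swap]
      refine add_pos ?_ ?_
      · refine chord hN (hsm hlt) ?_ (hsm (hsm h2)) ?_
        · exact hmo (g2.trans hψτ.le)
        · have e1 := (hN.tau_spec (m i)).1
          linarith
      · exact chord hN h2 (t1 _ g1) (hsm hlt) g3
    rw [cΔ4 i hi] at p0
    exact (pos_iff_pos_of_mul_pos p0).mp hC2
  -- first coordinates between 0 and 1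
  have hξ : ∀ i, i ≤ M → 0 ≤ (i / M : ℝ) + A i - y i := by
    intro i
    induction i with
    | zero => intro _; rw [A0, y0]; simp
    | succ i ih =>
      intro hi
      have e1 := ih (by omega)
      have e2 := hdξ i (by omega)
      push_cast
      rw [add_div]
      linarith
  have hη : ∀ k, k ≤ M → 0 ≤ 1 - (((M - k : ℕ) : ℝ) / M + x (M - k) - A (M - k)) := by
    intro k
    induction k with
    | zero => intro _; rw [Nat.sub_zero, AM, xM]; field_simp; norm_num
    | succ k ih =>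
      intro hk
      have e1 := ih (by omega)
      have e2 := hdη (M - (k + 1)) (by omega)
      have e3 : M - (k + 1) + 1 = M - k := by omega
      rw [e3] at e2
      have e4 : ((M - k : ℕ) : ℝ) = ((M - (k + 1) : ℕ) : ℝ) + 1 := by
        rw [← e3]; push_cast; ring
      rw [e4, add_div] at e1
      linarith
  have hη' : ∀ i, i ≤ M → 0 ≤ 1 - ((i / M : ℝ) + x i - A i) := by
    intro i hi
    have := hη (M - i) (by omega)
    rwa [Nat.sub_sub_self hi] at this
  -- slopes
  have slx : ∀ w : ℂ, 0 ≤ cr dm w → 0 ≤ cr U w → cr w d2 ≤ σx * cr U w := by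
    intro w hw1 hw2
    have e1 := rel2 dm w
    -- 2C cr dm w = cr dm d2 * cr U w - cr U dm * cr w d2
    have e0 := mul_nonneg hC2.le hw1
    have e2 : cr U dm * cr w d2 ≤ cr dm d2 * cr U w := by linarith only [e0, e1]
    have e3 : cr dm d2 * cr U w ≤ σx * cr U dm * cr U w := mul_le_mul_of_nonneg_right hsx hw2
    have e4 : cr U dm * cr w d2 ≤ cr U dm * (σx * cr U w) := by
      calc cr U dm * cr w d2 ≤ cr dm d2 * cr U w := e2
        _ ≤ σx * cr U dm * cr U w := e3
        _ = cr U dm * (σx * cr U w) := by ring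
    exact le_of_mul_le_mul_left e4 hpx
  have sly : ∀ w : ℂ, 0 ≤ cr w dp → 0 ≤ cr U' w → - cr w d4 ≤ σy * cr U' w := by
    intro w hw1 hw2
    have e1 := rel4 w dp
    -- 2C cr w dp = cr w d4 * cr U' dp - cr U' w * cr dp d4
    have e5 : cr dp d4 = - cr d4 dp := cr_swap _ _
    rw [e5] at e1
    have e0 := mul_nonneg hC2.le hw1
    have e2 : cr U' dp * (- cr w d4) ≤ cr d4 dp * cr U' w := by linarith only [e0, e1]
    have e3 : cr d4 dp * cr U' w ≤ σy * cr U' dp * cr U' w := mul_le_mul_of_nonneg_right hsy hw2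
    have e4 : cr U' dp * (- cr w d4) ≤ cr U' dp * (σy * cr U' w) := by
      calc cr U' dp * (- cr w d4) ≤ cr d4 dp * cr U' w := e2
        _ ≤ σy * cr U' dp * cr U' w := e3
        _ = cr U' dp * (σy * cr U' w) := by ring
    exact le_of_mul_le_mul_left e4 hpy
  have fdm : dm = P N (tau N (tau N φ)) - P N (tau N (tau N φm)) := by
    rw [hdm, v2_eq hN, v2_eq hN]
  have fdp : dp = -(P N (tau N ψp) - P N (tau N ψ)) := by
    rw [hdp]; unfold v4; ring
  have upm : ∀ i, i ≤ M → tau N (tau N (m i)) ≤ tau N (tau N φm) + Real.pi := by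
    intro i hi
    have e1 := hmo (hmo ((mhi i hi).trans h3.le))
    linarith
  have upp : ∀ i, i ≤ M → tau N ψp ≤ tau N (m i) + Real.pi := by
    intro i hi
    have e1 := hmo h4
    have e2 := hmo (mlo i hi)
    linarith
  -- assemble
  refine ⟨A, x, y, ?_, ?_, ?_⟩
  · refine
      { A0 := A0, x0 := x0, y0 := y0, AM := AM, xM := xM, yM := yM
        An := ?_, xn := ?_, yn := ?_, con := ?_, dξ := hdξ, dη := hdη
        sx := ?_, dx := ?_, sy := ?_, dy := ?_, rx := ?_, ry := ?_, cy := ?_ }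
    · intro i hi
      exact div_nonneg (H_nonneg hN (mlo i hi) (mhi i hi) hψτ.le).1 hC2.le
    · intro i hi
      exact div_nonneg (H_nonneg hN (mlo i hi) (mhi i hi) hψτ.le).2.1 hC2.le
    · intro i hi
      exact div_nonneg (H_nonneg hN (mlo i hi) (mhi i hi) hψτ.le).2.2 hC2.le
    · -- con
      intro i hi
      have k1 := EE_mid N φ ψ (m i)
      have k2 := hE (m i)
      rw [← hC, mB i hi, hA', hx', hy', ← hGdef] at k1
      set s : ℝ := (i / M : ℝ) with hs
      have k3 : C * (Real.sqrt 3 / 2) ≤ C * EE N (m i) := mul_le_mul_of_nonneg_left k2 hCpos.le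
      rw [k1] at k3
      have k4 : C * (C * s * (1 - s) - ((1 - s) * (EE N φ - Real.sqrt 3 / 2)
          + s * (EE N ψ - Real.sqrt 3 / 2))) ≤ C * (G * A i + G2 N φ ψ * x i + G4 N φ ψ * y i
          + 2 * C * (A i * x i + A i * y i + x i * y i - (A i ^ 2 + x i ^ 2 + y i ^ 2) / 2)) := by
        linarith only [k3]
      have k5 := le_of_mul_le_mul_left k4 hCpos
      have k6 := div_le_div_of_nonneg_right k5 hG.le
      have l1 : (C * s * (1 - s) - ((1 - s) * (EE N φ - Real.sqrt 3 / 2)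
          + s * (EE N ψ - Real.sqrt 3 / 2))) / G = C / G * s * (1 - s) -
          ((1 - s) * ((EE N φ - Real.sqrt 3 / 2) / G) + s * ((EE N ψ - Real.sqrt 3 / 2) / G)) := by
        field_simp
      have l2 : (G * A i + G2 N φ ψ * x i + G4 N φ ψ * y i
          + 2 * C * (A i * x i + A i * y i + x i * y i - (A i ^ 2 + x i ^ 2 + y i ^ 2) / 2)) / G =
          A i + G2 N φ ψ / G * x i + G4 N φ ψ / G * y i + 2 * (C / G) *
          (A i * x i + A i * y i + x i * y i - (A i ^ 2 + x i ^ 2 + y i ^ 2) / 2) := by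
        field_simp
      rw [l1, l2] at k6
      exact k6
    · -- sx
      intro i hi
      have k1 : 0 ≤ cr dm (w2 i) := by
        rw [fdm, fw2]
        exact chord_le hN (hmo (hmo h1.le)) le_rfl (hmo (hmo (mlo i hi))) (upm i hi)
      have k2 : 0 ≤ cr U (w2 i) := by
        rw [cX2 i hi]
        exact mul_nonneg hC2.le (hξ i hi)
      have k3 := slx _ k1 k2
      rw [cH2, cX2 i hi] at k3
      have k4 : 2 * C * x i ≤ 2 * C * (σx * ((i / M : ℝ) + A i - y i)) := by
        calc 2 * C * x i ≤ σx * (2 * C * ((i / M : ℝ) + A i - y i)) := k3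
          _ = _ := by ring
      exact le_of_mul_le_mul_left k4 hC2
    · -- dx
      intro i hi
      have k1 : 0 ≤ cr dm (w2 (i + 1) - w2 i) := by
        rw [fdm, fe2]
        exact chord_le hN (hmo (hmo h1.le)) (hmo (hmo (mlo i hi.le))) (hmo (hmo (mi i hi).le))
          (upm (i + 1) hi)
      have k2 : 0 ≤ cr U (w2 (i + 1) - w2 i) := by
        rw [cΔ2 i hi]
        exact mul_nonneg hC2.le (hdξ i hi).le
      have k3 := slx _ k1 k2
      rw [cΔ2 i hi, cr_sub_left, cH2, cH2] at k3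
      have k4 : 2 * C * (x (i + 1) - x i) ≤
          2 * C * (σx * (1 / (M : ℝ) + (A (i + 1) - A i) - (y (i + 1) - y i))) := by
        calc 2 * C * (x (i + 1) - x i) = 2 * C * x (i + 1) - 2 * C * x i := by ring
          _ ≤ σx * (2 * C * (1 / (M : ℝ) + (A (i + 1) - A i) - (y (i + 1) - y i))) := k3
          _ = _ := by ring
      exact le_of_mul_le_mul_left k4 hC2
    · -- sy
      intro i hi
      have k1 : 0 ≤ cr (d4 - w4 i) dp := by
        rw [fdp, fdw4, cr_neg_left, cr_neg_right, neg_neg]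
        exact chord_le hN (hmo (mhi i hi)) le_rfl (hmo h3.le) (upp i hi)
      have e1 : cr U' (d4 - w4 i) = 2 * C * (1 - ((i / M : ℝ) + x i - A i)) := by
        rw [cr_sub_right, cX4 i hi, cr_swap U' d4, eDU']; ring
      have k2 : 0 ≤ cr U' (d4 - w4 i) := by
        rw [e1]
        exact mul_nonneg hC2.le (hη' i hi)
      have k3 := sly _ k1 k2
      rw [e1, cr_sub_left, cr_self, cH4] at k3
      have k4 : 2 * C * y i ≤ 2 * C * (σy * (1 - ((i / M : ℝ) + x i - A i))) := by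
        calc 2 * C * y i = -(0 - 2 * C * y i) := by ring
          _ ≤ σy * (2 * C * (1 - ((i / M : ℝ) + x i - A i))) := k3
          _ = _ := by ring
      exact le_of_mul_le_mul_left k4 hC2
    · -- dy
      intro i hi
      have k1 : 0 ≤ cr (w4 (i + 1) - w4 i) dp := by
        rw [fdp, fe4, cr_neg_left, cr_neg_right, neg_neg]
        exact chord_le hN (hmo (mi i hi).le) (hmo (mhi (i + 1) hi)) (hmo h3.le) (upp i hi.le)
      have k2 : 0 ≤ cr U' (w4 (i + 1) - w4 i) := by
        rw [cΔ4 i hi]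
        exact mul_nonneg hC2.le (hdη i hi).le
      have k3 := sly _ k1 k2
      rw [cΔ4 i hi, cr_sub_left, cH4, cH4] at k3
      have k4 : 2 * C * (-(y (i + 1) - y i)) ≤
          2 * C * (σy * (1 / (M : ℝ) + (x (i + 1) - x i) - (A (i + 1) - A i))) := by
        calc 2 * C * (-(y (i + 1) - y i)) = -(2 * C * y (i + 1) - 2 * C * y i) := by ring
          _ ≤ σy * (2 * C * (1 / (M : ℝ) + (x (i + 1) - x i) - (A (i + 1) - A i))) := k3
          _ = _ := by ring
      exact le_of_mul_le_mul_left k4 hC2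
    · -- rx
      intro i hi
      have k1 : 0 ≤ cr (w2 i) (w2 (i + 1)) := by
        have e1 : cr (w2 i) (w2 (i + 1)) = cr (w2 i) (w2 (i + 1) - w2 i) := by
          rw [cr_sub_right (w2 i) (w2 (i + 1)) (w2 i), cr_self, sub_zero]
        rw [e1, fe2, fw2]
        refine chord_le hN (hmo (hmo (mlo i hi.le))) le_rfl (hmo (hmo (mi i hi).le)) ?_
        have e2 := hmo (hmo (mhi (i + 1) hi))
        linarith
      have k2 := rel2 (w2 i) (w2 (i + 1))
      rw [cH2, cH2, cX2 i hi.le, cX2 (i + 1) hi] at k2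
      have k3 : 0 ≤ 2 * C * cr (w2 i) (w2 (i + 1)) := mul_nonneg hC2.le k1
      rw [k2] at k3
      have k4 : (2 * C) * (2 * C) * (x (i + 1) * ((i / M : ℝ) + A i - y i)) ≤
          (2 * C) * (2 * C) * (x i * (((i : ℝ) + 1) / M + A (i + 1) - y (i + 1))) := by
        push_cast at k3
        linarith only [k3]
      exact le_of_mul_le_mul_left k4 (mul_pos hC2 hC2)
    · -- ry
      intro i hi
      have k1 : 0 ≤ cr (d4 - w4 i) (d4 - w4 (i + 1)) := by
        have e1 : cr (d4 - w4 i) (d4 - w4 (i + 1)) = cr (w4 (i + 1) - w4 i) (d4 - w4 (i + 1)) := by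
          have : d4 - w4 i = (w4 (i + 1) - w4 i) + (d4 - w4 (i + 1)) := by ring
          rw [this, cr_add_left, cr_self, add_zero]
        rw [e1, fe4, fdw4, cr_neg_left, cr_neg_right, neg_neg]
        refine chord_le hN (hmo (mi i hi).le) le_rfl (hmo (mhi (i + 1) hi)) ?_
        have e2 := hmo (mlo i hi.le)
        have e3 := hmo hψτ.le
        linarith
      have k2 := rel4 (d4 - w4 i) (d4 - w4 (i + 1))
      have e1 : ∀ j, j ≤ M → cr U' (d4 - w4 j) = 2 * C * (1 - ((j / M : ℝ) + x j - A j)) := by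
        intro j hj
        rw [cr_sub_right, cX4 j hj, cr_swap U' d4, eDU']; ring
      have e2 : ∀ j, cr (d4 - w4 j) d4 = -(2 * C * y j) := by
        intro j
        rw [cr_sub_left, cr_self, cH4]; ring
      rw [e1 i hi.le, e1 (i + 1) hi, e2, e2] at k2
      have k3 : 0 ≤ 2 * C * cr (d4 - w4 i) (d4 - w4 (i + 1)) := mul_nonneg hC2.le k1
      rw [k2] at k3
      have k4 : (2 * C) * (2 * C) * (y i * (1 - (((i : ℝ) + 1) / M + x (i + 1) - A (i + 1)))) ≤
          (2 * C) * (2 * C) * (y (i + 1) * (1 - ((i / M : ℝ) + x i - A i))) := by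
        push_cast at k3
        linarith only [k3]
      exact le_of_mul_le_mul_left k4 (mul_pos hC2 hC2)
    · -- cy
      intro i hi
      have hi1 : i < M := by omega
      have k1 : 0 ≤ cr (w4 (i + 1) - w4 i) (w4 (i + 2) - w4 (i + 1)) := by
        rw [fe4, fe4, cr_neg_left, cr_neg_right, neg_neg]
        refine chord_le hN (hmo (mi i hi1).le) le_rfl (hmo (mi (i + 1) hi).le) ?_
        have e1 := hmo (mlo i hi1.le)
        have e2 := hmo (mhi (i + 2) (by omega))
        have e3 := hmo hψτ.le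
        linarith
      have k2 := rel4 (w4 (i + 1) - w4 i) (w4 (i + 2) - w4 (i + 1))
      have e1 := cΔ4 i hi1
      have e2 := cΔ4 (i + 1) hi
      have e3 : w4 (i + 1 + 1) = w4 (i + 2) := rfl
      rw [e3] at e2
      rw [e1, e2, cr_sub_left (w4 (i + 1)) (w4 i) d4, cr_sub_left (w4 (i + 2)) (w4 (i + 1)) d4,
        cH4, cH4, cH4] at k2
      have k3 : 0 ≤ 2 * C * cr (w4 (i + 1) - w4 i) (w4 (i + 2) - w4 (i + 1)) :=
        mul_nonneg hC2.le k1
      rw [k2] at k3
      have k4 : (2 * C) * (2 * C) * ((y (i + 2) - y (i + 1)) *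
            (1 / (M : ℝ) + (x (i + 1) - x i) - (A (i + 1) - A i))) ≤
          (2 * C) * (2 * C) * ((y (i + 1) - y i) *
            (1 / (M : ℝ) + (x (i + 2) - x (i + 1)) - (A (i + 2) - A (i + 1)))) := by
        have e4 : x (i + 1 + 1) = x (i + 2) := rfl
        have e5 : A (i + 1 + 1) = A (i + 2) := rfl
        rw [e4, e5] at k3
        linarith only [k3]
      exact le_of_mul_le_mul_left k4 (mul_pos hC2 hC2)
  · have k1 := Ch_of_seq hN m M hM0 mi
    rw [m0, mM, sum_TT N hC.symm hCpos m M hM0 m0 mM mB A x y hA' hx' hy' A0 x0 y0 AM xM yM] at k1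
    exact k1
  · intro i hi0 hiM
    have k1 : φ < m i := by
      have e1 := mi 0 (by omega)
      have e2 := mmono (0 + 1) i (by omega) hiM.le
      rw [m0] at e1
      linarith
    have k2 : m i < ψ := by
      have e1 := mi i hiM
      have e2 := mhi (i + 1) hiM
      linarith
    have k3 := Ch.trans (Ch.single (N := N) k1) (Ch.single (N := N) k2)
    rw [TT_split, hA', hx', hy'] at k3
    have e1 : TT N φ ψ + (2 * C * A i + 2 * C * x i + 2 * C * y i) / 2 =
        TT N φ ψ + C * (A i + x i + y i) := by ring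
    rwa [e1] at k3

end Rein83
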