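import Pool.Agent.Rein83.NearDefs

set_option autoImplicit false

/-! Section E3: tangent line of the hyperbola cap and Riemann sums. -/

namespace Rein83

open Complex Finset

/-- Riemann sums converge to the increment of an antiderivative. -/
lemma Tangent_riemann {f F : ℝ → ℝ} (hF : ∀ s, HasDerivAt F (f s) s) (hf : Continuous f) {e : ℝ}
    (he : 0 < e) : ∃ M0 : ℕ, ∀ M : ℕ, M0 ≤ M →
      |(∑ i ∈ range M, f ((i : ℝ) / M)) / M - (F 1 - F 0)| ≤ e := by
  have huc : UniformContinuousOn f (Set.Icc (0:ℝ) 1) :=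
    isCompact_Icc.uniformContinuousOn_of_continuous hf.continuousOn
  rw [Metric.uniformContinuousOn_iff] at huc
  obtain ⟨δ, hδ, hδf⟩ := huc e he
  obtain ⟨M0, hM0⟩ := exists_nat_gt (1 / δ)
  refine ⟨M0 + 1, fun M hM => ?_⟩
  have hM1 : (0:ℝ) < M := by exact_mod_cast (by omega : 0 < M)
  have hMδ : 1 / (M:ℝ) < δ := by
    rw [div_lt_iff₀ hM1]
    rw [div_lt_iff₀ hδ] at hM0
    have : (M0:ℝ) ≤ M := by exact_mod_cast (by omega : M0 ≤ M)
    calc 1 < (M0:ℝ) * δ := hM0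
      _ ≤ M * δ := by gcongr
      _ = δ * M := mul_comm _ _
  have htel : F 1 - F 0 = ∑ i ∈ range M, (F (((i + 1 : ℕ) : ℝ) / M) - F ((i : ℝ) / M)) := by
    rw [Finset.sum_range_sub (fun i : ℕ => F ((i : ℝ) / M)) M]
    rw [div_self hM1.ne']
    simp
  have hstep : ∀ i ∈ range M,
      |f ((i : ℝ) / M) / M - (F (((i + 1 : ℕ) : ℝ) / M) - F ((i : ℝ) / M))| ≤ e / M := by
    intro i hi
    rw [mem_range] at hi
    have hi1 : ((i:ℝ) + 1) ≤ M := by exact_mod_cast hi
    have hi0 : (0:ℝ) ≤ i := Nat.cast_nonneg _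
    have hlt : (i : ℝ) / M < ((i + 1 : ℕ) : ℝ) / M := by
      push_cast
      gcongr
      linarith
    obtain ⟨c, hc, hc'⟩ := exists_hasDerivAt_eq_slope F f hlt
      (fun x _ => (hF x).continuousAt.continuousWithinAt) (fun x _ => hF x)
    have hlen : ((i + 1 : ℕ) : ℝ) / M - (i : ℝ) / M = 1 / M := by
      push_cast; ring
    have hFd : F (((i + 1 : ℕ) : ℝ) / M) - F ((i : ℝ) / M) = f c / M := by
      rw [hc', hlen]
      field_simp
    rw [hFd, ← sub_div, abs_div, abs_of_pos hM1]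
    have h1 : (i : ℝ) / M ∈ Set.Icc (0:ℝ) 1 := by
      constructor
      · positivity
      · rw [div_le_one hM1]; linarith
    have h2 : c ∈ Set.Icc (0:ℝ) 1 := by
      constructor
      · exact h1.1.trans hc.1.le
      · refine hc.2.le.trans ?_
        rw [div_le_one hM1]
        push_cast
        linarith
    have h3 : dist ((i : ℝ) / M) c < δ := by
      rw [Real.dist_eq, abs_sub_comm, abs_of_nonneg (by linarith [hc.1])]
      have := hc.2
      calc c - (i : ℝ) / M ≤ ((i + 1 : ℕ) : ℝ) / M - (i : ℝ) / M := by linarith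
        _ = 1 / M := hlen
        _ < δ := hMδ
    have h4 := hδf _ h1 _ h2 h3
    rw [Real.dist_eq] at h4
    gcongr
  rw [htel, Finset.sum_div, ← Finset.sum_sub_distrib]
  refine (Finset.abs_sum_le_sum_abs _ _).trans ((Finset.sum_le_sum hstep).trans ?_)
  rw [Finset.sum_const, card_range, nsmul_eq_mul]
  exact (mul_div_cancel₀ e hM1.ne').le

/-- `R(s) = √(1 - 4 z² s (1 - s))` -/
noncomputable def Tangent_R (z s : ℝ) : ℝ := Real.sqrt (1 - 4 * z ^ 2 * s * (1 - s))

lemma Tangent_arg {z : ℝ} (hz : z ^ 2 < 1) (s : ℝ) : 0 < 1 - 4 * z ^ 2 * s * (1 - s) := by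
  have h : 1 - 4 * z ^ 2 * s * (1 - s) = (1 - z ^ 2) + z ^ 2 * (2 * s - 1) ^ 2 := by ring
  rw [h]
  have : 0 ≤ z ^ 2 * (2 * s - 1) ^ 2 := by positivity
  linarith

lemma Tangent_R_pos {z : ℝ} (hz : z ^ 2 < 1) (s : ℝ) : 0 < Tangent_R z s :=
  Real.sqrt_pos.mpr (Tangent_arg hz s)

lemma Tangent_R_sq {z : ℝ} (hz : z ^ 2 < 1) (s : ℝ) :
    Tangent_R z s ^ 2 = 1 - 4 * z ^ 2 * s * (1 - s) :=
  Real.sq_sqrt (Tangent_arg hz s).le

lemma Tangent_w_pos {z : ℝ} (hz : z ^ 2 < 1) (s : ℝ) : 0 < z * (2 * s - 1) + Tangent_R z s := by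
  have h1 := Tangent_R_pos hz s
  have h2 := Tangent_R_sq hz s
  by_contra h
  push Not at h
  have h3 : Tangent_R z s ≤ -(z * (2 * s - 1)) := by linarith
  have h4 : Tangent_R z s ^ 2 ≤ (-(z * (2 * s - 1))) ^ 2 := by gcongr
  linarith

lemma Tangent_R_deriv {z : ℝ} (hz : z ^ 2 < 1) (s : ℝ) :
    HasDerivAt (Tangent_R z) (2 * z ^ 2 * (2 * s - 1) / Tangent_R z s) s := by
  have h1 : HasDerivAt (fun s : ℝ => 1 - 4 * z ^ 2 * s * (1 - s)) (4 * z ^ 2 * (2 * s - 1)) s := by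
    have h2 : HasDerivAt (fun s : ℝ => 4 * z ^ 2 * s) (4 * z ^ 2 * 1) s :=
      (hasDerivAt_id s).const_mul (4 * z ^ 2)
    have h3 : HasDerivAt (fun s : ℝ => 1 - s) (-1) s := by
      simpa using (hasDerivAt_id s).const_sub 1
    have h4 : HasDerivAt (fun s : ℝ => 1 - 4 * z ^ 2 * s * (1 - s))
      (-(4 * z ^ 2 * 1 * (1 - s) + 4 * z ^ 2 * s * (-1))) s := (h2.mul h3).const_sub 1
    exact h4.congr_deriv (by ring)
  have h5 : HasDerivAt (Tangent_R z) (4 * z ^ 2 * (2 * s - 1) / (2 * Tangent_R z s)) s :=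
    h1.sqrt (Tangent_arg hz s).ne'
  refine h5.congr_deriv ?_
  have h6 := Tangent_R_pos hz s
  field_simp
  ring

lemma Tangent_log_deriv {z : ℝ} (hz : z ^ 2 < 1) (s : ℝ) :
    HasDerivAt (fun s => Real.log (z * (2 * s - 1) + Tangent_R z s)) (2 * z / Tangent_R z s) s := by
  have h1 : HasDerivAt (fun s : ℝ => z * (2 * s - 1)) (2 * z) s := by
    have h2 : HasDerivAt (fun s : ℝ => 2 * s) (2 * 1) s := (hasDerivAt_id s).const_mul 2
    have h3 : HasDerivAt (fun s : ℝ => z * (2 * s - 1)) (z * (2 * 1)) s :=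
      (h2.sub_const 1).const_mul z
    exact h3.congr_deriv (by ring)
  have h4 : HasDerivAt (fun s => Real.log (z * (2 * s - 1) + Tangent_R z s))
      ((2 * z + 2 * z ^ 2 * (2 * s - 1) / Tangent_R z s) / (z * (2 * s - 1) + Tangent_R z s)) s :=
    (h1.add (Tangent_R_deriv hz s)).log (Tangent_w_pos hz s).ne'
  refine h4.congr_deriv ?_
  have h6 := Tangent_R_pos hz s
  have h7 := Tangent_w_pos hz s
  rw [div_eq_iff h7.ne']
  field_simp
  ring

lemma Tangent_R_cont {z : ℝ} (hz : z ^ 2 < 1) : Continuous (Tangent_R z) :=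
  continuous_iff_continuousAt.mpr fun s => (Tangent_R_deriv hz s).continuousAt

/-- antiderivative of `1/R` -/
noncomputable def Tangent_F1 (z s : ℝ) : ℝ := 1 / (2 * z) * Real.log (z * (2 * s - 1) + Tangent_R z s)

/-- antiderivative of `R` -/
noncomputable def Tangent_F2 (z s : ℝ) : ℝ :=
  1 / (4 * z) * (z * (2 * s - 1) * Tangent_R z s
    + (1 - z ^ 2) * Real.log (z * (2 * s - 1) + Tangent_R z s))

lemma Tangent_F1_deriv {z : ℝ} (hz0 : 0 < z) (hz : z ^ 2 < 1) (s : ℝ) :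
    HasDerivAt (Tangent_F1 z) (1 / Tangent_R z s) s := by
  have h1 : HasDerivAt (Tangent_F1 z) (1 / (2 * z) * (2 * z / Tangent_R z s)) s :=
    (Tangent_log_deriv hz s).const_mul (1 / (2 * z))
  refine h1.congr_deriv ?_
  have h6 := Tangent_R_pos hz s
  field_simp

lemma Tangent_F2_deriv {z : ℝ} (hz0 : 0 < z) (hz : z ^ 2 < 1) (s : ℝ) :
    HasDerivAt (Tangent_F2 z) (Tangent_R z s) s := by
  have h1 : HasDerivAt (fun s : ℝ => z * (2 * s - 1)) (2 * z) s := by
    have h2 : HasDerivAt (fun s : ℝ => 2 * s) (2 * 1) s := (hasDerivAt_id s).const_mul 2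
    have h3 : HasDerivAt (fun s : ℝ => z * (2 * s - 1)) (z * (2 * 1)) s :=
      (h2.sub_const 1).const_mul z
    exact h3.congr_deriv (by ring)
  have h2 : HasDerivAt (Tangent_F2 z) (1 / (4 * z) * ((2 * z * Tangent_R z s + z * (2 * s - 1) *
      (2 * z ^ 2 * (2 * s - 1) / Tangent_R z s)) + (1 - z ^ 2) * (2 * z / Tangent_R z s))) s :=
    ((h1.mul (Tangent_R_deriv hz s)).add ((Tangent_log_deriv hz s).const_mul (1 - z ^ 2))).const_mul
      (1 / (4 * z))
  refine h2.congr_deriv ?_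
  have h6 := Tangent_R_pos hz s
  have h7 := Tangent_R_sq hz s
  have h8 : Tangent_R z s ^ 2 = (1 - z ^ 2) + z ^ 2 * (2 * s - 1) ^ 2 := by rw [h7]; ring
  field_simp
  linarith

/-- coefficient of `G` -/
noncomputable def Tangent_al (z s : ℝ) : ℝ := 1 / Tangent_R z s - 1
/-- coefficient of `C` -/
noncomputable def Tangent_be (z s : ℝ) : ℝ := 1 / z * (1 / Tangent_R z s - Tangent_R z s)

lemma Tangent_point {z C G s : ℝ} (hz0 : 0 < z) (hz1 : z < 1) (hC : 0 < C) (hCG : C < G)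
    (hs0 : 0 ≤ s) (hs1 : s ≤ 1) :
    Tangent_be z s * C - Tangent_al z s * G ≤ 2 * C * ph (C / G) s := by
  have hG : 0 < G := hC.trans hCG
  have hz : z ^ 2 < 1 := by nlinarith
  have hq1 : C / G < 1 := (div_lt_one hG).mpr hCG
  have hq0 : 0 < C / G := by positivity
  have hq : (C / G) ^ 2 < 1 := by nlinarith
  have hR := Tangent_R_pos hz s
  have hR2 := Tangent_R_sq hz s
  have hS := Tangent_R_pos hq s
  have hS2 := Tangent_R_sq hq s
  set R := Tangent_R z s with hRdef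
  set S := Tangent_R (C / G) s with hSdef
  set k := 4 * s * (1 - s) with hk
  have hk0 : 0 ≤ k := by
    have : 0 ≤ 1 - s := by linarith
    positivity
  have hk1 : k ≤ 1 := by linarith [sq_nonneg (2 * s - 1)]
  have hR2' : R ^ 2 = 1 - k * z ^ 2 := by rw [hR2, hk]; ring
  have hS2' : (S * G) ^ 2 = G ^ 2 - k * C ^ 2 := by
    rw [mul_pow, hS2, hk]; field_simp
  have hpos : 0 < G - k * z * C := by
    have : k * z * C ≤ 1 * 1 * C := by gcongr
    linarith
  have hmain : S * G * R ≤ G - k * z * C := by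
    refine le_of_sq_le_sq ?_ hpos.le
    have h1 : (S * G * R) ^ 2 = (G ^ 2 - k * C ^ 2) * (1 - k * z ^ 2) := by
      rw [mul_pow, hS2', hR2']
    rw [h1]
    have h2 : (G - k * z * C) ^ 2 - (G ^ 2 - k * C ^ 2) * (1 - k * z ^ 2) = k * (z * G - C) ^ 2 := by
      ring
    have h3 : 0 ≤ k * (z * G - C) ^ 2 := by positivity
    linarith
  have hph : 2 * C * ph (C / G) s = G * (1 - S) := by
    show 2 * C * ((1 - S) / (2 * (C / G))) = G * (1 - S)
    field_simp
  rw [hph]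
  have h5 : Tangent_be z s * C - Tangent_al z s * G = G - (G - k * z * C) / R := by
    have h6 : 1 / R - R = k * z ^ 2 / R := by
      field_simp
      linarith
    unfold Tangent_be Tangent_al
    rw [← hRdef, h6]
    field_simp
    ring
  rw [h5]
  have h7 : S * G ≤ (G - k * z * C) / R := by
    rw [le_div_iff₀ hR]; exact hmain
  linarith

lemma Tangent_R_zero (z : ℝ) : Tangent_R z 0 = 1 := by
  unfold Tangent_R; simp

lemma Tangent_R_one (z : ℝ) : Tangent_R z 1 = 1 := by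
  unfold Tangent_R; simp

/-- the contact slope -/
noncomputable def Tangent_z0 : ℝ := 3 - 2 * Real.sqrt 2

lemma Tangent_z0_facts : 0 < Tangent_z0 ∧ Tangent_z0 < 1 ∧
    Real.log (1 + Tangent_z0) - Real.log (1 - Tangent_z0) = Real.log 2 / 2 ∧
    1 / Tangent_z0 = 3 + 2 * Real.sqrt 2 := by
  have h2 : Real.sqrt 2 ^ 2 = 2 := Real.sq_sqrt (by norm_num)
  have h0 : 0 < Real.sqrt 2 := Real.sqrt_pos.mpr (by norm_num)
  have ha : (14:ℝ) / 10 < Real.sqrt 2 := by
    rw [Real.lt_sqrt (by norm_num)]; norm_num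
  have hb : Real.sqrt 2 < 142 / 100 := by
    rw [Real.sqrt_lt' (by norm_num)]; norm_num
  have hz0 : 0 < Tangent_z0 := by unfold Tangent_z0; linarith
  have hz1 : Tangent_z0 < 1 := by unfold Tangent_z0; linarith
  refine ⟨hz0, hz1, ?_, ?_⟩
  · have h3 : 1 + Tangent_z0 = Real.sqrt 2 * (1 - Tangent_z0) := by
      unfold Tangent_z0
      linarith
    have h4 : (1:ℝ) - Tangent_z0 ≠ 0 := by linarith
    rw [h3, Real.log_mul h0.ne' h4, Real.log_sqrt (by norm_num)]
    ring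
  · rw [div_eq_iff hz0.ne']
    unfold Tangent_z0
    linarith

/-- (E3) tangent line and limit -/
theorem Ph_tangent {e : ℝ} (he : 0 < e) : ∃ M0 : ℕ, ∀ M : ℕ, M0 ≤ M → ∀ C G : ℝ, 0 < C → C < G → G ≤ 1 →
    cb * C - ca * G - e ≤ 2 * C * Ph (C / G) M := by
  obtain ⟨hz0, hz1, hlog, hinv⟩ := Tangent_z0_facts
  set z := Tangent_z0 with hzdef
  have hz : z ^ 2 < 1 := by nlinarith
  have hRc := Tangent_R_cont hz
  have hRne : ∀ s, Tangent_R z s ≠ 0 := fun s => (Tangent_R_pos hz s).ne'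
  have hinvc : Continuous (fun s => 1 / Tangent_R z s) := continuous_const.div hRc hRne
  -- antiderivatives
  have hA : ∀ s, HasDerivAt (fun s => Tangent_F1 z s - s) (Tangent_al z s) s := fun s =>
    (Tangent_F1_deriv hz0 hz s).sub (hasDerivAt_id s)
  have hB : ∀ s, HasDerivAt (fun s => 1 / z * (Tangent_F1 z s - Tangent_F2 z s)) (Tangent_be z s) s :=
    fun s => ((Tangent_F1_deriv hz0 hz s).sub (Tangent_F2_deriv hz0 hz s)).const_mul (1 / z)
  obtain ⟨M1, hM1⟩ := Tangent_riemann hA (hinvc.sub continuous_const) (e := e / 2) (by positivity)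
  obtain ⟨M2, hM2⟩ := Tangent_riemann hB ((hinvc.sub hRc).const_mul (1 / z)) (e := e / 2) (by positivity)
  have hF1 : Tangent_F1 z 1 - Tangent_F1 z 0 = 1 / (2 * z) * (Real.log 2 / 2) := by
    unfold Tangent_F1
    rw [Tangent_R_zero, Tangent_R_one, ← mul_sub, ← hlog]
    congr 3 <;> ring_nf
  have hF2 : Tangent_F2 z 1 - Tangent_F2 z 0 =
      1 / (4 * z) * (2 * z + (1 - z ^ 2) * (Real.log 2 / 2)) := by
    unfold Tangent_F2
    rw [Tangent_R_zero, Tangent_R_one, ← mul_sub, ← hlog]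
    have h1 : z * (2 * 1 - 1) + 1 = 1 + z := by ring
    have h2 : z * (2 * 0 - 1) + 1 = 1 - z := by ring
    rw [h1, h2]
    ring
  have hca : (fun s => Tangent_F1 z s - s) 1 - (fun s => Tangent_F1 z s - s) 0 = ca := by
    simp only
    have : Tangent_F1 z 1 - 1 - (Tangent_F1 z 0 - 0) = (Tangent_F1 z 1 - Tangent_F1 z 0) - 1 := by ring
    rw [this, hF1]
    have h3 : 1 / (2 * z) = (1 / z) / 2 := by field_simp
    rw [h3, hinv]
    unfold ca
    ring
  have h2 : Real.sqrt 2 ^ 2 = 2 := Real.sq_sqrt (by norm_num)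
  have hcb : (fun s => 1 / z * (Tangent_F1 z s - Tangent_F2 z s)) 1 -
      (fun s => 1 / z * (Tangent_F1 z s - Tangent_F2 z s)) 0 = cb := by
    simp only
    have : 1 / z * (Tangent_F1 z 1 - Tangent_F2 z 1) - 1 / z * (Tangent_F1 z 0 - Tangent_F2 z 0) =
      1 / z * ((Tangent_F1 z 1 - Tangent_F1 z 0) - (Tangent_F2 z 1 - Tangent_F2 z 0)) := by ring
    rw [this, hF1, hF2]
    have h3 : 1 / z * (1 / (2 * z) * (Real.log 2 / 2) -
        1 / (4 * z) * (2 * z + (1 - z ^ 2) * (Real.log 2 / 2))) =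
        ((1 / z) ^ 2 + 1) * Real.log 2 / 8 - (1 / z) / 2 := by
      field_simp
      ring
    have h4 : (3 + 2 * Real.sqrt 2) ^ 2 = 17 + 12 * Real.sqrt 2 := by linarith
    rw [h3, hinv, h4]
    unfold cb
    ring
  rw [hca] at hM1
  rw [hcb] at hM2
  refine ⟨max M1 M2, fun M hM C G hC hCG hG1 => ?_⟩
  have hG : 0 < G := hC.trans hCG
  have h4 := hM1 M (le_trans (le_max_left _ _) hM)
  have h5 := hM2 M (le_trans (le_max_right _ _) hM)
  set SA := (∑ i ∈ range M, Tangent_al z ((i : ℝ) / M)) / M with hSA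
  set SB := (∑ i ∈ range M, Tangent_be z ((i : ℝ) / M)) / M with hSB
  have h6 : C * SB - G * SA ≤ 2 * C * Ph (C / G) M := by
    have h7 : C * SB - G * SA = (∑ i ∈ range M, (Tangent_be z ((i : ℝ) / M) * C -
        Tangent_al z ((i : ℝ) / M) * G)) / M := by
      rw [Finset.sum_sub_distrib, ← Finset.sum_mul, ← Finset.sum_mul, hSA, hSB]
      ring
    have h8 : 2 * C * Ph (C / G) M = (∑ i ∈ range M, (2 * C * ph (C / G) ((i : ℝ) / M))) / M := by
      unfold Ph
      rw [← Finset.mul_sum]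
      ring
    rw [h7, h8]
    refine div_le_div_of_nonneg_right (Finset.sum_le_sum fun i hi => ?_) (Nat.cast_nonneg _)
    rw [mem_range] at hi
    have hMpos : (0:ℝ) < M := by exact_mod_cast (by omega : 0 < M)
    refine Tangent_point hz0 hz1 hC hCG (by positivity) ?_
    rw [div_le_one hMpos]
    exact_mod_cast hi.le
  rw [abs_le] at h4 h5
  have h9 : -(e / 2) ≤ C * (SB - cb) := by
    have h10 : C * (-(e / 2)) ≤ C * (SB - cb) := mul_le_mul_of_nonneg_left h5.1 hC.le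
    nlinarith
  have h11 : G * (SA - ca) ≤ e / 2 := by
    have h12 : G * (SA - ca) ≤ G * (e / 2) := mul_le_mul_of_nonneg_left h4.2 hG.le
    nlinarith
  linarith

end Rein83
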