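import Pool.Agent.Rein83.NearFin
import Pool.Agent.Rein83.NearHex
import Pool.Agent.Rein83.Tangent

set_option autoImplicit false

/-! Section E4: the near lemma from `near_seq`, `near_hex`, `Ph_tangent` (and `C1_pos`). -/

namespace Rein83

open Complex Finset Rein69

private lemma near_id (C G P s t m E E' M : ℝ) :
    2 * C * (P - (214 / 10000 + 1 / (2 * M)) * s - 284 / 100 * t
      - (1 / 2 + 114 / 100 * m) * (E / G + E' / G) / (9787 / 10000)) =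
    2 * C * P - 2 * C * (214 / 10000 * s + 284 / 100 * t) - 1 / M * (C * s)
      - (1 + 228 / 100 * m) / (9787 / 10000) * (C / G) * (E + E') := by
  ring

/-- (E4) near lemma -/
theorem near_lemma {N : ℂ → ℝ} (hN : IsSN N) (hE : ∀ φ, Real.sqrt 3 / 2 ≤ EE N φ) {φm φ ψ ψp : ℝ}
    (h1 : φm < φ) (h2 : φ < ψ) (h3 : ψ < ψp) (h4 : ψp ≤ tau N φm) {σx σy : ℝ} (hσx : 0 ≤ σx) (hσy : 0 ≤ σy)
    (hσ : σx + σy ≤ 8 / 100)
    (hpx : 0 < cr (v0 N ψ - v0 N φ - (v4 N ψ - v4 N φ)) (v2 N φ - v2 N φm))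
    (hsx : cr (v2 N φ - v2 N φm) (v2 N ψ - v2 N φ) ≤
      σx * cr (v0 N ψ - v0 N φ - (v4 N ψ - v4 N φ)) (v2 N φ - v2 N φm))
    (hpy : 0 < cr (v2 N ψ - v2 N φ - (v0 N ψ - v0 N φ)) (v4 N ψp - v4 N ψ))
    (hsy : cr (v4 N ψ - v4 N φ) (v4 N ψp - v4 N ψ) ≤
      σy * cr (v2 N ψ - v2 N φ - (v0 N ψ - v0 N φ)) (v4 N ψp - v4 N ψ))
    (hG : 0 < G0 N φ ψ) (hG1 : G0 N φ ψ ≤ 1) (hz : C1 N φ ψ ≤ 205 / 1000 * G0 N φ ψ)
    (hg2 : G0 N φ ψ / 2 ≤ G2 N φ ψ) (hg2' : G2 N φ ψ ≤ 85 / 100 * G0 N φ ψ)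
    (hg4 : G0 N φ ψ / 2 ≤ G4 N φ ψ) (hg4' : G4 N φ ψ ≤ 85 / 100 * G0 N φ ψ) {e : ℝ} (he : 0 < e) :
    ∃ S, Ch N φ ψ S ∧ TT N φ ψ + (cb * C1 N φ ψ - ca * G0 N φ ψ)
      - 2 * C1 N φ ψ * (214 / 10000 * (σx + σy) + 284 / 100 * (σx * σy))
      - (1 + 228 / 100 * max σx σy) / (9787 / 10000) * (C1 N φ ψ / G0 N φ ψ)
          * ((EE N φ - Real.sqrt 3 / 2) + (EE N ψ - Real.sqrt 3 / 2)) - e ≤ S := by
  set C := C1 N φ ψ with hC
  set G := G0 N φ ψ with hGd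
  set r := Real.sqrt 3 / 2 with hr
  have h24 : ψ ≤ tau N φ := (h3.le.trans h4).trans (hN.tau_strictMono.monotone h1.le)
  have hC0 : 0 < C := C1_pos hN h2 h24
  have hCG : C < G := by
    have : 205 / 1000 * G < G := by linarith
    linarith
  have hE1 : 0 ≤ EE N φ - r := sub_nonneg.2 (hE φ)
  have hE2 : 0 ≤ EE N ψ - r := sub_nonneg.2 (hE ψ)
  have hmax : 0 ≤ max σx σy := le_max_of_le_left hσx
  -- the choice of `M`
  obtain ⟨M0, hM0⟩ := Ph_tangent (half_pos he)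
  obtain ⟨M1, hM1⟩ := exists_nat_gt (1 / e)
  obtain ⟨M, hMdef⟩ : ∃ M : ℕ, M = M0 + M1 + 2 := ⟨_, rfl⟩
  have hM2 : 2 ≤ M := by omega
  have hMR : (0 : ℝ) < M := by
    have : 0 < M := by omega
    exact_mod_cast this
  have hMe : 1 / (M : ℝ) ≤ e := by
    rw [div_le_iff₀ hMR]
    have h5 : (M1 : ℝ) ≤ M := by
      have : M1 ≤ M := by omega
      exact_mod_cast this
    have h6 : 1 / e * e = 1 := by field_simp
    have h7 := mul_le_mul_of_nonneg_right (hM1.le.trans h5) he.le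
    rw [h6] at h7
    exact h7.trans_eq (mul_comm _ _)
  have hPh := hM0 M (by omega) C G hC0 hCG hG1
  obtain ⟨A, x, y, hseq, hch, hch1⟩ :=
    near_hex hN hE h1 h2 h3 h4 hσx hσy hpx hsx hpy hsy hG M hM2
  rw [← hC, ← hGd, ← hr] at hseq
  rw [← hC] at hch
  rw [← hC] at hch1
  -- the subtracted terms are nonnegative
  have hT1 : 0 ≤ 2 * C * (214 / 10000 * (σx + σy) + 284 / 100 * (σx * σy)) := by positivity
  have hT2 : 0 ≤ (1 + 228 / 100 * max σx σy) / (9787 / 10000) * (C / G)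
      * ((EE N φ - r) + (EE N ψ - r)) := by
    have : 0 ≤ (EE N φ - r) + (EE N ψ - r) := by linarith
    positivity
  rcases near_seq hM2 hseq (div_pos hC0 hG) (by rw [div_le_iff₀ hG]; exact hz)
    (by rw [le_div_iff₀ hG]; linarith) (by rw [div_le_iff₀ hG]; exact hg2')
    (by rw [le_div_iff₀ hG]; linarith) (by rw [div_le_iff₀ hG]; exact hg4')
    (div_nonneg hE1 hG.le) (div_nonneg hE2 hG.le) hσx hσy hσ with ⟨i, hi, hi2⟩ | hcap
  · by_cases h0 : 0 < i ∧ i < M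
    · refine ⟨_, hch1 i h0.1 h0.2, ?_⟩
      have h5 : C * (2 * Ph (C / G) M) ≤ C * (A i + x i + y i) :=
        mul_le_mul_of_nonneg_left hi2 hC0.le
      linarith
    · have h5 : A i + x i + y i = 0 := by
        rcases Nat.eq_zero_or_pos i with h6 | h6
        · rw [h6, hseq.A0, hseq.x0, hseq.y0]; ring
        · have h7 : i = M := by
            by_contra h8
            exact h0 ⟨h6, lt_of_le_of_ne hi h8⟩
          rw [h7, hseq.AM, hseq.xM, hseq.yM]; ring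
      refine ⟨_, Ch.single h2, ?_⟩
      rw [h5] at hi2
      have h6 : C * (2 * Ph (C / G) M) ≤ C * 0 := mul_le_mul_of_nonneg_left hi2 hC0.le
      linarith
  · refine ⟨_, hch, ?_⟩
    have h5 := mul_le_mul_of_nonneg_left hcap (by positivity : 0 ≤ 2 * C)
    have h7 : C * (σx + σy) ≤ 1 / 2 := by
      have h8 : C ≤ 1 := hCG.le.trans hG1
      have h11 := mul_le_mul h8 hσ (add_nonneg hσx hσy) zero_le_one
      exact h11.trans (by norm_num)
    have h9 : 1 / (M : ℝ) * (C * (σx + σy)) ≤ e / 2 := by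
      have h10 : 0 ≤ C * (σx + σy) := by positivity
      have h11 := mul_le_mul hMe h7 h10 he.le
      exact h11.trans_eq (by ring)
    rw [near_id] at h5
    linarith

end Rein83
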