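import Pool.Agent.Rein83.FinBox
import Pool.Agent.Rein83.FinNear
import Pool.Agent.Rein83.Near
import Pool.Agent.Rein83.A4
import Pool.Agent.Rein69.Ratio

set_option autoImplicit false

/-! Section F: conclusion. -/

namespace Rein83

open Complex Finset Rein69

/-- numerical bound of the constant -/
lemma kap_num : 4 * (8 - 4 * Real.sqrt 2 - Real.log 2) / (2 * Real.sqrt 2 - 1) * (Real.sqrt 3 / 2) ≤
    31260546 / 10000000 := by
  have h2 : (1414213562 / 1000000000 : ℝ) ≤ Real.sqrt 2 := by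
    apply Real.le_sqrt_of_sq_le; norm_num
  have h2' : Real.sqrt 2 ≤ 1414213563 / 1000000000 := by
    rw [Real.sqrt_le_left (by norm_num)]; norm_num
  have h3 : (17320508 / 10000000 : ℝ) ≤ Real.sqrt 3 := by
    apply Real.le_sqrt_of_sq_le; norm_num
  have h3' : Real.sqrt 3 ≤ 173205081 / 100000000 := by
    rw [Real.sqrt_le_left (by norm_num)]; norm_num
  have hl := Real.log_two_gt_d9
  have hpos : 0 < 2 * Real.sqrt 2 - 1 := by linarith
  have key : 4 * (8 - 4 * Real.sqrt 2 - Real.log 2) / (2 * Real.sqrt 2 - 1) ≤ 36096569 / 10000000 := by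
    rw [div_le_iff₀ hpos]
    nlinarith
  have h4 : 0 ≤ 4 * (8 - 4 * Real.sqrt 2 - Real.log 2) / (2 * Real.sqrt 2 - 1) := by
    apply div_nonneg _ hpos.le
    have := Real.log_two_lt_d9
    linarith
  nlinarith

theorem main_aligned {N : ℂ → ℝ} (hN : IsSN N) {V : ℝ} (hV : AreaBd N V)
    (hD : ∀ φ, 1 ≤ normSq (hA N φ) - normSq (hB N φ)) {Φ ρ : ℕ → ℝ} {b : ℕ → ℂ} (h : HSeq N 4 Φ ρ b)
    (hb : b 0 + b 2 = 0) (hal : ∃ t : ℝ, 0 ≤ t ∧ (b 0 + I * b 1 - b 2 - I * b 3) / 4 = t * ex (Real.pi / 3)) :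
    4 * (8 - 4 * Real.sqrt 2 - Real.log 2) / (2 * Real.sqrt 2 - 1) * (Real.sqrt 3 / 2) ≤ V := by
  obtain ⟨t, ht, hal⟩ := hal
  obtain ⟨B, hF⟩ := fin_interface hN hV hD h hb ht hal
  have hE : ∀ φ, Real.sqrt 3 / 2 ≤ EE N φ := by
    intro φ
    unfold EE
    rw [hN.det_eq]
    have := hD φ
    have h3 : 0 ≤ Real.sqrt 3 / 2 := by positivity
    nlinarith
  by_cases hV' : V ≤ 31260546 / 10000000
  · exact near_final hN hV hE h hF (fin_box hN hV hE h hF hV')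
  · exact (kap_num.trans (not_le.1 hV').le)

theorem lower : 4 * (8 - 4 * Real.sqrt 2 - Real.log 2) / (2 * Real.sqrt 2 - 1) ≤
    sInf {r : ℝ | ∃ K : Set (ℝ × ℝ), IsCompact K ∧ Convex ℝ K ∧ (interior K).Nonempty ∧
      (∀ x ∈ K, -x ∈ K) ∧
      r = (MeasureTheory.volume K).toReal /
        sInf {d : ℝ | ∃ a b : ℝ × ℝ, d = abs (a.1 * b.2 - a.2 * b.1) ∧ d ≠ 0 ∧
          ∀ m n : ℤ, (m ≠ 0 ∨ n ≠ 0) → (m : ℝ) • a + (n : ℝ) • b ∉ interior K}} := by
  apply rho_ge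
  · have h2' : Real.sqrt 2 ≤ 14142136 / 10000000 := by
      rw [Real.sqrt_le_left (by norm_num)]; norm_num
    have h2 : (14142135 / 10000000 : ℝ) ≤ Real.sqrt 2 := by
      apply Real.le_sqrt_of_sq_le; norm_num
    have := Real.log_two_lt_d9
    apply div_pos
    · linarith
    · linarith
  · exact aligned_reduce (fun N V hN hV hD Φ ρ b h hb hal => main_aligned hN hV hD h hb hal)

end Rein83
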