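import Pool.Agent.Rein83.FinS1

set_option autoImplicit false

/-! Near stage: exact identities for the turns and for the sums of `C`, `K`. -/

namespace Rein83

open Complex Finset Rein69

lemma sqrt6_eq : Real.sqrt 6 = Real.sqrt 2 * Real.sqrt 3 := by
  rw [← Real.sqrt_mul (by norm_num)]; norm_num

lemma sqrt3_mul_sn : Real.sqrt 3 * sn = cs - 2 * sn := by
  have h2 : Real.sqrt 2 * Real.sqrt 2 = 2 := Real.mul_self_sqrt (by norm_num)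
  have h3 := sq3
  unfold sn cs
  rw [sqrt6_eq]
  linear_combination (Real.sqrt 2 / 4) * h3

lemma sqrt3_mul_cs : Real.sqrt 3 * cs = 2 * cs - sn := by
  have h3 := sq3
  unfold sn cs
  rw [sqrt6_eq]
  linear_combination (Real.sqrt 2 / 4) * h3

lemma e1_om : e1 * om = ⟨sn, cs⟩ := by
  have k1 := sqrt3_mul_sn
  have k2 := sqrt3_mul_cs
  apply Complex.ext
  · simp only [e1, om, mul_re]; linarith
  · simp only [e1, om, mul_im]; linarith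

lemma e2_om : e2 * om = ⟨0, 1⟩ := by
  have h3 := sq3
  apply Complex.ext
  · simp only [e2, om, mul_re]; ring
  · simp only [e2, om, mul_im]; linarith

lemma e2_om_om : e2 * om * om = ⟨-(Real.sqrt 3 / 2), 1 / 2⟩ := by
  rw [e2_om]
  apply Complex.ext
  · simp only [om, mul_re]; ring
  · simp only [om, mul_im]; ring

/-- real form of the turn -/
lemma pturn_re (r r' r'' a b a' b' a'' b'' : ℝ) :
    pturn r ⟨a, b⟩ r' ⟨a', b'⟩ r'' ⟨a'', b''⟩ =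
      sn * (r * r' + r' * r'') - 1 / 2 * (r * r'') - r * (cs * b' + sn * a')
      + r' * (cs * a - sn * b + cs * a'' + sn * b'') - r'' * (sn * a' - cs * b')
      - r * a'' - r'' * a - cs * (a * a' + b * b') - sn * (a * b' - b * a')
      - cs * (a' * a'' + b' * b'') - sn * (a' * b'' - b' * a'')
      - 1 / 2 * (a * a'' + b * b'') + Real.sqrt 3 / 2 * (a * b'' - b * a'') := by
  have e : e1 * ((starRingEnd ℂ) ((r : ℂ) + ob * ⟨a, b⟩) * ((r' : ℂ) - ⟨a', b'⟩)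
      + (starRingEnd ℂ) ((r' : ℂ) - ⟨a', b'⟩) * ((r'' : ℂ) + om * ⟨a'', b''⟩))
      - e2 * ((starRingEnd ℂ) ((r : ℂ) + ob * ⟨a, b⟩) * ((r'' : ℂ) + om * ⟨a'', b''⟩)) =
      e1 * ((r : ℂ) * ((r' : ℂ) - ⟨a', b'⟩) + ((r' : ℂ) - (starRingEnd ℂ) ⟨a', b'⟩) * (r'' : ℂ))
      + (e1 * om) * ((starRingEnd ℂ) ⟨a, b⟩ * ((r' : ℂ) - ⟨a', b'⟩)
        + ((r' : ℂ) - (starRingEnd ℂ) ⟨a', b'⟩) * ⟨a'', b''⟩)
      - e2 * ((r : ℂ) * (r'' : ℂ))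
      - (e2 * om) * ((r : ℂ) * ⟨a'', b''⟩ + (r'' : ℂ) * (starRingEnd ℂ) ⟨a, b⟩)
      - (e2 * om * om) * ((starRingEnd ℂ) ⟨a, b⟩ * ⟨a'', b''⟩) := by
    simp only [map_add, map_sub, map_mul, conj_ob, Complex.conj_ofReal]
    ring
  unfold pturn
  rw [e, e1_om, e2_om_om, e2_om]
  simp only [e1, e2, add_im, sub_im, mul_im, add_re, sub_re, mul_re, conj_re, conj_im, ofReal_re,
    ofReal_im]
  ring

section
variable {t : ℝ} {r : ℕ → ℝ} {B : ℕ → ℂ} (h : Cf t r B)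
include h

lemma Cf.r5 : r 5 = r 1 := h.rper 1
lemma Cf.B5 : B 5 = B 1 := h.Bper 1

/-- the four turns in coordinates -/
lemma Cf.turns {x1 x2 y1 y2 : ℝ} (h0 : B 0 = ⟨t - x1, -x2⟩)
    (h1 : B 1 = ⟨t + x1 - 2 * y2, x2 + 2 * y1⟩) (h2 : B 2 = ⟨t - x1, -x2⟩)
    (h3 : B 3 = ⟨t + x1 + 2 * y2, x2 - 2 * y1⟩) :
    tn r B 0 + tn r B 1 + tn r B 2 + tn r B 3 =
      2 * sn * (r 0 * r 1 + r 1 * r 2 + r 2 * r 3 + r 3 * r 0) - (r 0 * r 2 + r 1 * r 3)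
      - (2 - 2 * (cs - sn)) * t * (r 0 + r 1 + r 2 + r 3)
      + (2 + 2 * (cs - sn)) * x1 * (r 0 - r 1 + r 2 - r 3)
      - 4 * (cs - sn) * y1 * (r 0 - r 2) - 4 * y2 * (r 1 - r 3)
      - (8 * cs + 2) * t ^ 2 + (8 * cs - 2) * (x1 ^ 2 + x2 ^ 2) + 4 * (y1 ^ 2 + y2 ^ 2) ∧
    tn r B 3 + tn r B 1 - tn r B 0 - tn r B 2 =
      r 0 * r 2 - r 1 * r 3 + (2 + 2 * (sn + cs)) * t * (r 0 - r 1 + r 2 - r 3)
      + (2 * (sn + cs) - 2) * x1 * (r 0 + r 1 + r 2 + r 3)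
      + 4 * (sn + cs) * y1 * (r 0 - r 2) - 4 * y2 * (r 1 - r 3)
      - 4 * t * x1 + 4 * (y1 ^ 2 + y2 ^ 2) ∧
    tn r B 3 - tn r B 1 =
      sn * (r 0 - r 2) * (r 1 + r 3) + 2 * cs * (t + x1) * (r 0 - r 2) - 2 * cs * x2 * (r 1 - r 3)
      + 4 * sn * y1 * (r 0 + r 2) + (4 * Real.sqrt 3 - 8 * sn) * t * y1
      + (8 * sn + 4 * Real.sqrt 3) * (x1 * y1 + x2 * y2) ∧
    tn r B 0 - tn r B 2 =
      sn * (r 0 + r 2) * (r 1 - r 3) - 2 * cs * x2 * (r 0 - r 2) + 2 * cs * (t - x1) * (r 1 - r 3)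
      + 4 * sn * y2 * (r 0 + r 2) + 8 * cs * t * y2 - 8 * cs * (x1 * y2 - x2 * y1) := by
  have f0 : tn r B 0 = pturn (r 0) (B 0) (r 1) (B 1) (r 2) (B 2) := rfl
  have f1 : tn r B 1 = pturn (r 1) (B 1) (r 2) (B 2) (r 3) (B 3) := rfl
  have f2 : tn r B 2 = pturn (r 2) (B 2) (r 3) (B 3) (r 0) (B 0) := by
    have : tn r B 2 = pturn (r 2) (B 2) (r 3) (B 3) (r 4) (B 4) := rfl
    rw [this, h.r4, h.B4]
  have f3 : tn r B 3 = pturn (r 3) (B 3) (r 0) (B 0) (r 1) (B 1) := by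
    have : tn r B 3 = pturn (r 3) (B 3) (r 4) (B 4) (r 5) (B 5) := rfl
    rw [this, h.r4, h.B4, h.r5, h.B5]
  rw [f0, f1, f2, f3, h0, h1, h2, h3, pturn_re, pturn_re, pturn_re, pturn_re]
  refine ⟨?_, ?_, ?_, ?_⟩ <;> ring

end

end Rein83
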