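import Pool.Agent.Rein83.FinN1

set_option autoImplicit false

/-! Near stage: coordinates with all elementary bounds; bound of the sum of the turns and of `x1`, `v`. -/

namespace Rein83

open Complex Finset Rein69

/-- coordinates of a configuration -/
structure Co (t : ℝ) (r : ℕ → ℝ) (B : ℕ → ℂ) (x1 x2 y1 y2 w v d0 d1 d2 d3 g : ℝ) : Prop where
  h0 : B 0 = ⟨t - x1, -x2⟩
  h1 : B 1 = ⟨t + x1 - 2 * y2, x2 + 2 * y1⟩
  h2 : B 2 = ⟨t - x1, -x2⟩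
  h3 : B 3 = ⟨t + x1 + 2 * y2, x2 - 2 * y1⟩
  w0 : 0 ≤ w
  v0 : 0 ≤ v
  w2 : w ^ 2 = x1 ^ 2 + x2 ^ 2
  v2 : v ^ 2 = y1 ^ 2 + y2 ^ 2
  a1 : |x1| ≤ w
  a2 : |x2| ≤ w
  b1 : |y1| ≤ v
  b2 : |y2| ≤ v
  c1 : |x2 * y1 - x1 * y2| ≤ w * v
  c2 : |x1 * y1 + x2 * y2| ≤ w * v
  vs : v ≤ |y1| + |y2|
  e0 : r 0 ^ 2 = 1 + d0 + ((t - x1) ^ 2 + x2 ^ 2)
  e1 : r 1 ^ 2 = 1 + d1 + ((t + x1 - 2 * y2) ^ 2 + (x2 + 2 * y1) ^ 2)
  e2 : r 2 ^ 2 = 1 + d2 + ((t - x1) ^ 2 + x2 ^ 2)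
  e3 : r 3 ^ 2 = 1 + d3 + ((t + x1 + 2 * y2) ^ 2 + (x2 - 2 * y1) ^ 2)
  p0 : 0 ≤ d0
  p1 : 0 ≤ d1
  p2 : 0 ≤ d2
  p3 : 0 ≤ d3
  gs : d0 + d1 + d2 + d3 = g
  r0 : 1 ≤ r 0
  r1 : 1 ≤ r 1
  r2 : 1 ≤ r 2
  r3 : 1 ≤ r 3
  t0 : 0 ≤ t
  q0 : d0 = r 0 ^ 2 - normSq (B 0) - 1
  q1 : d1 = r 1 ^ 2 - normSq (B 1) - 1
  q2 : d2 = r 2 ^ 2 - normSq (B 2) - 1
  q3 : d3 = r 3 ^ 2 - normSq (B 3) - 1

theorem Cf.co {t : ℝ} {r : ℕ → ℝ} {B : ℕ → ℂ} (h : Cf t r B) : ∃ x1 x2 y1 y2 d0 d1 d2 d3 : ℝ,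
    Co t r B x1 x2 y1 y2 ‖cx t B‖ ‖cy B‖ d0 d1 d2 d3 (sig r B) := by
  obtain ⟨x1, x2, y1, y2, hx, hy, h0, h1, h2, h3⟩ := h.coords
  set w := ‖cx t B‖ with hw
  set v := ‖cy B‖ with hv
  have hw0 : 0 ≤ w := norm_nonneg _
  have hv0 : 0 ≤ v := norm_nonneg _
  have hw2 : w ^ 2 = x1 ^ 2 + x2 ^ 2 := by
    rw [hw, ← normSq_eq_norm_sq, hx, normSq_mk]
    ring
  have hv2 : v ^ 2 = y1 ^ 2 + y2 ^ 2 := by
    rw [hv, ← normSq_eq_norm_sq, hy, normSq_mk]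
    ring
  refine ⟨x1, x2, y1, y2, dd r B 0, dd r B 1, dd r B 2, dd r B 3, ?_⟩
  exact
  { h0 := h0
    h1 := h1
    h2 := h2
    h3 := h3
    w0 := hw0
    v0 := hv0
    w2 := hw2
    v2 := hv2
    a1 := abs_le_of_sq_le_sq (by nlinarith [sq_nonneg x2]) hw0
    a2 := abs_le_of_sq_le_sq (by nlinarith [sq_nonneg x1]) hw0
    b1 := abs_le_of_sq_le_sq (by nlinarith [sq_nonneg y2]) hv0
    b2 := abs_le_of_sq_le_sq (by nlinarith [sq_nonneg y1]) hv0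
    c1 := by
      apply abs_le_of_sq_le_sq _ (by positivity)
      rw [mul_pow, hv2, hw2]
      nlinarith [sq_nonneg (x1 * y1 + x2 * y2)]
    c2 := by
      apply abs_le_of_sq_le_sq _ (by positivity)
      rw [mul_pow, hv2, hw2]
      nlinarith [sq_nonneg (x2 * y1 - x1 * y2)]
    vs := by
      apply le_of_sq_le_sq _ (by positivity)
      rw [hv2]
      have := mul_nonneg (abs_nonneg y1) (abs_nonneg y2)
      nlinarith [sq_abs y1, sq_abs y2]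
    e0 := by rw [rsq_eq r B 0, h0, normSq_mk]; ring
    e1 := by rw [rsq_eq r B 1, h1, normSq_mk]; ring
    e2 := by rw [rsq_eq r B 2, h2, normSq_mk]; ring
    e3 := by rw [rsq_eq r B 3, h3, normSq_mk]; ring
    p0 := h.dd_nonneg 0
    p1 := h.dd_nonneg 1
    p2 := h.dd_nonneg 2
    p3 := h.dd_nonneg 3
    gs := (sig_eq r B).symm
    r0 := h.one_le 0
    r1 := h.one_le 1
    r2 := h.one_le 2
    r3 := h.one_le 3
    t0 := h.t0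
    q0 := rfl
    q1 := rfl
    q2 := rfl
    q3 := rfl }

lemma abs_diff_le {p q c : ℝ} (hp : 1 ≤ p) (hq : 1 ≤ q) (hc : |p ^ 2 - q ^ 2| ≤ c) :
    |p - q| ≤ c / 2 := by
  have h1 : |p ^ 2 - q ^ 2| = |p - q| * (p + q) := by
    rw [sq_sub_sq, abs_mul, abs_of_pos (show 0 < p + q by linarith), mul_comm]
  rw [h1] at hc
  nlinarith [abs_nonneg (p - q)]

section
variable {t : ℝ} {r : ℕ → ℝ} {B : ℕ → ℂ} {x1 x2 y1 y2 w v d0 d1 d2 d3 g : ℝ}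
  (c : Co t r B x1 x2 y1 y2 w v d0 d1 d2 d3 g)
include c

lemma Co.D02 : |r 0 - r 2| ≤ (d0 + d2) / 2 := by
  apply abs_diff_le c.r0 c.r2
  rw [c.e0, c.e2]
  have : 1 + d0 + ((t - x1) ^ 2 + x2 ^ 2) - (1 + d2 + ((t - x1) ^ 2 + x2 ^ 2)) = d0 - d2 := by ring
  rw [this, abs_le]
  constructor <;> linarith [c.p0, c.p2]

lemma Co.D13 : |r 1 - r 3| ≤ (d1 + d3) / 2 + 4 * t * |y2| + 4 * (w * v) := by
  have h1 : |r 1 ^ 2 - r 3 ^ 2| ≤ (d1 + d3) + 8 * t * |y2| + 8 * (w * v) := by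
    rw [c.e1, c.e3]
    have e : 1 + d1 + ((t + x1 - 2 * y2) ^ 2 + (x2 + 2 * y1) ^ 2) -
        (1 + d3 + ((t + x1 + 2 * y2) ^ 2 + (x2 - 2 * y1) ^ 2)) =
        (d1 - d3) + (-(8 * t * y2) + 8 * (x2 * y1 - x1 * y2)) := by ring
    rw [e]
    have k1 : |d1 - d3| ≤ d1 + d3 := by
      rw [abs_le]; constructor <;> linarith [c.p1, c.p3]
    have k2 : |-(8 * t * y2)| = 8 * t * |y2| := by
      rw [abs_neg, abs_mul, abs_of_nonneg (by linarith [c.t0] : (0 : ℝ) ≤ 8 * t)]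
    have k3 : |8 * (x2 * y1 - x1 * y2)| ≤ 8 * (w * v) := by
      rw [abs_mul, abs_of_pos (by norm_num : (0 : ℝ) < 8)]
      linarith [c.c1]
    have k4 := abs_add_le (d1 - d3) (-(8 * t * y2) + 8 * (x2 * y1 - x1 * y2))
    have k5 := abs_add_le (-(8 * t * y2)) (8 * (x2 * y1 - x1 * y2))
    linarith
  have := abs_diff_le c.r1 c.r3 h1
  linarith

/-- bound for `r0 - r1 + r2 - r3` -/
lemma Co.R4 : |r 0 - r 1 + r 2 - r 3| ≤ g / 2 + 4 * t * |x1| + 4 * v ^ 2 + 4 * t * |y2|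
    + 4 * (w * v) := by
  have k3 : |8 * (x2 * y1 - x1 * y2)| ≤ 8 * (w * v) := by
    rw [abs_mul, abs_of_pos (by norm_num : (0 : ℝ) < 8)]
    linarith [c.c1]
  set a := t * x1 + v ^ 2 with ha
  set b := x2 * y1 - x1 * y2 - t * y2 with hb
  have ha' : |a| ≤ t * |x1| + v ^ 2 := by
    rw [ha]
    refine (abs_add_le _ _).trans ?_
    rw [abs_mul, abs_of_nonneg c.t0, abs_of_nonneg (sq_nonneg v)]
  have hb' : |b| ≤ w * v + t * |y2| := by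
    rw [hb]
    refine (abs_sub _ _).trans ?_
    rw [abs_mul t, abs_of_nonneg c.t0]
    linarith [c.c1]
  have h01 : |r 0 - r 1| ≤ (d0 + d1 + 4 * (|a| + |b|)) / 2 := by
    apply abs_diff_le c.r0 c.r1
    rw [c.e0, c.e1]
    have e : 1 + d0 + ((t - x1) ^ 2 + x2 ^ 2) -
        (1 + d1 + ((t + x1 - 2 * y2) ^ 2 + (x2 + 2 * y1) ^ 2)) = (d0 - d1) - 4 * (a + b) := by
      rw [ha, hb, c.v2]; ring
    rw [e]
    have k1 : |d0 - d1| ≤ d0 + d1 := by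
      rw [abs_le]; constructor <;> linarith [c.p0, c.p1]
    have k2 : |4 * (a + b)| ≤ 4 * (|a| + |b|) := by
      rw [abs_mul, abs_of_pos (by norm_num : (0 : ℝ) < 4)]
      linarith [abs_add_le a b]
    linarith [abs_sub (d0 - d1) (4 * (a + b))]
  have h23 : |r 2 - r 3| ≤ (d2 + d3 + 4 * (|a| + |b|)) / 2 := by
    apply abs_diff_le c.r2 c.r3
    rw [c.e2, c.e3]
    have e : 1 + d2 + ((t - x1) ^ 2 + x2 ^ 2) -
        (1 + d3 + ((t + x1 + 2 * y2) ^ 2 + (x2 - 2 * y1) ^ 2)) = (d2 - d3) - 4 * (a - b) := by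
      rw [ha, hb, c.v2]; ring
    rw [e]
    have k1 : |d2 - d3| ≤ d2 + d3 := by
      rw [abs_le]; constructor <;> linarith [c.p2, c.p3]
    have k2 : |4 * (a - b)| ≤ 4 * (|a| + |b|) := by
      rw [abs_mul, abs_of_pos (by norm_num : (0 : ℝ) < 4)]
      linarith [abs_sub a b]
    linarith [abs_sub (d2 - d3) (4 * (a - b))]
  have e : r 0 - r 1 + r 2 - r 3 = (r 0 - r 1) + (r 2 - r 3) := by ring
  rw [e]
  have := abs_add_le (r 0 - r 1) (r 2 - r 3)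
  have hg := c.gs
  linarith

end

end Rein83
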