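import Pool.Agent.Rein83.FinN2

set_option autoImplicit false

/-! Near stage: linear relations in the coarse box. -/

namespace Rein83

open Complex Finset Rein69

/-- coarse box -/
structure Bx (t w v g : ℝ) : Prop where
  t1 : 24 / 1000 ≤ t
  t2 : t ≤ 285 / 10000
  w1 : w ≤ 145 / 10000
  v1 : v ≤ 13 / 1000
  g1 : g ≤ 34 / 1000

lemma cms_ge : (14142135 : ℝ) / 20000000 ≤ cs - sn := by
  rw [cs_sub_sn]; linarith [sqrt2_ge]
lemma cms_le : cs - sn ≤ (14142136 : ℝ) / 20000000 := by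
  rw [cs_sub_sn]; linarith [sqrt2_le]
lemma cps_ge : (24494897 : ℝ) / 20000000 ≤ sn + cs := by
  rw [sn_add_cs]; linarith [sqrt6_ge]
lemma cps_le : sn + cs ≤ (24494898 : ℝ) / 20000000 := by
  rw [sn_add_cs]; linarith [sqrt6_le]

section
variable {t : ℝ} {r : ℕ → ℝ} {B : ℕ → ℂ} {x1 x2 y1 y2 w v d0 d1 d2 d3 g : ℝ}
  (c : Co t r B x1 x2 y1 y2 w v d0 d1 d2 d3 g)
include c

lemma Co.g0 : 0 ≤ g := by have := c.gs; linarith [c.p0, c.p1, c.p2, c.p3]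

lemma Co.sumsq : r 0 ^ 2 + r 1 ^ 2 + r 2 ^ 2 + r 3 ^ 2 = 4 + g + 4 * (t ^ 2 + w ^ 2 + 2 * v ^ 2) := by
  rw [c.e0, c.e1, c.e2, c.e3, ← c.gs, c.w2, c.v2]; ring

/-- bounds of the differences in the coarse box -/
lemma Co.eps (b : Bx t w v g) : |r 1 - r 3| ≤ (d1 + d3) / 2 + 172 / 1000 * v := by
  have h1 := c.D13
  have h2 : 4 * t * |y2| ≤ 4 * (285 / 10000) * v :=
    mul_le_mul (by linarith [b.t2]) c.b2 (abs_nonneg _) (by norm_num)
  have h3 : w * v ≤ 145 / 10000 * v := mul_le_mul_of_nonneg_right b.w1 c.v0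
  linarith

lemma Co.rho (b : Bx t w v g) : |r 0 - r 1 + r 2 - r 3| ≤ g / 2 + 114 / 1000 * |x1| + 4 * v ^ 2
    + 172 / 1000 * v := by
  have h1 := c.R4
  have h2 : 4 * t * |y2| ≤ 4 * (285 / 10000) * v :=
    mul_le_mul (by linarith [b.t2]) c.b2 (abs_nonneg _) (by norm_num)
  have h3 : w * v ≤ 145 / 10000 * v := mul_le_mul_of_nonneg_right b.w1 c.v0
  have h4 : 4 * t * |x1| ≤ 4 * (285 / 10000) * |x1| :=
    mul_le_mul_of_nonneg_right (by linarith [b.t2]) (abs_nonneg _)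
  linarith

/-- bound of the squares of the differences -/
lemma Co.sqs (b : Bx t w v g) : (r 0 - r 2) ^ 2 + (r 1 - r 3) ^ 2 ≤
    108 / 10000 * g + 297 / 10000 * v ^ 2 := by
  have h1 := c.D02
  have h2 := c.eps b
  have h3 : (r 0 - r 2) ^ 2 + (r 1 - r 3) ^ 2 ≤ (g / 2 + 172 / 1000 * v) ^ 2 := by
    have e1 : (r 0 - r 2) ^ 2 = |r 0 - r 2| ^ 2 := (sq_abs _).symm
    have e2 : (r 1 - r 3) ^ 2 = |r 1 - r 3| ^ 2 := (sq_abs _).symm
    have k1 : |r 0 - r 2| + |r 1 - r 3| ≤ g / 2 + 172 / 1000 * v := by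
      have := c.gs; linarith
    have k2 : (|r 0 - r 2| + |r 1 - r 3|) ^ 2 ≤ (g / 2 + 172 / 1000 * v) ^ 2 :=
      pow_le_pow_left₀ (by positivity) k1 2
    have k3 := mul_nonneg (abs_nonneg (r 0 - r 2)) (abs_nonneg (r 1 - r 3))
    rw [e1, e2]; nlinarith
  have k4 : g * g ≤ 34 / 1000 * g := mul_le_mul_of_nonneg_right b.g1 c.g0
  have k5 : v * g ≤ 13 / 1000 * g := mul_le_mul_of_nonneg_right b.v1 c.g0
  nlinarith [sq_nonneg v]

/-- upper bound of the sum of the turns -/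
lemma Co.theta (h : Cf t r B) (b : Bx t w v g) :
    tn r B 0 + tn r B 1 + tn r B 2 + tn r B 3 ≤
      77653 / 1000000 - 28665 / 10000 * t + 6484 / 1000 * w ^ 2 + 5331 / 1000 * v ^ 2
        + 712 / 10000 * g := by
  have hT := (h.turns c.h0 c.h1 c.h2 c.h3).1
  have hs := c.sumsq
  have hsq := c.sqs b
  have hD02 := c.D02
  have hE := c.eps b
  have hR := c.rho b
  have hg := c.g0
  have hv := c.v0
  have hw := c.w0
  have ht := c.t0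
  have hσ : 4 ≤ r 0 + r 1 + r 2 + r 3 := by linarith [c.r0, c.r1, c.r2, c.r3]
  set σ := r 0 + r 1 + r 2 + r 3 with hσd
  set ρ := r 0 - r 1 + r 2 - r 3 with hρd
  have e1 : 2 * sn * (r 0 * r 1 + r 1 * r 2 + r 2 * r 3 + r 3 * r 0) - (r 0 * r 2 + r 1 * r 3) =
      (8 * sn - 2) * (1 + g / 4 + (t ^ 2 + w ^ 2 + 2 * v ^ 2))
      - sn * ρ ^ 2 - (sn - 1 / 4) * ((r 0 - r 2) ^ 2 + (r 1 - r 3) ^ 2)
      + ((r 0 - r 2) ^ 2 + (r 1 - r 3) ^ 2) / 4 := by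
    have : 1 + g / 4 + (t ^ 2 + w ^ 2 + 2 * v ^ 2) =
        (r 0 ^ 2 + r 1 ^ 2 + r 2 ^ 2 + r 3 ^ 2) / 4 := by rw [hs]; ring
    rw [this, hρd]; ring
  have s1 := sn_ge
  have s2 := sn_le
  have c1 := cs_ge
  have c2 := cs_le
  have m1 := cms_ge
  have m2 := cms_le
  rw [c.w2.symm, c.v2.symm, e1] at hT
  have f1 : 0 ≤ sn * ρ ^ 2 := by positivity
  have f2 : 0 ≤ (sn - 1 / 4) * ((r 0 - r 2) ^ 2 + (r 1 - r 3) ^ 2) :=
    mul_nonneg (by linarith) (by positivity)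
  have f3 : (8 * sn - 2) * (1 + g / 4 + (t ^ 2 + w ^ 2 + 2 * v ^ 2)) ≤
      7056 / 100000 * (1 + g / 4 + (t ^ 2 + w ^ 2 + 2 * v ^ 2)) :=
    mul_le_mul_of_nonneg_right (by linarith) (by positivity)
  have f4 : 58578 / 100000 * t * 4 ≤ (2 - 2 * (cs - sn)) * t * σ :=
    mul_le_mul (mul_le_mul_of_nonneg_right (by linarith) ht) hσ (by norm_num)
      (mul_nonneg (by linarith) ht)
  have hρ0 : 0 ≤ g / 2 + 114 / 1000 * w + 4 * v ^ 2 + 172 / 1000 * v := by positivity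
  have g1 : x1 * ρ ≤ w * (g / 2 + 114 / 1000 * w + 4 * v ^ 2 + 172 / 1000 * v) := by
    calc x1 * ρ ≤ |x1 * ρ| := le_abs_self _
      _ = |x1| * |ρ| := abs_mul _ _
      _ ≤ w * (g / 2 + 114 / 1000 * w + 4 * v ^ 2 + 172 / 1000 * v) :=
        mul_le_mul c.a1 (by linarith [c.a1]) (abs_nonneg _) hw
  have hwρ0 : 0 ≤ w * (g / 2 + 114 / 1000 * w + 4 * v ^ 2 + 172 / 1000 * v) := mul_nonneg hw hρ0
  have f5 : (2 + 2 * (cs - sn)) * x1 * ρ ≤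
      34142136 / 10000000 * (w * (g / 2 + 114 / 1000 * w + 4 * v ^ 2 + 172 / 1000 * v)) := by
    rw [mul_assoc]
    have : (2 + 2 * (cs - sn)) * (x1 * ρ) ≤
        (2 + 2 * (cs - sn)) * (w * (g / 2 + 114 / 1000 * w + 4 * v ^ 2 + 172 / 1000 * v)) :=
      mul_le_mul_of_nonneg_left g1 (by linarith)
    exact this.trans (mul_le_mul_of_nonneg_right (by linarith) hwρ0)
  have g2 : -(y1 * (r 0 - r 2)) ≤ 13 / 1000 * ((d0 + d2) / 2) := by
    calc -(y1 * (r 0 - r 2)) ≤ |y1 * (r 0 - r 2)| := neg_le_abs _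
      _ = |y1| * |r 0 - r 2| := abs_mul _ _
      _ ≤ 13 / 1000 * ((d0 + d2) / 2) :=
        mul_le_mul (c.b1.trans b.v1) hD02 (abs_nonneg _) (by norm_num)
  have f6 : -(4 * (cs - sn) * y1 * (r 0 - r 2)) ≤ 4 * (13 / 1000 * ((d0 + d2) / 2)) := by
    have : -(4 * (cs - sn) * y1 * (r 0 - r 2)) = 4 * (cs - sn) * -(y1 * (r 0 - r 2)) := by ring
    rw [this]
    have h0 : 0 ≤ 13 / 1000 * ((d0 + d2) / 2) := by linarith [c.p0, c.p2]
    exact (mul_le_mul_of_nonneg_left g2 (by linarith)).trans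
      (mul_le_mul_of_nonneg_right (by linarith) h0)
  have f7 : -(4 * y2 * (r 1 - r 3)) ≤ 4 * (13 / 1000 * ((d1 + d3) / 2) + 172 / 1000 * v ^ 2) := by
    have g3 : -(y2 * (r 1 - r 3)) ≤ v * ((d1 + d3) / 2 + 172 / 1000 * v) := by
      calc -(y2 * (r 1 - r 3)) ≤ |y2 * (r 1 - r 3)| := neg_le_abs _
        _ = |y2| * |r 1 - r 3| := abs_mul _ _
        _ ≤ v * ((d1 + d3) / 2 + 172 / 1000 * v) := mul_le_mul c.b2 hE (abs_nonneg _) hv
    have g4 : v * ((d1 + d3) / 2) ≤ 13 / 1000 * ((d1 + d3) / 2) :=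
      mul_le_mul_of_nonneg_right b.v1 (by linarith [c.p1, c.p3])
    linarith
  have f8 : (8 * (9659257 / 10000000) + 2) * t ^ 2 ≤ (8 * cs + 2) * t ^ 2 :=
    mul_le_mul_of_nonneg_right (by linarith) (sq_nonneg t)
  have f9 : (8 * cs - 2) * w ^ 2 ≤ (8 * (9659259 / 10000000) - 2) * w ^ 2 :=
    mul_le_mul_of_nonneg_right (by linarith) (sq_nonneg w)
  -- products
  have q1 : w * g ≤ 145 / 10000 * g := mul_le_mul_of_nonneg_right b.w1 hg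
  have q2 : w * v ^ 2 ≤ 145 / 10000 * v ^ 2 := mul_le_mul_of_nonneg_right b.w1 (sq_nonneg v)
  have q3 : 2 * (w * v) ≤ w ^ 2 + v ^ 2 := by nlinarith [sq_nonneg (w - v)]
  have q4 : 0 ≤ (t - 271 / 10000) ^ 2 := sq_nonneg _
  have hgs := c.gs
  have hw2 : 0 ≤ w ^ 2 := sq_nonneg _
  have hv2 : 0 ≤ v ^ 2 := sq_nonneg _
  clear_value σ ρ
  clear hs hD02 hE hR e1 s1 s2 c1 c2 m1 m2 g1 g2 hσ
  linarith

end

end Rein83
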