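import Pool.Agent.Rein83.FinN3

set_option autoImplicit false

/-! Near stage: bounds of `x1` and `v` by the sum of the turns. -/

namespace Rein83

open Complex Finset Rein69

section
variable {t : ℝ} {r : ℕ → ℝ} {B : ℕ → ℂ} {x1 x2 y1 y2 w v d0 d1 d2 d3 g : ℝ}
  (c : Co t r B x1 x2 y1 y2 w v d0 d1 d2 d3 g)
include c

/-- bound of `x1` -/
lemma Co.x1_le (h : Cf t r B) (b : Bx t w v g) (htn : ∀ k, 0 ≤ tn r B k) :
    |x1| ≤ 643 / 1000 * (tn r B 0 + tn r B 1 + tn r B 2 + tn r B 3) + 3864 / 10000 * g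
      + 243 / 10000 * v := by
  have hT := (h.turns c.h0 c.h1 c.h2 c.h3).2.1
  have n0 := htn 0
  have n1 := htn 1
  have n2 := htn 2
  have n3 := htn 3
  have hsq := c.sqs b
  have hD02 := c.D02
  have hE := c.eps b
  have hR := c.rho b
  have hg := c.g0
  have hv := c.v0
  have hw := c.w0
  have ht := c.t0
  have hσ : 4 ≤ r 0 + r 1 + r 2 + r 3 := by linarith [c.r0, c.r1, c.r2, c.r3]
  have e1 : r 0 * r 2 - r 1 * r 3 = (d0 + d2 - d1 - d3) / 2 - 4 * (t * x1 + v ^ 2)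
      - ((r 0 - r 2) ^ 2 - (r 1 - r 3) ^ 2) / 2 := by
    have h02 : r 0 * r 2 = (r 0 ^ 2 + r 2 ^ 2 - (r 0 - r 2) ^ 2) / 2 := by ring
    have h13 : r 1 * r 3 = (r 1 ^ 2 + r 3 ^ 2 - (r 1 - r 3) ^ 2) / 2 := by ring
    rw [h02, h13, c.e0, c.e1, c.e2, c.e3, c.v2]; ring
  rw [c.v2.symm, e1] at hT
  set σ := r 0 + r 1 + r 2 + r 3 with hσd
  set ρ := r 0 - r 1 + r 2 - r 3 with hρd
  set Θ := tn r B 0 + tn r B 1 + tn r B 2 + tn r B 3 with hΘ
  have p1 := cps_ge
  have p2 := cps_le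
  -- isolate x1
  have e2 : x1 * ((2 * (sn + cs) - 2) * σ - 8 * t) =
      (tn r B 3 + tn r B 1 - tn r B 0 - tn r B 2) - (d0 + d2 - d1 - d3) / 2
      + ((r 0 - r 2) ^ 2 - (r 1 - r 3) ^ 2) / 2 - (2 + 2 * (sn + cs)) * t * ρ
      - 4 * (sn + cs) * y1 * (r 0 - r 2) + 4 * y2 * (r 1 - r 3) := by
    rw [hT]; ring
  have k0 : 15699 / 10000 ≤ (2 * (sn + cs) - 2) * σ - 8 * t := by
    have : (2 * (24494897 / 20000000) - 2) * 4 ≤ (2 * (sn + cs) - 2) * σ :=
      mul_le_mul (by linarith) hσ (by norm_num) (by linarith)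
    linarith [b.t2]
  have k1 : |x1| * (15699 / 10000) ≤ |x1 * ((2 * (sn + cs) - 2) * σ - 8 * t)| := by
    rw [abs_mul]
    apply mul_le_mul_of_nonneg_left _ (abs_nonneg _)
    exact k0.trans (le_abs_self _)
  rw [e2] at k1
  -- the single terms
  have a1 : |tn r B 3 + tn r B 1 - tn r B 0 - tn r B 2| ≤ Θ := by
    rw [abs_le]; constructor <;> linarith
  have a2 : |(d0 + d2 - d1 - d3) / 2| ≤ g / 2 := by
    have := c.gs
    rw [abs_le]; constructor <;> linarith [c.p0, c.p1, c.p2, c.p3]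
  have a3 : |((r 0 - r 2) ^ 2 - (r 1 - r 3) ^ 2) / 2| ≤
      (108 / 10000 * g + 297 / 10000 * v ^ 2) / 2 := by
    rw [abs_le]
    constructor <;> linarith [sq_nonneg (r 0 - r 2), sq_nonneg (r 1 - r 3)]
  have a4 : |(2 + 2 * (sn + cs)) * t * ρ| ≤
      12682 / 100000 * (g / 2 + 114 / 1000 * |x1| + 4 * v ^ 2 + 172 / 1000 * v) := by
    rw [abs_mul, abs_of_nonneg (mul_nonneg (by linarith) ht)]
    have : (2 + 2 * (sn + cs)) * t ≤ 44494898 / 10000000 * (285 / 10000) :=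
      mul_le_mul (by linarith) b.t2 ht (by norm_num)
    exact mul_le_mul (by linarith) hR (abs_nonneg _) (by norm_num)
  have a5 : |4 * (sn + cs) * y1 * (r 0 - r 2)| ≤ 49 / 10 * (13 / 1000 * ((d0 + d2) / 2)) := by
    rw [mul_assoc, abs_mul, abs_of_nonneg (by linarith : (0 : ℝ) ≤ 4 * (sn + cs)), abs_mul]
    apply mul_le_mul (by linarith) _ (by positivity) (by norm_num)
    exact mul_le_mul (c.b1.trans b.v1) hD02 (abs_nonneg _) (by norm_num)
  have a6 : |4 * y2 * (r 1 - r 3)| ≤ 4 * (13 / 1000 * ((d1 + d3) / 2) + 172 / 1000 * v ^ 2) := by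
    have g3 : |y2 * (r 1 - r 3)| ≤ v * ((d1 + d3) / 2 + 172 / 1000 * v) := by
      rw [abs_mul]
      exact mul_le_mul c.b2 hE (abs_nonneg _) hv
    have g4 : v * ((d1 + d3) / 2) ≤ 13 / 1000 * ((d1 + d3) / 2) :=
      mul_le_mul_of_nonneg_right b.v1 (by linarith [c.p1, c.p3])
    rw [mul_assoc, abs_mul, abs_of_pos (by norm_num : (0 : ℝ) < 4)]
    linarith
  have hv2 : v ^ 2 ≤ 13 / 1000 * v := by nlinarith [b.v1]
  have hgs := c.gs
  have key : ∀ A1 A2 A3 A4 A5 A6 : ℝ, |A1 - A2 + A3 - A4 - A5 + A6| ≤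
      |A1| + |A2| + |A3| + |A4| + |A5| + |A6| := by
    intro A1 A2 A3 A4 A5 A6
    have := abs_add_le (A1 - A2 + A3 - A4 - A5) A6
    have := abs_sub (A1 - A2 + A3 - A4) A5
    have := abs_sub (A1 - A2 + A3) A4
    have := abs_add_le (A1 - A2) A3
    have := abs_sub A1 A2
    linarith
  have k2 := k1.trans (key _ _ _ _ _ _)
  have hp := c.p0
  have hp1 := c.p1
  have hp2 := c.p2
  have hp3 := c.p3
  linarith

/-- bound of `v` -/
lemma Co.v_le (h : Cf t r B) (b : Bx t w v g) (htn : ∀ k, 0 ≤ tn r B k) :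
    v ≤ 526 / 1000 * (tn r B 0 + tn r B 1 + tn r B 2 + tn r B 3) + 168 / 1000 * g := by
  have hTe := (h.turns c.h0 c.h1 c.h2 c.h3).2.2.1
  have hTo := (h.turns c.h0 c.h1 c.h2 c.h3).2.2.2
  have n0 := htn 0
  have n1 := htn 1
  have n2 := htn 2
  have n3 := htn 3
  have hD02 := c.D02
  have hE := c.eps b
  have hE2 := c.D13
  have hg := c.g0
  have hv := c.v0
  have hw := c.w0
  have ht := c.t0
  have s1 := sn_ge
  have s2 := sn_le
  have c1 := cs_ge
  have c2 := cs_le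
  have k3a : (17320508 : ℝ) / 10000000 ≤ Real.sqrt 3 := Real.le_sqrt_of_sq_le (by norm_num)
  have k3b : Real.sqrt 3 ≤ (17320509 : ℝ) / 10000000 := Real.sqrt_le_iff.2 ⟨by norm_num, by norm_num⟩
  have hp0 := c.p0
  have hp1 := c.p1
  have hp2 := c.p2
  have hp3 := c.p3
  have hgs := c.gs
  -- upper bounds of the radii
  have hrb : ∀ (ρ d X : ℝ), 1 ≤ ρ → ρ ^ 2 = 1 + d + X → d ≤ 34 / 1000 → X ≤ 48 / 10000 →
      ρ ≤ 10195 / 10000 := by
    intro ρ d X h1 h2 h3 h4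
    nlinarith
  have bx : |x1| ≤ 145 / 10000 := c.a1.trans b.w1
  have bx2 : |x2| ≤ 145 / 10000 := c.a2.trans b.w1
  have by1 : |y1| ≤ 13 / 1000 := c.b1.trans b.v1
  have by2 : |y2| ≤ 13 / 1000 := c.b2.trans b.v1
  rw [abs_le] at bx bx2 by1 by2
  have X0 : (t - x1) ^ 2 + x2 ^ 2 ≤ 48 / 10000 := by
    have u1 : (t - x1) ^ 2 ≤ (43 / 1000) ^ 2 :=
      sq_le_sq' (by linarith [b.t2]) (by linarith [b.t2])
    have u2 : x2 ^ 2 ≤ (145 / 10000) ^ 2 := sq_le_sq' (by linarith) (by linarith)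
    linarith
  have X1 : (t + x1 - 2 * y2) ^ 2 + (x2 + 2 * y1) ^ 2 ≤ 48 / 10000 := by
    have e : (t + x1 - 2 * y2) ^ 2 + (x2 + 2 * y1) ^ 2 = t ^ 2 + 2 * t * (x1 - 2 * y2) + w ^ 2
        + 4 * v ^ 2 + 4 * (x2 * y1 - x1 * y2) := by rw [c.w2, c.v2]; ring
    rw [e]
    have u1 : t ^ 2 ≤ (285 / 10000) ^ 2 := pow_le_pow_left₀ ht b.t2 2
    have u2 : t * (x1 - 2 * y2) ≤ 285 / 10000 * (405 / 10000) :=
      (mul_le_mul_of_nonneg_left (by linarith : x1 - 2 * y2 ≤ 405 / 10000) ht).trans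
        (mul_le_mul_of_nonneg_right b.t2 (by norm_num))
    have u3 : w ^ 2 ≤ (145 / 10000) ^ 2 := pow_le_pow_left₀ hw b.w1 2
    have u4 : v ^ 2 ≤ (13 / 1000) ^ 2 := pow_le_pow_left₀ hv b.v1 2
    have u5 : w * v ≤ 145 / 10000 * (13 / 1000) := mul_le_mul b.w1 b.v1 hv (by norm_num)
    have u6 := (le_abs_self _).trans c.c1
    linarith
  have X3 : (t + x1 + 2 * y2) ^ 2 + (x2 - 2 * y1) ^ 2 ≤ 48 / 10000 := by
    have e : (t + x1 + 2 * y2) ^ 2 + (x2 - 2 * y1) ^ 2 = t ^ 2 + 2 * t * (x1 + 2 * y2) + w ^ 2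
        + 4 * v ^ 2 - 4 * (x2 * y1 - x1 * y2) := by rw [c.w2, c.v2]; ring
    rw [e]
    have u1 : t ^ 2 ≤ (285 / 10000) ^ 2 := pow_le_pow_left₀ ht b.t2 2
    have u2 : t * (x1 + 2 * y2) ≤ 285 / 10000 * (405 / 10000) :=
      (mul_le_mul_of_nonneg_left (by linarith : x1 + 2 * y2 ≤ 405 / 10000) ht).trans
        (mul_le_mul_of_nonneg_right b.t2 (by norm_num))
    have u3 : w ^ 2 ≤ (145 / 10000) ^ 2 := pow_le_pow_left₀ hw b.w1 2
    have u4 : v ^ 2 ≤ (13 / 1000) ^ 2 := pow_le_pow_left₀ hv b.v1 2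
    have u5 : w * v ≤ 145 / 10000 * (13 / 1000) := mul_le_mul b.w1 b.v1 hv (by norm_num)
    have u6 := (neg_le_abs _).trans c.c1
    linarith
  have R0 := hrb _ _ _ c.r0 c.e0 (by linarith [b.g1]) X0
  have R1 := hrb _ _ _ c.r1 c.e1 (by linarith [b.g1]) X1
  have R2 := hrb _ _ _ c.r2 c.e2 (by linarith [b.g1]) X0
  have R3 := hrb _ _ _ c.r3 c.e3 (by linarith [b.g1]) X3
  set Θ := tn r B 0 + tn r B 1 + tn r B 2 + tn r B 3 with hΘ
  have wv : w * v ≤ 145 / 10000 * v := mul_le_mul_of_nonneg_right b.w1 hv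
  -- even nodes
  have E1 : 2187 / 1000 * |y1| ≤ (tn r B 3 + tn r B 1) + 3055 / 10000 * (d0 + d2)
      + 141 / 10000 * (d1 + d3) + 1354 / 10000 * v := by
    have e2 : y1 * (4 * sn * (r 0 + r 2) + (4 * Real.sqrt 3 - 8 * sn) * t) =
        (tn r B 3 - tn r B 1) - (8 * sn + 4 * Real.sqrt 3) * (x1 * y1 + x2 * y2)
        - (sn * (r 1 + r 3) + 2 * cs * (t + x1)) * (r 0 - r 2)
        + 2 * cs * x2 * (r 1 - r 3) := by rw [hTe]; ring
    have k0 : 2187 / 1000 ≤ 4 * sn * (r 0 + r 2) + (4 * Real.sqrt 3 - 8 * sn) * t := by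
      have u1 : 4 * (258819 / 1000000) * 2 ≤ 4 * sn * (r 0 + r 2) :=
        mul_le_mul (by linarith) (by linarith [c.r0, c.r2]) (by norm_num) (by linarith)
      have u2 : (4 * (17320508 / 10000000) - 8 * (25882 / 100000)) * (24 / 1000) ≤
          (4 * Real.sqrt 3 - 8 * sn) * t :=
        mul_le_mul (by linarith) b.t1 (by norm_num) (by linarith)
      linarith
    have k1 : |y1| * (2187 / 1000) ≤
        |y1 * (4 * sn * (r 0 + r 2) + (4 * Real.sqrt 3 - 8 * sn) * t)| := by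
      rw [abs_mul]
      exact mul_le_mul_of_nonneg_left (k0.trans (le_abs_self _)) (abs_nonneg _)
    rw [e2] at k1
    have a1 : |tn r B 3 - tn r B 1| ≤ tn r B 3 + tn r B 1 := by
      rw [abs_le]; constructor <;> linarith
    have a2 : |(8 * sn + 4 * Real.sqrt 3) * (x1 * y1 + x2 * y2)| ≤ 9 * (w * v) := by
      rw [abs_mul, abs_of_nonneg (by linarith : (0 : ℝ) ≤ 8 * sn + 4 * Real.sqrt 3)]
      exact mul_le_mul (by linarith) c.c2 (abs_nonneg _) (by norm_num)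
    have a3 : |(sn * (r 1 + r 3) + 2 * cs * (t + x1)) * (r 0 - r 2)| ≤
        611 / 1000 * ((d0 + d2) / 2) := by
      rw [abs_mul]
      apply mul_le_mul _ hD02 (abs_nonneg _) (by norm_num)
      have u1 : sn * (r 1 + r 3) ≤ 25882 / 100000 * (2039 / 1000) :=
        mul_le_mul s2 (by linarith) (by linarith [c.r1, c.r3]) (by norm_num)
      have u2 : 2 * cs * (t + x1) ≤ 2 * (9659259 / 10000000) * (43 / 1000) :=
        mul_le_mul (by linarith) (by linarith [b.t2]) (by linarith [b.t1]) (by norm_num)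
      have u3 : 0 ≤ sn * (r 1 + r 3) := mul_nonneg (by linarith) (by linarith [c.r1, c.r3])
      have u4 : 0 ≤ 2 * cs * (t + x1) := mul_nonneg (by linarith) (by linarith [b.t1])
      rw [abs_of_nonneg (by linarith)]
      linarith
    have a4 : |2 * cs * x2 * (r 1 - r 3)| ≤
        28015 / 1000000 * ((d1 + d3) / 2 + 172 / 1000 * v) := by
      rw [abs_mul]
      apply mul_le_mul _ hE (abs_nonneg _) (by norm_num)
      rw [abs_mul, abs_of_nonneg (by linarith : (0 : ℝ) ≤ 2 * cs)]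
      have : 2 * cs * |x2| ≤ 2 * (9659259 / 10000000) * (145 / 10000) :=
        mul_le_mul (by linarith) (c.a2.trans b.w1) (abs_nonneg _) (by norm_num)
      linarith
    have key : ∀ A1 A2 A3 A4 : ℝ, |A1 - A2 - A3 + A4| ≤ |A1| + |A2| + |A3| + |A4| := by
      intro A1 A2 A3 A4
      have := abs_add_le (A1 - A2 - A3) A4
      have := abs_sub (A1 - A2) A3
      have := abs_sub A1 A2
      linarith
    have k2 := k1.trans (key _ _ _ _)
    linarith
  have E2 : 2187 / 1000 * |y2| ≤ (tn r B 0 + tn r B 2) + 3055 / 10000 * (d1 + d3)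
      + 141 / 10000 * (d0 + d2) + 1476 / 10000 * v := by
    have e2 : y2 * (4 * sn * (r 0 + r 2) + 8 * cs * t) =
        (tn r B 0 - tn r B 2) - 8 * cs * (x2 * y1 - x1 * y2)
        - (sn * (r 0 + r 2) + 2 * cs * (t - x1)) * (r 1 - r 3)
        + 2 * cs * x2 * (r 0 - r 2) := by rw [hTo]; ring
    have k1 : |y2| * (4 * (258819 / 1000000) * 2 + 8 * (9659257 / 10000000) * t) ≤
        |y2 * (4 * sn * (r 0 + r 2) + 8 * cs * t)| := by
      rw [abs_mul]
      apply mul_le_mul_of_nonneg_left _ (abs_nonneg _)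
      have u1 : 4 * (258819 / 1000000) * 2 ≤ 4 * sn * (r 0 + r 2) :=
        mul_le_mul (by linarith) (by linarith [c.r0, c.r2]) (by norm_num) (by linarith)
      have u2 : 8 * (9659257 / 10000000) * t ≤ 8 * cs * t :=
        mul_le_mul_of_nonneg_right (by linarith) ht
      exact le_trans (by linarith) (le_abs_self _)
    rw [e2] at k1
    have a1 : |tn r B 0 - tn r B 2| ≤ tn r B 0 + tn r B 2 := by
      rw [abs_le]; constructor <;> linarith
    have a2 : |8 * cs * (x2 * y1 - x1 * y2)| ≤ 7728 / 1000 * (w * v) := by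
      rw [abs_mul, abs_of_nonneg (by linarith : (0 : ℝ) ≤ 8 * cs)]
      exact mul_le_mul (by linarith) c.c1 (abs_nonneg _) (by norm_num)
    have a3 : |(sn * (r 0 + r 2) + 2 * cs * (t - x1)) * (r 1 - r 3)| ≤
        611 / 1000 * ((d1 + d3) / 2 + 4 * t * |y2| + 4 * (w * v)) := by
      rw [abs_mul]
      apply mul_le_mul _ hE2 (abs_nonneg _) (by norm_num)
      have u1 : sn * (r 0 + r 2) ≤ 25882 / 100000 * (2039 / 1000) :=
        mul_le_mul s2 (by linarith) (by linarith [c.r0, c.r2]) (by norm_num)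
      have u2 : 2 * cs * (t - x1) ≤ 2 * (9659259 / 10000000) * (43 / 1000) :=
        mul_le_mul (by linarith) (by linarith [b.t2]) (by linarith [b.t1]) (by norm_num)
      have u3 : 0 ≤ sn * (r 0 + r 2) := mul_nonneg (by linarith) (by linarith [c.r0, c.r2])
      have u4 : 0 ≤ 2 * cs * (t - x1) := mul_nonneg (by linarith) (by linarith [b.t1])
      rw [abs_of_nonneg (by linarith)]
      linarith
    have a4 : |2 * cs * x2 * (r 0 - r 2)| ≤ 28015 / 1000000 * ((d0 + d2) / 2) := by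
      rw [abs_mul]
      apply mul_le_mul _ hD02 (abs_nonneg _) (by norm_num)
      rw [abs_mul, abs_of_nonneg (by linarith : (0 : ℝ) ≤ 2 * cs)]
      have : 2 * cs * |x2| ≤ 2 * (9659259 / 10000000) * (145 / 10000) :=
        mul_le_mul (by linarith) (c.a2.trans b.w1) (abs_nonneg _) (by norm_num)
      linarith
    have key : ∀ A1 A2 A3 A4 : ℝ, |A1 - A2 - A3 + A4| ≤ |A1| + |A2| + |A3| + |A4| := by
      intro A1 A2 A3 A4
      have := abs_add_le (A1 - A2 - A3) A4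
      have := abs_sub (A1 - A2) A3
      have := abs_sub A1 A2
      linarith
    have k2 := k1.trans (key _ _ _ _)
    have k4 : 24 / 1000 * |y2| ≤ t * |y2| := mul_le_mul_of_nonneg_right b.t1 (abs_nonneg _)
    linarith
  have hvs := c.vs
  linarith

end

end Rein83
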