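import Pool.Agent.Rein83.FinN4

set_option autoImplicit false

/-! Near stage: linear relations in box N. -/

namespace Rein83

open Complex Finset Rein69

/-- box N -/
structure BN (t w v g : ℝ) : Prop where
  t1 : 2436 / 100000 ≤ t
  t2 : t ≤ 2753 / 100000
  w0 : 0 ≤ w
  w1 : w ≤ 1335 / 100000
  v0 : 0 ≤ v
  v1 : v ≤ 505 / 100000
  g0 : 0 ≤ g
  g1 : g ≤ 161 / 10000

lemma BN.bx {t w v g : ℝ} (b : BN t w v g) : Bx t w v g :=
  ⟨by linarith [b.t1], by linarith [b.t2], by linarith [b.w1], by linarith [b.v1], by linarith [b.g1]⟩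

/-- the canonical inequality with `q = 42/100` -/
def S4c (t w v g : ℝ) : Prop :=
  5796 / 1000000 + (3922 / 10000 - 757773 / 1000000 * (42 / 100)) * g + 67587 / 10000 * w ^ 2
      + 16059 / 10000 * v ^ 2 ≤ 51528 / 10000 * t ^ 2
      + 100375 / 1000000 * (g ^ 2 + 32 * (v ^ 2 + t * w) ^ 2 + 32 * v ^ 2 * (t + w) ^ 2)
      + 27826 / 1000000 * ((4 + g / 2 + 2 * t ^ 2 + 2 * w ^ 2 + 4 * v ^ 2) * t)
      + 27826 / 1000000 * ((g / 2 + 4 * (v ^ 2 + t * w) + 4 * v * (t + w)) * w)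
      + 2783 / 100000 * (g * v)

/-- lower bound of `t` -/
lemma t_lower {t w v g : ℝ} (b : BN t w v g) (h : S4c t w v g) :
    24426 / 1000000 + 189 / 1000 * g + 178 / 10 * w ^ 2 + 42 / 10 * v ^ 2 ≤ t := by
  unfold S4c at h
  have t0 : 0 ≤ t := by linarith [b.t1]
  have w0 := b.w0
  have v0 := b.v0
  have g0 := b.g0
  have w2 : 0 ≤ w ^ 2 := sq_nonneg w
  have v2 : 0 ≤ v ^ 2 := sq_nonneg v
  have k1 : g ^ 2 ≤ 161 / 10000 * g := by
    rw [sq]; exact mul_le_mul_of_nonneg_right b.g1 g0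
  have tt : t ^ 2 ≤ 758 / 1000000 := by
    have := pow_le_pow_left₀ t0 b.t2 2
    norm_num at this ⊢; linarith
  have vv : v ^ 2 ≤ 256 / 10000000 := by
    have := pow_le_pow_left₀ v0 b.v1 2
    norm_num at this ⊢; linarith
  have tw : (v ^ 2 + t * w) ^ 2 ≤ 52 / 1000000 * v ^ 2 + 1516 / 1000000 * w ^ 2 := by
    have e0 : 0 ≤ (v ^ 2 - t * w) ^ 2 := sq_nonneg _
    have e1 : (v ^ 2 + t * w) ^ 2 = 2 * (v ^ 2 * v ^ 2) + 2 * (t ^ 2 * w ^ 2) -
      (v ^ 2 - t * w) ^ 2 := by ring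
    have e2 : v ^ 2 * v ^ 2 ≤ 256 / 10000000 * v ^ 2 := mul_le_mul_of_nonneg_right vv v2
    have e3 : t ^ 2 * w ^ 2 ≤ 758 / 1000000 * w ^ 2 := mul_le_mul_of_nonneg_right tt w2
    rw [e1]
    linarith
  have tpw : (t + w) ^ 2 ≤ 168 / 100000 := by
    have := pow_le_pow_left₀ (by linarith : 0 ≤ t + w)
      (by linarith [b.t2, b.w1] : t + w ≤ 4088 / 100000) 2
    norm_num at this ⊢; linarith
  have k3 : v ^ 2 * (t + w) ^ 2 ≤ v ^ 2 * (168 / 100000) := mul_le_mul_of_nonneg_left tpw v2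
  have k4 : g * t ≤ g * (2753 / 100000) := mul_le_mul_of_nonneg_left b.t2 g0
  have k5 : t ^ 2 * t ≤ t ^ 2 * (2753 / 100000) := mul_le_mul_of_nonneg_left b.t2 (sq_nonneg t)
  have k6 : w ^ 2 * t ≤ w ^ 2 * (2753 / 100000) := mul_le_mul_of_nonneg_left b.t2 w2
  have k7 : v ^ 2 * t ≤ v ^ 2 * (2753 / 100000) := mul_le_mul_of_nonneg_left b.t2 v2
  have k8 : g * w ≤ g * (1335 / 100000) := mul_le_mul_of_nonneg_left b.w1 g0
  have k9 : v ^ 2 * w ≤ v ^ 2 * (1335 / 100000) := mul_le_mul_of_nonneg_left b.w1 v2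
  have k10 : v * (t + w) * w ≤ 4088 / 100000 * ((v ^ 2 + w ^ 2) / 2) := by
    have e1 : v * w ≤ (v ^ 2 + w ^ 2) / 2 := by nlinarith [sq_nonneg (v - w)]
    have e2 : v * (t + w) * w = (t + w) * (v * w) := by ring
    rw [e2]
    exact mul_le_mul (by linarith [b.t2, b.w1]) e1 (by positivity) (by norm_num)
  have k11 : g * v ≤ g * (505 / 100000) := mul_le_mul_of_nonneg_left b.v1 g0
  -- chord
  have k12 : t ^ 2 ≤ 5189 / 100000 * t - 67063 / 100000000 := by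
    have := mul_nonneg (sub_nonneg.mpr b.t1) (sub_nonneg.mpr b.t2)
    linarith
  clear tt vv tpw
  linarith

/-- collected relations -/
structure NR (t w v g Θ x1 : ℝ) : Prop where
  b : BN t w v g
  Θ0 : 0 ≤ Θ
  l1 : 24426 / 1000000 + 189 / 1000 * g + 178 / 10 * w ^ 2 ≤ t
  l2 : Θ ≤ 764 / 100000 - 47 / 100 * g - 445 / 10 * w ^ 2
  l3 : v ≤ 526 / 1000 * Θ + 168 / 1000 * g
  l4 : |x1| ≤ 643 / 1000 * Θ + 3864 / 10000 * g + 243 / 10000 * v
  l5 : 28665 / 10000 * t ≤ 7779 / 100000 - Θ + 6484 / 1000 * w ^ 2 + 712 / 10000 * g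

theorem Co.nr {t : ℝ} {r : ℕ → ℝ} {B : ℕ → ℂ} {x1 x2 y1 y2 w v d0 d1 d2 d3 g : ℝ}
    (c : Co t r B x1 x2 y1 y2 w v d0 d1 d2 d3 g) (h : Cf t r B) (b : BN t w v g)
    (hS : S4c t w v g) (htn : ∀ k, 0 ≤ tn r B k) :
    NR t w v g (tn r B 0 + tn r B 1 + tn r B 2 + tn r B 3) x1 := by
  have a1 := t_lower b hS
  have a2 := c.theta h b.bx
  have a3 := c.v_le h b.bx htn
  have a4 := c.x1_le h b.bx htn
  have n0 := htn 0
  have n1 := htn 1
  have n2 := htn 2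
  have n3 := htn 3
  have v2 : 0 ≤ v ^ 2 := sq_nonneg v
  have vv : v ^ 2 ≤ 256 / 10000000 := by nlinarith [b.v1, b.v0]
  have w2 : 0 ≤ w ^ 2 := sq_nonneg w
  have g0 := b.g0
  exact ⟨b, by linarith, by linarith, by linarith, a3, a4, by linarith⟩

end Rein83
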