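import Pool.Agent.Rein83.FinN5

set_option autoImplicit false

/-! Near stage: lower bounds for `pcrx`, `pcry`. -/

namespace Rein83

open Complex Finset Rein69

namespace N7Aux

lemma cs_sq : cs ^ 2 = 1 / 2 + Real.sqrt 3 / 4 := by
  have h2 : Real.sqrt 2 * Real.sqrt 2 = 2 := Real.mul_self_sqrt (by norm_num)
  have h3 := sq3
  unfold cs
  rw [sqrt6_eq]
  linear_combination ((Real.sqrt 3 * Real.sqrt 3 + 2 * Real.sqrt 3 + 1) / 16) * h2 + (1 / 8) * h3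

lemma sn_sq : sn ^ 2 = 1 / 2 - Real.sqrt 3 / 4 := by
  have h2 : Real.sqrt 2 * Real.sqrt 2 = 2 := Real.mul_self_sqrt (by norm_num)
  have h3 := sq3
  unfold sn
  rw [sqrt6_eq]
  linear_combination ((Real.sqrt 3 * Real.sqrt 3 - 2 * Real.sqrt 3 + 1) / 16) * h2 + (1 / 8) * h3

lemma conj_e1_ob : (starRingEnd ℂ) e1 * ob = ⟨sn, -cs⟩ := by
  have k1 := sqrt3_mul_sn
  have k2 := sqrt3_mul_cs
  apply Complex.ext
  · simp only [e1, ob, mul_re, conj_re, conj_im]; linarith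
  · simp only [e1, ob, mul_im, conj_re, conj_im]; linarith

end N7Aux

open N7Aux

/-- real form of `pcrx` -/
lemma pcrx_re (r r' r'' a b a' b' a'' b'' : ℝ) :
    pcrx r ⟨a, b⟩ r' ⟨a', b'⟩ r'' ⟨a'', b''⟩ =
      (2 * cs - sn) * (r * r' + r' * r'') - 3 / 2 * (r * r'') - Real.sqrt 3 * r' ^ 2
      + r * ((2 * cs - sn) * a' - (cs - 2 * sn) * b' - Real.sqrt 3 * b'')
      + r' * ((cs - 2 * sn) * (a - a'') + (2 * cs - sn) * (b + b''))
      - r'' * (Real.sqrt 3 * b + (2 * cs - sn) * a' + (cs - 2 * sn) * b')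
      + (cs - 2 * sn) * (a * a' + b * b' + a' * a'' + b' * b'')
      - (2 * cs - sn) * (a * b' - b * a' + a' * b'' - b' * a'')
      - 3 / 2 * (a * a'' + b * b'') - Real.sqrt 3 / 2 * (a * b'' - b * a'')
      + Real.sqrt 3 * (a' ^ 2 + b' ^ 2) := by
  have k1 := sqrt3_mul_sn
  have k2 := sqrt3_mul_cs
  have k3 := sq3
  have k4 := sn_mul_cs
  have k5 := sn_sq
  have k6 := cs_sq
  have hU : (e1 * ((r'' : ℂ) + ob * ⟨a'', b''⟩) - ((r' : ℂ) + om * ⟨a', b'⟩))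
      - (z3b * (e1 * ((r'' : ℂ) - ⟨a'', b''⟩) - ((r' : ℂ) + ob * ⟨a', b'⟩))) =
      ⟨(cs + sn) * r'' + (cs - 2 * sn) * a'' - (sn - 2 * cs) * b'' - 3 / 2 * (r' + a')
          + Real.sqrt 3 / 2 * b',
        (sn + cs) * r'' + (cs - 2 * sn) * b'' + (sn - 2 * cs) * a'' - 3 / 2 * b'
          - Real.sqrt 3 / 2 * (r' + a')⟩ := by
    apply Complex.ext
    · simp only [e1, ob, om, z3b, add_re, sub_re, mul_re, add_im, sub_im, mul_im, ofReal_re,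
        ofReal_im]
      linear_combination (1 * a'' + (-1/2) * r'') * k1 + (1 * b'') * k2 + ((-1/4) * a') * k3
    · simp only [e1, ob, om, z3b, add_re, sub_re, mul_re, add_im, sub_im, mul_im, ofReal_re,
        ofReal_im]
      linear_combination (1 * b'') * k1 + ((-1) * a'' + (1/2) * r'') * k2 + ((-1/4) * b') * k3
  have hV : z3 * (((r' : ℂ) - ⟨a', b'⟩) - (starRingEnd ℂ) e1 * ((r : ℂ) + ob * ⟨a, b⟩)) =
      ⟨-1 / 2 * (r' - a') + Real.sqrt 3 / 2 * b' + sn * r - (cs - sn) * a + (cs - sn) * b,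
        Real.sqrt 3 / 2 * (r' - a') + 1 / 2 * b' - cs * r - (cs - sn) * a - (cs - sn) * b⟩ := by
    have e : z3 * (((r' : ℂ) - ⟨a', b'⟩) - (starRingEnd ℂ) e1 * ((r : ℂ) + ob * ⟨a, b⟩)) =
        z3 * (((r' : ℂ) - ⟨a', b'⟩) - ((starRingEnd ℂ) e1 * (r : ℂ)
          + ((starRingEnd ℂ) e1 * ob) * ⟨a, b⟩)) := by ring
    rw [e, conj_e1_ob]
    apply Complex.ext
    · simp only [e1, z3, add_re, sub_re, mul_re, add_im, sub_im, mul_im, ofReal_re,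
        ofReal_im, conj_re, conj_im]
      linear_combination ((1/2) * b + (-1/2) * r) * k1 + ((-1/2) * a) * k2
    · simp only [e1, z3, add_re, sub_re, mul_re, add_im, sub_im, mul_im, ofReal_re,
        ofReal_im, conj_re, conj_im]
      linear_combination ((-1/2) * a) * k1 + ((-1/2) * b + (-1/2) * r) * k2
  unfold pcrx
  rw [hU, hV]
  simp only [cr]
  linear_combination ((1/2) * a * a' + (1/2) * a * b' + (1/2) * a * r' + 1 * a' * a'' + (-1/2) * a' * b + (1/2) * a' * b'' + (1/2) * a' * r + (-1/2) * a' * r'' + (-1/2) * a'' * b' + (-1) * a'' * r' + (1/2) * b * b' + (-1/2) * b * r' + 1 * b' * b'' + (-1/2) * b' * r'' + (-1/2) * b'' * r' + (1/2) * r * r' + (1/2) * r' * r'') * k1 +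
    ((-1/2) * a * a' + (-1/2) * a * b' + (-1/2) * a * r' + (-1/2) * a' * a'' + (1/2) * a' * b + (-1) * a' * b'' + (-1/2) * a' * r'' + 1 * a'' * b' + (1/2) * a'' * r' + (-1/2) * b * b' + (1/2) * b * r' + (-1/2) * b' * b'' + (-1/2) * b' * r + (-1/2) * b' * r'' + 1 * b'' * r' + (1/2) * r' * r'') * k2 +
    ((1/2) * b' * r') * k3 +
    (6 * a * a'' + 4 * a'' * r + 6 * b * b'' + (-2) * r * r'') * k4 +
    ((-3) * a * a'' + 1 * a * b'' + (-1) * a'' * b + (-1) * a'' * r + (-3) * b * b'' + 2 * b * r'' + 2 * b'' * r + (-1) * r * r'') * k5 +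
    ((-3) * a * a'' + (-1) * a * b'' + 1 * a'' * b + (-1) * a'' * r + (-3) * b * b'' + (-2) * b * r'' + (-2) * b'' * r + (-1) * r * r'') * k6

/-- `pcry` is `pcrx` with the sign of `B` changed -/
lemma pcry_eq (r r' r'' : ℝ) (B B' B'' : ℂ) :
    pcry r B r' B' r'' B'' = pcrx r (-B) r' (-B') r'' (-B'') := by
  have k1 := sqrt3_mul_sn
  have k2 := sqrt3_mul_cs
  have k3 := sq3
  have k4 := sn_mul_cs
  have k5 := sn_sq
  have k6 := cs_sq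
  obtain ⟨a, b⟩ := B
  obtain ⟨a', b'⟩ := B'
  obtain ⟨a'', b''⟩ := B''
  have n0 : -(⟨a, b⟩ : ℂ) = ⟨-a, -b⟩ := rfl
  have n1 : -(⟨a', b'⟩ : ℂ) = ⟨-a', -b'⟩ := rfl
  have n2 : -(⟨a'', b''⟩ : ℂ) = ⟨-a'', -b''⟩ := rfl
  rw [n0, n1, n2, pcrx_re]
  have hU : z3 * (e1 * ((r' : ℂ) + om * ⟨a', b'⟩) - ((r : ℂ) - ⟨a, b⟩))
      - (e1 * ((r' : ℂ) + ob * ⟨a', b'⟩) - ((r : ℂ) + om * ⟨a, b⟩)) =
      ⟨(sn - 2 * cs) * (r' + a') - (cs - 2 * sn) * b' + 3 / 2 * r - Real.sqrt 3 * b,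
        (sn - 2 * cs) * b' + (cs - 2 * sn) * (r' + a') - Real.sqrt 3 / 2 * r
          + Real.sqrt 3 * a⟩ := by
    have e : z3 * (e1 * ((r' : ℂ) + om * ⟨a', b'⟩) - ((r : ℂ) - ⟨a, b⟩))
      - (e1 * ((r' : ℂ) + ob * ⟨a', b'⟩) - ((r : ℂ) + om * ⟨a, b⟩)) =
      z3 * (e1 * (r' : ℂ) + (e1 * om) * ⟨a', b'⟩ - ((r : ℂ) - ⟨a, b⟩))
      - (e1 * ((r' : ℂ) + ob * ⟨a', b'⟩) - ((r : ℂ) + om * ⟨a, b⟩)) := by ring
    rw [e, e1_om]
    apply Complex.ext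
    · simp only [e1, ob, om, z3, add_re, sub_re, mul_re, add_im, sub_im, mul_im, ofReal_re,
        ofReal_im]
      linear_combination ((-1/2) * a' + (-1/2) * b' + (-1/2) * r') * k1 +
        ((-1/2) * a' + (-1/2) * b') * k2
    · simp only [e1, ob, om, z3, add_re, sub_re, mul_re, add_im, sub_im, mul_im, ofReal_re,
        ofReal_im]
      linear_combination ((1/2) * a' + (-1/2) * b') * k1 +
        ((1/2) * a' + (-1/2) * b' + (1/2) * r') * k2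
  have hV : z3b * (e2 * ((r'' : ℂ) + om * ⟨a'', b''⟩) - e1 * ((r' : ℂ) - ⟨a', b'⟩)) =
      ⟨Real.sqrt 3 / 2 * a'' + 1 / 2 * b'' + sn * (r' - a') + cs * b',
        -r'' + Real.sqrt 3 / 2 * b'' - 1 / 2 * a'' + cs * (r' - a') - sn * b'⟩ := by
    have e : z3b * (e2 * ((r'' : ℂ) + om * ⟨a'', b''⟩) - e1 * ((r' : ℂ) - ⟨a', b'⟩)) =
        z3b * (e2 * (r'' : ℂ) + (e2 * om) * ⟨a'', b''⟩ - e1 * ((r' : ℂ) - ⟨a', b'⟩)) := by ring
    rw [e, e2_om]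
    apply Complex.ext
    · simp only [e1, e2, z3b, add_re, sub_re, mul_re, add_im, sub_im, mul_im, ofReal_re,
        ofReal_im]
      linear_combination ((1/2) * a' + (-1/2) * r') * k1 + ((1/2) * b') * k2
    · simp only [e1, e2, z3b, add_re, sub_re, mul_re, add_im, sub_im, mul_im, ofReal_re,
        ofReal_im]
      linear_combination ((1/2) * b') * k1 + ((-1/2) * a' + (1/2) * r') * k2 +
        ((-1/4) * r'') * k3
  unfold pcry
  rw [hU, hV]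
  simp only [cr]
  linear_combination (1 * a * a' + (-1) * a * r' + 1 * a' * a'' + (1/2) * a' * b'' + (-1/2) * a' * r + (-1/2) * a'' * b' + 1 * a'' * r' + 1 * b * b' + 1 * b' * b'' + (1/2) * b'' * r' + (1/2) * r * r') * k1 +
    ((-1) * a * b' + (-1/2) * a' * a'' + 1 * a' * b + (-1) * a' * b'' + 1 * a'' * b' + (-1/2) * a'' * r' + (-1) * b * r' + (-1/2) * b' * b'' + (1/2) * b' * r + (-1) * b'' * r') * k2 +
    ((-1/2) * a * a'' + (1/4) * a'' * r + (-1/2) * b * b'') * k3 +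
    (8 * b' * r') * k4 +
    ((-2) * a' ^ 2 + (-2) * b' * r' + (-2) * b' ^ 2 + 2 * r' ^ 2) * k5 +
    (2 * a' ^ 2 + (-2) * b' * r' + 2 * b' ^ 2 + (-2) * r' ^ 2) * k6

namespace N7Aux

/-- the quadratic part -/
noncomputable def QQ (a b a' b' a'' b'' : ℝ) : ℝ :=
  (cs - 2 * sn) * (a * a' + b * b' + a' * a'' + b' * b'')
  - (2 * cs - sn) * (a * b' - b * a' + a' * b'' - b' * a'')
  - 3 / 2 * (a * a'' + b * b'') - Real.sqrt 3 / 2 * (a * b'' - b * a'')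
  + Real.sqrt 3 * (a' ^ 2 + b' ^ 2)

lemma QQ_ge (a b a' b' a'' b'' : ℝ) :
    -(Real.sqrt 3 * (a ^ 2 + b ^ 2 + a'' ^ 2 + b'' ^ 2)) ≤ QQ a b a' b' a'' b'' := by
  have k1 := sqrt3_mul_sn
  have k2 := sqrt3_mul_cs
  have k3 := sq3
  have k7 := sn_sq_add_cs_sq
  have e : QQ a b a' b' a'' b'' + Real.sqrt 3 * (a ^ 2 + b ^ 2 + a'' ^ 2 + b'' ^ 2) =
      Real.sqrt 3 / 2 * ((a + sn * a' - cs * b') ^ 2 + (b + sn * b' + cs * a') ^ 2)
      + Real.sqrt 3 / 2 * ((a' + sn * a'' - cs * b'') ^ 2 + (b' + sn * b'' + cs * a'') ^ 2)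
      + Real.sqrt 3 / 2 * ((a - Real.sqrt 3 / 2 * a'' - 1 / 2 * b'') ^ 2
        + (b - Real.sqrt 3 / 2 * b'' + 1 / 2 * a'') ^ 2) := by
    unfold QQ
    linear_combination (-(a * a' + b * b' + a' * a'' + b' * b'')) * k1
      + (a * b' - b * a' + a' * b'' - b' * a'') * k2
      - (Real.sqrt 3 / 2 * (a' ^ 2 + b' ^ 2 + a'' ^ 2 + b'' ^ 2)) * k7
      + (1 / 2 * (a * a'' + b * b'') - Real.sqrt 3 / 8 * (a'' ^ 2 + b'' ^ 2)) * k3
  have h0 : 0 ≤ Real.sqrt 3 := Real.sqrt_nonneg 3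
  have : 0 ≤ QQ a b a' b' a'' b'' + Real.sqrt 3 * (a ^ 2 + b ^ 2 + a'' ^ 2 + b'' ^ 2) := by
    rw [e]; positivity
  linarith

lemma QQ_shift (t a b a' b' a'' b'' : ℝ) :
    QQ (t + a) b (t + a') b' (t + a'') b'' =
      (2 * (cs - 2 * sn) - 3 / 2 + Real.sqrt 3) * t ^ 2
      + t * ((cs - 2 * sn - 3 / 2) * (a + a'') + (2 * (cs - 2 * sn) + 2 * Real.sqrt 3) * a'
        + ((2 * cs - sn) + Real.sqrt 3 / 2) * (b - b''))
      + QQ a b a' b' a'' b'' := by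
  unfold QQ; ring

lemma QQ_neg (a b a' b' a'' b'' : ℝ) :
    QQ (-a) (-b) (-a') (-b') (-a'') (-b'') = QQ a b a' b' a'' b'' := by
  unfold QQ; ring

lemma lin2 {α β x y X Y A D : ℝ} (hx : |x| ≤ X) (hy : |y| ≤ Y) (hα : |α| ≤ A) (hβ : |β| ≤ D) :
    |α * x + β * y| ≤ A * X + D * Y := by
  refine (abs_add_le _ _).trans ?_
  rw [abs_mul, abs_mul]
  exact add_le_add (mul_le_mul hα hx (abs_nonneg _) ((abs_nonneg _).trans hα))
    (mul_le_mul hβ hy (abs_nonneg _) ((abs_nonneg _).trans hβ))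

lemma P_ge : (16730314 : ℝ) / 10000000 ≤ 2 * cs - sn := by
  linarith [cs_ge, sn_le]
lemma P_le : 2 * cs - sn ≤ (16730328 : ℝ) / 10000000 := by
  linarith [cs_le, sn_ge]
lemma m_ge : (4482857 : ℝ) / 10000000 ≤ cs - 2 * sn := by
  linarith [cs_ge, sn_le]
lemma m_le : cs - 2 * sn ≤ (4482879 : ℝ) / 10000000 := by
  linarith [cs_le, sn_ge]
lemma s3_ge : (17320508 : ℝ) / 10000000 ≤ Real.sqrt 3 := Real.le_sqrt_of_sq_le (by norm_num)
lemma s3_le : Real.sqrt 3 ≤ (17320509 : ℝ) / 10000000 :=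
  Real.sqrt_le_iff.2 ⟨by norm_num, by norm_num⟩

lemma core1 {r r' r'' a b a' b' a'' b'' d' K1 : ℝ} (h : 1 ≤ r) (h' : 1 ≤ r') (h'' : 1 ≤ r'')
    (hu : r ≤ 101 / 100) (hu1 : r' ≤ 101 / 100) (hu'' : r'' ≤ 101 / 100)
    (hu' : r' - 1 ≤ (d' + 26 / 10000) / 2) (ha' : |a'| ≤ 51 / 1000) (hb : |b| ≤ 2345 / 100000)
    (hb' : |b'| ≤ 2345 / 100000) (hb'' : |b''| ≤ 2345 / 100000) (haa : |a - a''| ≤ 202 / 10000)
    (hL : |(cs - 2 * sn) * (a - a'') - (Real.sqrt 3 - (2 * cs - sn)) * (b + b'')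
      - 2 * (cs - 2 * sn) * b'| ≤ K1) :
    114 / 1000 - K1 - 1128 / 10000 * d' - 3 / 10000 + QQ a b a' b' a'' b'' ≤
      pcrx r ⟨a, b⟩ r' ⟨a', b'⟩ r'' ⟨a'', b''⟩ := by
  have p1 := P_ge
  have p2 := P_le
  have m1 := m_ge
  have m2 := m_le
  have q1 := s3_ge
  have q2 := s3_le
  rw [pcrx_re]
  set P := 2 * cs - sn with hP
  set m := cs - 2 * sn with hm
  set q := Real.sqrt 3 with hq
  obtain ⟨u, hu0⟩ : ∃ u, u = r - 1 := ⟨_, rfl⟩
  obtain ⟨u', hu0'⟩ : ∃ u, u = r' - 1 := ⟨_, rfl⟩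
  obtain ⟨u'', hu0''⟩ : ∃ u, u = r'' - 1 := ⟨_, rfl⟩
  have er : r = 1 + u := by linarith
  have er' : r' = 1 + u' := by linarith
  have er'' : r'' = 1 + u'' := by linarith
  have n0 : 0 ≤ u := by linarith
  have n1 : 0 ≤ u' := by linarith
  have n2 : 0 ≤ u'' := by linarith
  have l0 : u ≤ 1 / 100 := by linarith
  have l1 : u' ≤ 1 / 100 := by linarith
  have l2 : u'' ≤ 1 / 100 := by linarith
  have aP : |P| ≤ 16730328 / 10000000 := by rw [abs_of_pos (by linarith)]; exact p2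
  have am : |m| ≤ 4482879 / 10000000 := by rw [abs_of_pos (by linarith)]; exact m2
  have aq : |q| ≤ 17320509 / 10000000 := by rw [abs_of_pos (by linarith)]; exact q2
  have am' : |-m| ≤ 4482879 / 10000000 := by rw [abs_neg]; exact am
  have aq' : |-q| ≤ 17320509 / 10000000 := by rw [abs_neg]; exact aq
  -- the coefficients of the linear part
  have c0 : |P * a' - m * b' - q * b''| ≤ 14 / 100 := by
    have e : P * a' - m * b' - q * b'' = (P * a' + (-m) * b') + (-q) * b'' := by ring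
    rw [e]
    have f1 := lin2 ha' hb' aP am'
    have f2 := abs_add_le (P * a' + (-m) * b') ((-q) * b'')
    have f3 : |(-q) * b''| ≤ 17320509 / 10000000 * (2345 / 100000) := by
      rw [abs_mul]; exact mul_le_mul aq' hb'' (abs_nonneg _) (by norm_num)
    linarith
  have c1 : |m * (a - a'') + P * (b + b'')| ≤ 9 / 100 := by
    have f0 : |b + b''| ≤ 2345 / 50000 := by
      have := abs_add_le b b''
      linarith
    have f1 := lin2 haa f0 am aP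
    linarith
  have c2 : |q * b + P * a' + m * b'| ≤ 14 / 100 := by
    have f1 := lin2 ha' hb' aP am
    have f2 := abs_add_le (q * b) (P * a' + m * b')
    have f3 : |q * b| ≤ 17320509 / 10000000 * (2345 / 100000) := by
      rw [abs_mul]; exact mul_le_mul aq hb (abs_nonneg _) (by norm_num)
    rw [← add_assoc] at f2
    linarith
  have g0 : -(14 / 100 * u) ≤ u * (P * a' - m * b' - q * b'') := by
    have := mul_le_mul_of_nonneg_left (abs_le.mp c0).1 n0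
    linarith
  have g1 : -(9 / 100 * u') ≤ u' * (m * (a - a'') + P * (b + b'')) := by
    have := mul_le_mul_of_nonneg_left (abs_le.mp c1).1 n1
    linarith
  have g2 : u'' * (q * b + P * a' + m * b') ≤ 14 / 100 * u'' := by
    have := mul_le_mul_of_nonneg_left (abs_le.mp c2).2 n2
    linarith
  have g3 := (abs_le.mp hL).1
  -- quadratic terms
  have t1 : u * u'' ≤ 1 / 100 * u'' := mul_le_mul_of_nonneg_right l0 n2
  have t2 : u * u'' ≤ u * (1 / 100) := mul_le_mul_of_nonneg_left l2 n0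
  have t3 : q * (u' * u') ≤ 17320509 / 10000000 * (1 / 100 * u') :=
    mul_le_mul q2 (mul_le_mul_of_nonneg_right l1 n1) (by positivity) (by norm_num)
  have t4 : 0 ≤ P * (u * u' + u' * u'') := mul_nonneg (by linarith) (by positivity)
  have t5 : 173 / 1000 * (u + u'') ≤ (P - 3 / 2) * (u + u'') :=
    mul_le_mul_of_nonneg_right (by linarith) (by linarith)
  have t6 : -(1181 / 10000 * u') ≤ (2 * P - 2 * q) * u' := by
    have := mul_le_mul_of_nonneg_right (show -(1181 / 10000) ≤ 2 * P - 2 * q by linarith) n1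
    linarith
  have e : P * (r * r' + r' * r'') - 3 / 2 * (r * r'') - q * r' ^ 2
      + r * (P * a' - m * b' - q * b'')
      + r' * (m * (a - a'') + P * (b + b''))
      - r'' * (q * b + P * a' + m * b')
      + m * (a * a' + b * b' + a' * a'' + b' * b'')
      - P * (a * b' - b * a' + a' * b'' - b' * a'')
      - 3 / 2 * (a * a'' + b * b'') - q / 2 * (a * b'' - b * a'')
      + q * (a' ^ 2 + b' ^ 2) =
      (2 * P - 3 / 2 - q) + (P - 3 / 2) * (u + u'') + (2 * P - 2 * q) * u'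
      + P * (u * u' + u' * u'') - 3 / 2 * (u * u'') - q * (u' * u')
      + (m * (a - a'') - (q - P) * (b + b'') - 2 * m * b')
      + u * (P * a' - m * b' - q * b'') + u' * (m * (a - a'') + P * (b + b''))
      - u'' * (q * b + P * a' + m * b') + QQ a b a' b' a'' b'' := by
    rw [er, er', er'']; unfold QQ; ring
  rw [e]
  linarith

lemma core {r r' r'' a b a' b' a'' b'' d' K1 : ℝ} (h : 1 ≤ r) (h' : 1 ≤ r') (h'' : 1 ≤ r'')
    (hu : r ≤ 101 / 100) (hu1 : r' ≤ 101 / 100) (hu'' : r'' ≤ 101 / 100)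
    (hu' : r' - 1 ≤ (d' + 26 / 10000) / 2) (ha' : |a'| ≤ 51 / 1000) (hb : |b| ≤ 2345 / 100000)
    (hb' : |b'| ≤ 2345 / 100000) (hb'' : |b''| ≤ 2345 / 100000) (haa : |a - a''| ≤ 202 / 10000)
    (hL : |(cs - 2 * sn) * (a - a'') - (Real.sqrt 3 - (2 * cs - sn)) * (b + b'')
      - 2 * (cs - 2 * sn) * b'| ≤ K1) {K : ℝ}
    (hK : K ≤ 114 / 1000 - K1 - 1128 / 10000 * d' - 3 / 10000 + QQ a b a' b' a'' b'') :
    K ≤ pcrx r ⟨a, b⟩ r' ⟨a', b'⟩ r'' ⟨a'', b''⟩ ∧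
    K ≤ pcry r ⟨a, b⟩ r' ⟨a', b'⟩ r'' ⟨a'', b''⟩ := by
  refine ⟨hK.trans (core1 h h' h'' hu hu1 hu'' hu' ha' hb hb' hb'' haa hL), ?_⟩
  rw [pcry_eq]
  have n0 : -(⟨a, b⟩ : ℂ) = ⟨-a, -b⟩ := rfl
  have n1 : -(⟨a', b'⟩ : ℂ) = ⟨-a', -b'⟩ := rfl
  have n2 : -(⟨a'', b''⟩ : ℂ) = ⟨-a'', -b''⟩ := rfl
  rw [n0, n1, n2]
  rw [← QQ_neg] at hK
  refine hK.trans (core1 h h' h'' hu hu1 hu'' hu' (by rwa [abs_neg]) (by rwa [abs_neg])
    (by rwa [abs_neg]) (by rwa [abs_neg]) ?_ ?_)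
  · have e : -a - -a'' = -(a - a'') := by ring
    rw [e, abs_neg]; exact haa
  · have e : (cs - 2 * sn) * (-a - -a'') - (Real.sqrt 3 - (2 * cs - sn)) * (-b + -b'')
        - 2 * (cs - 2 * sn) * -b' = -((cs - 2 * sn) * (a - a'')
        - (Real.sqrt 3 - (2 * cs - sn)) * (b + b'') - 2 * (cs - 2 * sn) * b') := by ring
    rw [e, abs_neg]; exact hL

/-- the final numerical inequality -/
lemma fin_num {t w v g Θ x1 : ℝ} (n : NR t w v g Θ x1) {L2 Q d' : ℝ} (hd : d' ≤ g)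
    (hL2 : |L2| ≤ 64642 / 10000 * |x1| + 10157 / 1000 * v)
    (hQ : (2 * (cs - 2 * sn) - 3 / 2 + Real.sqrt 3) * t ^ 2 + t * L2
      - Real.sqrt 3 * (2 * w ^ 2 + 8 * v ^ 2) ≤ Q) :
    1 / 10 ≤ 114 / 1000 - (7786 / 10000 * w + 17932 / 10000 * v) - 1128 / 10000 * d'
      - 3 / 10000 + Q := by
  have b := n.b
  have m1 := m_ge
  have q1 := s3_ge
  have q2 := s3_le
  have t0 : 0 ≤ t := by linarith [b.t1]
  have g0 := b.g0
  have v0 := b.v0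
  have w0 := b.w0
  have hx0 := abs_nonneg x1
  have l1 := n.l1
  have l2 := n.l2
  have l3 := n.l3
  have l4 := n.l4
  have w2 : 0 ≤ w ^ 2 := sq_nonneg w
  have v2 : 0 ≤ v ^ 2 := sq_nonneg v
  have tt : 5966 / 10000000 ≤ t ^ 2 := by
    have h1 : 24426 / 1000000 ≤ t := by nlinarith
    have := pow_le_pow_left₀ (by norm_num : (0 : ℝ) ≤ 24426 / 1000000) h1 2
    norm_num at this ⊢; linarith
  have f1 : 11286 / 10000 * (5966 / 10000000) ≤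
      (2 * (cs - 2 * sn) - 3 / 2 + Real.sqrt 3) * t ^ 2 :=
    mul_le_mul (by linarith) tt (by norm_num) (by linarith)
  have f2 : -(2753 / 100000 * (64642 / 10000 * |x1| + 10157 / 1000 * v)) ≤ t * L2 := by
    have h1 : |t * L2| ≤ 2753 / 100000 * (64642 / 10000 * |x1| + 10157 / 1000 * v) := by
      rw [abs_mul, abs_of_nonneg t0]
      exact mul_le_mul b.t2 hL2 (abs_nonneg _) (by norm_num)
    exact (abs_le.mp h1).1
  have f3 : Real.sqrt 3 * (2 * w ^ 2 + 8 * v ^ 2) ≤ 17320509 / 10000000 * (2 * w ^ 2 + 8 * v ^ 2) :=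
    mul_le_mul_of_nonneg_right q2 (by positivity)
  have f4 : v ^ 2 ≤ 505 / 100000 * v := by
    rw [sq]; exact mul_le_mul_of_nonneg_right b.v1 v0
  have f5 : 0 ≤ (w - 75 / 10000) ^ 2 := sq_nonneg _
  have f6 : w ^ 2 - 15 / 1000 * w + 5625 / 100000000 ≥ 0 := by linarith
  linarith

lemma QQ_low {t a b a' b' a'' b'' L2 Z : ℝ}
    (hL2 : L2 = (cs - 2 * sn - 3 / 2) * ((a - t) + (a'' - t))
      + (2 * (cs - 2 * sn) + 2 * Real.sqrt 3) * (a' - t)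
      + ((2 * cs - sn) + Real.sqrt 3 / 2) * (b - b''))
    (hZ : (a - t) ^ 2 + b ^ 2 + (a'' - t) ^ 2 + b'' ^ 2 ≤ Z) :
    (2 * (cs - 2 * sn) - 3 / 2 + Real.sqrt 3) * t ^ 2 + t * L2 - Real.sqrt 3 * Z ≤
      QQ a b a' b' a'' b'' := by
  have h1 := QQ_shift t (a - t) b (a' - t) b' (a'' - t) b''
  have e0 : t + (a - t) = a := by ring
  have e1 : t + (a' - t) = a' := by ring
  have e2 : t + (a'' - t) = a'' := by ring
  rw [e0, e1, e2, ← hL2] at h1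
  have h2 := QQ_ge (a - t) b (a' - t) b' (a'' - t) b''
  have h3 := mul_le_mul_of_nonneg_left hZ (Real.sqrt_nonneg 3)
  rw [h1]
  linarith

lemma node {t w v g Θ x1 : ℝ} (n : NR t w v g Θ x1) {r r' r'' a b a' b' a'' b'' d' L2 : ℝ}
    (h : 1 ≤ r) (h' : 1 ≤ r') (h'' : 1 ≤ r'')
    (hu : r ≤ 101 / 100) (hu1 : r' ≤ 101 / 100) (hu'' : r'' ≤ 101 / 100)
    (hu' : r' - 1 ≤ (d' + 26 / 10000) / 2) (ha' : |a'| ≤ 51 / 1000) (hb : |b| ≤ 2345 / 100000)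
    (hb' : |b'| ≤ 2345 / 100000) (hb'' : |b''| ≤ 2345 / 100000) (haa : |a - a''| ≤ 202 / 10000)
    (hd : d' ≤ g)
    (hL : |(cs - 2 * sn) * (a - a'') - (Real.sqrt 3 - (2 * cs - sn)) * (b + b'')
      - 2 * (cs - 2 * sn) * b'| ≤ 7786 / 10000 * w + 17932 / 10000 * v)
    (hL2e : L2 = (cs - 2 * sn - 3 / 2) * ((a - t) + (a'' - t))
      + (2 * (cs - 2 * sn) + 2 * Real.sqrt 3) * (a' - t)
      + ((2 * cs - sn) + Real.sqrt 3 / 2) * (b - b''))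
    (hL2 : |L2| ≤ 64642 / 10000 * |x1| + 10157 / 1000 * v)
    (hZ : (a - t) ^ 2 + b ^ 2 + (a'' - t) ^ 2 + b'' ^ 2 ≤ 2 * w ^ 2 + 8 * v ^ 2) :
    1 / 10 ≤ pcrx r ⟨a, b⟩ r' ⟨a', b'⟩ r'' ⟨a'', b''⟩ ∧
    1 / 10 ≤ pcry r ⟨a, b⟩ r' ⟨a', b'⟩ r'' ⟨a'', b''⟩ :=
  core h h' h'' hu hu1 hu'' hu' ha' hb hb' hb'' haa hL
    (fin_num n hd hL2 (QQ_low hL2e hZ))

lemma nsq {t w v g Θ x1 : ℝ} (n : NR t w v g Θ x1) {p q : ℝ} (h1 : p ^ 2 + q ^ 2 ≤ (w + 2 * v) ^ 2)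
    (h2 : p ≤ w + 2 * v) : (t + p) ^ 2 + q ^ 2 ≤ 26 / 10000 := by
  have b := n.b
  have t0 : 0 ≤ t := by linarith [b.t1]
  have h3 : t * p ≤ t * (w + 2 * v) := mul_le_mul_of_nonneg_left h2 t0
  have h4 : (t + (w + 2 * v)) ^ 2 ≤ (5098 / 100000) ^ 2 :=
    pow_le_pow_left₀ (by linarith [b.w0, b.v0]) (by linarith [b.t2, b.w1, b.v1]) 2
  have h5 : (t + p) ^ 2 + q ^ 2 = t ^ 2 + 2 * (t * p) + (p ^ 2 + q ^ 2) := by ring
  have h6 : (t + (w + 2 * v)) ^ 2 = t ^ 2 + 2 * (t * (w + 2 * v)) + (w + 2 * v) ^ 2 := by ring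
  rw [h5]
  rw [h6] at h4
  norm_num at h4
  linarith

lemma rbd {r d β : ℝ} (h : 1 ≤ r) (e : r ^ 2 = 1 + d + β) (hd : d ≤ 161 / 10000)
    (hβ : β ≤ 26 / 10000) : r ≤ 101 / 100 ∧ r - 1 ≤ (d + 26 / 10000) / 2 := by
  constructor
  · by_contra hlt
    push Not at hlt
    nlinarith
  · nlinarith [sq_nonneg (r - 1)]

lemma even {t w v g Θ x1 x2 y1 y2 : ℝ} (n : NR t w v g Θ x1)
    (w2 : w ^ 2 = x1 ^ 2 + x2 ^ 2) (v2 : v ^ 2 = y1 ^ 2 + y2 ^ 2)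
    (a1 : |x1| ≤ w) (a2 : |x2| ≤ w) (b1 : |y1| ≤ v) (b2 : |y2| ≤ v)
    (c1 : |x2 * y1 - x1 * y2| ≤ w * v) {r r' r'' d d' d'' : ℝ}
    (h : 1 ≤ r) (h' : 1 ≤ r') (h'' : 1 ≤ r'') (hd : d ≤ g) (hd' : d' ≤ g) (hd'' : d'' ≤ g)
    (e : r ^ 2 = 1 + d + ((t - x1) ^ 2 + x2 ^ 2))
    (e' : r' ^ 2 = 1 + d' + ((t + x1 - 2 * y2) ^ 2 + (x2 + 2 * y1) ^ 2))
    (e'' : r'' ^ 2 = 1 + d'' + ((t - x1) ^ 2 + x2 ^ 2)) :
    1 / 10 ≤ pcrx r ⟨t - x1, -x2⟩ r' ⟨t + x1 - 2 * y2, x2 + 2 * y1⟩ r'' ⟨t - x1, -x2⟩ ∧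
    1 / 10 ≤ pcry r ⟨t - x1, -x2⟩ r' ⟨t + x1 - 2 * y2, x2 + 2 * y1⟩ r'' ⟨t - x1, -x2⟩ := by
  have b := n.b
  have t0 : 0 ≤ t := by linarith [b.t1]
  have w0 := b.w0
  have v0 := b.v0
  have w1 := b.w1
  have v1 := b.v1
  have t2 := b.t2
  have g1 := b.g1
  obtain ⟨x1l, x1u⟩ := abs_le.mp a1
  obtain ⟨x2l, x2u⟩ := abs_le.mp a2
  obtain ⟨y1l, y1u⟩ := abs_le.mp b1
  obtain ⟨y2l, y2u⟩ := abs_le.mp b2
  have p1 := P_ge
  have p2 := P_le
  have m1 := m_ge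
  have m2 := m_le
  have q1 := s3_ge
  have q2 := s3_le
  have n0 : (t - x1) ^ 2 + x2 ^ 2 ≤ 26 / 10000 := by
    have hwv := mul_nonneg w0 v0
    have hv2 := sq_nonneg v
    have ez : (w + 2 * v) ^ 2 = w ^ 2 + 4 * (w * v) + 4 * v ^ 2 := by ring
    have := nsq n (p := -x1) (q := x2) (by rw [neg_sq, ← w2, ez]; linarith) (by linarith)
    rwa [← sub_eq_add_neg] at this
  have n1 : (t + x1 - 2 * y2) ^ 2 + (x2 + 2 * y1) ^ 2 ≤ 26 / 10000 := by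
    have h1 := (abs_le.mp c1).2
    have ez : (w + 2 * v) ^ 2 = w ^ 2 + 4 * (w * v) + 4 * v ^ 2 := by ring
    have ey : (x1 - 2 * y2) ^ 2 + (x2 + 2 * y1) ^ 2 =
        w ^ 2 + 4 * v ^ 2 + 4 * (x2 * y1 - x1 * y2) := by rw [w2, v2]; ring
    have := nsq n (p := x1 - 2 * y2) (q := x2 + 2 * y1) (by rw [ey, ez]; linarith) (by linarith)
    rw [← add_sub_assoc] at this
    exact this
  obtain ⟨r1, -⟩ := rbd h e (by linarith) n0
  obtain ⟨r1', r2'⟩ := rbd h' e' (by linarith) n1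
  obtain ⟨r1'', -⟩ := rbd h'' e'' (by linarith) n0
  refine node n h h' h'' r1 r1' r1'' r2' ?_ ?_ ?_ ?_ ?_ hd' ?_ rfl ?_ ?_
  · rw [abs_le]; constructor <;> linarith
  · rw [abs_le]; constructor <;> linarith
  · rw [abs_le]; constructor <;> linarith
  · rw [abs_le]; constructor <;> linarith
  · rw [sub_self, abs_zero]; norm_num
  · have ee : (cs - 2 * sn) * (t - x1 - (t - x1)) - (Real.sqrt 3 - (2 * cs - sn)) * (-x2 + -x2)
        - 2 * (cs - 2 * sn) * (x2 + 2 * y1) =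
        (2 * (Real.sqrt 3 - (2 * cs - sn)) - 2 * (cs - 2 * sn)) * x2
        + (-(4 * (cs - 2 * sn))) * y1 := by ring
    rw [ee]
    refine lin2 a2 b1 ?_ ?_
    · rw [abs_le]; constructor <;> linarith
    · rw [abs_le]; constructor <;> linarith
  · have ee : (cs - 2 * sn - 3 / 2) * (t - x1 - t + (t - x1 - t))
        + (2 * (cs - 2 * sn) + 2 * Real.sqrt 3) * (t + x1 - 2 * y2 - t)
        + (2 * cs - sn + Real.sqrt 3 / 2) * (-x2 - -x2) =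
        (2 * Real.sqrt 3 + 3) * x1 + (-(4 * (cs - 2 * sn) + 4 * Real.sqrt 3)) * y2 := by ring
    rw [ee]
    refine lin2 le_rfl b2 ?_ ?_
    · rw [abs_le]; constructor <;> linarith
    · rw [abs_le]; constructor <;> linarith
  · have : (t - x1 - t) ^ 2 + (-x2) ^ 2 + (t - x1 - t) ^ 2 + (-x2) ^ 2 = 2 * w ^ 2 := by
      rw [w2]; ring
    rw [this]
    have := sq_nonneg v
    linarith

lemma odd {t w v g Θ x1 x2 y1 y2 : ℝ} (n : NR t w v g Θ x1)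
    (w2 : w ^ 2 = x1 ^ 2 + x2 ^ 2) (v2 : v ^ 2 = y1 ^ 2 + y2 ^ 2)
    (a1 : |x1| ≤ w) (a2 : |x2| ≤ w) (b1 : |y1| ≤ v) (b2 : |y2| ≤ v)
    (c1 : |x2 * y1 - x1 * y2| ≤ w * v) {r r' r'' d d' d'' : ℝ}
    (h : 1 ≤ r) (h' : 1 ≤ r') (h'' : 1 ≤ r'') (hd : d ≤ g) (hd' : d' ≤ g) (hd'' : d'' ≤ g)
    (e : r ^ 2 = 1 + d + ((t + x1 - 2 * y2) ^ 2 + (x2 + 2 * y1) ^ 2))
    (e' : r' ^ 2 = 1 + d' + ((t - x1) ^ 2 + x2 ^ 2))
    (e'' : r'' ^ 2 = 1 + d'' + ((t + x1 + 2 * y2) ^ 2 + (x2 - 2 * y1) ^ 2)) :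
    1 / 10 ≤ pcrx r ⟨t + x1 - 2 * y2, x2 + 2 * y1⟩ r' ⟨t - x1, -x2⟩ r''
      ⟨t + x1 + 2 * y2, x2 - 2 * y1⟩ ∧
    1 / 10 ≤ pcry r ⟨t + x1 - 2 * y2, x2 + 2 * y1⟩ r' ⟨t - x1, -x2⟩ r''
      ⟨t + x1 + 2 * y2, x2 - 2 * y1⟩ := by
  have b := n.b
  have t0 : 0 ≤ t := by linarith [b.t1]
  have w0 := b.w0
  have v0 := b.v0
  have w1 := b.w1
  have v1 := b.v1
  have t2 := b.t2
  have g1 := b.g1
  obtain ⟨x1l, x1u⟩ := abs_le.mp a1
  obtain ⟨x2l, x2u⟩ := abs_le.mp a2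
  obtain ⟨y1l, y1u⟩ := abs_le.mp b1
  obtain ⟨y2l, y2u⟩ := abs_le.mp b2
  have p1 := P_ge
  have p2 := P_le
  have m1 := m_ge
  have m2 := m_le
  have q1 := s3_ge
  have q2 := s3_le
  have n0 : (t - x1) ^ 2 + x2 ^ 2 ≤ 26 / 10000 := by
    have hwv := mul_nonneg w0 v0
    have hv2 := sq_nonneg v
    have ez : (w + 2 * v) ^ 2 = w ^ 2 + 4 * (w * v) + 4 * v ^ 2 := by ring
    have := nsq n (p := -x1) (q := x2) (by rw [neg_sq, ← w2, ez]; linarith) (by linarith)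
    rwa [← sub_eq_add_neg] at this
  have n1 : (t + x1 - 2 * y2) ^ 2 + (x2 + 2 * y1) ^ 2 ≤ 26 / 10000 := by
    have h1 := (abs_le.mp c1).2
    have ez : (w + 2 * v) ^ 2 = w ^ 2 + 4 * (w * v) + 4 * v ^ 2 := by ring
    have ey : (x1 - 2 * y2) ^ 2 + (x2 + 2 * y1) ^ 2 =
        w ^ 2 + 4 * v ^ 2 + 4 * (x2 * y1 - x1 * y2) := by rw [w2, v2]; ring
    have := nsq n (p := x1 - 2 * y2) (q := x2 + 2 * y1) (by rw [ey, ez]; linarith) (by linarith)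
    rw [← add_sub_assoc] at this
    exact this
  have n2 : (t + x1 + 2 * y2) ^ 2 + (x2 - 2 * y1) ^ 2 ≤ 26 / 10000 := by
    have h1 := (abs_le.mp c1).1
    have ez : (w + 2 * v) ^ 2 = w ^ 2 + 4 * (w * v) + 4 * v ^ 2 := by ring
    have ey : (x1 + 2 * y2) ^ 2 + (x2 - 2 * y1) ^ 2 =
        w ^ 2 + 4 * v ^ 2 - 4 * (x2 * y1 - x1 * y2) := by rw [w2, v2]; ring
    have := nsq n (p := x1 + 2 * y2) (q := x2 - 2 * y1) (by rw [ey, ez]; linarith) (by linarith)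
    rw [← add_assoc] at this
    exact this
  obtain ⟨r1, -⟩ := rbd h e (by linarith) n1
  obtain ⟨r1', r2'⟩ := rbd h' e' (by linarith) n0
  obtain ⟨r1'', -⟩ := rbd h'' e'' (by linarith) n2
  refine node n h h' h'' r1 r1' r1'' r2' ?_ ?_ ?_ ?_ ?_ hd' ?_ rfl ?_ ?_
  · rw [abs_le]; constructor <;> linarith
  · rw [abs_le]; constructor <;> linarith
  · rw [abs_le]; constructor <;> linarith
  · rw [abs_le]; constructor <;> linarith
  · rw [abs_le]; constructor <;> linarith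
  · have ee : (cs - 2 * sn) * (t + x1 - 2 * y2 - (t + x1 + 2 * y2))
        - (Real.sqrt 3 - (2 * cs - sn)) * (x2 + 2 * y1 + (x2 - 2 * y1))
        - 2 * (cs - 2 * sn) * -x2 =
        (2 * (cs - 2 * sn) - 2 * (Real.sqrt 3 - (2 * cs - sn))) * x2
        + (-(4 * (cs - 2 * sn))) * y2 := by ring
    rw [ee]
    refine lin2 a2 b2 ?_ ?_
    · rw [abs_le]; constructor <;> linarith
    · rw [abs_le]; constructor <;> linarith
  · have ee : (cs - 2 * sn - 3 / 2) * (t + x1 - 2 * y2 - t + (t + x1 + 2 * y2 - t))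
        + (2 * (cs - 2 * sn) + 2 * Real.sqrt 3) * (t - x1 - t)
        + (2 * cs - sn + Real.sqrt 3 / 2) * (x2 + 2 * y1 - (x2 - 2 * y1)) =
        (-(2 * Real.sqrt 3 + 3)) * x1 + (4 * (2 * cs - sn) + 2 * Real.sqrt 3) * y1 := by ring
    rw [ee]
    refine lin2 le_rfl b1 ?_ ?_
    · rw [abs_le]; constructor <;> linarith
    · rw [abs_le]; constructor <;> linarith
  · have : (t + x1 - 2 * y2 - t) ^ 2 + (x2 + 2 * y1) ^ 2 + (t + x1 + 2 * y2 - t) ^ 2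
        + (x2 - 2 * y1) ^ 2 = 2 * w ^ 2 + 8 * v ^ 2 := by
      rw [w2, v2]; ring
    rw [this]

end N7Aux

/-- the final bounds -/
theorem crxy_ge {t : ℝ} {r : ℕ → ℝ} {B : ℕ → ℂ} {x1 x2 y1 y2 w v d0 d1 d2 d3 g Θ : ℝ}
    (c : Co t r B x1 x2 y1 y2 w v d0 d1 d2 d3 g) (h : Cf t r B) (n : NR t w v g Θ x1) (k : ℕ) :
    1 / 10 ≤ pcrx (r k) (B k) (r (k + 1)) (B (k + 1)) (r (k + 2)) (B (k + 2)) ∧
    1 / 10 ≤ pcry (r k) (B k) (r (k + 1)) (B (k + 1)) (r (k + 2)) (B (k + 2)) := by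
  have gs := c.gs
  have p0 := c.p0
  have p1 := c.p1
  have p2 := c.p2
  have p3 := c.p3
  have g0 : d0 ≤ g := by linarith
  have g1 : d1 ≤ g := by linarith
  have g2 : d2 ≤ g := by linarith
  have g3 : d3 ≤ g := by linarith
  have v2' : v ^ 2 = (-y1) ^ 2 + (-y2) ^ 2 := by rw [c.v2]; ring
  have b1' : |-y1| ≤ v := by rw [abs_neg]; exact c.b1
  have b2' : |-y2| ≤ v := by rw [abs_neg]; exact c.b2
  have c1' : |x2 * -y1 - x1 * -y2| ≤ w * v := by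
    have e : x2 * -y1 - x1 * -y2 = -(x2 * y1 - x1 * y2) := by ring
    rw [e, abs_neg]; exact c.c1
  have f1 : t + x1 - 2 * -y2 = t + x1 + 2 * y2 := by ring
  have f2 : x2 + 2 * -y1 = x2 - 2 * y1 := by ring
  have f3 : t + x1 + 2 * -y2 = t + x1 - 2 * y2 := by ring
  have f4 : x2 - 2 * -y1 = x2 + 2 * y1 := by ring
  have k0 := N7Aux.even n c.w2 c.v2 c.a1 c.a2 c.b1 c.b2 c.c1 c.r0 c.r1 c.r2 g0 g1 g2 c.e0 c.e1 c.e2
  have k1 := N7Aux.odd n c.w2 c.v2 c.a1 c.a2 c.b1 c.b2 c.c1 c.r1 c.r2 c.r3 g1 g2 g3 c.e1 c.e2 c.e3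
  have k2 := N7Aux.even n c.w2 v2' c.a1 c.a2 b1' b2' c1' c.r2 c.r3 c.r0 g2 g3 g0 c.e2
    (by rw [f1, f2]; exact c.e3) c.e0
  have k3 := N7Aux.odd n c.w2 v2' c.a1 c.a2 b1' b2' c1' c.r3 c.r0 c.r1 g3 g0 g1
    (by rw [f1, f2]; exact c.e3) c.e0 (by rw [f3, f4]; exact c.e1)
  rw [f1, f2] at k2 k3
  rw [f3, f4] at k3
  rw [← c.h0, ← c.h1] at k0
  have hh : (⟨t - x1, -x2⟩ : ℂ) = B 0 := c.h0.symm
  have hh2 : B 2 = B 0 := by rw [c.h2, c.h0]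
  rw [← c.h1, hh, ← c.h3] at k1
  rw [hh, ← c.h3] at k2
  rw [← c.h1, hh, ← c.h3] at k3
  have h4 := h.r4
  have h4' := h.B4
  have h5 := h.r5
  have h5' := h.B5
  induction k using Nat.strong_induction_on with
  | _ k ih =>
    rcases Nat.lt_or_ge k 4 with hk | hk
    · interval_cases k
      · simp only [zero_add, hh2]
        exact k0
      · norm_num
        rw [hh2]
        exact k1
      · norm_num
        rw [h4, h4', hh2]
        exact k2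
      · norm_num
        rw [h4, h4', h5, h5']
        exact k3
    · obtain ⟨j, rfl⟩ : ∃ j, k = j + 4 := ⟨k - 4, by omega⟩
      have := ih j (by omega)
      have e1 : j + 4 + 1 = (j + 1) + 4 := by ring
      have e2 : j + 4 + 2 = (j + 2) + 4 := by ring
      rw [e1, e2, h.rper, h.rper, h.rper, h.Bper, h.Bper, h.Bper]
      exact this

end Rein83
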