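import Pool.Agent.Rein83.Defs

set_option autoImplicit false

/-! Section C: algebraic identities for a pair of hexagons and an intermediate one. -/

namespace Rein83

open Complex Finset Rein69

section
variable (N : ℂ → ℝ) (φ ψ μ ν : ℝ)

lemma v_sum : v0 N φ + v2 N φ + v4 N φ = 0 := by
  unfold v0 v2 v4; ring

lemma TT_def' : TT N φ ψ = (a0 N φ ψ + a2 N φ ψ + a4 N φ ψ) / 2 := rfl

lemma G0_eq : G0 N φ ψ = 2 * (TT N φ ψ - a0 N φ ψ) := by unfold G0 TT; ring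
lemma G2_eq : G2 N φ ψ = 2 * (TT N φ ψ - a2 N φ ψ) := by unfold G2 TT; ring
lemma G4_eq : G4 N φ ψ = 2 * (TT N φ ψ - a4 N φ ψ) := by unfold G4 TT; ring
lemma G_sum : G0 N φ ψ + G2 N φ ψ + G4 N φ ψ = 2 * TT N φ ψ := by unfold G0 G2 G4 TT; ring

lemma a0_split : a0 N φ μ + a0 N μ ψ = a0 N φ ψ + H0 N φ ψ μ := by
  simp only [a0, H0, v0, cr, Complex.sub_re, Complex.sub_im]; ring
lemma a2_split : a2 N φ μ + a2 N μ ψ = a2 N φ ψ + H2 N φ ψ μ := by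
  simp only [a2, H2, v2, cr, Complex.sub_re, Complex.sub_im]; ring
lemma a4_split : a4 N φ μ + a4 N μ ψ = a4 N φ ψ + H4 N φ ψ μ := by
  simp only [a4, H4, v4, cr, Complex.sub_re, Complex.sub_im, Complex.neg_re, Complex.neg_im]; ring

lemma TT_split : TT N φ μ + TT N μ ψ = TT N φ ψ + (H0 N φ ψ μ + H2 N φ ψ μ + H4 N φ ψ μ) / 2 := by
  have h1 := a0_split N φ ψ μ
  have h2 := a2_split N φ ψ μ
  have h3 := a4_split N φ ψ μ
  unfold TT; linarith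

/-- (C1) the determinant of the intermediate hexagon -/
lemma EE_mid : C1 N φ ψ * EE N μ = (C1 N φ ψ - B1 N φ ψ μ) * EE N φ + B1 N φ ψ μ * EE N ψ
    - (C1 N φ ψ - B1 N φ ψ μ) * B1 N φ ψ μ
    + (G0 N φ ψ * H0 N φ ψ μ + G2 N φ ψ * H2 N φ ψ μ + G4 N φ ψ * H4 N φ ψ μ) / 2
    + ((H0 N φ ψ μ + H2 N φ ψ μ + H4 N φ ψ μ) ^ 2 / 2
        - (H0 N φ ψ μ ^ 2 + H2 N φ ψ μ ^ 2 + H4 N φ ψ μ ^ 2)) / 2 := by
  simp only [C1, B1, EE, G0, G2, G4, a0, a2, a4, H0, H2, H4, v0, v2, v4, cr, Complex.sub_re,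
    Complex.sub_im, Complex.neg_re, Complex.neg_im]
  ring

/-- (C2) the determinant of the difference for the two halves -/
lemma C1_left : C1 N φ ψ * C1 N φ μ = B1 N φ ψ μ ^ 2
    + ((H0 N φ ψ μ + H2 N φ ψ μ + H4 N φ ψ μ) ^ 2 / 2
        - (H0 N φ ψ μ ^ 2 + H2 N φ ψ μ ^ 2 + H4 N φ ψ μ ^ 2)) / 2 := by
  simp only [C1, B1, H0, H2, H4, v0, v2, v4, cr, Complex.sub_re,
    Complex.sub_im, Complex.neg_re, Complex.neg_im]
  ring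

lemma C1_right : C1 N φ ψ * C1 N μ ψ = (C1 N φ ψ - B1 N φ ψ μ) ^ 2
    + ((H0 N φ ψ μ + H2 N φ ψ μ + H4 N φ ψ μ) ^ 2 / 2
        - (H0 N φ ψ μ ^ 2 + H2 N φ ψ μ ^ 2 + H4 N φ ψ μ ^ 2)) / 2 := by
  simp only [C1, B1, H0, H2, H4, v0, v2, v4, cr, Complex.sub_re,
    Complex.sub_im, Complex.neg_re, Complex.neg_im]
  ring

/-- (C3) difference of the `G_j` of the two halves -/
lemma G0_diff : C1 N φ ψ * (G0 N φ μ - G0 N μ ψ) =
    2 * (H2 N φ ψ μ * a4 N φ ψ - H4 N φ ψ μ * a2 N φ ψ)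
    - (H2 N φ ψ μ + H4 N φ ψ μ - H0 N φ ψ μ) * (EE N ψ - EE N φ)
    + (2 * B1 N φ ψ μ - C1 N φ ψ) * G0 N φ ψ := by
  simp only [C1, B1, EE, G0, a0, a2, a4, H0, H2, H4, v0, v2, v4, cr, Complex.sub_re,
    Complex.sub_im, Complex.neg_re, Complex.neg_im]
  ring

lemma G2_diff : C1 N φ ψ * (G2 N φ μ - G2 N μ ψ) =
    2 * (H4 N φ ψ μ * a0 N φ ψ - H0 N φ ψ μ * a4 N φ ψ)
    - (H0 N φ ψ μ + H4 N φ ψ μ - H2 N φ ψ μ) * (EE N ψ - EE N φ)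
    + (2 * B1 N φ ψ μ - C1 N φ ψ) * G2 N φ ψ := by
  simp only [C1, B1, EE, G2, a0, a2, a4, H0, H2, H4, v0, v2, v4, cr, Complex.sub_re,
    Complex.sub_im, Complex.neg_re, Complex.neg_im]
  ring

lemma G4_diff : C1 N φ ψ * (G4 N φ μ - G4 N μ ψ) =
    2 * (H0 N φ ψ μ * a2 N φ ψ - H2 N φ ψ μ * a0 N φ ψ)
    - (H0 N φ ψ μ + H2 N φ ψ μ - H4 N φ ψ μ) * (EE N ψ - EE N φ)
    + (2 * B1 N φ ψ μ - C1 N φ ψ) * G4 N φ ψ := by
  simp only [C1, B1, EE, G4, a0, a2, a4, H0, H2, H4, v0, v2, v4, cr, Complex.sub_re,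
    Complex.sub_im, Complex.neg_re, Complex.neg_im]
  ring

/-- (C4) `G_j` of the two halves: sum -/
lemma G0_add : G0 N φ μ + G0 N μ ψ = G0 N φ ψ + H2 N φ ψ μ + H4 N φ ψ μ - H0 N φ ψ μ := by
  have h1 := a0_split N φ ψ μ
  have h2 := a2_split N φ ψ μ
  have h3 := a4_split N φ ψ μ
  unfold G0; linarith
lemma G2_add : G2 N φ μ + G2 N μ ψ = G2 N φ ψ + H0 N φ ψ μ + H4 N φ ψ μ - H2 N φ ψ μ := by
  have h1 := a0_split N φ ψ μ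
  have h2 := a2_split N φ ψ μ
  have h3 := a4_split N φ ψ μ
  unfold G2; linarith
lemma G4_add : G4 N φ μ + G4 N μ ψ = G4 N φ ψ + H0 N φ ψ μ + H2 N φ ψ μ - H4 N φ ψ μ := by
  have h1 := a0_split N φ ψ μ
  have h2 := a2_split N φ ψ μ
  have h3 := a4_split N φ ψ μ
  unfold G4; linarith

/-- (C5) area of a piece of chain inside the pair `(φ, ψ)`, in the coordinates `B1, H0, H2, H4` -/
lemma wedge_sum : C1 N φ ψ * (cr (v0 N μ - v0 N φ) (v0 N ν - v0 N φ)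
      + cr (v2 N μ - v2 N φ) (v2 N ν - v2 N φ) + cr (v4 N μ - v4 N φ) (v4 N ν - v4 N φ)) =
    (H0 N φ ψ μ + H2 N φ ψ μ + H4 N φ ψ μ) * B1 N φ ψ ν
    - (H0 N φ ψ ν + H2 N φ ψ ν + H4 N φ ψ ν) * B1 N φ ψ μ
    + (H2 N φ ψ μ * H0 N φ ψ ν - H2 N φ ψ ν * H0 N φ ψ μ)
    + (H0 N φ ψ μ * H4 N φ ψ ν - H0 N φ ψ ν * H4 N φ ψ μ)
    + (H4 N φ ψ μ * H2 N φ ψ ν - H4 N φ ψ ν * H2 N φ ψ μ) := by
  simp only [C1, B1, H0, H2, H4, v0, v2, v4, cr, Complex.sub_re,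
    Complex.sub_im, Complex.neg_re, Complex.neg_im]
  ring

/-- area of a consecutive pair inside `(φ, ψ)` -/
lemma TT_inner : 2 * TT N μ ν = cr (v0 N φ) (v0 N ν - v0 N μ) + cr (v2 N φ) (v2 N ν - v2 N μ)
      + cr (v4 N φ) (v4 N ν - v4 N μ)
      + (cr (v0 N μ - v0 N φ) (v0 N ν - v0 N φ)
      + cr (v2 N μ - v2 N φ) (v2 N ν - v2 N φ) + cr (v4 N μ - v4 N φ) (v4 N ν - v4 N φ)) := by
  simp only [TT, a0, a2, a4, v0, v2, v4, cr, Complex.sub_re,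
    Complex.sub_im, Complex.neg_re, Complex.neg_im]
  ring

/-- first coordinate on curve 2: `2 C1 ξ = 2 B1 + H0 - H4` -/
lemma X2_eq : cr (v0 N ψ - v0 N φ - (v4 N ψ - v4 N φ)) (v2 N μ - v2 N φ) =
    2 * B1 N φ ψ μ + H0 N φ ψ μ - H4 N φ ψ μ := by
  simp only [B1, H0, H4, v0, v2, v4, cr, Complex.sub_re,
    Complex.sub_im, Complex.neg_re, Complex.neg_im]
  ring

/-- first coordinate on curve 4: `2 C1 η = 2 B1 + H2 - H0` -/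
lemma X4_eq : cr (v2 N ψ - v2 N φ - (v0 N ψ - v0 N φ)) (v4 N μ - v4 N φ) =
    2 * B1 N φ ψ μ + H2 N φ ψ μ - H0 N φ ψ μ := by
  simp only [B1, H0, H2, v0, v2, v4, cr, Complex.sub_re,
    Complex.sub_im, Complex.neg_re, Complex.neg_im]
  ring

/-- the three basic determinants of the difference hexagon -/
lemma C1_eq02 : cr (v0 N ψ - v0 N φ) (v2 N ψ - v2 N φ) = C1 N φ ψ := rfl
lemma C1_eq24 : cr (v2 N ψ - v2 N φ) (v4 N ψ - v4 N φ) = C1 N φ ψ := by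
  simp only [C1, v0, v2, v4, cr, Complex.sub_re, Complex.sub_im, Complex.neg_re, Complex.neg_im]
  ring
lemma C1_eq40 : cr (v4 N ψ - v4 N φ) (v0 N ψ - v0 N φ) = C1 N φ ψ := by
  simp only [C1, v0, v2, v4, cr, Complex.sub_re, Complex.sub_im, Complex.neg_re, Complex.neg_im]
  ring

end

section
variable {N : ℂ → ℝ} (hN : IsSN N)
include hN

omit hN in
/-- shift of all indices by `tau` -/
lemma v0_tau (φ : ℝ) : v0 N (tau N φ) = - v4 N φ := by simp [v0, v4]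
lemma v2_tau (φ : ℝ) : v2 N (tau N φ) = - v0 N φ := by
  unfold v2 v0; rw [hN.P_tau_tau]; ring
lemma v4_tau (φ : ℝ) : v4 N (tau N φ) = - v2 N φ := by
  unfold v4 v2; rw [hN.P_tau_tau]

lemma v2_eq (φ : ℝ) : v2 N φ = P N (tau N (tau N φ)) := by
  unfold v2; rw [hN.P_tau_tau]

omit hN in
lemma a0_tau (φ ψ : ℝ) : a0 N (tau N φ) (tau N ψ) = a4 N φ ψ := by
  unfold a0 a4; rw [v0_tau, v0_tau, cr_neg_left, cr_neg_right, neg_neg]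
lemma a2_tau (φ ψ : ℝ) : a2 N (tau N φ) (tau N ψ) = a0 N φ ψ := by
  unfold a2 a0; rw [v2_tau hN, v2_tau hN, cr_neg_left, cr_neg_right, neg_neg]
lemma a4_tau (φ ψ : ℝ) : a4 N (tau N φ) (tau N ψ) = a2 N φ ψ := by
  unfold a4 a2; rw [v4_tau hN, v4_tau hN, cr_neg_left, cr_neg_right, neg_neg]
lemma TT_tau (φ ψ : ℝ) : TT N (tau N φ) (tau N ψ) = TT N φ ψ := by
  unfold TT; rw [a0_tau, a2_tau hN, a4_tau hN]; ring
lemma G0_tau (φ ψ : ℝ) : G0 N (tau N φ) (tau N ψ) = G4 N φ ψ := by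
  unfold G0 G4; rw [a0_tau, a2_tau hN, a4_tau hN]
lemma G2_tau (φ ψ : ℝ) : G2 N (tau N φ) (tau N ψ) = G0 N φ ψ := by
  unfold G2 G0; rw [a0_tau, a2_tau hN, a4_tau hN]; ring
lemma G4_tau (φ ψ : ℝ) : G4 N (tau N φ) (tau N ψ) = G2 N φ ψ := by
  unfold G4 G2; rw [a0_tau, a2_tau hN, a4_tau hN]; ring
lemma C1_tau (φ ψ : ℝ) : C1 N (tau N φ) (tau N ψ) = C1 N φ ψ := by
  have h : C1 N (tau N φ) (tau N ψ) = cr (v4 N ψ - v4 N φ) (v0 N ψ - v0 N φ) := by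
    unfold C1
    rw [v0_tau, v0_tau, v2_tau hN, v2_tau hN]
    simp only [cr, Complex.sub_re, Complex.sub_im, Complex.neg_re, Complex.neg_im]; ring
  rw [h, C1_eq40]
lemma EE_tau (φ : ℝ) : EE N (tau N φ) = EE N φ := by
  unfold EE; rw [hN.P_tau_tau, cr_sub_right, cr_self, cr_swap]; ring

end

end Rein83
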