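import Pool.Agent.Rein83.NearSeq

set_option autoImplicit false

/-! (E1) the near lemma for sequences: conclusion. -/

namespace Rein83

open Finset

section
variable {K : ℕ} {z g2 g4 e0 e1 σx σy : ℝ} {A x y f : ℕ → ℝ} {Φ : ℝ}

/-- the moment of the differences -/
lemma mom_one (hK : 0 < K) (f0 : f 0 = 0) (fM : f (K + 1) = 0) (fK : 0 ≤ f K)
    (hΦ : Φ = (1 / ((K + 1 : ℕ) : ℝ)) * ∑ i ∈ range K, f (i + 1)) :
    -(2 * Φ) ≤ ∑ i ∈ range K, ((i + 1 : ℕ) : ℝ) / ((K + 1 : ℕ) : ℝ) * (f (i + 2) - f i) := by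
  have hn0 : (0 : ℝ) < ((K + 1 : ℕ) : ℝ) := by positivity
  have h := sbp (fun i => (i : ℝ) / ((K + 1 : ℕ) : ℝ)) f K
  simp only [f0, fM, Nat.cast_zero, zero_div, zero_mul, mul_zero, zero_add, add_zero, sub_zero] at h
  rw [div_self hn0.ne', mul_one] at h
  have c : ∑ i ∈ range K, f (i + 1) * (((i + 2 : ℕ) : ℝ) / ((K + 1 : ℕ) : ℝ) -
      (i : ℝ) / ((K + 1 : ℕ) : ℝ)) = 2 * Φ := by
    rw [hΦ, ← mul_assoc, Finset.mul_sum]
    apply Finset.sum_congr rfl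
    intro i _
    push_cast
    field_simp
    ring
  rw [c] at h
  linarith

lemma mom_two (hK : 0 < K) (f0 : f 0 = 0) (fM : f (K + 1) = 0) (f1 : 0 ≤ f 1)
    (hΦ : Φ = (1 / ((K + 1 : ℕ) : ℝ)) * ∑ i ∈ range K, f (i + 1)) :
    ∑ i ∈ range K, (1 - ((i + 1 : ℕ) : ℝ) / ((K + 1 : ℕ) : ℝ)) * (f (i + 2) - f i) ≤ 2 * Φ := by
  have hn0 : (0 : ℝ) < ((K + 1 : ℕ) : ℝ) := by positivity
  have h := sbp (fun i => (i : ℝ) / ((K + 1 : ℕ) : ℝ)) f K
  simp only [f0, fM, Nat.cast_zero, zero_div, zero_mul, mul_zero, zero_add, add_zero, sub_zero] at h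
  rw [div_self hn0.ne', mul_one] at h
  have c : ∑ i ∈ range K, f (i + 1) * (((i + 2 : ℕ) : ℝ) / ((K + 1 : ℕ) : ℝ) -
      (i : ℝ) / ((K + 1 : ℕ) : ℝ)) = 2 * Φ := by
    rw [hΦ, ← mul_assoc, Finset.mul_sum]
    apply Finset.sum_congr rfl
    intro i _
    push_cast
    field_simp
    ring
  rw [c] at h
  have c2 : ∑ i ∈ range K, (1 - ((i + 1 : ℕ) : ℝ) / ((K + 1 : ℕ) : ℝ)) * (f (i + 2) - f i) =
      ∑ i ∈ range K, (f (i + 2) - f i) -
      ∑ i ∈ range K, ((i + 1 : ℕ) : ℝ) / ((K + 1 : ℕ) : ℝ) * (f (i + 2) - f i) := by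
    rw [← Finset.sum_sub_distrib]
    apply Finset.sum_congr rfl
    intro i _; ring
  rw [c2, tele2, f0, fM]
  linarith

lemma lin_bound {a t : ℕ → ℝ} {c : ℝ} (ha : ∀ i, i < K → 0 ≤ a i) (ht : ∀ i, i < K → |t i| ≤ c) :
    |∑ i ∈ range K, a i * t i| ≤ c * ∑ i ∈ range K, a i := by
  rw [Finset.mul_sum]
  refine (Finset.abs_sum_le_sum_abs _ _).trans (Finset.sum_le_sum ?_)
  intro i hi
  have hi' := mem_range.mp hi
  rw [abs_mul, abs_of_nonneg (ha i hi'), mul_comm]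
  exact mul_le_mul_of_nonneg_right (ht i hi') (ha i hi')

/-- the contribution of curve 2 -/
lemma Zx (h : NearSeq (K + 1) z g2 g4 e0 e1 σx σy A x y) (hK : 0 < K) (hz0 : 0 < z)
    (hz1 : z ≤ 205 / 1000) (hσx : 0 ≤ σx) (f0 : f 0 = 0) (fM : f (K + 1) = 0)
    (hF : ∀ i, i ≤ K + 1 → 0 ≤ f i ∧ f i ≤ 5181 / 100000)
    (hconc : ∀ i, i + 1 < K → f (i + 3) - f (i + 1) ≤ f (i + 2) - f i)
    (hlip : ∀ i, i < K → |f (i + 2) - f i| ≤ 2 * z * (1 / ((K + 1 : ℕ) : ℝ)))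
    (hΦ : Φ = (1 / ((K + 1 : ℕ) : ℝ)) * ∑ i ∈ range K, f (i + 1)) (hΦ0 : 0 ≤ Φ)
    (hΦ1 : Φ ≤ 3454 / 100000) (hA : ∀ i, i ≤ K + 1 → A i ≤ 2 * Φ) {l : ℝ} (hl : 1 / 2 ≤ l)
    (hl' : l ≤ 890264 / 1000000) :
    -(σx * (214 / 10000 + (1 / ((K + 1 : ℕ) : ℝ)) / 2 +
        91 / 100 * ((1 / ((K + 1 : ℕ) : ℝ)) * ∑ i ∈ range K, y (i + 1)))) ≤
      (1 - l) * ((1 / ((K + 1 : ℕ) : ℝ)) * ∑ i ∈ range K, x (i + 1)) +
        ∑ i ∈ range K, x (i + 1) * (f (i + 2) - f i) := by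
  have hn0 : (0 : ℝ) < ((K + 1 : ℕ) : ℝ) := by positivity
  have hm0 : 0 < 1 / ((K + 1 : ℕ) : ℝ) := by positivity
  have hmean := sum_xi A y hK
  have hmom := mom_one hK f0 fM (hF K (by omega)).1 hΦ
  have hYt := lin_bound (K := K) (a := fun i => y (i + 1)) (t := fun i => f (i + 2) - f i)
    (fun i hi => h.yn _ (by omega)) hlip
  have hAt := (part_bound (K := K) (f := f) (a := fun i => A (i + 1)) (c := 2 * Φ)
    (F := 5181 / 100000) hF (by linarith)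
    (fun i hi => ⟨h.An _ (by omega), hA _ (by omega)⟩) hconc).1
  have hY0 : 0 ≤ ∑ i ∈ range K, y (i + 1) :=
    Finset.sum_nonneg (fun i hi => h.yn _ (by have := mem_range.mp hi; omega))
  have hA0 : 0 ≤ ∑ i ∈ range K, A (i + 1) :=
    Finset.sum_nonneg (fun i hi => h.An _ (by have := mem_range.mp hi; omega))
  set m : ℝ := 1 / ((K + 1 : ℕ) : ℝ) with hm
  set Y := m * ∑ i ∈ range K, y (i + 1) with hY
  have hY0' : 0 ≤ Y := mul_nonneg hm0.le hY0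
  have hA0' : 0 ≤ m * ∑ i ∈ range K, A (i + 1) := mul_nonneg hm0.le hA0
  have key := cheb (K := K) (x := fun i => x (i + 1))
    (ξ := fun i => ((i + 1 : ℕ) : ℝ) / ((K + 1 : ℕ) : ℝ) + A (i + 1) - y (i + 1))
    (w := fun i => (1 - l) * m + (f (i + 2) - f i)) (σ := σx)
    (B := 214 / 10000 + m / 2 + 91 / 100 * Y)
    (fun i hi => h.xn _ (by omega)) (fun i hi => xi_pos h (by omega))
    (fun i hi => by
      have := h.rx (i + 1) (by omega)
      have e : ((i + 1 + 1 : ℕ) : ℝ) = ((i + 1 : ℕ) : ℝ) + 1 := by push_cast; ring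
      rw [e]; exact this)
    (fun i hi => by
      have := hconc i hi
      have e : i + 1 + 2 = i + 3 := by omega
      rw [e]; linarith)
    (fun i hi => h.sx (i + 1) (by omega)) hσx (by positivity)
    (by
      have e : ∑ i ∈ range K, (((i + 1 : ℕ) : ℝ) / ((K + 1 : ℕ) : ℝ) + A (i + 1) - y (i + 1)) *
          ((1 - l) * m + (f (i + 2) - f i)) =
          (1 - l) * (m * ∑ i ∈ range K, (((i + 1 : ℕ) : ℝ) / ((K + 1 : ℕ) : ℝ) + A (i + 1) -
            y (i + 1))) +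
          (∑ i ∈ range K, ((i + 1 : ℕ) : ℝ) / ((K + 1 : ℕ) : ℝ) * (f (i + 2) - f i) +
            ∑ i ∈ range K, A (i + 1) * (f (i + 2) - f i) -
            ∑ i ∈ range K, y (i + 1) * (f (i + 2) - f i)) := by
        rw [← Finset.sum_add_distrib, ← Finset.sum_sub_distrib, Finset.mul_sum, Finset.mul_sum,
          ← Finset.sum_add_distrib]
        apply Finset.sum_congr rfl
        intro i _; ring
      rw [e, hmean]
      have k1 : ∑ i ∈ range K, y (i + 1) * (f (i + 2) - f i) ≤ 2 * z * Y := by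
        refine (le_abs_self _).trans (hYt.trans (le_of_eq ?_))
        rw [hY]; ring
      have k2 : 2 * z * Y ≤ 41 / 100 * Y := mul_le_mul_of_nonneg_right (by linarith) hY0'
      have k3 : (1 - l) * Y ≤ 1 / 2 * Y := mul_le_mul_of_nonneg_right (by linarith) hY0'
      have k4 : (1 - l) * m ≤ 1 / 2 * m := mul_le_mul_of_nonneg_right (by linarith) hm0.le
      have k5 : 0 ≤ (1 - l) * (m * ∑ i ∈ range K, A (i + 1)) := mul_nonneg (by linarith) hA0'
      have k6 : 2 * Φ * (2 * (5181 / 100000)) + 2 * Φ - (1 - l) / 2 ≤ 214 / 10000 := by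
        linarith
      have k7 : (1 - l) * ((1 - m) / 2 + m * ∑ i ∈ range K, A (i + 1) - Y) =
          (1 - l) / 2 - (1 - l) * m / 2 + (1 - l) * (m * ∑ i ∈ range K, A (i + 1)) -
            (1 - l) * Y := by ring
      rw [k7]
      linarith)
  have e2 : ∑ i ∈ range K, x (i + 1) * ((1 - l) * m + (f (i + 2) - f i)) =
      (1 - l) * (m * ∑ i ∈ range K, x (i + 1)) + ∑ i ∈ range K, x (i + 1) * (f (i + 2) - f i) := by
    rw [Finset.mul_sum, Finset.mul_sum, ← Finset.sum_add_distrib]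
    apply Finset.sum_congr rfl
    intro i _; ring
  rw [e2] at key
  exact key

/-- the contribution of curve 4 -/
lemma Zy (h : NearSeq (K + 1) z g2 g4 e0 e1 σx σy A x y) (hK : 0 < K) (hz0 : 0 < z)
    (hz1 : z ≤ 205 / 1000) (hσy : 0 ≤ σy) (f0 : f 0 = 0) (fM : f (K + 1) = 0)
    (hF : ∀ i, i ≤ K + 1 → 0 ≤ f i ∧ f i ≤ 5181 / 100000)
    (hconc : ∀ i, i + 1 < K → f (i + 3) - f (i + 1) ≤ f (i + 2) - f i)
    (hlip : ∀ i, i < K → |f (i + 2) - f i| ≤ 2 * z * (1 / ((K + 1 : ℕ) : ℝ)))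
    (hΦ : Φ = (1 / ((K + 1 : ℕ) : ℝ)) * ∑ i ∈ range K, f (i + 1)) (hΦ0 : 0 ≤ Φ)
    (hΦ1 : Φ ≤ 3454 / 100000) (hA : ∀ i, i ≤ K + 1 → A i ≤ 2 * Φ) {l : ℝ} (hl : 1 / 2 ≤ l)
    (hl' : l ≤ 890264 / 1000000) :
    -(σy * (214 / 10000 + (1 / ((K + 1 : ℕ) : ℝ)) / 2 +
        91 / 100 * ((1 / ((K + 1 : ℕ) : ℝ)) * ∑ i ∈ range K, x (i + 1)))) ≤
      (1 - l) * ((1 / ((K + 1 : ℕ) : ℝ)) * ∑ i ∈ range K, y (i + 1)) -
        ∑ i ∈ range K, y (i + 1) * (f (i + 2) - f i) := by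
  have hn0 : (0 : ℝ) < ((K + 1 : ℕ) : ℝ) := by positivity
  have hm0 : 0 < 1 / ((K + 1 : ℕ) : ℝ) := by positivity
  have hmean := sum_eta A x hK
  have hmom := mom_two hK f0 fM (hF 1 (by omega)).1 hΦ
  have hYt := lin_bound (K := K) (a := fun i => x (i + 1)) (t := fun i => f (i + 2) - f i)
    (fun i hi => h.xn _ (by omega)) hlip
  have hAt := (part_bound (K := K) (f := f) (a := fun i => A (i + 1)) (c := 2 * Φ)
    (F := 5181 / 100000) hF (by linarith)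
    (fun i hi => ⟨h.An _ (by omega), hA _ (by omega)⟩) hconc).2
  have hX0 : 0 ≤ ∑ i ∈ range K, x (i + 1) :=
    Finset.sum_nonneg (fun i hi => h.xn _ (by have := mem_range.mp hi; omega))
  have hA0 : 0 ≤ ∑ i ∈ range K, A (i + 1) :=
    Finset.sum_nonneg (fun i hi => h.An _ (by have := mem_range.mp hi; omega))
  set m : ℝ := 1 / ((K + 1 : ℕ) : ℝ) with hm
  set X := m * ∑ i ∈ range K, x (i + 1) with hX
  have hX0' : 0 ≤ X := mul_nonneg hm0.le hX0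
  have hA0' : 0 ≤ m * ∑ i ∈ range K, A (i + 1) := mul_nonneg hm0.le hA0
  have key := cheb' (K := K) (x := fun i => y (i + 1))
    (ξ := fun i => 1 - (((i + 1 : ℕ) : ℝ) / ((K + 1 : ℕ) : ℝ) + x (i + 1) - A (i + 1)))
    (w := fun i => (1 - l) * m - (f (i + 2) - f i)) (σ := σy)
    (B := 214 / 10000 + m / 2 + 91 / 100 * X)
    (fun i hi => h.yn _ (by omega)) (fun i hi => eta_pos' h (by omega))
    (fun i hi => by
      have := h.ry (i + 1) (by omega)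
      have e : ((i + 1 + 1 : ℕ) : ℝ) = ((i + 1 : ℕ) : ℝ) + 1 := by push_cast; ring
      rw [e]; exact this)
    (fun i hi => by
      have := hconc i hi
      have e : i + 1 + 2 = i + 3 := by omega
      rw [e]; linarith)
    (fun i hi => h.sy (i + 1) (by omega)) hσy (by positivity)
    (by
      have e : ∑ i ∈ range K, (1 - (((i + 1 : ℕ) : ℝ) / ((K + 1 : ℕ) : ℝ) + x (i + 1) - A (i + 1))) *
          ((1 - l) * m - (f (i + 2) - f i)) =
          (1 - l) * (m * ∑ i ∈ range K, (1 - (((i + 1 : ℕ) : ℝ) / ((K + 1 : ℕ) : ℝ) + x (i + 1) -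
            A (i + 1)))) -
          (∑ i ∈ range K, (1 - ((i + 1 : ℕ) : ℝ) / ((K + 1 : ℕ) : ℝ)) * (f (i + 2) - f i) +
            ∑ i ∈ range K, A (i + 1) * (f (i + 2) - f i) -
            ∑ i ∈ range K, x (i + 1) * (f (i + 2) - f i)) := by
        rw [← Finset.sum_add_distrib, ← Finset.sum_sub_distrib, Finset.mul_sum, Finset.mul_sum,
          ← Finset.sum_sub_distrib]
        apply Finset.sum_congr rfl
        intro i _; ring
      rw [e, hmean]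
      have k1 : -(2 * z * X) ≤ ∑ i ∈ range K, x (i + 1) * (f (i + 2) - f i) := by
        have := (abs_le.mp hYt).1
        refine le_trans (le_of_eq ?_) this
        rw [hX]; ring
      have k2 : 2 * z * X ≤ 41 / 100 * X := mul_le_mul_of_nonneg_right (by linarith) hX0'
      have k3 : (1 - l) * X ≤ 1 / 2 * X := mul_le_mul_of_nonneg_right (by linarith) hX0'
      have k4 : (1 - l) * m ≤ 1 / 2 * m := mul_le_mul_of_nonneg_right (by linarith) hm0.le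
      have k5 : 0 ≤ (1 - l) * (m * ∑ i ∈ range K, A (i + 1)) := mul_nonneg (by linarith) hA0'
      have k6 : 2 * Φ * (2 * (5181 / 100000)) + 2 * Φ - (1 - l) / 2 ≤ 214 / 10000 := by
        linarith
      have k7 : (1 - l) * ((1 - m) / 2 + m * ∑ i ∈ range K, A (i + 1) - X) =
          (1 - l) / 2 - (1 - l) * m / 2 + (1 - l) * (m * ∑ i ∈ range K, A (i + 1)) -
            (1 - l) * X := by ring
      rw [k7]
      linarith)
  have e2 : ∑ i ∈ range K, y (i + 1) * ((1 - l) * m - (f (i + 2) - f i)) =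
      (1 - l) * (m * ∑ i ∈ range K, y (i + 1)) - ∑ i ∈ range K, y (i + 1) * (f (i + 2) - f i) := by
    rw [Finset.mul_sum, Finset.mul_sum, ← Finset.sum_sub_distrib]
    apply Finset.sum_congr rfl
    intro i _; ring
  rw [e2] at key
  exact key

end

/-- (E1) near lemma for sequences -/
theorem near_seq {M : ℕ} {z g2 g4 e0 e1 σx σy : ℝ} {A x y : ℕ → ℝ} (hM : 2 ≤ M)
    (h : NearSeq M z g2 g4 e0 e1 σx σy A x y) (hz0 : 0 < z) (hz1 : z ≤ 205 / 1000)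
    (hg2 : 1 / 2 ≤ g2) (hg2' : g2 ≤ 85 / 100) (hg4 : 1 / 2 ≤ g4) (hg4' : g4 ≤ 85 / 100)
    (he0 : 0 ≤ e0) (he1 : 0 ≤ e1) (hσx : 0 ≤ σx) (hσy : 0 ≤ σy) (hσ : σx + σy ≤ 8 / 100) :
    (∃ i, i ≤ M ∧ 2 * Ph z M ≤ A i + x i + y i) ∨
      Ph z M - (214 / 10000 + 1 / (2 * M)) * (σx + σy) - 284 / 100 * (σx * σy)
        - (1 / 2 + 114 / 100 * max σx σy) * (e0 + e1) / (9787 / 10000) ≤ cap M A x y := by
  obtain ⟨K, rfl⟩ : ∃ K, M = K + 1 := ⟨M - 1, by omega⟩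
  have hK : 0 < K := by omega
  by_cases hcase : ∃ i, i ≤ K + 1 ∧ 2 * Ph z (K + 1) ≤ A i + x i + y i
  · exact Or.inl hcase
  right
  push Not at hcase
  have hn0 : (0 : ℝ) < ((K + 1 : ℕ) : ℝ) := by positivity
  have hm0 : 0 < 1 / ((K + 1 : ℕ) : ℝ) := by positivity
  -- the profile
  set f : ℕ → ℝ := fun i => ph z ((i : ℝ) / ((K + 1 : ℕ) : ℝ)) with hf
  have f0 : f 0 = 0 := by simp [hf, ph_zero]
  have fM : f (K + 1) = 0 := by
    simp only [hf]; rw [div_self hn0.ne', ph_one]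
  have hs : ∀ i : ℕ, i ≤ K + 1 → 0 ≤ (i : ℝ) / ((K + 1 : ℕ) : ℝ) ∧
      (i : ℝ) / ((K + 1 : ℕ) : ℝ) ≤ 1 := by
    intro i hi
    refine ⟨by positivity, ?_⟩
    rw [div_le_one hn0]; exact_mod_cast hi
  have hF : ∀ i, i ≤ K + 1 → 0 ≤ f i ∧ f i ≤ 5181 / 100000 := by
    intro i hi
    exact ⟨ph_nonneg hz0 (hs i hi).1 (hs i hi).2, ph_max hz0 hz1 (hs i hi).1 (hs i hi).2⟩
  have hcv : ∀ i : ℕ, f i + f (i + 2) ≤ 2 * f (i + 1) := by
    intro i
    have := ph_concave hz0 hz1 ((i : ℝ) / ((K + 1 : ℕ) : ℝ)) (((i + 2 : ℕ) : ℝ) / ((K + 1 : ℕ) : ℝ))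
    have e : ((i : ℝ) / ((K + 1 : ℕ) : ℝ) + ((i + 2 : ℕ) : ℝ) / ((K + 1 : ℕ) : ℝ)) / 2 =
        ((i + 1 : ℕ) : ℝ) / ((K + 1 : ℕ) : ℝ) := by push_cast; ring
    rw [e] at this
    exact this
  have hconc : ∀ i, i + 1 < K → f (i + 3) - f (i + 1) ≤ f (i + 2) - f i := by
    intro i _
    have a1 := hcv i
    have a2 := hcv (i + 1)
    have e : i + 1 + 2 = i + 3 := by omega
    have e' : i + 1 + 1 = i + 2 := by omega
    rw [e, e'] at a2
    linarith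
  have hlip : ∀ i, i < K → |f (i + 2) - f i| ≤ 2 * z * (1 / ((K + 1 : ℕ) : ℝ)) := by
    intro i hi
    have b1 := hs i (by omega)
    have b2 := hs (i + 2) (by omega)
    have c1 := ph_lip hz0 hz1 b2.1 b2.2 b1.1 b1.2
    have c2 := ph_lip hz0 hz1 b1.1 b1.2 b2.1 b2.2
    have e : ((i + 2 : ℕ) : ℝ) / ((K + 1 : ℕ) : ℝ) - (i : ℝ) / ((K + 1 : ℕ) : ℝ) =
        2 * (1 / ((K + 1 : ℕ) : ℝ)) := by push_cast; ring
    rw [e, abs_of_pos (by positivity)] at c1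
    rw [abs_sub_comm, e, abs_of_pos (by positivity)] at c2
    rw [abs_le]
    simp only [hf]
    constructor
    · linarith
    · linarith
  have hΦ : Ph z (K + 1) = (1 / ((K + 1 : ℕ) : ℝ)) * ∑ i ∈ range K, f (i + 1) := by
    unfold Ph
    rw [sum_int (f := f) f0 |>.symm]
    simp only [hf]
    ring
  have hΦ0 := Ph_nonneg hz0 (K + 1)
  have hΦ1 := Ph_le hz0 hz1 (M := K + 1) (by omega)
  set Φ := Ph z (K + 1) with hΦdef
  have hA : ∀ i, i ≤ K + 1 → A i ≤ 2 * Φ := by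
    intro i hi
    have := hcase i hi
    have := h.xn i hi
    have := h.yn i hi
    linarith
  -- the slopes
  set l2 := (g2 + 213 / 10000) / (9787 / 10000) with hl2
  set l4 := (g4 + 213 / 10000) / (9787 / 10000) with hl4
  have l2a : 1 / 2 ≤ l2 := by rw [hl2, le_div_iff₀ (by norm_num)]; linarith
  have l2b : l2 ≤ 890264 / 1000000 := by rw [hl2, div_le_iff₀ (by norm_num)]; linarith
  have l4a : 1 / 2 ≤ l4 := by rw [hl4, le_div_iff₀ (by norm_num)]; linarith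
  have l4b : l4 ≤ 890264 / 1000000 := by rw [hl4, div_le_iff₀ (by norm_num)]; linarith
  have hZx := Zx h hK hz0 hz1 hσx f0 fM hF hconc hlip hΦ hΦ0 hΦ1 hA l2a l2b
  have hZy := Zy h hK hz0 hz1 hσy f0 fM hF hconc hlip hΦ hΦ0 hΦ1 hA l4a l4b
  have hX := X_le h hK hσx hΦ0 (fun i hi => hA (i + 1) (by omega))
  have hY := Y_le h hK hσy hΦ0 (fun i hi => hA (i + 1) (by omega))
  have hJ := J_le h hσx hσy hΦ1 hA
  have hX0 : 0 ≤ (1 / ((K + 1 : ℕ) : ℝ)) * ∑ i ∈ range K, x (i + 1) := mul_nonneg hm0.le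
    (Finset.sum_nonneg (fun i hi => h.xn _ (by have := mem_range.mp hi; omega)))
  have hY0 : 0 ≤ (1 / ((K + 1 : ℕ) : ℝ)) * ∑ i ∈ range K, y (i + 1) := mul_nonneg hm0.le
    (Finset.sum_nonneg (fun i hi => h.yn _ (by have := mem_range.mp hi; omega)))
  have hX' : (1 / ((K + 1 : ℕ) : ℝ)) * ∑ i ∈ range K, x (i + 1) ≤ σx * (56908 / 100000) :=
    hX.trans (mul_le_mul_of_nonneg_left (by linarith) hσx)
  have hY' : (1 / ((K + 1 : ℕ) : ℝ)) * ∑ i ∈ range K, y (i + 1) ≤ σy * (56908 / 100000) :=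
    hY.trans (mul_le_mul_of_nonneg_left (by linarith) hσy)
  have hmax0 : 0 ≤ max σx σy := le_max_of_le_left hσx
  have hD := dsum h hK hσx hσy hσ (p := e0 / (9787 / 10000)) (q := e1 / (9787 / 10000))
    (Z := 57 / 100 * max σx σy) (by positivity) (by positivity)
    (by
      have := mul_le_mul_of_nonneg_right (le_max_left σx σy) (show (0 : ℝ) ≤ 57 / 100 by norm_num)
      linarith [mul_nonneg hσx (show (0 : ℝ) ≤ 57 / 100 by norm_num)])
    (by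
      have := mul_le_mul_of_nonneg_right (le_max_right σx σy) (show (0 : ℝ) ≤ 57 / 100 by norm_num)
      linarith [mul_nonneg hσy (show (0 : ℝ) ≤ 57 / 100 by norm_num)])
  -- the weights
  have hθ : ∀ i, i < K → 0 ≤ 1 / ((K + 1 : ℕ) : ℝ) + ((y (i + 2) - x (i + 2)) - (y i - x i)) := by
    intro i hi
    have a1 := step_two h hσx hσy hσ (i := i) (by omega)
    have a2 := step_two h hσx hσy hσ (i := i + 1) (by omega)
    have e : i + 1 + 1 = i + 2 := by omega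
    rw [e] at a2
    linarith
  have hL : ∀ i, i < K → f (i + 1) - l2 * x (i + 1) - l4 * y (i + 1) -
      (e0 / (9787 / 10000) + ((i : ℝ) + 1) / ((K + 1 : ℕ) : ℝ) *
        (e1 / (9787 / 10000) - e0 / (9787 / 10000))) ≤ A (i + 1) := by
    intro i hi
    have hb := hs (i + 1) (by omega)
    have hcon := h.con (i + 1) (by omega)
    have hpe := ph_eq hz0 hz1 (((i + 1 : ℕ) : ℝ) / ((K + 1 : ℕ) : ℝ))
    have hD0 : 0 ≤ (1 - ((i + 1 : ℕ) : ℝ) / ((K + 1 : ℕ) : ℝ)) * e0 +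
        ((i + 1 : ℕ) : ℝ) / ((K + 1 : ℕ) : ℝ) * e1 :=
      add_nonneg (mul_nonneg (by linarith [hb.2]) he0) (mul_nonneg hb.1 he1)
    rw [← hpe] at hcon
    have := step_one hz0 hg2 hg4 (ph_mu hz0 hz1 _) (h.xn (i + 1) (by omega))
      (h.yn (i + 1) (by omega)) hD0 hcon
    refine le_trans (le_of_eq ?_) this
    simp only [hf, hl2, hl4]
    push_cast
    ring
  have hsum : ∑ i ∈ range K, (f (i + 1) - l2 * x (i + 1) - l4 * y (i + 1) -
      (e0 / (9787 / 10000) + ((i : ℝ) + 1) / ((K + 1 : ℕ) : ℝ) *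
        (e1 / (9787 / 10000) - e0 / (9787 / 10000)))) *
      (1 / ((K + 1 : ℕ) : ℝ) + ((y (i + 2) - x (i + 2)) - (y i - x i))) ≤
      ∑ i ∈ range K, A (i + 1) * (1 / ((K + 1 : ℕ) : ℝ) +
          ((y (i + 2) - x (i + 2)) - (y i - x i))) :=
    Finset.sum_le_sum (fun i hi => mul_le_mul_of_nonneg_right (hL i (mem_range.mp hi))
      (hθ i (mem_range.mp hi)))
  have s1 : ∑ i ∈ range K, f (i + 1) * (1 / ((K + 1 : ℕ) : ℝ) +
      ((y (i + 2) - x (i + 2)) - (y i - x i))) = Φ - ∑ i ∈ range K, y (i + 1) * (f (i + 2) - f i) +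
      ∑ i ∈ range K, x (i + 1) * (f (i + 2) - f i) := by
    have a1 : ∑ i ∈ range K, f (i + 1) * (1 / ((K + 1 : ℕ) : ℝ) +
      ((y (i + 2) - x (i + 2)) - (y i - x i))) = (1 / ((K + 1 : ℕ) : ℝ)) * ∑ i ∈ range K, f (i + 1)
        + ∑ i ∈ range K, f (i + 1) * (y (i + 2) - y i) -
        ∑ i ∈ range K, f (i + 1) * (x (i + 2) - x i) := by
      rw [Finset.mul_sum, ← Finset.sum_add_distrib, ← Finset.sum_sub_distrib]
      apply Finset.sum_congr rfl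
      intro i _; ring
    rw [a1, ← hΦ, sbp0 f0 fM h.y0 h.yM, sbp0 f0 fM h.x0 h.xM]
    ring
  have s2 : ∑ i ∈ range K, x (i + 1) * (1 / ((K + 1 : ℕ) : ℝ) +
      ((y (i + 2) - x (i + 2)) - (y i - x i))) =
      (1 / ((K + 1 : ℕ) : ℝ)) * ∑ i ∈ range K, x (i + 1) +
        ∑ i ∈ range K, x (i + 1) * (y (i + 2) - y i) := by
    have a1 : ∑ i ∈ range K, x (i + 1) * (1 / ((K + 1 : ℕ) : ℝ) +
      ((y (i + 2) - x (i + 2)) - (y i - x i))) = (1 / ((K + 1 : ℕ) : ℝ)) * ∑ i ∈ range K, x (i + 1)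
        + ∑ i ∈ range K, x (i + 1) * (y (i + 2) - y i) -
        ∑ i ∈ range K, x (i + 1) * (x (i + 2) - x i) := by
      rw [Finset.mul_sum, ← Finset.sum_add_distrib, ← Finset.sum_sub_distrib]
      apply Finset.sum_congr rfl
      intro i _; ring
    rw [a1, self_zero h.x0 h.xM, sub_zero]
  have s3 : ∑ i ∈ range K, y (i + 1) * (1 / ((K + 1 : ℕ) : ℝ) +
      ((y (i + 2) - x (i + 2)) - (y i - x i))) =
      (1 / ((K + 1 : ℕ) : ℝ)) * ∑ i ∈ range K, y (i + 1) +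
        ∑ i ∈ range K, x (i + 1) * (y (i + 2) - y i) := by
    have a1 : ∑ i ∈ range K, y (i + 1) * (1 / ((K + 1 : ℕ) : ℝ) +
      ((y (i + 2) - x (i + 2)) - (y i - x i))) = (1 / ((K + 1 : ℕ) : ℝ)) * ∑ i ∈ range K, y (i + 1)
        + ∑ i ∈ range K, y (i + 1) * (y (i + 2) - y i) -
        ∑ i ∈ range K, y (i + 1) * (x (i + 2) - x i) := by
      rw [Finset.mul_sum, ← Finset.sum_add_distrib, ← Finset.sum_sub_distrib]
      apply Finset.sum_congr rfl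
      intro i _; ring
    rw [a1, self_zero h.y0 h.yM, sbp0 h.x0 h.xM h.y0 h.yM]
    ring
  have s4 : ∑ i ∈ range K, (f (i + 1) - l2 * x (i + 1) - l4 * y (i + 1) -
      (e0 / (9787 / 10000) + ((i : ℝ) + 1) / ((K + 1 : ℕ) : ℝ) *
        (e1 / (9787 / 10000) - e0 / (9787 / 10000)))) *
      (1 / ((K + 1 : ℕ) : ℝ) + ((y (i + 2) - x (i + 2)) - (y i - x i))) =
      ∑ i ∈ range K, f (i + 1) * (1 / ((K + 1 : ℕ) : ℝ) +
        ((y (i + 2) - x (i + 2)) - (y i - x i))) -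
      l2 * ∑ i ∈ range K, x (i + 1) * (1 / ((K + 1 : ℕ) : ℝ) +
        ((y (i + 2) - x (i + 2)) - (y i - x i))) -
      l4 * ∑ i ∈ range K, y (i + 1) * (1 / ((K + 1 : ℕ) : ℝ) +
        ((y (i + 2) - x (i + 2)) - (y i - x i))) -
      ∑ i ∈ range K, (e0 / (9787 / 10000) + ((i : ℝ) + 1) / ((K + 1 : ℕ) : ℝ) *
        (e1 / (9787 / 10000) - e0 / (9787 / 10000))) *
        (1 / ((K + 1 : ℕ) : ℝ) + ((y (i + 2) - x (i + 2)) - (y i - x i))) := by
    rw [Finset.mul_sum, Finset.mul_sum, ← Finset.sum_sub_distrib, ← Finset.sum_sub_distrib,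
      ← Finset.sum_sub_distrib]
    apply Finset.sum_congr rfl
    intro i _; ring
  rw [s4, s1, s2, s3] at hsum
  rw [cap_eq h]
  set m : ℝ := 1 / ((K + 1 : ℕ) : ℝ) with hm
  set X := m * ∑ i ∈ range K, x (i + 1) with hXd
  set Y := m * ∑ i ∈ range K, y (i + 1) with hYd
  set J := ∑ i ∈ range K, x (i + 1) * (y (i + 2) - y i) with hJd
  set Tx := ∑ i ∈ range K, x (i + 1) * (f (i + 2) - f i) with hTx
  set Ty := ∑ i ∈ range K, y (i + 1) * (f (i + 2) - f i) with hTy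
  set W := ∑ i ∈ range K, A (i + 1) * (m + ((y (i + 2) - x (i + 2)) - (y i - x i))) with hW
  set V := ∑ i ∈ range K, (e0 / (9787 / 10000) + ((i : ℝ) + 1) / ((K + 1 : ℕ) : ℝ) *
        (e1 / (9787 / 10000) - e0 / (9787 / 10000))) *
        (m + ((y (i + 2) - x (i + 2)) - (y i - x i))) with hV
  have hs0 : 0 ≤ σx * σy := mul_nonneg hσx hσy
  have j1 : (1 + l2 + l4) * J ≤ (1 + l2 + l4) * (64772 / 100000 * (σx * σy)) :=
    mul_le_mul_of_nonneg_left hJ (by linarith)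
  have j2 : (1 + l2 + l4) * (64772 / 100000 * (σx * σy)) ≤
      (2780528 / 1000000) * (64772 / 100000 * (σx * σy)) :=
    mul_le_mul_of_nonneg_right (by linarith) (by positivity)
  have j3 : σx * (91 / 100 * Y) ≤ σx * (91 / 100 * (σy * (56908 / 100000))) :=
    mul_le_mul_of_nonneg_left (by linarith) hσx
  have j4 : σy * (91 / 100 * X) ≤ σy * (91 / 100 * (σx * (56908 / 100000))) :=
    mul_le_mul_of_nonneg_left (by linarith) hσy
  have eM : 1 / (2 * ((K + 1 : ℕ) : ℝ)) = m / 2 := by rw [hm]; field_simp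
  have eD : (1 / 2 + 114 / 100 * max σx σy) * (e0 + e1) / (9787 / 10000) =
      (1 / 2 + 2 * (57 / 100 * max σx σy)) * (e0 / (9787 / 10000) + e1 / (9787 / 10000)) := by ring
  rw [eM, eD]
  set DD := (1 / 2 + 2 * (57 / 100 * max σx σy)) * (e0 / (9787 / 10000) + e1 / (9787 / 10000))
    with hDD
  have fin : Φ + ((1 - l2) * X + Tx) + ((1 - l4) * Y - Ty) - (1 + l2 + l4) * J - V ≤
      X + Y - J + W := by linarith
  refine le_trans ?_ fin
  linarith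

end Rein83
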