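import Pool.Agent.Rein83.FinAssm
import Pool.Agent.Rein83.Near

set_option autoImplicit false

/-! Section F: the near lemma on the four intervals, in terms of the finite configuration. -/

namespace Rein83

open Complex Finset Rein69

/-- value given by the near lemma on the interval `k` -/
noncomputable def nval (ρ : ℕ → ℝ) (B : ℕ → ℂ) (p : ℝ) (k : ℕ) : ℝ :=
  pT (ρ k) (B k) (ρ (k + 1)) (B (k + 1))
  + (cb * pC (ρ k) (B k) (ρ (k + 1)) (B (k + 1)) - ca * pG0 (ρ k) (B k) (ρ (k + 1)) (B (k + 1)))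
  - 2 * pC (ρ k) (B k) (ρ (k + 1)) (B (k + 1)) *
      (214 / 10000 * (tn ρ B (k + 3) / p + tn ρ B k / p)
        + 284 / 100 * ((tn ρ B (k + 3) / p) * (tn ρ B k / p)))
  - (1 + 228 / 100 * max (tn ρ B (k + 3) / p) (tn ρ B k / p)) / (9787 / 10000)
      * (pC (ρ k) (B k) (ρ (k + 1)) (B (k + 1)) / pG0 (ρ k) (B k) (ρ (k + 1)) (B (k + 1)))
      * (Real.sqrt 3 / 2 * ((ρ k ^ 2 - normSq (B k) - 1) + (ρ (k + 1) ^ 2 - normSq (B (k + 1)) - 1)))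

section
variable {N : ℂ → ℝ} (hN : IsSN N) {V : ℝ}
  {Φ ρ : ℕ → ℝ} {b : ℕ → ℂ} (h : HSeq N 4 Φ ρ b) {t : ℝ} {B : ℕ → ℂ} (hF : FI N Φ V t ρ B)
include hN h hF

lemma near_k (hE : ∀ φ, Real.sqrt 3 / 2 ≤ EE N φ) (k : ℕ) {p : ℝ} (hp : 0 < p)
    (hcx : p ≤ pcrx (ρ (k + 3)) (B (k + 3)) (ρ k) (B k) (ρ (k + 1)) (B (k + 1)))
    (hcy : p ≤ pcry (ρ k) (B k) (ρ (k + 1)) (B (k + 1)) (ρ (k + 2)) (B (k + 2)))
    (hσ : tn ρ B (k + 3) / p + tn ρ B k / p ≤ 8 / 100)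
    (hG : 0 < pG0 (ρ k) (B k) (ρ (k + 1)) (B (k + 1)))
    (hG1 : pG0 (ρ k) (B k) (ρ (k + 1)) (B (k + 1)) ≤ 1)
    (hz : pC (ρ k) (B k) (ρ (k + 1)) (B (k + 1)) ≤ 205 / 1000 * pG0 (ρ k) (B k) (ρ (k + 1)) (B (k + 1)))
    (hg2 : pG0 (ρ k) (B k) (ρ (k + 1)) (B (k + 1)) / 2 ≤ pG2 (ρ k) (B k) (ρ (k + 1)) (B (k + 1)))
    (hg2' : pG2 (ρ k) (B k) (ρ (k + 1)) (B (k + 1)) ≤ 85 / 100 * pG0 (ρ k) (B k) (ρ (k + 1)) (B (k + 1)))
    (hg4 : pG0 (ρ k) (B k) (ρ (k + 1)) (B (k + 1)) / 2 ≤ pG4 (ρ k) (B k) (ρ (k + 1)) (B (k + 1)))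
    (hg4' : pG4 (ρ k) (B k) (ρ (k + 1)) (B (k + 1)) ≤ 85 / 100 * pG0 (ρ k) (B k) (ρ (k + 1)) (B (k + 1)))
    {e : ℝ} (he : 0 < e) :
    ∃ S, (∃ j, Ch N (Φ (k + 4 * j)) (Φ (k + 1 + 4 * j)) S) ∧ nval ρ B p k - e ≤ S := by
  set m := 3 * k + 3 with hm
  set j := 2 * k + 3 with hj
  have i2 : 3 * m + 2 = k + 3 + 4 * (2 * k + 2) := by omega
  have i3 : 3 * m + 3 = k + 4 * j := by omega
  have i4 : 3 * m + 4 = k + 1 + 4 * j := by omega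
  have i5 : 3 * m + 5 = k + 2 + 4 * j := by omega
  have i3' : 3 * (m + 1) = k + 4 * j := by omega
  have i4' : 3 * (m + 1) + 1 = k + 1 + 4 * j := by omega
  have etx := hF.tx m
  have ety := hF.ty m
  have ecx := hF.cx m
  have ecy := hF.cy m
  have e0 := hF.G0 (m + 1)
  have e2 := hF.G2 (m + 1)
  have e4 := hF.G4 (m + 1)
  rw [i3, i4] at etx ety ecx ecy
  rw [i2] at etx ecx
  rw [i5] at ety ecy
  rw [i4', i3'] at e0 e2 e4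
  simp only [hF.cf.rj, hF.cf.Bj] at etx ety ecx ecy e0 e2 e4
  have p3 := hF.cf.rper k
  have p3' := hF.cf.Bper k
  have p4 := hF.cf.rper (k + 1)
  have p4' := hF.cf.Bper (k + 1)
  have etn : tn ρ B (k + 3) =
      pturn (ρ (k + 3)) (B (k + 3)) (ρ k) (B k) (ρ (k + 1)) (B (k + 1)) := by
    unfold tn
    rw [show k + 3 + 1 = k + 4 by ring, show k + 3 + 2 = k + 1 + 4 by ring, p3, p3', p4, p4']
  have etn' : tn ρ B k =
      pturn (ρ k) (B k) (ρ (k + 1)) (B (k + 1)) (ρ (k + 2)) (B (k + 2)) := rfl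
  rw [← etn] at etx
  rw [← etn'] at ety
  have t0 := tn_nonneg hN h hF (k + 3)
  have t1 := tn_nonneg hN h hF k
  have l1 : Φ (k + 3 + 4 * (2 * k + 2)) < Φ (k + 4 * j) := h.mono (by omega)
  have l2 : Φ (k + 4 * j) < Φ (k + 1 + 4 * j) := h.mono (by omega)
  have l3 : Φ (k + 1 + 4 * j) < Φ (k + 2 + 4 * j) := h.mono (by omega)
  have l4 : Φ (k + 2 + 4 * j) ≤ tau N (Φ (k + 3 + 4 * (2 * k + 2))) := by
    rw [← h.next]
    exact h.mono.monotone (by omega)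
  have s0 : 0 ≤ tn ρ B (k + 3) / p := div_nonneg t0 hp.le
  have s1 : 0 ≤ tn ρ B k / p := div_nonneg t1 hp.le
  have q1 := hF.TT (k + 4 * j)
  have q2 := hF.C1 (k + 4 * j)
  have q3 := hF.EE (k + 4 * j)
  have q4 := hF.EE (k + 1 + 4 * j)
  have ej : k + 4 * j + 1 = k + 1 + 4 * j := by ring
  rw [ej] at q1 q2
  simp only [hF.cf.rj, hF.cf.Bj] at q1 q2 q3 q4
  obtain ⟨S, hS, hS'⟩ := near_lemma hN hE l1 l2 l3 l4 s0 s1 hσ
    (by rw [ecx]; linarith)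
    (by
      rw [etx, ecx]
      have : tn ρ B (k + 3) = tn ρ B (k + 3) / p * p := by field_simp
      calc tn ρ B (k + 3) = tn ρ B (k + 3) / p * p := this
        _ ≤ _ := mul_le_mul_of_nonneg_left hcx s0)
    (by rw [ecy]; linarith)
    (by
      rw [ety, ecy]
      have : tn ρ B k = tn ρ B k / p * p := by field_simp
      calc tn ρ B k = tn ρ B k / p * p := this
        _ ≤ _ := mul_le_mul_of_nonneg_left hcy s1)
    (by rw [e0]; exact hG) (by rw [e0]; exact hG1) (by rw [e0, q2]; exact hz)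
    (by rw [e0, e2]; exact hg2) (by rw [e0, e2]; exact hg2') (by rw [e0, e4]; exact hg4)
    (by rw [e0, e4]; exact hg4') he
  refine ⟨S, ⟨j, hS⟩, le_trans (le_of_eq ?_) hS'⟩
  rw [q1, q2, q3, q4, e0]
  unfold nval
  ring

/-- passing to the limit -/
theorem near_sum (hV : AreaBd N V) (hE : ∀ φ, Real.sqrt 3 / 2 ≤ EE N φ) {p : ℝ} (hp : 0 < p)
    (hcx : ∀ k, p ≤ pcrx (ρ (k + 3)) (B (k + 3)) (ρ k) (B k) (ρ (k + 1)) (B (k + 1)))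
    (hcy : ∀ k, p ≤ pcry (ρ k) (B k) (ρ (k + 1)) (B (k + 1)) (ρ (k + 2)) (B (k + 2)))
    (hσ : ∀ k, tn ρ B (k + 3) / p + tn ρ B k / p ≤ 8 / 100)
    (hG : ∀ k, 0 < pG0 (ρ k) (B k) (ρ (k + 1)) (B (k + 1)))
    (hG1 : ∀ k, pG0 (ρ k) (B k) (ρ (k + 1)) (B (k + 1)) ≤ 1)
    (hz : ∀ k, pC (ρ k) (B k) (ρ (k + 1)) (B (k + 1)) ≤
      205 / 1000 * pG0 (ρ k) (B k) (ρ (k + 1)) (B (k + 1)))
    (hg2 : ∀ k, pG0 (ρ k) (B k) (ρ (k + 1)) (B (k + 1)) / 2 ≤ pG2 (ρ k) (B k) (ρ (k + 1)) (B (k + 1)))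
    (hg2' : ∀ k, pG2 (ρ k) (B k) (ρ (k + 1)) (B (k + 1)) ≤
      85 / 100 * pG0 (ρ k) (B k) (ρ (k + 1)) (B (k + 1)))
    (hg4 : ∀ k, pG0 (ρ k) (B k) (ρ (k + 1)) (B (k + 1)) / 2 ≤ pG4 (ρ k) (B k) (ρ (k + 1)) (B (k + 1)))
    (hg4' : ∀ k, pG4 (ρ k) (B k) (ρ (k + 1)) (B (k + 1)) ≤
      85 / 100 * pG0 (ρ k) (B k) (ρ (k + 1)) (B (k + 1))) :
    2 * ∑ k ∈ range 4, nval ρ B p k ≤ V := by
  apply le_of_forall_pos_le_add
  intro e he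
  have hex := fun k => near_k hN h hF hE k hp (hcx k) (hcy k) (hσ k) (hG k) (hG1 k) (hz k) (hg2 k)
    (hg2' k) (hg4 k) (hg4' k) (e := e / 8) (by positivity)
  choose S hS hS' using hex
  have hA := area4 hN h hV hS
  have : ∑ k ∈ range 4, (nval ρ B p k - e / 8) ≤ ∑ k ∈ range 4, S k :=
    Finset.sum_le_sum fun k _ => hS' k
  rw [Finset.sum_sub_distrib] at this
  simp only [Finset.sum_const, Finset.card_range, nsmul_eq_mul] at this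
  push_cast at this
  linarith

end

end Rein83
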