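import Pool.Agent.Rein83.NearDefs

set_option autoImplicit false

/-! Properties of the hyperbola profile `ph`. -/

namespace Rein83

open Finset

lemma ph_zero (z : ℝ) : ph z 0 = 0 := by
  unfold ph; simp

lemma ph_one (z : ℝ) : ph z 1 = 0 := by
  unfold ph; simp

/-- the radicand -/
lemma rad_eq (z s : ℝ) : 1 - 4 * z ^ 2 * s * (1 - s) = (1 - z ^ 2) + (z * (1 - 2 * s)) ^ 2 := by
  ring

lemma rad_pos {z : ℝ} (hz0 : 0 < z) (hz1 : z ≤ 205 / 1000) (s : ℝ) :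
    (9787 / 10000 : ℝ) ^ 2 ≤ 1 - 4 * z ^ 2 * s * (1 - s) := by
  rw [rad_eq]
  have h1 : z ^ 2 ≤ (205 / 1000) ^ 2 := by nlinarith
  have h2 := sq_nonneg (z * (1 - 2 * s))
  norm_num at h1 ⊢
  linarith

lemma R_ge {z : ℝ} (hz0 : 0 < z) (hz1 : z ≤ 205 / 1000) (s : ℝ) :
    9787 / 10000 ≤ Real.sqrt (1 - 4 * z ^ 2 * s * (1 - s)) :=
  Real.le_sqrt_of_sq_le (rad_pos hz0 hz1 s)

lemma R_sq {z : ℝ} (hz0 : 0 < z) (hz1 : z ≤ 205 / 1000) (s : ℝ) :
    Real.sqrt (1 - 4 * z ^ 2 * s * (1 - s)) ^ 2 = 1 - 4 * z ^ 2 * s * (1 - s) := by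
  apply Real.sq_sqrt
  have := rad_pos hz0 hz1 s
  have h2 : (0 : ℝ) ≤ (9787 / 10000) ^ 2 := by positivity
  linarith

lemma ph_two {z : ℝ} (hz0 : 0 < z) (s : ℝ) :
    2 * z * ph z s = 1 - Real.sqrt (1 - 4 * z ^ 2 * s * (1 - s)) := by
  unfold ph; field_simp

lemma ph_eq {z : ℝ} (hz0 : 0 < z) (hz1 : z ≤ 205 / 1000) (s : ℝ) :
    ph z s - z * ph z s ^ 2 = z * s * (1 - s) := by
  have h1 := ph_two hz0 s
  have h2 := R_sq hz0 hz1 s
  set R := Real.sqrt (1 - 4 * z ^ 2 * s * (1 - s))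
  have h3 : R = 1 - 2 * z * ph z s := by linarith
  rw [h3] at h2
  have h4 : 4 * z * (ph z s - z * ph z s ^ 2 - z * s * (1 - s)) = 0 := by
    linarith
  have h5 : (4 * z) ≠ 0 := by positivity
  have := (mul_eq_zero.mp h4).resolve_left h5
  linarith

lemma ph_nonneg {z : ℝ} (hz0 : 0 < z) {s : ℝ} (hs0 : 0 ≤ s) (hs1 : s ≤ 1) : 0 ≤ ph z s := by
  unfold ph
  apply div_nonneg _ (by positivity)
  have h : Real.sqrt (1 - 4 * z ^ 2 * s * (1 - s)) ≤ 1 := by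
    rw [Real.sqrt_le_left (by norm_num)]
    have : 0 ≤ 4 * z ^ 2 * s * (1 - s) := by
      have : 0 ≤ 1 - s := by linarith
      positivity
    linarith
  linarith

lemma ph_mu {z : ℝ} (hz0 : 0 < z) (hz1 : z ≤ 205 / 1000) (s : ℝ) :
    2 * z * ph z s ≤ 213 / 10000 := by
  have h1 := ph_two hz0 s
  have h2 := R_ge hz0 hz1 s
  linarith

lemma ph_lin {z : ℝ} (hz0 : 0 < z) (hz1 : z ≤ 205 / 1000) {s : ℝ} (hs0 : 0 ≤ s) (hs1 : s ≤ 1) :
    98935 / 100000 * ph z s ≤ z * s * (1 - s) := by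
  have h1 := ph_eq hz0 hz1 s
  have h2 := ph_mu hz0 hz1 s
  have h3 := ph_nonneg hz0 hs0 hs1
  linarith [mul_nonneg h3 (show 0 ≤ 213 / 10000 - 2 * z * ph z s by linarith)]

lemma ph_max {z : ℝ} (hz0 : 0 < z) (hz1 : z ≤ 205 / 1000) {s : ℝ} (hs0 : 0 ≤ s) (hs1 : s ≤ 1) :
    ph z s ≤ 5181 / 100000 := by
  have h1 := ph_lin hz0 hz1 hs0 hs1
  have h2 : s * (1 - s) ≤ 1 / 4 := by linarith [sq_nonneg (s - 1 / 2)]
  have h3 : z * (s * (1 - s)) ≤ z * (1 / 4) := mul_le_mul_of_nonneg_left h2 hz0.le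
  linarith

/-- convexity of the root -/
lemma root_convex {c a b : ℝ} (hc : 0 ≤ c) :
    2 * Real.sqrt (c + ((a + b) / 2) ^ 2) ≤ Real.sqrt (c + a ^ 2) + Real.sqrt (c + b ^ 2) := by
  have ha : 0 ≤ c + a ^ 2 := by positivity
  have hb : 0 ≤ c + b ^ 2 := by positivity
  have h1 : c + a * b ≤ Real.sqrt (c + a ^ 2) * Real.sqrt (c + b ^ 2) := by
    rw [← Real.sqrt_mul ha]
    apply Real.le_sqrt_of_sq_le
    linarith [mul_nonneg hc (sq_nonneg (a - b))]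
  have h2 : Real.sqrt (c + ((a + b) / 2) ^ 2) ≤
      (Real.sqrt (c + a ^ 2) + Real.sqrt (c + b ^ 2)) / 2 := by
    apply Real.sqrt_le_iff.mpr
    constructor
    · positivity
    · have s1 := Real.sq_sqrt ha
      have s2 := Real.sq_sqrt hb
      linarith
  linarith

lemma ph_concave {z : ℝ} (hz0 : 0 < z) (hz1 : z ≤ 205 / 1000) (s t : ℝ) :
    ph z s + ph z t ≤ 2 * ph z ((s + t) / 2) := by
  have h1 := ph_two hz0 s
  have h2 := ph_two hz0 t
  have h3 := ph_two hz0 ((s + t) / 2)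
  rw [rad_eq] at h1 h2 h3
  have hc : 0 ≤ 1 - z ^ 2 := by nlinarith
  have h4 := root_convex (a := z * (1 - 2 * s)) (b := z * (1 - 2 * t)) hc
  have e : (z * (1 - 2 * s) + z * (1 - 2 * t)) / 2 = z * (1 - 2 * ((s + t) / 2)) := by ring
  rw [e] at h4
  have h5 : 2 * z * (ph z s + ph z t) ≤ 2 * z * (2 * ph z ((s + t) / 2)) := by linarith
  have h6 : 0 < 2 * z := by positivity
  exact le_of_mul_le_mul_left h5 h6

lemma root_key {z w : ℝ} (hz0 : 0 < z) (hz1 : z < 1) (hw : |w| ≤ z) :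
    |w| ≤ z * Real.sqrt (1 - z ^ 2 + w ^ 2) := by
  have hc : 0 < 1 - z ^ 2 := by nlinarith
  have hw0 : 0 ≤ 1 - z ^ 2 + w ^ 2 := by positivity
  apply le_of_sq_le_sq _ (by positivity)
  rw [mul_pow, Real.sq_sqrt hw0, sq_abs]
  have h1 : w ^ 2 ≤ z ^ 2 := by rw [← sq_abs w]; exact pow_le_pow_left₀ (abs_nonneg w) hw 2
  nlinarith

lemma root_lip {z a b : ℝ} (hz0 : 0 < z) (hz1 : z < 1) (ha : |a| ≤ z) (hb : |b| ≤ z) :
    Real.sqrt (1 - z ^ 2 + a ^ 2) - Real.sqrt (1 - z ^ 2 + b ^ 2) ≤ z * |a - b| := by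
  have hc : 0 < 1 - z ^ 2 := by nlinarith
  have ha0 : 0 ≤ 1 - z ^ 2 + a ^ 2 := by positivity
  have hb0 : 0 ≤ 1 - z ^ 2 + b ^ 2 := by positivity
  have k1 := root_key hz0 hz1 ha
  have k2 := root_key hz0 hz1 hb
  have s1 := Real.sq_sqrt ha0
  have s2 := Real.sq_sqrt hb0
  have p1 : 0 < Real.sqrt (1 - z ^ 2 + a ^ 2) := Real.sqrt_pos.mpr (by positivity)
  have p2 : 0 < Real.sqrt (1 - z ^ 2 + b ^ 2) := Real.sqrt_pos.mpr (by positivity)
  set u := Real.sqrt (1 - z ^ 2 + a ^ 2)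
  set v := Real.sqrt (1 - z ^ 2 + b ^ 2)
  have h1 : (u - v) * (u + v) = (a - b) * (a + b) := by linarith
  have h2 : (a - b) * (a + b) ≤ |a - b| * (z * (u + v)) := by
    calc (a - b) * (a + b) ≤ |(a - b) * (a + b)| := le_abs_self _
      _ = |a - b| * |a + b| := abs_mul _ _
      _ ≤ |a - b| * (z * (u + v)) := by
        apply mul_le_mul_of_nonneg_left _ (abs_nonneg _)
        have := abs_add_le a b
        linarith
  have h3 : (u - v) * (u + v) ≤ (z * |a - b|) * (u + v) := by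
    rw [h1]; linarith
  exact le_of_mul_le_mul_right h3 (by positivity)

lemma ph_lip {z : ℝ} (hz0 : 0 < z) (hz1 : z ≤ 205 / 1000) {s t : ℝ} (hs0 : 0 ≤ s) (hs1 : s ≤ 1)
    (ht0 : 0 ≤ t) (ht1 : t ≤ 1) : ph z s - ph z t ≤ z * |s - t| := by
  have h1 := ph_two hz0 s
  have h2 := ph_two hz0 t
  rw [rad_eq] at h1 h2
  have hb : ∀ w : ℝ, 0 ≤ w → w ≤ 1 → |z * (1 - 2 * w)| ≤ z := by
    intro w h0 h1
    rw [abs_mul, abs_of_pos hz0]
    have : |1 - 2 * w| ≤ 1 := abs_le.mpr ⟨by linarith, by linarith⟩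
    nlinarith
  have h3 := root_lip hz0 (by linarith) (hb t ht0 ht1) (hb s hs0 hs1)
  have e : |z * (1 - 2 * t) - z * (1 - 2 * s)| = 2 * z * |s - t| := by
    have : z * (1 - 2 * t) - z * (1 - 2 * s) = 2 * z * (s - t) := by ring
    rw [this, abs_mul, abs_of_pos (by positivity : (0 : ℝ) < 2 * z)]
  rw [e] at h3
  have h4 : 2 * z * (ph z s - ph z t) ≤ 2 * z * (z * |s - t|) := by linarith
  exact le_of_mul_le_mul_left h4 (by positivity)

lemma sum_sq_id (M : ℕ) : 6 * ∑ i ∈ range M, ((i : ℝ) * (M - i)) = (M : ℝ) ^ 3 - M := by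
  have h : ∀ n : ℕ, 6 * ∑ i ∈ range n, ((i : ℝ) * (M - i)) =
      3 * (M : ℝ) * (n * (n - 1)) - (n * (n - 1) * (2 * n - 1)) := by
    intro n
    induction n with
    | zero => simp
    | succ n ih =>
      rw [Finset.sum_range_succ, mul_add, ih]; push_cast; ring
  rw [h]; ring

lemma Ph_le {z : ℝ} (hz0 : 0 < z) (hz1 : z ≤ 205 / 1000) {M : ℕ} (hM : 0 < M) :
    Ph z M ≤ 3454 / 100000 := by
  have hM' : (0 : ℝ) < M := by exact_mod_cast hM
  have h1 : 98935 / 100000 * ∑ i ∈ range M, ph z (i / M) ≤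
      z * ((∑ i ∈ range M, ((i : ℝ) * (M - i))) / M ^ 2) := by
    rw [Finset.mul_sum, Finset.sum_div, Finset.mul_sum]
    apply Finset.sum_le_sum
    intro i hi
    have hi' : (i : ℝ) ≤ M := by exact_mod_cast (Finset.mem_range.mp hi).le
    have := ph_lin hz0 hz1 (s := (i : ℝ) / M) (by positivity) (by rw [div_le_one hM']; exact hi')
    have e : z * (i / M : ℝ) * (1 - i / M) = z * ((i : ℝ) * (M - i) / M ^ 2) := by field_simp
    rw [← e]; exact this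
  have h2 := sum_sq_id M
  have h3 : (∑ i ∈ range M, ((i : ℝ) * (M - i))) / M ^ 2 ≤ M / 6 := by
    rw [div_le_iff₀ (by positivity)]
    have : ∑ i ∈ range M, ((i : ℝ) * (M - i)) ≤ (M : ℝ) ^ 3 / 6 := by linarith
    calc _ ≤ (M : ℝ) ^ 3 / 6 := this
      _ = M / 6 * M ^ 2 := by ring
  unfold Ph
  rw [div_le_iff₀ hM']
  have h4 : z * ((∑ i ∈ range M, ((i : ℝ) * (M - i))) / M ^ 2) ≤ 205 / 1000 * (M / 6) :=
    mul_le_mul hz1 h3 (div_nonneg (Finset.sum_nonneg (fun i hi => by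
      have hi' : (i : ℝ) ≤ M := by exact_mod_cast (Finset.mem_range.mp hi).le
      have : (0 : ℝ) ≤ M - i := by linarith
      positivity)) (by positivity)) (by norm_num)
  linarith

lemma Ph_nonneg {z : ℝ} (hz0 : 0 < z) (M : ℕ) : 0 ≤ Ph z M := by
  unfold Ph
  apply div_nonneg _ (Nat.cast_nonneg M)
  apply Finset.sum_nonneg
  intro i hi
  have hi' : (i : ℝ) < M := by exact_mod_cast (Finset.mem_range.mp hi)
  have hM' : (0 : ℝ) < M := lt_of_le_of_lt (Nat.cast_nonneg i) hi'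
  exact ph_nonneg hz0 (by positivity) (by rw [div_le_one hM']; exact hi'.le)

end Rein83
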