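import Pool.Agent.Rein83.NearSum

set_option autoImplicit false

/-! (E1) the near lemma for sequences. -/

namespace Rein83

open Finset

/-- first order lower bound for the main height -/
lemma step_one {z g2 g4 f A x y D : ℝ} (hz0 : 0 < z) (hg2 : 1 / 2 ≤ g2)
    (hg4 : 1 / 2 ≤ g4) (hf1 : 2 * z * f ≤ 213 / 10000) (hx : 0 ≤ x)
    (hy : 0 ≤ y) (hD : 0 ≤ D)
    (hcon : (f - z * f ^ 2) - D ≤ A + g2 * x + g4 * y
      + 2 * z * (A * x + A * y + x * y - (A ^ 2 + x ^ 2 + y ^ 2) / 2)) :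
    f - (g2 + 213 / 10000) / (9787 / 10000) * x - (g4 + 213 / 10000) / (9787 / 10000) * y
      - D / (9787 / 10000) ≤ A := by
  have e : f - (g2 + 213 / 10000) / (9787 / 10000) * x - (g4 + 213 / 10000) / (9787 / 10000) * y
      - D / (9787 / 10000) = f - ((g2 + 213 / 10000) * x + (g4 + 213 / 10000) * y + D) /
        (9787 / 10000) := by ring
  rw [e, sub_le_iff_le_add, ← sub_le_iff_le_add', le_div_iff₀ (by norm_num)]
  set a := f - A with ha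
  by_cases h : a ≤ 0
  · have h1 : 0 ≤ (g2 + 213 / 10000) * x + (g4 + 213 / 10000) * y + D := by positivity
    linarith
  · push Not at h
    have hA : A = f - a := by rw [ha]; ring
    rw [hA] at hcon
    have k1 : 0 ≤ a * (213 / 10000 - 2 * z * f) := mul_nonneg h.le (by linarith)
    have k2 : 0 ≤ x * (213 / 10000 - 2 * z * f) := mul_nonneg hx (by linarith)
    have k3 : 0 ≤ y * (213 / 10000 - 2 * z * f) := mul_nonneg hy (by linarith)
    have k4 : 0 ≤ z * a * (x + y) := by positivity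
    have k5 : 0 ≤ z * (x - y) ^ 2 := by positivity
    have k6 : 0 ≤ z * a ^ 2 := by positivity
    linarith

section
variable {K : ℕ} {z g2 g4 e0 e1 σx σy : ℝ} {A x y : ℕ → ℝ}

/-- one step of the difference of the small heights -/
lemma step_two (h : NearSeq (K + 1) z g2 g4 e0 e1 σx σy A x y) (hσx : 0 ≤ σx) (hσy : 0 ≤ σy)
    (hσ : σx + σy ≤ 8 / 100) {i : ℕ} (hi : i < K + 1) :
    (x (i + 1) - x i) - (y (i + 1) - y i) ≤ 174 / 1000 * (1 / ((K + 1 : ℕ) : ℝ)) := by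
  have d1 := h.dξ i hi
  have d2 := h.dη i hi
  have d3 := h.dx i hi
  have d4 := h.dy i hi
  set m := 1 / ((K + 1 : ℕ) : ℝ) with hm
  have k1 : σx * (m + (A (i + 1) - A i) - (y (i + 1) - y i)) ≤
      8 / 100 * (m + (A (i + 1) - A i) - (y (i + 1) - y i)) :=
    mul_le_mul_of_nonneg_right (by linarith) d1.le
  have k2 : σy * (m + (x (i + 1) - x i) - (A (i + 1) - A i)) ≤
      8 / 100 * (m + (x (i + 1) - x i) - (A (i + 1) - A i)) :=
    mul_le_mul_of_nonneg_right (by linarith) d2.le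
  have hm0 : 0 < m := by rw [hm]; positivity
  linarith

/-- the gain by summation by parts -/
lemma cap_eq (h : NearSeq (K + 1) z g2 g4 e0 e1 σx σy A x y) :
    cap (K + 1) A x y = (1 / ((K + 1 : ℕ) : ℝ)) * ∑ i ∈ range K, x (i + 1)
      + (1 / ((K + 1 : ℕ) : ℝ)) * ∑ i ∈ range K, y (i + 1)
      - ∑ i ∈ range K, x (i + 1) * (y (i + 2) - y i)
      + ∑ i ∈ range K, A (i + 1) * (1 / ((K + 1 : ℕ) : ℝ) +
          ((y (i + 2) - x (i + 2)) - (y i - x i))) := by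
  unfold cap
  have c1 : ∑ i ∈ range (K + 1), (A i + x i + y i) = ∑ i ∈ range K, A (i + 1) +
      ∑ i ∈ range K, x (i + 1) + ∑ i ∈ range K, y (i + 1) := by
    rw [Finset.sum_add_distrib, Finset.sum_add_distrib, sum_int h.A0, sum_int h.x0, sum_int h.y0]
  have c2 : ∑ i ∈ range (K + 1), ((x i * A (i + 1) - x (i + 1) * A i) +
      (A i * y (i + 1) - A (i + 1) * y i) + (y i * x (i + 1) - y (i + 1) * x i)) =
      ∑ i ∈ range K, x (i + 1) * (A (i + 2) - A i) + ∑ i ∈ range K, A (i + 1) * (y (i + 2) - y i) +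
      ∑ i ∈ range K, y (i + 1) * (x (i + 2) - x i) := by
    rw [Finset.sum_add_distrib, Finset.sum_add_distrib, wedge_int h.x0 h.xM,
      wedge_int h.A0 h.AM, wedge_int h.y0 h.yM]
  rw [c1, c2, sbp0 h.x0 h.xM h.A0 h.AM, sbp0 h.y0 h.yM h.x0 h.xM]
  have c3 : ∑ i ∈ range K, A (i + 1) * (1 / ((K + 1 : ℕ) : ℝ) +
      ((y (i + 2) - x (i + 2)) - (y i - x i))) =
      1 / ((K + 1 : ℕ) : ℝ) * ∑ i ∈ range K, A (i + 1) +
      ∑ i ∈ range K, A (i + 1) * (y (i + 2) - y i) -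
      ∑ i ∈ range K, A (i + 1) * (x (i + 2) - x i) := by
    rw [Finset.mul_sum, ← Finset.sum_add_distrib, ← Finset.sum_sub_distrib]
    apply Finset.sum_congr rfl
    intro i _; ring
  rw [c3]; ring

lemma self_zero {f : ℕ → ℝ} (f0 : f 0 = 0) (fM : f (K + 1) = 0) :
    ∑ i ∈ range K, f (i + 1) * (f (i + 2) - f i) = 0 := by
  have := sbp0 f0 fM f0 fM
  linarith

lemma sum_id (K : ℕ) : ∑ i ∈ range K, ((i : ℝ) + 1) = K * (K + 1) / 2 := by
  induction K with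
  | zero => simp
  | succ K ih => rw [Finset.sum_range_succ, ih]; push_cast; ring

/-- the loss caused by the determinants at the end points -/
lemma dsum (h : NearSeq (K + 1) z g2 g4 e0 e1 σx σy A x y) (hK : 0 < K) (hσx : 0 ≤ σx)
    (hσy : 0 ≤ σy) (hσ : σx + σy ≤ 8 / 100) {p q Z : ℝ} (hp : 0 ≤ p) (hq : 0 ≤ q)
    (hX : (1 / ((K + 1 : ℕ) : ℝ)) * ∑ i ∈ range K, x (i + 1) ≤ Z)
    (hY : (1 / ((K + 1 : ℕ) : ℝ)) * ∑ i ∈ range K, y (i + 1) ≤ Z) :
    ∑ i ∈ range K, (p + ((i : ℝ) + 1) / ((K + 1 : ℕ) : ℝ) * (q - p)) *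
      (1 / ((K + 1 : ℕ) : ℝ) + ((y (i + 2) - x (i + 2)) - (y i - x i))) ≤
      (1 / 2 + 2 * Z) * (p + q) := by
  have s0 := step_two h hσx hσy hσ (i := 0) (by omega)
  have s1 := step_two h hσx hσy hσ (i := K) (by omega)
  rw [h.x0, h.y0] at s0
  rw [h.xM, h.yM] at s1
  have hKr : (0 : ℝ) < K := by exact_mod_cast hK
  have hn0 : (0 : ℝ) < ((K + 1 : ℕ) : ℝ) := by positivity
  have hn : ((K + 1 : ℕ) : ℝ) = K + 1 := by push_cast; ring
  set n : ℝ := ((K + 1 : ℕ) : ℝ) with hndef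
  set X := 1 / n * ∑ i ∈ range K, x (i + 1) with hXdef
  set Y := 1 / n * ∑ i ∈ range K, y (i + 1) with hYdef
  have hX0 : 0 ≤ X := mul_nonneg (by positivity)
    (Finset.sum_nonneg (fun i hi => h.xn _ (by have := mem_range.mp hi; omega)))
  have hY0 : 0 ≤ Y := mul_nonneg (by positivity)
    (Finset.sum_nonneg (fun i hi => h.yn _ (by have := mem_range.mp hi; omega)))
  have hb := sbp (fun i => p + (i : ℝ) / n * (q - p)) (fun i => y i - x i) K
  simp only [Nat.cast_add, Nat.cast_one, Nat.cast_zero, h.x0, h.y0, h.xM, h.yM, zero_div, zero_mul,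
    add_zero, sub_self, mul_zero, zero_add] at hb
  have c1 : ∑ i ∈ range K, (y (i + 1) - x (i + 1)) *
      (p + ((i : ℝ) + ((2 : ℕ) : ℝ)) / n * (q - p) - (p + (i : ℝ) / n * (q - p))) =
      2 * (q - p) * (Y - X) := by
    rw [hXdef, hYdef, ← mul_sub, ← Finset.sum_sub_distrib, Finset.mul_sum, Finset.mul_sum]
    apply Finset.sum_congr rfl
    intro i _
    push_cast
    field_simp
    ring
  rw [c1] at hb
  have c2 : ∑ i ∈ range K, (p + ((i : ℝ) + 1) / n * (q - p)) *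
      (1 / n + ((y (i + 2) - x (i + 2)) - (y i - x i))) =
      1 / n * ∑ i ∈ range K, (p + ((i : ℝ) + 1) / n * (q - p)) +
      ∑ i ∈ range K, (p + ((i : ℝ) + 1) / n * (q - p)) *
        (y (i + 2) - x (i + 2) - (y i - x i)) := by
    rw [Finset.mul_sum, ← Finset.sum_add_distrib]
    apply Finset.sum_congr rfl
    intro i _; ring
  have c3 : ∑ i ∈ range K, (p + ((i : ℝ) + 1) / n * (q - p)) = K * (p + q) / 2 := by
    rw [Finset.sum_add_distrib, Finset.sum_const, card_range, nsmul_eq_mul]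
    have : ∑ i ∈ range K, ((i : ℝ) + 1) / n * (q - p) =
        (∑ i ∈ range K, ((i : ℝ) + 1)) * ((q - p) / n) := by
      rw [Finset.sum_mul]
      apply Finset.sum_congr rfl
      intro i _; ring
    rw [this, sum_id, hn]
    field_simp
    ring
  rw [c2, c3]
  have c4 : (K : ℝ) / n = 1 - 1 / n := by rw [hn]; field_simp; ring
  have c5 : 1 / n * (K * (p + q) / 2) = (1 - 1 / n) * (p + q) / 2 := by
    rw [← c4]; ring
  rw [c5]
  have c6 : p + (K + 1) / n * (q - p) = q := by rw [hn]; field_simp; ring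
  rw [c6] at hb
  have hm0 : 0 < 1 / n := by positivity
  have k1 : (y K - x K) * q ≤ 174 / 1000 * (1 / n) * q :=
    mul_le_mul_of_nonneg_right (by linarith) hq
  have k2 : -(p * (y 1 - x 1)) ≤ 174 / 1000 * (1 / n) * p := by
    have : -(y 1 - x 1) ≤ 174 / 1000 * (1 / n) := by linarith
    have := mul_le_mul_of_nonneg_right this hp
    linarith
  have k3 : -(2 * (q - p) * (Y - X)) ≤ 2 * Z * (p + q) := by
    have j1 : 0 ≤ p * X := mul_nonneg hp hX0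
    have j2 : 0 ≤ q * Y := mul_nonneg hq hY0
    have j3 : 0 ≤ p * Y := mul_nonneg hp hY0
    have j4 : 0 ≤ q * X := mul_nonneg hq hX0
    have j5 : p * Y ≤ p * Z := mul_le_mul_of_nonneg_left hY hp
    have j6 : q * X ≤ q * Z := mul_le_mul_of_nonneg_left hX hq
    have j7 : 0 ≤ p * Z := j3.trans j5
    have j8 : 0 ≤ q * Z := j4.trans j6
    linarith
  have k4 : 0 ≤ 1 / n * p := by positivity
  have k5 : 0 ≤ 1 / n * q := by positivity
  linarith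

/-- positions -/
lemma xi_pos (h : NearSeq (K + 1) z g2 g4 e0 e1 σx σy A x y) {i : ℕ} (hi : i < K + 1) :
    0 < ((i + 1 : ℕ) : ℝ) / ((K + 1 : ℕ) : ℝ) + A (i + 1) - y (i + 1) := by
  induction i with
  | zero =>
    have := h.dξ 0 hi
    rw [h.A0, h.y0] at this
    simp only [zero_add, sub_zero] at this ⊢
    push_cast at this ⊢
    linarith
  | succ i ih =>
    have h1 := ih (by omega)
    have h2 := h.dξ (i + 1) hi
    have e : ((i + 1 + 1 : ℕ) : ℝ) / ((K + 1 : ℕ) : ℝ) = ((i + 1 : ℕ) : ℝ) / ((K + 1 : ℕ) : ℝ) +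
        1 / ((K + 1 : ℕ) : ℝ) := by
      push_cast; ring
    rw [e]
    linarith

lemma eta_pos (h : NearSeq (K + 1) z g2 g4 e0 e1 σx σy A x y) {j : ℕ} (hj : j < K + 1) :
    0 < 1 - (((K - j : ℕ) : ℝ) / ((K + 1 : ℕ) : ℝ) + x (K - j) - A (K - j)) := by
  have hn0 : (0 : ℝ) < ((K + 1 : ℕ) : ℝ) := by positivity
  induction j with
  | zero =>
    have := h.dη K (by omega)
    rw [h.xM, h.AM] at this
    simp only [Nat.sub_zero]
    have e : (1 : ℝ) - (K : ℝ) / ((K + 1 : ℕ) : ℝ) = 1 / ((K + 1 : ℕ) : ℝ) := by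
      field_simp; push_cast; ring
    linarith
  | succ j ih =>
    have h1 := ih (by omega)
    have h2 := h.dη (K - (j + 1)) (by omega)
    have e0 : K - (j + 1) + 1 = K - j := by omega
    rw [e0] at h2
    have e : ((K - j : ℕ) : ℝ) / ((K + 1 : ℕ) : ℝ) = ((K - (j + 1) : ℕ) : ℝ) / ((K + 1 : ℕ) : ℝ) +
        1 / ((K + 1 : ℕ) : ℝ) := by
      rw [← add_div]; congr 1
      have : ((K - j : ℕ) : ℝ) = ((K - (j + 1) + 1 : ℕ) : ℝ) := by rw [e0]
      rw [this]; push_cast; ring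
    rw [e] at h1
    linarith

lemma eta_pos' (h : NearSeq (K + 1) z g2 g4 e0 e1 σx σy A x y) {i : ℕ} (hi : i ≤ K) :
    0 < 1 - ((i : ℝ) / ((K + 1 : ℕ) : ℝ) + x i - A i) := by
  have := eta_pos h (j := K - i) (by omega)
  have e : K - (K - i) = i := by omega
  rw [e] at this
  exact this

/-- the mean of the positions `ξ` -/
lemma sum_xi (A y : ℕ → ℝ) (hK : 0 < K) : (1 / ((K + 1 : ℕ) : ℝ)) * ∑ i ∈ range K,
      (((i + 1 : ℕ) : ℝ) / ((K + 1 : ℕ) : ℝ) + A (i + 1) - y (i + 1)) =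
    (1 - 1 / ((K + 1 : ℕ) : ℝ)) / 2 + (1 / ((K + 1 : ℕ) : ℝ)) * ∑ i ∈ range K, A (i + 1) -
      (1 / ((K + 1 : ℕ) : ℝ)) * ∑ i ∈ range K, y (i + 1) := by
  have hn0 : (0 : ℝ) < ((K + 1 : ℕ) : ℝ) := by positivity
  have hn : ((K + 1 : ℕ) : ℝ) = K + 1 := by push_cast; ring
  rw [Finset.sum_sub_distrib, Finset.sum_add_distrib]
  have : ∑ i ∈ range K, ((i + 1 : ℕ) : ℝ) / ((K + 1 : ℕ) : ℝ) = K / 2 := by
    rw [← Finset.sum_div]
    have e : ∑ i ∈ range K, ((i + 1 : ℕ) : ℝ) = ∑ i ∈ range K, ((i : ℝ) + 1) := by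
      apply Finset.sum_congr rfl; intro i _; push_cast; ring
    rw [e, sum_id, hn]
    field_simp
  rw [this]
  have c4 : (1 / ((K + 1 : ℕ) : ℝ)) * (K / 2) = (1 - 1 / ((K + 1 : ℕ) : ℝ)) / 2 := by
    rw [hn]; field_simp; ring
  rw [mul_sub, mul_add, c4]

lemma sum_eta (A x : ℕ → ℝ) (hK : 0 < K) : (1 / ((K + 1 : ℕ) : ℝ)) * ∑ i ∈ range K,
      (1 - (((i + 1 : ℕ) : ℝ) / ((K + 1 : ℕ) : ℝ) + x (i + 1) - A (i + 1))) =
    (1 - 1 / ((K + 1 : ℕ) : ℝ)) / 2 + (1 / ((K + 1 : ℕ) : ℝ)) * ∑ i ∈ range K, A (i + 1) -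
      (1 / ((K + 1 : ℕ) : ℝ)) * ∑ i ∈ range K, x (i + 1) := by
  have hn0 : (0 : ℝ) < ((K + 1 : ℕ) : ℝ) := by positivity
  have hn : ((K + 1 : ℕ) : ℝ) = K + 1 := by push_cast; ring
  rw [Finset.sum_sub_distrib, Finset.sum_sub_distrib, Finset.sum_add_distrib, Finset.sum_const,
    card_range, nsmul_eq_mul, mul_one]
  have : ∑ i ∈ range K, ((i + 1 : ℕ) : ℝ) / ((K + 1 : ℕ) : ℝ) = K / 2 := by
    rw [← Finset.sum_div]
    have e : ∑ i ∈ range K, ((i + 1 : ℕ) : ℝ) = ∑ i ∈ range K, ((i : ℝ) + 1) := by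
      apply Finset.sum_congr rfl; intro i _; push_cast; ring
    rw [e, sum_id, hn]
    field_simp
  rw [this]
  have c4 : (1 / ((K + 1 : ℕ) : ℝ)) * (K / 2) = (1 - 1 / ((K + 1 : ℕ) : ℝ)) / 2 := by
    rw [hn]; field_simp; ring
  have c5 : (1 / ((K + 1 : ℕ) : ℝ)) * K = 1 - 1 / ((K + 1 : ℕ) : ℝ) := by
    rw [hn]; field_simp; ring
  rw [mul_sub, mul_sub, mul_add, c4, c5]
  ring

/-- bound for the means of the small heights -/
lemma X_le (h : NearSeq (K + 1) z g2 g4 e0 e1 σx σy A x y) (hK : 0 < K) (hσx : 0 ≤ σx)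
    {Φ : ℝ} (hΦ : 0 ≤ Φ) (hA : ∀ i, i < K → A (i + 1) ≤ 2 * Φ) :
    (1 / ((K + 1 : ℕ) : ℝ)) * ∑ i ∈ range K, x (i + 1) ≤ σx * (1 / 2 + 2 * Φ) := by
  have hn0 : (0 : ℝ) < ((K + 1 : ℕ) : ℝ) := by positivity
  have hm0 : 0 < 1 / ((K + 1 : ℕ) : ℝ) := by positivity
  have h1 : ∑ i ∈ range K, x (i + 1) ≤ σx * ∑ i ∈ range K,
      (((i + 1 : ℕ) : ℝ) / ((K + 1 : ℕ) : ℝ) + A (i + 1) - y (i + 1)) := by
    rw [Finset.mul_sum]
    exact Finset.sum_le_sum (fun i hi => h.sx (i + 1) (by have := mem_range.mp hi; omega))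
  have h2 := mul_le_mul_of_nonneg_left h1 hm0.le
  have h3 := sum_xi A y hK
  have h4 : ∑ i ∈ range K, A (i + 1) ≤ K * (2 * Φ) := by
    have := Finset.sum_le_sum (fun i hi => hA i (mem_range.mp hi))
    rwa [Finset.sum_const, card_range, nsmul_eq_mul] at this
  have h5 : 0 ≤ ∑ i ∈ range K, y (i + 1) :=
    Finset.sum_nonneg (fun i hi => h.yn _ (by have := mem_range.mp hi; omega))
  have h6 : 1 / ((K + 1 : ℕ) : ℝ) * (K * (2 * Φ)) ≤ 2 * Φ := by
    have : 1 / ((K + 1 : ℕ) : ℝ) * (K * (2 * Φ)) = (K / ((K + 1 : ℕ) : ℝ)) * (2 * Φ) := by ring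
    rw [this]
    have h7 : (K : ℝ) / ((K + 1 : ℕ) : ℝ) ≤ 1 := by
      rw [div_le_one hn0]; push_cast; linarith
    nlinarith
  have h7 := mul_le_mul_of_nonneg_left h4 hm0.le
  have h8 : 0 ≤ 1 / ((K + 1 : ℕ) : ℝ) * ∑ i ∈ range K, y (i + 1) := by positivity
  have e : 1 / ((K + 1 : ℕ) : ℝ) * (σx * ∑ i ∈ range K,
      (((i + 1 : ℕ) : ℝ) / ((K + 1 : ℕ) : ℝ) + A (i + 1) - y (i + 1))) =
      σx * ((1 / ((K + 1 : ℕ) : ℝ)) * ∑ i ∈ range K,
      (((i + 1 : ℕ) : ℝ) / ((K + 1 : ℕ) : ℝ) + A (i + 1) - y (i + 1))) := by ring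
  rw [e, h3] at h2
  refine h2.trans (mul_le_mul_of_nonneg_left ?_ hσx)
  linarith

lemma Y_le (h : NearSeq (K + 1) z g2 g4 e0 e1 σx σy A x y) (hK : 0 < K) (hσy : 0 ≤ σy)
    {Φ : ℝ} (hΦ : 0 ≤ Φ) (hA : ∀ i, i < K → A (i + 1) ≤ 2 * Φ) :
    (1 / ((K + 1 : ℕ) : ℝ)) * ∑ i ∈ range K, y (i + 1) ≤ σy * (1 / 2 + 2 * Φ) := by
  have hn0 : (0 : ℝ) < ((K + 1 : ℕ) : ℝ) := by positivity
  have hm0 : 0 < 1 / ((K + 1 : ℕ) : ℝ) := by positivity
  have h1 : ∑ i ∈ range K, y (i + 1) ≤ σy * ∑ i ∈ range K,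
      (1 - (((i + 1 : ℕ) : ℝ) / ((K + 1 : ℕ) : ℝ) + x (i + 1) - A (i + 1))) := by
    rw [Finset.mul_sum]
    exact Finset.sum_le_sum (fun i hi => h.sy (i + 1) (by have := mem_range.mp hi; omega))
  have h2 := mul_le_mul_of_nonneg_left h1 hm0.le
  have h3 := sum_eta A x hK
  have h4 : ∑ i ∈ range K, A (i + 1) ≤ K * (2 * Φ) := by
    have := Finset.sum_le_sum (fun i hi => hA i (mem_range.mp hi))
    rwa [Finset.sum_const, card_range, nsmul_eq_mul] at this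
  have h5 : 0 ≤ ∑ i ∈ range K, x (i + 1) :=
    Finset.sum_nonneg (fun i hi => h.xn _ (by have := mem_range.mp hi; omega))
  have h6 : 1 / ((K + 1 : ℕ) : ℝ) * (K * (2 * Φ)) ≤ 2 * Φ := by
    have : 1 / ((K + 1 : ℕ) : ℝ) * (K * (2 * Φ)) = (K / ((K + 1 : ℕ) : ℝ)) * (2 * Φ) := by ring
    rw [this]
    have h7 : (K : ℝ) / ((K + 1 : ℕ) : ℝ) ≤ 1 := by
      rw [div_le_one hn0]; push_cast; linarith
    nlinarith
  have h7 := mul_le_mul_of_nonneg_left h4 hm0.le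
  have h8 : 0 ≤ 1 / ((K + 1 : ℕ) : ℝ) * ∑ i ∈ range K, x (i + 1) := by positivity
  have e : 1 / ((K + 1 : ℕ) : ℝ) * (σy * ∑ i ∈ range K,
      (1 - (((i + 1 : ℕ) : ℝ) / ((K + 1 : ℕ) : ℝ) + x (i + 1) - A (i + 1)))) =
      σy * ((1 / ((K + 1 : ℕ) : ℝ)) * ∑ i ∈ range K,
      (1 - (((i + 1 : ℕ) : ℝ) / ((K + 1 : ℕ) : ℝ) + x (i + 1) - A (i + 1)))) := by ring
  rw [e, h3] at h2
  refine h2.trans (mul_le_mul_of_nonneg_left ?_ hσy)
  linarith

/-- bound for the mixed term -/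
lemma J_le (h : NearSeq (K + 1) z g2 g4 e0 e1 σx σy A x y) (hσx : 0 ≤ σx)
    (hσy : 0 ≤ σy) {Φ : ℝ} (hΦ1 : Φ ≤ 3454 / 100000)
    (hA : ∀ i, i ≤ K + 1 → A i ≤ 2 * Φ) :
    ∑ i ∈ range K, x (i + 1) * (y (i + 2) - y i) ≤ 64772 / 100000 * (σx * σy) := by
  have hn0 : (0 : ℝ) < ((K + 1 : ℕ) : ℝ) := by positivity
  have hstep : ∀ i : ℕ, ((i + 1 : ℕ) : ℝ) / ((K + 1 : ℕ) : ℝ) = (i : ℝ) / ((K + 1 : ℕ) : ℝ) +
        1 / ((K + 1 : ℕ) : ℝ) := by
    intro i; push_cast; ring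
  obtain ⟨b, hb1, hb2, hb3⟩ := mixed (M := K + 1) (by omega) (x := x) (y := y)
    (ξ := fun i => (i : ℝ) / ((K + 1 : ℕ) : ℝ) + A i - y i)
    (η := fun i => (i : ℝ) / ((K + 1 : ℕ) : ℝ) + x i - A i) (σx := σx) (σy := σy) hσx h.xn h.y0 h.yM
    (fun i hi => by
      have := h.dξ i hi
      rw [hstep]
      linarith)
    (fun i hi => by
      have := h.dη i hi
      rw [hstep]
      linarith)
    (by simp [h.A0, h.y0])
    (fun i hi => h.sx i hi) (fun i hi => h.sy i hi)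
    (fun i hi => by
      have := h.cy i hi
      have e2 : ((i + 2 : ℕ) : ℝ) / ((K + 1 : ℕ) : ℝ) = ((i + 1 : ℕ) : ℝ) / ((K + 1 : ℕ) : ℝ) +
        1 / ((K + 1 : ℕ) : ℝ) := by push_cast; ring
      have e3 : ((i + 2 : ℕ) : ℝ) / ((K + 1 : ℕ) : ℝ) + x (i + 2) - A (i + 2) -
          (((i + 1 : ℕ) : ℝ) / ((K + 1 : ℕ) : ℝ) + x (i + 1) - A (i + 1)) =
          1 / ((K + 1 : ℕ) : ℝ) + (x (i + 2) - x (i + 1)) - (A (i + 2) - A (i + 1)) := by
        rw [e2]; ring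
      have e4 : ((i + 1 : ℕ) : ℝ) / ((K + 1 : ℕ) : ℝ) + x (i + 1) - A (i + 1) -
          ((i : ℝ) / ((K + 1 : ℕ) : ℝ) + x i - A i) =
          1 / ((K + 1 : ℕ) : ℝ) + (x (i + 1) - x i) - (A (i + 1) - A i) := by
        rw [hstep]; ring
      rw [e3, e4]
      exact this)
  have e1 : ∑ i ∈ range (K + 1), (x i + x (i + 1)) * (y (i + 1) - y i) =
      ∑ i ∈ range K, x (i + 1) * (y (i + 2) - y i) := by
    rw [← wedge_int h.x0 h.xM]
    have h1 := Finset.sum_range_sub (fun i => x i * y i) (K + 1)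
    rw [h.x0, h.xM, zero_mul, zero_mul, sub_zero] at h1
    have h2 : ∑ i ∈ range (K + 1), (x i + x (i + 1)) * (y (i + 1) - y i) =
        ∑ i ∈ range (K + 1), (x i * y (i + 1) - x (i + 1) * y i) +
        ∑ i ∈ range (K + 1), (x (i + 1) * y (i + 1) - x i * y i) := by
      rw [← Finset.sum_add_distrib]
      apply Finset.sum_congr rfl
      intro i _; ring
    rw [h2, h1, add_zero]
  rw [e1] at hb3
  refine hb3.trans ?_
  set u := (b : ℝ) / ((K + 1 : ℕ) : ℝ) + A b - y b with hu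
  set v := 1 - ((b : ℝ) / ((K + 1 : ℕ) : ℝ) + x b - A b) with hv
  have hv0 : 0 ≤ v := by
    rcases Nat.lt_or_ge b (K + 1) with hlt | hge
    · exact (eta_pos' h (by omega)).le
    · have : b = K + 1 := by omega
      rw [hv, this, h.xM, h.AM]
      rw [div_self hn0.ne']; norm_num
  have huv : u + v ≤ 113816 / 100000 := by
    have a1 := hA b hb1
    have a2 := h.xn b hb1
    have a3 := h.yn b hb1
    rw [hu, hv]; linarith
  have huv2 : u * v ≤ 32386 / 100000 := by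
    have h1 : (u + v) ^ 2 ≤ (113816 / 100000) ^ 2 := pow_le_pow_left₀ (by linarith) huv 2
    linarith [sq_nonneg (u - v)]
  have hs : 0 ≤ σx * σy := mul_nonneg hσx hσy
  have := mul_le_mul_of_nonneg_left huv2 hs
  calc 2 * (σx * u) * (σy * v) = 2 * (σx * σy * (u * v)) := by ring
    _ ≤ 2 * (σx * σy * (32386 / 100000)) := by linarith
    _ = 64772 / 100000 * (σx * σy) := by ring

end

end Rein83
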