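import Pool.Agent.Rein83.NearPh

set_option autoImplicit false

/-! Summation lemmas for the near lemma. -/

namespace Rein83

open Finset

/-- summation by parts -/
lemma sbp (f g : ℕ → ℝ) (K : ℕ) :
    ∑ i ∈ range K, f (i + 1) * (g (i + 2) - g i) + ∑ i ∈ range K, g (i + 1) * (f (i + 2) - f i) =
      (f K * g (K + 1) + g K * f (K + 1)) - (f 0 * g 1 + g 0 * f 1) := by
  rw [← Finset.sum_add_distrib]
  have h := Finset.sum_range_sub (fun i => f i * g (i + 1) + g i * f (i + 1)) K
  simp only [zero_add] at h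
  rw [← h]
  apply Finset.sum_congr rfl
  intro i _
  ring

/-- summation by parts with zero boundary values -/
lemma sbp0 {f g : ℕ → ℝ} {K : ℕ} (f0 : f 0 = 0) (fM : f (K + 1) = 0) (g0 : g 0 = 0)
    (gM : g (K + 1) = 0) : ∑ i ∈ range K, f (i + 1) * (g (i + 2) - g i) =
      - ∑ i ∈ range K, g (i + 1) * (f (i + 2) - f i) := by
  have h := sbp f g K
  rw [f0, fM, g0, gM] at h
  linarith

/-- the wedge sum as an interior sum -/
lemma wedge_int {f g : ℕ → ℝ} {K : ℕ} (f0 : f 0 = 0) (fM : f (K + 1) = 0) :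
    ∑ i ∈ range (K + 1), (f i * g (i + 1) - f (i + 1) * g i) =
      ∑ i ∈ range K, f (i + 1) * (g (i + 2) - g i) := by
  have h1 : ∑ i ∈ range (K + 1), f i * g (i + 1) = ∑ i ∈ range K, f (i + 1) * g (i + 2) := by
    rw [Finset.sum_range_succ', f0, zero_mul, add_zero]
  have h2 : ∑ i ∈ range (K + 1), f (i + 1) * g i = ∑ i ∈ range K, f (i + 1) * g i := by
    rw [Finset.sum_range_succ, fM, zero_mul, add_zero]
  rw [Finset.sum_sub_distrib, h1, h2, ← Finset.sum_sub_distrib]
  apply Finset.sum_congr rfl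
  intro i _; ring

lemma sum_int {f : ℕ → ℝ} {K : ℕ} (f0 : f 0 = 0) :
    ∑ i ∈ range (K + 1), f i = ∑ i ∈ range K, f (i + 1) := by
  rw [Finset.sum_range_succ', f0, add_zero]

/-- a Chebyshev type inequality -/
lemma cheb {K : ℕ} {x ξ w : ℕ → ℝ} {σ B : ℝ} (hx : ∀ i, i < K → 0 ≤ x i) (hξ : ∀ i, i < K → 0 < ξ i)
    (hr : ∀ i, i + 1 < K → x (i + 1) * ξ i ≤ x i * ξ (i + 1))
    (hw : ∀ i, i + 1 < K → w (i + 1) ≤ w i) (hs : ∀ i, i < K → x i ≤ σ * ξ i) (hσ : 0 ≤ σ)
    (hB : 0 ≤ B) (hB' : - B ≤ ∑ i ∈ range K, ξ i * w i) :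
    - (σ * B) ≤ ∑ i ∈ range K, x i * w i := by
  by_cases hall : ∀ i, i < K → 0 ≤ w i
  · have : 0 ≤ ∑ i ∈ range K, x i * w i :=
      Finset.sum_nonneg (fun i hi => mul_nonneg (hx i (mem_range.mp hi)) (hall i (mem_range.mp hi)))
    have := mul_nonneg hσ hB
    linarith
  · push Not at hall
    obtain ⟨hi1, hi2⟩ := Nat.find_spec hall
    have hmin : ∀ i, i < Nat.find hall → ¬ (i < K ∧ w i < 0) := fun i hi => Nat.find_min hall hi
    set p := Nat.find hall with hp
    have hwm : ∀ j i, i ≤ j → j < K → w j ≤ w i := by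
      intro j
      induction j with
      | zero => intro i hi _; have : i = 0 := by omega
                rw [this]
      | succ j ih =>
        intro i hi hj
        rcases Nat.lt_or_ge j i with h | h
        · have : i = j + 1 := by omega
          rw [this]
        · exact (hw j hj).trans (ih i h (by omega))
    have hrm : ∀ j i, i ≤ j → j < K → x j / ξ j ≤ x i / ξ i := by
      intro j
      induction j with
      | zero => intro i hi _; have : i = 0 := by omega
                rw [this]
      | succ j ih =>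
        intro i hi hj
        rcases Nat.lt_or_ge j i with h | h
        · have : i = j + 1 := by omega
          rw [this]
        · have h1 : x (j + 1) / ξ (j + 1) ≤ x j / ξ j := by
            rw [div_le_div_iff₀ (hξ _ hj) (hξ j (by omega))]
            exact hr j hj
          exact h1.trans (ih i h (by omega))
    set r := x p / ξ p with hrdef
    have hr0 : 0 ≤ r := div_nonneg (hx p hi1) (hξ p hi1).le
    have hrσ : r ≤ σ := by rw [hrdef, div_le_iff₀ (hξ p hi1)]; exact hs p hi1
    have hterm : ∀ i ∈ range K, r * (ξ i * w i) ≤ x i * w i := by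
      intro i hi
      have hiK := mem_range.mp hi
      have hξi := hξ i hiK
      have e : x i * w i = (x i / ξ i) * (ξ i * w i) := by field_simp
      rw [e]
      rcases Nat.lt_or_ge i p with h | h
      · have hw0 : 0 ≤ w i := by
          by_contra hc
          push Not at hc
          exact hmin i h ⟨hiK, hc⟩
        exact mul_le_mul_of_nonneg_right (hrm p i h.le hi1) (mul_nonneg hξi.le hw0)
      · have hw0 : w i ≤ 0 := (hwm i p h hiK).trans hi2.le
        exact mul_le_mul_of_nonpos_right (hrm i p h hiK)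
          (mul_nonpos_of_nonneg_of_nonpos hξi.le hw0)
    have h1 := Finset.sum_le_sum hterm
    rw [← Finset.mul_sum] at h1
    have h2 : r * (-B) ≤ r * ∑ i ∈ range K, ξ i * w i := mul_le_mul_of_nonneg_left hB' hr0
    have h3 : r * B ≤ σ * B := mul_le_mul_of_nonneg_right hrσ hB
    linarith

/-- mirrored version -/
lemma cheb' {K : ℕ} {x ξ w : ℕ → ℝ} {σ B : ℝ} (hx : ∀ i, i < K → 0 ≤ x i) (hξ : ∀ i, i < K → 0 < ξ i)
    (hr : ∀ i, i + 1 < K → x i * ξ (i + 1) ≤ x (i + 1) * ξ i)
    (hw : ∀ i, i + 1 < K → w i ≤ w (i + 1)) (hs : ∀ i, i < K → x i ≤ σ * ξ i) (hσ : 0 ≤ σ)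
    (hB : 0 ≤ B) (hB' : - B ≤ ∑ i ∈ range K, ξ i * w i) :
    - (σ * B) ≤ ∑ i ∈ range K, x i * w i := by
  have h := cheb (K := K) (x := fun i => x (K - 1 - i)) (ξ := fun i => ξ (K - 1 - i))
    (w := fun i => w (K - 1 - i)) (σ := σ) (B := B)
    (fun i hi => hx _ (by omega)) (fun i hi => hξ _ (by omega))
    (fun i hi => by
      have e : K - 1 - i = (K - 1 - (i + 1)) + 1 := by omega
      rw [e]
      exact hr _ (by omega))
    (fun i hi => by
      have e : K - 1 - i = (K - 1 - (i + 1)) + 1 := by omega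
      rw [e]
      exact hw _ (by omega))
    (fun i hi => hs _ (by omega)) hσ hB (by
      have := Finset.sum_range_reflect (fun i => ξ i * w i) K
      rw [this]; exact hB')
  have := Finset.sum_range_reflect (fun i => x i * w i) K
  rw [this] at h
  exact h

/-- bound for the mixed term -/
lemma mixed {M : ℕ} (hM : 0 < M) {x y ξ η : ℕ → ℝ} {σx σy : ℝ} (hσx : 0 ≤ σx)
    (xn : ∀ i, i ≤ M → 0 ≤ x i) (y0 : y 0 = 0) (yM : y M = 0)
    (dξ : ∀ i, i < M → ξ i < ξ (i + 1)) (dη : ∀ i, i < M → η i < η (i + 1))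
    (hξ0 : ξ 0 = 0)
    (sx : ∀ i, i ≤ M → x i ≤ σx * ξ i) (sy : ∀ i, i ≤ M → y i ≤ σy * (1 - η i))
    (cy : ∀ i, i + 1 < M → (y (i + 2) - y (i + 1)) * (η (i + 1) - η i) ≤
      (y (i + 1) - y i) * (η (i + 2) - η (i + 1))) :
    ∃ b, b ≤ M ∧ 0 ≤ ξ b ∧
      ∑ i ∈ range M, (x i + x (i + 1)) * (y (i + 1) - y i) ≤ 2 * (σx * ξ b) * (σy * (1 - η b)) := by
  have hex : ∃ i, i < M ∧ y (i + 1) - y i ≤ 0 := by
    by_contra hcon
    push Not at hcon
    have : ∀ j, j ≤ M → 0 < j → 0 < y j := by
      intro j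
      induction j with
      | zero => intro _ h; exact absurd h (lt_irrefl _)
      | succ j ih =>
        intro hj _
        have h1 := hcon j hj
        rcases Nat.eq_zero_or_pos j with h | h
        · subst h; rw [y0] at h1; linarith
        · have := ih (by omega) h; linarith
    have := this M le_rfl hM
    rw [yM] at this
    exact lt_irrefl _ this
  obtain ⟨hb1, hb2⟩ := Nat.find_spec hex
  have hmin : ∀ i, i < Nat.find hex → ¬ (i < M ∧ y (i + 1) - y i ≤ 0) := fun i hi =>
    Nat.find_min hex hi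
  set b := Nat.find hex with hb
  have hpos : ∀ i, i < b → 0 < y (i + 1) - y i := by
    intro i hi
    by_contra hc
    push Not at hc
    exact hmin i hi ⟨by omega, hc⟩
  have hneg : ∀ i, b ≤ i → i < M → y (i + 1) - y i ≤ 0 := by
    intro i
    induction i with
    | zero => intro h _
              have : b = 0 := by omega
              rw [this] at hb2; exact hb2
    | succ i ih =>
      intro h1 h2
      rcases Nat.lt_or_ge i b with h | h
      · have : b = i + 1 := by omega
        rw [← this]; exact hb2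
      · have h3 := ih h (by omega)
        have h4 := cy i h2
        have h5 := dη i (by omega)
        have h6 := dη (i + 1) h2
        have h7 : (y (i + 1) - y i) * (η (i + 2) - η (i + 1)) ≤ 0 :=
          mul_nonpos_of_nonpos_of_nonneg h3 (by linarith)
        by_contra hc
        push Not at hc
        have h8 : 0 < (y (i + 2) - y (i + 1)) * (η (i + 1) - η i) :=
          mul_pos hc (by linarith)
        linarith
  have ξmono : ∀ j i, i ≤ j → j ≤ M → ξ i ≤ ξ j := by
    intro j
    induction j with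
    | zero => intro i hi _; have : i = 0 := by omega
              rw [this]
    | succ j ih =>
      intro i hi hj
      rcases Nat.lt_or_ge j i with h | h
      · have : i = j + 1 := by omega
        rw [this]
      · exact (ih i h (by omega)).trans (dξ j hj).le
  have hξb : 0 ≤ ξ b := by rw [← hξ0]; exact ξmono b 0 (Nat.zero_le _) hb1.le
  refine ⟨b, hb1.le, hξb, ?_⟩
  set c := 2 * (σx * ξ b) with hc
  have hc0 : 0 ≤ c := by positivity
  have hterm : ∀ i ∈ range M, (x i + x (i + 1)) * (y (i + 1) - y i) ≤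
      c * (y (min (i + 1) b) - y (min i b)) := by
    intro i hi
    have hiM := mem_range.mp hi
    rcases Nat.lt_or_ge i b with h | h
    · have e1 : min (i + 1) b = i + 1 := by omega
      have e2 : min i b = i := by omega
      rw [e1, e2]
      apply mul_le_mul_of_nonneg_right _ (hpos i h).le
      have k1 := (sx i (by omega)).trans (mul_le_mul_of_nonneg_left (ξmono b i h.le hb1.le) hσx)
      have k2 := (sx (i + 1) (by omega)).trans
        (mul_le_mul_of_nonneg_left (ξmono b (i + 1) h hb1.le) hσx)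
      rw [hc]; linarith
    · have e1 : min (i + 1) b = b := by omega
      have e2 : min i b = b := by omega
      rw [e1, e2, sub_self, mul_zero]
      exact mul_nonpos_of_nonneg_of_nonpos (add_nonneg (xn i (by omega)) (xn (i + 1) hiM))
        (hneg i h hiM)
  have h1 := Finset.sum_le_sum hterm
  rw [← Finset.mul_sum, Finset.sum_range_sub (fun i => y (min i b))] at h1
  have e1 : min M b = b := by omega
  have e2 : min 0 b = 0 := by omega
  rw [e1, e2, y0, sub_zero] at h1
  exact h1.trans (mul_le_mul_of_nonneg_left (sy b hb1.le) hc0)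

/-- telescoping with step two -/
lemma tele2 (f : ℕ → ℝ) (K : ℕ) :
    ∑ i ∈ range K, (f (i + 2) - f i) = f K + f (K + 1) - f 0 - f 1 := by
  induction K with
  | zero => simp
  | succ K ih => rw [Finset.sum_range_succ, ih]; ring

/-- splitting at the sign change -/
lemma part_bound {K : ℕ} {f a : ℕ → ℝ} {c F : ℝ} (hF : ∀ i, i ≤ K + 1 → 0 ≤ f i ∧ f i ≤ F)
    (hc : 0 ≤ c) (ha : ∀ i, i < K → 0 ≤ a i ∧ a i ≤ c)
    (hconc : ∀ i, i + 1 < K → f (i + 3) - f (i + 1) ≤ f (i + 2) - f i) :
    -(c * (2 * F)) ≤ ∑ i ∈ range K, a i * (f (i + 2) - f i) ∧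
      ∑ i ∈ range K, a i * (f (i + 2) - f i) ≤ c * (2 * F) := by
  have hF0 : 0 ≤ F := (hF 0 (by omega)).1.trans (hF 0 (by omega)).2
  have hmon : ∀ j i, i ≤ j → j < K → f (j + 2) - f j ≤ f (i + 2) - f i := by
    intro j
    induction j with
    | zero => intro i hi _; have : i = 0 := by omega
              rw [this]
    | succ j ih =>
      intro i hi hj
      rcases Nat.lt_or_ge j i with h | h
      · have : i = j + 1 := by omega
        rw [this]
      · exact (hconc j hj).trans (ih i h (by omega))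
  -- sign change index
  obtain ⟨p, hpK, hp1, hp2⟩ : ∃ p, p ≤ K ∧ (∀ i, i < p → 0 ≤ f (i + 2) - f i) ∧
      (∀ i, p ≤ i → i < K → f (i + 2) - f i ≤ 0) := by
    by_cases hall : ∃ i, i < K ∧ f (i + 2) - f i < 0
    · obtain ⟨h1, h2⟩ := Nat.find_spec hall
      refine ⟨Nat.find hall, h1.le, ?_, ?_⟩
      · intro i hi
        by_contra hc2
        push Not at hc2
        exact Nat.find_min hall hi ⟨by omega, hc2⟩
      · intro i hi hiK
        exact (hmon i _ hi hiK).trans h2.le
    · push Not at hall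
      exact ⟨K, le_refl _, fun i hi => hall i hi, fun i h1 h2 => by omega⟩
  obtain ⟨q, rfl⟩ : ∃ q, K = p + q := ⟨K - p, by omega⟩
  rw [Finset.sum_range_add]
  have e1 := tele2 f p
  have e2 := tele2 (fun i => f (p + i)) q
  have a1 : 0 ≤ ∑ i ∈ range p, a i * (f (i + 2) - f i) :=
    Finset.sum_nonneg (fun i hi => mul_nonneg (ha i (by have := mem_range.mp hi; omega)).1
      (hp1 i (mem_range.mp hi)))
  have a2 : ∑ i ∈ range p, a i * (f (i + 2) - f i) ≤ c * ∑ i ∈ range p, (f (i + 2) - f i) := by
    rw [Finset.mul_sum]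
    apply Finset.sum_le_sum
    intro i hi
    exact mul_le_mul_of_nonneg_right (ha i (by have := mem_range.mp hi; omega)).2
      (hp1 i (mem_range.mp hi))
  have a3 : ∑ i ∈ range q, a (p + i) * (f (p + i + 2) - f (p + i)) ≤ 0 :=
    Finset.sum_nonpos (fun i hi => mul_nonpos_of_nonneg_of_nonpos
      (ha (p + i) (by have := mem_range.mp hi; omega)).1
      (hp2 (p + i) (by omega) (by have := mem_range.mp hi; omega)))
  have a4 : c * ∑ i ∈ range q, (f (p + (i + 2)) - f (p + i)) ≤
      ∑ i ∈ range q, a (p + i) * (f (p + i + 2) - f (p + i)) := by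
    rw [Finset.mul_sum]
    apply Finset.sum_le_sum
    intro i hi
    have hi' := mem_range.mp hi
    exact mul_le_mul_of_nonpos_right (ha (p + i) (by omega)).2
      (hp2 (p + i) (by omega) (by omega))
  rw [e1] at a2
  rw [e2] at a4
  simp only [add_zero] at a4
  have f0 := hF 0 (by omega)
  have f1 := hF 1 (by omega)
  have fp := hF p (by omega)
  have fp1 := hF (p + 1) (by omega)
  have fq := hF (p + q) (by omega)
  have fq1 := hF (p + (q + 1)) (by omega)
  have b1 : c * (f p + f (p + 1) - f 0 - f 1) ≤ c * (2 * F) :=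
    mul_le_mul_of_nonneg_left (by linarith [fp.2, fp1.2, f0.1, f1.1]) hc
  have b2 : c * (-(2 * F)) ≤ c * (f (p + q) + f (p + (q + 1)) - f p - f (p + 1)) :=
    mul_le_mul_of_nonneg_left (by linarith [fp.2, fp1.2, fq.1, fq1.1]) hc
  constructor
  · linarith
  · linarith

end Rein83
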